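import Pool.Agent.Lib.MP_751085_ag.ZF.G.Smo
import Pool.Agent.Lib.MP_751085_ag.ZC.V.Z1a
import Pool.Agent.Lib.MP_751085_ag.ZC.V.Zor
import Pool.Agent.Lib.MP_751085_ag.ZC.CMap

/-! Good models: smooth fibres are irreducible. -/

namespace Pool.Agent.ZFy.GM

open Pool.Agent.ZCy
open scoped Classical WithZero Polynomial PowerSeries
open WithZero (exp)
open IsLocalRing

variable {O K Ω σ : Type} [CommRing O] [Field K] [Field Ω] [Fintype σ] {N : ℕ} {GG : Set (Fm N O)}

theorem girr_mm {A B C : Type} [CommRing A] [CommRing B] [CommRing C] (χ : A[X][X]) (f : A →+* B)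
    (g : B →+* C) : (χ.map (Polynomial.mapRingHom f)).map (Polynomial.mapRingHom g) =
      χ.map (Polynomial.mapRingHom (g.comp f)) := by
  rw [Polynomial.map_map, Polynomial.mapRingHom_comp]

omit [Fintype σ] in
theorem girr_top (c : PChart K σ) : c.top.degree ≠ 0 := fun h => by
  have h1 := Polynomial.coeff_eq_zero_of_degree_lt (n := c.δ) (h.trans_lt (Nat.cast_pos.2 c.pos))
  rw [PChart.top, Polynomial.finsetSum_coeff, Finset.sum_eq_single c.δ, Polynomial.coeff_monomial,
    if_pos rfl, ← c.deg, c.monic.coeff_natDegree] at h1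
  · simp at h1
  · exact fun i _ hi => by rw [Polynomial.coeff_monomial, if_neg hi]
  · simp

omit [Fintype σ] in
theorem girr_inj {η : O →+* K} {η' : O →+* Ω} (h : Function.Injective η)
    (h' : Function.Injective η') (x : O) : η x = 0 ↔ η' x = 0 :=
  (map_eq_zero_iff η h).trans (map_eq_zero_iff η' h').symm

omit [Fintype σ] in
theorem girr_cl (K : Type) [Field K] : Function.Injective
    ((algebraMap (RF σ K) (AlgebraicClosure (RF σ K))).comp (algebraMap (MP σ K) (RF σ K))) :=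
  (algebraMap (RF σ K) _).injective.comp (IsFractionRing.injective (MP σ K) (RF σ K))

omit [Fintype σ] in
/-- Over the algebraic closure `K'` of `K` (`PChart.exists_map`, `cχ_map`): `irr_frac` for
`MP σ K' → RF σ K'`, a root of the top form in `K'`, `Wt.geom` to an algebraic closure of
`RF σ K'`, then `irr_ker`. -/
theorem irr_generic (c : PChart K σ) (h : c.GI) {η : MP σ K →+* Ω} (hη : Function.Injective η) :
    Irreducible ((cχ c).map (Polynomial.mapRingHom η)) := by
  obtain ⟨c', hc⟩ := c.exists_map (algebraMap K (AlgebraicClosure K))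
  have h1 : Irreducible (cχ c') := (MulEquiv.irreducible_iff (Polynomial.mapEquiv
    (MvPolynomial.optionEquivLeft (AlgebraicClosure K) σ).toRingEquiv)).2 (hc.χ ▸ h)
  obtain ⟨hw, ht, -⟩ := wt_chart c'
  obtain ⟨p, q, hb⟩ := chart_bez c'
  obtain ⟨z, hz⟩ := IsAlgClosed.exists_root _ (girr_top c')
  set α := algebraMap (MP σ (AlgebraicClosure K)) (RF σ (AlgebraicClosure K))
  have h2 := (hw.map α).geom (irr_frac (isFr_alg _ _) hw.monic h1)
    (p := p.map (Polynomial.mapRingHom α)) (q := q.map (Polynomial.mapRingHom α))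
    (by rw [Polynomial.derivative_map, ← Polynomial.map_mul, ← Polynomial.map_mul,
      ← Polynomial.map_add, ← hb, Polynomial.map_C]; rfl) (chart_D_ne c' α)
    (z := α.comp MvPolynomial.C z) (by
      rw [topF_map hw.monic, ht, Polynomial.map_map, Polynomial.eval_map, Polynomial.eval₂_at_apply,
        hz.eq_zero, map_zero]) (algebraMap _ (AlgebraicClosure (RF σ (AlgebraicClosure K))))
  rw [girr_mm, cχ_map c hc, girr_mm] at h2
  refine irr_ker (wt_chart c).1.monic (girr_inj ?_ hη) h2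
  exact (girr_cl _).comp (MvPolynomial.map_injective _ (algebraMap K (AlgebraicClosure K)).injective)

/-- `exists_generic_dir σ Ω`, `R = κ⟦X⟧`, `η = eval₂Hom (C ∘ f ∘ ρ) (dirn f b d)` has the kernel
of `map ρ` (`dirn_indep`); `irr_ker` to `Fr R`, `irr_down`, `irr_core`, and `irr_ker` again. -/
theorem irr_spec (c : Chart O σ N GG) {Φ : MP σ O} (hG : ∀ G ∈ GG, ∃ m, G.IsHomogeneous m)
    (hs : c.SM Φ) (ρ : O →+* Ω) {Ω₁ : Type} [Field Ω₁] [IsAlgClosed Ω₁] {η₁ : MP σ O →+* Ω₁}
    (h1 : ∀ p, η₁ p = 0 ↔ MvPolynomial.map ρ p = 0)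
    (hi : Irreducible ((cχ c.toPChart).map (Polynomial.mapRingHom η₁))) {b : σ → Ω}
    (hb : MvPolynomial.eval₂ ρ b Φ ≠ 0) :
    Irreducible ((cχ c.toPChart).map (Polynomial.mapRingHom (MvPolynomial.eval₂Hom ρ b))) := by
  have := ρ.domain_nontrivial
  obtain ⟨κ, _, _, f, d, hd⟩ := exists_generic_dir σ Ω
  have := isAlgClosed_res_ps κ
  have hm := (wt_chart c.toPChart).1.monic
  set η := (MvPolynomial.eval₂Hom (PowerSeries.C.comp f) (dirn f b d)).comp (MvPolynomial.map ρ)
    with hη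
  have e : PowerSeries.constantCoeff.comp η = f.comp (MvPolynomial.eval₂Hom ρ b) :=
    MvPolynomial.ringHom_ext (fun a => by simp [hη]) fun i => by simp [hη, dirn]
  have hu : ∀ p, IsUnit (η p) ↔ MvPolynomial.eval₂Hom ρ b p ≠ 0 := fun p => by
    rw [PowerSeries.isUnit_iff_constantCoeff, isUnit_iff_ne_zero, ← RingHom.comp_apply, e,
      RingHom.comp_apply, map_ne_zero]
  have h2 := irr_ker hm (η' := (algebraMap κ⟦X⟧ (Fr κ⟦X⟧)).comp η) (fun p => (h1 p).trans
    (((map_eq_zero_iff _ (IsFractionRing.injective _ _)).trans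
      (map_eq_zero_iff _ (dirn_indep hd))).symm)) hi
  rw [← girr_mm] at h2
  refine irr_ker hm (fun p => ?_) (irr_core c hG hs ((hu Φ).2 hb) (irr_down _ (hm.map _) h2))
  rw [RingHom.comp_apply, ← not_iff_not, ← ne_eq, residue_ne_zero_iff_isUnit, hu]

/-- `irr_generic` into an algebraic closure of `RF σ K`, `irr_spec` -/
theorem irr_pt {GG : Set (Fm N K)} (c : Chart K σ N GG) {Φ : MP σ K}
    (hG : ∀ G ∈ GG, ∃ m, G.IsHomogeneous m) (h : c.GI) (hs : c.SM Φ) (ρ : K →+* Ω) {b : σ → Ω}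
    (hb : MvPolynomial.eval₂ ρ b Φ ≠ 0) :
    Irreducible ((cχ c.toPChart).map (Polynomial.mapRingHom (MvPolynomial.eval₂Hom ρ b))) := by
  exact irr_spec c hG hs ρ (fun p => (map_eq_zero_iff _ (girr_cl K)).trans
    (map_eq_zero_iff _ (MvPolynomial.map_injective ρ ρ.injective)).symm)
    (irr_generic c.toPChart h (girr_cl K)) hb

/-- The valuation of the prime `C π` of `MP σ O` (`exists_vcen`), `zorn`: `η : MP σ O → R` is
injective, extends to `MP σ K → Fr R`, and `residue ∘ η` has kernel `(C π)`. `irr_generic`,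
`irr_down`, `irr_core`, `irr_spec`. -/
theorem irr_dvr [IsDomain O] [IsDiscreteValuationRing O] [Algebra O K] [IsFractionRing O K]
    (c₀ : Chart O σ N GG) {c : PChart K σ} {Φ : MP σ O} (hG : ∀ G ∈ GG, ∃ m, G.IsHomogeneous m)
    (hc : c₀.toPChart.IsMap (algebraMap O K) c) (h : c.GI) (hs : c₀.SM Φ) {ρ : O →+* Ω}
    (hρ : ∀ x, ρ x = 0 ↔ ¬IsUnit x) {b : σ → Ω} (hb : MvPolynomial.eval₂ ρ b Φ ≠ 0) :
    Irreducible ((cχ c₀.toPChart).map (Polynomial.mapRingHom (MvPolynomial.eval₂Hom ρ b))) := by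
  obtain ⟨π, hπ⟩ := IsDiscreteValuationRing.exists_irreducible O
  have hα := isFr_alg (MP σ O) (Fr (MP σ O))
  obtain ⟨v, hv, h0⟩ := exists_vcen hα ((MvPolynomial.prime_C_iff σ).2 hπ.prime)
  obtain ⟨R, _, _, _, w, ψ, _, hw, hi⟩ := zorn ⟨_, h0⟩
  obtain ⟨e, he⟩ := hw.exists_equiv
  replace hi := idx_one_iff.1 hi
  let η : MP σ O →+* R := (e.symm : _ →+* R).comp ((ψ.comp (algebraMap _ _)).codRestrict w.integer
    fun p => (hi _).trans_le (hv.1 p))
  have hη : (algebraMap R (Fr R)).comp η = ψ.comp (algebraMap _ _) := RingHom.ext fun p =>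
    (he _).symm.trans (congrArg Subtype.val (e.apply_symm_apply _))
  have hk : ∀ p, (residue R).comp η p = 0 ↔ MvPolynomial.map ρ p = 0 := fun p => by
    rw [RingHom.comp_apply, ← hw.lt_one, ← RingHom.comp_apply, hη, RingHom.comp_apply, hi, hv.2,
      MvPolynomial.C_dvd_iff_dvd_coeff, MvPolynomial.ext_iff]
    refine forall_congr' fun m => ?_
    rw [MvPolynomial.coeff_map, MvPolynomial.coeff_zero, hρ, ← Ideal.mem_span_singleton,
      ← hπ.maximalIdeal_eq]
    rfl
  have hm := (wt_chart c₀.toPChart).1.monic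
  have h1 := irr_generic c h (girr_cl K)
  rw [cχ_map _ hc, girr_mm] at h1
  have h2 := irr_ker hm (girr_inj ((girr_cl K).comp (MvPolynomial.map_injective _
    (IsFractionRing.injective O K))) (η' := ψ.comp (algebraMap _ _)) (ψ.injective.comp hα.1)) h1
  rw [← hη, ← girr_mm] at h2
  refine irr_spec c₀ hG hs ρ hk (irr_core c₀ hG hs ((residue_ne_zero_iff_isUnit _).1
    fun e => hb ?_) (irr_down _ (hm.map _) h2)) hb
  rw [MvPolynomial.eval₂_eq_eval_map, (hk Φ).1 e, map_zero]

end Pool.Agent.ZFy.GM
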