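import Pool.Agent.Lib.MP_751085_ag.ZF.G.Defs
import Pool.Agent.Lib.MP_751085_ag.ZC.V.Cv
import Pool.Agent.Lib.MP_751085_ag.ZC.V.Wei
import Pool.Agent.Lib.MP_751085_ag.ZC.V.Hen

/-! Good models: power series over a complete discrete valuation ring. -/

namespace Pool.Agent.ZFy.GM

open Pool.Agent.ZCy
open scoped Classical WithZero Polynomial PowerSeries
open WithZero (exp)
open IsLocalRing

variable {R : Type} [CommRing R] [IsDomain R] [CDVR R] {π : R} {V : Vl (Fr R⟦X⟧)}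
  {f f' : Fr R⟦X⟧} {n n' : ℤ}

theorem exists_cn1 {A K : Type} [CommRing A] [WfDvdMonoid A] [Field K] {α : A →+* K} (hα : IsFr α)
    {P : A} (hP : Prime P) : ∃ v : Vl K, Cn1 α v P := exists_vcen hα hP

theorem Cn1.nrm {A K : Type} [CommRing A] [Field K] {α : A →+* K} {P : A} {v : Vl K}
    (h : Cn1 α v P) : Nrm v := ⟨_, h.2⟩

/-- write `a = P ^ k a'` with `P` not dividing `a'` -/
theorem Cn1.dvd_iff {A K : Type} [CommRing A] [IsDomain A] [WfDvdMonoid A] [Field K] {α : A →+* K}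
    {P : A} {v : Vl K} (h : Cn1 α v P) (hP : Prime P) (a : A) (k : ℕ) :
    v (α a) ≤ exp (-(k : ℤ)) ↔ P ^ k ∣ a := by
  have hp : ∀ n : ℕ, v (α (P ^ n)) = exp (-(n : ℤ)) := fun n => by
    rw [map_pow, ← zpow_natCast, vcv_pow h.2]
  refine ⟨fun hv => ?_, ?_⟩
  · rcases eq_or_ne a 0 with rfl | h0
    · exact dvd_zero _
    obtain ⟨n, b, hb, rfl⟩ := WfDvdMonoid.max_power_factor' h0 hP.not_isUnit
    rw [map_mul, map_mul, hp, (h.1.eq_one b).2 hb, mul_one, WithZero.exp_le_exp] at hv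
    exact (pow_dvd_pow P (by omega)).mul_right b
  · rintro ⟨b, rfl⟩
    rw [map_mul, map_mul, hp]
    exact mul_le_of_le_one_right' (h.1.1 b)

theorem exists_pv (hπ : Irreducible π) : ∃ V : Vl (Fr R⟦X⟧), Cn1 (fr R) V (PowerSeries.C π) :=   exists_cn1 (isFr_alg _ _) (prime_ps_C hπ.prime)

theorem pv_X (hπ : Irreducible π) (hV : Cen (fr R) V (PowerSeries.C π)) :
    V (fr R PowerSeries.X) = 1 :=   (hV.eq_one _).2 fun h => hπ.not_isUnit (isUnit_of_dvd_one (by simpa using ps_C_dvd.1 h 1))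

theorem gps0_max (hπ : Irreducible π) : maximalIdeal R = Ideal.span {π} :=
  (IsDiscreteValuationRing.irreducible_iff_uniformizer π).1 hπ

theorem gps0_res (hπ : Irreducible π) (a : R) : residue R a = 0 ↔ π ∣ a := by
  rw [residue_eq_zero_iff, gps0_max hπ, Ideal.mem_span_singleton]

theorem gps0_unit (hπ : Irreducible π) (a : R) : IsUnit a ↔ ¬π ∣ a := by
  rw [← gps0_res hπ, ← residue_ne_zero_iff_isUnit]

theorem red_eq_zero (hπ : Irreducible π) (g : R⟦X⟧) :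
    PowerSeries.map (residue R) g = 0 ↔ PowerSeries.C π ∣ g := by
  simp only [ps_C_dvd, PowerSeries.ext_iff, PowerSeries.coeff_map, map_zero, gps0_res hπ]

theorem poly_red_eq_zero (hπ : Irreducible π) (p : R[X]) :
    p.map (residue R) = 0 ↔ Polynomial.C π ∣ p := by
  simp only [Polynomial.C_dvd_iff_dvd_coeff, Polynomial.ext_iff, Polynomial.coeff_map,
    Polynomial.coeff_zero, gps0_res hπ]

theorem C_dvd_sh (t : R) (p : R[X]) : PowerSeries.C π ∣ sh t p ↔ Polynomial.C π ∣ p := by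
  have key : ∀ (s : R) (q : R[X]), Polynomial.C π ∣ q → Polynomial.C π ∣ Polynomial.taylor s q := by
    rintro s q ⟨r, rfl⟩
    rw [Polynomial.taylor_mul, Polynomial.taylor_C]
    exact dvd_mul_right _ _
  rw [sbs_eq, Polynomial.expand_one, Polynomial.map_id, ps_C_dvd]
  simp only [Polynomial.coeff_coe]
  rw [← Polynomial.C_dvd_iff_dvd_coeff]
  refine ⟨fun h => ?_, key t p⟩
  have := key (-t) _ h
  rwa [Polynomial.taylor_taylor, neg_add_cancel, Polynomial.taylor_zero] at this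

/-- a series with nonzero reduction is `X ^ k ε` modulo `π` -/
theorem exists_ro_ps (hπ : Irreducible π) {g : R⟦X⟧} (h : ¬PowerSeries.C π ∣ g) :
    ∃ (k : ℕ) (ε : R⟦X⟧), IsUnit ε ∧ PowerSeries.C π ∣ g - PowerSeries.X ^ k * ε := by
  have hex : ∃ n, ¬π ∣ PowerSeries.coeff n g := not_forall.1 fun h' => h (ps_C_dvd.2 h')
  refine ⟨Nat.find hex, PowerSeries.mk fun n => PowerSeries.coeff (n + Nat.find hex) g, ?_,
    ps_C_dvd.2 fun n => ?_⟩
  · rw [PowerSeries.isUnit_iff_constantCoeff, gps0_unit hπ]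
    simpa using Nat.find_spec hex
  · rw [map_sub, PowerSeries.coeff_X_pow_mul']
    split_ifs with hn
    · rw [PowerSeries.coeff_mk, Nat.sub_add_cancel hn, sub_self]
      exact dvd_zero _
    · rw [sub_zero]
      exact not_not.1 (Nat.find_min hex (not_le.1 hn))

theorem gps0_X : fr R PowerSeries.X ≠ 0 := (isFr_alg _ _).vfrc_ne PowerSeries.X_ne_zero

theorem gps0_vu (hπ : Irreducible π) (hV : Cen (fr R) V (PowerSeries.C π)) {ε : R⟦X⟧}
    (h : IsUnit ε) : V (fr R ε) = 1 :=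
  (hV.eq_one _).2 fun h' => (prime_ps_C hπ.prime).not_isUnit (isUnit_of_dvd_unit h' h)

theorem gps0_val (hπ : Irreducible π) (hV : Cen (fr R) V (PowerSeries.C π)) {ε : R⟦X⟧}
    (h : IsUnit ε) (n : ℤ) : V (fr R PowerSeries.X ^ n * fr R ε) = 1 := by
  rw [map_mul, map_zpow₀, pv_X hπ hV, one_zpow, one_mul, gps0_vu hπ hV h]

theorem gps0_one (hπ : Irreducible π) (hV : Cen (fr R) V (PowerSeries.C π)) (h : Ro V f n) :
    V f = 1 := by
  obtain ⟨ε, hε, h⟩ := h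
  rw [← gps0_val hπ hV hε n] at h ⊢
  exact V.map_eq_of_sub_lt h

theorem gps0_mul (hπ : Irreducible π) (hV : Cen (fr R) V (PowerSeries.C π)) (h : Ro V f n)
    (h' : Ro V f' n') : Ro V (f * f') (n + n') := by
  have h1 := gps0_one hπ hV h'
  obtain ⟨ε, hε, h⟩ := h
  obtain ⟨ε', hε', h'⟩ := h'
  refine ⟨ε * ε', hε.mul hε', ?_⟩
  have e : f * f' - fr R PowerSeries.X ^ (n + n') * fr R (ε * ε') =
      (f - fr R PowerSeries.X ^ n * fr R ε) * f' +
        fr R PowerSeries.X ^ n * fr R ε * (f' - fr R PowerSeries.X ^ n' * fr R ε') := by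
    rw [zpow_add₀ gps0_X, map_mul]
    ring
  rw [e]
  refine V.map_add_lt ?_ ?_
  · rwa [map_mul, h1, mul_one]
  · rwa [map_mul, gps0_val hπ hV hε, one_mul]

theorem gps0_inv (hπ : Irreducible π) (hV : Cen (fr R) V (PowerSeries.C π)) (h : Ro V f n) :
    Ro V f⁻¹ (-n) := by
  have h1 := gps0_one hπ hV h
  obtain ⟨ε, hε, h⟩ := h
  have h2 := gps0_val hπ hV hε n
  obtain ⟨u, rfl⟩ := hε
  refine ⟨↑u⁻¹, Units.isUnit _, ?_⟩
  rw [map_units_inv, zpow_neg, ← mul_inv,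
    inv_sub_inv (V.ne_zero_iff.1 (h1 ▸ one_ne_zero)) (V.ne_zero_iff.1 (h2 ▸ one_ne_zero)),
    map_div₀, map_mul V f, h1, h2, mul_one, div_one, Valuation.map_sub_swap]
  exact h

theorem gps0_ps (hπ : Irreducible π) (hV : Cen (fr R) V (PowerSeries.C π)) {g : R⟦X⟧}
    (h : ¬PowerSeries.C π ∣ g) : ∃ k : ℕ, Ro V (fr R g) k := by
  obtain ⟨k, ε, hε, h⟩ := exists_ro_ps hπ h
  refine ⟨k, ε, hε, ?_⟩
  rw [zpow_natCast, ← map_pow, ← map_mul, ← map_sub]
  exact (hV.2 _).2 h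

theorem exists_ro (hπ : Irreducible π) (hV : Cen (fr R) V (PowerSeries.C π)) (h : V f = 1) :
    ∃ n, Ro V f n := by
  obtain ⟨a, b, hb, e⟩ := (hV.le_one_iff (isFr_alg _ _) (prime_ps_C hπ.prime) f).1 h.le
  have h1 := (hV.eq_one b).2 hb
  obtain ⟨k, hk⟩ := gps0_ps hπ hV ((hV.eq_one a).1 (by rw [← e, map_mul, h, h1, mul_one]))
  obtain ⟨m, hm⟩ := gps0_ps hπ hV hb
  have := gps0_mul hπ hV hk (gps0_inv hπ hV hm)
  rw [← e, mul_inv_cancel_right₀ (V.ne_zero_iff.1 (h1 ▸ one_ne_zero))] at this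
  exact ⟨_, this⟩

theorem Ro.one (hπ : Irreducible π) (hV : Cen (fr R) V (PowerSeries.C π)) (h : Ro V f n) :
    V f = 1 := gps0_one hπ hV h

theorem gps0_not_lt (hπ : Irreducible π) (hV : Cen (fr R) V (PowerSeries.C π)) (h : Ro V f n)
    (h' : Ro V f n') : ¬n < n' := fun hlt => by
  obtain ⟨ε, hε, h⟩ := h
  obtain ⟨ε', -, h'⟩ := h'
  obtain ⟨d, rfl⟩ := Int.le.dest (Int.add_one_le_of_lt hlt)
  have h1 := V.map_sub_lt h' h
  have e : f - fr R PowerSeries.X ^ (n + 1 + d) * fr R ε' - (f - fr R PowerSeries.X ^ n * fr R ε) =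
      fr R PowerSeries.X ^ n * fr R (ε - PowerSeries.X * PowerSeries.X ^ d * ε') := by
    rw [zpow_add₀ gps0_X, zpow_add_one₀ gps0_X, zpow_natCast]
    simp only [map_sub, map_mul, map_pow]
    ring
  rw [e, map_mul, map_zpow₀, pv_X hπ hV, one_zpow, one_mul, hV.2] at h1
  refine (gps0_unit hπ _).1 (PowerSeries.isUnit_iff_constantCoeff.1 hε) ?_
  simpa using ps_C_dvd.1 h1 0

theorem Ro.unique (hπ : Irreducible π) (hV : Cen (fr R) V (PowerSeries.C π)) (h : Ro V f n)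
    (h' : Ro V f n') : n = n' :=   le_antisymm (not_lt.1 (gps0_not_lt hπ hV h' h)) (not_lt.1 (gps0_not_lt hπ hV h h'))

theorem Ro.mul (hπ : Irreducible π) (hV : Cen (fr R) V (PowerSeries.C π)) (h : Ro V f n)
    (h' : Ro V f' n') : Ro V (f * f') (n + n') := gps0_mul hπ hV h h'

theorem Ro.pow (hπ : Irreducible π) (hV : Cen (fr R) V (PowerSeries.C π)) (h : Ro V f n) (k : ℕ) :
    Ro V (f ^ k) (k * n) := by
  induction k with
  | zero => exact ⟨1, isUnit_one, by simp⟩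
  | succ k ih =>
    rw [pow_succ, Nat.cast_succ, add_one_mul]
    exact ih.mul hπ hV h

theorem Ro.congr (h : Ro V f n) (e : V (f' - f) < 1) : Ro V f' n := by
  obtain ⟨ε, hε, h⟩ := h
  refine ⟨ε, hε, ?_⟩
  rw [← sub_add_sub_cancel f' f]
  exact V.map_add_lt e h

theorem ro_X (k : ℤ) : Ro V (fr R PowerSeries.X ^ k) k := ⟨1, isUnit_one, by simp⟩

theorem ro_unit {ε : R⟦X⟧} (h : IsUnit ε) : Ro V (fr R ε) 0 := ⟨ε, h, by simp⟩

theorem Ro.nonneg (hπ : Irreducible π) (hV : Cen (fr R) V (PowerSeries.C π)) {g : R⟦X⟧}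
    (h : Ro V (fr R g) n) : 0 ≤ n ∧ (n = 0 ↔ IsUnit g) := by
  obtain ⟨k, hk⟩ := gps0_ps hπ hV ((hV.eq_one g).1 (h.one hπ hV))
  refine ⟨h.unique hπ hV hk ▸ Int.natCast_nonneg k, ?_, fun hg => h.unique hπ hV (ro_unit hg)⟩
  rintro rfl
  obtain ⟨ε, hε, h⟩ := h
  rw [zpow_zero, one_mul, ← map_sub, hV.2] at h
  rw [PowerSeries.isUnit_iff_constantCoeff, gps0_unit hπ] at hε ⊢
  refine fun h1 => hε ?_
  have h2 : π ∣ PowerSeries.constantCoeff g - PowerSeries.constantCoeff ε := by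
    simpa using ps_C_dvd.1 h 0
  exact (dvd_iff_dvd_of_dvd_sub h2).1 h1

theorem exists_pp (hπ : Irreducible π) (hV : Cen (fr R) V (PowerSeries.C π)) (h : V f ≤ 1) :
    ∃ (N : ℕ) (g : R⟦X⟧), V (f * fr R PowerSeries.X ^ N - fr R g) < 1 := by
  obtain ⟨a, b, hb, e⟩ := (hV.le_one_iff (isFr_alg _ _) (prime_ps_C hπ.prime) f).1 h
  obtain ⟨N, ε, hε, h1⟩ := exists_ro_ps hπ hb
  obtain ⟨u, hu⟩ := hε.exists_right_inv
  refine ⟨N, a * u, ?_⟩
  have e1 : f * fr R PowerSeries.X ^ N - fr R (a * u) =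
      -(f * fr R ((b - PowerSeries.X ^ N * ε) * u)) := by
    rw [sub_mul, mul_assoc _ ε, hu, mul_one, map_mul, ← e]
    simp only [map_sub, map_mul, map_pow]
    ring
  rw [e1, Valuation.map_neg, map_mul]
  exact lt_of_le_of_lt (mul_le_of_le_one_left' h) ((hV.2 _).2 (h1.mul_right _))

/-- completeness, coefficient by coefficient -/
theorem ps_lim (hπ : Irreducible π) (g : ℕ → R⟦X⟧)
    (h : ∀ n, PowerSeries.C π ^ n ∣ g (n + 1) - g n) :
    ∃ y, ∀ n, PowerSeries.C π ^ n ∣ y - g n := by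
  have h1 : ∀ {m n : ℕ}, m ≤ n → PowerSeries.C π ^ m ∣ g m - g n := fun {m n} hmn => by
    induction n, hmn using Nat.le_induction with
    | base => simp
    | succ n hn ih =>
      rw [← sub_add_sub_cancel _ (g n)]
      exact ih.add (dvd_sub_comm.1 ((pow_dvd_pow _ hn).trans (h n)))
  have h2 : ∀ (n : ℕ) (a b : R),
      a ≡ b [SMOD (maximalIdeal R ^ n • ⊤ : Submodule R R)] ↔ π ^ n ∣ a - b := fun n a b => by
    rw [SModEq.sub_mem, smul_eq_mul, Ideal.mul_top, gps0_max hπ, Ideal.span_singleton_pow,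
      Ideal.mem_span_singleton]
  have h3 : ∀ i, ∃ L, ∀ n, PowerSeries.coeff i (g n) ≡ L
      [SMOD (maximalIdeal R ^ n • ⊤ : Submodule R R)] := fun i =>
    IsPrecomplete.prec' _ fun {m n} hmn => (h2 _ _ _).2 (by
      have := h1 hmn
      rw [← map_pow] at this
      simpa only [map_sub] using ps_C_dvd.1 this i)
  choose L hL using h3
  refine ⟨PowerSeries.mk L, fun n => ?_⟩
  rw [← map_pow, ps_C_dvd]
  intro i
  rw [map_sub, PowerSeries.coeff_mk]
  exact dvd_sub_comm.1 ((h2 _ _ _).1 (hL i n))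

theorem gps0_hensel {χ : R⟦X⟧[X]} (hm : χ.Monic) {z : ResidueField R}
    (h0 : χ.eval₂ ((residue R).comp PowerSeries.constantCoeff) z = 0)
    (h1 : χ.derivative.eval₂ ((residue R).comp PowerSeries.constantCoeff) z ≠ 0) :
    ∃ η : R⟦X⟧, χ.eval η = 0 ∧ residue R (PowerSeries.constantCoeff η) = z := by
  have := isAdicComplete_ps R
  obtain ⟨t, rfl⟩ := residue_surjective z
  have he : ∀ q : R⟦X⟧[X], residue R (PowerSeries.constantCoeff (q.eval (PowerSeries.C t))) =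
      q.eval₂ ((residue R).comp PowerSeries.constantCoeff) (residue R t) := fun q => by
    have := Polynomial.eval₂_at_apply (p := q) ((residue R).comp PowerSeries.constantCoeff)
      (PowerSeries.C t)
    simpa using this.symm
  obtain ⟨a, ha, hb⟩ := HenselianRing.is_henselian (I := maximalIdeal R⟦X⟧) χ hm (PowerSeries.C t)
    (vwei_mem.2 ((residue_eq_zero_iff _).1 ((he χ).trans h0)))
    (IsUnit.map _ (PowerSeries.isUnit_iff_constantCoeff.2
      ((residue_ne_zero_iff_isUnit _).1 ((he _).trans_ne h1))))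
  refine ⟨a, ha, ?_⟩
  have h2 := (residue_eq_zero_iff _).2 (vwei_mem.1 hb)
  rwa [map_sub, PowerSeries.constantCoeff_C, map_sub, sub_eq_zero] at h2

theorem gps0_l {l : ℕ} (hl : IsUnit (l : R)) : (l : ResidueField R) ≠ 0 := by
  rw [← map_natCast (residue R)]
  exact (residue_ne_zero_iff_isUnit _).2 hl

/-- Hensel in the complete local ring `R⟦X⟧` (`isAdicComplete_ps`) -/
theorem unit_root [IsAlgClosed (ResidueField R)] {l : ℕ} (hl : IsUnit (l : R)) {ε : R⟦X⟧}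
    (h : IsUnit ε) : ∃ η : R⟦X⟧, η ^ l = ε := by
  have h1 := gps0_l hl
  have h2 : l ≠ 0 := fun e => h1 (by rw [e, Nat.cast_zero])
  obtain ⟨z, hz⟩ := IsAlgClosed.exists_pow_nat_eq (residue R (PowerSeries.constantCoeff ε))
    (Nat.pos_of_ne_zero h2)
  have h3 : z ≠ 0 := fun e => (residue_ne_zero_iff_isUnit _).2
    (PowerSeries.isUnit_iff_constantCoeff.1 h) (by rw [← hz, e, zero_pow h2])
  obtain ⟨η, hη, -⟩ := gps0_hensel (Polynomial.monic_X_pow_sub_C ε h2) (z := z) (by simp [hz])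
    (by simp [Polynomial.derivative_X_pow, h1, h3])
  exact ⟨η, by simpa [sub_eq_zero] using hη⟩

/-- Hensel in the complete local ring `R⟦X⟧` -/
theorem ps_hensel {χ : R⟦X⟧[X]} (hm : χ.Monic) {z : ResidueField R}
    (h0 : χ.eval₂ ((residue R).comp PowerSeries.constantCoeff) z = 0)
    (h1 : χ.derivative.eval₂ ((residue R).comp PowerSeries.constantCoeff) z ≠ 0) :
    ∃ η : R⟦X⟧, χ.eval η = 0 ∧ residue R (PowerSeries.constantCoeff η) = z :=   gps0_hensel hm h0 h1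

theorem exists_zeta [IsAlgClosed (ResidueField R)] {l : ℕ} (hp : l.Prime) (hl : IsUnit (l : R)) :
    ∃ ζ : R, IsPrimitiveRoot ζ l := by
  have h1 := gps0_l hl
  have : NeZero (l : ResidueField R) := ⟨h1⟩
  obtain ⟨z, hz⟩ := HasEnoughRootsOfUnity.exists_primitiveRoot (ResidueField R) l
  obtain ⟨t, rfl⟩ := residue_surjective z
  have hm := Polynomial.monic_X_pow_sub_C (1 : R) hp.ne_zero
  obtain ⟨ζ, h2, h3⟩ := exists_root_lift (f := Polynomial.X ^ l - Polynomial.C 1) (t := t)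
    (hm.leadingCoeff ▸ isUnit_one) (by simp [hz.pow_eq_one])
    (by simp [Polynomial.derivative_X_pow, h1, hz.ne_zero hp.ne_zero])
  refine ⟨ζ, by simpa [sub_eq_zero] using h2, fun k hk => hz.dvd_of_pow_eq_one k ?_⟩
  rw [← h3, ← map_pow, hk, map_one]

/-- the form of the conclusion of `fac_pow` -/
def gps0_G (π : R) (l : ℕ) (f : Fr R⟦X⟧) : Prop := ∃ (k m : ℤ) (z : Fr R⟦X⟧),
  f = fr R (PowerSeries.C π) ^ k * fr R PowerSeries.X ^ m * z ^ l

/-- the form of the hypothesis of `fac_pow` -/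
def gps0_H (π : R) (l : ℕ) (f : Fr R⟦X⟧) : Prop := ∀ (P : R⟦X⟧) (V' : Vl (Fr R⟦X⟧)), Prime P →
  ¬Associated P (PowerSeries.C π) → ¬Associated P PowerSeries.X → Cn1 (fr R) V' P →
    (l : ℤ) ∣ ord V' f

theorem gps0_G_mul (hπ : Irreducible π) {l : ℕ} (h : gps0_G π l f) (h' : gps0_G π l f') :
    gps0_G π l (f * f') := by
  obtain ⟨k, m, z, rfl⟩ := h
  obtain ⟨k', m', z', rfl⟩ := h'
  refine ⟨k + k', m + m', z * z', ?_⟩
  rw [zpow_add₀ (gps0_X (R := R)),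
    zpow_add₀ ((isFr_alg R⟦X⟧ (Fr R⟦X⟧)).vfrc_ne (prime_ps_C hπ.prime).ne_zero)]
  ring

theorem gps0_GH (hπ : Irreducible π) {l : ℕ} (h : gps0_G π l f) : gps0_H π l f := by
  obtain ⟨k, m, z, rfl⟩ := h
  intro P V' hP h1 h2 hV
  have e1 := (hV.1.eq_one _).2 fun h => h1 (hP.associated_of_dvd (prime_ps_C hπ.prime) h)
  have e2 := (hV.1.eq_one _).2 fun h => h2 (hP.associated_of_dvd PowerSeries.X_prime h)
  refine ⟨ord V' z, ?_⟩
  rw [← ord_pow_v, ord, ord, map_mul, map_mul, map_zpow₀, map_zpow₀, e1, e2, one_zpow, one_zpow,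
    one_mul, one_mul]

theorem gps0_fac [IsAlgClosed (ResidueField R)] (hπ : Irreducible π) {l : ℕ} (hl : IsUnit (l : R))
    (g : R⟦X⟧) : g ≠ 0 → gps0_H π l (fr R g) → gps0_G π l (fr R g) := by
  have hu : ∀ ε : R⟦X⟧, IsUnit ε → gps0_G π l (fr R ε) := fun ε hε => by
    obtain ⟨η, rfl⟩ := unit_root hl hε
    exact ⟨0, 0, fr R η, by simp⟩
  induction g using (wellFounded_dvdNotUnit (α := R⟦X⟧)).induction with
  | h g ih =>
  intro h0 H
  by_cases hg : IsUnit g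
  · exact hu g hg
  obtain ⟨P, hP', hPg⟩ := WfDvdMonoid.exists_irreducible_factor hg h0
  have hP := hP'.prime
  obtain ⟨n, b, hb, rfl⟩ := WfDvdMonoid.max_power_factor' h0 hP.not_isUnit
  have hb0 : b ≠ 0 := right_ne_zero_of_mul h0
  have hn : n ≠ 0 := by
    rintro rfl
    rw [pow_zero, one_mul] at hPg
    exact hb hPg
  have e0 : fr R (P ^ n) ≠ 0 := (isFr_alg _ _).vfrc_ne (left_ne_zero_of_mul h0)
  have e1 : fr R b ≠ 0 := (isFr_alg _ _).vfrc_ne hb0
  have h1 : gps0_G π l (fr R (P ^ n)) := by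
    by_cases h1 : Associated P (PowerSeries.C π)
    · obtain ⟨u, rfl⟩ := h1.symm
      rw [mul_pow, map_mul]
      exact gps0_G_mul hπ ⟨n, 0, 1, by simp⟩ (hu _ (u.isUnit.pow n))
    by_cases h2 : Associated P PowerSeries.X
    · obtain ⟨u, rfl⟩ := h2.symm
      rw [mul_pow, map_mul]
      exact gps0_G_mul hπ ⟨0, n, 1, by simp⟩ (hu _ (u.isUnit.pow n))
    obtain ⟨V', hV⟩ := exists_cn1 (isFr_alg R⟦X⟧ (Fr R⟦X⟧)) hP
    have h3 := H P V' hP h1 h2 hV
    rw [map_mul, ord_mul_v V' e0 e1, (ord_eq_zero_v V' e1).2 ((hV.1.eq_one b).2 hb), add_zero,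
      map_pow, ord_pow_v, ord_eq_of V' hV.2, mul_one, Int.natCast_dvd_natCast] at h3
    obtain ⟨c, rfl⟩ := h3
    exact ⟨0, 0, fr R P ^ c, by simp [← pow_mul, mul_comm]⟩
  rw [map_mul]
  refine gps0_G_mul hπ h1 (ih b ⟨hb0, P ^ n, fun h => hP.not_isUnit ((isUnit_pow_iff hn).1 h),
    mul_comm _ _⟩ hb0 fun Q V' hQ h2 h3 hV => ?_)
  have h4 := H Q V' hQ h2 h3 hV
  rw [map_mul, ord_mul_v V' e0 e1] at h4
  exact (dvd_add_right (gps0_GH hπ h1 Q V' hQ h2 h3 hV)).1 h4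

/-- factor in the factorial ring `R⟦X⟧`; units are `l`-th powers -/
theorem fac_pow [IsAlgClosed (ResidueField R)] (hπ : Irreducible π) {l : ℕ} (hl : IsUnit (l : R))
    (h0 : f ≠ 0) (H : ∀ (P : R⟦X⟧) (V' : Vl (Fr R⟦X⟧)), Prime P →
      ¬Associated P (PowerSeries.C π) → ¬Associated P PowerSeries.X → Cn1 (fr R) V' P →
        (l : ℤ) ∣ ord V' f) :
    ∃ (k m : ℤ) (z : Fr R⟦X⟧),
      f = fr R (PowerSeries.C π) ^ k * fr R PowerSeries.X ^ m * z ^ l := by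
  obtain ⟨a, b, hb, e⟩ := (isFr_alg R⟦X⟧ (Fr R⟦X⟧)).2 f
  have e1 : fr R b ≠ 0 := (isFr_alg _ _).vfrc_ne hb
  obtain ⟨l, rfl⟩ := Nat.exists_eq_succ_of_ne_zero fun e : l = 0 =>
    gps0_l hl (by rw [e, Nat.cast_zero])
  have e2 : fr R (a * b ^ l) = f * fr R b ^ (l + 1) := by
    rw [map_mul, map_pow, ← e]
    ring
  have h1 := gps0_fac hπ hl (a * b ^ l)
    (fun h => mul_ne_zero h0 (pow_ne_zero _ e1) (by rw [← e2, h, map_zero]))
    fun P V' hP h1 h2 hV => by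
      rw [e2, ord_mul_v V' h0 (pow_ne_zero _ e1), ord_pow_v]
      exact (H P V' hP h1 h2 hV).add (dvd_mul_right _ _)
  have h2 := gps0_G_mul hπ h1 (f' := (fr R b)⁻¹ ^ (l + 1)) ⟨0, 0, (fr R b)⁻¹, by simp⟩
  rwa [e2, inv_pow, mul_inv_cancel_right₀ (pow_ne_zero _ e1)] at h2

end Pool.Agent.ZFy.GM
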