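import Pool.Agent.Lib.MP_751085_ag.ZF.G.Et0
import Pool.Agent.Lib.MP_751085_ag.ZC.V.Bcu

/-! Good models: the coordinate at infinity. -/

namespace Pool.Agent.ZFy.GM

open Pool.Agent.ZCy
open scoped Classical WithZero Polynomial PowerSeries
open WithZero (exp)

variable {A F F' : Type} [CommRing A] [Field F] [Field F'] {a : A[X] →+* F} {θ : F} {χ : A[X][X]}
  {D Θ : A[X]} {w : Vl F}

theorem rvs_C (r : A) : rvs a (Polynomial.C r) = a (Polynomial.C r) := by
  simp [rvs]

theorem rvs_X : rvs a Polynomial.X = (a Polynomial.X)⁻¹ := by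
  simp [rvs]

theorem rvs_rvs : rvs (rvs a) = a :=
  Polynomial.ringHom_ext (fun r => by rw [rvs_C, rvs_C]) (by rw [rvs_X, rvs_X, inv_inv])

theorem rvs_comp (j : F →+* F') : rvs (j.comp a) = j.comp (rvs a) :=
  Polynomial.ringHom_ext (fun r => by simp [rvs_C]) (by simp [rvs_X])

theorem rvs_map {B : Type} [CommRing B] (f : B →+* A) :
    rvs (a.comp (Polynomial.mapRingHom f)) = (rvs a).comp (Polynomial.mapRingHom f) :=
  Polynomial.ringHom_ext (fun r => by simp [rvs_C]) (by simp [rvs_X])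

theorem rvs_reflect (h : a Polynomial.X ≠ 0) {p : A[X]} {n : ℕ} (hn : p.natDegree ≤ n) :
    a p = rvs a (p.reflect n) * a Polynomial.X ^ n := by
  let _ := invertibleOfNonzero h
  have e := Polynomial.eval₂_reflect_mul_pow (a.comp Polynomial.C) (a Polynomial.X) n p hn
  rw [invOf_eq_inv] at e
  exact (RingHom.congr_fun (Polynomial.ringHom_ext (f := a) (g := Polynomial.eval₂RingHom
    (a.comp Polynomial.C) (a Polynomial.X)) (by simp) (by simp)) p).trans e.symm

theorem rvs_reverse (h : a Polynomial.X ≠ 0) (p : A[X]) :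
    a p = rvs a p.reverse * a Polynomial.X ^ p.natDegree := rvs_reflect h le_rfl

theorem grev_ne (h : Function.Injective a) : a Polynomial.X ≠ 0 :=
  have := (a.comp Polynomial.C).domain_nontrivial
  (map_ne_zero_iff a h).2 Polynomial.X_ne_zero

theorem grev_ne' (h : a Polynomial.X ≠ 0) : rvs a Polynomial.X ≠ 0 := rvs_X (a := a) ▸ inv_ne_zero h

theorem grev_rev (h : a Polynomial.X ≠ 0) (p : A[X]) :
    rvs a p = a p.reverse * rvs a Polynomial.X ^ p.natDegree := by
  simpa only [rvs_rvs] using rvs_reverse (grev_ne' h) p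

theorem rvs_inj (h : Function.Injective a) : Function.Injective (rvs a) :=
  (injective_iff_map_eq_zero _).2 fun p hp => by
    rw [grev_rev (grev_ne h), mul_eq_zero, map_eq_zero_iff a h, Polynomial.reverse_eq_zero] at hp
    exact hp.resolve_right (pow_ne_zero _ (grev_ne' (grev_ne h)))

theorem isFr_rvs (h : IsFr a) : IsFr (rvs a) := by
  refine ⟨rvs_inj h.1, fun x => ?_⟩
  obtain ⟨p, q, hq, e⟩ := h.2 x
  have h0 := grev_ne h.1
  have := h.isDomain
  refine ⟨p.reverse * Polynomial.X ^ q.natDegree, q.reverse * Polynomial.X ^ p.natDegree,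
    mul_ne_zero (mt Polynomial.reverse_eq_zero.1 hq) fun e => ?_, ?_⟩
  · exact pow_ne_zero _ h0 (by rw [← map_pow, e, map_zero])
  · rw [rvs_reverse h0 p, rvs_reverse h0 q] at e
    simp only [map_mul, map_pow, rvs_X, inv_pow]
    field_simp
    linear_combination e

theorem hor_rvs : Hor (rvs a) w ↔ Hor a w := by
  simp only [Hor, rvs_C]

theorem grev_cen {π : A} (hπ : Prime π) (h : Cen a w (Polynomial.C π)) :
    Cen (rvs a) w (Polynomial.C π) := by
  have h1 : w (a Polynomial.X) = 1 := (h.eq_one _).2 fun hd => hπ.not_isUnit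
    (isUnit_of_dvd_one (by simpa using (Polynomial.C_dvd_iff_dvd_coeff _ _).1 hd 1))
  have e : ∀ p, w (rvs a p) = w (a p.reverse) := fun p => by
    rw [grev_rev (w.ne_zero_iff.1 (h1 ▸ one_ne_zero)), map_mul, map_pow, rvs_X, map_inv₀, h1]
    simp
  refine ⟨fun p => e p ▸ h.1 _, fun p => ?_⟩
  simp only [e, h.2, Polynomial.C_dvd_iff_dvd_coeff, Polynomial.coeff_reverse]
  exact ⟨fun H i => by simpa using H (Polynomial.revAt p.natDegree i), fun H i => H _⟩

/-- The Gauss valuation is symmetric: `X` has value one, and reversal permutes coefficients. -/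
theorem cen_rvs (_h : Function.Injective a) {π : A} (hπ : Prime π) :
    Cen (rvs a) w (Polynomial.C π) ↔ Cen a w (Polynomial.C π) :=
  ⟨fun H => by simpa only [rvs_rvs] using grev_cen hπ H, grev_cen hπ⟩

theorem grev_sc (h : a Polynomial.X ≠ 0) (b : ℕ) (G : A[X][X]) : ∃ (N : ℕ) (G' : A[X][X]),
    G'.map (rvs a) = Polynomial.C (rvs a Polynomial.X ^ N) *
      (G.map a).comp (Polynomial.C (a Polynomial.X ^ b) * Polynomial.X) := by
  induction G using Polynomial.induction_on' with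
  | add p q hp hq =>
    obtain ⟨N, p', e1⟩ := hp
    obtain ⟨M, q', e2⟩ := hq
    refine ⟨N + M, Polynomial.C (Polynomial.X ^ M) * p' + Polynomial.C (Polynomial.X ^ N) * q', ?_⟩
    simp only [Polynomial.map_add, Polynomial.map_mul, Polynomial.map_C, e1, e2, map_pow,
      Polynomial.add_comp, Polynomial.map_pow]
    ring
  | monomial n c =>
    refine ⟨(c * Polynomial.X ^ (b * n)).natDegree,
      Polynomial.monomial n (c * Polynomial.X ^ (b * n)).reverse, ?_⟩
    have e := rvs_reverse h (c * Polynomial.X ^ (b * n))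
    rw [Polynomial.map_monomial, Polynomial.map_monomial, Polynomial.monomial_comp, mul_pow,
      ← map_pow Polynomial.C, ← mul_assoc, ← mul_assoc, ← map_mul, ← map_mul,
      Polynomial.C_mul_X_pow_eq_monomial, ← pow_mul, mul_assoc, ← map_pow a, ← map_mul a, e, rvs_X,
      inv_pow, mul_comm _⁻¹, mul_inv_cancel_right₀ (pow_ne_zero _ h)]

/-- `χ'(Z) = u ^ (b δ) χ(Z / u ^ b)` with `u = 1 / t` and `b` a bound for the degrees. -/
theorem Etl.rvs (h : Etl a θ χ D) : ∃ (b k : ℕ) (χ' : A[X][X]), χ'.natDegree = χ.natDegree ∧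
    Etl (rvs a) (θ * rvs a Polynomial.X ^ b) χ' (Polynomial.X ^ k * D.reverse) := by
  have h0 := grev_ne h.inj
  have hi := rvs_inj h.inj
  have := h.inj.isDomain a
  obtain ⟨b, hb⟩ : ∃ b, ∀ i, (χ.coeff i).natDegree ≤ b := ⟨χ.support.sup fun i =>
    (χ.coeff i).natDegree, fun i => by
      by_cases hi : i ∈ χ.support
      · exact Finset.le_sup (f := fun i => (χ.coeff i).natDegree) hi
      · simp [Polynomial.notMem_support_iff.1 hi]⟩
  obtain ⟨t, ht⟩ : ∃ t, a Polynomial.X = t := ⟨_, rfl⟩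
  obtain ⟨u, hu⟩ : ∃ u, GM.rvs a Polynomial.X = u := ⟨_, rfl⟩
  have tu : ∀ n, t ^ n * u ^ n = 1 := fun n => by
    rw [← mul_pow, ← hu, rvs_X, ← ht, mul_inv_cancel₀ h0, one_pow]
  have TU : ∀ n, Polynomial.C t ^ n * Polynomial.C u ^ n = 1 := fun n => by
    rw [← map_pow, ← map_pow, ← map_mul, tu, map_one]
  have hδ : (χ.map a).natDegree = χ.natDegree := h.monic.natDegree_map a
  obtain ⟨χ', e, hd, hm⟩ := Polynomial.lifts_and_natDegree_eq_and_monic (f := GM.rvs a)
    (p := (χ.map a).scaleRoots (u ^ b)) ((Polynomial.lifts_iff_coeff_lifts _).2 fun i => by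
      refine ⟨if i ≤ χ.natDegree then (χ.coeff i).reflect (b * (χ.natDegree - i)) else 0, ?_⟩
      rw [Polynomial.coeff_scaleRoots, Polynomial.coeff_map, hδ, ← pow_mul]
      split_ifs with hi
      · rw [rvs_reflect h0 (p := χ.coeff i) (n := b * (χ.natDegree - i)), ht, mul_assoc, tu,
          mul_one]
        rcases hi.eq_or_lt with rfl | hi
        · simp [h.monic.coeff_natDegree]
        · exact (hb i).trans (Nat.le_mul_of_pos_right _ (by omega))
      · simp [Polynomial.coeff_eq_zero_of_natDegree_lt (not_le.1 hi)])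
    ((Polynomial.monic_scaleRoots_iff _).2 (h.monic.map a))
  rw [Polynomial.natDegree_scaleRoots, hδ] at hd
  have e1 : (χ.map a).comp (Polynomial.C (t ^ b) * Polynomial.X) =
      Polynomial.C (t ^ (b * χ.natDegree)) * χ'.map (GM.rvs a) := Polynomial.ext fun i => by
    rw [e, Polynomial.comp_C_mul_X_coeff, Polynomial.coeff_C_mul, Polynomial.coeff_scaleRoots, hδ]
    rcases le_or_gt i χ.natDegree with hi | hi
    · obtain ⟨k, hk⟩ := Nat.exists_eq_add_of_le hi
      rw [hk, Nat.add_sub_cancel_left, mul_add, pow_add, ← pow_mul, ← pow_mul]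
      linear_combination (-(χ.map a).coeff i * t ^ (b * i)) * tu (b * k)
    · simp [Polynomial.coeff_eq_zero_of_natDegree_lt hi]
  have ev : ∀ G : A[X][X], ((G.map a).comp (Polynomial.C (t ^ b) * Polynomial.X)).eval
      (θ * u ^ b) = G.eval₂ a θ := fun G => by
    rw [Polynomial.eval_comp, Polynomial.eval_mul, Polynomial.eval_C, Polynomial.eval_X,
      mul_left_comm, tu, mul_one, Polynomial.eval_map]
  have sc := grev_sc h0 b
  rw [ht, hu] at sc
  have t0 : t ≠ 0 := ht ▸ h0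
  have x0 : ∀ n, (Polynomial.X : A[X]) ^ n ≠ 0 := fun n e =>
    pow_ne_zero n h0 (by rw [← map_pow, e, map_zero])
  have hr : ∀ p : A[X], GM.rvs a p.reverse = a p * u ^ p.natDegree := fun p => by
    rw [rvs_reverse h0 p, ht, mul_assoc, tu, mul_one]
  obtain ⟨p, q, hpq⟩ := h.bez
  obtain ⟨N, p', e2⟩ := sc (p * Polynomial.C (Polynomial.X ^ (b * χ.natDegree)))
  obtain ⟨M, q', e3⟩ := sc (q * Polynomial.C (Polynomial.X ^ (b * χ.natDegree)))
  refine ⟨b, N + M, χ', hd, hi, hm, fun G => ⟨fun hG => ?_, fun hG => ?_⟩,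
    ⟨Polynomial.C (Polynomial.X ^ (M + D.natDegree)) * p',
      Polynomial.C (Polynomial.X ^ (N + b + D.natDegree)) * q', Polynomial.map_injective _ hi ?_⟩,
    mul_ne_zero (x0 _) (mt Polynomial.reverse_eq_zero.1 h.ne), fun x => ?_⟩
  · obtain ⟨K, G', e4⟩ := grev_sc (grev_ne' h0) b G
    rw [rvs_rvs, ht, hu] at e4
    have h1 := Polynomial.map_dvd a ((h.ker G').1 (by
      rw [← Polynomial.eval_map, e4, Polynomial.eval_mul, Polynomial.eval_comp, Polynomial.eval_mul,
        Polynomial.eval_C, Polynomial.eval_C, Polynomial.eval_X, mul_comm _ θ, Polynomial.eval_map,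
        ← hu, hG, mul_zero]))
    have h2 := map_dvd (Polynomial.compRingHom (Polynomial.C (t ^ b) * Polynomial.X)) h1
    rw [Polynomial.coe_compRingHom_apply, Polynomial.coe_compRingHom_apply, e1, e4,
      Polynomial.mul_comp, Polynomial.comp_assoc, Polynomial.mul_comp, Polynomial.C_comp,
      Polynomial.C_comp, Polynomial.X_comp, ← mul_assoc, ← map_mul, mul_comm (u ^ b), tu, map_one,
      one_mul, Polynomial.comp_X,
      (Polynomial.isUnit_C.2 (pow_ne_zero K t0).isUnit).dvd_mul_left] at h2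
    exact (Polynomial.map_dvd_map _ hi hm).1 ((dvd_mul_left _ _).trans h2)
  · obtain ⟨G, rfl⟩ := hG
    have := ev χ
    rw [e1, h.root, Polynomial.eval_mul, Polynomial.eval_C, Polynomial.eval_map] at this
    rw [Polynomial.eval₂_mul, hu, (mul_eq_zero.1 this).resolve_left (pow_ne_zero _ t0), zero_mul]
  · have a1 := congrArg (fun G : A[X][X] =>
      (G.map a).comp (Polynomial.C (t ^ b) * Polynomial.X)) hpq
    have a2 := congrArg Polynomial.derivative e1
    rw [Polynomial.derivative_comp, Polynomial.derivative_C_mul, Polynomial.derivative_C_mul,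
      Polynomial.derivative_X, Polynomial.derivative_map, Polynomial.derivative_map] at a2
    simp only [Polynomial.map_add, Polynomial.map_mul, Polynomial.map_C, Polynomial.add_comp,
      Polynomial.mul_comp, Polynomial.C_comp, e2, e3, map_mul, map_pow, hr, ht, hu,
      Polynomial.map_pow, Polynomial.pow_comp] at a1 a2 e1 ⊢
    generalize Polynomial.C t ^ b * Polynomial.X = Z at a1 a2 e1 ⊢
    linear_combination Polynomial.C u ^ (N + M + D.natDegree) * (a1 + (p.map a).comp Z * e1 +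
      (q.map a).comp Z * (Polynomial.C u ^ b * a2 - (χ.derivative.map a).comp Z * TU b))
  · obtain ⟨G, d, hd0, e4⟩ := h.gen x
    obtain ⟨K, G', e5⟩ := sc G
    refine ⟨Polynomial.C (Polynomial.X ^ d.natDegree) * G', d.reverse * Polynomial.X ^ K,
      mul_ne_zero (mt Polynomial.reverse_eq_zero.1 hd0) (x0 _), ?_⟩
    rw [Polynomial.eval₂_mul, Polynomial.eval₂_C, ← Polynomial.eval_map, e5, hu,
      Polynomial.eval_mul, ev, ← e4, Polynomial.eval_C, map_mul, hr, map_pow, map_pow, hu]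
    ring

theorem hor_fr {K : Type} [Field K] {α : A →+* K} (hα : IsFr α) {ψ : K[X] →+* F} :
    Hor (ψ.comp (Polynomial.mapRingHom α)) w ↔ Hor ψ w := by
  refine ⟨fun h r hr => ?_, fun h r hr => by simpa using h _ (hα.vfrc_ne hr)⟩
  obtain ⟨p, q, hq, e⟩ := hα.2 r
  have hp : p ≠ 0 := by
    rintro rfl
    exact mul_ne_zero hr (hα.vfrc_ne hq) (e.trans (map_zero α))
  have e1 := congrArg (fun z => w (ψ (Polynomial.C z))) e
  have e2 := h p hp
  have e3 := h q hq
  simp only [map_mul, RingHom.comp_apply, Polynomial.coe_mapRingHom, Polynomial.map_C] at e1 e2 e3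
  rwa [e2, e3, mul_one] at e1

theorem unm_fr {K : Type} [Field K] {α : A →+* K} (hα : IsFr α) {ψ : K[X] →+* F} :
    Unm (ψ.comp (Polynomial.mapRingHom α)) Θ w ↔ Unm ψ (Θ.map α) w := by
  simp [Unm, hor_fr hα]

theorem grev_le (h : Hor a w) (r : A) : w (a (Polynomial.C r)) ≤ 1 := by
  rcases eq_or_ne r 0 with rfl | hr
  · simp
  · exact (h r hr).le

theorem grev_mon (h : Hor a w) (r : A) (n : ℕ) :
    w (a (Polynomial.C r * Polynomial.X ^ n)) ≤ w (a Polynomial.X) ^ n := by
  rw [map_mul, map_mul, map_pow, map_pow]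
  exact mul_le_of_le_one_left' (grev_le h r)

theorem Hor.le_one (h : Hor a w) (hX : w (a Polynomial.X) ≤ 1) (p : A[X]) : w (a p) ≤ 1 := by
  rw [p.as_sum_range_C_mul_X_pow, map_sum]
  exact w.map_sum_le fun i _ => (grev_mon h _ i).trans (pow_le_one' hX i)

/-- the value of a monic polynomial at an infinite place -/
theorem Hor.monic (h : Hor a w) (hX : 1 < w (a Polynomial.X)) {p : A[X]} (hp : p.Monic) :
    w (a p) = w (a Polynomial.X) ^ p.natDegree := by
  conv_lhs => rw [hp.as_sum, map_add, map_sum, map_pow]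
  rw [w.map_add_eq_of_lt_left, map_pow]
  rw [map_pow]
  exact w.map_sum_lt (pow_ne_zero _ (zero_lt_one.trans hX).ne') fun i hi =>
    (grev_mon h _ i).trans_lt (pow_lt_pow_right₀ hX (Finset.mem_range.1 hi))

theorem Hor.le_pow (h : Hor a w) (hX : 1 ≤ w (a Polynomial.X)) {p : A[X]} {n : ℕ}
    (hp : p.natDegree ≤ n) : w (a p) ≤ w (a Polynomial.X) ^ n := by
  rw [p.as_sum_range_C_mul_X_pow, map_sum]
  exact w.map_sum_le fun i hi => (grev_mon h _ i).trans
    (pow_le_pow_right₀ hX ((Nat.lt_succ_iff.1 (Finset.mem_range.1 hi)).trans hp))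

theorem Unm.comap {j : F →+* F'} {w' : Vl F'} : Unm a Θ (w'.comap j) ↔ Unm (j.comp a) Θ w' :=
  Iff.rfl

theorem Unm.congr {w' : Vl F} (h : Unm a Θ w) (e : ∀ x, w' x ≤ 1 ↔ w x ≤ 1) : Unm a Θ w' :=
  have o := Over.eq_one (φ := RingHom.id F) (v := w) (v' := w') e
  ⟨fun r hr => (o _).2 (h.1 r hr), (e _).2 h.2.1, (o _).2 h.2.2⟩

theorem Unm.of_mul {Θ' : A[X]} (h : Unm a (Θ * Θ') w) : Unm a Θ w := by
  refine ⟨h.1, h.2.1, (h.1.le_one h.2.1 Θ).antisymm ?_⟩
  rw [← h.2.2, map_mul, map_mul]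
  exact mul_le_of_le_one_right' (h.1.le_one h.2.1 Θ')

theorem grev_dvd {m : ℕ} {u : F} (h : ∀ v : Vl F, Nrm v → Over (RingHom.id F) w v →
    (m : ℤ) ∣ ord v u) : (m : ℤ) ∣ ord w u := by
  by_cases h1 : ord w u = 0
  · simp [h1]
  have h0 : u ≠ 0 := fun e => h1 (e ▸ ord_zero w)
  obtain ⟨v, e, hv, he, hi⟩ := exists_nrm h0 (mt (ord_eq_zero_v w h0).2 h1)
  exact hi.ord u ▸ (h v hv fun x => (hi.over he x).symm).mul_left _

/-- the divisibility holds for valuations that are not normalised -/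
theorem TW.dvd {m : ℕ} {u : F} (h : TW m a Θ u) (hw : Unm a Θ w) : (m : ℤ) ∣ ord w u :=
  grev_dvd fun v hv o => h v hv (hw.congr o)

theorem TI.dvd {m : ℕ} {u : F} (h : TI m a u) (hw : Hor a w) (h1 : 1 < w (a Polynomial.X)) :
    (m : ℤ) ∣ ord w u :=
  grev_dvd fun v hv o => h v hv (fun r hr => (o.eq_one _).2 (hw r hr))
    (not_le.1 fun e => h1.not_ge ((o _).1 e))

theorem TW.map {m : ℕ} {u : F} (h : TW m a Θ u) (j : F →+* F') : TW m (j.comp a) Θ (j u) :=
  fun v _ hv => h.dvd (w := v.comap j) hv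

theorem TI.map {m : ℕ} {u : F} (h : TI m a u) (j : F →+* F') : TI m (j.comp a) (j u) :=
  fun v _ hv h1 => h.dvd (w := v.comap j) hv h1

theorem TW.mul {m : ℕ} {u u' : F} (h : TW m a Θ u) (h' : TW m a Θ u') : TW m a Θ (u * u') :=
  fun v hv hu => by
    by_cases h0 : u * u' = 0
    · simp [h0, ord_zero]
    · rw [ord_mul_v v (left_ne_zero_of_mul h0) (right_ne_zero_of_mul h0)]
      exact (h v hv hu).add (h' v hv hu)

theorem TW.inv {m : ℕ} {u : F} (h : TW m a Θ u) : TW m a Θ u⁻¹ :=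
  fun v hv hu => ord_inv_v v u ▸ (h v hv hu).neg_right

theorem tw_pow (m : ℕ) (y : F) : TW m a Θ (y ^ m) := fun v _ _ => ⟨_, ord_pow_v v y m⟩

theorem tw_C (m : ℕ) (r : A) : TW m a Θ (a (Polynomial.C r)) := fun v _ hu => by
  rcases eq_or_ne r 0 with rfl | hr
  · simp [ord_zero]
  · simp [ord, hu.1 r hr]

theorem TW.mono {m : ℕ} {u : F} (h : TW m a Θ u) (Θ' : A[X]) : TW m a (Θ * Θ') u :=
  fun v hv hu => h v hv hu.of_mul

/-- a valuation trivial on a field of constants and finite at `X` is trivial or centred at a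
prime (`cen_poly`); so `UnrOff` gives `UnU` over every intermediate field -/
theorem unU_of_unrOff {K K₁ E : Type} [Field K] [Field K₁] [Field E] [Algebra K₁ E] [Algebra K₁ F]
    [Algebra E F] [IsScalarTower K₁ E F] [FiniteDimensional K₁ F] {α : K[X] →+* K₁} (hα : IsFr α)
    {Θ : K[X]} (h : UnrOff K₁ (tE F α) Θ) : UnU E (tE F α) Θ := fun _ hw =>
  ine_bot_of_cen (j := RingHom.id F) (r := AlgEquiv.restrictScalarsHom K₁) hα (fun _ _ => rfl)
    (AlgEquiv.restrictScalarsHom_injective K₁) h hw.2.2 (cen_poly (hw.1.le_one hw.2.1) hw.1)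

theorem unrOff_of_unU {K K₁ : Type} [Field K] [Field K₁] [Algebra K₁ F] {φ : K[X] →+* F}
    {Θ : K[X]} (h : UnU K₁ φ Θ) : UnrOff K₁ φ Θ := fun _ w hP hn hc =>
  h w ⟨fun _ hr => (hc.eq_one _).2 fun hd =>
    hP.not_isUnit (isUnit_of_dvd_unit hd (Polynomial.isUnit_C.2 hr.isUnit)), hc.1 _,
    (hc.eq_one Θ).2 hn⟩

end Pool.Agent.ZFy.GM
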