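import Pool.Agent.Lib.MP_751085_ag.ZF.G.Et0
import Pool.Agent.Lib.MP_751085_ag.ZF.G.Rev
import Pool.Agent.Lib.MP_751085_ag.ZF.G.Ps0
import Pool.Agent.Lib.MP_751085_ag.ZC.V.Coh
import Pool.Agent.Lib.MP_751085_ag.ZC.V.Cf
import Pool.Agent.Lib.MP_751085_ag.ZC.K.KDefs

/-! Good models: places over a closed field of constants. -/

namespace Pool.Agent.ZFy.GM

open Pool.Agent.ZCy
open scoped Classical WithZero Polynomial PowerSeries
open WithZero (exp)
open IsLocalRing

variable {M K F : Type} [Field M] [Field K] [Field F]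

theorem gplc_res [IsAlgClosed M] [Algebra K F] [FiniteDimensional K F] {α : M[X] →+* K}
    (hα : IsFr α) {P : Vl F} (hP : Nrm P) (h : Hor (tE F α) P) (hX : P (tE F α Polynomial.X) ≤ 1)
    {x : F} (hx : P x ≤ 1) : ∃ c, P (x - tE F α (Polynomial.C c)) < 1 := by
  have h0 : ∀ c, P (tE F α (Polynomial.C c)) ≤ 1 := fun c => by
    rcases eq_or_ne c 0 with rfl | hc
    · simp
    · exact (h c hc).le
  have h1 : ∀ f, P (tE F α f) ≤ 1 := fun f => by
    induction f using Polynomial.induction_on' with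
    | add p q hp hq => rw [map_add]; exact P.map_add_le hp hq
    | monomial n c =>
      rw [← Polynomial.C_mul_X_pow_eq_monomial, map_mul, map_pow, map_mul, map_pow]
      exact mul_le_one' (h0 c) (pow_le_one' hX n)
  obtain ⟨Q, hQ, hc⟩ := (cen_poly h1 h).resolve_left fun H => by
    obtain ⟨π, hπ⟩ := hP
    have h2 : Triv (algebraMap K F) P := fun y hy => by
      obtain ⟨a, b, hb, e⟩ := hα.2 y
      have h3 := H a fun ha => mul_ne_zero hy (hα.vfrc_ne hb) (by rw [e, ha, map_zero])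
      rwa [RingHom.comp_apply, ← e, map_mul, map_mul, show P (algebraMap K F (α b)) = 1 from H b hb,
        mul_one] at h3
    exact ((lt_one_iff_le_exp _).2 hπ.le).ne (h2.eq_one
      (P.ne_zero_iff.1 (hπ ▸ WithZero.exp_ne_zero)) (Algebra.IsAlgebraic.isAlgebraic π))
  obtain ⟨t, ht⟩ := IsAlgClosed.exists_root Q fun e =>
    hQ.not_isUnit (Polynomial.isUnit_iff_degree_eq_zero.2 e)
  have h2 := ((Polynomial.irreducible_X_sub_C t).associated_of_dvd
    hQ.irreducible (Polynomial.dvd_iff_isRoot.2 ht)).dvd'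
  obtain ⟨κ, _, ρ, hρ, hs⟩ := exists_resf P
  let β : M[X] →+* P.integer := (tE F α).codRestrict _ h1
  let := (ρ.comp (β.comp Polynomial.C)).toAlgebra
  have h3 : ∀ f, ρ (β f) = algebraMap M κ (f.eval t) := fun f => (hρ.eq_iff _ _).2 (by
    have := (hc.2 _).2 (h2.trans (Polynomial.X_sub_C_dvd_sub_C_eval (p := f)))
    rwa [map_sub] at this)
  have ho : Over (algebraMap K F) (P.comap (algebraMap K F)) P := fun _ => Iff.rfl
  have : Algebra.IsAlgebraic M κ := ⟨fun y => by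
    obtain ⟨x, rfl⟩ := hs y
    obtain ⟨f, ⟨n, hn⟩, hf⟩ := exists_poly_red ho x
    obtain ⟨g, hg⟩ := (Polynomial.mem_lifts _).1 ((Polynomial.lifts_iff_coeff_lifts
      (f := algebraMap M κ) (f.map (ρ.comp ho.int))).2 fun i => by
        obtain ⟨a, b, hb, e⟩ := (Cen.le_one_iff (v := P.comap (algebraMap K F)) hα hQ hc _).1
          (f.coeff i).2
        have e' : ho.int (f.coeff i) * β b = β a := Subtype.ext
          ((map_mul (algebraMap K F) _ _).symm.trans (congrArg _ e))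
        refine ⟨a.eval t / b.eval t, ?_⟩
        rw [map_div₀, ← h3, ← h3, ← e', map_mul, Polynomial.coeff_map,
          mul_div_cancel_right₀ _ ((hρ.ne_zero _).2 ((hc.eq_one b).2 hb))]
        rfl)
    refine ⟨g, fun e => (hρ.ne_zero (ho.int (f.coeff n))).2 hn ?_, ?_⟩
    · rw [← RingHom.comp_apply, ← Polynomial.coeff_map, ← hg, e, Polynomial.map_zero,
        Polynomial.coeff_zero]
    · rw [Polynomial.aeval_def, ← Polynomial.eval_map, hg, Polynomial.eval_map,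
        ← Polynomial.hom_eval₂, hf, map_zero]⟩
  obtain ⟨c, hc⟩ := (IsAlgClosed.algebraMap_bijective_of_isIntegral (k := M) (K := κ)).2 (ρ ⟨x, hx⟩)
  exact ⟨c, (hρ.eq_iff _ _).1 hc.symm⟩

/-- The residues are constants. -/
theorem res_const [IsAlgClosed M] [Algebra K F] [FiniteDimensional K F] {α : M[X] →+* K}
    (hα : IsFr α) {P : Vl F} (hP : Nrm P) (h : Hor (tE F α) P) {x : F} (hx : P x ≤ 1) :
    ∃ c, P (x - tE F α (Polynomial.C c)) < 1 := by
  rcases le_total (P (tE F α Polynomial.X)) 1 with h1 | h1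
  · exact gplc_res hα hP h h1 hx
  · have e : tE F (rvs α) = rvs (tE F α) := (rvs_comp _).symm
    simpa only [e, rvs_C] using gplc_res (isFr_rvs hα) hP (e ▸ hor_rvs.2 h)
      (by rw [e, rvs_X, map_inv₀]; exact inv_le_one_of_one_le₀ h1) hx

/-- The completion is a ring of power series. -/
theorem place_ps {κ₀ : M →+* F} {P : Vl F} (h : Triv κ₀ P)
    (hr : ∀ x, P x ≤ 1 → ∃ c, P (x - κ₀ c) < 1) {ϖ : F} (hϖ : P ϖ = exp (-1)) {V : Vl (Fr M⟦X⟧)}
    (hV : Cn1 (fr M) V PowerSeries.X) : ∃ J : F →+* Fr M⟦X⟧,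
      (∀ c, J (κ₀ c) = fr M (PowerSeries.C c)) ∧ J ϖ = fr M PowerSeries.X ∧
        ∀ x, V (J x) = P x := by
  obtain ⟨R, _, _, _, w, ψ, hw, hi, hd⟩ := exists_cmp (v := P) ⟨ϖ, hϖ⟩
  have e1 := idx_one_iff.1 hi
  obtain ⟨e0, he0⟩ := hw.exists_equiv
  let σ : M →+* R := (e0.symm : w.integer →+* R).comp ((ψ.comp κ₀).codRestrict _ fun c => by
    rcases eq_or_ne c 0 with rfl | hc
    · rw [map_zero]; exact zero_mem _
    · exact ((e1 _).trans (h c hc)).le)
  have hσ : ∀ c, algebraMap R (Fr R) (σ c) = ψ (κ₀ c) := fun c =>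
    (he0 _).symm.trans (congrArg Subtype.val (e0.apply_symm_apply _))
  obtain ⟨π, hπ⟩ := (hw.2.2 (ψ ϖ)).1 (by rw [e1]; exact ((lt_one_iff_le_exp _).2 hϖ.le).le)
  have h1 : w (algebraMap R (Fr R) π) = exp (-1) := by rw [hπ, e1, hϖ]
  have h2 := hw.irreducible_iff.2 h1
  obtain ⟨e, h3, h4⟩ := exists_ps_equiv σ (fun y => by
    obtain ⟨a, ha⟩ := (hd (algebraMap R (Fr R) y)).exists_lt one_ne_zero
    obtain ⟨c, hc⟩ := hr a (by
      rw [← e1, ← sub_sub_cancel (algebraMap R (Fr R) y) (ψ a)]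
      exact w.map_sub_le (hw.le_one y) ha.le)
    rw [← e1, map_sub] at hc
    refine ⟨c, (sub_eq_zero.1 ?_).symm⟩
    rw [← map_sub, ← hw.lt_one, map_sub, hσ, ← sub_add_sub_cancel _ (ψ a)]
    exact w.map_add_lt ha hc) h2
  obtain ⟨φ, hφ⟩ := hw.isFr.exists_lift (β := (fr M).comp (e.symm : R →+* M⟦X⟧))
    ((isFr_alg _ _).1.comp e.symm.injective)
  replace hφ : ∀ f, φ (algebraMap R (Fr R) (e f)) = fr M f := fun f =>
    (hφ _).trans (congrArg (fr M) (e.symm_apply_apply f))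
  have h5 : Cen (algebraMap R (Fr R)) (V.comap φ) π := ⟨fun a => by
    obtain ⟨f, rfl⟩ := e.surjective a
    exact (congrArg V (hφ f)).trans_le (hV.1.1 f), fun a => by
    obtain ⟨f, rfl⟩ := e.surjective a
    rw [Valuation.comap_apply, hφ, hV.1.2, ← h4, map_dvd_iff]⟩
  have h6 : V.comap φ = w := Nrm.eq_of_iff hw.1
    ⟨algebraMap R (Fr R) π, by rw [Valuation.comap_apply, ← h4, hφ, hV.2]⟩
    (Cen.iff hw.isFr h2.prime (hw.cen h2) h5)
  exact ⟨φ.comp ψ, fun c => by rw [RingHom.comp_apply, ← hσ, ← h3, hφ],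
    by rw [RingHom.comp_apply, ← hπ, ← h4, hφ], fun x => by rw [← e1, ← h6]; rfl⟩

theorem exists_vx (M : Type) [Field M] :
    ∃ V : Vl (Fr M⟦X⟧), Cn1 (fr M) V PowerSeries.X ∧ IsVR (fr M) V := by
  obtain ⟨V, h⟩ := exists_cn1 (isFr_alg M⟦X⟧ (Fr M⟦X⟧)) PowerSeries.X_prime
  exact ⟨V, h, h.1.isVR (isFr_alg _ _) PowerSeries.X_irreducible h.2⟩

/-- Transcendence degree one. -/
theorem dep2 [Algebra K F] [FiniteDimensional K F] {α : M[X] →+* K} (hα : IsFr α) (x y : F) :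
    ∃ H : M[X][X], H ≠ 0 ∧
      H.eval₂ (Polynomial.eval₂RingHom ((tE F α).comp Polynomial.C) x) y = 0 := by
  by_contra! H
  let := α.toAlgebra
  have := hα.frac
  let := (tE F α).toAlgebra
  let := ((tE F α).comp Polynomial.C).toAlgebra
  have : IsScalarTower M[X] K F := .of_algebraMap_eq fun _ => rfl
  have : IsScalarTower M M[X] F := .of_algebraMap_eq fun _ => rfl
  have : FaithfulSMul M[X] F :=
    (faithfulSMul_iff_algebraMap_injective _ _).2 ((algebraMap K F).injective.comp hα.1)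
  have := IsLocalization.isAlgebraic K (nonZeroDivisors M[X])
  have := Algebra.IsAlgebraic.trans M[X] K F
  have h1 := trdeg_add_eq M M[X] (A := F)
  have h2 := trdeg_add_eq M M[X] (A := M[X][X])
  have h3 := trdeg_le_of_injective (R := M) (A' := F) ⟨Polynomial.eval₂RingHom
    (Polynomial.eval₂RingHom ((tE F α).comp Polynomial.C) x) y, fun c => by
      simp [RingHom.algebraMap_toAlgebra]⟩
    ((injective_iff_map_eq_zero _).2 fun G hG => by_contra fun h0 => H G h0 hG)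
  rw [← h1, ← h2, trdeg_eq_zero (A := F), Polynomial.trdeg_of_isDomain,
    Polynomial.trdeg_of_isDomain] at h3
  norm_num at h3

theorem gplc_inj {ψ : M[X] →+* F} {θ : F} {χ : M[X][X]} (h : FFd ψ θ χ) (hm : χ.Monic) :
    Function.Injective ψ := (injective_iff_map_eq_zero ψ).2 fun a ha => by
  refine Polynomial.C_eq_zero.1 (Polynomial.eq_zero_of_dvd_of_natDegree_lt
    ((h.ker _).1 (by simpa)) ?_)
  rw [Polynomial.natDegree_C]
  exact hm.natDegree_pos_of_not_isUnit fun hu => by simpa using (h.ker 1).2 hu.dvd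

theorem gplc_etl {ψ : M[X] →+* F} {θ : F} {χ p q : M[X][X]} {D : M[X]} (h : FFd ψ θ χ)
    (hm : χ.Monic) (hb : Polynomial.C D = p * χ + q * χ.derivative) (hD : D ≠ 0) :
    Etl ψ θ χ D := by
  refine ⟨gplc_inj h hm, hm, h.ker, ⟨p, q, hb⟩, hD, fun x => ?_⟩
  obtain ⟨a, b, h0, rfl⟩ := h.frac x
  let := ψ.toAlgebra
  have h1 : IsIntegral M[X] (Polynomial.aeval θ b) := Algebra.adjoin_le
    (S := integralClosure M[X] F) (Set.singleton_subset_iff.2 ⟨χ, hm, (h.ker χ).2 dvd_rfl⟩)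
    (Polynomial.aeval_mem_adjoin_singleton _ θ)
  obtain ⟨g, h2, h3⟩ := h1.isAlgebraic.exists_nonzero_coeff_and_aeval_eq_zero
    (mem_nonZeroDivisors_of_ne_zero h0)
  refine ⟨-(a * g.divX.comp b), g.coeff 0, h2, ?_⟩
  rw [← g.X_mul_divX_add, map_add, map_mul, Polynomial.aeval_X, Polynomial.aeval_C,
    ← Polynomial.aeval_comp] at h3
  rw [Polynomial.eval₂_neg, Polynomial.eval₂_mul, div_mul_eq_mul_div, div_eq_iff h0]
  exact (congrArg _ (eq_neg_of_add_eq_zero_right h3)).trans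
    (by simp only [Polynomial.aeval_def, RingHom.algebraMap_toAlgebra]; ring)

theorem etl_of_ffd {ψ : M[X] →+* F} {θ : F} {χ : M[X][X]} (h : FFd ψ θ χ) (hm : χ.Monic)
    (hs : (χ.map ψ).Separable) : ∃ D, Etl ψ θ χ D := by
  obtain ⟨_, rfl⟩ := exists_frac (gplc_inj h hm)
  rw [← Polynomial.map_map, Polynomial.separable_map, Polynomial.separable_def'] at hs
  obtain ⟨a, b, e⟩ := hs
  have hα := isFr_alg M[X] (Fr M[X])
  obtain ⟨s, a', h1, e1⟩ := get0_den (get0_fr hα) a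
  obtain ⟨t, b', h2, e2⟩ := get0_den (get0_fr hα) b
  refine ⟨s * t, gplc_etl h hm (p := Polynomial.C t * a') (q := Polynomial.C s * b')
    (Polynomial.map_injective _ hα.1 ?_) (mul_ne_zero h1 h2)⟩
  simp only [Polynomial.map_add, Polynomial.map_mul, Polynomial.map_C, e1, e2, map_mul,
    ← Polynomial.derivative_map]
  rw [← mul_one (_ * _), ← e]
  ring

theorem etl_of_ffd' {ψ : M[X] →+* F} {θ : F} {χ p q : M[X][X]} {D : M[X]} (h : FFd ψ θ χ)
    (hm : χ.Monic) (hb : Polynomial.C D = p * χ + q * χ.derivative) (hD : D ≠ 0) :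
    Etl ψ θ χ D := by
  exact gplc_etl h hm hb hD

theorem Etl.ffd {ψ : M[X] →+* F} {θ : F} {χ : M[X][X]} {D : M[X]} (h : Etl ψ θ χ D) :
    FFd ψ θ χ := by
  refine ⟨h.ker, fun x => ?_⟩
  obtain ⟨G, d, h0, e⟩ := h.gen x
  have h1 := (map_ne_zero_iff ψ h.inj).2 h0
  exact ⟨G, Polynomial.C d, by rwa [Polynomial.eval₂_C],
    by rw [Polynomial.eval₂_C, eq_div_iff h1, e]⟩

end Pool.Agent.ZFy.GM
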