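import Pool.Agent.Lib.MP_751085_ag.ZF.G.Gmi
import Pool.Agent.Lib.MP_751085_ag.ZF.G.Irr
import Pool.Agent.Lib.MP_751085_ag.ZF.G.Plc

/-! Good models: fibres of charts. -/

namespace Pool.Agent.ZFy

open Pool.Agent.ZCy Pool.Agent.ZFy.GM
open scoped Classical WithZero Polynomial PowerSeries
open WithZero (exp)
open IsLocalRing

/-- `etl_of_ffd'`, `chart_bez`, `chart_D_ne`, `good_chart_fr`, `gmi_of_good` -/
theorem goodM {O σ : Type} [CommRing O] {N : ℕ} {GG : Set (Fm N O)} (c : Chart O σ N GG)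
    {Φ : MP σ O} (hG : ∀ G ∈ GG, ∃ m, G.IsHomogeneous m) (hs : c.SM Φ) :
    GoodM c.toPChart Φ := by
  intro R KK F _ _ _ _ _ _ η α ψ θ l hα hη hf hp hl
  have : Nontrivial O := ((α.comp η).comp MvPolynomial.C).domain_nontrivial
  obtain ⟨p, q, hb⟩ := chart_bez c.toPChart
  refine gmi_of_good hα (good_chart_fr c hG hs hη hα (etl_of_ffd' hf
    ((wt_chart c.toPChart).1.monic.map _) (p := p.map (Polynomial.mapRingHom (α.comp η)))
    (q := q.map (Polynomial.mapRingHom (α.comp η))) ?_ (chart_D_ne c.toPChart (α.comp η)))) hp hl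
  simpa [Polynomial.derivative_map] using
    congrArg (Polynomial.map (Polynomial.mapRingHom (α.comp η))) hb

/-- `irr_pt`, `line_eq` -/
theorem irrp : IRRp := by
  intro K _ σ _ N GG c Φ hG hi hs h0
  have h := irr_pt c hG hi hs (algebraMap K (AlgebraicClosure K)) (b := 0) (by
    rw [← MvPolynomial.coe_eval₂Hom, MvPolynomial.eval₂Hom_zero_apply]
    exact (map_ne_zero _).2 h0)
  rw [← line_eq] at h
  exact (funext fun i => by cases i <;> rfl : (fun i : Option σ => i.elim 0 (0 : σ → _)) =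
    (0 : Option σ → AlgebraicClosure K)) ▸ h

end Pool.Agent.ZFy
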