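import Pool.Agent.Lib.MP_751085_ag.ZF.G.Conn
import Pool.Agent.Lib.MP_751085_ag.ZF.G.Irr
import Pool.Agent.Lib.MP_751085_ag.ZF.T.VDefs

/-! Good models: connectedness and irreducibility at good places. -/

namespace Pool.Agent.ZFy

open Pool.Agent.ZCy Pool.Agent.ZFy.GM
open scoped Classical WithZero Polynomial PowerSeries
open WithZero (exp)
open IsLocalRing

theorem irro_thm : IRRO := by
  intro O K κ σ _ _ _ _ _ _ _ _ _ N GG c₀ c Φ ρ b hG hc h hs hρ hb
  rw [line_eq]
  exact irr_dvr c₀ hG hc h hs hρ hb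

theorem gexpc_etl {κ σ K F : Type} [Field κ] [Field K] [Field F] (c : PChart κ σ) (h : c.GI)
    {η : MP σ κ →+* K} (hη : Function.Injective η) {a : K[X] →+* F} (ha : Function.Injective a)
    {θ : F} (h0 : (cχ c).eval₂ (a.comp (Polynomial.mapRingHom η)) θ = 0)
    (hg : Subfield.closure (Set.range a ∪ {θ}) = ⊤) :
    Etl a θ ((cχ c).map (Polynomial.mapRingHom η)) ((tp c.D).map η) := by
  obtain ⟨p, q, hb⟩ := chart_bez c
  refine etl_of_irr (p := p.map (Polynomial.mapRingHom η)) (q := q.map (Polynomial.mapRingHom η)) ha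
    ((wt_chart c).1.monic.map _) (irr_generic c h hη) ((Polynomial.eval₂_map _ _ _).trans h0) ?_
    (chart_D_ne c η) hg
  rw [Polynomial.derivative_map, ← Polynomial.map_mul, ← Polynomial.map_mul, ← Polynomial.map_add,
    ← hb, Polynomial.map_C, Polynomial.coe_mapRingHom]

/-- the function field as a curve over `RF σ κ`, with an expansion at a root of the top form -/
theorem chart_etl {κ σ F : Type} [Field κ] [IsAlgClosed κ] [Field F] [Algebra (RF (Option σ) κ) F]
    (c : PChart κ σ) (h : c.GI) {θ : F} (hF : c.FF F θ) : ∃ a₀ : (RF σ κ)[X] →+* F,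
      (∀ p, a₀ ((tp p).map (algebraMap (MP σ κ) (RF σ κ))) = toE (MP (Option σ) κ) F p) ∧
      Etl a₀ θ ((cχ c).map (Polynomial.mapRingHom (algebraMap (MP σ κ) (RF σ κ))))
        ((tp c.D).map (algebraMap (MP σ κ) (RF σ κ))) ∧
      ∃ (z : κ) (j : F →+* Ls (RF σ κ)), PChart.InfEmb (K := κ) θ z j ∧
        ∀ p, j (a₀ p) = tL (RF σ κ) p := by
  obtain ⟨γ, hγ, e⟩ := (isFr_alg (MP σ κ) (RF σ κ)).exists_poly ((isFr_alg (MP (Option σ) κ)
    (RF (Option σ) κ)).comp_equiv (MvPolynomial.optionEquivLeft κ σ).symm.toRingEquiv)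
  have h1 : ∀ p, tE F γ ((tp p).map (algebraMap (MP σ κ) (RF σ κ))) = toE (MP (Option σ) κ) F p :=
    fun p => congrArg (algebraMap _ F) ((RingHom.congr_fun e (tp p)).trans (congrArg (algebraMap _ _)
      ((MvPolynomial.optionEquivLeft κ σ).symm_apply_apply p)))
  have he := gexpc_etl c h (IsFractionRing.injective _ (RF σ κ)) (a := tE F γ)
    ((algebraMap (RF (Option σ) κ) F).injective.comp hγ.1)
    ((Polynomial.eval₂_map _ _ _).trans ((congrArg (c.χ.eval₂ · θ) (RingHom.ext h1)).trans hF.1))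
    ((get0_clo hγ).2 hF.2)
  obtain ⟨z, hz⟩ := IsAlgClosed.exists_root c.top (Polynomial.natDegree_pos_iff_degree_pos.1
    (c.top_monic.2 ▸ c.pos)).ne'
  obtain ⟨η, h2, h3⟩ := ((wt_chart c).1.map (algebraMap _ (RF σ κ))).root_ls
    (z := algebraMap (MP σ κ) _ (MvPolynomial.C z)) (by
      rw [topF_map (wt_chart c).1.monic, (wt_chart c).2.1, Polynomial.eval_map_apply,
        Polynomial.eval_map_apply, hz.eq_zero, map_zero, map_zero])
  obtain ⟨j, h4, h5⟩ := he.lift (kl_tM_inj one_pos) h3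
  refine ⟨_, h1, he, z, j, ⟨fun p => ?_, ?_, η, ?_, h2⟩, h4⟩
  · rw [← h1, h4, tp_up, Polynomial.map_C, kl_tM_C, Algebra.algebraMap_self, MvPolynomial.map_id]
    rfl
  · rw [← h1, h4, tp, MvPolynomial.optionEquivLeft_X_none, Polynomial.map_X]
    exact Polynomial.eval₂_X _ _
  · rw [h5, mul_assoc, HahnSeries.single_mul_single, neg_add_cancel, mul_one]
    exact mul_one _

theorem conn_thm : CONN := by
  intro κ σ _ _ _ N GG c Φ l hG hI hs hΦ hp hl F E _ _ _ _ _ _ _ _ θ hF hP hu hE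
  obtain ⟨a₀, h1, he, z, j₀, hz, hj₀⟩ := chart_etl c.toPChart hI hF
  obtain ⟨j, hj⟩ := hE z j₀ hz
  obtain ⟨κ', _, _, f, d, hd⟩ := exists_generic_dir σ κ
  have := isAlgClosed_res_ps κ'
  obtain ⟨η, hη, h2⟩ : ∃ η : MP σ κ →+* κ'⟦X⟧, Function.Injective η ∧
      ∀ q, PowerSeries.constantCoeff (η q) = f (MvPolynomial.constantCoeff q) :=
    ⟨_, dirn_indep (b := 0) hd, RingHom.congr_fun (MvPolynomial.ringHom_ext
      (f := PowerSeries.constantCoeff.comp (MvPolynomial.eval₂Hom (PowerSeries.C.comp f)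
        (dirn f 0 d))) (g := f.comp MvPolynomial.constantCoeff)
      (fun a => by simp) fun i => by simp [dirn])⟩
  have hα := isFr_alg κ'⟦X⟧ (Fr κ'⟦X⟧)
  have hi : Function.Injective ((algebraMap _ (Fr κ'⟦X⟧)).comp η) := hα.1.comp hη
  obtain ⟨γ, hγ⟩ := (isFr_alg (MP σ κ) (RF σ κ)).exists_lift hi
  have e : ∀ p : (MP σ κ)[X], (p.map (algebraMap _ (RF σ κ))).map γ =
      (p.map η).map (algebraMap _ (Fr κ'⟦X⟧)) := fun p => by
    rw [Polynomial.map_map, Polynomial.map_map, (RingHom.ext hγ : γ.comp _ = _)]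
  have h3 : ∀ p, tE E a₀ ((tp p).map (algebraMap _ (RF σ κ))) = toE (MP (Option σ) κ) E p :=
    fun p => (congrArg (algebraMap F E) (h1 p)).trans (IsScalarTower.algebraMap_apply _ F E _).symm
  obtain ⟨W, hW, h4⟩ := conn_core he hp (PowerSeries.isUnit_iff_constantCoeff.2 (by
      rw [map_natCast, ← map_natCast f]; exact ((map_ne_zero f).2 hl).isUnit)) hP
    (fun p => (hj _).trans (hj₀ p)) hα PowerSeries.X_irreducible γ
    (fun F' _ a' i hc => good_chart_fr c hG hs (PowerSeries.isUnit_iff_constantCoeff.2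
      (h2 Φ ▸ ((map_ne_zero f).2 hΦ).isUnit)) hα (gexpc_etl c.toPChart hI hi hc.inj (by
        rw [show a'.comp (Polynomial.mapRingHom ((algebraMap _ (Fr κ'⟦X⟧)).comp η)) =
          (i.comp a₀).comp (Polynomial.mapRingHom (algebraMap _ (RF σ κ))) from RingHom.ext fun p =>
            ((hc.cmp _).trans (congrArg a' ((e p).trans (Polynomial.map_map _ _ _)))).symm,
          ← Polynomial.eval₂_map, ← Polynomial.hom_eval₂, he.root, map_zero]) (hc.closure he)))
    ((algebraMap (MP σ κ) (RF σ κ)).comp MvPolynomial.C) fun u h => hu u fun x hx => by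
      rw [RingHom.comp_apply, ← h3, tp, MvPolynomial.optionEquivLeft_C, Polynomial.map_C]
      exact h x hx
  refine ⟨W, fun p => h3 p ▸ (h4 _ _ (e _)).1, fun p => ?_, hW⟩
  have h5 := line_tp (RingHom.id κ) 0 p
  rw [show (fun i : Option σ => i.elim (0 : κ) 0) = 0 from funext fun i => by cases i <;> rfl] at h5
  rw [← h3, (h4 _ _ (e _)).2, h5]
  simp only [Polynomial.C_dvd_iff_dvd_coeff, Polynomial.ext_iff, Polynomial.coeff_map,
    PowerSeries.X_dvd_iff, h2, map_eq_zero, MvPolynomial.eval₂Hom_zero_apply, Polynomial.coeff_zero]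

end Pool.Agent.ZFy
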