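import Pool.Agent.Lib.MP_751085_ag.ZF.G.Defs
import Pool.Agent.Lib.MP_751085_ag.ZC.V.Hen
import Pool.Agent.Lib.MP_751085_ag.ZC.V.Frc

/-! Good models: substitution in power series. -/

namespace Pool.Agent.ZFy.GM

open Pool.Agent.ZCy
open scoped Classical WithZero Polynomial PowerSeries
open WithZero (exp)

variable {R S T : Type} [CommRing R] [CommRing S] [CommRing T] {ψ : R⟦X⟧ →+* R⟦X⟧} {e : ℕ}
  {ε : R⟦X⟧}

theorem gsub_zero {f : R⟦X⟧} (h : ∀ n : ℕ, PowerSeries.X ^ n ∣ f) : f = 0 :=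
  PowerSeries.ext fun n => PowerSeries.X_pow_dvd_iff.1 (h (n + 1)) n n.lt_succ_self

theorem gsub_int {A B : Type} [CommRing A] [CommRing B] (φ : A →+* B) (v : Fin e → B)
    (h : ∀ f, ∃ g : Fin e → A, f = ∑ i, φ (g i) * v i) : φ.IsIntegral := by
  let := φ.toAlgebra
  refine RingHom.Finite.to_isIntegral
    (Module.Finite.of_surjective (Fintype.linearCombination A v) fun f => ?_)
  obtain ⟨g, rfl⟩ := h f
  exact ⟨g, rfl⟩

theorem exists_evl (I : Ideal T) [IsAdicComplete I T] (σ : R →+* T) {x : T} (hx : x ∈ I) :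
    ∃ e : R⟦X⟧ →+* T, (∀ r, e (PowerSeries.C r) = σ r) ∧ e PowerSeries.X = x := by
  let : WithIdeal T := ⟨I⟩
  let : UniformSpace R := ⊥
  obtain ⟨_, _⟩ := (IsAdic.isAdicComplete_iff (I := I) rfl).1 ‹_›
  refine ⟨PowerSeries.eval₂Hom (φ := σ) continuous_of_discreteTopology
    (WithIdeal.isTopologicallyNilpotent_of_mem hx), fun c => ?_, ?_⟩
  · rw [PowerSeries.coe_eval₂Hom, PowerSeries.eval₂_C]
  · rw [PowerSeries.coe_eval₂Hom, PowerSeries.eval₂_X]

theorem exists_sub (φ : R⟦X⟧) (h : PowerSeries.constantCoeff φ = 0) :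
    ∃ ψ : R⟦X⟧ →+* R⟦X⟧, (∀ r, ψ (PowerSeries.C r) = PowerSeries.C r) ∧ ψ PowerSeries.X = φ :=
  exists_evl (.span {PowerSeries.X}) PowerSeries.C
    (Ideal.mem_span_singleton.2 (PowerSeries.X_dvd_iff.2 h))

theorem sub_coe (ψ : R⟦X⟧ →+* T) (p : R[X]) :
    ψ (p : R⟦X⟧) = p.eval₂ (ψ.comp PowerSeries.C) (ψ PowerSeries.X) :=
  DFunLike.congr_fun (Polynomial.ringHom_ext (f := ψ.comp Polynomial.coeToPowerSeries.ringHom)
    (g := Polynomial.eval₂RingHom _ _) (fun a => by simp) (by simp)) p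

theorem sub_sh (ψ : R⟦X⟧ →+* T) (t : R) (p : R[X]) :
    ψ (sh t p) = p.eval₂ (ψ.comp PowerSeries.C) (ψ (PowerSeries.C t) + ψ PowerSeries.X) :=
  DFunLike.congr_fun (Polynomial.ringHom_ext (f := ψ.comp (sh t))
    (g := Polynomial.eval₂RingHom _ _) (fun a => by simp [sbs]) (by simp [sbs])) p

theorem sh_zero (p : R[X]) : sh (0 : R) p = (p : R⟦X⟧) :=
  DFunLike.congr_fun (Polynomial.ringHom_ext (f := sh (0 : R))
    (g := Polynomial.coeToPowerSeries.ringHom) (fun a => by simp [sbs]) (by simp [sbs])) p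

theorem cc_sh (t : R) (p : R[X]) : PowerSeries.constantCoeff (sh t p) = p.eval t :=
  DFunLike.congr_fun (Polynomial.ringHom_ext (f := PowerSeries.constantCoeff.comp (sh t))
    (g := Polynomial.evalRingHom t) (fun a => by simp [sbs]) (by simp [sbs])) p

theorem sh_X_sub (t : R) : sh t (Polynomial.X - Polynomial.C t) = PowerSeries.X := by
  simp [sbs]

theorem sh_inj (t : R) : Function.Injective (sh t) := sbs_inj (fun _ _ h => h) t one_ne_zero

/-- every series is a polynomial in `t + X` modulo `X ^ n` -/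
theorem exists_sh (t : R) (f : R⟦X⟧) (n : ℕ) : ∃ p, PowerSeries.X ^ n ∣ f - sh t p := by
  have h : ∀ p : R[X], sh t (p.comp (Polynomial.X - Polynomial.C t)) = p := fun p =>
    DFunLike.congr_fun (Polynomial.ringHom_ext
      (f := (sh t).comp (Polynomial.compRingHom (Polynomial.X - Polynomial.C t)))
      (g := Polynomial.coeToPowerSeries.ringHom) (fun a => by simp [sbs]) (by simp [sbs])) p
  exact ⟨_, _, h (f.trunc n) ▸ sub_eq_of_eq_add (f.eq_X_pow_mul_shift_add_trunc n)⟩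

theorem evl_ext (I : Ideal T) [IsHausdorff I T] (e e' : R⟦X⟧ →+* T)
    (hC : ∀ r, e (PowerSeries.C r) = e' (PowerSeries.C r))
    (hX : e PowerSeries.X = e' PowerSeries.X) (hx : e PowerSeries.X ∈ I) : e = e' := by
  refine RingHom.ext fun f => sub_eq_zero.1 (IsHausdorff.haus ‹_› _ fun n => ?_)
  rw [SModEq.zero, smul_eq_mul, Ideal.mul_top, f.eq_X_pow_mul_shift_add_trunc n, map_add, map_add,
    sub_coe, sub_coe, RingHom.ext (f := e.comp PowerSeries.C) (g := e'.comp PowerSeries.C) hC, ← hX,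
    add_sub_add_right_eq_sub, map_mul, map_mul, map_pow, map_pow, ← hX, ← mul_sub]
  exact Ideal.mul_mem_right _ _ (Ideal.pow_mem_pow hx n)

theorem sub_ext (ψ ψ' : R⟦X⟧ →+* S⟦X⟧) (hC : ∀ r, ψ (PowerSeries.C r) = ψ' (PowerSeries.C r))
    (hX : ψ PowerSeries.X = ψ' PowerSeries.X)
    (h0 : PowerSeries.constantCoeff (ψ PowerSeries.X) = 0) : ψ = ψ' :=
  evl_ext (.span {PowerSeries.X}) ψ ψ' hC hX
    (Ideal.mem_span_singleton.2 (PowerSeries.X_dvd_iff.2 h0))

theorem sub_span (hC : ∀ r, ψ (PowerSeries.C r) = PowerSeries.C r) (he : 0 < e) (hε : IsUnit ε)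
    (hX : ψ PowerSeries.X = PowerSeries.X ^ e * ε) (f : R⟦X⟧) :
    ∃ g : Fin e → R⟦X⟧, f = ∑ i, ψ (g i) * PowerSeries.X ^ (i : ℕ) := by
  have h1 : ∀ f : R⟦X⟧, ∃ f₁, f = ∑ i : Fin e, PowerSeries.C (f.coeff i) * PowerSeries.X ^ (i : ℕ) +
      ψ PowerSeries.X * f₁ := fun f => by
    obtain ⟨u, rfl⟩ := hε
    refine ⟨↑u⁻¹ * PowerSeries.mk fun i => f.coeff (i + e), ?_⟩
    have := f.eval₂_trunc_eq_sum_range PowerSeries.X PowerSeries.C e
    rw [hX, mul_assoc, u.mul_inv_cancel_left, add_comm, Fin.sum_univ_eq_sum_range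
      (fun i => PowerSeries.C (f.coeff i) * PowerSeries.X ^ i), ← this, Polynomial.eval₂_C_X_eq_coe]
    exact f.eq_X_pow_mul_shift_add_trunc e
  choose N hN using h1
  let g : Fin e → R⟦X⟧ := fun i => PowerSeries.mk fun n => (N^[n] f).coeff i
  have h2 : ∀ n, f = ∑ i, ψ ((g i).trunc n) * PowerSeries.X ^ (i : ℕ) +
      ψ PowerSeries.X ^ n * N^[n] f := fun n => by
    induction n with
    | zero => simp
    | succ n ih =>
      have : ∀ i, ψ ((g i).trunc (n + 1)) = ψ ((g i).trunc n) +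
          ψ PowerSeries.X ^ n * PowerSeries.C ((N^[n] f).coeff i) := fun i => by
        rw [PowerSeries.trunc_succ, Polynomial.coe_add, map_add, Polynomial.coe_monomial,
          PowerSeries.monomial_eq_C_mul_X_pow, map_mul, map_pow, hC, mul_comm,
          PowerSeries.coeff_mk]
      simp only [this, add_mul, Finset.sum_add_distrib, mul_assoc, ← Finset.mul_sum,
        Function.iterate_succ_apply', pow_succ]
      rw [add_assoc, ← mul_add, ← hN, ← ih]
  refine ⟨g, sub_eq_zero.1 (gsub_zero fun n => ?_)⟩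
  have h3 : PowerSeries.X ^ n ∣ ψ PowerSeries.X ^ n :=
    pow_dvd_pow_of_dvd (hX ▸ (dvd_pow_self _ he.ne').mul_right _) n
  rw [h2 n, add_sub_right_comm, ← Finset.sum_sub_distrib]
  refine dvd_add (Finset.dvd_sum fun i _ => ?_) (h3.mul_right _)
  rw [← sub_mul, ← dvd_neg, ← neg_mul, neg_sub, ← map_sub,
    sub_eq_of_eq_add ((g i).eq_X_pow_mul_shift_add_trunc n), map_mul, map_pow]
  exact (h3.mul_right _).mul_right _

theorem sub_inj (hC : ∀ r, ψ (PowerSeries.C r) = PowerSeries.C r) (he : 0 < e) (hε : IsUnit ε)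
    (hX : ψ PowerSeries.X = PowerSeries.X ^ e * ε) : Function.Injective ψ := by
  refine (injective_iff_map_eq_zero ψ).2 fun f hf => gsub_zero fun n => ?_
  induction n with
  | zero => simp
  | succ n ih =>
    obtain ⟨g, rfl⟩ := ih
    rw [map_mul, map_pow, hX, mul_pow, ← pow_mul, mul_assoc, ← mul_zero (PowerSeries.X ^ (e * n))]
      at hf
    have h1 := congrArg PowerSeries.constantCoeff
      ((hε.pow n).mul_right_eq_zero.1 (PowerSeries.X_pow_mul_cancel hf))
    rw [g.eq_X_mul_shift_add_const, map_add, map_mul, hX, hC] at h1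
    rw [pow_succ]
    exact mul_dvd_mul_left _ (PowerSeries.X_dvd_iff.2 (by simpa [he.ne'] using h1))

theorem sub_int (hC : ∀ r, ψ (PowerSeries.C r) = PowerSeries.C r) (he : 0 < e) (hε : IsUnit ε)
    (hX : ψ PowerSeries.X = PowerSeries.X ^ e * ε) : ψ.IsIntegral :=
  gsub_int ψ _ (sub_span hC he hε hX)

theorem sub_bij (hC : ∀ r, ψ (PowerSeries.C r) = PowerSeries.C r) (hε : IsUnit ε)
    (hX : ψ PowerSeries.X = PowerSeries.X * ε) : Function.Bijective ψ := by
  have h : ψ PowerSeries.X = PowerSeries.X ^ 1 * ε := by rwa [pow_one]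
  refine ⟨sub_inj hC one_pos hε h, fun f => ?_⟩
  obtain ⟨g, hg⟩ := sub_span hC one_pos hε h f
  exact ⟨g 0, by simpa using hg.symm⟩

theorem sub_gen [IsDomain R] (hC : ∀ r, ψ (PowerSeries.C r) = PowerSeries.C r) (he : 0 < e)
    (hε : IsUnit ε) (hX : ψ PowerSeries.X = PowerSeries.X ^ e * ε) (S : Subfield (Fr R⟦X⟧))
    (h1 : ∀ f, fr R (ψ f) ∈ S) (h2 : fr R PowerSeries.X ∈ S) : S = ⊤ := by
  have h : ∀ f, fr R f ∈ S := fun f => by
    obtain ⟨g, rfl⟩ := sub_span hC he hε hX f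
    rw [map_sum]
    exact sum_mem fun i _ => by rw [map_mul, map_pow]; exact mul_mem (h1 _) (pow_mem h2 _)
  refine top_unique fun x _ => ?_
  obtain ⟨a, b, -, rfl⟩ := IsFractionRing.div_surjective R⟦X⟧ x
  exact div_mem (h a) (h b)

/-- the order is multiplied by `e` -/
theorem sub_order {κ : Type} [Field κ] {ψ : κ⟦X⟧ →+* κ⟦X⟧} {ε : κ⟦X⟧}
    (_hC : ∀ r, ψ (PowerSeries.C r) = PowerSeries.C r) (_he : 0 < e) (hε : IsUnit ε)
    (hX : ψ PowerSeries.X = PowerSeries.X ^ e * ε) (f : κ⟦X⟧) :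
    (ψ f).order.toNat = e * f.order.toNat := by
  rcases eq_or_ne f 0 with rfl | h
  · simp
  have h1 : IsUnit f.divXPowOrder := PowerSeries.isUnit_iff_constantCoeff.2
    (Ne.isUnit (mt PowerSeries.constantCoeff_divXPowOrder_eq_zero_iff.1 h))
  conv_lhs => rw [← f.X_pow_order_mul_divXPowOrder, map_mul, map_pow, hX, mul_pow, ← pow_mul,
    mul_assoc, PowerSeries.order_mul, PowerSeries.order_X_pow,
    PowerSeries.order_zero_of_unit ((hε.pow _).mul (h1.map ψ))]
  simp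

end Pool.Agent.ZFy.GM
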