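import Pool.Agent.Lib.MP_751085_ag.ZF.G.Ps0
import Pool.Agent.Lib.MP_751085_ag.ZF.G.Sub
import Pool.Agent.Lib.MP_751085_ag.ZC.K.Hen

/-! Expansions at points of the line. -/

namespace Pool.Agent.ZFy.GM

open Pool.Agent.ZCy
open scoped Classical WithZero Polynomial PowerSeries
open WithZero (exp)

variable {K M : Type} [Field K] [Field M] {V : Vl (Fr K⟦X⟧)} {χ p q : K[X][X]} {D : K[X]} {c : K}

theorem vx_ord (hV : Cn1 (fr K) V PowerSeries.X) (f : K⟦X⟧) :
    ord V (fr K f) = (f.order.toNat : ℤ) := by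
  rcases eq_or_ne f 0 with rfl | h0
  · simp [ord_zero]
  refine ord_eq_of _ ?_
  conv_lhs => rw [← PowerSeries.X_pow_order_mul_divXPowOrder (f := f)]
  rw [map_mul, map_pow, map_mul, map_pow, hV.2, (hV.1.eq_one _).2 fun h => h0
    (PowerSeries.constantCoeff_divXPowOrder_eq_zero_iff.1 (PowerSeries.X_dvd_iff.1 h)), mul_one,
    ← WithZero.exp_nsmul]
  simp

theorem vx_eq_one (hV : Cn1 (fr K) V PowerSeries.X) (f : K⟦X⟧) :
    V (fr K f) = 1 ↔ PowerSeries.constantCoeff f ≠ 0 := by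
  rw [hV.1.eq_one, PowerSeries.X_dvd_iff]

theorem exists_psmap (γ : K →+* M) (hV : Cn1 (fr K) V PowerSeries.X) {V' : Vl (Fr M⟦X⟧)}
    (hV' : Cn1 (fr M) V' PowerSeries.X) : ∃ m : Fr K⟦X⟧ →+* Fr M⟦X⟧,
      (∀ f, m (fr K f) = fr M (PowerSeries.map γ f)) ∧ ∀ y, V' (m y) = V y := by
  have hα := isFr_alg K⟦X⟧ (Fr K⟦X⟧)
  obtain ⟨m, hm⟩ := hα.exists_lift (β := (fr M).comp (PowerSeries.map γ))
    ((isFr_alg _ _).1.comp (PowerSeries.map_injective γ γ.injective))
  have hc : Cen (fr K) (V'.comap m) PowerSeries.X :=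
    ⟨fun f => (congrArg V' (hm f)).trans_le (hV'.1.1 _), fun f => by
      rw [Valuation.comap_apply, hm, RingHom.comp_apply, hV'.1.2, PowerSeries.X_dvd_iff,
        PowerSeries.X_dvd_iff, ← PowerSeries.coeff_zero_eq_constantCoeff_apply,
        PowerSeries.coeff_map, map_eq_zero, PowerSeries.coeff_zero_eq_constantCoeff_apply]⟩
  exact ⟨m, hm, idx_one_iff.1 (Over.idx_one (Cen.iff hα PowerSeries.X_prime hV.1 hc) hV.2
    (by rw [hm, RingHom.comp_apply, PowerSeries.map_X, hV'.2]))⟩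

theorem order_sh (c : K) (f : K[X]) : (sh c f).order.toNat = f.rootMultiplicity c := by
  rcases eq_or_ne f 0 with rfl | h0
  · simp
  obtain ⟨g, e, hg⟩ := f.exists_eq_pow_rootMultiplicity_mul_and_not_dvd h0 c
  conv_lhs => rw [e]
  rw [map_mul, map_pow, sh_X_sub, PowerSeries.order_mul, PowerSeries.order_X_pow,
    PowerSeries.order_zero_of_unit (PowerSeries.isUnit_iff_constantCoeff.2 (Ne.isUnit (by
      rw [cc_sh]
      exact fun h => hg (Polynomial.dvd_iff_isRoot.2 h)))), add_zero, ENat.toNat_natCast]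

theorem map_eval_sh {A B : Type} [CommRing A] [CommRing B] (f : A →+* B) (G : A[X][X]) (c : A)
    (η : A⟦X⟧) : PowerSeries.map f (G.eval₂ (sh c) η) =
      (G.map (Polynomial.mapRingHom f)).eval₂ (sh (f c)) (PowerSeries.map f η) := by
  rw [Polynomial.hom_eval₂, Polynomial.eval₂_map]
  refine congrArg (G.eval₂ · _) (Polynomial.ringHom_ext (fun a => ?_) ?_) <;> simp [sbs]

theorem cc_eval_sh {A : Type} [CommRing A] (G : A[X][X]) (c : A) (η : A⟦X⟧) :
    PowerSeries.constantCoeff (G.eval₂ (sh c) η) =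
      G.eval₂ (Polynomial.evalRingHom c) (PowerSeries.constantCoeff η) := by
  rw [Polynomial.hom_eval₂]
  exact congrArg (G.eval₂ · _) (RingHom.ext (cc_sh c))

theorem gpt0_sep (hb : Polynomial.C D = p * χ + q * χ.derivative) (hc : D.eval c ≠ 0) :
    (χ.map (Polynomial.evalRingHom c)).Separable := by
  have h := congrArg (Polynomial.map (Polynomial.evalRingHom c)) hb
  rw [Polynomial.map_C, Polynomial.map_add, Polynomial.map_mul, Polynomial.map_mul,
    ← Polynomial.derivative_map] at h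
  refine ⟨Polynomial.C (D.eval c)⁻¹ * p.map (Polynomial.evalRingHom c),
    Polynomial.C (D.eval c)⁻¹ * q.map (Polynomial.evalRingHom c), ?_⟩
  rw [mul_assoc, mul_assoc, ← mul_add, ← h, ← Polynomial.C_mul, Polynomial.coe_evalRingHom,
    inv_mul_cancel₀ hc, Polynomial.C_1]

theorem gpt0_cc (c : K) : (PowerSeries.constantCoeff : K⟦X⟧ →+* K).comp (sh c) =
    Polynomial.evalRingHom c := RingHom.ext (cc_sh c)

theorem gpt0_der (hb : Polynomial.C D = p * χ + q * χ.derivative) (hc : D.eval c ≠ 0) {z : K}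
    (hz : χ.eval₂ (Polynomial.evalRingHom c) z = 0) :
    χ.derivative.eval₂ (Polynomial.evalRingHom c) z ≠ 0 := by
  have h := (gpt0_sep hb hc).eval₂_derivative_ne_zero (RingHom.id K) (x := z)
    (by rwa [Polynomial.eval₂_map, RingHom.id_comp])
  rwa [Polynomial.derivative_map, Polynomial.eval₂_map, RingHom.id_comp] at h

theorem split_sh [IsAlgClosed K] (hm : χ.Monic)
    (hb : Polynomial.C D = p * χ + q * χ.derivative) (hc : D.eval c ≠ 0) :
    (χ.map (sh c)).Splits := by
  refine kh_series (hm.map _) ?_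
  rw [Polynomial.map_map, gpt0_cc]
  exact gpt0_sep hb hc

theorem root_ex (hm : χ.Monic) (hb : Polynomial.C D = p * χ + q * χ.derivative)
    (hc : D.eval c ≠ 0) {z : K} (hz : χ.eval₂ (Polynomial.evalRingHom c) z = 0) :
    ∃ η : K⟦X⟧, χ.eval₂ (sh c) η = 0 ∧ PowerSeries.constantCoeff η = z := by
  obtain ⟨η, h1, h2⟩ := ZeroCyc.exists_hensel_series (hm.map (sh c)) (y := z)
    (by rwa [Polynomial.eval₂_map, gpt0_cc]) (by
      rw [Polynomial.derivative_map, Polynomial.eval₂_map, gpt0_cc]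
      exact (gpt0_der hb hc hz).isUnit)
  exact ⟨η, by rwa [← Polynomial.eval_map], h2⟩

theorem root_uniq (hb : Polynomial.C D = p * χ + q * χ.derivative) (hc : D.eval c ≠ 0)
    {η η' : K⟦X⟧} (h : χ.eval₂ (sh c) η = 0) (h' : χ.eval₂ (sh c) η' = 0)
    (e : PowerSeries.constantCoeff η = PowerSeries.constantCoeff η') : η = η' := by
  obtain ⟨k, hk⟩ := Polynomial.binomExpansion (χ.map (sh c)) η (η' - η)
  rw [add_sub_cancel, Polynomial.derivative_map, Polynomial.eval_map, Polynomial.eval_map,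
    Polynomial.eval_map, h, h', zero_add, sq, ← mul_assoc, ← add_mul] at hk
  refine (sub_eq_zero.1 ((mul_eq_zero.1 hk.symm).resolve_left fun h0 => gpt0_der hb hc
    (z := PowerSeries.constantCoeff η) (by rw [← cc_eval_sh, h, map_zero]) ?_)).symm
  simpa [e, cc_eval_sh] using congrArg PowerSeries.constantCoeff h0

theorem mult_coprime {l : ℕ} (hl : l.Prime) (h0 : (l : K) ≠ 0) (γ : K →+* M) {f : K[X]}
    (hf : Irreducible f) {c : M} (hc : f.eval₂ γ c = 0) :
    ((f.map γ).rootMultiplicity c).Coprime l := by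
  obtain ⟨r, hr⟩ := ExpChar.exists K
  have := expChar_of_injective_ringHom γ.injective r
  obtain ⟨g, hg, n, rfl⟩ := hf.hasSeparableContraction r
  have h1 := Polynomial.rootMultiplicity_le_one_of_separable (hg.map (f := γ)) (c ^ r ^ n)
  rw [Polynomial.map_expand, Polynomial.rootMultiplicity_expand_pow, h1.antisymm
    ((Polynomial.rootMultiplicity_pos (hg.map (f := γ)).ne_zero).2 (by
      rwa [Polynomial.IsRoot, ← Polynomial.expand_eval, ← Polynomial.map_expand,
        Polynomial.eval_map])), mul_one]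
  refine Nat.Coprime.pow_left _ ?_
  cases hr with
  | zero => exact Nat.coprime_one_left _
  | prime hp => exact (Nat.coprime_primes hp hl).2 fun e => h0 (e ▸ CharP.cast_eq_zero K r)

end Pool.Agent.ZFy.GM
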