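import Pool.Agent.Lib.MP_751085_ag.ZF.G.Cs1
import Pool.Agent.Lib.MP_751085_ag.ZF.G.Pt0
import Pool.Agent.Lib.MP_751085_ag.ZF.G.Plc

/-! Constant extensions of a closed field: places extend with index one. -/

namespace Pool.Agent.ZFy.GM

open Pool.Agent.ZCy
open scoped Classical WithZero Polynomial PowerSeries
open WithZero (exp)

variable {K K' F F' : Type} [Field K] [Field K'] [Field F] [Field F'] {γ : K →+* K'}
  {a : K[X] →+* F} {a' : K'[X] →+* F'} {i : F →+* F'} {θ : F} {χ : K[X][X]} {D Θ : K[X]}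
  {P : Vl F}

theorem Etl.res_const [IsAlgClosed K] (h : Etl a θ χ D) (hP : Nrm P) (hh : Hor a P) {x : F}
    (hx : P x ≤ 1) : ∃ c, P (x - a (Polynomial.C c)) < 1 := by
  obtain ⟨_, rfl⟩ := exists_frac h.inj
  have := (h.alg (isFr_alg _ _)).1
  exact GM.res_const (isFr_alg _ _) hP hh hx

/-- An element whose value is neither `0` nor `1` is transcendental over the constants. -/
theorem inj_of_val {κ : K →+* F} (h : Triv κ P) {τ : F} (c : K) (h0 : τ - κ c ≠ 0)
    (h1 : P (τ - κ c) ≠ 1) : Function.Injective (Polynomial.eval₂RingHom κ τ) := by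
  refine (injective_iff_map_eq_zero _).2 fun p hp => by_contra fun hn => h1 ?_
  let := κ.toAlgebra
  exact Triv.eq_one h h0 (IsAlgebraic.sub ⟨p, hn, hp⟩ (isAlgebraic_algebraMap c))

/-- Embed `F'` into the Laurent series over `K'`. -/
theorem cext_one [IsAlgClosed K] (hc : CExt γ a a' i) (h : Etl a θ χ D) (hP : Nrm P)
    (hh : Hor a P) : ∃ P' : Vl F', Nrm P' ∧ Hor a' P' ∧ Idx i P P' 1 := by
  obtain ⟨V, hV, -⟩ := exists_vx K
  obtain ⟨V', hV', -⟩ := exists_vx K'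
  obtain ⟨ϖ, hϖ⟩ := id hP
  obtain ⟨J, J1, -, J2⟩ := place_ps (κ₀ := a.comp Polynomial.C) hh
    (fun x hx => h.res_const hP hh hx) hϖ hV
  obtain ⟨m, m1, m2⟩ := exists_psmap γ hV hV'
  have ht : Triv ((fr K').comp PowerSeries.C) V' := fun c h0 =>
    (vx_eq_one hV' (PowerSeries.C c)).2 (by rwa [PowerSeries.constantCoeff_C])
  have e1 : ∀ c, m (J (a (Polynomial.C c))) = fr K' (PowerSeries.C (γ c)) := fun c => by
    rw [← PowerSeries.map_C, ← m1, ← J1]
    rfl
  obtain ⟨c, h1⟩ : ∃ c, P (a Polynomial.X - a (Polynomial.C c)) ≠ 1 := by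
    rcases le_or_gt (P (a Polynomial.X)) 1 with e | e
    · exact (h.res_const hP hh e).imp fun c hc => hc.ne
    · exact ⟨0, by simpa using e.ne'⟩
  have e2 : m (J (a Polynomial.X)) - ((fr K').comp PowerSeries.C) (γ c) =
      m (J (a (Polynomial.X - Polynomial.C c))) := by
    rw [map_sub, map_sub, map_sub, e1, RingHom.comp_apply]
  have hb := inj_of_val ht (τ := m (J (a Polynomial.X))) (γ c)
    (by
      rw [e2, map_ne_zero, map_ne_zero, map_ne_zero_iff a h.inj]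
      exact Polynomial.X_sub_C_ne_zero c)
    (by rwa [e2, m2, J2, map_sub])
  obtain ⟨e, h2, h3⟩ := hc.lift h (h.irr_cl γ) hb (j := m.comp J) fun p => by
    refine DFunLike.congr_fun (?_ : (m.comp J).comp a = (Polynomial.eval₂RingHom _ _).comp
      (Polynomial.mapRingHom γ)) p
    refine Polynomial.ringHom_ext (fun c => ?_) ?_
    · simpa using e1 c
    · simp
  have h4 : ∀ x, V' (e (i x)) = P x := fun x => by rw [h2, RingHom.comp_apply, m2, J2]
  refine ⟨V'.comap e, ⟨i ϖ, (h4 ϖ).trans hϖ⟩, fun r hr => ?_, idx_one_iff.2 h4⟩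
  rw [Valuation.comap_apply, h3, Polynomial.coe_eval₂RingHom, Polynomial.eval₂_C]
  exact ht r hr

theorem TW.desc_cl [IsAlgClosed K] (hc : CExt γ a a' i) (h : Etl a θ χ D) {m : ℕ} {u : F}
    (hu : TW m a' (Θ.map γ) (i u)) : TW m a Θ u := by
  intro v hv hm
  obtain ⟨P', h1, h2, h3⟩ := cext_one hc h hv hm.1
  have e := idx_one_iff.1 h3
  have e' := hu P' h1 ⟨h2, by rw [← Polynomial.map_X γ, ← hc.cmp, e]; exact hm.2.1,
    by rw [← hc.cmp, e]; exact hm.2.2⟩
  rwa [h3.ord, Nat.cast_one, one_mul] at e'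

theorem TI.desc_cl [IsAlgClosed K] (hc : CExt γ a a' i) (h : Etl a θ χ D) {m : ℕ} {u : F}
    (hu : TI m a' (i u)) : TI m a u := by
  intro v hv hh hx
  obtain ⟨P', h1, h2, h3⟩ := cext_one hc h hv hh
  have e' := hu P' h1 h2 (by rwa [← Polynomial.map_X γ, ← hc.cmp, idx_one_iff.1 h3])
  rwa [h3.ord, Nat.cast_one, one_mul] at e'

/-- all places -/
theorem all_desc_cl [IsAlgClosed K] (hc : CExt γ a a' i) (h : Etl a θ χ D) {m : ℕ} {u₀ : F}
    {u z : F'} (e : u = i u₀ * z ^ m) (h0 : u ≠ 0)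
    (hu : ∀ w : Vl F', Nrm w → Hor a' w → (m : ℤ) ∣ ord w u) (hP : Nrm P) (hh : Hor a P) :
    (m : ℤ) ∣ ord P u₀ := by
  obtain ⟨P', h1, h2, h3⟩ := cext_one hc h hP hh
  have e' := hu P' h1 h2
  rw [e] at h0
  rwa [e, ord_mul_v _ (left_ne_zero_of_mul h0) (right_ne_zero_of_mul h0), ord_pow_v, h3.ord,
    Nat.cast_one, one_mul, dvd_add_left (dvd_mul_right _ _)] at e'

end Pool.Agent.ZFy.GM
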