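import Pool.Agent.Lib.MP_751085_ag.ZF.G.Defs
import Pool.Agent.Lib.MP_751085_ag.ZC.V.HarB
import Pool.Agent.Lib.MP_751085_ag.ZC.V.Gal
import Pool.Agent.Lib.MP_751085_ag.ZC.V.Cv

/-! Good models: prolongations over two valuations, density. -/

namespace Pool.Agent.ZFy.GM

open Pool.Agent.ZCy
open scoped Classical WithZero Polynomial PowerSeries
open WithZero (exp)

variable {K K₁ F L : Type} [Field K] [Field K₁] [Field F] [Field L]

/-- a common prolongation in a compositum -/
theorem pld [Algebra K F] [FiniteDimensional K F] [Algebra.IsSeparable K F] (β : K →+* K₁)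
    {v : Vl K} {v₁ : Vl K₁} (h₁ : Over β v v₁) {P : Vl F} (hP : Over (algebraMap K F) v P) :
    ∃ (L : Type) (_ : Field L) (_ : Algebra K₁ L) (_ : FiniteDimensional K₁ L) (j : F →+* L)
      (w : Vl L), Sq β j ∧ Over (algebraMap K₁ L) v₁ w ∧ Over j P w := by
  obtain ⟨N, _, _, _, _, _, _, -⟩ := exists_gc K F
  obtain ⟨L, _, _, _, _, j₀, -, hs, -⟩ := exists_bc N β
  obtain ⟨w, hw⟩ := exists_over (E := L) v₁
  haveI := FiniteDimensional.right K F N
  obtain ⟨P', hP'⟩ := exists_over (E := N) P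
  have h : Over (algebraMap K N) v (w.comap j₀) := fun x => by
    rw [Valuation.comap_apply, hs x, hw, h₁]
  have h' : Over (algebraMap K N) v P' := fun x => by
    rw [IsScalarTower.algebraMap_apply K F N, hP', hP]
  obtain ⟨g, hg⟩ := conj h h'
  refine ⟨L, inferInstance, inferInstance, inferInstance,
    j₀.comp ((g : N →+* N).comp (algebraMap F N)), w, fun a => ?_, hw,
    fun x => (hg _).symm.trans (hP' x)⟩
  show j₀ (g (algebraMap F N (algebraMap K F a))) = _
  rw [← IsScalarTower.algebraMap_apply, g.commutes, hs a]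

/-- the limits of elements of a subfield form a subfield -/
theorem dns_closure {j : F →+* L} {w : Vl L} {S : Set L} (h : ∀ x ∈ S, Dns j w x) {x : L}
    (hx : x ∈ Subfield.closure S) : Dns j w x := by
  have c0 : ∀ n : ℕ, (exp (-(n : ℤ)) : ℤᵐ⁰) ≠ 0 := fun _ => WithZero.exp_ne_zero
  have c1 : ∀ n : ℕ, (exp (-(n : ℤ)) : ℤᵐ⁰) ≤ 1 := fun n => by
    rw [← WithZero.exp_zero, WithZero.exp_le_exp]; omega
  induction hx using Subfield.closure_induction with
  | mem x hx => exact h x hx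
  | one => exact fun n => ⟨1, by simp⟩
  | add x y _ _ hx hy =>
    intro n
    obtain ⟨a, ha⟩ := hx n
    obtain ⟨b, hb⟩ := hy n
    exact ⟨a + b, by rw [map_add, add_sub_add_comm]; exact w.map_add_le ha hb⟩
  | neg x _ hx =>
    intro n
    obtain ⟨a, ha⟩ := hx n
    exact ⟨-a, by rwa [map_neg, neg_sub_neg, Valuation.map_sub_swap]⟩
  | inv x _ hx =>
    intro n
    rcases eq_or_ne x 0 with rfl | h0
    · exact ⟨0, by simp⟩
    have w0 : 0 < w x := zero_lt_iff.2 (w.ne_zero_iff.2 h0)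
    obtain ⟨a, ha⟩ := hx.exists_lt (c := min (w x) (exp (-(n : ℤ)) * (w x * w x)))
      (lt_min w0 (mul_pos (zero_lt_iff.2 (c0 n)) (mul_pos w0 w0))).ne'
    have e : w (j a) = w x := by
      have := w.map_sub_eq_of_lt_left (lt_min_iff.1 ha).1
      rwa [sub_sub_cancel] at this
    have a0 : j a ≠ 0 := w.ne_zero_iff.1 (e ▸ w0.ne')
    refine ⟨a⁻¹, ?_⟩
    rw [map_inv₀, inv_sub_inv h0 a0, map_div₀, map_mul, e, div_le_iff₀ (mul_pos w0 w0),
      Valuation.map_sub_swap]
    exact (lt_min_iff.1 ha).2.le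
  | mul x y _ _ hx hy =>
    intro n
    obtain ⟨M, h1, h2, h3⟩ : ∃ M, 1 ≤ M ∧ w x ≤ M ∧ w y ≤ M :=
      ⟨max 1 (max (w x) (w y)), by simp, by simp, by simp⟩
    have M0 : 0 < M := zero_lt_one.trans_le h1
    have e : M * (exp (-(n : ℤ)) / M) = exp (-(n : ℤ)) := mul_div_cancel₀ _ M0.ne'
    obtain ⟨a, ha⟩ := hx.exists_lt (div_ne_zero (c0 n) M0.ne')
    obtain ⟨b, hb⟩ := hy.exists_lt (div_ne_zero (c0 n) M0.ne')
    have h4 : exp (-(n : ℤ)) / M ≤ M := ((div_le_one₀ M0).2 ((c1 n).trans h1)).trans h1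
    refine ⟨a * b, ?_⟩
    rw [show x * y - j (a * b) = x * (y - j b) + y * (x - j a) - (x - j a) * (y - j b) by
      rw [map_mul]; ring, ← e]
    refine w.map_sub_le (w.map_add_le ?_ ?_) ?_ <;> rw [map_mul]
    exacts [mul_le_mul' h2 hb.le, mul_le_mul' h3 ha.le, mul_le_mul' (ha.le.trans h4) hb.le]

theorem idx_one_of_dns {j : F →+* L} {v : Vl F} {w : Vl L} (hv : Nrm v) (hw : Nrm w)
    (ho : Over j v w) (h : ∀ x, Dns j w x) : Idx j v w 1 := by
  obtain ⟨π, hπ⟩ := hw
  obtain ⟨a, ha⟩ := (h π).exists_lt (c := w π) (hπ ▸ WithZero.exp_ne_zero)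
  have e : w (j a) = exp (-1) := by
    have := w.map_sub_eq_of_lt_left ha
    rwa [sub_sub_cancel, hπ] at this
  obtain ⟨n, -, hn⟩ := ho.idx hv
  have := hn.ord a
  rw [ord, e, WithZero.log_exp, neg_neg] at this
  obtain rfl : n = 1 := by exact_mod_cast Int.eq_one_of_mul_eq_one_right n.cast_nonneg this.symm
  exact hn

/-- a map whose image lies in the image of `ι` factors through `ι` -/
theorem exists_fac (ι : K →+* L) (j : F →+* L) (h : ∀ x, j x ∈ ι.range) :
    ∃ J : F →+* K, ∀ x, ι (J x) = j x := by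
  choose J hJ using fun x => RingHom.mem_range.1 (h x)
  exact ⟨⟨⟨⟨J, ι.injective (by simp [hJ])⟩, fun a b => ι.injective (by simp [hJ])⟩,
    ι.injective (by simp [hJ]), fun a b => ι.injective (by simp [hJ])⟩, hJ⟩

theorem range_of_closure {S : Set F} (hS : Subfield.closure S = ⊤) (ι : K →+* L) (j : F →+* L)
    (h : ∀ x ∈ S, j x ∈ ι.range) (x : F) : j x ∈ ι.range := by
  exact (Subfield.closure_le (t := ι.fieldRange.comap j)).2 h (hS ▸ Subfield.mem_top x)

theorem hom_ext_closure {S : Set F} (hS : Subfield.closure S = ⊤) {j j' : F →+* L}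
    (h : ∀ x ∈ S, j x = j' x) : j = j' := by
  exact RingHom.eq_of_eqOn_of_field_closure_eq_top hS h

/-- an embedding into an algebraically closed field extends along an integral map of domains -/
theorem exists_ext_fr {A B : Type} [CommRing A] [CommRing B] [IsDomain A] [IsDomain B]
    [IsAlgClosed L] {τ : A →+* B} (hi : Function.Injective τ) (hτ : τ.IsIntegral)
    (ι : Fr A →+* L) : ∃ ι' : Fr B →+* L,
      ∀ f, ι' (algebraMap B (Fr B) (τ f)) = ι (algebraMap A (Fr A) f) := by
  have inj : Function.Injective ((algebraMap B (Fr B)).comp τ) :=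
    (IsFractionRing.injective B (Fr B)).comp hi
  letI : Algebra (Fr A) (Fr B) := (IsFractionRing.lift inj).toAlgebra
  letI := ι.toAlgebra
  have e : ∀ f, algebraMap (Fr A) (Fr B) (algebraMap A (Fr A) f) = algebraMap B (Fr B) (τ f) :=
    fun f => IsFractionRing.lift_algebraMap inj f
  have hB : ∀ b, IsIntegral (Fr A) (algebraMap B (Fr B) b) := fun b => by
    obtain ⟨q, hq, h0⟩ := hτ b
    refine ⟨q.map (algebraMap A (Fr A)), hq.map _, ?_⟩
    rw [Polynomial.eval₂_map, show (algebraMap (Fr A) (Fr B)).comp (algebraMap A (Fr A)) =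
      (algebraMap B (Fr B)).comp τ from RingHom.ext e, ← Polynomial.hom_eval₂, h0, map_zero]
  haveI : Algebra.IsAlgebraic (Fr A) (Fr B) := ⟨fun x => by
    obtain ⟨a, b, -, rfl⟩ := IsFractionRing.div_surjective (A := B) x
    rw [div_eq_mul_inv]
    exact (hB a).isAlgebraic.mul (hB b).isAlgebraic.inv⟩
  exact ⟨(IsAlgClosed.lift : Fr B →ₐ[Fr A] L), fun f => by
    rw [← e]; exact (IsAlgClosed.lift : Fr B →ₐ[Fr A] L).commutes _⟩

theorem adjoin_top_iff [Algebra K F] (S : Set F) : IntermediateField.adjoin K S = ⊤ ↔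
    Subfield.closure (Set.range (algebraMap K F) ∪ S) = ⊤ := by
  rw [← IntermediateField.toSubfield_inj, IntermediateField.adjoin_toSubfield,
    IntermediateField.top_toSubfield]

/-- a subfield that contains the image of `A` contains the image of its fraction field -/
theorem mem_of_isFr {A : Type} [CommRing A] {α : A →+* K} (hα : IsFr α) (j : K →+* L)
    (S : Subfield L) (h : ∀ p, j (α p) ∈ S) (x : K) : j x ∈ S := by
  obtain ⟨a, b, hb, e⟩ := hα.2 x
  have : α b ≠ 0 := fun h0 => hb (hα.1 (h0.trans (map_zero α).symm))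
  rw [eq_div_of_mul_eq this e, map_div₀]
  exact div_mem (h a) (h b)

end Pool.Agent.ZFy.GM
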