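import Pool.Agent.Lib.MP_751085_ag.ZF.G.Et0
import Pool.Agent.Lib.MP_751085_ag.ZF.G.Rev
import Pool.Agent.Lib.MP_751085_ag.ZF.G.Pld
import Pool.Agent.Lib.MP_751085_ag.ZC.V.Bcu

/-! Good models: extension of constants of a Galois cover. -/

namespace Pool.Agent.ZFy.GM

open Pool.Agent.ZCy
open scoped Classical WithZero Polynomial PowerSeries
open WithZero (exp)

variable {K K' K₁ K₁' T F' : Type} [Field K] [Field K'] [Field K₁] [Field K₁'] [Field T] [Field F']
  {γ : K →+* K'} {φ : K[X] →+* T} {a' : K'[X] →+* F'} {j : T →+* F'}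

theorem gcx_cmp (h : CExt γ φ a' j) : j.comp φ = a'.comp (Polynomial.mapRingHom γ) :=
  RingHom.ext h.cmp

theorem gcx_clo [Algebra K₁' F'] {α' : K'[X] →+* K₁'} (hα : IsFr α') (S : Set F') :
    Subfield.closure (S ∪ Set.range (tE F' α')) = ⊤ ↔ IntermediateField.adjoin K₁' S = ⊤ := by
  rw [adjoin_top_iff]
  refine Eq.congr_left (le_antisymm (Subfield.closure_mono ?_) (Subfield.closure_le.2 ?_))
  · rintro _ (hx | ⟨p, rfl⟩)
    exacts [Or.inr hx, Or.inl ⟨α' p, rfl⟩]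
  · rintro _ (⟨y, rfl⟩ | hx)
    exacts [mem_of_isFr hα (algebraMap K₁' F') (Subfield.closure (S ∪ Set.range (tE F' α')))
      (fun p => Subfield.subset_closure (Or.inr ⟨p, rfl⟩)) y, Subfield.subset_closure (Or.inl hx)]

theorem CExt.rvs (h : CExt γ φ a' j) : CExt γ (rvs φ) (rvs a') j := by
  refine ⟨RingHom.congr_fun ((rvs_comp j).symm.trans ((congrArg _ (gcx_cmp h)).trans (rvs_map γ))),
    rvs_inj h.inj, eq_top_iff.2 (h.gen.ge.trans (Subfield.closure_le.2 ?_))⟩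
  have h1 : ∀ p, GM.rvs a' p ∈ Subfield.closure (Set.range j ∪ Set.range (GM.rvs a')) :=
    fun p => Subfield.subset_closure (Or.inr ⟨p, rfl⟩)
  rintro _ (hx | ⟨p, rfl⟩)
  · exact Subfield.subset_closure (Or.inl hx)
  · rw [rvs_reverse (grev_ne h.inj) p, ← inv_inv (a' Polynomial.X), ← rvs_X]
    exact mul_mem (h1 _) (pow_mem (inv_mem (h1 _)) _)

theorem CExt.adjoin (h : CExt γ φ a' j) [Algebra K₁' F'] {α' : K'[X] →+* K₁'} (hα : IsFr α')
    (e : tE F' α' = a') : IntermediateField.adjoin K₁' (Set.range j) = ⊤ := by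
  exact (gcx_clo hα _).1 (e ▸ h.gen)

theorem cext_of_adjoin [Algebra K₁' F'] {α' : K'[X] →+* K₁'} (hα : IsFr α')
    (h : ∀ p, j (φ p) = tE F' α' (p.map γ))
    (hg : IntermediateField.adjoin K₁' (Set.range j) = ⊤) : CExt γ φ (tE F' α') j := by
  exact ⟨h, (algebraMap K₁' F').injective.comp hα.1, (gcx_clo hα _).2 hg⟩

theorem CExt.closure (h : CExt γ φ a' j) {θ : T} {χ : K[X][X]} {D : K[X]} (he : Etl φ θ χ D) :
    Subfield.closure (Set.range a' ∪ {j θ}) = ⊤ := by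
  refine eq_top_iff.2 (h.gen.ge.trans (Subfield.closure_le.2 ?_))
  have h1 : Subfield.closure (Set.range φ ∪ {θ}) ≤
      (Subfield.closure (Set.range a' ∪ {j θ})).comap j := by
    refine Subfield.closure_le.2 ?_
    rintro _ (⟨p, rfl⟩ | rfl)
    exacts [Subfield.subset_closure (Or.inl ⟨_, (h.cmp p).symm⟩),
      Subfield.subset_closure (Or.inr rfl)]
  rintro _ (⟨x, rfl⟩ | hx)
  exacts [h1 (he.closure.ge trivial), Subfield.subset_closure (Or.inl hx)]

theorem CExt.split (h : CExt γ φ a' j) {θ : T} {χ : K[X][X]} {D : K[X]} (he : Etl φ θ χ D)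
    (hs : (χ.map φ).Splits) [Algebra K₁' F'] {α' : K'[X] →+* K₁'} (hα : IsFr α')
    (e : tE F' α' = a') :
    Polynomial.IsSplittingField K₁' F' ((χ.map (Polynomial.mapRingHom γ)).map α') ∧
      (χ.map (Polynomial.mapRingHom γ)).eval₂ a' (j θ) = 0 ∧
      IntermediateField.adjoin K₁' {j θ} = ⊤ := by
  subst e
  have h1 : (χ.map (Polynomial.mapRingHom γ)).eval₂ (tE F' α') (j θ) = 0 := by
    rw [Polynomial.eval₂_map, ← gcx_cmp h, ← Polynomial.hom_eval₂, he.root, map_zero]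
  have h2 := (get0_clo hα).1 (h.closure he)
  refine ⟨isSplittingField_iff_intermediateField.2 ⟨?_, eq_top_iff.2 (h2.ge.trans
    (IntermediateField.adjoin.mono _ _ _ (Set.singleton_subset_iff.2 ?_)))⟩, h1, h2⟩
  · have h3 := hs.map j
    rw [Polynomial.map_map, gcx_cmp h] at h3
    rwa [Polynomial.map_map, Polynomial.map_map]
  · refine Polynomial.mem_rootSet.2 ⟨((he.monic.map _).map _).ne_zero, ?_⟩
    rwa [Polynomial.aeval_def, Polynomial.eval₂_map]

variable [Algebra K₁ T] [FiniteDimensional K₁ T] [IsGalois K₁ T] {α : K[X] →+* K₁}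

theorem Etl.splits (hα : IsFr α) {θ : T} {χ : K[X][X]} {D : K[X]} (he : Etl (tE T α) θ χ D) :
    (χ.map (tE T α)).Splits := by
  have h := Normal.splits (inferInstance : Normal K₁ T) θ
  rwa [(he.alg hα).2.2.2.2, Polynomial.map_map] at h

theorem gal_of_adjoin [Algebra K₁' F'] {ψ : K₁ →+* K₁'} (hj : Sq ψ j)
    (hg : IntermediateField.adjoin K₁' (Set.range j) = ⊤) :
    FiniteDimensional K₁' F' ∧ IsGalois K₁' F' ∧
      ∃ r : (F' ≃ₐ[K₁'] F') →* (T ≃ₐ[K₁] T), Rs j r ∧ Function.Injective r := by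
  obtain ⟨h1, h2, -⟩ := bc_in hj
  rw [hg] at h1 h2
  obtain ⟨r, hr⟩ := exists_rs hj
  exact ⟨IntermediateField.topEquiv.toLinearEquiv.finiteDimensional,
    .of_algEquiv IntermediateField.topEquiv, r, hr, hr.inj hg⟩

theorem CExt.gal (hα : IsFr α) (h : CExt γ (tE T α) a' j) [Algebra K₁' F'] {α' : K'[X] →+* K₁'}
    (hα' : IsFr α') (e : tE F' α' = a') : FiniteDimensional K₁' F' ∧ IsGalois K₁' F' ∧
      ∀ Θ, UnrOff K₁ (tE T α) Θ → UnrOff K₁' a' (Θ.map γ) := by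
  have hi := Polynomial.map_injective γ γ.injective
  obtain ⟨ψ, hψ⟩ := hα.exists_lift (β := α'.comp (Polynomial.mapRingHom γ)) (hα'.1.comp hi)
  have hg := h.adjoin hα' e
  subst e
  have hj : Sq ψ j := RingHom.congr_fun (hα.hom_ext (φ := j.comp (algebraMap K₁ T))
    (φ' := (algebraMap K₁' F').comp ψ) fun p => (h.cmp p).trans (congrArg _ (hψ p).symm))
  obtain ⟨h1, h2, r, hr, h3⟩ := gal_of_adjoin hj hg
  exact ⟨h1, h2, fun Θ hu => unrOff_bc hα (flat_poly (flat_field γ)) hi h.cmp hr h3 hu⟩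

theorem exists_cext_gal (hα : IsFr α) (γ : K →+* K') : ∃ (F' : Type) (_ : Field F')
    (a' : K'[X] →+* F') (j : T →+* F'), CExt γ (tE T α) a' j := by
  have hα' := isFr_alg K'[X] (Fr K'[X])
  obtain ⟨ψ, hψ⟩ := hα.exists_lift (β := (algebraMap _ _).comp (Polynomial.mapRingHom γ))
    (hα'.1.comp (Polynomial.map_injective γ γ.injective))
  obtain ⟨F', _, _, _, _, j, -, hj, -, -, hg⟩ := exists_bc T ψ
  exact ⟨F', _, _, j, cext_of_adjoin hα' (fun p => (hj _).trans (congrArg _ (hψ p))) hg⟩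

end Pool.Agent.ZFy.GM
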