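import Pool.Agent.Lib.MP_751085_ag.ZF.G.Desc

/-! Descent: the elements with expansions over a subfield. -/

namespace Pool.Agent.ZFy.GM

open Pool.Agent.ZCy
open scoped Classical WithZero Polynomial PowerSeries
open WithZero (exp)

variable {M₀ M K₀ F E₀ E : Type} [Field M₀] [Field M] [Field K₀] [Field F] [Field E₀] [Field E]
  [Algebra F E] {α : M[X] →+* F} {γ : M₀ →+* M} {ι : E →+* Ls M}

theorem ind_up [Algebra K₀ E₀] {α₀ : M₀[X] →+* K₀} (hα₀ : IsFr α₀) (hα : IsFr α)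
    (hι : ∀ p, ι (tE E α p) = tL M p) {i : E₀ →+* E} {ι₀ : E₀ →+* Ls M₀}
    (h1 : ∀ p, ι₀ (tE E₀ α₀ p) = tL M₀ p) (h2 : ∀ x, ι (i x) = lm γ (ι₀ x)) {n : Type} [Fintype n]
    {x : n → E₀} (hx : LinearIndependent K₀ x) : LinearIndependent F fun k => i (x k) := by
  let := α.toAlgebra
  have := hα.frac
  refine Fintype.linearIndependent_iff.2 fun g hg k => ?_
  obtain ⟨d, hd⟩ := IsLocalization.exist_integer_multiples_of_finite (nonZeroDivisors M[X]) g
  choose q hq using hd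
  have e : ∀ k, α (q k) = α d * g k := fun k => (hq k).trans (Algebra.smul_def _ _)
  have h0 := desc_ind γ (x := fun k => ι₀ (x k)) (fun p hp k => hα₀.1 <| by
    rw [map_zero]
    refine Fintype.linearIndependent_iff.1 hx (fun k => α₀ (p k)) (ι₀.injective ?_) k
    simpa only [map_sum, Algebra.smul_def, map_mul, map_zero, ← h1, RingHom.comp_apply] using hp) q
    (by
      have := congrArg (fun y => ι (tE E α d * y)) hg
      simpa only [Finset.mul_sum, map_sum, Algebra.smul_def, ← hι, ← h2, RingHom.comp_apply, e,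
        map_mul, mul_zero, map_zero, mul_assoc] using this) k
  have := e k
  rw [h0, map_zero] at this
  exact (mul_eq_zero.1 this.symm).resolve_left (hα.vfrc_ne (nonZeroDivisors.ne_zero d.2))

theorem fin_sep_of_ind [Algebra K₀ E₀] [FiniteDimensional F E] [Algebra.IsSeparable F E]
    {β : K₀ →+* F} {i : E₀ →+* E} (hi : Sq β i) (H : ∀ (n : Type) [Fintype n] (x : n → E₀),
      LinearIndependent K₀ x → LinearIndependent F fun k => i (x k)) :
    FiniteDimensional K₀ E₀ ∧ Algebra.IsSeparable K₀ E₀ := by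
  have hf : FiniteDimensional K₀ E₀ := Module.rank_lt_aleph0_iff.1 <|
    (rank_le (n := Module.finrank F E) fun s hs => by
      simpa using (H s _ hs).fintype_card_le_finrank).trans_lt Cardinal.natCast_lt_aleph0
  refine ⟨hf, ⟨fun z => ?_⟩⟩
  have h1 : IsIntegral K₀ z := Algebra.IsIntegral.isIntegral z
  have h2 : IsIntegral F (i z) := Algebra.IsIntegral.isIntegral _
  have h3 : Polynomial.aeval (i z) ((minpoly K₀ z).map β) = 0 := by
    rw [Polynomial.aeval_def, Polynomial.eval₂_map,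
      show (algebraMap F E).comp β = i.comp (algebraMap K₀ E₀) from RingHom.ext fun a => (hi a).symm,
      ← Polynomial.hom_eval₂, ← Polynomial.aeval_def, minpoly.aeval, map_zero]
  have h4 : (minpoly K₀ z).natDegree ≤ (minpoly F (i z)).natDegree := by
    by_contra hlt
    have k := Fintype.linearIndependent_iff.1 (H _ _ (linearIndependent_pow (K := K₀) z))
      (fun k => (minpoly F (i z)).coeff k) (by
        have := minpoly.aeval F (i z)
        rw [Polynomial.aeval_eq_sum_range' (not_le.1 hlt), Finset.sum_range] at this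
        simpa only [map_pow] using this) ⟨_, not_le.1 hlt⟩
    exact one_ne_zero ((minpoly.monic h2).symm.trans k)
  have h5 : (minpoly K₀ z).map β = minpoly F (i z) :=
    Polynomial.eq_of_monic_of_dvd_of_natDegree_le (minpoly.monic h2) ((minpoly.monic h1).map β)
      (minpoly.dvd F _ h3) (by rwa [Polynomial.natDegree_map])
  exact (Polynomial.separable_map β).1 (h5 ▸ Algebra.IsSeparable.isSeparable F (i z))

theorem lm_inj (γ : M₀ →+* M) : Function.Injective (lm γ) := (lm γ).injective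

/-- The field of the elements with expansions over `M₀`. -/
theorem dsc_model [FiniteDimensional F E] [Algebra.IsSeparable F E] (γ : M₀ →+* M) (hα : IsFr α)
    (hι : ∀ p, ι (tE E α p) = tL M p) : ∃ (E₀ : Type) (_ : Field E₀) (a₀ : M₀[X] →+* E₀) (θ : E₀)
      (χ : M₀[X][X]) (D : M₀[X]) (i : E₀ →+* E) (ι₀ : E₀ →+* Ls M₀), Etl a₀ θ χ D ∧
      (∀ p, i (a₀ p) = tE E α (p.map γ)) ∧ (∀ p, ι₀ (a₀ p) = tL M₀ p) ∧
      (∀ x, ι (i x) = lm γ (ι₀ x)) ∧ ∀ z, ι z ∈ (lm γ).range → z ∈ i.range := by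
  let E₀ := (lm γ).fieldRange.comap ι
  have ha : ∀ p : M₀[X], ι (tE E α (p.map γ)) = lm γ (tL M₀ p) := fun p => by rw [hι, kl_lm_tM]
  let a₀ : M₀[X] →+* E₀ := ((tE E α).comp (Polynomial.mapRingHom γ)).codRestrict E₀
    fun p => ⟨_, (ha p).symm⟩
  obtain ⟨ι₀, h2⟩ := exists_fac (lm γ) (ι.comp E₀.subtype) fun x => x.2
  have h1 : ∀ p, ι₀ (a₀ p) = tL M₀ p := fun p => lm_inj γ ((h2 _).trans (ha p))
  have hi : Function.Injective a₀ := fun p q e => kl_tM_inj Nat.one_pos (by rw [← h1, e, h1])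
  obtain ⟨_, e⟩ := exists_frac hi
  have h₀ := isFr_alg M₀[X] (Fr M₀[X])
  obtain ⟨β, hβ⟩ := h₀.exists_lift (β := α.comp (Polynomial.mapRingHom γ))
    (hα.1.comp (Polynomial.map_injective γ γ.injective))
  have hs : Sq β E₀.subtype := fun c => DFunLike.congr_fun (h₀.hom_ext
    (φ := E₀.subtype.comp (algebraMap _ E₀)) (φ' := (algebraMap F E).comp β) fun p => by
      rw [RingHom.comp_apply _ β, hβ]
      exact congrArg E₀.subtype (DFunLike.congr_fun e p)) c
  obtain ⟨_, _⟩ := fin_sep_of_ind hs fun n _ x hx =>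
    ind_up h₀ hα hι (by rwa [e]) (fun x => (h2 x).symm) hx
  obtain ⟨θ, χ, D, he⟩ := exists_etl (F := E₀) h₀
  exact ⟨E₀, _, a₀, θ, χ, D, E₀.subtype, ι₀, e ▸ he, fun _ => rfl, h1, fun x => (h2 x).symm,
    fun z hz => ⟨⟨z, hz⟩, rfl⟩⟩

theorem dsc_conj [IsAlgClosed M₀] (hι : ∀ p, ι (tE E α p) = tL M p) {a₀ : M₀[X] →+* E₀} {θ : E₀}
    {χ : M₀[X][X]} {D : M₀[X]} (h : Etl a₀ θ χ D) {i : E₀ →+* E}
    (hi : ∀ p, i (a₀ p) = tE E α (p.map γ)) (g : E ≃ₐ[F] E) : ι (g (i θ)) ∈ (lm γ).range := by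
  refine alg_ls γ (G := χ.map (tL M₀)) (h.monic.map _).ne_zero ?_
  have e : (lm γ).comp (tL M₀) = (ι.comp ((g : E →+* E).comp i)).comp a₀ := RingHom.ext fun p => by
    simp only [RingHom.comp_apply, hi, kl_lm_tM, ← hι, RingHom.coe_coe, AlgEquiv.commutes]
  rw [Polynomial.eval₂_map, e]
  exact (Polynomial.hom_eval₂ χ a₀ (ι.comp ((g : E →+* E).comp i)) θ).symm.trans
    (by rw [h.root, map_zero])

theorem dfd_of_top [IsAlgClosed M₀] [FiniteDimensional F E] (hι : ∀ p, ι (tE E α p) = tL M p)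
    {a₀ : M₀[X] →+* E₀} {θ : E₀} {χ : M₀[X][X]} {D : M₀[X]} (h : Etl a₀ θ χ D) {i : E₀ →+* E}
    (hi : ∀ p, i (a₀ p) = tE E α (p.map γ))
    (ht : IntermediateField.adjoin F (Set.range i) = ⊤) : Dfd F γ ι := by
  refine ⟨Finset.univ.image fun g : E ≃ₐ[F] E => g (i θ), fun g z hz => ?_, fun g hg => ?_,
    fun z hz => ?_⟩
  · obtain ⟨g', -, rfl⟩ := Finset.mem_image.1 hz
    exact Finset.mem_image.2 ⟨g * g', Finset.mem_univ _, rfl⟩
  · have e := h.hom_ext (j := (g : E →+* E).comp i) (j' := i) (fun p => by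
      simp only [RingHom.comp_apply, hi, RingHom.coe_coe, AlgEquiv.commutes])
      (hg _ (Finset.mem_image.2 ⟨1, Finset.mem_univ _, rfl⟩))
    exact eq_one_of_adjoin ht (by rintro _ ⟨x, rfl⟩; exact DFunLike.congr_fun e x)
  · obtain ⟨g', -, rfl⟩ := Finset.mem_image.1 hz
    exact dsc_conj hι h hi g'

end Pool.Agent.ZFy.GM
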