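import Pool.Agent.Lib.MP_751085_ag.ZF.G.Kind
import Pool.Agent.Lib.MP_751085_ag.ZF.G.Rev
import Pool.Agent.Lib.MP_751085_ag.ZF.G.Pld
import Pool.Agent.Lib.MP_751085_ag.ZF.Z.GDefs
import Pool.Agent.Lib.MP_751085_ag.ZC.V.Rsg

/-! Good models: Galois theory for extensions of a fixed cover. -/

namespace Pool.Agent.ZFy.GM

open Pool.Agent.ZCy
open scoped Classical WithZero Polynomial PowerSeries
open WithZero (exp)

variable {F E E' Ω : Type} [Field F] [Field E] [Field E'] [Field Ω] [Algebra F E] {l : ℕ}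

theorem lxt_iff (S : Set E) : LXt l F S ↔
    IsPGroup l (E ≃ₐ[IntermediateField.adjoin F S] E) := by
  have e : fixS F S = (IntermediateField.adjoin F S).fixingSubgroup := le_antisymm
    ((IntermediateField.le_iff_le _ _).1 (IntermediateField.adjoin_le_iff.2 fun x hx =>
      (IntermediateField.mem_fixedField_iff _ _).2 fun g hg => hg x hx))
    fun g hg x hx => (IntermediateField.mem_fixingSubgroup_iff _ _).1 hg x
      (IntermediateField.subset_adjoin F S hx)
  rw [LXt, e]
  exact ⟨fun h => h.of_equiv (IntermediateField.fixingSubgroupEquiv _),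
    fun h => h.of_equiv (IntermediateField.fixingSubgroupEquiv _).symm⟩

theorem LXt.pgroup {S : Set E} (h : LXt l F S) (M : IntermediateField F E) (hS : S ⊆ M) :
    IsPGroup l (E ≃ₐ[M] E) :=
  (IsPGroup.to_le h fun _ hg x hx =>
    (IntermediateField.mem_fixingSubgroup_iff _ _).1 hg x (hS hx)).of_equiv M.fixingSubgroupEquiv

theorem lxt_tower [Normal F E] [Algebra F E'] [Algebra E E'] [IsScalarTower F E E'] {S : Set E}
    (h : LXt l F S) (hG : IsPGroup l (E' ≃ₐ[E] E')) : LXt l F (algebraMap E E' '' S) := by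
  rintro ⟨g, hg⟩
  obtain ⟨k, hk⟩ := h ⟨AlgEquiv.restrictNormalHom E g, fun x hx => (algebraMap E E').injective
    ((g.restrictNormal_commutes E x).trans (hg _ ⟨x, hx, rfl⟩))⟩
  obtain ⟨j, hj⟩ := hG { (g ^ l ^ k).toRingEquiv with
    commutes' := fun x => by
      have h3 := (g ^ l ^ k).restrictNormal_commutes E x
      rw [show (g ^ l ^ k).restrictNormal E = 1 from
        (map_pow (AlgEquiv.restrictNormalHom E) g _).trans (congrArg Subtype.val hk)] at h3
      exact h3.symm }
  refine ⟨k + j, Subtype.ext (AlgEquiv.ext fun x => ?_)⟩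
  have h3 := AlgEquiv.congr_fun hj x
  rw [AlgEquiv.coe_pow] at h3
  rw [Subgroup.coe_pow, pow_add, pow_mul, AlgEquiv.coe_pow]
  exact h3

/-- if the order of `u` is divisible by `l` then a root has the value of an element of `E` -/
theorem root_val {j : E →+* E'} {w : Vl E'} {u : E} {r : E'} (hl : l ≠ 0) (hr : r ^ l = j u)
    (h : ∀ v : Vl E, Nrm v → Over j v w → (l : ℤ) ∣ ord v u) : ∃ y, w r = w (j y) := by
  suffices H : ∃ y, w (j (y ^ l)) = w (j u) by
    obtain ⟨y, hy⟩ := H
    rw [← hr, map_pow, map_pow, map_pow] at hy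
    exact ⟨y, ((pow_left_inj₀ zero_le zero_le hl).1 hy).symm⟩
  rcases eq_or_ne u 0 with rfl | h0
  · exact ⟨0, by rw [zero_pow hl]⟩
  by_cases h1 : w.comap j u = 1
  · exact ⟨1, by rw [one_pow, map_one, map_one]; exact h1.symm⟩
  obtain ⟨v, e, hv, he, hi⟩ := exists_nrm h0 h1
  have ho : Over j v w := hi.over he
  obtain ⟨n, hn⟩ := h v hv ho
  obtain ⟨y, hy⟩ := hv.surj (exp (-n))
  refine ⟨y, (ho.eq_iff _ _).2 ?_⟩
  rw [map_pow, hy, exp_neg_ord v h0, hn, ← WithZero.exp_nsmul, nsmul_eq_mul, mul_neg]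

variable [FiniteDimensional F E] [IsGalois F E]

/-- adjoin the roots inside `Ω`; this is a splitting field over `F` -/
theorem kum_ext (hp : l.Prime) {ζ : F} (hζ : IsPrimitiveRoot ζ l) (ι : E →+* Ω) {y : E}
    (hy : ∀ g : E ≃ₐ[F] E, ∃ s, ι (g y) = s ^ l) :
    ∃ (E' : Type) (_ : Field E') (_ : Algebra F E') (_ : Algebra E E') (_ : IsScalarTower F E E')
      (_ : FiniteDimensional F E') (_ : IsGalois F E') (ι' : E' →+* Ω) (r : (E ≃ₐ[F] E) → E'),
      (∀ x, ι' (algebraMap E E' x) = ι x) ∧ (∀ g, r g ^ l = algebraMap E E' (g y)) ∧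
      IsPGroup l (E' ≃ₐ[E] E') ∧ ∀ h : E' ≃ₐ[F] E',
        (∀ x, h (algebraMap E E' x) = algebraMap E E' x) → (∀ g, h (r g) = r g) → h = 1 := by
  let := ι.toAlgebra
  let := (ι.comp (algebraMap F E)).toAlgebra
  have : IsScalarTower F E Ω := .of_algebraMap_eq fun _ => rfl
  have : NeZero l := ⟨hp.ne_zero⟩
  choose s hs using hy
  obtain ⟨q, hq, _⟩ := IsGalois.is_separable_splitting_field F E
  have hi : IsIntegral F y := Algebra.IsIntegral.isIntegral y
  have hm := (minpoly.monic hi).expand hp.pos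
  have hz := hζ.map_of_injective (algebraMap F Ω).injective
  have h1 : ∀ a : E, ((minpoly F y).map (algebraMap F E)).IsRoot a ↔ ∃ g : E ≃ₐ[F] E, g y = a :=
    fun a => by
      rw [Polynomial.IsRoot, Polynomial.eval_map_algebraMap]
      refine ⟨minpoly.exists_algEquiv_of_root' hi.isAlgebraic, ?_⟩
      rintro ⟨g, rfl⟩
      rw [Polynomial.aeval_algHom_apply, minpoly.aeval, map_zero]
  have h2 := Normal.splits (inferInstance : Normal F E) y
  have h3 : ∀ z, z ∈ ((Polynomial.expand F l (minpoly F y)).map (algebraMap F E)).rootSet Ω ↔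
      ∃ g : E ≃ₐ[F] E, ι (g y) = z ^ l := fun z => by
    rw [(hm.map _).mem_rootSet, Polynomial.map_expand, Polynomial.expand_aeval,
      ← Polynomial.eval_map_algebraMap]
    refine ⟨fun h => ?_, ?_⟩
    · obtain ⟨a, ha⟩ := h2.mem_range_of_isRoot ((minpoly.monic hi).map _).ne_zero h
      obtain ⟨g, rfl⟩ := (h1 a).1 (Polynomial.IsRoot.of_map (f := algebraMap E Ω) (ha ▸ h)
        (algebraMap E Ω).injective)
      exact ⟨g, ha⟩
    · rintro ⟨g, hg⟩
      exact hg ▸ ((h1 _).2 ⟨g, rfl⟩).map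
  have h4 : (((Polynomial.expand F l (minpoly F y)).map (algebraMap F E)).map
      (algebraMap E Ω)).Splits := by
    rw [Polynomial.map_expand, h2.eq_prod_roots_of_monic ((minpoly.monic hi).map _),
      map_multiset_prod, Polynomial.map_multiset_prod, Multiset.map_map, Multiset.map_map]
    refine Polynomial.Splits.multisetProd fun f hf => ?_
    obtain ⟨a, ha, rfl⟩ := Multiset.mem_map.1 hf
    obtain ⟨g, rfl⟩ := (h1 a).1 (Polynomial.isRoot_of_mem_roots ha)
    simpa using X_pow_sub_C_splits_of_isPrimitiveRoot hz (a := algebraMap E Ω _) (hs g).symm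
  have h5 := IntermediateField.adjoin_rootSet_isSplittingField h4
  set S := ((Polynomial.expand F l (minpoly F y)).map (algebraMap F E)).rootSet Ω
  let E' := IntermediateField.adjoin E S
  have h6 : Polynomial.IsSplittingField F E' _ :=
    Polynomial.IsSplittingField.mul (K := E) E' q _ hq.ne_zero hm.ne_zero
  have : Normal F E' := Normal.of_isSplittingField (q * Polynomial.expand F l (minpoly F y))
  have : Algebra.IsSeparable E E' :=
    (IntermediateField.isSeparable_adjoin_iff_isSeparable E Ω).2 fun z hz => by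
      obtain ⟨g, hg⟩ := (h3 z).1 hz
      rcases eq_or_ne (g y) 0 with e | e
      · rw [e, map_zero, eq_comm, pow_eq_zero_iff hp.ne_zero] at hg
        rw [hg, ← map_zero (algebraMap E Ω)]
        exact isSeparable_algebraMap _
      · exact (Polynomial.separable_X_pow_sub_C _
          (hζ.map_of_injective (algebraMap F E).injective).neZero'.out e).of_dvd
          (minpoly.dvd E z (by
            rw [map_sub, map_pow, Polynomial.aeval_X, Polynomial.aeval_C, ← hg]
            exact sub_self _))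
  have : Algebra.IsSeparable F E' := Algebra.IsSeparable.trans F E E'
  let r : (E ≃ₐ[F] E) → E' := fun g =>
    ⟨s g, IntermediateField.subset_adjoin E S ((h3 _).2 ⟨g, hs g⟩)⟩
  have hr : ∀ g, r g ^ l = algebraMap E E' (g y) := fun g => Subtype.ext (hs g).symm
  have hz' := (hζ.map_of_injective (algebraMap F E).injective).map_of_injective
    (algebraMap E E').injective
  have h7 : ∀ h : E' →ₐ[E] E', (∀ g, h (r g) = r g) → h = AlgHom.id E E' := fun h H =>
    IntermediateField.adjoin_algHom_ext E fun z hz => by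
      obtain ⟨g, hg⟩ := (h3 z).1 hz
      obtain ⟨k, hk⟩ := root_eq_zeta hp hz' (x := ⟨z, IntermediateField.subset_adjoin E S hz⟩)
        (y := r g) (Subtype.ext (hg.symm.trans (hs g)))
      rw [hk, map_mul, map_pow, h.commutes, H]
      rfl
  refine ⟨E', inferInstance, inferInstance, inferInstance, inferInstance,
    Polynomial.IsSplittingField.finiteDimensional E' (q * Polynomial.expand F l (minpoly F y)), ⟨⟩, E'.val, r,
    fun _ => rfl, hr, fun h => ⟨1, AlgEquiv.coe_toAlgHom_injective (h7 _ fun g => ?_)⟩,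
    fun h h8 h9 => AlgEquiv.ext fun x =>
      AlgHom.congr_fun (h7 { (h : E' →+* E') with commutes' := h8 } h9) x⟩
  obtain ⟨k, hk⟩ := root_eq_zeta hp hz' (x := h (r g)) (y := r g) (by
    rw [← map_pow, hr, h.commutes])
  have h8 : ∀ n : ℕ, (h ^ n) (r g) = (algebraMap E E' (algebraMap F E ζ) ^ k) ^ n * r g := fun n => by
    induction n with
    | zero => rw [pow_zero, pow_zero, one_mul, AlgEquiv.one_apply]
    | succ n ih =>
      rw [pow_succ', AlgEquiv.mul_apply, ih, map_mul, map_pow, map_pow, h.commutes, hk, pow_succ,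
        mul_assoc]
  refine (h8 _).trans ?_
  rw [pow_one, ← pow_mul, mul_comm k, pow_mul, hz'.pow_eq_one, one_pow, one_mul]

/-- Galois theory of the residue field -/
theorem res_gen {w : Vl E} (_hd : Dec F w = ⊤) (hi : Ine F w = ⊥) {ρ : w.integer →+* Ω}
    (hρ : IsRed w ρ) (S : Subfield Ω)
    (h1 : ∀ (c : F) (y : w.integer), (y : E) = algebraMap F E c → ρ y ∈ S)
    (h2 : ∀ g : E ≃ₐ[F] E, (∀ x y : w.integer, (y : E) = g x → ρ x ∈ S → ρ y = ρ x) → g = 1)
    (x : w.integer) : ρ x ∈ S := by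
  have ho := Over.comap (algebraMap F E) w
  obtain ⟨κ, _, ρ₀, h₀, hs⟩ := exists_resf (w.comap (algebraMap F E))
  obtain ⟨κ', _, _, _, _, ρ', e, h, hs', hc, he⟩ := res_gal ho hi h₀ hs
  obtain ⟨i, hj⟩ := h.factor hs' hρ
  let M : IntermediateField κ κ' := (S.comap i).toIntermediateField fun a => by
    obtain ⟨b, rfl⟩ := hs a
    rw [Subfield.mem_comap, ← hc, hj]
    exact h1 b _ rfl
  have h3 : ρ' x ∈ M := by
    rw [← IsGalois.fixedField_fixingSubgroup M, IntermediateField.mem_fixedField_iff]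
    intro γ hγ
    obtain ⟨g, rfl⟩ := e.surjective γ
    obtain rfl : g = 1 := Subtype.ext (h2 g fun a b hb ha => by
      obtain rfl : b = (stab_int w).act g.2 a := Subtype.ext hb
      rw [← hj, ← hj, ← he, (IntermediateField.mem_fixingSubgroup_iff _ _).1 hγ (ρ' a)
        (show i (ρ' a) ∈ S from (hj a).symm ▸ ha)])
    rw [map_one, AlgEquiv.one_apply]
  exact hj x ▸ h3

end Pool.Agent.ZFy.GM
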