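import Pool.Agent.Lib.MP_751085_ag.ZF.G.Rg2
import Pool.Agent.Lib.MP_751085_ag.ZF.G.Ds1
import Pool.Agent.Lib.MP_751085_ag.ZF.G.Lxt
import Pool.Agent.Lib.MP_751085_ag.ZF.G.Cx

/-! Descent: the Kummer step. -/

namespace Pool.Agent.ZFy.GM

open Pool.Agent.ZCy
open scoped Classical WithZero Polynomial PowerSeries
open WithZero (exp)

variable {M₀ M F E₀ E₁ E : Type} [Field M₀] [IsAlgClosed M₀] [Field M] [Field F] [Field E₀]
  [Field E₁] [Field E] {γ : M₀ →+* M} {ι : E →+* Ls M} {ι₀ : E₀ →+* Ls M₀} {a₀ : M₀[X] →+* E₀}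
  {θ : E₀} {χ : M₀[X][X]} {D Θ : M₀[X]} {l : ℕ}

/-- An unramified root of an element of `E₁` lies in `E₁`. -/
theorem dsc_step (h : Etl a₀ θ χ D) {a₁ : M[X] →+* E₁} {i₁ : E₀ →+* E₁} (hc : CExt γ a₀ a₁ i₁)
    {j : E₁ →+* E} {θ' : E} {χ' : M[X][X]} {D' : M[X]} (hE : Etl (j.comp a₁) θ' χ' D')
    (hι : ∀ p, ι (j (a₁ p)) = tL M p) (h₀ : ∀ x, ι (j (i₁ x)) = lm γ (ι₀ x))
    (hm : ∀ z, ι z ∈ (lm γ).range → z ∈ (j.comp i₁).range) (hl : l.Prime) (h0 : (l : M₀) ≠ 0)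
    (hΘ : Θ ≠ 0) {u : E₁} (hu : TW l a₁ (Θ.map γ) u) {r : E} (hr : r ^ l = j u) :
    r ∈ j.range := by
  by_cases hr0 : r = 0
  · exact ⟨0, by simp [hr0]⟩
  let δ : M →+* AlgebraicClosure M := algebraMap _ _
  obtain ⟨E', _, a', i', e, hc', e1, e2⟩ := cext_in (a := a₁) δ (kl_tM_inj Nat.one_pos)
    (j := (lm δ).comp (ι.comp j)) fun p => by
      rw [RingHom.comp_apply, RingHom.comp_apply, hι, kl_lm_tM]
  obtain ⟨u₀, z, hz⟩ := rigid h (hc.comp hc') hl h0 hΘ (u := i' u)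
    (by rw [← Polynomial.map_map]; exact hu.cext hc'.cmp)
  have k1 : lm δ (ι r) ^ l = lm (δ.comp γ) (ι₀ u₀) * e z ^ l := by
    rw [← map_pow, ← map_pow, hr, ← kl_lm_lm, ← h₀]
    simpa only [map_mul, map_pow, e1, RingHom.comp_apply] using congrArg e hz
  have hz0 : e z ≠ 0 := fun h => hr0 <| by simpa [h, hl.ne_zero] using k1
  obtain ⟨y₀, hy⟩ := alg_ls (δ.comp γ) (y := lm δ (ι r) / e z)
    (Polynomial.X_pow_sub_C_ne_zero hl.pos (ι₀ u₀))
    (by simp only [Polynomial.eval₂_sub, Polynomial.eval₂_X_pow, Polynomial.eval₂_C, div_pow, k1,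
      mul_div_cancel_right₀ _ (pow_ne_zero l hz0), sub_self])
  have k2 : e z ∈ Subfield.closure (Set.range ((lm δ).comp (ι.comp j)) ∪
      Set.range (tL (AlgebraicClosure M))) := by
    have := (hc'.mem_range e (e z)).1 ⟨z, rfl⟩
    rwa [show e.comp i' = _ from RingHom.ext e1, show e.comp a' = _ from RingHom.ext e2] at this
  rw [← kl_lm_lm] at hy
  obtain ⟨r₀, hr₀⟩ := desc_mem δ hE hι (y := lm γ y₀) (by
    rw [hy]
    refine div_mem (Subfield.subset_closure (Or.inl ⟨r, rfl⟩)) (Subfield.closure_mono ?_ k2)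
    exact Set.union_subset_union_left _ (by rintro _ ⟨x, rfl⟩; exact ⟨j x, rfl⟩))
  obtain ⟨x, rfl⟩ := hm r₀ ⟨y₀, hr₀.symm⟩
  obtain ⟨x', hx'⟩ := desc_mem δ (hc.etl' h) (ι := ι.comp j) hι (y := ι r) (by
    rw [← div_mul_cancel₀ (lm δ (ι r)) hz0, ← hy, ← hr₀]
    exact mul_mem (Subfield.subset_closure (Or.inl ⟨i₁ x, rfl⟩)) k2)
  exact ⟨x', ι.injective hx'⟩

/-- The extension is generated by the elements with expansions over `M₀`. -/
theorem dsc_top [Algebra F E] [FiniteDimensional F E] [IsGalois F E] {α : M[X] →+* F}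
    (hα : IsFr α) (hι : ∀ p, ι (tE E α p) = tL M p) (h : Etl a₀ θ χ D) {i : E₀ →+* E}
    (hi : ∀ p, i (a₀ p) = tE E α (p.map γ)) (h₀ : ∀ x, ι (i x) = lm γ (ι₀ x))
    (hm : ∀ z, ι z ∈ (lm γ).range → z ∈ i.range) (hl : l.Prime) (h0 : (l : M₀) ≠ 0) (hΘ : Θ ≠ 0)
    (hu : UnrOff F (tE E α) (Θ.map γ)) (hx : LXt l F {z : E | ι z ∈ (lm γ).range}) :
    IntermediateField.adjoin F (Set.range i) = ⊤ := by
  by_contra hne
  set E₁ := IntermediateField.adjoin F (Set.range i)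
  have hs : ∀ x, i x ∈ E₁ := fun x => IntermediateField.subset_adjoin F _ ⟨x, rfl⟩
  let i₁ : E₀ →+* E₁ := i.codRestrict E₁ hs
  have hG := LXt.pgroup hx E₁ fun z hz => IntermediateField.subset_adjoin F _ (hm z hz)
  have : NeZero (l : M₀) := ⟨h0⟩
  obtain ⟨ζ, hζ⟩ := HasEnoughRootsOfUnity.exists_primitiveRoot M₀ l
  have h1 : 1 < Module.finrank E₁ E := by
    refine (Nat.one_lt_iff_ne_zero_and_ne_one.2 ⟨Module.finrank_pos.ne', fun e => hne ?_⟩)
    exact IntermediateField.finrank_eq_one_iff_eq_top.1 e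
  obtain ⟨r, u, hr, hn⟩ := exists_kum hl hG
    (hζ.map_of_injective (i₁.comp (a₀.comp Polynomial.C)).injective) h1
  have hc : CExt γ a₀ (tE E₁ α) i₁ := cext_of_adjoin hα (fun p => Subtype.ext (hi p)) <| by
    apply IntermediateField.lift_injective
    rw [IntermediateField.lift_adjoin, IntermediateField.lift_top, ← Set.range_comp]
    rfl
  obtain ⟨θ', χ', D', hE⟩ := exists_etl (F := E) hα
  refine hn (dsc_step (j := algebraMap E₁ E) h hc hE hι h₀ hm hl h0 hΘ (fun v _ hv => ?_) hr)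
  exact dvd_ord_of_ine' (E := F) (fun w hw => unU_of_unrOff (E := F) hα hu w
    (Unm.comap.1 (hv.congr (w' := w.comap (algebraMap E₁ E)) hw))) hr

end Pool.Agent.ZFy.GM
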