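import Pool.Agent.Lib.MP_751085_ag.ZF.G.Fg
import Pool.Agent.Lib.MP_751085_ag.ZF.G.Cs2
import Pool.Agent.Lib.MP_751085_ag.ZF.G.Ds2
import Pool.Agent.Lib.MP_751085_ag.ZF.K.GDefs

/-! Closed fields of constants: the exported statements. -/

namespace Pool.Agent.ZFy

open Pool.Agent.ZCy GM
open scoped Classical WithZero Polynomial

theorem gexpr_tw {M F : Type} [Field M] [Field F] {ψ : M[X] →+* F} {l : ℕ} {u : F}
    (h : TyW l (ψ.comp Polynomial.C) u) : TW l ψ 1 u :=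
  fun v hv hu => h v ⟨hv, hu.1⟩

theorem rgd : RGD := by
  intro M₀ M F₀ F _ _ _ _ _ _ γ ψ₀ ψ j θ χ l hl h0 hm h1 h2 hj _ hs u hu
  obtain ⟨D, he⟩ := etl_of_ffd h1 hm hs
  have e : (χ.map (Polynomial.mapRingHom γ)).map ψ = (χ.map ψ₀).map j := by
    rw [Polynomial.map_map, Polynomial.map_map]
    congr 1
    exact RingHom.ext fun p => (hj p).symm
  obtain ⟨D', he'⟩ := etl_of_ffd h2 (hm.map _) (e ▸ hs.map)
  have hc : CExt γ ψ₀ ψ j := ⟨hj, he'.inj, top_unique <| he'.closure.ge.trans <|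
    Subfield.closure_mono <| Set.union_subset Set.subset_union_right <| by
      rintro _ rfl; exact Or.inl ⟨θ, rfl⟩⟩
  by_cases hz : u = 0
  · exact ⟨1, 0, fun v _ => by simp [ord], by simp [hz, hl.ne_zero]⟩
  obtain ⟨u₀, z, e⟩ := rigid he hc hl h0 one_ne_zero (u := u)
    (by rw [Polynomial.map_one]; exact gexpr_tw hu)
  exact ⟨u₀, z, fun v hv => all_desc_cl hc he e hz (fun w h1 h2 => hu w ⟨h1, h2⟩) hv.1 hv.2, e⟩

theorem finW : FIN := by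
  intro M F _ _ _ ψ θ χ l hl h0 hm h1 _ hs
  obtain ⟨D, he⟩ := etl_of_ffd h1 hm hs
  obtain ⟨S, hS⟩ := fin_tw he one_ne_zero hl h0
  exact ⟨S, fun u hu => hS u (gexpr_tw hu)⟩

theorem fnt : FNT := by
  intro M F T _ _ _ _ _ _ _ _ _ ι Th l hl h0 hm _
  obtain ⟨θ, χ, D, he⟩ := exists_etl (F := T) (isFr_alg M[X] F)
  obtain ⟨S, hS⟩ := fin_tw he hm.ne_zero hl h0
  exact ⟨S, fun u _ hu => hS u fun v hv h => hu v hv h.1 (h.2.2 ▸ lt_irrefl _)⟩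

theorem dsc : DSC := by
  intro M₀ M F E _ _ _ _ _ _ _ _ _ _ γ ι Th l hl h0 hm hι hu hx
  obtain ⟨E₀, _, a₀, θ, χ, D, i, ι₀, he, hi, -, h₀, hr⟩ := dsc_model γ (isFr_alg M[X] F) hι
  exact dfd_of_top hι he hi
    (dsc_top (isFr_alg M[X] F) hι he hi h₀ hr hl h0 hm.ne_zero hu hx)

end Pool.Agent.ZFy
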