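import Pool.Agent.Lib.MP_751085_ag.ZF.G.Defs
import Pool.Agent.Lib.MP_751085_ag.ZC.V.IntB
import Pool.Agent.Lib.MP_751085_ag.ZC.V.Gal

/-! Good models: simple extensions. -/

namespace Pool.Agent.ZFy.GM

open Pool.Agent.ZCy
open scoped Classical WithZero Polynomial PowerSeries
open WithZero (exp)

variable {A K F L : Type} [CommRing A] [Field K] [Field F] [Field L] {a : A →+* F} {θ : F}
  {χ : A[X]} {D : A}

theorem get0_den [IsDomain A] {A' : Type} [CommRing A'] {ι : A →+* A'}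
    (hs : ∀ y : A', ∃ s p : A, s ≠ 0 ∧ y * ι s = ι p) (G : A'[X]) :
    ∃ (s : A) (G' : A[X]), s ≠ 0 ∧ G'.map ι = Polynomial.C (ι s) * G := by
  induction G using Polynomial.induction_on' with
  | add p q hp hq =>
    obtain ⟨s, p', h1, e1⟩ := hp
    obtain ⟨t, q', h2, e2⟩ := hq
    refine ⟨s * t, Polynomial.C t * p' + Polynomial.C s * q', mul_ne_zero h1 h2, ?_⟩
    simp only [Polynomial.map_add, Polynomial.map_mul, Polynomial.map_C, e1, e2, map_mul]
    ring
  | monomial n c =>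
    obtain ⟨s, p, h, e⟩ := hs c
    exact ⟨s, Polynomial.monomial n p, h, by
      rw [Polynomial.map_monomial, Polynomial.C_mul_monomial, mul_comm, e]⟩

theorem get0_fr {α : A →+* K} (hα : IsFr α) (y : K) : ∃ s p : A, s ≠ 0 ∧ y * α s = α p := by
  obtain ⟨p, s, h, e⟩ := hα.2 y
  exact ⟨s, p, h, e⟩

theorem get0_clo [Algebra K F] {α : A →+* K} (hα : IsFr α) :
    Subfield.closure (Set.range (tE F α) ∪ {θ}) = ⊤ ↔ IntermediateField.adjoin K {θ} = ⊤ := by
  have e : Subfield.closure (Set.range (tE F α) ∪ {θ}) =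
      (IntermediateField.adjoin K {θ}).toSubfield := by
    refine le_antisymm (Subfield.closure_mono (Set.union_subset_union_left _ ?_))
      (Subfield.closure_le.2 (Set.union_subset ?_ fun x hx => Subfield.subset_closure (Or.inr hx)))
    · rintro _ ⟨p, rfl⟩
      exact ⟨α p, rfl⟩
    · rintro _ ⟨y, rfl⟩
      obtain ⟨p, s, h, e⟩ := hα.2 y
      rw [eq_div_of_mul_eq (hα.vfrc_ne h) e, map_div₀]
      exact div_mem (Subfield.subset_closure (Or.inl ⟨p, rfl⟩))
        (Subfield.subset_closure (Or.inl ⟨s, rfl⟩))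
  rw [e, ← IntermediateField.top_toSubfield (F := K), IntermediateField.toSubfield_inj]

theorem Etl.root (h : Etl a θ χ D) : χ.eval₂ a θ = 0 := (h.ker χ).2 dvd_rfl

theorem exists_frac [IsDomain A] (ha : Function.Injective a) :
    ∃ _ : Algebra (Fr A) F, tE F (algebraMap A (Fr A)) = a :=
  ⟨(IsFractionRing.lift ha).toAlgebra, RingHom.ext (IsFractionRing.lift_algebraMap ha)⟩

theorem Etl.prime (h : Etl a θ χ D) : Prime χ := by
  have := a.domain_nontrivial
  refine ⟨h.monic.ne_zero, fun hu => ?_, fun G H hG => ?_⟩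
  · simpa using (h.ker 1).2 hu.dvd
  · rwa [← h.ker, Polynomial.eval₂_mul, mul_eq_zero, h.ker, h.ker] at hG

theorem Etl.pos (h : Etl a θ χ D) : 0 < χ.natDegree := by
  have := a.domain_nontrivial
  exact h.monic.natDegree_pos_of_not_isUnit h.prime.not_isUnit

/-- passage to a localisation -/
theorem Etl.loc {A' : Type} [CommRing A'] {ι : A →+* A'} {a' : A' →+* F}
    (h : Etl (a'.comp ι) θ χ D) (hi : Function.Injective a')
    (hs : ∀ y : A', ∃ s p : A, s ≠ 0 ∧ y * ι s = ι p) : Etl a' θ (χ.map ι) (ι D) := by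
  have := h.inj.isDomain
  have := hi.isDomain
  have hι : ∀ s, s ≠ 0 → ι s ≠ 0 := fun s h0 =>
    (map_ne_zero_iff ι (Function.Injective.of_comp (f := a') h.inj)).2 h0
  refine ⟨hi, h.monic.map ι, fun G => ⟨fun hG => ?_, ?_⟩, ?_, hι D h.ne, fun x => ?_⟩
  · obtain ⟨s, G', h1, e⟩ := get0_den hs G
    have h2 := Polynomial.map_dvd ι ((h.ker G').1 (by
      rw [← Polynomial.eval₂_map, e, Polynomial.eval₂_mul, hG, mul_zero]))
    rwa [e, ← Polynomial.modByMonic_eq_zero_iff_dvd (h.monic.map ι), ← Polynomial.smul_eq_C_mul,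
      Polynomial.smul_modByMonic, smul_eq_zero_iff_right (hι s h1),
      Polynomial.modByMonic_eq_zero_iff_dvd (h.monic.map ι)] at h2
  · rintro ⟨G', rfl⟩
    rw [Polynomial.eval₂_mul, Polynomial.eval₂_map, h.root, zero_mul]
  · obtain ⟨p, q, e⟩ := h.bez
    exact ⟨p.map ι, q.map ι, by
      rw [Polynomial.derivative_map, ← Polynomial.map_mul, ← Polynomial.map_mul,
        ← Polynomial.map_add, ← e, Polynomial.map_C]⟩
  · obtain ⟨G, d, h1, e⟩ := h.gen x
    exact ⟨G.map ι, ι d, hι d h1, by rw [Polynomial.eval₂_map, ← e]; rfl⟩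

theorem Etl.closure (h : Etl a θ χ D) : Subfield.closure (Set.range a ∪ {θ}) = ⊤ := by
  refine eq_top_iff.2 fun x _ => ?_
  obtain ⟨G, d, h1, e⟩ := h.gen x
  rw [eq_div_of_mul_eq ((map_ne_zero_iff a h.inj).2 h1) e, Polynomial.eval₂_eq_sum_range]
  have h2 : θ ∈ Subfield.closure (Set.range a ∪ {θ}) := Subfield.subset_closure (Or.inr rfl)
  exact div_mem (sum_mem fun i _ => mul_mem (Subfield.subset_closure (Or.inl ⟨_, rfl⟩))
    (pow_mem h2 _)) (Subfield.subset_closure (Or.inl ⟨d, rfl⟩))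

theorem Etl.alg [Algebra K F] {α : A →+* K} (hα : IsFr α) (h : Etl (tE F α) θ χ D) :
    FiniteDimensional K F ∧ Algebra.IsSeparable K F ∧ Module.finrank K F = χ.natDegree ∧
      IntermediateField.adjoin K {θ} = ⊤ ∧ minpoly K θ = χ.map α := by
  have h' := h.loc (algebraMap K F).injective (get0_fr hα)
  have h1 : minpoly K θ = χ.map α :=
    (minpoly.eq_of_irreducible_of_monic h'.prime.irreducible h'.root h'.monic).symm
  have h2 : IsIntegral K θ := ⟨_, h'.monic, h'.root⟩
  have h3 := (get0_clo hα).1 h.closure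
  have h4 := IntermediateField.adjoin.finiteDimensional h2
  have h5 := IntermediateField.adjoin.finrank h2
  have h6 : IsSeparable K θ := by
    obtain ⟨p, q, e⟩ := h'.bez
    rw [IsSeparable, h1]
    refine (Polynomial.separable_def' _).2 ⟨Polynomial.C (α D)⁻¹ * p, Polynomial.C (α D)⁻¹ * q, ?_⟩
    rw [mul_assoc, mul_assoc, ← mul_add, ← e, ← map_mul, inv_mul_cancel₀ h'.ne, map_one]
  have h7 := (IntermediateField.isSeparable_adjoin_simple_iff_isSeparable K F).2 h6
  rw [h3] at h4 h5 h7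
  exact ⟨IntermediateField.topEquiv.toLinearEquiv.finiteDimensional,
    (IntermediateField.isSeparable_top K F).1 h7,
    by rw [← IntermediateField.finrank_top', h5, h1, h.monic.natDegree_map], h3, h1⟩

theorem Etl.coord [Algebra K F] {α : A →+* K} (hα : IsFr α) (h : Etl (tE F α) θ χ D) (x : F) :
    ∃ G : K[X], G.degree < χ.natDegree ∧ x = Polynomial.aeval θ G := by
  have h' := h.loc (algebraMap K F).injective (get0_fr hα)
  obtain ⟨G, d, h1, e⟩ := h'.gen x
  refine ⟨(Polynomial.C d⁻¹ * G) %ₘ χ.map α, ?_, ?_⟩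
  · rw [← h.monic.natDegree_map α, ← Polynomial.degree_eq_natDegree h'.monic.ne_zero]
    exact Polynomial.degree_modByMonic_lt _ h'.monic
  · rw [Polynomial.aeval_modByMonic_eq_self_of_root h'.root, map_mul, Polynomial.aeval_C,
      Polynomial.aeval_def, ← e, mul_comm, mul_assoc, ← map_mul, mul_inv_cancel₀ h1, map_one,
      mul_one]

theorem Etl.coord_zero [Algebra K F] {α : A →+* K} (hα : IsFr α) (h : Etl (tE F α) θ χ D)
    {G : K[X]} (hG : G.degree < χ.natDegree) (h0 : Polynomial.aeval θ G = 0) : G = 0 := by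
  have h' := h.loc (algebraMap K F).injective (get0_fr hα)
  refine Polynomial.eq_zero_of_dvd_of_degree_lt ((h'.ker G).1 h0) ?_
  rwa [Polynomial.degree_eq_natDegree h'.monic.ne_zero, h.monic.natDegree_map α]

theorem Etl.lift (h : Etl a θ χ D) {b : A →+* L} (hb : Function.Injective b) {z : L}
    (hz : χ.eval₂ b z = 0) : ∃ j : F →+* L, (∀ p, j (a p) = b p) ∧ j θ = z := by
  have := h.inj.isDomain
  obtain ⟨_, rfl⟩ := exists_frac h.inj
  have hα := isFr_alg A (Fr A)
  have h' := h.loc (algebraMap (Fr A) F).injective (get0_fr hα)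
  obtain ⟨φ, hφ⟩ := hα.exists_lift hb
  have hs : Function.Surjective (Polynomial.eval₂RingHom (algebraMap (Fr A) F) θ) := fun x => by
    obtain ⟨G, -, e⟩ := h.coord hα x
    exact ⟨G, e.symm⟩
  have hk : RingHom.ker (Polynomial.eval₂RingHom (algebraMap (Fr A) F) θ) ≤
      RingHom.ker (Polynomial.eval₂RingHom φ z) := fun G hG => by
    obtain ⟨G', rfl⟩ := (h'.ker G).1 hG
    rw [RingHom.mem_ker, Polynomial.coe_eval₂RingHom, Polynomial.eval₂_mul, Polynomial.eval₂_map,
      show φ.comp _ = b from RingHom.ext hφ, hz, zero_mul]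
  have e := RingHom.liftOfSurjective_comp_apply _ hs ⟨_, hk⟩
  refine ⟨RingHom.liftOfSurjective _ hs ⟨_, hk⟩, fun p => ?_, ?_⟩
  · simpa only [Polynomial.coe_eval₂RingHom, Polynomial.eval₂_C, hφ, RingHom.comp_apply] using
      e (Polynomial.C (algebraMap A (Fr A) p))
  · simpa only [Polynomial.coe_eval₂RingHom, Polynomial.eval₂_X] using e Polynomial.X

theorem Etl.hom_ext (h : Etl a θ χ D) {j j' : F →+* L} (h1 : ∀ p, j (a p) = j' (a p))
    (h2 : j θ = j' θ) : j = j' := by
  refine RingHom.eq_of_eqOn_of_field_closure_eq_top h.closure ?_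
  rintro _ (⟨p, rfl⟩ | rfl)
  exacts [h1 p, h2]

theorem Etl.comp {F' : Type} [Field F'] (h : Etl a θ χ D) {e : F →+* F'}
    (he : Function.Surjective e) : Etl (e.comp a) (e θ) χ D := by
  refine ⟨e.injective.comp h.inj, h.monic, fun G => ?_, h.bez, h.ne, fun x => ?_⟩
  · rw [← Polynomial.hom_eval₂, map_eq_zero, h.ker]
  · obtain ⟨x, rfl⟩ := he x
    obtain ⟨G, d, h1, e1⟩ := h.gen x
    exact ⟨G, d, h1, by rw [← Polynomial.hom_eval₂, ← e1, map_mul]; rfl⟩

theorem etl_of_root [IsDomain A] [UniqueFactorizationMonoid A] (hi : Function.Injective a)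
    {χ₀ p q : A[X]} (hm : χ₀.Monic) (h0 : χ₀.eval₂ a θ = 0)
    (hb : Polynomial.C D = p * χ₀ + q * χ₀.derivative) (hD : D ≠ 0)
    (hg : Subfield.closure (Set.range a ∪ {θ}) = ⊤) : ∃ χ, χ ∣ χ₀ ∧ Etl a θ χ D := by
  let := a.toAlgebra
  have : FaithfulSMul A F := (faithfulSMul_iff_algebraMap_injective A F).2 hi
  have h1 : IsIntegral A θ := ⟨χ₀, hm, h0⟩
  obtain ⟨χ₂, e⟩ := minpoly.isIntegrallyClosed_dvd h1 (p := χ₀) h0
  refine ⟨_, ⟨χ₂, e⟩, hi, minpoly.monic h1, minpoly.isIntegrallyClosed_dvd_iff h1,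
    ⟨p * χ₂ + q * χ₂.derivative, q * χ₂, ?_⟩, hD, fun x => ?_⟩
  · rw [hb]
    conv_lhs => rw [e, Polynomial.derivative_mul]
    ring
  · obtain ⟨_, rfl⟩ := exists_frac hi
    have hα := isFr_alg A (Fr A)
    have h2 : IsIntegral (Fr A) θ := ⟨χ₀.map _, hm.map _, by rwa [Polynomial.eval₂_map]⟩
    have h3 : x ∈ (IntermediateField.adjoin (Fr A) {θ}).toSubalgebra :=
      (get0_clo hα).1 hg ▸ IntermediateField.mem_top
    rw [IntermediateField.adjoin_simple_toSubalgebra_of_isAlgebraic h2.isAlgebraic,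
      Algebra.adjoin_singleton_eq_range_aeval] at h3
    obtain ⟨G, rfl⟩ := h3
    obtain ⟨s, G', h4, e1⟩ := get0_den (get0_fr hα) G
    exact ⟨G', s, h4, by
      rw [← Polynomial.eval₂_map, e1, Polynomial.eval₂_mul, Polynomial.eval₂_C, mul_comm]; rfl⟩

theorem etl_of_irr [IsDomain A] [UniqueFactorizationMonoid A] (hi : Function.Injective a)
    {p q : A[X]} (hm : χ.Monic) (hirr : Irreducible χ) (h0 : χ.eval₂ a θ = 0)
    (hb : Polynomial.C D = p * χ + q * χ.derivative) (hD : D ≠ 0)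
    (hg : Subfield.closure (Set.range a ∪ {θ}) = ⊤) : Etl a θ χ D := by
  obtain ⟨χ', h1, h⟩ := etl_of_root hi hm h0 hb hD hg
  rwa [Polynomial.eq_of_monic_of_associated h.monic hm
    (h.prime.irreducible.associated_of_dvd hirr h1)] at h

theorem exists_etl [IsDomain A] [UniqueFactorizationMonoid A] [Algebra K F] [FiniteDimensional K F]
    [Algebra.IsSeparable K F] {α : A →+* K} (hα : IsFr α) :
    ∃ θ χ D, Etl (tE F α) θ χ D := by
  let := α.toAlgebra
  let := (tE F α).toAlgebra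
  have := hα.frac
  have : IsScalarTower A K F := IsScalarTower.of_algebraMap_eq fun _ => rfl
  obtain ⟨θ, hθ⟩ := Field.exists_primitive_element K F
  obtain ⟨d, hd, h1⟩ := ((IsFractionRing.isAlgebraic_iff A K F).2
    (Algebra.IsAlgebraic.isAlgebraic θ)).exists_integral_multiple
  have h2 : IntermediateField.adjoin K {d • θ} = ⊤ := by
    rw [eq_top_iff, ← hθ, IntermediateField.adjoin_simple_le_iff]
    have h3 := IntermediateField.smul_mem _ (x := (α d)⁻¹)
      (IntermediateField.mem_adjoin_simple_self K (d • θ))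
    rwa [show (α d)⁻¹ • d • θ = θ from (congrArg _ (algebraMap_smul K d θ).symm).trans
      (inv_smul_smul₀ (hα.vfrc_ne hd) θ)] at h3
  obtain ⟨u, v, e⟩ := (Polynomial.separable_def' _).1 (Algebra.IsSeparable.isSeparable K (d • θ))
  obtain ⟨s, u', hs, e1⟩ := get0_den (get0_fr hα) u
  obtain ⟨t, v', ht, e2⟩ := get0_den (get0_fr hα) v
  have h4 : Polynomial.C (s * t) = Polynomial.C t * u' * minpoly A (d • θ) +
      Polynomial.C s * v' * (minpoly A (d • θ)).derivative := Polynomial.map_injective α hα.1 (by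
    rw [show minpoly K (d • θ) = (minpoly A (d • θ)).map α from
      minpoly.isIntegrallyClosed_eq_field_fractions' K h1, Polynomial.derivative_map] at e
    simp only [Polynomial.map_add, Polynomial.map_mul, Polynomial.map_C, e1, e2, map_mul]
    linear_combination (-Polynomial.C (α s) * Polynomial.C (α t)) * e)
  obtain ⟨χ, -, h⟩ := etl_of_root (a := tE F α) (θ := d • θ)
    ((algebraMap K F).injective.comp hα.1) (minpoly.monic h1) (minpoly.aeval A (d • θ)) h4
    (mul_ne_zero hs ht) ((get0_clo hα).2 h2)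
  exact ⟨_, χ, _, h⟩

theorem Etl.of_loc {A' : Type} [CommRing A'] {ι : A →+* A'} {a' : A' →+* F} {D' : A'}
    (h : Etl a' θ (χ.map ι) D') (hi : Function.Injective ι)
    (hs : ∀ y : A', ∃ s p : A, s ≠ 0 ∧ y * ι s = ι p) (hm : χ.Monic) {p q : A[X]}
    (hb : Polynomial.C D = p * χ + q * χ.derivative) (hD : D ≠ 0) : Etl (a'.comp ι) θ χ D := by
  have := h.inj.isDomain
  have := hi.isDomain
  refine ⟨h.inj.comp hi, hm, fun G => ?_, ⟨p, q, hb⟩, hD, fun x => ?_⟩
  · rw [← Polynomial.eval₂_map, h.ker, Polynomial.map_dvd_map ι hi hm]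
  · obtain ⟨G, d, h1, e⟩ := h.gen x
    obtain ⟨s, r, h2, e1⟩ := hs d
    obtain ⟨t, G', h3, e2⟩ := get0_den hs G
    refine ⟨Polynomial.C s * G', r * t, mul_ne_zero (fun h4 => mul_ne_zero h1
      ((map_ne_zero_iff ι hi).2 h2) (by rw [e1, h4, map_zero])) h3, ?_⟩
    rw [← Polynomial.eval₂_map, Polynomial.map_mul, e2, Polynomial.map_C, Polynomial.eval₂_mul,
      Polynomial.eval₂_mul, Polynomial.eval₂_C, Polynomial.eval₂_C, ← e, RingHom.comp_apply,
      map_mul, ← e1, map_mul, map_mul]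
    ring

end Pool.Agent.ZFy.GM
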