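import Pool.Agent.Lib.MP_751085_ag.ZF.G.Defs

/-! Good models: the coefficients of an algebraic power series. -/

namespace Pool.Agent.ZFy.GM

open Pool.Agent.ZCy
open scoped Classical WithZero Polynomial PowerSeries
open WithZero (exp)

variable {κ : Type} [Field κ]

theorem geis_chain (z : κ⟦X⟧) (H : κ[X][X]) : ∃ H' : κ[X][X],
    (∀ i, H'.coeff i = (H.coeff i).derivative) ∧
      PowerSeries.derivative κ (H.eval₂ Polynomial.coeToPowerSeries.ringHom z) =
        H'.eval₂ Polynomial.coeToPowerSeries.ringHom z +
          H.derivative.eval₂ Polynomial.coeToPowerSeries.ringHom z * PowerSeries.derivative κ z := by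
  induction H using Polynomial.induction_on' with
  | add p q hp hq =>
    obtain ⟨p', a1, a2⟩ := hp
    obtain ⟨q', b1, b2⟩ := hq
    refine ⟨p' + q', fun i => by simp [a1, b1], ?_⟩
    simp only [Polynomial.eval₂_add, map_add, a2, b2]
    ring
  | monomial n a =>
    refine ⟨Polynomial.monomial n a.derivative, fun i => ?_, ?_⟩
    · simp only [Polynomial.coeff_monomial]
      split_ifs <;> simp
    · simp only [Polynomial.derivative_monomial, Polynomial.eval₂_monomial, Derivation.leibniz,
        Derivation.leibniz_pow, Polynomial.coeToPowerSeries.ringHom_apply,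
        PowerSeries.derivative_coe, smul_eq_mul, nsmul_eq_mul, map_mul, map_natCast]
      ring

theorem geis_root {R : Type} [CommRing R] [NoZeroDivisors R] (p : ℕ) [ExpChar R p] {f : R[X]}
    (hf : f.derivative = 0) (h : ∀ i, ∃ r, r ^ p = f.coeff i) : ∃ g : R[X], g ^ p = f := by
  obtain ⟨g, hg⟩ := (Polynomial.mem_lifts (f := frobenius R p) (f.contract p)).1
    ((Polynomial.lifts_iff_coeff_lifts _).2 fun n => by
      rw [Polynomial.coeff_contract (expChar_ne_zero R p)]
      exact h _)
  exact ⟨g, by rw [← Polynomial.map_frobenius_expand, Polynomial.map_expand, hg,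
    Polynomial.expand_contract' p hf]⟩

theorem geis_coeff {R : Type} [CommRing R] (p : ℕ) [ExpChar R p] (f : R[X]) (j : ℕ) :
    (f ^ p).coeff (j * p) = f.coeff j ^ p := by
  rw [← Polynomial.map_frobenius_expand, Polynomial.coeff_map,
    Polynomial.coeff_expand_mul (expChar_pos R p), frobenius_def]

/-- a relation of least total degree has a nonzero derivative at `z` -/
theorem eis_sep [PerfectField κ] {z : κ⟦X⟧} {H : κ[X][X]} (h0 : H ≠ 0)
    (h : H.eval₂ Polynomial.coeToPowerSeries.ringHom z = 0) : ∃ H' : κ[X][X],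
      H'.eval₂ Polynomial.coeToPowerSeries.ringHom z = 0 ∧
      H'.derivative.eval₂ Polynomial.coeToPowerSeries.ringHom z ≠ 0 := by
  by_contra hc
  push Not at hc
  have hk : ∀ G : κ[X][X], G.natDegree = 0 → (G.coeff 0).natDegree = 0 →
      G.eval₂ Polynomial.coeToPowerSeries.ringHom z = 0 → G = 0 := by
    intro G a1 _ a3
    rw [Polynomial.eq_C_of_natDegree_eq_zero a1, Polynomial.eval₂_C,
      Polynomial.coeToPowerSeries.ringHom_apply, Polynomial.coe_eq_zero_iff] at a3
    rw [Polynomial.eq_C_of_natDegree_eq_zero a1, a3, map_zero]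
  have key : ∀ (n : ℕ) (G : κ[X][X]), (∀ i j, (G.coeff i).coeff j ≠ 0 → i + j < n) →
      G.eval₂ Polynomial.coeToPowerSeries.ringHom z = 0 → G = 0 := by
    intro n
    induction n with
    | zero =>
      intro G a1 _
      ext i j
      by_contra a2
      exact absurd (a1 i j a2) (Nat.not_lt_zero _)
    | succ n ih =>
      intro G a1 a2
      have dz : G.derivative = 0 := ih _ (fun i j e => by
        have e1 : (G.coeff (i + 1)).coeff j ≠ 0 := fun e2 => e (by
          rw [Polynomial.coeff_derivative, ← Nat.cast_succ, Polynomial.coeff_mul_natCast, e2,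
            zero_mul])
        have := a1 _ _ e1
        omega) (hc G a2)
      obtain ⟨G', b1, b2⟩ := geis_chain z G
      rw [a2, dz, map_zero, Polynomial.eval₂_zero, zero_mul, add_zero] at b2
      have dx : G' = 0 := ih _ (fun i j e => by
        have e1 : (G.coeff i).coeff (j + 1) ≠ 0 := fun e2 => e (by
          rw [b1, Polynomial.coeff_derivative, e2, zero_mul])
        have := a1 _ _ e1
        omega) b2.symm
      have dx' : ∀ i, (G.coeff i).derivative = 0 := fun i => by rw [← b1, dx, Polynomial.coeff_zero]
      obtain ⟨p, hp⟩ := ExpChar.exists κ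
      rcases hp with _ | hp
      · exact hk G (Polynomial.derivative_eq_zero.1 dz)
          (Polynomial.derivative_eq_zero.1 (dx' 0)) a2
      · have : ExpChar κ p := ExpChar.prime hp
        have : ExpChar κ[X] p := ExpChar.prime hp
        obtain ⟨g, hg⟩ := geis_root p dz fun i =>
          geis_root p (dx' i) fun j => (frobeniusEquiv κ p).surjective _
        rcases Nat.eq_zero_or_pos n with rfl | hn
        · refine hk G ?_ ?_ a2
          · refine Nat.le_zero.1 (Polynomial.natDegree_le_iff_coeff_eq_zero.2 fun i hi => ?_)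
            ext j
            by_contra e
            have := a1 i j e
            omega
          · refine Nat.le_zero.1 (Polynomial.natDegree_le_iff_coeff_eq_zero.2 fun j hj => ?_)
            by_contra e
            have := a1 0 j e
            omega
        · have g0 : g = 0 := ih g (fun i j e => by
            have e1 : (G.coeff (i * p)).coeff (j * p) ≠ 0 := by
              rw [← hg, geis_coeff, geis_coeff]
              exact pow_ne_zero _ e
            have e2 := a1 _ _ e1
            have e3 : (i + j) * 2 ≤ (i + j) * p := Nat.mul_le_mul_left _ hp.two_le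
            rw [← add_mul] at e2
            omega) (by
              rw [← hg, Polynomial.eval₂_pow] at a2
              exact pow_eq_zero_iff hp.ne_zero |>.1 a2)
          rw [← hg, g0, zero_pow hp.ne_zero]
  refine h0 (key (H.natDegree + H.support.sup (fun i => (H.coeff i).natDegree) + 1) H
    (fun i j e => ?_) h)
  have e1 : H.coeff i ≠ 0 := fun e2 => e (by rw [e2, Polynomial.coeff_zero])
  have e2 := Polynomial.le_natDegree_of_ne_zero e1
  have e3 := Polynomial.le_natDegree_of_ne_zero e
  have e4 : (H.coeff i).natDegree ≤ H.support.sup (fun i => (H.coeff i).natDegree) :=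
    Finset.le_sup (f := fun i => (H.coeff i).natDegree) (Polynomial.mem_support_iff.2 e1)
  omega

theorem geis_mem (B : Subring κ) (x : κ⟦X⟧) :
    x ∈ (PowerSeries.map B.subtype).range ↔ ∀ n, PowerSeries.coeff n x ∈ B := by
  constructor
  · rintro ⟨y, rfl⟩ n
    rw [PowerSeries.coeff_map]
    exact (PowerSeries.coeff n y).2
  · intro h
    exact ⟨PowerSeries.mk fun n => ⟨_, h n⟩, by ext n; simp⟩

/-- Taylor expansion at the truncation and strong induction -/
theorem eis [PerfectField κ] {z : κ⟦X⟧} {H : κ[X][X]} (h0 : H ≠ 0)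
    (h : H.eval₂ Polynomial.coeToPowerSeries.ringHom z = 0) :
    ∃ S : Finset κ, ∀ B : Subring κ, (∀ x ∈ S, x ∈ B) → ∀ n, PowerSeries.coeff n z ∈ B := by
  obtain ⟨G, h1, h2⟩ := eis_sep h0 h
  set D := G.derivative.eval₂ Polynomial.coeToPowerSeries.ringHom z with hD
  have hex : ∃ k, PowerSeries.coeff k D ≠ 0 := by
    by_contra hc
    push Not at hc
    exact h2 (PowerSeries.ext fun n => by rw [hc, map_zero])
  set k := Nat.find hex
  have hd : PowerSeries.coeff k D ≠ 0 := Nat.find_spec hex
  obtain ⟨D1, hD1⟩ : (PowerSeries.X : κ⟦X⟧) ^ k ∣ D :=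
    PowerSeries.X_pow_dvd_iff.2 fun m hm => not_not.1 (Nat.find_min hex hm)
  refine ⟨insert (PowerSeries.coeff k D)⁻¹ (G.coeffs.biUnion Polynomial.coeffs ∪
    (Finset.range (k + 1)).image fun n => PowerSeries.coeff n z), fun B hB n => ?_⟩
  have hG : ∀ i j, (G.coeff i).coeff j ∈ B := by
    intro i j
    by_cases e : (G.coeff i).coeff j = 0
    · rw [e]; exact B.zero_mem
    · exact hB _ (Finset.mem_insert_of_mem (Finset.mem_union_left _ (Finset.mem_biUnion.2
        ⟨_, Polynomial.coeff_mem_coeffs fun e2 => e (by rw [e2, Polynomial.coeff_zero]),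
          Polynomial.coeff_mem_coeffs e⟩)))
  induction n using Nat.strong_induction_on with
  | _ n ih =>
    by_cases hn : n < k + 1
    · exact hB _ (Finset.mem_insert_of_mem (Finset.mem_union_right _
        (Finset.mem_image_of_mem _ (Finset.mem_range.2 hn))))
    set z0 : κ⟦X⟧ := ((PowerSeries.trunc n z : κ[X]) : κ⟦X⟧) with hz0
    have c0 : ∀ m, PowerSeries.coeff m z0 = if m < n then PowerSeries.coeff m z else 0 := fun m => by
      rw [hz0, Polynomial.coeff_coe, PowerSeries.coeff_trunc]
    have m0 : z0 ∈ (PowerSeries.map B.subtype).range := (geis_mem B _).2 fun m => by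
      rw [c0]
      split_ifs with e
      exacts [ih m e, B.zero_mem]
    have m1 : G.eval₂ Polynomial.coeToPowerSeries.ringHom z0 ∈ (PowerSeries.map B.subtype).range := by
      rw [Polynomial.eval₂_eq_sum_range]
      refine Subring.sum_mem _ fun i _ => Subring.mul_mem _ ((geis_mem B _).2 fun j => ?_)
        (Subring.pow_mem _ m0 _)
      rw [Polynomial.coeToPowerSeries.ringHom_apply, Polynomial.coeff_coe]
      exact hG i j
    obtain ⟨y, hy⟩ : (PowerSeries.X : κ⟦X⟧) ^ n ∣ z0 - z :=
      PowerSeries.X_pow_dvd_iff.2 fun m hm => by rw [map_sub, c0, if_pos hm, sub_self]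
    have y0 : PowerSeries.coeff 0 y = -PowerSeries.coeff n z := by
      have e := PowerSeries.coeff_X_pow_mul y n 0
      rw [← hy, zero_add, map_sub, c0, if_neg (lt_irrefl n), zero_sub] at e
      exact e.symm
    have d0 : PowerSeries.coeff 0 D1 = PowerSeries.coeff k D := by
      have e := PowerSeries.coeff_X_pow_mul D1 k 0
      rw [← hD1, zero_add] at e
      exact e.symm
    obtain ⟨w, hw⟩ := (G.map Polynomial.coeToPowerSeries.ringHom).binomExpansion z (z0 - z)
    rw [add_sub_cancel, Polynomial.derivative_map, Polynomial.eval_map, Polynomial.eval_map,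
      Polynomial.eval_map, h1, zero_add, ← hD, hy] at hw
    obtain ⟨r, rfl⟩ : ∃ r, n = k + 1 + r := Nat.exists_eq_add_of_le (not_lt.1 hn)
    have e1 : G.eval₂ Polynomial.coeToPowerSeries.ringHom z0 = PowerSeries.X ^ (k + (k + 1 + r)) *
        (D1 * y + PowerSeries.X * (PowerSeries.X ^ r * w * y ^ 2)) := by
      rw [hw]
      conv_lhs => rw [hD1]
      ring
    have e2 := (geis_mem B _).1 m1 (0 + (k + (k + 1 + r)))
    rw [e1, PowerSeries.coeff_X_pow_mul, map_add, PowerSeries.coeff_zero_X_mul, add_zero,
      PowerSeries.coeff_zero_eq_constantCoeff_apply, map_mul,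
      ← PowerSeries.coeff_zero_eq_constantCoeff_apply,
      ← PowerSeries.coeff_zero_eq_constantCoeff_apply, y0, d0] at e2
    have e3 := B.neg_mem (B.mul_mem (hB _ (Finset.mem_insert_self _ _)) e2)
    rwa [inv_mul_cancel_left₀ hd, neg_neg] at e3

/-- finitely many algebraic elements have a common denominator -/
theorem exists_denom {A K : Type} [CommRing A] [Field K] [Algebra A K] [IsFractionRing A K]
    [Algebra K κ] [Algebra.IsAlgebraic K κ] (S : Finset κ) : ∃ Δ : A, Δ ≠ 0 ∧
      ∀ x ∈ S, (toF A K κ).IsIntegralElem (toF A K κ Δ * x) := by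
  have : IsDomain A := (IsFractionRing.injective A K).isDomain _
  let _ : Algebra A κ := (toF A K κ).toAlgebra
  have : IsScalarTower A K κ := IsScalarTower.of_algebraMap_eq fun _ => rfl
  have : Algebra.IsAlgebraic A κ := (IsFractionRing.comap_isAlgebraic_iff (K := K)).2 inferInstance
  obtain ⟨Δ, h1, h2⟩ := Algebra.IsAlgebraic.exists_integral_multiples A S
  exact ⟨Δ, h1, fun x hx => h2 x hx⟩

end Pool.Agent.ZFy.GM
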