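import Pool.Agent.Lib.MP_751085_ag.ZF.G.Spb
import Pool.Agent.Lib.MP_751085_ag.ZF.G.Cx

/-! Good models: a Galois cover has good reduction almost everywhere. -/

namespace Pool.Agent.ZFy.GM

open Pool.Agent.ZCy
open scoped Classical WithZero Polynomial PowerSeries
open WithZero (exp)
open IsLocalRing

variable {K K₁ T : Type} [Field K] [Field K₁] [Field T] [Algebra K₁ T] [FiniteDimensional K₁ T]
  [IsGalois K₁ T] {α₁ : K[X] →+* K₁} {Th : K[X]}

theorem gspc_map {B KK M : Type} [CommRing B] [CommRing KK] [CommRing M]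
    {ι : B →+* M} {i : K →+* M} {δ : B →+* KK} {γ : K →+* KK}
    (h : ∀ x y, ι y = i x → γ x = δ y) {P : B[X]} {Q : K[X]} (e : P.map ι = Q.map i) :
    P.map δ = Q.map γ := Polynomial.ext fun n => by
  rw [Polynomial.coeff_map, Polynomial.coeff_map]
  refine (h _ _ ?_).symm
  rw [← Polynomial.coeff_map, e, Polynomial.coeff_map]

theorem gspc_map2 {B R KK M : Type} [CommRing B] [CommRing R] [CommRing KK] [CommRing M]
    {ι : B →+* M} {i : K →+* M} {β : B →+* R} {α : R →+* KK} {γ : K →+* KK}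
    (h : ∀ x y, ι y = i x → γ x = α (β y)) {P : B[X][X]} {Q : K[X][X]}
    (e : P.map (Polynomial.mapRingHom ι) = Q.map (Polynomial.mapRingHom i)) :
    (P.map (Polynomial.mapRingHom β)).map (Polynomial.mapRingHom α) =
      Q.map (Polynomial.mapRingHom γ) := Polynomial.ext fun n => by
  simp only [Polynomial.coeff_map, Polynomial.coe_mapRingHom]
  rw [Polynomial.map_map]
  refine gspc_map (δ := α.comp β) h ?_
  simpa only [Polynomial.coeff_map, Polynomial.coe_mapRingHom] using
    congrArg (fun G => G.coeff n) e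

/-- `exists_etl`, `Etl.rvs`, `Etl.splits` over `K`; `exists_cext_gal`, `CExt.gal`, `CExt.split`
over `M`; `spb_exists`. For given `R`: the polynomials over `B` map under `α ∘ β` to the images
under `γ` (coefficientwise by the compatibility); `exists_frac`, `CExt.split` for `F'` (also with
`CExt.rvs`, `rvs_map`), `IsFr.poly`, `SpB.map`, `gde_of_spb`. -/
theorem spread0 (h₁ : IsFr α₁) {M : Type} [Field M] [IsAlgClosed M] (i : K →+* M) (hm : Th.Monic) :
    ∃ (θ : T) (S : Finset M), (∀ x, (Th.map i).IsRoot x → x ∈ S) ∧ ∀ B : Subring M,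
      (∀ x ∈ S, x ∈ B) → ∀ (R KK F' : Type) [CommRing R] [IsDomain R] [CDVR R]
        [IsAlgClosed (ResidueField R)] [Field KK] [Field F'] (β : B →+* R) (α : R →+* KK)
        (γ : K →+* KK) (a' : KK[X] →+* F') (j : T →+* F') (Θ : R[X]), Function.Injective β →
        IsFr α → (∀ (x : K) (y : B), (y : M) = i x → γ x = α (β y)) → CExt γ (tE T α₁) a' j →
        Θ.map α = Th.map γ → GdE (a'.comp (Polynomial.mapRingHom α)) Θ (j θ) := by
  obtain ⟨θ, χ, D, he⟩ := exists_etl (F := T) h₁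
  obtain ⟨b, k, χ', -, he'⟩ := he.rvs
  have hs := he.splits h₁
  have er : rvs (tE T α₁) = tE T (rvs α₁) := rvs_comp _
  have hs' : (χ'.map (rvs (tE T α₁))).Splits := by
    rw [er] at he' ⊢
    exact he'.splits (isFr_rvs h₁)
  obtain ⟨FM, _, aM, jM, hM⟩ := exists_cext_gal (T := T) h₁ i
  obtain ⟨_, eM⟩ := exists_frac hM.inj
  have hfr := isFr_alg M[X] (Fr M[X])
  obtain ⟨_, _, -⟩ := hM.gal h₁ hfr eM
  have eM' : tE FM (rvs (algebraMap M[X] (Fr M[X]))) = rvs aM := by
    rw [← eM]
    exact (rvs_comp _).symm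
  obtain ⟨s1, s2, s3⟩ := hM.split he hs hfr eM
  obtain ⟨t1, t2, t3⟩ := hM.rvs.split he' hs' (isFr_rvs hfr) eM'
  obtain ⟨p, q, hb⟩ := he.bez
  obtain ⟨S, hS, H⟩ := spb_exists (F := FM) hfr (he.monic.map (Polynomial.mapRingHom i))
    (he'.monic.map (Polynomial.mapRingHom i)) (p := p.map (Polynomial.mapRingHom i))
    (q := q.map (Polynomial.mapRingHom i)) (D := D.map i) (Θ := Th.map i) (by
      simpa [Polynomial.derivative_map] using congrArg (Polynomial.map (Polynomial.mapRingHom i)) hb)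
    (Polynomial.map_ne_zero he.ne) (hm.map i)
    (by rw [← Polynomial.map_map]; exact s1.splits') (by rw [← Polynomial.map_map]; exact t1.splits')
    (eM ▸ s2) (eM' ▸ t2) s3 t3
  refine ⟨θ, S, hS, fun B hB R KK F' _ _ _ _ _ _ β α γ a' j Θ hβ hα hc h hΘ => ?_⟩
  obtain ⟨χ₀, χ₀', D₀, Θ₀, e1, e2, -, e4, hsp⟩ := H B hB
  obtain ⟨_, eF⟩ := exists_frac h.inj
  have hk := isFr_alg KK[X] (Fr KK[X])
  have eF' : tE F' (rvs (algebraMap KK[X] (Fr KK[X]))) = rvs a' := by
    rw [← eF]
    exact (rvs_comp _).symm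
  obtain ⟨u1, u2, u3⟩ := h.split he hs hk eF
  obtain ⟨v1, -, -⟩ := h.rvs.split he' hs' (isFr_rvs hk) eF'
  rw [← gspc_map2 (ι := B.subtype) hc e1] at u1 u2
  rw [← gspc_map2 (ι := B.subtype) hc e2] at v1
  rw [Polynomial.map_map (Polynomial.mapRingHom α)] at u1 v1
  rw [← rvs_map] at v1
  rw [Polynomial.eval₂_map (Polynomial.mapRingHom α)] at u2
  have eΘ : Θ = Θ₀.map β := Polynomial.map_injective α hα.1 (by
    rw [hΘ, Polynomial.map_map]
    exact (gspc_map (ι := B.subtype) (δ := α.comp β) hc e4).symm)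
  have hΘm : Θ.Monic := Polynomial.monic_of_injective hα.1 (hΘ ▸ hm.map γ)
  subst eF
  subst eΘ
  exact gde_of_spb (hα.poly hk) (hsp.map hβ) hΘm u2 u3

/-- `K''` is generated by `S` in the algebraic closure; `B` is the image of the preimage of the
valuation ring (`IsVR.exists_equiv`). -/
theorem spread (h₁ : IsFr α₁) (hm : Th.Monic) :
    ∃ (θ : T) (K'' : Type) (_ : Field K'') (_ : Algebra K K'') (_ : FiniteDimensional K K'')
      (S : Finset K''), (Th.map (algebraMap K K'')).Splits ∧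
      ∀ (R KK F' : Type) [CommRing R] [IsDomain R] [CDVR R] [IsAlgClosed (ResidueField R)]
        [Field KK] [Field F'] (α : R →+* KK) (v : Vl KK) (ψ : K'' →+* KK) (a' : KK[X] →+* F')
        (j : T →+* F') (Θ : R[X]), IsVR α v → (∀ x ∈ S, v (ψ x) ≤ 1) →
        CExt (ψ.comp (algebraMap K K'')) (tE T α₁) a' j →
        Θ.map α = Th.map (ψ.comp (algebraMap K K'')) →
        GdE (a'.comp (Polynomial.mapRingHom α)) Θ (j θ) := by
  obtain ⟨θ, S, hS, H⟩ := spread0 (T := T) h₁ (algebraMap K (AlgebraicClosure K)) hm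
  let K'' := IntermediateField.adjoin K (S : Set (AlgebraicClosure K))
  have hK : ∀ x ∈ S, x ∈ K'' := fun x hx => IntermediateField.subset_adjoin K _ hx
  refine ⟨θ, K'', inferInstance, inferInstance, IntermediateField.finiteDimensional_adjoin
    fun x _ => Algebra.IsIntegral.isIntegral x, S.subtype (· ∈ K''),
    IntermediateField.splits_of_splits (IsAlgClosed.splits _) fun x hx => hK x (hS x ?_),
    fun R KK F' _ _ _ _ _ _ α v ψ a' j Θ hv hψ h hΘ => ?_⟩
  · rw [Polynomial.IsRoot, Polynomial.eval_map_algebraMap]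
    exact Polynomial.aeval_eq_zero_of_mem_rootSet hx
  obtain ⟨e, he⟩ := hv.exists_equiv
  let ι : K'' →+* AlgebraicClosure K := algebraMap _ _
  let f := (v.integer.comap ψ).equivMapOfInjective ι ι.injective
  let g : v.integer.comap ψ →+* v.integer := ψ.restrict _ _ fun _ hx => hx
  have hg : Function.Injective g := fun x y hxy =>
    Subtype.ext (ψ.injective (congrArg Subtype.val hxy))
  refine H ((v.integer.comap ψ).map ι) (fun x hx => ⟨⟨x, hK x hx⟩,
    hψ _ (Finset.mem_subtype.2 hx), rfl⟩) R KK F'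
    ((e.symm : v.integer →+* R).comp (g.comp (f.symm : _ →+* v.integer.comap ψ))) α _ a' j Θ
    (e.symm.injective.comp (hg.comp f.symm.injective))
    hv.isFr (fun x y hy => ?_) h hΘ
  obtain ⟨z, rfl⟩ := f.surjective y
  have hz : (z : K'') = algebraMap K K'' x := ι.injective hy
  rw [← he]
  simp only [RingHom.comp_apply, RingHom.coe_coe, RingEquiv.symm_apply_apply,
    RingEquiv.apply_symm_apply, ← hz]
  rfl

/-- the constant model: `spread0` with `i = id`, `B = ⊤` -/
theorem good_const [IsAlgClosed K] (h₁ : IsFr α₁) (hm : Th.Monic) {R KK F' : Type} [CommRing R]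
    [IsDomain R] [CDVR R] [IsAlgClosed (ResidueField R)] [Field KK] [Field F'] (σ : K →+* R)
    {α : R →+* KK} (hα : IsFr α) {a' : KK[X] →+* F'} {j : T →+* F'}
    (h : CExt (α.comp σ) (tE T α₁) a' j) :
    Good (a'.comp (Polynomial.mapRingHom α)) (Th.map σ) := by
  obtain ⟨θ, S, -, H⟩ := spread0 (T := T) h₁ (RingHom.id K) hm
  exact (H ⊤ (fun _ _ => trivial) R KK F' (σ.comp (⊤ : Subring K).subtype) α _ a' j _
    (σ.injective.comp Subtype.val_injective) hα
    (fun x y hy => congrArg (fun t => α (σ t)) hy.symm) h (Polynomial.map_map _ _ _)).good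

end Pool.Agent.ZFy.GM
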