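import Pool.Agent.Lib.MP_751085_ag.ZF.G.GdS
import Pool.Agent.Lib.MP_751085_ag.ZF.G.Spc
import Pool.Agent.Lib.MP_751085_ag.ZF.G.Eis

/-! Good models: good reduction of a fixed cover, rigidity. -/

namespace Pool.Agent.ZFy

open Pool.Agent.ZCy Pool.Agent.ZFy.GM
open scoped Classical WithZero Polynomial PowerSeries
open WithZero (exp)
open IsLocalRing

theorem gd_of {A T R KK κ : Type} [CommRing A] [Field T] [CommRing R] [IsDomain R] [CDVR R]
    [Field KK] [Field κ] [IsAlgClosed κ] {φ : A[X] →+* T} {Th : A[X]} {η : A →+* R} {α : R →+* KK}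
    {v : Vl KK} {ρ : R →+* κ} {θ : T} {l : ℕ} (h : GdH φ Th η α θ) (hv : IsVR α v)
    (hρ : Function.Surjective ρ) (hp : l.Prime) (hl : (l : κ) ≠ 0) : Gd l φ Th η α v ρ := by
  refine ⟨fun F N _ _ _ _ _ _ _ c => gd_ta h hv hρ hp hl c,
    fun F N _ _ _ _ _ _ _ c t ht S _ β hβ => gd_le h hv hρ hp hl c ht hβ, ?_⟩
  intro F F₀ E₀ _ _ _ _ _ _ _ _ _ _ τ ι₀ hτ h0 hu hc hS
  generalize hn : Module.finrank F₀ E₀ = n
  replace hn := hn.ge
  induction n with
  | zero =>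
    obtain ⟨E, _, _, _, _, c, h1, h2⟩ :=
      cov_base (F := F) h hv hρ hp hl hτ ι₀.fieldRange (fun p => ⟨_, h0 p⟩) hc
    exact ⟨E, _, _, ‹_›, ‹_›, c, h1, h2, Nat.zero_le _⟩
  | succ n ih =>
    obtain ⟨E, _, _, _, _, c, h1, h2, h3⟩ := ih (n.le_succ.trans hn)
    rcases h3.eq_or_lt with h3 | h3
    · obtain ⟨E', _, _, _, _, c', h4, h5, h6⟩ :=
        cov_step h hv hρ hp hl c h0 hu (by simpa only [h1] using hS) h2 (h3 ▸ hn)
      exact ⟨E', _, _, ‹_›, ‹_›, c', fun x => (h4 x).trans (h1 x), h5, h3 ▸ h6⟩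
    · exact ⟨E, _, _, ‹_›, ‹_›, c, h1, h2, h3⟩

theorem spr : SPR := by
  intro A K F T _ _ _ _ _ _ _ _ _ _ _ Th hm hu _
  obtain ⟨θ, K'', _, _, _, S, hs, H⟩ :=
    spread (T := T) (isFr_alg K[X] F) (hm.map (algebraMap A K))
  obtain ⟨Δ, h0, hΔ⟩ := exists_denom (A := A) (K := K) S
  refine ⟨K'', _, _, ‹_›, Δ, h0, by rwa [Polynomial.map_map] at hs, ?_⟩
  intro R KK κ _ _ _ _ _ _ η α v ρ ψ hv hρ hψ hη l hp hl
  have := (res_of_surj hρ).2.1 inferInstance
  have e : ψ.comp (toF A K K'') = α.comp η := RingHom.ext hψ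
  have e' : (Th.map (algebraMap A K)).map (ψ.comp (algebraMap K K'')) = Th.map (α.comp η) := by
    rw [Polynomial.map_map, ← e]
    rfl
  refine gd_of (θ := θ) (fun F' F'' _ _ _ _ _ j hj hg => ?_) hv hρ hp hl
  have hc : CExt (ψ.comp (algebraMap K K'')) (toF K[X] F T) (toF KK[X] F' F'') j := by
    refine cext_of_adjoin (isFr_alg _ _) (RingHom.congr_fun (f := j.comp (toF K[X] F T))
      (g := (toF KK[X] F' F'').comp (Polynomial.mapRingHom _)) (Polynomial.ringHom_ext'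
        ((isFr_alg A K).hom_ext fun a => ?_) (by simpa using hj Polynomial.X))) hg
    simpa [← e] using hj (Polynomial.C a)
  obtain ⟨h1, h2, h3⟩ := hc.gal (isFr_alg _ _) (isFr_alg KK[X] F') rfl
  refine ⟨h1, h2, e' ▸ h3 _ hu, H R KK F'' α v ψ _ j _ hv (fun x hx => ?_) hc
    (by rw [e', Polynomial.map_map])⟩
  have h4 := le_one_of_int (v := v) (fun a => (congrArg v (hψ a)).trans_le (hv.le_one _))
    ((hΔ x hx).map ψ)
  rwa [map_mul, map_mul, hψ, (hv.eq_one _).2 hη, one_mul] at h4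

theorem rig1 : RIG1 := by
  intro R KK κ F N _ _ _ _ _ _ _ _ _ _ _ _ _ α ρ ι S Ψ l hα hρ hp hl hι hS hΨ hu hx x
  have := (res_of_surj hρ).2.1 inferInstance
  obtain ⟨lam, hlam⟩ := exists_lam hα
  have h1 : ∀ y, algebraMap F N y ∈ lam.fieldRange.comap ι := fun y => by
    obtain ⟨a, b, hb, e⟩ := (isFr_alg KK[X] F).2 y
    rw [eq_div_of_mul_eq ((isFr_alg KK[X] F).vfrc_ne hb) e, map_div₀]
    exact div_mem (show ι _ ∈ lam.range from hι a ▸ tL_mem hα hlam a)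
      (show ι _ ∈ lam.range from hι b ▸ tL_mem hα hlam b)
  refine (mem_lam hlam _).1 (rigc (E := IntermediateField.adjoin F S) (Θ := Ψ.reverse) hα hlam hp
    (isUnit_of_res hρ hl) ((lxt_iff S).1 hS) (fun p => ?_) (tL_rvs hι)
    (Ψ.coeff_zero_reverse ▸ hΨ) (UnU.rvs fun w hw =>
      unU_of_unrOff (isFr_alg KK[X] F) hu w ((unm_fr hα).1 hw)) (fun y => ?_) x)
  · exact ⟨algebraMap F _ (rvs ((algebraMap KK[X] F).comp (Polynomial.mapRingHom α)) p),
      (RingHom.congr_fun (rvs_comp (algebraMap F N)) p).symm⟩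
  · exact IntermediateField.adjoin_le_iff.2 (show S ≤ (lam.fieldRange.comap ι).toIntermediateField
      h1 from fun z hz => (mem_lam hlam _).2 (hx z hz)) y.2

end Pool.Agent.ZFy
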