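import Pool.Agent.Lib.MP_751085_ag.ZF.G.Cs3

/-! Bounded representatives: linear algebra and degrees. -/

namespace Pool.Agent.ZFy.GM

open Pool.Agent.ZCy
open scoped Classical WithZero Polynomial PowerSeries
open WithZero (exp)

variable {K F : Type} [Field K] [Field F] {a : K[X] →+* F} {θ : F} {χ : K[X][X]} {D : K[X]}

/-- more unknowns than equations -/
theorem pig {δ k : ℕ} (T : Finset (K × K⟦X⟧)) (r : K × K⟦X⟧ → ℕ)
    (h : ∑ z ∈ T, r z < δ * (k + 1)) : ∃ p : K[X][X], p ≠ 0 ∧ p.degree < δ ∧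
      (∀ i, (p.coeff i).natDegree ≤ k) ∧
      ∀ z ∈ T, PowerSeries.X ^ r z ∣ p.eval₂ (sh z.1) z.2 := by
  obtain ⟨g, hg, ⟨i, j⟩, hij⟩ := (Fintype.not_linearIndependent_iff (R := K)
    (v := fun (n : Fin δ × Fin (k + 1)) (s : Σ z : T, Fin (r z)) => PowerSeries.coeff s.2
      (sh s.1.1.1 Polynomial.X ^ (n.2 : ℕ) * s.1.1.2 ^ (n.1 : ℕ)))).1 fun H =>
    h.not_ge (by simpa [Finset.sum_attach] using H.fintype_card_le_finrank)
  refine ⟨Polynomial.ofFn δ fun i => Polynomial.ofFn (k + 1) fun j => g (i, j), fun e => hij ?_,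
    Polynomial.ofFn_degree_lt _, fun n => ?_, fun z hz => PowerSeries.X_pow_dvd_iff.2 fun n hn => ?_⟩
  · simpa [Polynomial.ofFn_coeff_eq_val_of_lt _ j.2] using
      congrArg (fun p : K[X][X] => (p.coeff i).coeff j) e
  · rcases lt_or_ge n δ with hn | hn
    · rw [Polynomial.ofFn_coeff_eq_val_of_lt _ hn]
      exact Nat.lt_succ_iff.1 (Polynomial.ofFn_natDegree_lt k.succ_pos _)
    · simp [Polynomial.ofFn_coeff_eq_zero_of_ge _ hn]
  · have e := congrFun hg ⟨⟨z, hz⟩, n, hn⟩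
    simp only [Polynomial.ofFn_eq_sum_monomial, Polynomial.eval₂_finsetSum,
      Polynomial.eval₂_monomial]
    simpa [Finset.sum_mul, ← Polynomial.C_mul_X_pow_eq_monomial, sbs_C, Fintype.sum_prod_type,
      mul_assoc] using e

theorem eval_le_inf (h : Etl a θ χ D) : ∃ b : ℕ, ∀ w : Vl F, Hor a w → 1 < w (a Polynomial.X) →
    ∀ (p : K[X][X]) (k : ℕ), p.degree < χ.natDegree → (∀ i, (p.coeff i).natDegree ≤ k) →
      w (p.eval₂ a θ) ≤ w (a Polynomial.X) ^ (k + b) := by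
  obtain ⟨b, k, χ', -, h'⟩ := h.rvs
  refine ⟨b * χ.natDegree, fun w hw h1 p k hp hk => ?_⟩
  have h2 := h'.le_one (cen_rvs_X hw h1).1 Polynomial.X
  rw [Polynomial.eval₂_X, map_mul, map_pow, rvs_X, map_inv₀, inv_pow,
    mul_inv_le_iff₀ (pow_pos (zero_lt_one.trans h1) _), one_mul] at h2
  rw [Polynomial.eval₂_eq_sum_range, pow_add, pow_mul]
  refine w.map_sum_le fun i hi => ?_
  rw [map_mul, map_pow]
  exact mul_le_mul' (hw.le_pow h1.le (hk i)) ((pow_le_pow_left' h2 i).trans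
    (pow_le_pow_right₀ (one_le_pow₀ h1.le) ((Nat.lt_succ_iff.1 (Finset.mem_range.1 hi)).trans
      (Polynomial.natDegree_le_iff_degree_le.2 hp.le))))

/-- `Etl.crd` for the coordinate at infinity -/
theorem bdd_coeff (h : Etl a θ χ D) (m : ℕ) : ∃ B : ℕ, ∀ x ∈ IntOff a 1,
    (∀ w : Vl F, Hor a w → 1 < w (a Polynomial.X) → w x ≤ w (a Polynomial.X) ^ m) →
      ∃ G : K[X][X], G.natDegree ≤ B ∧ (∀ i, (G.coeff i).natDegree ≤ B) ∧
        a D * x = G.eval₂ a θ := by
  obtain ⟨_, rfl⟩ := exists_frac h.inj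
  have hα := isFr_alg K[X] (Fr K[X])
  generalize algebraMap K[X] (Fr K[X]) = α at *
  obtain ⟨v, hv, h1⟩ := exists_vinf hα
  obtain ⟨b, k, χ', hd, h'⟩ := h.rvs
  rw [rvs_comp] at h'
  refine ⟨m + D.natDegree + k + χ.natDegree, fun x hx H => ?_⟩
  obtain ⟨G, hG, e⟩ := h.cond hx
  refine ⟨G, (Polynomial.natDegree_le_iff_degree_le.2 hG.le).trans le_add_self,
    fun i => (hv.deg_le h1 ?_).trans le_self_add, e⟩
  have hc := cen_rvs_X hv h1
  have h0 := zero_lt_one.trans h1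
  have h2 := h'.crd (isFr_rvs hα) hc.1
    (G := (G.map α).comp (Polynomial.C (α Polynomial.X ^ b) * Polynomial.X))
    (c := α Polynomial.X ^ (m + D.natDegree))
    ((Polynomial.degree_lt_iff_coeff_zero _ _).2 fun n hn => by
      rw [Polynomial.comp_C_mul_X_coeff, Polynomial.coeff_map,
        (Polynomial.degree_lt_iff_coeff_zero _ _).1 hG n (hd ▸ hn), map_zero, zero_mul])
    (fun w hw => by
      have h3 : Hor (tE F α) w := fun r hr => (hw.eq_one _).2 (hv r hr)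
      have h4 : 1 < w (tE F α Polynomial.X) := not_le.1 fun e => h1.not_ge ((hw _).1 e)
      rw [Polynomial.aeval_comp, map_mul, Polynomial.aeval_C, Polynomial.aeval_X, mul_left_comm,
        RingHom.comp_apply, ← map_pow (algebraMap _ F), ← map_mul, rvs_X, inv_pow,
        mul_inv_cancel₀ (pow_ne_zero _ (v.ne_zero_iff.1 h0.ne')), map_one, mul_one,
        Polynomial.aeval_def, Polynomial.eval₂_map, ← e, map_mul, map_pow, map_pow, add_comm,
        pow_add]
      exact mul_le_mul' (h3.le_pow h4.le le_rfl) (H w h3 h4)) i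
  rw [Polynomial.comp_C_mul_X_coeff, Polynomial.coeff_map, map_mul, map_mul, map_mul, map_mul,
    (hc.eq_one D.reverse).2 (by simpa [Polynomial.X_dvd_iff] using h.ne), mul_one, map_pow, map_pow,
    rvs_X, map_inv₀, inv_pow, inv_mul_le_iff₀ (pow_pos h0 _), map_pow, map_pow, map_pow,
    ← pow_add, add_comm] at h2
  exact (le_mul_of_one_le_right' (one_le_pow₀ (one_le_pow₀ h1.le))).trans h2

end Pool.Agent.ZFy.GM
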