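import Pool.Agent.Lib.MP_751085_ag.ZF.G.Lag
import Pool.Agent.Lib.MP_751085_ag.ZF.G.Rev
import Pool.Agent.Lib.MP_751085_ag.ZF.G.Ps0

/-! Finiteness of places, approximation. -/

namespace Pool.Agent.ZFy.GM

open Pool.Agent.ZCy
open scoped Classical WithZero Polynomial PowerSeries
open WithZero (exp)

variable {K K₀ F : Type} [Field K] [Field K₀] [Field F] {a : K[X] →+* F} {θ : F} {χ : K[X][X]}
  {D Θ : K[X]} {P : Vl F} {x : F}

theorem gcs3_le (h : Etl a θ χ D) (h1 : ∀ p, P (a p) ≤ 1) {G : K[X][X]} {d : K[X]}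
    (e : x * a d = G.eval₂ a θ) (hd : P (a d) = 1) : P x ≤ 1 := by
  have h2 := h.le_one h1 G
  rwa [← e, map_mul, hd, mul_one] at h2

theorem gcs3_hor {q : K[X]} (hq : Prime q) (hc : Cen a P q) : Hor a P := fun _ hr =>
  (hc.eq_one _).2 fun hd => hq.not_isUnit (isUnit_of_dvd_unit hd (Polynomial.isUnit_C.2 hr.isUnit))

theorem fin_over [Algebra K₀ F] [FiniteDimensional K₀ F] [Algebra.IsSeparable K₀ F] (v : Vl K₀) :
    {P : Vl F | Nrm P ∧ Over (algebraMap K₀ F) v P}.Finite := by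
  obtain ⟨N, _, _, _, _, _, _, -⟩ := exists_gc K₀ F
  have : FiniteDimensional F N := .right K₀ F N
  obtain ⟨w, hw⟩ := exists_over (E := N) v
  have h : ∀ P ∈ {P : Vl F | Nrm P ∧ Over (algebraMap K₀ F) v P}, ∃ g : N ≃ₐ[K₀] N,
      ∀ x, P x ≤ 1 ↔ w (g (algebraMap F N x)) ≤ 1 := fun P hP => by
    obtain ⟨u, hu⟩ := exists_over (E := N) P
    obtain ⟨g, hg⟩ := conj hw (IsScalarTower.algebraMap_eq K₀ F N ▸ hP.2.trans hu)
    exact ⟨g, fun x => (hu x).symm.trans (hg _)⟩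
  choose! g hg using h
  exact Set.Finite.of_injOn (Set.mapsTo_univ g _) (fun P hP Q hQ e => hQ.1.eq_of_iff hP.1
    fun x => (hg P hP x).trans (e ▸ (hg Q hQ x).symm)) Set.finite_univ

theorem fin_cen (h : Etl a θ χ D) {q : K[X]} (hq : Prime q) :
    {P : Vl F | Nrm P ∧ Cen a P q}.Finite := by
  obtain ⟨_, rfl⟩ := exists_frac h.inj
  have hα := isFr_alg K[X] (Fr K[X])
  obtain ⟨_, _, -⟩ := h.alg hα
  obtain ⟨v, hv, -⟩ := exists_vcen hα hq
  exact (fin_over v).subset fun P hP => ⟨hP.1, (hv.over hα hq).1 hP.2⟩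

theorem nrm_cen (h : Etl a θ χ D) (hP : Nrm P) (hh : Hor a P) (h1 : P (a Polynomial.X) ≤ 1) :
    ∃ q, Prime q ∧ Cen a P q := by
  refine (cen_poly (hh.le_one h1) hh).resolve_left fun ht => ?_
  obtain ⟨y, hy⟩ := hP.surj (exp 1)
  obtain ⟨G, d, hd, e⟩ := h.gen y
  have h2 := gcs3_le h (hh.le_one h1) e (ht d hd)
  rw [hy, ← WithZero.exp_zero, WithZero.exp_le_exp] at h2
  omega

theorem cen_rvs_X (hh : Hor a P) (h1 : 1 < P (a Polynomial.X)) :
    Cen (rvs a) P Polynomial.X := by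
  have hh' := hor_rvs.2 hh
  have hX : P (rvs a Polynomial.X) < 1 := by
    rw [rvs_X, map_inv₀]
    exact inv_lt_one_of_one_lt₀ h1
  refine vctr_of (hh'.le_one hX.le) hX fun p hp => Polynomial.X_dvd_iff.2 ?_
  by_contra h0
  have h2 := P.map_sub_lt hp (vctr_dvd (hh'.le_one hX.le) hX (dvd_mul_right _ p.divX))
  rw [← map_sub, sub_eq_of_eq_add' p.X_mul_divX_add.symm, hh' _ h0] at h2
  exact h2.false

theorem fin_marked (h : Etl a θ χ D) (hΘ : Θ ≠ 0) :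
    {P : Vl F | Nrm P ∧ Hor a P ∧ ¬Unm a Θ P}.Finite := by
  obtain ⟨_, _, _, -, h'⟩ := h.rvs
  refine ((fin_cen h' Polynomial.prime_X).union
    ((UniqueFactorizationMonoid.factors Θ).finite_toSet.biUnion fun q hq =>
      fin_cen h (UniqueFactorizationMonoid.prime_of_factor q hq))).subset ?_
  rintro P ⟨hP, hh, hu⟩
  rcases lt_or_ge 1 (P (a Polynomial.X)) with h1 | h1
  · exact Or.inl ⟨hP, cen_rvs_X hh h1⟩
  · obtain ⟨q, hq, hc⟩ := nrm_cen h hP hh h1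
    obtain ⟨q', h2, h3⟩ := UniqueFactorizationMonoid.exists_mem_factors_of_dvd hΘ hq.irreducible
      (by_contra fun hd => hu ⟨hh, h1, (hc.eq_one _).2 hd⟩)
    exact Or.inr (Set.mem_biUnion h2 ⟨hP, hc.assoc h3⟩)

theorem fin_places (h : Etl a θ χ D) (hx : x ≠ 0) :
    {P : Vl F | Nrm P ∧ Hor a P ∧ P x ≠ 1}.Finite := by
  obtain ⟨G, d, hd, e⟩ := h.gen x
  obtain ⟨G', d', hd', e'⟩ := h.gen x⁻¹
  refine (fin_marked h (mul_ne_zero hd hd')).subset fun P hP => ⟨hP.1, hP.2.1, fun hu => ?_⟩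
  have h1 := hu.1.le_one hu.2.1
  have h2 := gcs3_le h h1 e' (mul_comm d d' ▸ hu).of_mul.2.2
  rw [map_inv₀, inv_le_one₀ (P.pos_iff.2 hx)] at h2
  exact hP.2.2 (le_antisymm (gcs3_le h h1 e hu.of_mul.2.2) h2)

theorem wap_ord {S : Set (Vl F)} (hS : S.Finite) (hN : ∀ P ∈ S, Nrm P) (n : Vl F → ℤ) :
    ∃ y, y ≠ 0 ∧ ∀ P ∈ S, ord P y = n P := by
  rcases S.eq_empty_or_nonempty with rfl | ⟨P₀, h0⟩
  · exact ⟨1, one_ne_zero, fun _ h => h.elim⟩
  have := hS.to_subtype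
  choose y hy using fun P : S => (hN P P.2).surj (exp (-n P))
  obtain ⟨M, hM⟩ := Finite.exists_le fun P : S => (n P).toNat + 1
  obtain ⟨x, hx⟩ := wap (fun P : S => P.1) (fun P => hN P P.2) y
    (fun P Q e => congrArg y (Subtype.ext e)) M
  have h : ∀ P : S, P.1 x = exp (-n P) := fun P => by
    rw [← hy]
    refine P.1.map_eq_of_sub_lt ((hx P).trans_lt ?_)
    have := hM P
    rw [hy, WithZero.exp_lt_exp]
    omega
  exact ⟨x, P₀.ne_zero_iff.1 ((h ⟨P₀, h0⟩).trans_ne WithZero.exp_ne_zero),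
    fun P hP => ord_eq_of P (h ⟨P, hP⟩)⟩

theorem intOff_of_nrm (ha : Function.Injective a)
    (H : ∀ w : Vl F, Nrm w → Hor a w → w (a Polynomial.X) ≤ 1 → w x ≤ 1) : x ∈ IntOff a 1 := by
  intro q w hq _ hc
  obtain ⟨v, e, hn, he, hi⟩ := exists_nrm (v := w) ((map_ne_zero_iff a ha).2 hq.ne_zero)
    ((hc.2 q).2 dvd_rfl).ne
  have ho := hi.over he
  exact (ho x).2 (H v hn (fun r hr => (ho.eq_one _).1 (gcs3_hor hq hc r hr)) ((ho _).1 (hc.1 _)))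

theorem inf_of_nrm {m : ℕ} (H : ∀ w : Vl F, Nrm w → Hor a w → 1 < w (a Polynomial.X) →
    w x ≤ w (a Polynomial.X) ^ m) {w : Vl F} (hw : Hor a w) (h1 : 1 < w (a Polynomial.X)) :
    w x ≤ w (a Polynomial.X) ^ m := by
  obtain ⟨v, e, hn, he, hi⟩ := exists_nrm (v := w) (w.ne_zero_iff.1 (zero_lt_one.trans h1).ne')
    h1.ne'
  have ho := hi.over he
  have h2 := H v hn (fun r hr => (ho.eq_one _).1 (hw r hr))
    (not_le.1 fun h => not_le.2 h1 ((ho _).2 h))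
  rw [← map_pow] at h2 ⊢
  exact (ho.le_iff _ _).2 h2

theorem le_one_of_int_off (h : Etl a θ χ D) (hx : x ∈ IntOff a 1) (hP : Nrm P) (hh : Hor a P)
    (h1 : P (a Polynomial.X) ≤ 1) : P x ≤ 1 := by
  obtain ⟨q, hq, hc⟩ := nrm_cen h hP hh h1
  exact hx q P hq (fun hd => hq.not_isUnit (isUnit_of_dvd_one hd)) hc

theorem exists_vinf {α : K[X] →+* K₀} (hα : IsFr α) :
    ∃ v : Vl K₀, Hor α v ∧ 1 < v (α Polynomial.X) := by
  obtain ⟨v, hc, -⟩ := exists_cn1 (isFr_rvs hα) Polynomial.prime_X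
  refine ⟨v, hor_rvs.1 (gcs3_hor Polynomial.prime_X hc), ?_⟩
  have h1 := (hc.2 _).2 dvd_rfl
  rwa [rvs_X, map_inv₀, inv_lt_one₀ (v.pos_iff.2 (grev_ne hα.1))] at h1

theorem Hor.val_inf (hh : Hor a P) (h1 : 1 < P (a Polynomial.X)) {p : K[X]} (hp : p ≠ 0) :
    P (a p) = P (a Polynomial.X) ^ p.natDegree := by
  have h2 := hh.monic h1 (Polynomial.monic_mul_leadingCoeff_inv hp)
  rwa [Polynomial.natDegree_mul_leadingCoeff_self_inv, map_mul, map_mul,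
    hh _ (inv_ne_zero (Polynomial.leadingCoeff_ne_zero.2 hp)), mul_one] at h2

theorem Hor.deg_le (hh : Hor a P) (h1 : 1 < P (a Polynomial.X)) {p : K[X]} {m : ℕ}
    (h : P (a p) ≤ P (a Polynomial.X) ^ m) : p.natDegree ≤ m := by
  by_cases hp : p = 0
  · simp [hp]
  · rwa [hh.val_inf h1 hp, pow_le_pow_iff_right₀ h1] at h

end Pool.Agent.ZFy.GM
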