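import Pool.Agent.Lib.MP_751085_ag.ZF.G.Cs1
import Pool.Agent.Lib.MP_751085_ag.ZF.G.Cs3
import Pool.Agent.Lib.MP_751085_ag.ZF.G.Pt0
import Pool.Agent.Lib.MP_751085_ag.ZF.G.Plc

/-! Unmarked places are expansions at points. -/

namespace Pool.Agent.ZFy.GM

open Pool.Agent.ZCy
open scoped Classical WithZero Polynomial PowerSeries
open WithZero (exp)

variable {K M F F' : Type} [Field K] [Field M] [Field F] [Field F'] {P : Vl F}

/-- `P` is the place of the expansion `t ↦ c + X`, `θ ↦ η` -/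
def PtV (a : M[X] →+* F) (θ : F) (c : M) (η : M⟦X⟧) (P : Vl F) : Prop :=
  ∀ G : M[X][X], (G.eval₂ a θ = 0 ↔ G.eval₂ (sh c) η = 0) ∧
    ord P (G.eval₂ a θ) = ((G.eval₂ (sh c) η).order.toNat : ℤ)

/-- an unmarked place is given by an expansion at a root of its centre -/
theorem pt_gen [IsAlgClosed M] (γ : K →+* M) {a : K[X] →+* F} {θ : F} {χ : K[X][X]} {D : K[X]}
    (h : Etl a θ χ D) (hP : Nrm P) (hu : Unm a D P) {V : Vl (Fr M⟦X⟧)}
    (hV : Cn1 (fr M) V PowerSeries.X) : ∃ (f : K[X]) (c : M) (η : M⟦X⟧) (J : F →+* Fr M⟦X⟧),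
      Prime f ∧ f.eval₂ γ c = 0 ∧ Cen a P f ∧ (∀ p, J (a p) = fr M (sh c (p.map γ))) ∧
      J θ = fr M η ∧ Over J P V := by
  obtain ⟨f, hf, hc⟩ := nrm_cen h hP hu.1 hu.2.1
  obtain ⟨c, hc0⟩ := IsAlgClosed.exists_eval₂_eq_zero γ f hf.irreducible.degree_pos.ne'
  have key : ∀ p : K[X], (p.map γ).eval c = 0 ↔ f ∣ p := fun p => by
    rw [Polynomial.eval_map]
    refine ⟨fun hp => by_contra fun hn => ?_, fun ⟨q, e⟩ => by
      rw [e, Polynomial.eval₂_mul, hc0, zero_mul]⟩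
    obtain ⟨u, v, e⟩ := hf.irreducible.coprime_iff_not_dvd.2 hn
    simpa [hp, hc0] using congrArg (Polynomial.eval₂ γ c) e
  obtain ⟨_, rfl⟩ := exists_frac h.inj
  have hα := isFr_alg K[X] (Fr K[X])
  have hφ := isFr_alg M⟦X⟧ (Fr M⟦X⟧)
  obtain ⟨_, _, -⟩ := h.alg hα
  have hb : Function.Injective ((fr M).comp ((sh c).comp (Polynomial.mapRingHom γ))) :=
    hφ.1.comp ((sh_inj c).comp (Polynomial.map_injective γ γ.injective))
  obtain ⟨β, hβ⟩ := hα.exists_lift hb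
  have c1 : Cen (algebraMap K[X] (Fr K[X])) (V.comap β) f :=
    ⟨fun p => by rw [Valuation.comap_apply, hβ]; exact hV.1.1 _, fun p => by
      rw [Valuation.comap_apply, hβ, ← key, ← cc_sh, ← PowerSeries.X_dvd_iff]
      exact hV.1.2 _⟩
  obtain ⟨L, _, _, _, j, w, hj, o1, o2⟩ := pld β (v₁ := V)
    (Cen.iff hα hf ((cen_of_over (Over.comap _ P)).1 hc) c1) (Over.comap _ P)
  obtain ⟨p, q, hpq⟩ := h.bez
  have hm := h.monic.map (Polynomial.mapRingHom γ)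
  obtain ⟨s, hs⟩ := Polynomial.splits_iff_exists_multiset.1 (split_sh (D := D.map γ) (c := c) hm
    (p := p.map (Polynomial.mapRingHom γ)) (q := q.map (Polynomial.mapRingHom γ))
    (by rw [Polynomial.derivative_map, ← Polynomial.map_mul, ← Polynomial.map_mul,
      ← Polynomial.map_add, ← hpq, Polynomial.map_C]; rfl)
    (mt (key D).1 ((hc.eq_one D).1 hu.2.2)))
  rw [(hm.map _).leadingCoeff, map_one, one_mul, Polynomial.map_map] at hs
  have e0 : ∀ p, j (tE F (algebraMap K[X] (Fr K[X])) p) =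
      algebraMap _ L (fr M (sh c (p.map γ))) := fun p => (hj _).trans (congrArg _ (hβ p))
  have hi := (algebraMap (Fr M⟦X⟧) L).injective
  have hr : χ.eval₂ (((algebraMap (Fr M⟦X⟧) L).comp (fr M)).comp
      ((sh c).comp (Polynomial.mapRingHom γ))) (j θ) = 0 := by
    have := congrArg j h.root
    rw [Polynomial.hom_eval₂, map_zero] at this
    exact (congrArg (χ.eval₂ · _) (RingHom.ext fun p => (e0 p).symm)).trans this
  obtain ⟨η, hη⟩ : ∃ η, j θ = algebraMap _ L (fr M η) := by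
    rw [← Polynomial.eval₂_map, hs, Polynomial.eval₂_multiset_prod, Multiset.map_map,
      Multiset.prod_eq_zero_iff, Multiset.mem_map] at hr
    obtain ⟨η, -, e⟩ := hr
    exact ⟨η, by simpa [sub_eq_zero] using e⟩
  obtain ⟨J, h1, h2⟩ := h.lift hb (z := fr M η) (hi (by
    rw [Polynomial.hom_eval₂, ← hη, map_zero]; exact hr))
  have e : j = (algebraMap _ L).comp J :=
    h.hom_ext (fun p => (e0 p).trans (congrArg _ (h1 p).symm)) (hη.trans (congrArg _ h2.symm))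
  exact ⟨f, c, η, J, hf, hc0, hc, h1, h2, fun x => (o1 (J x)).symm.trans (e ▸ o2 x :)⟩

section

variable {a : M[X] →+* F} {θ : F} {χ : M[X][X]} {D Θ : M[X]}

theorem gpt1_nrm {c : M} {J : F →+* Fr M⟦X⟧} (h1 : ∀ p, J (a p) = fr M (sh c p))
    {V : Vl (Fr M⟦X⟧)} (hV : Cn1 (fr M) V PowerSeries.X) : Nrm (V.comap J) :=
  ⟨a (Polynomial.X - Polynomial.C c), by rw [Valuation.comap_apply, h1, sh_X_sub]; exact hV.2⟩

theorem gpt1_one {c : M} {J : F →+* Fr M⟦X⟧} (h1 : ∀ p, J (a p) = fr M (sh c p))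
    {V : Vl (Fr M⟦X⟧)} (hV : Cn1 (fr M) V PowerSeries.X) (p : M[X]) :
    V.comap J (a p) = 1 ↔ p.eval c ≠ 0 := by
  rw [Valuation.comap_apply, h1, vx_eq_one hV, cc_sh]

theorem gpt1_unm {c : M} {J : F →+* Fr M⟦X⟧} (h1 : ∀ p, J (a p) = fr M (sh c p))
    {V : Vl (Fr M⟦X⟧)} (hV : Cn1 (fr M) V PowerSeries.X) (h : V.comap J (a Θ) = 1) :
    Unm a Θ (V.comap J) :=
  ⟨fun r hr => (gpt1_one h1 hV _).2 (by rwa [Polynomial.eval_C]),
    (congrArg V (h1 _)).trans_le (hV.1.1 _), h⟩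

theorem ptV_of_emb {c : M} {η : M⟦X⟧} {J : F →+* Fr M⟦X⟧} (h1 : ∀ p, J (a p) = fr M (sh c p))
    (h2 : J θ = fr M η) {V : Vl (Fr M⟦X⟧)} (hV : Cn1 (fr M) V PowerSeries.X) :
    PtV a θ c η (V.comap J) := by
  intro G
  have e : J (G.eval₂ a θ) = fr M (G.eval₂ (sh c) η) := by
    rw [Polynomial.hom_eval₂, Polynomial.hom_eval₂, h2]
    exact congrArg (G.eval₂ · _) (RingHom.ext h1)
  refine ⟨by rw [← map_eq_zero J, e, map_eq_zero_iff _ (isFr_alg _ _).1], ?_⟩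
  rw [← vx_ord hV, ← e]
  rfl

theorem pt_place [IsAlgClosed M] (h : Etl a θ χ D) (hD : D ∣ Θ) (hP : Nrm P) (hu : Unm a Θ P) :
    ∃ c η, Θ.eval c ≠ 0 ∧ χ.eval₂ (sh c) η = 0 ∧ PtV a θ c η P := by
  obtain ⟨V, hV, -⟩ := exists_vx M
  obtain ⟨E, rfl⟩ := hD
  obtain ⟨f, c, η, J, -, -, -, h1, h2, ho⟩ := pt_gen (RingHom.id M) h hP hu.of_mul hV
  simp only [Polynomial.map_id] at h1
  obtain rfl : V.comap J = P := hP.eq_of_iff (gpt1_nrm h1 hV) ho
  have hp := ptV_of_emb h1 h2 hV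
  exact ⟨c, η, (gpt1_one h1 hV _).1 hu.2.2, (hp χ).1.1 h.root, hp⟩

theorem pt_emb (h : Etl a θ χ D) {c : M} {η : M⟦X⟧} (hc : Θ.eval c ≠ 0)
    (hη : χ.eval₂ (sh c) η = 0) : ∃ P : Vl F, Nrm P ∧ Unm a Θ P ∧ PtV a θ c η P := by
  obtain ⟨V, hV, -⟩ := exists_vx M
  obtain ⟨J, h1, h2⟩ := h.lift (b := (fr M).comp (sh c)) ((isFr_alg _ _).1.comp (sh_inj c))
    (z := fr M η) (by rw [← Polynomial.hom_eval₂, hη, map_zero])
  exact ⟨V.comap J, gpt1_nrm h1 hV, gpt1_unm h1 hV ((gpt1_one h1 hV _).2 hc), ptV_of_emb h1 h2 hV⟩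

theorem tw_iff_pt [IsAlgClosed M] (h : Etl a θ χ D) (hD : D ∣ Θ) (m : ℕ) (G : M[X][X]) :
    TW m a Θ (G.eval₂ a θ) ↔ ∀ c η, Θ.eval c ≠ 0 → χ.eval₂ (sh c) η = 0 →
      m ∣ (G.eval₂ (sh c) η).order.toNat := by
  refine ⟨fun H c η hc hη => ?_, fun H P hP hu => ?_⟩
  · obtain ⟨P, hP, hu, hp⟩ := pt_emb h hc hη
    exact Int.natCast_dvd_natCast.1 ((hp G).2 ▸ H P hP hu)
  · obtain ⟨c, η, hc, hη, hp⟩ := pt_place h hD hP hu
    rw [(hp G).2]
    exact Int.natCast_dvd_natCast.2 (H c η hc hη)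

end

/-- descent along a constant extension -/
theorem TW.desc [IsAlgClosed M] {γ : K →+* M} {a : K[X] →+* F} {a' : M[X] →+* F'} {i : F →+* F'}
    {θ : F} {χ : K[X][X]} {D Θ : K[X]} (hc : CExt γ a a' i) (h : Etl a θ χ D)
    (hi : Irreducible (χ.map (Polynomial.mapRingHom γ))) (hD : D ∣ Θ) {l : ℕ} (hl : l.Prime)
    (h0 : (l : K) ≠ 0) {u : F} (hu : TW l a' (Θ.map γ) (i u)) : TW l a Θ u := by
  intro P hP hU
  obtain ⟨V, hV, -⟩ := exists_vx M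
  obtain ⟨E, rfl⟩ := hD
  obtain ⟨f, c, η, J, hf, hf0, -, h1, -, ho⟩ := pt_gen γ h hP hU.of_mul hV
  obtain ⟨e, e1, e2⟩ := hc.lift h hi (b := (fr M).comp (sh c))
    ((isFr_alg _ _).1.comp (sh_inj c)) h1
  have h3 := hu.dvd (gpt1_unm e2 hV (by
    rw [← hc.cmp, Valuation.comap_apply, e1]; exact (ho.eq_one _).2 hU.2.2))
  obtain ⟨k, -, hk⟩ := ho.idx hP
  rw [show ord (V.comap e) (i u) = k * ord P u by rw [← hk.ord, ← e1]; rfl] at h3
  have h6 := Nat.isCoprime_iff_coprime.2 (mult_coprime hl h0 γ hf.irreducible hf0).symm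
  rw [← order_sh, ← vx_ord hV, ← h1, hk.ord] at h6
  exact h6.of_mul_right_left.dvd_of_dvd_mul_left h3

end Pool.Agent.ZFy.GM
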