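import Pool.Agent.Lib.MP_751085_ag.ZF.G.Bn1
import Pool.Agent.Lib.MP_751085_ag.ZF.G.Bn2
import Pool.Agent.Lib.MP_751085_ag.ZF.G.Pt1

/-! Bounded representatives of Kummer classes. -/

namespace Pool.Agent.ZFy.GM

open Pool.Agent.ZCy
open scoped Classical WithZero Polynomial PowerSeries
open WithZero (exp)

variable {K F : Type} [Field K] [Field F] {a : K[X] →+* F} {θ : F} {χ : K[X][X]} {D Θ : K[X]}
  {l : ℕ}

/-- Induction on the degree: if `d` and `Θ` are not coprime divide by their gcd. -/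
theorem split_cop {d : K[X]} (hd : d ≠ 0) (Θ : K[X]) : ∃ (d' n : K[X]) (N : ℕ),
    d = d' * n ∧ n ≠ 0 ∧ d' ∣ Θ ^ N ∧ IsCoprime n Θ := by
  induction d using WfDvdMonoid.induction_on_irreducible with
  | zero => exact absurd rfl hd
  | unit u hu => exact ⟨1, u, 0, (one_mul u).symm, hd, one_dvd _, by
      simpa using (isCoprime_mul_unit_left_left hu 1 Θ).2 isCoprime_one_left⟩
  | mul f i hf hi ih =>
    obtain ⟨d', n, N, rfl, h1, h2, h3⟩ := ih hf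
    by_cases h : i ∣ Θ
    · exact ⟨i * d', n, N + 1, (mul_assoc _ _ _).symm, h1, pow_succ' Θ N ▸ mul_dvd_mul h h2, h3⟩
    · exact ⟨d', i * n, N, mul_left_comm _ _ _, mul_ne_zero hi.ne_zero h1, h2,
        (hi.coprime_iff_not_dvd.2 h).mul_left h3⟩

/-- `fin_marked`, `wap_ord` with `n P = -(ord P u / l)`: the orders of `u₁ = u * y₀ ^ l` at marked
places lie in `[0, l - 1]`. `u₁ * a d = G(θ)`, `split_cop`, `y = y₀ * a n`, `k = n.natDegree`;
`intOff_of_nrm`, `Etl.le_one`, `Hor.le_one`, `Hor.val_inf`. -/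
theorem nrm_rep (h : Etl a θ χ D) (hΘ : Θ ≠ 0) (hl : 0 < l) {u : F} (h0 : u ≠ 0) :
    ∃ (y : F) (k : ℕ), y ≠ 0 ∧ u * y ^ l ∈ IntOff a 1 ∧
      (∀ P : Vl F, Nrm P → Hor a P → P (a Polynomial.X) ≤ 1 → P (a Θ) < 1 →
        ord P (u * y ^ l) < l) ∧
      ∀ P : Vl F, Nrm P → Hor a P → 1 < P (a Polynomial.X) →
        P (u * y ^ l) ≤ P (a Polynomial.X) ^ (l * k) ∧
        P (a Polynomial.X) ^ (l * k) ≤ P (u * y ^ l) * P (a Polynomial.X) ^ l := by
  obtain ⟨y₀, hy, H⟩ := wap_ord (fin_marked h hΘ) (fun _ hP => hP.1) fun P => -(ord P u / l)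
  have h1 : u * y₀ ^ l ≠ 0 := mul_ne_zero h0 (pow_ne_zero _ hy)
  have hl' : (0 : ℤ) < l := by exact_mod_cast hl
  have h2 : ∀ P : Vl F, Nrm P → Hor a P → ¬Unm a Θ P →
      P (u * y₀ ^ l) ≤ 1 ∧ ord P (u * y₀ ^ l) < l := fun P a1 a2 a3 => by
    have e : ord P (u * y₀ ^ l) = ord P u % l := by
      rw [ord_mul_v P h0 (pow_ne_zero _ hy), ord_pow_v, H P ⟨a1, a2, a3⟩, Int.emod_def]
      ring
    rw [← ord_nonneg_v P h1, e]
    exact ⟨Int.emod_nonneg _ hl'.ne', Int.emod_lt_of_pos _ hl'⟩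
  obtain ⟨G, d, hd, hG⟩ := h.gen (u * y₀ ^ l)
  obtain ⟨d', n, N, rfl, hn, ⟨c, hc⟩, s, t, hst⟩ := split_cop hd Θ
  have hn' : a n ≠ 0 := (map_ne_zero_iff a h.inj).2 hn
  have e : u * (y₀ * a n) ^ l = u * y₀ ^ l * a n ^ l := by ring
  refine ⟨y₀ * a n, n.natDegree, mul_ne_zero hy hn', intOff_of_nrm h.inj fun w a1 a2 a3 => ?_,
    fun P a1 a2 a3 a4 => ?_, fun P a1 a2 a3 => ?_⟩ <;> rw [e]
  · have h3 := a2.le_one a3
    by_cases hu : Unm a Θ w
    · have h4 : w (a d') = 1 := (h3 _).antisymm (by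
        have h5 : w (a d') * w (a c) = 1 := by
          rw [← map_mul, ← map_mul, ← hc, map_pow, map_pow, hu.2.2, one_pow]
        exact h5.ge.trans (mul_le_of_le_one_right' (h3 c)))
      have h5 := h.le_one h3 G
      rw [← hG, map_mul a, map_mul w, map_mul w (a d'), h4, one_mul] at h5
      obtain ⟨j, rfl⟩ := Nat.exists_eq_add_one_of_ne_zero hl.ne'
      rw [pow_succ' (a n), ← mul_assoc, map_mul, map_mul w _ (a n), map_pow]
      exact mul_le_one' h5 (pow_le_one' (h3 n) j)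
    · rw [map_mul, map_pow]
      exact mul_le_one' (h2 w a1 a2 hu).1 (pow_le_one' (h3 n) l)
  · have h3 := a2.le_one a3
    have h4 : P (a n) = 1 := (h3 n).eq_of_not_lt fun h5 => by
      have h6 : P (a (s * n + t * Θ)) < 1 := by
        rw [map_add, map_mul, map_mul]
        refine P.map_add_lt ?_ ?_ <;> rw [map_mul]
        exacts [(mul_le_of_le_one_left' (h3 s)).trans_lt h5,
          (mul_le_of_le_one_left' (h3 t)).trans_lt a4]
      simp [hst] at h6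
    rw [ord_mul_v P h1 (pow_ne_zero _ hn'), ord_pow_v P (a n), (ord_eq_zero_v P hn').2 h4, mul_zero,
      add_zero]
    exact (h2 P a1 a2 fun hu => a4.ne hu.2.2).2
  · obtain ⟨h3, h4⟩ := h2 P a1 a2 fun hu => a3.not_ge hu.2.1
    have hX := grev_ne h.inj
    have h5 : 1 ≤ P (u * y₀ ^ l * a Polynomial.X ^ l) := by
      have h6 := (ord_lt_ord P hX one_ne_zero).2 (by rwa [map_one])
      rw [← map_one P, ← ord_le_ord P (mul_ne_zero h1 (pow_ne_zero _ hX)) one_ne_zero,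
        ord_mul_v P h1 (pow_ne_zero _ hX), ord_pow_v]
      rw [ord_one_v] at h6 ⊢
      nlinarith
    rw [map_mul P _ (a n ^ l), map_pow P (a n), a2.val_inf a3 hn, ← pow_mul, mul_comm _ l,
      mul_right_comm]
    rw [map_mul, map_pow P (a _)] at h5
    exact ⟨mul_le_of_le_one_left' h3, le_mul_of_one_le_left' h5⟩

/-- `Etl.cond` gives `a D * u = G(θ)`; `Hor.le_pow` bounds it at infinity by
`t ^ (D.natDegree + l * k)`. `T` from `fin_pt`, `r z = order / l` (`tw_dvd`, `TW.mul`,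
`tw_iff_pt`), `cnt`, `pig` with `k + D.natDegree`; `p(θ) ≠ 0` by `Etl.ker` and degrees. At an
unmarked place use `pt_place` (`PowerSeries.X_pow_dvd_iff`, `PowerSeries.nat_le_order`). -/
theorem small_zero [IsAlgClosed K] (h : Etl a θ χ D) (hD : D ∣ Θ) (hl : 0 < l) {u : F}
    (h0 : u ≠ 0) (hu : TW l a Θ u) (hi : u ∈ IntOff a 1) {k : ℕ} (H : ∀ w : Vl F, Hor a w →
      1 < w (a Polynomial.X) → w u ≤ w (a Polynomial.X) ^ (l * k)) :
    ∃ p : K[X][X], p.eval₂ a θ ≠ 0 ∧ p.degree < χ.natDegree ∧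
      (∀ i, (p.coeff i).natDegree ≤ k + D.natDegree) ∧
      ∀ P : Vl F, Nrm P → Unm a Θ P → P (p.eval₂ a θ) ^ l ≤ P u := by
  obtain ⟨G, -, hG⟩ := h.cond hi
  have hD0 : a D ≠ 0 := (map_ne_zero_iff a h.inj).2 h.ne
  have h1 : G.eval₂ a θ ≠ 0 := hG ▸ mul_ne_zero hD0 h0
  have h2 : ∀ w : Vl F, Hor a w → 1 < w (a Polynomial.X) →
      w (G.eval₂ a θ) ≤ w (a Polynomial.X) ^ (D.natDegree + l * k) := fun w a1 a2 => by
    rw [← hG, map_mul, pow_add]
    exact mul_le_mul' (a1.le_pow a2.le le_rfl) (H w a1 a2)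
  have h3 := (tw_iff_pt h hD l G).1 (hG ▸ (tw_dvd l hD).mul hu)
  have hf := fin_pt h hD h1 h2
  have h4 := cnt h hD h1 h2 hf.toFinset fun z hz =>
    ⟨(hf.mem_toFinset.1 hz).1, (hf.mem_toFinset.1 hz).2.1⟩
  obtain ⟨p, p0, p1, p2, p3⟩ := pig (δ := χ.natDegree) (k := k + D.natDegree) hf.toFinset
    (fun z => (G.eval₂ (sh z.1) z.2).order.toNat / l) (Nat.lt_of_mul_lt_mul_left (a := l) (by
      rw [Finset.mul_sum]
      refine ((Finset.sum_le_sum fun z _ => Nat.mul_div_le _ l).trans h4).trans_lt ?_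
      rw [mul_left_comm]
      exact Nat.mul_lt_mul_of_pos_left (by nlinarith) h.pos))
  have h5 : p.eval₂ a θ ≠ 0 := fun e => p0 (Polynomial.eq_zero_of_dvd_of_degree_lt ((h.ker p).1 e)
    (by rwa [Polynomial.degree_eq_natDegree h.monic.ne_zero]))
  refine ⟨p, h5, p1, p2, fun P hP hu => ?_⟩
  obtain ⟨c, η, a1, a2, a3⟩ := pt_place h hD hP hu
  obtain ⟨e, rfl⟩ := hD
  have h6 := (a3 G).2
  rw [← hG, ord_mul_v P hD0 h0, (ord_eq_zero_v P hD0).2 hu.of_mul.2.2, zero_add] at h6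
  rw [← map_pow, ← ord_le_ord P h0 (pow_ne_zero _ h5), ord_pow_v, h6, (a3 p).2, ← Nat.cast_mul,
    Nat.cast_le]
  by_cases h7 : (G.eval₂ (sh c) η).order.toNat = 0
  · exact h7 ▸ Nat.zero_le _
  rw [← Nat.mul_div_cancel' (h3 c η a1 a2)]
  refine Nat.mul_le_mul_left l (ENat.natCast_le_natCast.1 ?_)
  rw [PowerSeries.coe_toNat_order (mt (a3 p).1.2 h5)]
  exact PowerSeries.nat_le_order _ _
    (PowerSeries.X_pow_dvd_iff.1 (p3 (c, η) (hf.mem_toFinset.2 ⟨a1, a2, h7⟩)))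

/-- `nrm_rep` gives `u₂ = u * y₀ ^ l`, `small_zero` (with `inf_of_nrm`) gives `p`. Put
`x = (a Θ * p(θ)) ^ l / u₂`. It is integral (`intOff_of_nrm`: marked and unmarked places) and is
bounded at infinity by `t ^ (l * (Θ.natDegree + D.natDegree + b + 1))` (`eval_le_inf`,
`Hor.le_pow`, `inf_of_nrm`); `bdd_coeff`. -/
theorem bnd [IsAlgClosed K] (h : Etl a θ χ D) (hΘ : Θ ≠ 0) (hD : D ∣ Θ) (hl : 0 < l) :
    ∃ B : ℕ, ∀ u : F, u ≠ 0 → TW l a Θ u → ∃ (G : K[X][X]) (y : F), G.natDegree ≤ B ∧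
      (∀ i, (G.coeff i).natDegree ≤ B) ∧ y ≠ 0 ∧ G.eval₂ a θ * u = a D * y ^ l := by
  obtain ⟨b, hb⟩ := eval_le_inf h
  obtain ⟨B, hB⟩ := bdd_coeff h (l * (Θ.natDegree + D.natDegree + b + 1))
  refine ⟨B, fun u h0 hu => ?_⟩
  obtain ⟨y, k, hy, h1, h2, h3⟩ := nrm_rep h hΘ hl h0
  have h4 : u * y ^ l ≠ 0 := mul_ne_zero h0 (pow_ne_zero _ hy)
  obtain ⟨p, p0, p1, p2, p3⟩ := small_zero h hD hl h4 (hu.mul (tw_pow l y)) h1 (k := k)
    fun w => inf_of_nrm fun P a1 a2 a3 => (h3 P a1 a2 a3).1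
  have hΘ0 : a Θ ≠ 0 := (map_ne_zero_iff a h.inj).2 hΘ
  have h5 : ∀ w : Vl F, 0 < w (u * y ^ l) := fun w => zero_lt_iff.2 ((map_ne_zero w).2 h4)
  obtain ⟨G, g1, g2, g3⟩ := hB ((a Θ * p.eval₂ a θ) ^ l / (u * y ^ l))
    (intOff_of_nrm h.inj fun w a1 a2 a3 => by
      rw [map_div₀, div_le_one₀ (h5 w)]
      rcases (a2.le_one a3 Θ).eq_or_lt with e | e
      · rw [map_pow, map_mul, e, one_mul]
        exact p3 w a1 ⟨a2, a3, e⟩
      · have h6 := h2 w a1 a2 a3 e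
        have h7 := (ord_pos_v w hΘ0).2 e
        have h8 := (ord_nonneg_v w p0).2 (h.le_one (a2.le_one a3) p)
        rw [← ord_le_ord w h4 (pow_ne_zero _ (mul_ne_zero hΘ0 p0)), ord_pow_v, ord_mul_v w hΘ0 p0]
        nlinarith)
    fun w => inf_of_nrm fun w a1 a2 a3 => by
      rw [map_div₀, div_le_iff₀ (h5 w), map_pow, map_mul]
      refine (pow_le_pow_left' (mul_le_mul' (a2.le_pow a3.le le_rfl) (hb w a2 a3 p _ p1 p2))
        l).trans ?_
      refine le_of_eq_of_le (b := w (a Polynomial.X) ^ (l * (Θ.natDegree + D.natDegree + b)) *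
        w (a Polynomial.X) ^ (l * k)) (by rw [← pow_add, ← pow_mul, ← pow_add]; congr 1; ring) ?_
      rw [mul_add_one, pow_add, mul_assoc, mul_comm _ (w (u * y ^ l))]
      exact mul_le_mul_right (h3 w a1 a2 a3).2 _
  refine ⟨G, a Θ * p.eval₂ a θ / y, g1, g2, div_ne_zero (mul_ne_zero hΘ0 p0) hy, ?_⟩
  rw [← g3, div_pow]
  field_simp

end Pool.Agent.ZFy.GM
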