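import Pool.Agent.Lib.MP_751085_ag.ZF.G.Pt0

/-! Ultrapowers of a field. -/

namespace Pool.Agent.ZFy.GM

open Pool.Agent.ZCy
open scoped Classical WithZero Polynomial PowerSeries
open WithZero (exp)

variable {M M' : Type} [Field M] [Field M']

/-- the `n`-th component -/
abbrev ev (M : Type) [Field M] (n : ℕ) : (ℕ → M) →+* M := Pi.evalRingHom (fun _ => M) n

/-- the constant sequences -/
abbrev cst (M : Type) [Field M] : M →+* (ℕ → M) := Pi.constRingHom ℕ M

/-- `M'` is the ultrapower of `M` -/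
structure Ult (U : Ultrafilter ℕ) (π : (ℕ → M) →+* M') : Prop where
  surj : Function.Surjective π
  ker : ∀ f, π f = 0 ↔ ∀ᶠ n in (U : Filter ℕ), f n = 0

variable {U : Ultrafilter ℕ} {π : (ℕ → M) →+* M'}

theorem Ult.ne (h : Ult U π) {f : ℕ → M} : π f ≠ 0 ↔ ∀ᶠ n in (U : Filter ℕ), f n ≠ 0 := by
  exact (h.ker f).not.trans Ultrafilter.eventually_not.symm

theorem gul1_poly {A B C : Type} [CommRing A] [CommRing B] [CommRing C] {e : ℕ → A →+* B}
    {φ : A →+* C} {l : Filter ℕ} (h : ∀ a, φ a = 0 ↔ ∀ᶠ n in l, e n a = 0) (p : A[X]) :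
    p.map φ = 0 ↔ ∀ᶠ n in l, p.map (e n) = 0 := by
  simp only [Polynomial.ext_iff, Polynomial.coeff_map, Polynomial.coeff_zero, h]
  refine ⟨fun h0 => ?_, fun h0 i => h0.mono fun n hn => hn i⟩
  filter_upwards [(Filter.eventually_all_finset p.support).2 fun i _ => h0 i] with n hn i
  by_cases hi : i ∈ p.support
  · exact hn i hi
  · rw [Polynomial.notMem_support_iff.1 hi, map_zero]

theorem Ult.poly (h : Ult U π) (p : (ℕ → M)[X]) :
    p.map π = 0 ↔ ∀ᶠ n in (U : Filter ℕ), p.map (ev M n) = 0 := by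
  exact gul1_poly (e := ev M) h.ker p

theorem Ult.poly2 (h : Ult U π) (G : (ℕ → M)[X][X]) : G.map (Polynomial.mapRingHom π) = 0 ↔
    ∀ᶠ n in (U : Filter ℕ), G.map (Polynomial.mapRingHom (ev M n)) = 0 := by
  exact gul1_poly (e := fun n => Polynomial.mapRingHom (ev M n)) h.poly G

theorem Ult.lift2 (h : Ult U π) (G : M'[X][X]) :
    ∃ G₀ : (ℕ → M)[X][X], G₀.map (Polynomial.mapRingHom π) = G := by
  exact Polynomial.map_surjective _ (Polynomial.map_surjective _ h.surj) G

/-- choose a root in each component -/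
theorem Ult.closed [IsAlgClosed M] (h : Ult U π) : IsAlgClosed M' := by
  refine IsAlgClosed.of_exists_root _ fun p hm hi => ?_
  obtain ⟨q, rfl, hd, hq⟩ := Polynomial.lifts_and_natDegree_eq_and_monic
    ((Polynomial.mem_lifts _).2 (Polynomial.map_surjective π h.surj p)) hm
  choose z hz using fun n => IsAlgClosed.exists_root (q.map (ev M n))
    (Polynomial.natDegree_pos_iff_degree_pos.1 (by
      rw [hq.natDegree_map, hd]
      exact hi.natDegree_pos)).ne'
  refine ⟨π z, ?_⟩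
  rw [Polynomial.eval_map, Polynomial.eval₂_hom, h.ker]
  exact .of_forall fun n => (Polynomial.eval₂_hom (ev M n) z).symm.trans
    ((Polynomial.eval_map _ _).symm.trans (hz n))

/-- germs along the ultrafilter -/
theorem exists_ult (M : Type) [Field M] (U : Ultrafilter ℕ) :
    ∃ (M' : Type) (_ : Field M') (π : (ℕ → M) →+* M'), Ult U π := by
  exact ⟨Filter.Germ (U : Filter ℕ) M, inferInstance, Filter.Germ.coeRingHom _,
    fun x => x.inductionOn fun f => ⟨f, rfl⟩, fun f => Filter.Germ.coe_eq⟩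

theorem gul1_glue {A B : Type} [CommRing A] [CommRing B] (e : ℕ → A →+* B) (N : ℕ) (G : ℕ → B[X])
    (h1 : ∀ n, (G n).natDegree ≤ N) (h2 : ∀ i, ∃ a, ∀ n, e n a = (G n).coeff i) :
    ∃ G₀ : A[X], ∀ n, G₀.map (e n) = G n := by
  choose a ha using h2
  refine ⟨∑ i ∈ Finset.range (N + 1), Polynomial.monomial i (a i), fun n => ?_⟩
  simp only [Polynomial.map_sum, Polynomial.map_monomial, ha]
  exact ((G n).as_sum_range' _ (Nat.lt_succ_of_le (h1 n))).symm

theorem glue (B : ℕ) (G : ℕ → M[X][X]) (h1 : ∀ n, (G n).natDegree ≤ B)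
    (h2 : ∀ n i, ((G n).coeff i).natDegree ≤ B) :
    ∃ G₀ : (ℕ → M)[X][X], ∀ n, G₀.map (Polynomial.mapRingHom (ev M n)) = G n := by
  exact gul1_glue (fun n => Polynomial.mapRingHom (ev M n)) B G h1 fun i =>
    gul1_glue (ev M) B _ (fun n => h2 n i) fun _ => ⟨_, fun _ => rfl⟩

/-- finitely many coefficients decide the order -/
theorem Ult.order (h : Ult U π) {f : (ℕ → M)⟦X⟧} (h0 : PowerSeries.map π f ≠ 0) :
    ∀ᶠ n in (U : Filter ℕ), (PowerSeries.map (ev M n) f).order = (PowerSeries.map π f).order := by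
  rw [← PowerSeries.coe_toNat_order h0]
  obtain ⟨h1, h2⟩ := PowerSeries.order_eq_nat.1 (PowerSeries.coe_toNat_order h0).symm
  simp only [PowerSeries.order_eq_nat, PowerSeries.coeff_map] at h1 h2 ⊢
  exact (h.ne.1 h1).and ((Filter.eventually_all_finite (Set.finite_lt_nat _)).2
    fun i hi => (h.ker _).1 (h2 i hi))

theorem gul1_map {S : Type} [CommRing S] (φ : (ℕ → M) →+* S) (χ : M[X][X]) :
    (χ.map (Polynomial.mapRingHom (cst M))).map (Polynomial.mapRingHom φ) =
      χ.map (Polynomial.mapRingHom (φ.comp (cst M))) := by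
  rw [Polynomial.map_map, Polynomial.mapRingHom_comp]

theorem gul1_ev (n : ℕ) (χ : M[X][X]) :
    (χ.map (Polynomial.mapRingHom (cst M))).map (Polynomial.mapRingHom (ev M n)) = χ := by
  rw [gul1_map, show (ev M n).comp (cst M) = RingHom.id M from rfl, Polynomial.mapRingHom_id,
    Polynomial.map_id]

/-- roots lift to the components -/
theorem Ult.root (h : Ult U π) {χ p q : M[X][X]} {D : M[X]} (hm : χ.Monic)
    (hb : Polynomial.C D = p * χ + q * χ.derivative) {c : ℕ → M} {η' : M'⟦X⟧}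
    (hc : (D.map (π.comp (cst M))).eval (π c) ≠ 0)
    (hη : (χ.map (Polynomial.mapRingHom (π.comp (cst M)))).eval₂ (sh (π c)) η' = 0) :
    ∃ η : (ℕ → M)⟦X⟧, PowerSeries.map π η = η' ∧ ∀ᶠ n in (U : Filter ℕ),
      χ.eval₂ (sh (c n)) (PowerSeries.map (ev M n) η) = 0 := by
  obtain ⟨z, hz⟩ := h.surj (PowerSeries.constantCoeff η')
  have cc : ∀ {S : Type} [CommRing S] (φ : (ℕ → M) →+* S) (f : (ℕ → M)⟦X⟧),
      φ (PowerSeries.constantCoeff f) = PowerSeries.constantCoeff (PowerSeries.map φ f) :=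
    fun φ f => rfl
  have h1 : ∀ᶠ n in (U : Filter ℕ), D.eval (c n) ≠ 0 := by
    rw [← Polynomial.map_map, Polynomial.eval_map, Polynomial.eval₂_hom, h.ne] at hc
    refine hc.mono fun n hn e => hn ((Polynomial.eval₂_hom (ev M n) c).symm.trans ?_)
    rw [Polynomial.eval₂_map]
    exact e
  have h2 : ∀ᶠ n in (U : Filter ℕ), χ.eval₂ (Polynomial.evalRingHom (c n)) (z n) = 0 := by
    refine ((h.ker (PowerSeries.constantCoeff ((χ.map (Polynomial.mapRingHom (cst M))).eval₂ (sh c)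
      (PowerSeries.C z)))).1 ?_).mono fun n hn => ?_
    · rw [cc, map_eval_sh, gul1_map, cc_eval_sh, ← cc, PowerSeries.constantCoeff_C, hz,
        ← cc_eval_sh, hη, map_zero]
    · have := (cc (ev M n) _).symm.trans hn
      rwa [map_eval_sh, gul1_ev, cc_eval_sh, ← cc, PowerSeries.constantCoeff_C] at this
  have h3 : ∀ n, ∃ y : M⟦X⟧, D.eval (c n) ≠ 0 →
      χ.eval₂ (Polynomial.evalRingHom (c n)) (z n) = 0 →
        χ.eval₂ (sh (c n)) y = 0 ∧ PowerSeries.constantCoeff y = z n := fun n => by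
    by_contra hn
    push Not at hn
    obtain ⟨y, hy⟩ := root_ex hm hb (hn 0).1 (hn 0).2.1
    exact (hn y).2.2 hy.1 hy.2
  choose y hy using h3
  obtain ⟨η, e⟩ : ∃ η : (ℕ → M)⟦X⟧, ∀ n, PowerSeries.map (ev M n) η = y n :=
    ⟨PowerSeries.mk fun i n => PowerSeries.coeff i (y n), fun n => PowerSeries.ext fun i => by simp⟩
  have h4 := (h1.and h2).mono fun n hn => hy n hn.1 hn.2
  refine ⟨η, root_uniq (p := p.map (Polynomial.mapRingHom (π.comp (cst M))))
    (q := q.map (Polynomial.mapRingHom (π.comp (cst M)))) ?_ hc ?_ hη ?_,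
    h4.mono fun n hn => e n ▸ hn.1⟩
  · rw [Polynomial.derivative_map, ← Polynomial.map_mul, ← Polynomial.map_mul, ← Polynomial.map_add,
      ← hb, Polynomial.map_C, Polynomial.coe_mapRingHom]
  · rw [← gul1_map, ← map_eval_sh]
    ext i
    rw [PowerSeries.coeff_map, map_zero, h.ker]
    refine h4.mono fun n hn => (PowerSeries.coeff_map (ev M n) i _).symm.trans ?_
    rw [map_eval_sh, gul1_ev, e]
    exact (congrArg _ hn.1).trans (map_zero _)
  · rw [← cc, ← hz, ← sub_eq_zero, ← map_sub, h.ker]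
    exact h4.mono fun n hn => sub_eq_zero.2 ((cc (ev M n) η).trans (e n ▸ hn.2))

/-- lift the cofactor -/
theorem Ult.dvd (h : Ult U π) {χ : M[X][X]} {G : (ℕ → M)[X][X]}
    (hd : χ.map (Polynomial.mapRingHom (π.comp (cst M))) ∣ G.map (Polynomial.mapRingHom π)) :
    ∀ᶠ n in (U : Filter ℕ), χ ∣ G.map (Polynomial.mapRingHom (ev M n)) := by
  obtain ⟨Q, hQ⟩ := hd
  obtain ⟨Q₀, rfl⟩ := h.lift2 Q
  refine ((h.poly2 (G - χ.map (Polynomial.mapRingHom (cst M)) * Q₀)).1 ?_).mono fun n hn => ?_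
  · rw [Polynomial.map_sub, Polynomial.map_mul, gul1_map, hQ, sub_self]
  · rw [Polynomial.map_sub, Polynomial.map_mul, gul1_ev, sub_eq_zero] at hn
    exact ⟨_, hn⟩

end Pool.Agent.ZFy.GM
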