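import Pool.Agent.Lib.MP_751085_ag.ZF.G.Rg2
import Pool.Agent.Lib.MP_751085_ag.ZF.G.Bn3
import Pool.Agent.Lib.MP_751085_ag.ZF.G.Ul1

/-! Finiteness of Kummer classes. -/

namespace Pool.Agent.ZFy.GM

open Pool.Agent.ZCy
open scoped Classical WithZero Polynomial PowerSeries
open WithZero (exp)

variable {M M' F F' : Type} [Field M] [IsAlgClosed M] [Field M'] [Field F] [Field F']
  {U : Ultrafilter ℕ} {π : (ℕ → M) →+* M'} {a : M[X] →+* F} {a' : M'[X] →+* F'} {i : F →+* F'}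
  {θ : F} {χ : M[X][X]} {D Θ : M[X]} {l : ℕ}

omit [IsAlgClosed M] in
theorem gfg_ev (n : ℕ) : (ev M n).comp (cst M) = RingHom.id M := rfl

theorem ult_tw (hU : Ult U π) (h : Etl a θ χ D) (hc : CExt (π.comp (cst M)) a a' i) (hD : D ∣ Θ)
    {G : (ℕ → M)[X][X]}
    (hG : ∀ n, TW l a Θ ((G.map (Polynomial.mapRingHom (ev M n))).eval₂ a θ)) :
    TW l a' (Θ.map (π.comp (cst M))) ((G.map (Polynomial.mapRingHom π)).eval₂ a' (i θ)) := by
  have := hU.closed
  refine (tw_iff_pt (hc.etl' h) (Polynomial.map_dvd _ hD) l _).2 fun c' η' h1 h2 => ?_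
  obtain ⟨c, rfl⟩ := hU.surj c'
  obtain ⟨p, q, hb⟩ := h.bez
  obtain ⟨η, rfl, h3⟩ := hU.root h.monic hb
    (fun e => h1 (Polynomial.eval_eq_zero_of_dvd_of_eval_eq_zero (Polynomial.map_dvd _ hD) e)) h2
  rw [← map_eval_sh]
  by_cases h0 : PowerSeries.map π (G.eval₂ (sh c) η) = 0
  · simp [h0]
  rw [Polynomial.eval_map, ← Polynomial.hom_eval₂] at h1
  obtain ⟨n, ⟨k1, k2⟩, k3⟩ := ((h3.and (hU.ne.1 h1)).and (hU.order h0)).exists
  rw [← k3, map_eval_sh]
  refine (tw_iff_pt h hD l _).1 (hG n) _ _ (fun e => k2 ?_) k1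
  rw [← e]
  exact (Polynomial.hom_eval₂ Θ (cst M) (ev M n) c).trans
    (by rw [gfg_ev, Polynomial.eval₂_id])

theorem ult_pow (hU : Ult U π) (h : Etl a θ χ D) (hc : CExt (π.comp (cst M)) a a' i)
    {G : (ℕ → M)[X][X]} {u₀ : F} {z : F'}
    (e : (G.map (Polynomial.mapRingHom π)).eval₂ a' (i θ) = i u₀ * z ^ l) :
    ∀ᶠ n in (U : Filter ℕ), ∃ y : F,
      (G.map (Polynomial.mapRingHom (ev M n))).eval₂ a θ = u₀ * y ^ l := by
  have he := hc.etl' h
  obtain ⟨G₀, d₀, hd₀, e₀⟩ := h.gen u₀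
  obtain ⟨H', d', hd', e'⟩ := he.gen z
  obtain ⟨H, rfl⟩ := hU.lift2 H'
  obtain ⟨d, rfl⟩ := Polynomial.map_surjective π hU.surj d'
  have k := hU.dvd (χ := χ) (G := G * Polynomial.C (d₀.map (cst M)) * Polynomial.C d ^ l -
    G₀.map (Polynomial.mapRingHom (cst M)) * H ^ l) <| (he.ker _).1 <| by
      have := congrArg i e₀
      rw [map_mul, hc.cmp, hc.eval₂] at this
      simp only [Polynomial.map_sub, Polynomial.map_mul, Polynomial.map_pow, Polynomial.map_C,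
        Polynomial.map_map, Polynomial.mapRingHom_comp, Polynomial.coe_mapRingHom,
        Polynomial.eval₂_sub, Polynomial.eval₂_mul, Polynomial.eval₂_pow, Polynomial.eval₂_C, e,
        ← this, ← e']
      ring
  filter_upwards [k, Ultrafilter.eventually_not.2 (mt (hU.poly d).2 hd')] with n h1 h2
  have h3 := (h.ker _).2 h1
  simp only [Polynomial.map_sub, Polynomial.map_mul, Polynomial.map_pow, Polynomial.map_C,
    Polynomial.map_map, Polynomial.mapRingHom_comp, Polynomial.coe_mapRingHom, gfg_ev,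
    Polynomial.mapRingHom_id, Polynomial.map_id, Polynomial.eval₂_sub, Polynomial.eval₂_mul,
    Polynomial.eval₂_pow, Polynomial.eval₂_C, ← e₀] at h3
  have k1 : a d₀ ≠ 0 := by rwa [map_ne_zero_iff _ h.inj]
  have k2 : a (d.map (ev M n)) ≠ 0 := by rwa [map_ne_zero_iff _ h.inj]
  refine ⟨(H.map (Polynomial.mapRingHom (ev M n))).eval₂ a θ / a (d.map (ev M n)), ?_⟩
  rw [div_pow, ← mul_div_assoc, eq_div_iff (pow_ne_zero _ k2)]
  exact mul_left_cancel₀ k1 (by linear_combination h3)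

/-- There are finitely many Kummer classes. -/
theorem fin_tw (h : Etl a θ χ D) (hΘ : Θ ≠ 0) (hl : l.Prime) (h0 : (l : M) ≠ 0) :
    ∃ S : Finset F, ∀ u, TW l a Θ u → ∃ u' ∈ S, ∃ z, u = u' * z ^ l := by
  by_contra hn
  have hD : D ∣ Θ * D := dvd_mul_left _ _
  obtain ⟨u, h1, h2⟩ := exists_seq_of_forall_finset_exists (fun u : F => u ≠ 0 ∧ TW l a Θ u)
    (fun x y => ∀ z, y ≠ x * z ^ l) fun s _ => by
      by_contra hs
      refine hn ⟨insert 0 s, fun u hu => ?_⟩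
      by_cases h0 : u = 0
      · exact ⟨0, Finset.mem_insert_self _ _, 1, by simp [h0]⟩
      push Not at hs
      obtain ⟨x, hx, z, e⟩ := hs u ⟨h0, hu⟩
      exact ⟨x, Finset.mem_insert_of_mem hx, z, e⟩
  obtain ⟨B, hB⟩ := bnd h (mul_ne_zero hΘ h.ne) hD hl.pos
  choose G y g1 g2 g3 g4 using fun n => hB (u n) (h1 n).1 ((h1 n).2.mono D)
  obtain ⟨G₀, hG⟩ := glue B G g1 g2
  obtain ⟨M', _, π, hU⟩ := exists_ult M (Filter.hyperfilter ℕ)
  have := hU.closed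
  obtain ⟨F', _, a', i, hc⟩ := exists_cext (π.comp (cst M)) h
  have g5 : ∀ n, (G n).eval₂ a θ = a D * y n ^ l * (u n)⁻¹ := fun n => by
    rw [← g4, mul_inv_cancel_right₀ (h1 n).1]
  obtain ⟨u₀, z, e⟩ := rigid h hc hl h0 (mul_ne_zero hΘ h.ne) <| ult_tw hU h hc hD (G := G₀)
    fun n => by
      rw [hG, g5]
      exact ((tw_dvd l hD).mul (tw_pow l _)).mul ((h1 n).2.mono D).inv
  have k0 : Set.Infinite _ := fun k =>
    Filter.notMem_hyperfilter_of_finite k (ult_pow hU h hc e)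
  obtain ⟨m, w, hw⟩ := k0.nonempty
  obtain ⟨n, ⟨w', hw'⟩, hlt⟩ := k0.exists_gt m
  have k : a D ≠ 0 := (map_ne_zero_iff _ h.inj).2 h.ne
  have k1 := g4 m
  have k2 := g4 n
  rw [← hG, hw] at k1
  rw [← hG, hw'] at k2
  have k3 : u₀ * w' ^ l ≠ 0 := left_ne_zero_of_mul (k2 ▸ mul_ne_zero k (pow_ne_zero _ (g3 n)))
  refine h2 m n hlt (y n * w / (y m * w')) (mul_left_cancel₀ k3 ?_)
  have k4 := right_ne_zero_of_mul k3
  have k5 := pow_ne_zero l (g3 m)
  rw [k2, div_pow, mul_pow, mul_pow]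
  field_simp
  linear_combination -y n ^ l * k1

end Pool.Agent.ZFy.GM
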