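import Pool.Agent.Lib.MP_751085_ag.ZF.G.Cs3
import Pool.Agent.Lib.MP_751085_ag.ZF.G.Pt0

/-! Bounded representatives: counting zeros. -/

namespace Pool.Agent.ZFy.GM

open Pool.Agent.ZCy
open scoped Classical WithZero Polynomial PowerSeries
open WithZero (exp)

variable {K F : Type} [Field K] [Field F] {a : K[X] →+* F} {θ : F} {χ G : K[X][X]} {D Θ : K[X]}
  {m : ℕ}

/-- the resultant -/
theorem exists_res {A : Type} [CommRing A] {χ : A[X]} (hm : χ.Monic) (G : A[X]) : ∃ N : A,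
    ∀ (L : Type) [CommRing L] [IsDomain L] (b : A →+* L), (χ.map b).Splits →
      b N = ((χ.map b).roots.map fun z => G.eval₂ b z).prod := by
  refine ⟨Polynomial.resultant χ G χ.natDegree G.natDegree, fun L _ _ b hs => ?_⟩
  rw [← Polynomial.resultant_map_map, ← hm.natDegree_map b,
    Polynomial.resultant_eq_prod_eval _ _ _ Polynomial.natDegree_map_le hs, (hm.map b).leadingCoeff,
    one_pow, one_mul]
  exact congrArg _ (Multiset.map_congr rfl fun z _ => Polynomial.eval_map b z)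

/-- the degree of the norm -/
theorem res_deg (h : Etl a θ χ D) (h0 : G.eval₂ a θ ≠ 0) (H : ∀ w : Vl F, Hor a w →
    1 < w (a Polynomial.X) → w (G.eval₂ a θ) ≤ w (a Polynomial.X) ^ m) :
    ∃ N : K[X], N ≠ 0 ∧ N.natDegree ≤ χ.natDegree * m ∧
      ∀ (L : Type) [CommRing L] [IsDomain L] (b : K[X] →+* L), (χ.map b).Splits →
        b N = ((χ.map b).roots.map fun z => G.eval₂ b z).prod := by
  obtain ⟨N, hN⟩ := exists_res h.monic G
  have hα := isFr_alg K[X] (Fr K[X])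
  obtain ⟨v, v1, v2⟩ := exists_vinf hα
  let L := (χ.map (algebraMap K[X] (Fr K[X]))).SplittingField
  obtain ⟨w, hw⟩ := exists_over (E := L) v
  let b : K[X] →+* L := tE L (algebraMap K[X] (Fr K[X]))
  have hb : Function.Injective b := (algebraMap (Fr K[X]) L).injective.comp hα.1
  have hs : (χ.map b).Splits := by
    rw [← Polynomial.map_map]
    exact Polynomial.SplittingField.splits _
  have w1 : Hor b w := fun r hr => (hw.eq_one _).2 (v1 r hr)
  have w2 : 1 < w (b Polynomial.X) := not_le.1 fun e => not_le.2 v2 ((hw _).1 e)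
  have key : ∀ z ∈ (χ.map b).roots,
      G.eval₂ b z ≠ 0 ∧ w (G.eval₂ b z) ≤ w (b Polynomial.X) ^ m := fun z hz => by
    obtain ⟨j, j1, rfl⟩ := h.lift hb (z := z)
      ((Polynomial.eval_map b z).symm.trans (Polynomial.isRoot_of_mem_roots hz))
    have e : G.eval₂ b (j θ) = j (G.eval₂ a θ) := by
      rw [Polynomial.hom_eval₂, show j.comp a = b from RingHom.ext j1]
    rw [e, ← j1]
    exact ⟨(map_ne_zero j).2 h0, H (w.comap j) (fun r hr => (congrArg w (j1 _)).trans (w1 r hr))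
      (w2.trans_eq (congrArg w (j1 _)).symm)⟩
  refine ⟨N, fun e => ?_, w1.deg_le w2 ?_, hN⟩
  · have h1 := hN L b hs
    rw [e, map_zero, eq_comm, Multiset.prod_eq_zero_iff, Multiset.mem_map] at h1
    obtain ⟨z, hz, h1⟩ := h1
    exact (key z hz).1 h1
  · rw [hN L b hs, map_multiset_prod, mul_comm, pow_mul, ← h.monic.natDegree_map b,
      hs.natDegree_eq_card_roots, ← Multiset.card_map fun z => G.eval₂ b z, ← Multiset.card_map w]
    refine Multiset.prod_le_pow_card _ _ fun x hx => ?_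
    obtain ⟨y, hy, rfl⟩ := Multiset.mem_map.1 hx
    obtain ⟨z, hz, rfl⟩ := Multiset.mem_map.1 hy
    exact (key z hz).2

theorem sum_order_le {s : Multiset K⟦X⟧} (g : K⟦X⟧ → K⟦X⟧) (h0 : (s.map g).prod ≠ 0)
    (T : Finset K⟦X⟧) (hT : ∀ η ∈ T, η ∈ s) :
    ∑ η ∈ T, (g η).order.toNat ≤ (s.map g).prod.order.toNat := by
  obtain ⟨u, rfl⟩ := Multiset.le_iff_exists_add.1
    ((Multiset.le_iff_subset T.nodup).2 fun η h => hT η h)
  rw [Multiset.map_add, Multiset.prod_add] at h0 ⊢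
  have h1 : (T.val.map g).prod = ∏ η ∈ T, g η := rfl
  rw [h1] at h0 ⊢
  rw [← ENat.natCast_le_natCast, PowerSeries.coe_toNat_order h0, PowerSeries.order_mul,
    PowerSeries.order_prod, Nat.cast_sum]
  exact le_trans (Finset.sum_le_sum fun η _ => ENat.natCast_toNat_le_self _) le_self_add

theorem sum_mult_le (N : K[X]) (S : Finset K) : ∑ c ∈ S, N.rootMultiplicity c ≤ N.natDegree := by
  simp only [← Polynomial.count_roots]
  refine le_trans ?_ N.card_roots'
  rw [← Multiset.toFinset_sum_count_eq]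
  exact Finset.sum_le_sum_of_ne_zero fun c _ h =>
    Multiset.mem_toFinset.2 (Multiset.count_ne_zero.1 h)

/-- counting zeros -/
theorem cnt [IsAlgClosed K] (h : Etl a θ χ D) (hD : D ∣ Θ) (h0 : G.eval₂ a θ ≠ 0)
    (H : ∀ w : Vl F, Hor a w → 1 < w (a Polynomial.X) →
      w (G.eval₂ a θ) ≤ w (a Polynomial.X) ^ m) (T : Finset (K × K⟦X⟧))
    (hT : ∀ z ∈ T, Θ.eval z.1 ≠ 0 ∧ χ.eval₂ (sh z.1) z.2 = 0) :
    ∑ z ∈ T, (G.eval₂ (sh z.1) z.2).order.toNat ≤ χ.natDegree * m := by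
  obtain ⟨N, h1, h2, h3⟩ := res_deg h h0 H
  obtain ⟨p, q, hb⟩ := h.bez
  rw [← Finset.sum_fiberwise_of_maps_to (t := T.image Prod.fst) (g := Prod.fst)
    fun z hz => Finset.mem_image_of_mem _ hz]
  refine le_trans (Finset.sum_le_sum fun c hc => ?_) ((sum_mult_le N _).trans h2)
  obtain ⟨z₀, hz₀, rfl⟩ := Finset.mem_image.1 hc
  have hs := split_sh h.monic hb fun e =>
    (hT z₀ hz₀).1 (Polynomial.eval_eq_zero_of_dvd_of_eval_eq_zero hD e)
  have h4 := h3 _ _ hs
  rw [← order_sh, h4]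
  refine le_trans (le_of_eq ?_) (sum_order_le (fun η => G.eval₂ (sh z₀.1) η)
    (h4 ▸ (map_ne_zero_iff _ (sh_inj _)).2 h1)
    ((T.filter fun z => z.1 = z₀.1).image Prod.snd) fun η hη => ?_)
  · rw [Finset.sum_image fun x hx y hy e => Prod.ext
      ((Finset.mem_filter.1 hx).2.trans (Finset.mem_filter.1 hy).2.symm) e]
    exact Finset.sum_congr rfl fun z hz => by rw [(Finset.mem_filter.1 hz).2]
  · obtain ⟨z, hz, rfl⟩ := Finset.mem_image.1 hη
    obtain ⟨h5, h6⟩ := Finset.mem_filter.1 hz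
    rw [Polynomial.mem_roots (h.monic.map _).ne_zero, Polynomial.IsRoot, Polynomial.eval_map, ← h6]
    exact (hT z h5).2

theorem fin_pt [IsAlgClosed K] (h : Etl a θ χ D) (hD : D ∣ Θ) (h0 : G.eval₂ a θ ≠ 0)
    (H : ∀ w : Vl F, Hor a w → 1 < w (a Polynomial.X) →
      w (G.eval₂ a θ) ≤ w (a Polynomial.X) ^ m) :
    {z : K × K⟦X⟧ | Θ.eval z.1 ≠ 0 ∧ χ.eval₂ (sh z.1) z.2 = 0 ∧
      (G.eval₂ (sh z.1) z.2).order.toNat ≠ 0}.Finite := by
  by_contra hi
  obtain ⟨T, h1, h2⟩ := Set.Infinite.exists_subset_card_eq hi (χ.natDegree * m + 1)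
  have h3 := cnt h hD h0 H T fun z hz => ⟨(h1 hz).1, (h1 hz).2.1⟩
  have h4 := Finset.card_nsmul_le_sum T (fun z => (G.eval₂ (sh z.1) z.2).order.toNat) 1
    fun z hz => Nat.one_le_iff_ne_zero.2 (h1 hz).2.2
  rw [h2, smul_eq_mul] at h4
  omega

end Pool.Agent.ZFy.GM
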