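import Pool.Agent.Lib.MP_751085_ag.ZF.G.Et0

/-! Good models: bounds for the coordinates in a power basis. -/

namespace Pool.Agent.ZFy.GM

open Pool.Agent.ZCy
open scoped Classical WithZero Polynomial PowerSeries
open WithZero (exp)

variable {A K F : Type} [CommRing A] [Field K] [Field F] {a : A →+* F} {θ : F} {χ : A[X]} {D : A}

/-- Interpolation: the roots are simple since `D = q(z) χ'(z)`; both sides have degree less than
the number of roots and agree at each root. -/
theorem lag {N : Type} [Field N] {χ p q G : N[X]} {D : N} (hm : χ.Monic) (hs : χ.Splits)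
    (hb : Polynomial.C D = p * χ + q * χ.derivative) (hD : D ≠ 0) (hG : G.degree < χ.natDegree) :
    Polynomial.C D * G = (χ.roots.map fun z => Polynomial.C (G.eval z * q.eval z) *
      (χ /ₘ (Polynomial.X - Polynomial.C z))).sum := by
  have hsep : χ.Separable := ⟨Polynomial.C D⁻¹ * p, Polynomial.C D⁻¹ * q, by
    rw [mul_assoc, mul_assoc, ← mul_add, ← hb, ← map_mul, inv_mul_cancel₀ hD, map_one]⟩
  have hn := Polynomial.nodup_roots hsep
  have hc : χ.roots.toFinset.card = χ.natDegree := by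
    rw [Multiset.toFinset_card_of_nodup hn, hs.natDegree_eq_card_roots]
  have e : ∀ f : N → N[X], (χ.roots.map f).sum = ∑ z ∈ χ.roots.toFinset, f z := fun f => by
    rw [Finset.sum, Multiset.toFinset_val, hn.dedup]
  have hr : ∀ z ∈ χ.roots.toFinset, χ.eval z = 0 := fun z hz =>
    (Polynomial.mem_roots hm.ne_zero).1 (Multiset.mem_toFinset.1 hz)
  rw [e]
  refine Polynomial.eq_of_degrees_lt_of_eval_finset_eq χ.roots.toFinset ?_ ?_ fun y hy => ?_
  · rwa [hc, Polynomial.degree_C_mul hD]
  · rw [hc, ← Polynomial.mem_degreeLT]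
    refine Submodule.sum_mem _ fun z _ => ?_
    rw [← Polynomial.smul_eq_C_mul]
    refine Submodule.smul_mem _ _ (Polynomial.mem_degreeLT.2 ?_)
    rw [← Polynomial.degree_eq_natDegree hm.ne_zero]
    exact Polynomial.degree_divByMonic_lt _ _ hm.ne_zero (by simp)
  · rw [Polynomial.eval_finsetSum, Finset.sum_eq_single y _ fun h => (h hy).elim]
    · have h1 := congrArg (Polynomial.eval y)
        (Polynomial.divByMonic_add_X_sub_C_mul_derivative_divByMonic_eq_derivative χ y)
      have h2 := congrArg (Polynomial.eval y) hb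
      simp only [Polynomial.eval_add, Polynomial.eval_mul, Polynomial.eval_sub, Polynomial.eval_X,
        Polynomial.eval_C, sub_self, zero_mul, add_zero, hr y hy, mul_zero, zero_add] at h1 h2 ⊢
      rw [h1, h2]
      ring
    · intro z hz hne
      have h1 := congrArg (Polynomial.eval y)
        (Polynomial.mul_divByMonic_eq_iff_isRoot.2 (hr z hz))
      simp only [Polynomial.eval_mul, Polynomial.eval_sub, Polynomial.eval_X,
        Polynomial.eval_C, hr y hy] at h1
      rw [Polynomial.eval_mul, (mul_eq_zero.1 h1).resolve_left (sub_ne_zero.2 hne.symm), mul_zero]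

theorem glag_root {w : Vl F} {χ : F[X]} (hm : χ.Monic) (h1 : ∀ i, w (χ.coeff i) ≤ 1) {z : F}
    (hz : χ.eval z = 0) : w z ≤ 1 := by
  obtain ⟨P, hP, -, hP'⟩ := Polynomial.lifts_and_degree_eq_and_monic
    ((Polynomial.lifts_iff_coeff_lifts (f := w.integer.subtype) χ).2 fun i => ⟨⟨_, h1 i⟩, rfl⟩) hm
  exact le_one_of_int (f := w.integer.subtype) (fun a => a.2)
    ⟨P, hP', by rw [← Polynomial.eval_map, hP, hz]⟩

theorem glag_eval {w : Vl F} {G : A[X]} (h1 : ∀ i, w (a (G.coeff i)) ≤ 1) {z : F} (hz : w z ≤ 1) :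
    w (G.eval₂ a z) ≤ 1 := by
  rw [Polynomial.eval₂_eq_sum_range]
  refine w.map_sum_le fun i _ => ?_
  rw [map_mul, map_pow]
  exact mul_le_one' (h1 i) (pow_le_one' hz i)

/-- Take `N` a splitting field, `w` from `exists_over`. Roots are integral, so `q(z)` and the
coefficients of `χ / (X - z)` (a product of linear factors) have value at most one; use `lag`. -/
theorem crd (v : Vl K) {χ p q G : K[X]} {D c : K} (hm : χ.Monic)
    (hb : Polynomial.C D = p * χ + q * χ.derivative) (hD : D ≠ 0) (h1 : ∀ i, v (χ.coeff i) ≤ 1)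
    (h2 : ∀ i, v (q.coeff i) ≤ 1) (hG : G.degree < χ.natDegree)
    (H : ∀ (N : Type) [Field N] [Algebra K N] [FiniteDimensional K N] (w : Vl N) (z : N),
      Over (algebraMap K N) v w → Polynomial.aeval z χ = 0 →
        w (Polynomial.aeval z G) ≤ w (algebraMap K N c)) (i : ℕ) : v (D * G.coeff i) ≤ v c := by
  obtain ⟨w, hw⟩ := exists_over (E := χ.SplittingField) v
  have hm' := hm.map (algebraMap K χ.SplittingField)
  have h3 := lag (p := p.map (algebraMap K _)) (q := q.map (algebraMap K _))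
    (G := G.map (algebraMap K _)) (D := algebraMap K _ D) hm' (Polynomial.SplittingField.splits χ)
    (by rw [Polynomial.derivative_map, ← Polynomial.map_mul, ← Polynomial.map_mul,
      ← Polynomial.map_add, ← hb, Polynomial.map_C]) ((map_ne_zero _).2 hD)
    (by rwa [Polynomial.degree_map, Polynomial.natDegree_map])
  have h4 : ∀ i, w ((χ.map (algebraMap K χ.SplittingField)).coeff i) ≤ 1 := fun i => by
    rw [Polynomial.coeff_map]
    exact (hw _).2 (h1 i)
  rw [← hw.le_iff, map_mul (algebraMap K _), ← Polynomial.coeff_map, ← Polynomial.coeff_C_mul, h3]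
  refine Multiset.sum_induction
    (fun f : χ.SplittingField[X] => w (f.coeff i) ≤ w (algebraMap K _ c)) _
    (fun f g hf hg => by rw [Polynomial.coeff_add]; exact w.map_add_le hf hg) (by simp) fun f hf => ?_
  obtain ⟨z, hz, rfl⟩ := Multiset.mem_map.1 hf
  have h5 : (χ.map (algebraMap K χ.SplittingField)).eval z = 0 :=
    (Polynomial.mem_roots hm'.ne_zero).1 hz
  have h6 := glag_root hm' h4 h5
  rw [Polynomial.coeff_C_mul, map_mul, map_mul, mul_assoc, Polynomial.eval_map_algebraMap]
  refine (mul_le_of_le_one_right' (mul_le_one' ?_ ?_)).trans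
    (H _ w z hw (by rwa [← Polynomial.eval_map_algebraMap]))
  · rw [Polynomial.eval_map]
    exact glag_eval (fun i => (hw _).2 (h2 i)) h6
  · rw [Polynomial.coeff_divByMonic_X_sub_C]
    refine w.map_sum_le fun j _ => ?_
    rw [map_mul, map_pow]
    exact mul_le_one' (pow_le_one' h6 _) (h4 j)

/-- A root `z` gives `j : F → N` by `Etl.lift`; use `w.comap j`. -/
theorem Etl.crd [Algebra K F] {α : A →+* K} (hα : IsFr α) (h : Etl (tE F α) θ χ D) {v : Vl K}
    (hv : ∀ p, v (α p) ≤ 1) {G : K[X]} (hG : G.degree < χ.natDegree) {c : K}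
    (H : ∀ w : Vl F, Over (algebraMap K F) v w →
      w (Polynomial.aeval θ G) ≤ w (algebraMap K F c)) (i : ℕ) : v (α D * G.coeff i) ≤ v c := by
  obtain ⟨p, q, hb⟩ := h.bez
  refine GM.crd v (χ := χ.map α) (p := p.map α) (q := q.map α) (h.monic.map α)
    (by rw [Polynomial.derivative_map, ← Polynomial.map_mul, ← Polynomial.map_mul,
      ← Polynomial.map_add, ← hb, Polynomial.map_C]) (hα.vfrc_ne h.ne)
    (fun i => by rw [Polynomial.coeff_map]; exact hv _)
    (fun i => by rw [Polynomial.coeff_map]; exact hv _) (by rwa [h.monic.natDegree_map])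
    (fun N _ _ _ w z hw hz => ?_) i
  obtain ⟨j, hj, rfl⟩ := h.lift (b := tE N α) ((algebraMap K N).injective.comp hα.1) (z := z)
    (by rwa [Polynomial.aeval_def, Polynomial.eval₂_map] at hz)
  have e : j.comp (algebraMap K F) = algebraMap K N := hα.hom_ext hj
  have e' : ∀ x, j (algebraMap K F x) = algebraMap K N x := fun x => RingHom.congr_fun e x
  have h1 := H (w.comap j) fun x => by rw [Valuation.comap_apply, e']; exact hw x
  rwa [Valuation.comap_apply, Valuation.comap_apply, e', Polynomial.aeval_def,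
    Polynomial.hom_eval₂, e, ← Polynomial.aeval_def] at h1

theorem glag_lift [Algebra K F] {α : A →+* K} {G : K[X]} {n : A}
    (h : ∀ i, ∃ b, α b = α n * G.coeff i) (θ : F) : ∃ G' : A[X], G'.degree ≤ G.degree ∧
      tE F α n * Polynomial.aeval θ G = G'.eval₂ (tE F α) θ := by
  obtain ⟨G', h1, h2⟩ := Polynomial.exists_degree_eq_of_mem_lifts
    ((Polynomial.lifts_iff_coeff_lifts (f := α) (Polynomial.C (α n) * G)).2 fun i => by
      rw [Polynomial.coeff_C_mul]; exact h i)
  refine ⟨G', ?_, ?_⟩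
  · rw [h2, ← Polynomial.smul_eq_C_mul]
    exact Polynomial.degree_smul_le _ _
  · rw [← Polynomial.eval₂_map, h1, ← Polynomial.aeval_def, map_mul, Polynomial.aeval_C]
    rfl

/-- `Etl.coord`, `Etl.crd` at every prime, `hartogs`. -/
theorem Etl.cond [IsDomain A] [UniqueFactorizationMonoid A] (h : Etl a θ χ D) {x : F}
    (hx : x ∈ IntOff a 1) :
    ∃ G : A[X], G.degree < χ.natDegree ∧ a D * x = G.eval₂ a θ := by
  obtain ⟨_, rfl⟩ := exists_frac h.inj
  have hα := isFr_alg A (Fr A)
  obtain ⟨G, hG, rfl⟩ := h.coord hα x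
  obtain ⟨G', h1, h2⟩ := glag_lift (α := algebraMap A (Fr A)) (G := G) (n := D) (fun i => by
    obtain ⟨m, b, hb⟩ := hartogs hα (Θ := 1) (x := algebraMap A (Fr A) D * G.coeff i)
      fun P v hP hn hv => (h.crd hα hv.1 hG (c := 1) (fun w hw => by
        rw [map_one, map_one]
        exact hx P w hP hn ((hv.over hα hP).2 hw)) i).trans v.map_one.le
    exact ⟨b, by rw [← hb, map_one, one_pow, mul_one]⟩) θ
  exact ⟨G', h1.trans_lt hG, h2⟩

/-- `Etl.crd` at `P`, then `Cen.le_one_iff` for each coefficient. -/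
theorem Etl.den [IsDomain A] [UniqueFactorizationMonoid A] (h : Etl a θ χ D) {P : A} (hP : Prime P)
    (hD : ¬P ∣ D) {x : F} (hx : ∀ w : Vl F, Cen a w P → w x ≤ 1) :
    ∃ (n : A) (G : A[X]), ¬P ∣ n ∧ G.degree < χ.natDegree ∧ a n * x = G.eval₂ a θ := by
  obtain ⟨_, rfl⟩ := exists_frac h.inj
  have hα := isFr_alg A (Fr A)
  obtain ⟨G, hG, rfl⟩ := h.coord hα x
  obtain ⟨v, hv, -⟩ := exists_vcen hα hP
  choose s t ht hst using fun i => (hv.le_one_iff hα hP _).1
    ((h.crd hα hv.1 hG (c := 1) (fun w hw => by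
      rw [map_one, map_one]
      exact hx w ((hv.over hα hP).2 hw)) i).trans v.map_one.le)
  obtain ⟨G', h1, h2⟩ := glag_lift (α := algebraMap A (Fr A)) (G := G)
    (n := D * ∏ i ∈ G.support, t i) (fun i => by
      by_cases hi : i ∈ G.support
      · refine ⟨s i * ∏ j ∈ G.support.erase i, t j, ?_⟩
        rw [← Finset.mul_prod_erase _ _ hi, map_mul, map_mul, map_mul, ← hst]
        ring
      · exact ⟨0, by rw [Polynomial.notMem_support_iff.1 hi, map_zero, mul_zero]⟩) θ
  refine ⟨_, G', fun hd => (hP.dvd_or_dvd hd).elim hD fun hd' => ?_, h1.trans_lt hG, h2⟩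
  obtain ⟨i, -, hi⟩ := hP.exists_mem_finset_dvd hd'
  exact ht i hi

theorem Etl.le_one (h : Etl a θ χ D) {w : Vl F} (hw : ∀ p, w (a p) ≤ 1) (G : A[X]) :
    w (G.eval₂ a θ) ≤ 1 :=
  glag_eval (fun _ => hw _) (le_one_of_int hw ⟨χ, h.monic, h.root⟩)

/-- some prolongation of the valuation of a prime exists -/
theorem Etl.exists_cen [IsDomain A] [WfDvdMonoid A] (h : Etl a θ χ D) {P : A} (hP : Prime P) :
    ∃ w : Vl F, Nrm w ∧ Cen a w P := by
  obtain ⟨_, rfl⟩ := exists_frac h.inj
  have hα := isFr_alg A (Fr A)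
  have := (h.alg hα).1
  exact exists_cen_ext hα hP

end Pool.Agent.ZFy.GM
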