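import Pool.Agent.Lib.MP_751085_ag.ZF.G.Ps0
import Pool.Agent.Lib.MP_751085_ag.ZF.G.Sub
import Pool.Agent.Lib.MP_751085_ag.ZF.G.Rev
import Pool.Agent.Lib.MP_751085_ag.ZC.V.Ta0

/-! Good models: functions that are regular on all discs are polynomials. -/

namespace Pool.Agent.ZFy.GM

open Pool.Agent.ZCy
open scoped Classical WithZero Polynomial PowerSeries
open WithZero (exp)
open IsLocalRing

theorem gpoly_uniq {A K : Type} [CommRing A] [WfDvdMonoid A] [Field K] {α : A →+* K} {P : A}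
    {v v' : Vl K} (hα : IsFr α) (hP : Prime P) (h : Cn1 α v P) (h' : Cn1 α v' P) (x : K) :
    v' x = v x := by
  by_cases hx : x = 0
  · rw [hx, map_zero, map_zero]
  obtain ⟨n, a, b, h1, h2, e⟩ := h.1.exists_zpow hα hP hx
  have key : ∀ {w : Vl K}, Cn1 α w P → w x = exp (-1) ^ n := fun {w} hw => by
    have e' := congrArg w e
    rwa [map_mul, map_mul, (hw.1.eq_one a).2 h1, (hw.1.eq_one b).2 h2, mul_one, mul_one,
      map_zpow₀, hw.2] at e'
  rw [key h, key h']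

theorem gpoly_red {R S : Type} [CommRing R] [CommRing S] (ρ : R →+* S) (t : R) (p : R[X]) :
    PowerSeries.map ρ (sh t p) = sh (ρ t) (p.map ρ) := by
  have : (PowerSeries.map ρ).comp (sh t) = (sh (ρ t)).comp (Polynomial.mapRingHom ρ) :=
    Polynomial.ringHom_ext (fun a => by simp [sbs_C]) (by simp [sbs_X])
  exact DFunLike.congr_fun this p

variable {R K : Type} [CommRing R] [IsDomain R] [CDVR R] [IsAlgClosed (ResidueField R)] [Field K]
  {α : R[X] →+* K} {π : R} {V : Vl (Fr R⟦X⟧)} {v : Vl K} {t : ResidueField R → R}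
  {b : ResidueField R → K →+* Fr R⟦X⟧} {bi : K →+* Fr R⟦X⟧} {m : ℕ}

omit [IsAlgClosed (ResidueField R)] in
theorem pv_comap (hα : IsFr α) (hπ : Irreducible π) (hV : Cn1 (fr R) V (PowerSeries.C π))
    (hv : Cn1 α v (Polynomial.C π)) {s : R} {b : K →+* Fr R⟦X⟧} (hb : ∀ p, b (α p) = fr R (sh s p))
    (x : K) : V (b x) = v x :=
  gpoly_uniq (v' := V.comap b) hα (Polynomial.prime_C_iff.2 hπ.prime) hv
    ⟨⟨fun p => by rw [Valuation.comap_apply, hb]; exact hV.1.1 _, fun p => by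
      rw [Valuation.comap_apply, hb, hV.1.2, C_dvd_sh]⟩, by
      rw [Valuation.comap_apply, hb, sbs_C]; exact hV.2⟩ x

omit [IsAlgClosed (ResidueField R)] in
theorem gpoly_inf (hα : IsFr α) (hπ : Irreducible π) (hV : Cn1 (fr R) V (PowerSeries.C π))
    (hv : Cn1 α v (Polynomial.C π)) (hi : ∀ p, bi (rvs α p) = fr R (sh 0 p)) (x : K) :
    V (bi x) = v x :=
  pv_comap (isFr_rvs hα) hπ hV ⟨(cen_rvs hα.1 hπ.prime).2 hv.1, by rw [rvs_C]; exact hv.2⟩ hi x

omit [CDVR R] [IsAlgClosed (ResidueField R)] in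
theorem gpoly_refl (hα : IsFr α) (hi : ∀ p, bi (rvs α p) = fr R (sh 0 p)) {p : R[X]} {n : ℕ}
    (hn : p.natDegree ≤ n) :
    bi (α p) * fr R PowerSeries.X ^ n = fr R (p.reflect n : R[X]) := by
  have h0 : α Polynomial.X ≠ 0 := (map_ne_zero_iff α hα.1).2 Polynomial.X_ne_zero
  have h1 := hi Polynomial.X
  rw [sh_zero, Polynomial.coe_X, rvs_X] at h1
  rw [rvs_reflect h0 hn, map_mul, hi, sh_zero, map_pow, mul_assoc, ← mul_pow, ← h1, ← map_mul,
    mul_inv_cancel₀ h0, map_one, one_pow, mul_one]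

omit [CDVR R] [IsAlgClosed (ResidueField R)] in
theorem gpoly_le (hV : Cn1 (fr R) V (PowerSeries.C π)) {x : Fr R⟦X⟧} {g : R⟦X⟧}
    (h : V (x - fr R g) ≤ 1) : V x ≤ 1 := by
  rw [← sub_add_cancel x (fr R g)]
  exact V.map_add_le h (hV.1.1 g)

theorem poly_one (hα : IsFr α) (hπ : Irreducible π) (hV : Cn1 (fr R) V (PowerSeries.C π))
    (hv : Cn1 α v (Polynomial.C π)) (ht : ∀ c, residue R (t c) = c)
    (hb : ∀ c p, b c (α p) = fr R (sh (t c) p)) (hi : ∀ p, bi (rvs α p) = fr R (sh 0 p)) {f : K}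
    (h1 : ∀ c, ∃ g, V (b c f - fr R g) < 1)
    (h2 : ∃ g, V (bi f * fr R PowerSeries.X ^ m - fr R g) < 1) :
    ∃ p : R[X], p.natDegree ≤ m ∧ v (f - α p) < 1 := by
  have hf : v f ≤ 1 := by
    obtain ⟨g, hg⟩ := h1 0
    rw [← pv_comap hα hπ hV hv (hb 0)]
    exact gpoly_le hV hg.le
  obtain ⟨a, q, hq, e⟩ := (hv.1.le_one_iff hα (Polynomial.prime_C_iff.2 hπ.prime) f).1 hf
  obtain ⟨r, hr⟩ : q.map (residue R) ∣ a.map (residue R) := by
    refine dvd_of_sbs_dvd one_ne_zero (mt (poly_red_eq_zero hπ q).1 hq) fun c => ?_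
    obtain ⟨g, hg⟩ := h1 c
    have e1 : fr R (sh (t c) a - sh (t c) q * g) = (b c f - fr R g) * fr R (sh (t c) q) := by
      rw [map_sub, map_mul, ← hb, ← e, map_mul, hb]
      ring
    have e2 := (red_eq_zero hπ _).2 ((hV.1.2 _).1 (by
      rw [e1, map_mul]
      exact (mul_le_of_le_one_right' (hV.1.1 _)).trans_lt hg))
    rw [map_sub, map_mul, gpoly_red, gpoly_red, ht, sub_eq_zero] at e2
    exact ⟨_, e2⟩
  obtain ⟨p, rfl, hp⟩ := Polynomial.exists_natDegree_eq_of_mem_lifts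
    ((Polynomial.mem_lifts r).2 (Polynomial.map_surjective _ residue_surjective r))
  have h4 : v (f - α p) < 1 := by
    have e1 := (hv.1.2 (a - q * p)).2 ((poly_red_eq_zero hπ _).1 (by
      rw [Polynomial.map_sub, Polynomial.map_mul, hr, sub_self]))
    rwa [map_sub, map_mul, ← e, mul_comm f, ← mul_sub, map_mul, (hv.1.eq_one q).2 hq,
      one_mul] at e1
  refine ⟨p, not_lt.1 fun hm => ?_, h4⟩
  obtain ⟨g, hg⟩ := h2
  obtain ⟨k, hk⟩ := Nat.exists_eq_add_of_lt hm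
  have hX := pv_X hπ hV.1
  have e1 : fr R (g * PowerSeries.X ^ (k + 1) - ((p.reflect p.natDegree : R[X]) : R⟦X⟧)) =
      bi (f - α p) * fr R PowerSeries.X ^ p.natDegree -
        (bi f * fr R PowerSeries.X ^ m - fr R g) * fr R PowerSeries.X ^ (k + 1) := by
    rw [map_sub, ← gpoly_refl hα hi le_rfl, map_sub, map_mul, map_pow, hk]
    ring
  obtain ⟨y, hy⟩ := (hV.1.2 _).1 (e1 ▸ V.map_sub_lt
    (by rwa [map_mul, map_pow, hX, one_pow, mul_one, gpoly_inf hα hπ hV hv hi])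
    (by rwa [map_mul, map_pow, hX, one_pow, mul_one]))
  have e2 := congrArg (fun z => residue R (PowerSeries.constantCoeff z)) hy
  have e3 : residue R π = 0 := (residue_eq_zero_iff _).2 hπ.not_isUnit
  simp only [map_sub, map_mul, map_pow, PowerSeries.constantCoeff_X, zero_pow k.succ_ne_zero,
    mul_zero, zero_sub, PowerSeries.constantCoeff_C, Polynomial.constantCoeff_coe,
    Polynomial.coeff_reflect, Polynomial.revAt_zero, e3, zero_mul, map_neg, neg_eq_zero] at e2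
  rw [← Polynomial.coeff_map, hp, Polynomial.coeff_natDegree, Polynomial.leadingCoeff_eq_zero] at e2
  rw [e2, Polynomial.natDegree_zero] at hp
  omega

omit [IsAlgClosed (ResidueField R)] in
theorem gpoly_div (hπ : Irreducible π) (hV : Cn1 (fr R) V (PowerSeries.C π)) {x : Fr R⟦X⟧}
    {u : R⟦X⟧} {k n : ℕ} (hk : k < n) (h : ∃ g, V (x - fr R g) ≤ exp (-(n : ℤ)))
    (h' : V (x - fr R u) ≤ exp (-(k : ℤ))) :
    ∃ g, V ((x - fr R u) / fr R (PowerSeries.C π) ^ k - fr R g) < 1 := by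
  obtain ⟨g, h⟩ := h
  have hl : exp (-(n : ℤ)) < exp (-(k : ℤ)) := WithZero.exp_lt_exp.2 (by omega)
  obtain ⟨y, hy⟩ := (hV.dvd_iff (prime_ps_C hπ.prime) (g - u) k).1 (by
    rw [map_sub, ← sub_sub_sub_cancel_left _ _ x]
    exact V.map_sub_le h' (h.trans hl.le))
  have h1 : V (fr R (PowerSeries.C π) ^ k) = exp (-(k : ℤ)) := by
    rw [← zpow_natCast, vcv_pow hV.2]
  have h0 : fr R (PowerSeries.C π) ^ k ≠ 0 := fun e => by
    rw [e, map_zero] at h1
    exact WithZero.exp_ne_zero h1.symm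
  refine ⟨y, ?_⟩
  rw [div_sub' h0, ← map_pow, ← map_mul, ← hy, map_sub, sub_sub_sub_cancel_right, map_div₀,
    map_pow (fr R), h1, div_lt_one₀ WithZero.exp_pos]
  exact h.trans_lt hl

theorem poly_n (hα : IsFr α) (hπ : Irreducible π) (hV : Cn1 (fr R) V (PowerSeries.C π))
    (hv : Cn1 α v (Polynomial.C π)) (ht : ∀ c, residue R (t c) = c)
    (hb : ∀ c p, b c (α p) = fr R (sh (t c) p)) (hi : ∀ p, bi (rvs α p) = fr R (sh 0 p)) (n : ℕ)
    {f : K} (h1 : ∀ c, ∃ g, V (b c f - fr R g) ≤ exp (-(n : ℤ)))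
    (h2 : ∃ g, V (bi f * fr R PowerSeries.X ^ m - fr R g) ≤ exp (-(n : ℤ))) :
    ∃ p : R[X], p.natDegree ≤ m ∧ v (f - α p) ≤ exp (-(n : ℤ)) := by
  suffices H : ∀ k ≤ n, ∃ p : R[X], p.natDegree ≤ m ∧ v (f - α p) ≤ exp (-(k : ℤ)) from H n le_rfl
  intro k hk
  induction k with
  | zero =>
    obtain ⟨g, hg⟩ := h1 0
    refine ⟨0, by simp, ?_⟩
    rw [map_zero, sub_zero, ← pv_comap hα hπ hV hv (hb 0)]
    exact gpoly_le hV (hg.trans (WithZero.exp_le_exp.2 (by omega : -(n : ℤ) ≤ 0)))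
  | succ k ih =>
    obtain ⟨p, hp, h⟩ := ih (by omega)
    have hC : bi (α (Polynomial.C π)) = fr R (PowerSeries.C π) := by
      rw [← rvs_C, hi, sbs_C, RingHom.id_apply]
    have e : bi (f - α p) * fr R PowerSeries.X ^ m =
        bi f * fr R PowerSeries.X ^ m - fr R (p.reflect m : R[X]) := by
      rw [map_sub, sub_mul, gpoly_refl hα hi hp]
    obtain ⟨q, hq, h'⟩ := poly_one (m := m) (f := (f - α p) / α (Polynomial.C π) ^ k) hα hπ hV hv
      ht hb hi (fun c => by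
        rw [map_div₀, map_pow, hb, sbs_C, RingHom.id_apply, map_sub, hb]
        exact gpoly_div hπ hV hk (h1 c) (by rwa [← hb, ← map_sub, pv_comap hα hπ hV hv (hb c)])) (by
        rw [map_div₀, map_pow, hC, div_mul_eq_mul_div, e]
        exact gpoly_div hπ hV hk h2 (by rwa [← e, map_mul, map_pow, pv_X hπ hV.1, one_pow, mul_one,
          gpoly_inf hα hπ hV hv hi]))
    have h1 : v (α (Polynomial.C π) ^ k) = exp (-(k : ℤ)) := by rw [← zpow_natCast, vcv_pow hv.2]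
    have h0 : α (Polynomial.C π) ^ k ≠ 0 := fun e => by
      rw [e, map_zero] at h1
      exact WithZero.exp_ne_zero h1.symm
    refine ⟨p + Polynomial.C (π ^ k) * q, (Polynomial.natDegree_add_le _ _).trans
      (max_le hp ((Polynomial.natDegree_C_mul_le _ _).trans hq)), ?_⟩
    rw [div_sub' h0, map_div₀, h1, lt_one_iff_le_exp, div_le_iff₀ WithZero.exp_pos,
      ← WithZero.exp_add] at h'
    rw [map_add, map_mul, map_pow, map_pow, ← sub_sub]
    exact h'.trans (WithZero.exp_le_exp.2 (by omega))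

theorem poly_lim (hα : IsFr α) (hπ : Irreducible π) (hV : Cn1 (fr R) V (PowerSeries.C π))
    (hv : Cn1 α v (Polynomial.C π)) (ht : ∀ c, residue R (t c) = c)
    (hb : ∀ c p, b c (α p) = fr R (sh (t c) p)) (hi : ∀ p, bi (rvs α p) = fr R (sh 0 p))
    (f : ℕ → K) (h0 : ∀ n, v (f (n + 1) - f n) ≤ exp (-(n : ℤ)))
    (h1 : ∀ n c, ∃ g, V (b c (f n) - fr R g) ≤ exp (-(n : ℤ)))
    (h2 : ∀ n, ∃ g, V (bi (f n) * fr R PowerSeries.X ^ m - fr R g) ≤ exp (-(n : ℤ))) :
    ∃ p : R[X], ∀ n, v (f n - α p) ≤ exp (-(n : ℤ)) := by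
  have hP := Polynomial.prime_C_iff.2 hπ.prime
  choose p hp h using fun n => poly_n hα hπ hV hv ht hb hi n (h1 n) (h2 n)
  choose d hd using fun n => (hv.dvd_iff hP (p (n + 1) - p n) n).1 (by
    have e : α (p (n + 1) - p n) =
        f n - α (p n) + (f (n + 1) - f n) - (f (n + 1) - α (p (n + 1))) := by
      rw [map_sub]
      ring
    exact e ▸ v.map_sub_le (v.map_add_le (h n) (h0 n))
      ((h (n + 1)).trans (WithZero.exp_le_exp.2 (by omega))))
  obtain ⟨q, hq⟩ := exists_poly_lim hπ d (m := m) fun n => by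
    rw [← Polynomial.natDegree_C_mul (pow_ne_zero n hπ.ne_zero), map_pow, ← hd]
    exact (Polynomial.natDegree_sub_le _ _).trans (max_le (hp _) (hp _))
  refine ⟨q + p 0, fun n => ?_⟩
  have h3 := hq n
  simp only [map_pow, ← hd, Finset.sum_range_sub] at h3
  have e : f n - α (q + p 0) = f n - α (p n) - α (q - (p n - p 0)) := by
    rw [map_add, map_sub, map_sub]
    ring
  exact e ▸ v.map_sub_le (h n) ((hv.dvd_iff hP _ n).2 h3)

omit [IsAlgClosed (ResidueField R)] in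
theorem gpoly_cut (hπ : Irreducible π) (hV : Cn1 (fr R) V (PowerSeries.C π)) {γ y : Fr R⟦X⟧}
    {g u : R⟦X⟧} {N : ℕ} (h : V (γ * fr R PowerSeries.X ^ N - fr R g) < 1)
    (hy : y * fr R PowerSeries.X ^ N = fr R u) (hu : PowerSeries.X ^ N ∣ g - u) :
    ∃ z, V (y - γ - fr R z) < 1 := by
  obtain ⟨z, hz⟩ := hu
  have e : γ * fr R PowerSeries.X ^ N - fr R g =
      -(y - γ - fr R (-z)) * fr R PowerSeries.X ^ N := by
    rw [sub_eq_iff_eq_add.1 hz, map_add, map_mul, map_pow, ← hy, map_neg]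
    ring
  exact ⟨-z, by rwa [e, map_mul, map_pow, pv_X hπ hV.1, one_pow, mul_one, V.map_neg] at h⟩

omit [IsAlgClosed (ResidueField R)] in
/-- principal parts -/
theorem exists_pf (hα : IsFr α) (hπ : Irreducible π) (hV : Cn1 (fr R) V (PowerSeries.C π))
    {ι : Type} [Fintype ι] {s : ι → R} (hs : ∀ c c', c ≠ c' → IsUnit (s c - s c'))
    {b : ι → K →+* Fr R⟦X⟧} (hb : ∀ c p, b c (α p) = fr R (sh (s c) p))
    (hi : ∀ p, bi (rvs α p) = fr R (sh 0 p)) (γ : ι → Fr R⟦X⟧) (hγ : ∀ c, V (γ c) ≤ 1)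
    {δ : Fr R⟦X⟧} (hδ : V δ ≤ 1) : ∃ (η : K) (N : ℕ) (p : R[X]),
      η * α (∏ c, (Polynomial.X - Polynomial.C (s c))) ^ N = α p ∧
      (∀ c, ∃ g, V (b c η - γ c - fr R g) < 1) ∧ ∃ g, V (bi η - δ - fr R g) < 1 := by
  obtain ⟨v, hv⟩ := exists_cn1 hα (Polynomial.prime_C_iff.2 hπ.prime)
  choose n g hg using fun c => exists_pp hπ hV.1 (hγ c)
  choose r hr using fun c => exists_sh (s c) (g c) (n c)
  have h1 : ∀ c, v (α (Polynomial.X - Polynomial.C (s c))) = 1 := fun c =>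
    (hv.1.eq_one _).2 fun h => hπ.not_isUnit (isUnit_of_dvd_one (by
      simpa using (Polynomial.C_dvd_iff_dvd_coeff _ _).1 h 1))
  have h0 : ∀ c, α (Polynomial.X - Polynomial.C (s c)) ≠ 0 := fun c e => by simpa [e] using h1 c
  obtain ⟨e, he⟩ : ∃ e : ι → K, ∀ c,
      e c * α (Polynomial.X - Polynomial.C (s c)) ^ n c = α (r c) :=
    ⟨fun c => α (r c) / _, fun c => div_mul_cancel₀ _ (pow_ne_zero _ (h0 c))⟩
  have h2 : V (δ - bi (∑ c, e c)) ≤ 1 := V.map_sub_le hδ (by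
    rw [gpoly_inf hα hπ hV hv hi]
    refine v.map_sum_le fun c _ => ?_
    have := hv.1.1 (r c)
    rwa [← he, map_mul, map_pow, h1, one_pow, mul_one] at this)
  obtain ⟨M, u, hu⟩ := exists_pp hπ hV.1 h2
  have h3 : (PowerSeries.trunc (M + 1) u).natDegree ≤ M :=
    Nat.lt_succ_iff.1 (PowerSeries.natDegree_trunc_lt u M)
  have h4 : (∑ c, e c + α ((PowerSeries.trunc (M + 1) u).reflect M)) *
      α (∏ c, (Polynomial.X - Polynomial.C (s c))) ^ (∑ c, n c) ∈ α.range := by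
    rw [add_mul, Finset.sum_mul]
    refine add_mem (sum_mem fun c _ => ?_)
      (mul_mem (α.mem_range_self _) (pow_mem (α.mem_range_self _) _))
    obtain ⟨w, hw⟩ := (pow_dvd_pow_of_dvd (Finset.dvd_prod_of_mem
      (fun c => Polynomial.X - Polynomial.C (s c)) (Finset.mem_univ c)) (n c)).trans
      (pow_dvd_pow _ (Finset.single_le_sum (fun _ _ => Nat.zero_le _) (Finset.mem_univ c)))
    rw [← map_pow, hw, map_mul, map_pow, ← mul_assoc, he]
    exact mul_mem (α.mem_range_self _) (α.mem_range_self _)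
  obtain ⟨p, hp⟩ := h4
  refine ⟨_, _, p, hp.symm, fun c => ?_, ?_⟩
  · obtain ⟨z, hz⟩ := gpoly_cut hπ hV (hg c) (y := b c (e c))
      (by rw [← hb, ← he, map_mul, map_pow, hb, sh_X_sub]) (hr c)
    obtain ⟨y, hy⟩ : ∑ c' ∈ Finset.univ.erase c, b c (e c') ∈ (fr R).range := by
      refine sum_mem fun c' hc => ?_
      obtain ⟨ε, hε⟩ : IsUnit (sh (s c) (Polynomial.X - Polynomial.C (s c')) ^ n c') := by
        refine IsUnit.pow _ (PowerSeries.isUnit_iff_constantCoeff.2 ?_)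
        simpa [cc_sh] using hs c c' (Finset.ne_of_mem_erase hc).symm
      refine ⟨sh (s c) (r c') * ↑ε⁻¹, ?_⟩
      rw [map_mul, ← hb, ← he, map_mul, map_pow, hb, ← map_pow, ← hε, mul_assoc, ← map_mul,
        Units.mul_inv, map_one, mul_one]
    refine ⟨z + y + sh (s c) ((PowerSeries.trunc (M + 1) u).reflect M), hz.trans_eq' ?_⟩
    rw [map_add, map_add, map_add, hb, hy, map_sum, ← Finset.add_sum_erase _ _ (Finset.mem_univ c)]
    congr 1
    ring
  · obtain ⟨z, hz⟩ := gpoly_cut hπ hV hu (gpoly_refl hα hi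
      (p := (PowerSeries.trunc (M + 1) u).reflect M)
        (Polynomial.natDegree_reflect_le.trans (max_le le_rfl h3))) (by
      rw [Polynomial.reflect_reflect, PowerSeries.X_pow_dvd_iff]
      intro i hi
      rw [map_sub, Polynomial.coeff_coe, PowerSeries.coeff_trunc, if_pos (by omega), sub_self])
    refine ⟨z, hz.trans_eq' ?_⟩
    rw [map_add]
    congr 1
    ring

end Pool.Agent.ZFy.GM
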