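import Pool.Agent.Lib.MP_751085_ag.ZF.G.Cvr
import Pool.Agent.Lib.MP_751085_ag.ZF.G.Poly
import Pool.Agent.Lib.MP_751085_ag.ZF.G.Lag
import Pool.Agent.Lib.MP_751085_ag.ZC.V.Dec
import Pool.Agent.Lib.MP_751085_ag.ZC.V.Enl

/-! Good models: the special fibre is irreducible. -/

namespace Pool.Agent.ZFy.GM

open Pool.Agent.ZCy
open scoped Classical WithZero Polynomial PowerSeries
open WithZero (exp)
open IsLocalRing

variable {R F : Type} [CommRing R] [IsDomain R] [CDVR R] [Field F] {π t : R} {a : R[X] →+* F}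
  {Θ : R[X]} {J : F →+* Fr R⟦X⟧} {ψ : R⟦X⟧ →+* R⟦X⟧} {V : Vl (Fr R⟦X⟧)}

variable {K N : Type} [Field K] [Field N] [Algebra K N] [FiniteDimensional K N] [IsGalois K N]
  {α : R[X] →+* K}

theorem guni_pow {K K' : Type} [Field K] [Field K'] {φ : K →+* K'} {v : Vl K} {v' : Vl K'}
    (h : Over φ v v') {p : K} (hp : v p = exp (-1)) (x : K) (n : ℕ) :
    v' (φ x) ≤ v' (φ p) ^ n ↔ v x ≤ exp (-(n : ℤ)) := by
  rw [← map_pow, ← map_pow, h.le_iff, map_pow, hp, ← WithZero.exp_nsmul, nsmul_eq_mul, mul_neg_one]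

/-- the local group over the disc around `t` -/
theorem uni_loc (hπ : Irreducible π) (hα : IsFr α) (hV : Cn1 (fr R) V (PowerSeries.C π))
    (hs : SMat a Θ t) {i : F →+* N} (hi : ∀ p, i (a p) = tE N α p) {w : Vl N}
    (hw : Cen (tE N α) w (Polynomial.C π)) :
    ∃ (H : Subgroup (N ≃ₐ[K] N)) (b : K →+* Fr R⟦X⟧), (∀ p, b (α p) = fr R (sh t p)) ∧
      (∀ σ ∈ H, ∀ (g : N ≃ₐ[K] N) (x : F), w (σ (g (i x))) ≤ 1 ↔ w (g (i x)) ≤ 1) ∧
      ∀ z, (tE N α).IsIntegralElem z → (∀ σ ∈ H, σ z = z) → ∃ y : R⟦X⟧, ∀ (f : K) (n : ℕ),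
        w (z - algebraMap K N f) ≤ w (tE N α (Polynomial.C π)) ^ n →
          V (b f - fr R y) ≤ exp (-(n : ℤ)) := by
  have hP := Polynomial.prime_C_iff.2 hπ.prime
  have hF := isFr_alg R⟦X⟧ (Fr R⟦X⟧)
  obtain ⟨b, hb⟩ := hα.exists_lift (β := (fr R).comp (sh t)) (hF.1.comp (sh_inj t))
  obtain ⟨L, _, _, _, _, j₀, -, s₀, -⟩ := exists_bc N b
  obtain ⟨w', ho⟩ := exists_over (E := L) V
  have c₀ : Cen (tE N α) (w'.comap j₀) (Polynomial.C π) := by
    have e : ∀ p, w'.comap j₀ (tE N α p) = w' (algebraMap _ L (fr R (sh t p))) := fun p =>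
      congrArg w' ((s₀ _).trans (congrArg _ (hb p)))
    exact ⟨fun p => by rw [e, ho]; exact hV.1.1 _,
      fun p => by rw [e, ho.lt_one, hV.1.2, C_dvd_sh]⟩
  obtain ⟨g₀, hg₀⟩ := c₀.conj hα hP hw
  obtain ⟨j, sq, oj⟩ : ∃ j : N →+* L, Sq b j ∧ Over j w w' :=
    ⟨j₀.comp (g₀ : N →+* N), fun x => (congrArg j₀ (g₀.commutes x)).trans (s₀ x),
      fun x => (hg₀ x).symm⟩
  obtain ⟨r, hr⟩ := exists_rs sq
  have ej : ∀ p, j (tE N α p) = tE L (fr R) (sh t p) := fun p => (sq _).trans (congrArg _ (hb p))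
  refine ⟨r.range, b, hb, ?_, fun z hz hH => ?_⟩
  · rintro _ ⟨τ, rfl⟩ g x
    obtain ⟨⟨J, ψ⟩, hd, ι, h1, h2⟩ := hs L (tE L (fr R)) (j.comp ((g : N →+* N).comp i))
      ((algebraMap (Fr R⟦X⟧) L).injective.comp hF.1) fun p => by
        rw [← ej, RingHom.comp_apply, RingHom.comp_apply, hi]
        exact congrArg j (g.commutes _)
    have key : ∀ τ : L ≃ₐ[Fr R⟦X⟧] L, w' (τ (j (g (i x)))) ≤ 1 ↔ V (J x) ≤ 1 := fun τ => by
      have e : ∀ f, w'.comap ((τ : L →+* L).comp ι) ((fr R).comp ψ f) =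
          w' (algebraMap _ L (fr R f)) := fun f =>
        congrArg w' ((congrArg τ (h2 f)).trans (τ.commutes _))
      have c : Cen (fr R) (w'.comap ((τ : L →+* L).comp ι)) (PowerSeries.C π) :=
        cen_up hπ hd.cst hd.inj hd.int ⟨fun f => by rw [e, ho]; exact hV.1.1 _,
          fun f => by rw [e, ho.lt_one, hV.1.2]⟩
      rw [← hV.1.iff hF (prime_ps_C hπ.prime) c]
      exact (congrArg (fun y => w' (τ y) ≤ 1) (h1 x)).symm.to_iff
    rw [← oj, ← oj, hr, key τ]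
    exact (key 1).symm
  · obtain ⟨c, hc⟩ := mem_range_of_fix (K := Fr R⟦X⟧) (x := j z) fun τ => by
      rw [← hr, hH _ ⟨τ, rfl⟩]
    have h1 := hz.map j
    rw [show j.comp (tE N α) = (tE L (fr R)).comp (sh t) from RingHom.ext ej, ← hc] at h1
    obtain ⟨q, hm, h0⟩ := h1.of_comp
    rw [← Polynomial.hom_eval₂, map_eq_zero] at h0
    obtain ⟨y, rfl⟩ := IsIntegrallyClosed.algebraMap_eq_of_integral (R := R⟦X⟧) ⟨q, hm, h0⟩
    refine ⟨y, fun f n h => ?_⟩
    rw [← map_pow, ← oj.le_iff, map_pow, map_pow, ej, map_sub, sq, ← hc, ← map_sub,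
      show sh t (Polynomial.C π) = PowerSeries.C π by simp [sbs]] at h
    rw [Valuation.map_sub_swap]
    exact (guni_pow ho hV.2 _ n).1 h

variable [IsAlgClosed (ResidueField R)]

/-- the local groups and the decomposition group generate the Galois group -/
theorem uni_gal (hπ : Irreducible π) (hα : IsFr α) (hs : SMo a Θ) {i : F →+* N}
    (hi : ∀ p, i (a p) = tE N α p) {w : Vl N} (hw : Cen (tE N α) w (Polynomial.C π))
    (σ g : N ≃ₐ[K] N) (x : F) : w (σ (g (i x))) ≤ 1 ↔ w (g (i x)) ≤ 1 := by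
  let S : Subgroup (N ≃ₐ[K] N) :=
    { carrier := {σ | ∀ (g : N ≃ₐ[K] N) (x : F), w (σ (g (i x))) ≤ 1 ↔ w (g (i x)) ≤ 1}
      one_mem' := fun _ _ => Iff.rfl
      mul_mem' := fun {s s'} h h' g x => (h (s' * g) x).trans (h' g x)
      inv_mem' := fun {s} h g x => by
        have e := h (s⁻¹ * g) x
        rw [← AlgEquiv.mul_apply, mul_inv_cancel_left] at e
        exact e.symm }
  have hP := Polynomial.prime_C_iff.2 hπ.prime
  have hα' := isFr_rvs hα
  have inj : Function.Injective (tE N α) := (algebraMap K N).injective.comp hα.1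
  obtain ⟨V, hV⟩ := exists_pv hπ
  obtain ⟨v, hv⟩ := exists_cn1 hα hP
  have ho := (hv.1.over hα hP).1 hw
  have er : tE N (rvs α) = rvs (tE N α) := (rvs_comp _).symm
  have hw' : Cen (tE N (rvs α)) w (Polynomial.C π) := er ▸ (cen_rvs inj hπ.prime).2 hw
  choose t ht hst using hs.fin
  choose H b hb hH hz using fun c => uni_loc hπ hα hV (hst c) hi hw
  obtain ⟨Hi, bi, hbi, hHi, hzi⟩ := uni_loc hπ hα' hV hs.inf (i := i) (fun p => by
    rw [er, ← show i.comp a = tE N α from RingHom.ext hi, rvs_comp]; rfl) hw'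
  have key : ∀ z ∈ IntOff (tE N α) 1, (∀ σ ∈ S, σ z = z) → ∃ p, z = tE N α p := by
    intro z h1 h2
    have p0 : w (tE N α (Polynomial.C π)) ≠ 0 :=
      (map_ne_zero w).2 ((map_ne_zero_iff _ inj).2 hP.ne_zero)
    have dn := dns_of_dec (K := K) (w := w) fun σ hσ => h2 σ fun g x => by rw [hσ]
    choose f hf using fun n : ℕ => dn.exists_lt (pow_ne_zero n p0)
    obtain ⟨m, hm⟩ := exists_pow_mul_int hα hα' rvs_C
      (by rw [rvs_X, inv_mul_cancel₀ (hα.vfrc_ne Polynomial.X_ne_zero)]) h1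
    obtain ⟨y, hy⟩ := hzi _ ((mem_intOff_one hα').1 hm) fun σ hσ => by
      rw [map_mul, map_pow, h2 σ (hHi σ hσ)]
      exact congrArg (· ^ m * z) (σ.commutes _)
    obtain ⟨p, hp⟩ := poly_lim (m := m) hα hπ hV hv ht hb hbi f (fun n => by
      refine (guni_pow ho hv.2 _ n).1 ?_
      rw [map_sub, ← sub_sub_sub_cancel_left _ _ z]
      refine w.map_sub_le (hf n).le ((hf (n + 1)).le.trans ?_)
      rw [pow_succ]
      exact mul_le_of_le_one_right' (hw.1 _)) (fun n c => by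
      obtain ⟨y, hy⟩ := hz c z ((mem_intOff_one hα).1 h1) fun σ hσ => h2 σ (hH c σ hσ)
      exact ⟨y, hy _ n (hf n).le⟩) fun n => ⟨y, by
      have e := hy (rvs α Polynomial.X ^ m * f n) n (by
        rw [map_mul, map_pow, er, rvs_C, ← er, RingHom.comp_apply, ← mul_sub, map_mul, map_pow]
        exact (mul_le_of_le_one_left' (pow_le_one' (hw'.1 _) m)).trans (hf n).le)
      rwa [map_mul, map_pow, hbi, sh_zero, Polynomial.coe_X, mul_comm] at e⟩
    refine ⟨p, sub_eq_zero.1 (eq_zero_of_le_exp w fun n => ?_)⟩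
    have e : w (z - tE N α p) ≤ w (tE N α (Polynomial.C π)) ^ n := by
      rw [← sub_add_sub_cancel _ (algebraMap K N (f n)), RingHom.comp_apply, ← map_sub]
      exact w.map_add_le (hf n).le ((guni_pow ho hv.2 _ n).2 (hp n))
    refine e.trans ((pow_le_pow_left' ((lt_one_iff_le_exp _).1 ((hw.2 _).2 dvd_rfl)) n).trans ?_)
    rw [← WithZero.exp_nsmul, nsmul_eq_mul, mul_neg_one]
  have top : σ ∈ S := by
    rw [← IntermediateField.fixingSubgroup_fixedField S, IntermediateField.mem_fixingSubgroup_iff]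
    intro z hz
    obtain ⟨q, h0, hq⟩ := exists_mul_mem_intOff hα z
    have fx : ∀ (s : N ≃ₐ[K] N) (p : R[X]), s (tE N α p) = tE N α p := fun s p => s.commutes _
    obtain ⟨p, hp⟩ := key _ hq fun s hs => by
      rw [map_mul, fx, (IntermediateField.mem_fixedField_iff S z).1 hz s hs]
    have e := congrArg σ hp
    rw [map_mul, fx, fx, ← hp] at e
    exact mul_left_cancel₀ ((map_ne_zero_iff _ inj).2 h0) e
  exact top g x

/-- uniqueness of the prolongation of the Gauss valuation -/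
theorem uni (hπ : Irreducible π) (hs : SMo a Θ) {θ : F} {χ : R[X][X]} {D : R[X]}
    (he : Etl a θ χ D) (w w' : Vl F) (hw : Cen a w (Polynomial.C π))
    (hw' : Cen a w' (Polynomial.C π)) (x : F) : w' x ≤ 1 ↔ w x ≤ 1 := by
  obtain ⟨_, rfl⟩ := exists_frac he.inj
  have hα := isFr_alg R[X] (Fr R[X])
  obtain ⟨_, _, -⟩ := he.alg hα
  obtain ⟨N, _, _, _, _, _, _, -⟩ := exists_gc (Fr R[X]) F
  have := Module.Finite.right (Fr R[X]) F N
  obtain ⟨u, hu⟩ := exists_over (E := N) w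
  obtain ⟨u', hu'⟩ := exists_over (E := N) w'
  have e : (algebraMap F N).comp (tE F (algebraMap R[X] (Fr R[X]))) =
      tE N (algebraMap R[X] (Fr R[X])) :=
    RingHom.ext fun p => (IsScalarTower.algebraMap_apply (Fr R[X]) F N _).symm
  have c := e ▸ (cen_of_over hu).2 hw
  have c' := e ▸ (cen_of_over hu').2 hw'
  obtain ⟨g, hg⟩ := c.conj hα (Polynomial.prime_C_iff.2 hπ.prime) c'
  rw [← hu, ← hu', hg]
  exact uni_gal hπ hα hs (RingHom.congr_fun e) c g 1 x

theorem Good.uni (hπ : Irreducible π) (h : Good a Θ) (w w' : Vl F) (hw : Cen a w (Polynomial.C π))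
    (hw' : Cen a w' (Polynomial.C π)) (x : F) : w' x ≤ 1 ↔ w x ≤ 1 := by
  obtain ⟨_, _, _, he, _⟩ := h.et
  exact GM.uni hπ h.sm he w w' hw hw' x

theorem Good.exists_cn1 (hπ : Irreducible π) (h : Good a Θ) :
    ∃ W : Vl F, Cn1 a W (Polynomial.C π) := by
  obtain ⟨_, _, _, he, _⟩ := h.et
  obtain ⟨t, -, hs⟩ := h.sm.fin 0
  obtain ⟨J, ψ, hd⟩ := hs.exists_disc he
  obtain ⟨V, hV⟩ := exists_pv hπ
  exact ⟨_, hd.cn1 hπ hV⟩

/-- every disc induces the Gauss valuation -/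
theorem Good.disc_val (hπ : Irreducible π) (h : Good a Θ) {W : Vl F}
    (hW : Cn1 a W (Polynomial.C π)) (hV : Cn1 (fr R) V (PowerSeries.C π)) {Θ' : R[X]}
    (hd : Disc a Θ' t J ψ ∨ Disc (rvs a) Θ' t J ψ) (x : F) : V (J x) = W x := by
  have c : Cn1 a (V.comap J) (Polynomial.C π) := by
    rcases hd with hd | hd
    · exact hd.cn1 hπ hV
    · exact ⟨(cen_rvs h.inj hπ.prime).1 (hd.cn1 hπ hV).1, rvs_C (a := a) π ▸ (hd.cn1 hπ hV).2⟩
  rw [← hW.nrm.eq_of_iff c.nrm (h.uni hπ W _ hW.1 c.1)]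
  rfl

/-- over any subfield the decomposition group is everything (`mem_dec`) -/
theorem Good.dec_top (hπ : Irreducible π) (h : Good a Θ) {E : Type} [Field E] [Algebra E F]
    [FiniteDimensional E F] (ha : ∀ p, a p ∈ (algebraMap E F).range) {w : Vl F}
    (hw : Cen a w (Polynomial.C π)) : Dec E w = ⊤ := by
  refine (Subgroup.eq_top_iff' _).2 fun g => mem_dec.2 (h.uni hπ w (w.comap (g : F →+* F)) hw ?_)
  have e : ∀ p, w.comap (g : F →+* F) (a p) = w (a p) := fun p => by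
    obtain ⟨y, hy⟩ := ha p
    rw [← hy]
    exact congrArg w (g.commutes y)
  exact ⟨fun p => (e p).trans_le (hw.1 p), fun p => by rw [e, hw.2]⟩

/-- `root_fix` for `θ`, `Etl.hom_ext` -/
theorem Good.ine_bot (hπ : Irreducible π) (h : Good a Θ) {E : Type} [Field E] [Algebra E F]
    (ha : ∀ p, a p ∈ (algebraMap E F).range) {w : Vl F}
    (hw : Cen a w (Polynomial.C π)) : Ine E w = ⊥ := by
  obtain ⟨θ, χ, D, he, hD⟩ := h.et
  refine (Subgroup.eq_bot_iff_forall _).2 fun g hg => ?_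
  have e : ∀ p, g (a p) = a p := fun p => by
    obtain ⟨y, hy⟩ := ha p
    rw [← hy]
    exact g.commutes y
  obtain ⟨p, q, hb⟩ := he.bez
  have h1 := congrArg (fun G => w (G.eval₂ a θ)) hb
  simp only [Polynomial.eval₂_C, Polynomial.eval₂_add, Polynomial.eval₂_mul, he.root, mul_zero,
    zero_add, map_mul, (hw.eq_one D).2 (mt (poly_red_eq_zero hπ D).2 hD)] at h1
  have h2 : g θ = θ := root_fix hg (f := χ.map a)
    (fun i => by rw [Polynomial.coeff_map, e]) (fun i => by rw [Polynomial.coeff_map]; exact hw.1 _)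
    (by simpa using he.le_one hw.1 Polynomial.X) (by rw [Polynomial.eval_map, he.root]) (by
      rw [Polynomial.derivative_map, Polynomial.eval_map]
      exact le_antisymm (he.le_one hw.1 _)
        (h1.le.trans (mul_le_of_le_one_left' (he.le_one hw.1 q))))
  exact AlgEquiv.ext (RingHom.congr_fun (he.hom_ext (j := (g : F →+* F)) (j' := RingHom.id F) e h2))

end Pool.Agent.ZFy.GM
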