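import Pool.Agent.Lib.MP_751085_ag.ZF.G.Red
import Pool.Agent.Lib.MP_751085_ag.ZF.G.Uni
import Pool.Agent.Lib.MP_751085_ag.ZF.G.Lxt

/-! Good models: a Kummer class that is not yet a power. -/

namespace Pool.Agent.ZFy.GM

open Pool.Agent.ZCy
open scoped Classical WithZero Polynomial PowerSeries
open WithZero (exp)
open IsLocalRing

variable {R F E F₀ E₀ κ : Type} [CommRing R] [IsDomain R] [CDVR R] [IsAlgClosed (ResidueField R)]
  [Field F] [Field E] [Field F₀] [Field E₀] [Field κ] [Algebra F E] [FiniteDimensional F E]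
  [IsGalois F E] [Algebra F₀ E₀] [FiniteDimensional F₀ E₀] [IsGalois F₀ E₀] {π : R} {Θ : R[X]}
  {α : R[X] →+* F} {α₀ : κ[X] →+* F₀} {r : R →+* κ} {W : Vl E} {ρ : W.integer →+* E₀} {l : ℕ}

theorem res_field (hπ : Irreducible π) (hα : IsFr α) (h₀ : IsFr α₀) (h : Good (tE E α) Θ)
    (hW : Cen (tE E α) W (Polynomial.C π)) (hr : Function.Surjective r) (hρ : IsRed W ρ)
    (hc : ∀ (p : R[X]) (y : W.integer), (y : E) = tE E α p → ρ y = tE E₀ α₀ (p.map r)) :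
    ∃ M : IntermediateField F₀ E₀, (∀ y, y ∈ M ↔ y ∈ ρ.range) ∧
      Module.finrank F₀ M = Module.finrank F E ∧ ∀ g : E ≃ₐ[F] E, ∃ g₀ : E₀ ≃ₐ[F₀] E₀,
        ∀ x y : W.integer, (y : E) = g x → ρ y = g₀ (ρ x) := by
  have ho := Over.comap (algebraMap F E) W
  have hl : ∀ a, (α₀.comp (Polynomial.mapRingHom r)) a = 0 ↔ Polynomial.C π ∣ a := fun a => by
    rw [← hW.2 a, ← hρ ⟨_, hW.1 a⟩, hc a _ rfl]
    exact (map_eq_zero (algebraMap F₀ E₀)).symm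
  obtain ⟨ρ₀, h1, h2, h3⟩ := Cen.exists_red (v := W.comap (algebraMap F E)) hα
    (Polynomial.prime_C_iff.2 hπ.prime) hW hl
  have hs := h3 fun y => by
    obtain ⟨a, b, hb, e⟩ := h₀.2 y
    obtain ⟨a, rfl⟩ := Polynomial.map_surjective r hr a
    obtain ⟨b, rfl⟩ := Polynomial.map_surjective r hr b
    exact ⟨a, b, h₀.vfrc_ne hb, e⟩
  obtain ⟨i, hi⟩ := h1.factor hs (hρ.comp_int ho)
  obtain rfl : algebraMap F₀ E₀ = i := h₀.hom_ext fun p => by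
    obtain ⟨p, rfl⟩ := Polynomial.map_surjective r hr p
    exact (hc p _ rfl).symm.trans ((hi _).symm.trans (congrArg i (h2 p)))
  have hd : Dec F W = ⊤ := h.dec_top hπ (fun p => ⟨_, rfl⟩) hW
  obtain ⟨M, e, m1, -, -, m2, m3⟩ := res_gal_in ho (h.ine_bot hπ (fun p => ⟨_, rfl⟩) hW) hs hρ
    fun a => (hi a).symm
  refine ⟨M, m1, by rw [m2, hd, Subgroup.card_top, IsGalois.card_aut_eq_finrank], fun g =>
    ⟨(e ⟨g, hd ▸ trivial⟩).liftNormal E₀, fun x y hy => ?_⟩⟩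
  refine .trans ?_ ((e ⟨g, hd ▸ trivial⟩).liftNormal_commutes E₀ ⟨_, (m1 _).2 ⟨x, rfl⟩⟩).symm
  exact (congrArg ρ (Subtype.ext hy)).trans (m3 _ x _ rfl).symm

theorem exists_class (hπ : Irreducible π) (hα : IsFr α) (h₀ : IsFr α₀) (h : Good (tE E α) Θ)
    (hW : Cen (tE E α) W (Polynomial.C π)) (hr : Function.Surjective r) (hρ : IsRed W ρ)
    (hc : ∀ (p : R[X]) (y : W.integer), (y : E) = tE E α p → ρ y = tE E₀ α₀ (p.map r))
    (hp : l.Prime) (hl : IsUnit (l : R)) (hu : UnrOff F₀ (tE E₀ α₀) (Θ.map r)) {S : Set E₀}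
    (hS : LXt l F₀ S) (hS' : S ⊆ Set.range ρ) (hlt : Module.finrank F E < Module.finrank F₀ E₀) :
    ∃ y : W.integer, TW l (tE E α) Θ (y : E) ∧
      (∀ (g : E ≃ₐ[F] E) (y' : W.integer), (y' : E) = g y → ∃ s, s ≠ 0 ∧ ρ y' = s ^ l) ∧
      ∀ x : W.integer, ρ y ≠ ρ x ^ l := by
  obtain ⟨M, m1, m2, m3⟩ := res_field hπ hα h₀ h hW hr hρ hc
  obtain ⟨-, -, e, -⟩ := res_of_surj hr
  have := IsAlgClosed.of_ringEquiv _ _ e
  have : NeZero (l : κ) := ⟨by simpa using (hl.map r).ne_zero⟩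
  have : NeZero l := ⟨hp.ne_zero⟩
  obtain ⟨ζ₀, hζ₀⟩ := HasEnoughRootsOfUnity.exists_primitiveRoot κ l
  have hζ := hζ₀.map_of_injective ((tE M α₀).comp Polynomial.C).injective
  obtain ⟨r₀, u, k1, k2⟩ := exists_kum hp (LXt.pgroup hS M fun s hs => (m1 s).2 (hS' hs)) hζ (by
    have := Module.finrank_mul_finrank F₀ M E₀
    by_contra h1
    have := Nat.mul_le_mul_left (Module.finrank F₀ M) (not_lt.1 h1)
    omega)
  have h0 : r₀ ≠ 0 := fun h0 => k2 (h0 ▸ zero_mem _)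
  obtain ⟨y, z, z0, z1, z2, -⟩ := lift_tw (Fb := M) (ρ := ρ.codRestrict M fun x => (m1 _).2 ⟨x, rfl⟩)
    (ab := tE M α₀) (u := u) hπ hl h hW (fun x => Subtype.ext_iff.trans (hρ x))
    (fun z => ((m1 _).1 z.2).imp fun _ => Subtype.ext) hr (fun p y hy => Subtype.ext (hc p y hy))
    (fun e => pow_ne_zero l h0 (by rw [k1, e, map_zero])) fun v _ hv =>
      dvd_ord_of_ine' (E := F₀) (fun w hw => unU_of_unrOff h₀ hu w
        (Unm.comap.1 (hv.congr (w' := w.comap (algebraMap M E₀)) hw))) k1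
  have z3 : (z : E₀) ≠ 0 := fun e => z0 (Subtype.ext e)
  have z4 : ρ y = (r₀ * z) ^ l := by
    rw [mul_pow, k1]
    exact congrArg Subtype.val z1
  refine ⟨y, z2, fun g y' hy => ?_, fun x hx => k2 ?_⟩
  · obtain ⟨g₀, hg⟩ := m3 g
    exact ⟨g₀ (r₀ * z), (map_ne_zero _).2 (mul_ne_zero h0 z3), by rw [hg y y' hy, z4, map_pow]⟩
  · obtain ⟨k, hk⟩ := root_eq_zeta hp (hζ.map_of_injective (algebraMap M E₀).injective)
      (z4.symm.trans hx)
    refine ⟨tE M α₀ (Polynomial.C ζ₀) ^ k * ⟨_, (m1 _).2 ⟨x, rfl⟩⟩ / z, ?_⟩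
    rw [map_div₀, map_mul, map_pow]
    exact (eq_div_of_mul_eq z3 hk).symm

end Pool.Agent.ZFy.GM
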