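import Pool.Agent.Lib.MP_751085_ag.ZF.G.Et0
import Pool.Agent.Lib.MP_751085_ag.ZF.G.Pld
import Pool.Agent.Lib.MP_751085_ag.ZC.Z.Sec1
import Pool.Agent.Lib.MP_751085_ag.ZC.K.Lau
import Pool.Agent.Lib.MP_751085_ag.ZC.V.Cf

/-! Good models: descent of Laurent series. -/

namespace Pool.Agent.ZFy.GM

open Pool.Agent.ZCy
open scoped Classical WithZero Polynomial PowerSeries
open WithZero (exp)

variable {K K' F F' : Type} [Field K] [Field K'] [Field F] [Field F'] (γ : K →+* K')

theorem gdesc_lin [Algebra K K'] {ι : Type} [Fintype ι] (l : K' →ₗ[K] K) (q : ι → K'[X]) :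
    ∃ p : ι → K[X], (∀ i n, (p i).coeff n = l ((q i).coeff n)) ∧ ∀ (x : ι → Ls K) (j : ℤ),
      (∑ i, tL K (p i) * x i).coeff j =
        l ((∑ i, tL K' (q i) * lm (algebraMap K K') (x i)).coeff j) := by
  choose p h1 h2 using fun i => sec1_lin l 1 (q i)
  refine ⟨p, h1, fun x j => ?_⟩
  rw [HahnSeries.coeff_sum, HahnSeries.coeff_sum, map_sum]
  exact Finset.sum_congr rfl fun i _ => by rw [mul_comm, h2, mul_comm]

/-- apply all `K`-linear forms on `K'` to the coefficients -/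
theorem desc_ind {ι : Type} [Fintype ι] {x : ι → Ls K}
    (h : ∀ p : ι → K[X], ∑ i, tL K (p i) * x i = 0 → ∀ i, p i = 0) (q : ι → K'[X])
    (hq : ∑ i, tL K' (q i) * lm γ (x i) = 0) (i : ι) : q i = 0 := by
  let := γ.toAlgebra
  ext n
  refine (Module.forall_dual_apply_eq_zero_iff K _).1 fun l => ?_
  obtain ⟨p, h1, h2⟩ := gdesc_lin l q
  rw [← h1, h p (HahnSeries.ext (funext fun j => (h2 x j).trans ?_)) i, Polynomial.coeff_zero]
  exact (congrArg (fun z => l (z.coeff j)) hq).trans (map_zero l)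

/-- a relation over `K'[t]` in which the coefficient of `y` is not zero descends -/
theorem desc_rel {ι : Type} [Fintype ι] (x : ι → Ls K) (y : Ls K) {d : K'[X]} (hd : d ≠ 0)
    (q : ι → K'[X]) (h : tL K' d * lm γ y = ∑ i, tL K' (q i) * lm γ (x i)) :
    ∃ (d₀ : K[X]) (p : ι → K[X]), d₀ ≠ 0 ∧ tL K d₀ * y = ∑ i, tL K (p i) * x i := by
  let := γ.toAlgebra
  obtain ⟨l, hl⟩ := Module.Projective.exists_dual_eq_one K (Polynomial.leadingCoeff_ne_zero.2 hd)
  obtain ⟨p, -, h2⟩ := gdesc_lin l q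
  obtain ⟨d₀, h3, h4⟩ := sec1_lin l 1 d
  refine ⟨d₀, p, fun h0 => ?_, HahnSeries.ext (funext fun j => ?_)⟩
  · have := h3 d.natDegree
    rw [h0, Polynomial.coeff_zero, Polynomial.coeff_natDegree, hl] at this
    exact zero_ne_one this
  · rw [mul_comm, h4, h2, mul_comm]
    exact congrArg (fun z => l (z.coeff j)) h

theorem gdesc_clear {A L : Type} [CommRing A] [IsDomain A] [Field L] {b : A →+* L}
    (hb : Function.Injective b) {z : L} {χ : A[X]} (hm : χ.Monic) (hz : χ.eval₂ b z = 0) {y : L}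
    (hy : y ∈ Subfield.closure (Set.range b ∪ {z})) :
    ∃ (d : A) (G : A[X]), d ≠ 0 ∧ b d * y = G.eval₂ b z := by
  obtain ⟨_, rfl⟩ := exists_frac hb
  have h1 : IsIntegral (Fr A) z := ⟨_, hm.map (algebraMap A (Fr A)), by
    rw [Polynomial.eval₂_map]; exact hz⟩
  have h2 : y ∈ (IntermediateField.adjoin (Fr A) {z}).toSubfield := by
    refine Subfield.closure_le.2 ?_ hy
    rintro _ (⟨p, rfl⟩ | rfl)
    · exact IntermediateField.algebraMap_mem _ _
    · exact IntermediateField.mem_adjoin_simple_self _ _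
  have h3 : y ∈ (IntermediateField.adjoin (Fr A) {z}).toSubalgebra := h2
  rw [IntermediateField.adjoin_simple_toSubalgebra_of_isAlgebraic h1.isAlgebraic,
    Algebra.adjoin_singleton_eq_range_aeval] at h3
  obtain ⟨G, rfl⟩ := h3
  obtain ⟨d, hd, e⟩ := IsLocalization.integerNormalization_spec (nonZeroDivisors A) G
  refine ⟨d, IsLocalization.integerNormalization (nonZeroDivisors A) G,
    nonZeroDivisors.ne_zero hd, ?_⟩
  rw [← Polynomial.eval₂_map, e, ← IsScalarTower.algebraMap_smul (Fr A), Polynomial.eval₂_smul]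
  rfl

theorem gdesc_eval {A L : Type} [CommRing A] [DecidableEq A] [CommRing L] (b : A →+* L) (z : L)
    {n : ℕ} (p : Fin n → A) :
    (Polynomial.ofFn n p).eval₂ b z = ∑ i, b (p i) * z ^ (i : ℕ) := by
  simp only [Polynomial.ofFn_eq_sum_monomial, Polynomial.eval₂_finsetSum,
    Polynomial.eval₂_monomial]

theorem gdesc_ofFn {A : Type} [CommRing A] [DecidableEq A] {G : A[X]} {n : ℕ}
    (h : G.degree < n) : ∃ p : Fin n → A, G = Polynomial.ofFn n p := by
  refine ⟨fun i => G.coeff i, Polynomial.ext fun i => ?_⟩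
  rcases lt_or_ge i n with hi | hi
  · rw [Polynomial.ofFn_coeff_eq_val_of_lt _ hi]
  · rw [Polynomial.ofFn_coeff_eq_zero_of_ge _ hi]
    exact Polynomial.coeff_eq_zero_of_degree_lt (h.trans_le (Nat.cast_le.2 hi))

theorem gdesc_poly {y : Ls K} {n : ℕ}
    (h : ∀ G₀ : K[X][X], G₀.degree < n → G₀.eval₂ (tL K) y = 0 → G₀ = 0) {G : K'[X][X]}
    (hG : G.degree < n) (h0 : G.eval₂ (tL K') (lm γ y) = 0) : G = 0 := by
  obtain ⟨q, rfl⟩ := gdesc_ofFn hG
  rw [gdesc_eval] at h0
  have : q = 0 := funext <| desc_ind γ (x := fun i : Fin n => y ^ (i : ℕ))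
    (fun p hp => congrFun (Polynomial.injective_ofFn n ((h _ (Polynomial.ofFn_degree_lt p)
      ((gdesc_eval _ _ p).trans hp)).trans (map_zero _).symm))) q (by simpa only [map_pow] using h0)
  rw [this, map_zero]

theorem gdesc_root {a : K[X] →+* F} {θ : F} {ι : F →+* Ls K} (hι : ∀ p, ι (a p) = tL K p)
    (G : K[X][X]) : (G.map (Polynomial.mapRingHom γ)).eval₂ (tL K') (lm γ (ι θ)) =
      lm γ (ι (G.eval₂ a θ)) := by
  rw [Polynomial.hom_eval₂, Polynomial.hom_eval₂, Polynomial.eval₂_map]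
  exact congrArg (fun g => G.eval₂ g _) (RingHom.ext fun p =>
    ((congrArg (lm γ) (hι p)).trans (kl_lm_tM γ p)).symm)

/-- clear denominators in the field generated by the integral element `θ` -/
theorem desc_mem {a : K[X] →+* F} {θ : F} {χ : K[X][X]} {D : K[X]} (h : Etl a θ χ D)
    {ι : F →+* Ls K} (hι : ∀ p, ι (a p) = tL K p) {y : Ls K}
    (hy : lm γ y ∈ Subfield.closure (Set.range ((lm γ).comp ι) ∪ Set.range (tL K'))) :
    y ∈ ι.range := by
  have h1 : lm γ y ∈ Subfield.closure (Set.range (tL K') ∪ {lm γ (ι θ)}) := by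
    refine Subfield.closure_le.2 ?_ hy
    rintro _ (⟨x, rfl⟩ | hx)
    · have : Subfield.closure (Set.range a ∪ {θ}) ≤
          (Subfield.closure (Set.range (tL K') ∪ {lm γ (ι θ)})).comap ((lm γ).comp ι) := by
        refine Subfield.closure_le.2 ?_
        rintro _ (⟨p, rfl⟩ | rfl)
        · exact Subfield.subset_closure (Or.inl ⟨p.map γ,
            ((congrArg (lm γ) (hι p)).trans (kl_lm_tM γ p)).symm⟩)
        · exact Subfield.subset_closure (Or.inr rfl)
      exact this (h.closure.ge (Subfield.mem_top x))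
    · exact Subfield.subset_closure (Or.inl hx)
  obtain ⟨d, G, hd, e⟩ := gdesc_clear (kl_tM_inj one_pos) (h.monic.map (Polynomial.mapRingHom γ))
    (by rw [gdesc_root γ hι, h.root, map_zero, map_zero]) h1
  rw [Polynomial.eval₂_eq_sum_range, Finset.sum_range] at e
  obtain ⟨d₀, p, h2, h3⟩ := desc_rel γ (fun i : Fin (G.natDegree + 1) => ι θ ^ (i : ℕ)) y hd
    (fun i => G.coeff i) (by simpa only [map_pow] using e)
  refine ⟨(∑ i, a (p i) * θ ^ (i : ℕ)) / a d₀, ?_⟩
  rw [map_div₀, hι, div_eq_iff ((map_ne_zero_iff _ (kl_tM_inj one_pos)).2 h2), mul_comm, h3]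
  simp only [map_sum, map_mul, map_pow, hι]

/-- A curve with a rational point at infinity that splits stays irreducible. -/
theorem Etl.desc {a : K[X] →+* F} {θ : F} {χ : K[X][X]} {D : K[X]} (h : Etl a θ χ D)
    {ι : F →+* Ls K} (hι : ∀ p, ι (a p) = tL K p) :
    Irreducible (χ.map (Polynomial.mapRingHom γ)) := by
  have hm := h.monic.map (Polynomial.mapRingHom γ)
  have h0 : (χ.map (Polynomial.mapRingHom γ)).eval₂ (tL K') (lm γ (ι θ)) = 0 := by
    rw [gdesc_root γ hι, h.root, map_zero, map_zero]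
  have h1 : ∀ G : K'[X][X], G.eval₂ (tL K') (lm γ (ι θ)) = 0 ↔
      χ.map (Polynomial.mapRingHom γ) ∣ G := by
    refine fun G => ⟨fun e => (Polynomial.modByMonic_eq_zero_iff_dvd hm).1 (gdesc_poly γ
      (y := ι θ) (n := χ.natDegree) (fun G₀ h2 h3 => ?_) ?_ ?_), fun ⟨c, e⟩ => ?_⟩
    · refine Polynomial.eq_zero_of_dvd_of_degree_lt ((h.ker G₀).1 (ι.injective ?_))
        (h2.trans_eq (Polynomial.degree_eq_natDegree h.monic.ne_zero).symm)
      rw [Polynomial.hom_eval₂, show ι.comp a = tL K from RingHom.ext hι, h3, map_zero]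
    · refine (Polynomial.degree_modByMonic_lt G hm).trans_eq ?_
      rw [h.monic.degree_map, Polynomial.degree_eq_natDegree h.monic.ne_zero]
    · rw [Polynomial.eval₂_modByMonic_eq_self_of_root h0, e]
    · rw [e, Polynomial.eval₂_mul, h0, zero_mul]
  refine Prime.irreducible ⟨hm.ne_zero, fun hu => ?_, fun p q => ?_⟩
  · have := (h1 1).2 hu.dvd
    rw [Polynomial.eval₂_one] at this
    exact one_ne_zero this
  · rw [← h1, ← h1, ← h1, Polynomial.eval₂_mul]
    exact mul_eq_zero.1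

/-- a series algebraic over `K'(t)` with coefficients in `K` is algebraic over `K(t)` -/
theorem desc_alg {y : Ls K} {G : K'[X][X]} (h0 : G ≠ 0) (h : G.eval₂ (tL K') (lm γ y) = 0) :
    ∃ G₀ : K[X][X], G₀ ≠ 0 ∧ G₀.natDegree ≤ G.natDegree ∧ G₀.eval₂ (tL K) y = 0 := by
  by_contra hn
  refine h0 (gdesc_poly γ (n := G.natDegree + 1) (fun G₀ h1 h2 => ?_)
    (Polynomial.degree_le_natDegree.trans_lt (Nat.cast_lt.2 (Nat.lt_succ_self _))) h)
  by_contra h3
  exact hn ⟨G₀, h3, Nat.lt_succ_iff.1 ((Polynomial.natDegree_lt_iff_degree_lt h3).2 h1), h2⟩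

/-- the field generated by `y` has index one and the same residue field -/
theorem alg_ls [IsAlgClosed K] {y : Ls K'} {G : (Ls K)[X]} (h0 : G ≠ 0)
    (h : G.eval₂ (lm γ) y = 0) : y ∈ (lm γ).range := by
  let := (lm γ).toAlgebra
  have hy : IsAlgebraic (Ls K) y := ⟨G, h0, h⟩
  have := IntermediateField.adjoin.finiteDimensional hy.isIntegral
  have hi : Idx (algebraMap (Ls K) (IntermediateField.adjoin (Ls K) {y})) (lval K)
      ((lv K').comap (IntermediateField.adjoin (Ls K) {y}).subtype) 1 :=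
    idx_one_iff.2 fun x => kl_lv_lm γ x
  obtain ⟨ρ, hρ, hs, -⟩ := (isVR_lval K).exists_red
  have := isAlgClosed_res_ps K
  obtain ⟨ρ', h1, h2⟩ := exists_red_over (hi.over one_ne_zero) hρ
  obtain ⟨a, ha⟩ := (isVR_lval K).cpl.dns_mem (isVR_lval K).1 (hi.over one_ne_zero)
    (dns_of_red (isVR_lval K).1 hi (fun x hx => by
      obtain ⟨a, ha⟩ := hs (ρ' ⟨x, hx⟩)
      exact ⟨a, (h1.eq_iff ⟨x, hx⟩ ((hi.over one_ne_zero).int a)).1 (by rw [h2, ha])⟩)
      ⟨y, IntermediateField.mem_adjoin_simple_self _ _⟩)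
  exact ⟨a, congrArg Subtype.val ha⟩

end Pool.Agent.ZFy.GM
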