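import Pool.Agent.Lib.MP_751085_ag.ZF.G.Ta
import Pool.Agent.Lib.MP_751085_ag.ZF.G.Desc
import Pool.Agent.Lib.MP_751085_ag.ZF.G.Cx

/-! Good models: connectedness of a specialised cover. -/

namespace Pool.Agent.ZFy.GM

open Pool.Agent.ZCy
open scoped Classical WithZero Polynomial PowerSeries
open WithZero (exp)
open IsLocalRing

variable {K₀ F E R KK κ : Type} [Field K₀] [Field F] [Field E] [CommRing R] [IsDomain R] [CDVR R]
  [IsAlgClosed (ResidueField R)] [Field KK] [Field κ] [Algebra F E] [FiniteDimensional F E]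
  [IsGalois F E] {a₀ : K₀[X] →+* F} {θ : F} {χ : K₀[X][X]} {D : K₀[X]} {l : ℕ} {π : R}

theorem gconn_cext (γ : K₀ →+* KK) (j : F →+* Ls K₀) (hj : ∀ p, j (a₀ p) = tL K₀ p) :
    ∃ (F' : Type) (_ : Field F') (a' : KK[X] →+* F') (i : F →+* F') (τ : F' →+* Ls KK),
      CExt γ a₀ a' i ∧ (∀ p, τ (a' p) = tL KK p) ∧ (∀ x, τ (i x) = lm γ (j x)) ∧
      ∀ y, τ y ∈ Subfield.closure (Set.range ((lm γ).comp j) ∪ Set.range (tL KK)) := by
  let U := Subfield.closure (Set.range ((lm γ).comp j) ∪ Set.range (tL KK))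
  let a' : KK[X] →+* U := (tL KK).codRestrict U fun p => Subfield.subset_closure (Or.inr ⟨p, rfl⟩)
  let i : F →+* U := ((lm γ).comp j).codRestrict U fun x =>
    Subfield.subset_closure (Or.inl ⟨x, rfl⟩)
  refine ⟨U, inferInstance, a', i, U.subtype, ⟨fun p => Subtype.ext
    ((congrArg (lm γ) (hj p)).trans (kl_lm_tM γ p)), fun p q e =>
      kl_tM_inj one_pos (congrArg Subtype.val e), eq_top_iff.2 fun x _ => ?_⟩,
    fun _ => rfl, fun _ => rfl, fun y => y.2⟩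
  have h : U ≤ (Subfield.closure (Set.range i ∪ Set.range a')).map U.subtype := by
    refine Subfield.closure_le.2 ?_
    rintro _ (⟨x, rfl⟩ | ⟨p, rfl⟩)
    exacts [⟨i x, Subfield.subset_closure (Or.inl ⟨x, rfl⟩), rfl⟩,
      ⟨a' p, Subfield.subset_closure (Or.inr ⟨p, rfl⟩), rfl⟩]
  obtain ⟨y, hy, e⟩ := h x.2
  exact (Subtype.ext e : y = x) ▸ hy

theorem gconn_bc {F' Ω : Type} [Field F'] [Field Ω] (i : F →+* F') (τ : F' →+* Ω) (J : E →+* Ω)
    (h : ∀ x, J (algebraMap F E x) = τ (i x)) :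
    ∃ (E' : Type) (_ : Field E') (_ : Algebra F' E') (_ : FiniteDimensional F' E')
      (_ : IsGalois F' E') (j : E →+* E') (r : (E' ≃ₐ[F'] E') →* (E ≃ₐ[F] E)) (ι : E' →+* Ω),
      (∀ x, ι (j x) = J x) ∧ (∀ y, ι (algebraMap F' E' y) = τ y) ∧ Sq i j ∧ Rs j r ∧
        Function.Injective r := by
  let _ := τ.toAlgebra
  obtain ⟨h1, h2, j, r, h3, h4⟩ := bc_in (K := F) (K' := F') (φ := i) (j := J) h
  exact ⟨_, _, _, h1, h2, j, r, (IntermediateField.adjoin F' (Set.range J)).subtype, h3,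
    fun _ => rfl, h4⟩

/-- base change inside `Ls KK`; the restriction of automorphisms is onto -/
theorem conn_core (he : Etl a₀ θ χ D) (hp : l.Prime) (hl : IsUnit (l : R))
    (hG : IsPGroup l (E ≃ₐ[F] E)) {j : E →+* Ls K₀} (hj : ∀ p, j (tE E a₀ p) = tL K₀ p)
    {α : R →+* KK} (hα : IsFr α) (hπ : Irreducible π) (γ : K₀ →+* KK)
    (HG : ∀ (F' : Type) [Field F'] (a' : KK[X] →+* F') (i : F →+* F'), CExt γ a₀ a' i →
      Good (a'.comp (Polynomial.mapRingHom α)) 1)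
    (c₀ : κ →+* K₀) (hu : ∀ u : Vl E,
      Triv ((tE E a₀).comp (Polynomial.C.comp c₀)) u → Ine F u = ⊥) :
    ∃ W : Vl E, Dec F W = ⊤ ∧ ∀ (p : K₀[X]) (q : R[X]), p.map γ = q.map α →
      W (tE E a₀ p) ≤ 1 ∧ (W (tE E a₀ p) < 1 ↔ Polynomial.C π ∣ q) := by
  obtain ⟨F', _, a', i, τ, hc, h1, h2, h3⟩ :=
    gconn_cext γ (a₀ := a₀) (j.comp (algebraMap F E)) hj
  obtain ⟨E', _, _, _, _, j', r, ι, h4, h5, hs, hr, hi⟩ :=
    gconn_bc (E := E) i τ ((lm γ).comp j) fun x => (h2 x).symm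
  have hC : ∀ p, j' (tE E a₀ p) = tE E' a' (p.map γ) := fun p =>
    (hs _).trans (congrArg _ (hc.cmp p))
  obtain ⟨lam, hlam⟩ := (isFr_alg R⟦X⟧ (Fr R⟦X⟧)).exists_lift (lau_inj hα.1)
  obtain ⟨hg, -⟩ := ta_core hα hlam hp hl (HG F' a' i hc) (hG.of_injective r hi) (ι := ι)
    (tL_rvs (φ := tE E' a') fun p => (h5 _).trans (h1 p)) fun w hw =>
      hr.ine_bot hi (Over.comap j' w) (hu _ fun c h0 => by
        have h6 := (hor_fr hα (ψ := tE E' a')).1 hw.1 _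
          ((map_ne_zero γ).2 ((map_ne_zero c₀).2 h0))
        rwa [← Polynomial.map_C γ, ← hC] at h6)
  obtain ⟨W, hW, -⟩ := hg.exists_cn1 hπ
  have hd : Dec F' W = ⊤ := hg.dec_top hπ (fun p => ⟨_, rfl⟩) hW
  have ho : Function.Surjective r := hr.surj fun x hx g => by
    obtain ⟨y, hy⟩ := mem_range_of_fix hx
    obtain ⟨z, hz⟩ := desc_mem γ he (ι := j.comp (algebraMap F E)) hj (y := j x) (by
      have h6 := h3 y
      rwa [← h5, hy, h4] at h6)
    rw [← j.injective hz, g.commutes]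
  refine ⟨W.comap j', (Subgroup.eq_top_iff' _).2 fun g => ?_, fun p q e => ?_⟩
  · obtain ⟨g', rfl⟩ := ho g
    exact hr.dec (Over.comap j' W) (hd.ge trivial)
  · rw [Valuation.comap_apply, hC, e]
    exact ⟨hW.1 q, hW.2 q⟩

end Pool.Agent.ZFy.GM
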