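import Pool.Agent.Lib.MP_751085_ag.ZF.G.Pk
import Pool.Agent.Lib.MP_751085_ag.ZF.G.Lxt

/-! Good models: covers that split at infinity. -/

namespace Pool.Agent.ZFy.GM

open Pool.Agent.ZCy
open scoped Classical WithZero Polynomial PowerSeries
open WithZero (exp)
open IsLocalRing

variable {A T R KK κ F E : Type} [CommRing A] [Field T] [CommRing R] [IsDomain R] [CDVR R]
  [Field KK] [Field κ] [IsAlgClosed κ] [Field F] [Field E] [Algebra KK[X] F]
  [IsFractionRing KK[X] F] {φ : A[X] →+* T} {Th : A[X]} {η : A →+* R} {α : R →+* KK} {v : Vl KK}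
  {ρ : R →+* κ} {θ : T} {l : ℕ} {π : R}
  [Algebra F E] [FiniteDimensional F E] [IsGalois F E]

omit [IsAlgClosed κ] in
theorem isUnit_of_res (hρ : Function.Surjective ρ) (hl : (l : κ) ≠ 0) : IsUnit (l : R) := by
  by_contra h
  exact hl (by rw [← map_natCast ρ, ((res_of_surj hρ).1 _).2 h])

theorem gcov_adj (F : Type) {T Ω : Type} [Field F] [Field T] [Field Ω] [Algebra F Ω]
    (τ : T →+* Ω) : ∃ j : T →+* IntermediateField.adjoin F (Set.range τ),
      (∀ x, (j x : Ω) = τ x) ∧ IntermediateField.adjoin F (Set.range j) = ⊤ := by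
  refine ⟨τ.codRestrict _ fun x => IntermediateField.subset_adjoin F _ ⟨x, rfl⟩, fun _ => rfl,
    IntermediateField.lift_injective _ ?_⟩
  rw [IntermediateField.lift_adjoin, IntermediateField.lift_top, ← Set.range_comp]
  rfl

theorem cov_pk (h : GdH φ Th η α θ) (hv : IsVR α v) (hρ : Function.Surjective ρ) (hp : l.Prime)
    (hl : (l : κ) ≠ 0) (hπ : Irreducible π) (c : Cov l φ Th F E (α.comp η)) :
    ∃ (W : Vl E) (ρ' : W.integer →+* Ls κ), Pk l ((toF KK[X] F E).comp (Polynomial.mapRingHom α))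
      (Th.map η) π α v ρ c.ι W ρ' := by
  have := (res_of_surj hρ).2.1 inferInstance
  obtain ⟨j, hj, ht⟩ := gcov_adj F c.j
  obtain ⟨-, -, -, hg⟩ := h F _ j (fun p => Subtype.ext ((hj _).trans (c.hj p))) ht
  obtain ⟨lam, hlam⟩ := exists_lam hv.isFr
  obtain ⟨h1, J, hJ, hd⟩ := ta_core (N := E) hv.isFr hlam hp (isUnit_of_res hρ hl) hg.good
    ((lxt_iff _).1 c.lext) (ι := c.ι) (tL_rvs c.hι) fun w hw =>
      unU_of_unrOff (isFr_alg KK[X] F) c.unr w
        (by rw [← Polynomial.map_map]; exact (unm_fr hv.isFr).1 hw)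
  exact exists_pk hv hπ hρ (isUnit_of_res hρ hl) h1 hlam hJ hd

theorem gd_ta (h : GdH φ Th η α θ) (hv : IsVR α v) (hρ : Function.Surjective ρ) (hp : l.Prime)
    (hl : (l : κ) ≠ 0) (c : Cov l φ Th F E (α.comp η)) : ∃ W, GaussW F c.ι v W := by
  have := (res_of_surj hρ).2.1 inferInstance
  obtain ⟨π, hπ⟩ := IsDiscreteValuationRing.exists_irreducible R
  obtain ⟨W, ρ', k⟩ := cov_pk h hv hρ hp hl hπ c
  obtain ⟨e, he⟩ := hv.exists_equiv
  refine ⟨W, fun x => (hv.1.surj (W x)).imp fun _ => Eq.symm, fun z hz => ?_,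
    k.good.dec_top hπ (fun _ => ⟨_, rfl⟩) k.cn.1, k.good.ine_bot hπ (fun _ => ⟨_, rfl⟩) k.cn.1⟩
  obtain ⟨P, hP, h0⟩ := hz
  obtain ⟨f, hf⟩ := k.int z ⟨P.map (Polynomial.mapRingHom (e.symm : v.integer →+* R)), hP.map _, by
    rw [Polynomial.eval₂_map, ← h0, RingHom.comp_assoc, Polynomial.mapRingHom_comp]
    congr 3
    ext x
    exact (he _).symm.trans (congrArg Subtype.val (e.apply_symm_apply x))⟩
  exact k.sup z f hf

theorem gd_le (h : GdH φ Th η α θ) (hv : IsVR α v) (hρ : Function.Surjective ρ) (hp : l.Prime)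
    (hl : (l : κ) ≠ 0) (c : Cov l φ Th F E (α.comp η)) {t : R} (ht : Th.eval₂ η t = 0) {S : Type}
    [Field S] {β : Ps R →+* S} (hβ : IsFr β) :
    ∃ (e : ℕ) (ε : Ps R) (J : E →+* S), 0 < e ∧ IsUnit ε ∧ ∀ p : R[X],
      J (toF KK[X] F E (p.map α)) =
        β (p.eval₂ PowerSeries.C (PowerSeries.C t + PowerSeries.X ^ e * ε)) := by
  obtain ⟨π, hπ⟩ := IsDiscreteValuationRing.exists_irreducible R
  obtain ⟨W, ρ', k⟩ := cov_pk h hv hρ hp hl hπ c
  obtain ⟨t', ht', hs⟩ := k.good.sm.fin (residue R t)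
  obtain ⟨_, _, _, he, -⟩ := k.good.et
  obtain ⟨J, ψ, hd⟩ := hs.exists_disc he
  obtain ⟨e, ε, h0, hε, -, hJ⟩ := hd.root (s := t) (by rwa [Polynomial.eval_map])
    (by rw [← mem_nonunits_iff, ← mem_maximalIdeal, ← residue_eq_zero_iff, map_sub, ht', sub_self])
  obtain ⟨m, hm⟩ := (isFr_alg R⟦X⟧ (Fr R⟦X⟧)).exists_lift hβ.1
  exact ⟨e, ε, m.comp J, h0, hε, fun p => (congrArg m (hJ p)).trans (hm _)⟩

omit [Algebra F E] [FiniteDimensional F E] [IsGalois F E] in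
theorem cov_base (h : GdH φ Th η α θ) (hv : IsVR α v) (hρ : Function.Surjective ρ) (hp : l.Prime)
    (hl : (l : κ) ≠ 0) {τ : T →+* Ls KK} (hτ : ∀ p, τ (φ p) = tL KK (p.map (α.comp η)))
    (S : Subfield (Ls κ)) (h1 : ∀ p, tL κ p ∈ S) (h2 : ∀ x f, τ x = lm α f → lm ρ f ∈ S) :
    ∃ (E : Type) (_ : Field E) (_ : Algebra F E) (_ : FiniteDimensional F E) (_ : IsGalois F E)
      (c : Cov l φ Th F E (α.comp η)), (∀ x, c.ι (c.j x) = τ x) ∧
      ∀ z f, c.ι z = lm α f → lm ρ f ∈ S := by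
  have := (res_of_surj hρ).2.1 inferInstance
  obtain ⟨π, hπ⟩ := IsDiscreteValuationRing.exists_irreducible R
  obtain ⟨m, hm⟩ := (isFr_alg KK[X] F).exists_lift (kl_tM_inj (R := KK) one_pos)
  let := m.toAlgebra
  obtain ⟨j, hj, ht⟩ := gcov_adj F τ
  have e : ∀ p, j (φ p) = toF KK[X] F _ (p.map (α.comp η)) := fun p =>
    Subtype.ext ((hj _).trans ((hτ p).trans (hm _).symm))
  obtain ⟨_, _, hu, -, χ, D, he, hD⟩ := h F _ j e ht
  let c : Cov l φ Th F _ (α.comp η) := ⟨j, (IntermediateField.adjoin F (Set.range τ)).val, e, hm,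
    (lxt_iff _).2 (by
      rw [ht]
      exact fun g => ⟨0, (by rw [pow_zero, pow_one] : g ^ l ^ 0 = g).trans
        (AlgEquiv.ext fun x => g.commutes ⟨x, trivial⟩)⟩), hu⟩
  obtain ⟨W, ρ', k⟩ := cov_pk h hv hρ hp hl hπ c
  refine ⟨_, _, _, inferInstance, inferInstance, c, hj, fun z f hf => ?_⟩
  obtain ⟨y, -, hy⟩ := k.res z f hf
  rw [← hy]
  refine he.res_mem (Polynomial.prime_C_iff.2 hπ.prime)
    (fun e => hD ((poly_red_eq_zero hπ D).2 e)) (k.good.uni hπ) k.cn.1 k.red S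
    (fun p y e => k.pol p y e ▸ h1 _) (fun y e => ?_) y
  obtain ⟨g, hg⟩ := k.int (j θ) ⟨χ, he.monic, (he.ker χ).2 dvd_rfl⟩
  obtain ⟨y', e1, e2⟩ := k.res _ g hg
  rw [show y = y' from Subtype.ext (e.trans e1.symm), e2]
  exact h2 θ g ((hj θ).symm.trans hg)

end Pool.Agent.ZFy.GM
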