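import Pool.Agent.Lib.MP_751085_ag.ZF.G.Et0
import Pool.Agent.Lib.MP_751085_ag.ZC.UDiv1

/-! Constant extensions: specialisation of coefficients. -/

namespace Pool.Agent.ZFy.GM

open Pool.Agent.ZCy
open scoped Classical WithZero Polynomial PowerSeries
open WithZero (exp)

variable {K K' : Type} [Field K] [Field K']

theorem gcs0_map {A B C : Type} [CommRing A] [CommRing B] [CommRing C] (f : A →+* B) (g : B →+* C)
    (G : A[X][X]) : (G.map (Polynomial.mapRingHom f)).map (Polynomial.mapRingHom g) =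
      G.map (Polynomial.mapRingHom (g.comp f)) := by
  rw [Polynomial.map_map, Polynomial.mapRingHom_comp]

/-- a retraction that is defined on the coefficients of finitely many polynomials -/
theorem exists_retract2 [IsAlgClosed K] (γ : K →+* K') (T : Finset K'[X][X]) :
    ∃ (V : Type) (_ : CommRing V) (σ : K →+* V) (τ : V →+* K') (ψ : V →+* K),
      Function.Injective τ ∧ τ.comp σ = γ ∧ ψ.comp σ = RingHom.id K ∧
      ∀ G ∈ T, ∃ G' : V[X][X], G'.map (Polynomial.mapRingHom τ) = G := by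
  obtain ⟨V, σ, ψ, h1, h2, h3⟩ :=
    U.exists_retract γ (T.biUnion fun G => G.coeffs.biUnion Polynomial.coeffs)
  exact ⟨V, inferInstance, σ, V.subtype, ψ, Subtype.val_injective, h2, h3, fun G hG =>
    (Polynomial.mem_lifts G).1 ((Polynomial.lifts_iff_coeffs_subset_range G).2 fun p hp =>
      (Polynomial.mem_lifts p).1 ((Polynomial.lifts_iff_coeffs_subset_range p).2 fun a ha =>
        ⟨⟨a, h1 a (Finset.mem_biUnion.2 ⟨G, hG, Finset.mem_biUnion.2 ⟨p, hp, ha⟩⟩)⟩, rfl⟩))⟩

/-- irreducibility over an algebraically closed field is absolute -/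
theorem irr_cl [IsAlgClosed K] (γ : K →+* K') {χ : K[X][X]} (hm : χ.Monic) (h : Irreducible χ) :
    Irreducible (χ.map (Polynomial.mapRingHom γ)) := by
  refine (hm.map _).irreducible_iff_natDegree.2 ⟨fun h1 => h.ne_one ?_, fun f g hf hg e => ?_⟩
  · exact Polynomial.map_injective _ (Polynomial.map_injective γ γ.injective)
      (h1.trans (Polynomial.map_one _).symm)
  obtain ⟨V, _, σ, τ, ψ, h1, rfl, h3, h4⟩ := exists_retract2 γ {f, g}
  obtain ⟨f, rfl⟩ := h4 f (by simp)
  obtain ⟨g, rfl⟩ := h4 g (by simp)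
  have hi : Function.Injective (Polynomial.mapRingHom τ) := Polynomial.map_injective τ h1
  have hf' := Polynomial.monic_of_injective hi hf
  have hg' := Polynomial.monic_of_injective hi hg
  rw [← gcs0_map, ← Polynomial.map_mul] at e
  have e' := congrArg (Polynomial.map (Polynomial.mapRingHom ψ)) (Polynomial.map_injective _ hi e)
  rw [gcs0_map, h3, Polynomial.mapRingHom_id, Polynomial.map_id, Polynomial.map_mul] at e'
  have h5 := (hm.irreducible_iff_natDegree.1 h).2 _ _ (hf'.map _) (hg'.map _) e'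
  rwa [hf'.natDegree_map, hg'.natDegree_map, ← hf'.natDegree_map (Polynomial.mapRingHom τ),
    ← hg'.natDegree_map (Polynomial.mapRingHom τ)] at h5

/-- specialisation of the relation `G₀ * d ^ l = H₀ * G ^ l` modulo `χ` -/
theorem spec_pow [IsAlgClosed K] (γ : K →+* K') {χ G₀ H₀ : K[X][X]} {G : K'[X][X]} {d : K'[X]}
    (hd : d ≠ 0) {l : ℕ} (h : χ.map (Polynomial.mapRingHom γ) ∣
      G₀.map (Polynomial.mapRingHom γ) * Polynomial.C d ^ l -
        H₀.map (Polynomial.mapRingHom γ) * G ^ l) :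
    ∃ (G₁ : K[X][X]) (d₁ : K[X]), d₁ ≠ 0 ∧ χ ∣ G₀ * Polynomial.C d₁ ^ l - H₀ * G₁ ^ l := by
  obtain ⟨Q, e⟩ := h
  obtain ⟨V, _, σ, τ, ψ, h1, rfl, h3, h4⟩ := exists_retract2 γ
    {G, Q, Polynomial.C d, Polynomial.C (Polynomial.C d.leadingCoeff⁻¹)}
  obtain ⟨G, rfl⟩ := h4 G (by simp)
  obtain ⟨Q, rfl⟩ := h4 Q (by simp)
  obtain ⟨D, hD⟩ := h4 (Polynomial.C d) (by simp)
  obtain ⟨U, hU⟩ := h4 (Polynomial.C (Polynomial.C d.leadingCoeff⁻¹)) (by simp)
  have h5 : (D.coeff 0).map τ = d := by simpa using congrArg (·.coeff 0) hD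
  have h6 : τ ((U.coeff 0).coeff 0) = d.leadingCoeff⁻¹ := by
    simpa using congrArg (fun p : K'[X][X] => (p.coeff 0).coeff 0) hU
  have h7 : (D.coeff 0).coeff d.natDegree * (U.coeff 0).coeff 0 = 1 := h1 (by
    rw [map_mul, h6, map_one, ← Polynomial.coeff_map, h5]
    exact mul_inv_cancel₀ (Polynomial.leadingCoeff_ne_zero.2 hd))
  have h8 : G₀.map (Polynomial.mapRingHom σ) * Polynomial.C (D.coeff 0) ^ l -
      H₀.map (Polynomial.mapRingHom σ) * G ^ l = χ.map (Polynomial.mapRingHom σ) * Q :=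
    Polynomial.map_injective (Polynomial.mapRingHom τ) (Polynomial.map_injective τ h1) (by
      simpa only [Polynomial.map_sub, Polynomial.map_mul, Polynomial.map_pow, gcs0_map,
        Polynomial.map_C, Polynomial.coe_mapRingHom, h5] using e)
  refine ⟨G.map (Polynomial.mapRingHom ψ), (D.coeff 0).map ψ, fun h0 => ?_,
    Q.map (Polynomial.mapRingHom ψ), ?_⟩
  · have h9 := congrArg ψ h7
    rw [map_mul, ← Polynomial.coeff_map, h0, Polynomial.coeff_zero, zero_mul, map_one] at h9
    exact zero_ne_one h9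
  · simpa only [Polynomial.map_sub, Polynomial.map_mul, Polynomial.map_pow, gcs0_map, h3,
      Polynomial.map_C, Polynomial.mapRingHom_id, Polynomial.map_id, Polynomial.coe_mapRingHom]
      using congrArg (Polynomial.map (Polynomial.mapRingHom ψ)) h8

end Pool.Agent.ZFy.GM
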