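import Pool.Agent.Lib.MP_751085_ag.ZF.G.Cs0
import Pool.Agent.Lib.MP_751085_ag.ZF.G.Rev
import Pool.Agent.Lib.MP_751085_ag.ZF.G.Pld

/-! Constant extensions: basic facts. -/

namespace Pool.Agent.ZFy.GM

open Pool.Agent.ZCy
open scoped Classical WithZero Polynomial PowerSeries
open WithZero (exp)

variable {K K' K'' F F' F'' L : Type} [Field K] [Field K'] [Field K''] [Field F] [Field F']
  [Field F''] [Field L] {γ : K →+* K'} {γ' : K' →+* K''} {a : K[X] →+* F} {a' : K'[X] →+* F'}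
  {a'' : K''[X] →+* F''} {i : F →+* F'} {i' : F' →+* F''} {θ : F} {χ : K[X][X]} {D Θ : K[X]}

theorem gcs1_ev {b : K'[X] →+* L} {j : F →+* L} (hj : ∀ p, j (a p) = b (p.map γ)) (G : K[X][X])
    (x : F) : j (G.eval₂ a x) = (G.map (Polynomial.mapRingHom γ)).eval₂ b (j x) := by
  rw [Polynomial.hom_eval₂, Polynomial.eval₂_map,
    show j.comp a = b.comp (Polynomial.mapRingHom γ) from RingHom.ext hj]

theorem gcs1_mem {T : Set F} (hT : Subfield.closure T = ⊤) (S : Subfield L) (j : F →+* L)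
    (h : ∀ x ∈ T, j x ∈ S) (x : F) : j x ∈ S :=
  (Subfield.closure_le (t := S.comap j)).2 h (hT ▸ Subfield.mem_top x)

theorem CExt.eval₂ (hc : CExt γ a a' i) (G : K[X][X]) (x : F) :
    i (G.eval₂ a x) = (G.map (Polynomial.mapRingHom γ)).eval₂ a' (i x) := by
  exact gcs1_ev hc.cmp G x

theorem CExt.etl (hc : CExt γ a a' i) (h : Etl a θ χ D)
    (hi : Irreducible (χ.map (Polynomial.mapRingHom γ))) :
    Etl a' (i θ) (χ.map (Polynomial.mapRingHom γ)) (D.map γ) := by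
  obtain ⟨p, q, e⟩ := h.bez
  refine etl_of_irr hc.inj (p := p.map (Polynomial.mapRingHom γ))
    (q := q.map (Polynomial.mapRingHom γ)) (h.monic.map _) hi
    (by rw [← hc.eval₂, h.root, map_zero]) ?_ ((Polynomial.map_ne_zero_iff γ.injective).2 h.ne)
    (eq_top_iff.2 (hc.gen.ge.trans (Subfield.closure_le.2 ?_)))
  · rw [Polynomial.derivative_map, ← Polynomial.map_mul, ← Polynomial.map_mul, ← Polynomial.map_add,
      ← e, Polynomial.map_C]
    rfl
  · rintro _ (⟨x, rfl⟩ | ⟨r, rfl⟩)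
    · refine gcs1_mem h.closure _ i ?_ x
      rintro _ (⟨r, rfl⟩ | rfl)
      exacts [Subfield.subset_closure (Or.inl ⟨_, (hc.cmp r).symm⟩),
        Subfield.subset_closure (Or.inr rfl)]
    · exact Subfield.subset_closure (Or.inl ⟨r, rfl⟩)

theorem Etl.irr_cl [IsAlgClosed K] (h : Etl a θ χ D) (γ : K →+* K') :
    Irreducible (χ.map (Polynomial.mapRingHom γ)) := by
  exact GM.irr_cl γ h.monic h.prime.irreducible

theorem CExt.etl' [IsAlgClosed K] (hc : CExt γ a a' i) (h : Etl a θ χ D) :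
    Etl a' (i θ) (χ.map (Polynomial.mapRingHom γ)) (D.map γ) := by
  exact hc.etl h (h.irr_cl γ)

/-- `F'` is the subfield of `L` generated by the ranges of `j` and `b`. -/
theorem cext_in (γ : K →+* K') {b : K'[X] →+* L} (hb : Function.Injective b) {j : F →+* L}
    (hj : ∀ p, j (a p) = b (p.map γ)) : ∃ (F' : Type) (_ : Field F') (a' : K'[X] →+* F')
      (i : F →+* F') (e : F' →+* L), CExt γ a a' i ∧ (∀ x, e (i x) = j x) ∧
        ∀ p, e (a' p) = b p := by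
  let S := Subfield.closure (Set.range j ∪ Set.range b)
  refine ⟨S, inferInstance, b.codRestrict S fun p => Subfield.subset_closure (Or.inr ⟨p, rfl⟩),
    j.codRestrict S fun x => Subfield.subset_closure (Or.inl ⟨x, rfl⟩), S.subtype,
    ⟨fun p => Subtype.ext (hj p), fun p q e => hb (congrArg Subtype.val e),
      eq_top_iff.2 fun x _ => ?_⟩, fun _ => rfl, fun _ => rfl⟩
  suffices H : ∀ T : Subfield S, Set.range j ∪ Set.range b ⊆ T.map S.subtype → x ∈ T by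
    refine H _ ?_
    rintro _ (⟨x, rfl⟩ | ⟨p, rfl⟩)
    exacts [⟨_, Subfield.subset_closure (Or.inl ⟨x, rfl⟩), rfl⟩,
      ⟨_, Subfield.subset_closure (Or.inr ⟨p, rfl⟩), rfl⟩]
  intro T hT
  obtain ⟨y, hy, e⟩ := Subfield.closure_le.2 hT x.2
  exact Subtype.ext e ▸ hy

theorem exists_cext (γ : K →+* K') (h : Etl a θ χ D) :
    ∃ (F' : Type) (_ : Field F') (a' : K'[X] →+* F') (i : F →+* F'), CExt γ a a' i := by
  let c := algebraMap (Fr K'[X]) (AlgebraicClosure (Fr K'[X]))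
  let b := c.comp (algebraMap K'[X] (Fr K'[X]))
  have hb : Function.Injective b := c.injective.comp (IsFractionRing.injective K'[X] (Fr K'[X]))
  have hb' : Function.Injective (b.comp (Polynomial.mapRingHom γ)) :=
    hb.comp (Polynomial.map_injective γ γ.injective)
  obtain ⟨z, hz⟩ := IsAlgClosed.exists_eval₂_eq_zero_of_injective _ hb' χ
    (h.monic.degree_pos_of_not_isUnit h.prime.not_isUnit).ne'
  obtain ⟨j, hj, -⟩ := h.lift hb' hz
  obtain ⟨F', _, a', i, -, hc, -⟩ := cext_in γ hb hj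
  exact ⟨F', _, a', i, hc⟩

theorem CExt.mem_range (hc : CExt γ a a' i) (e : F' →+* L) (y : L) : y ∈ e.range ↔
    y ∈ Subfield.closure (Set.range (e.comp i) ∪ Set.range (e.comp a')) := by
  refine ⟨?_, fun hy => (Subfield.closure_le (t := e.fieldRange)).2 ?_ hy⟩
  · rintro ⟨x, rfl⟩
    refine gcs1_mem hc.gen _ e ?_ x
    rintro _ (⟨x, rfl⟩ | ⟨p, rfl⟩)
    exacts [Subfield.subset_closure (Or.inl ⟨x, rfl⟩), Subfield.subset_closure (Or.inr ⟨p, rfl⟩)]
  · rintro _ (⟨x, rfl⟩ | ⟨p, rfl⟩)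
    exacts [⟨_, rfl⟩, ⟨_, rfl⟩]

theorem exists_mid {i'' : F →+* F''} (hc : CExt (γ'.comp γ) a a'' i'') :
    ∃ (F' : Type) (_ : Field F') (a' : K'[X] →+* F') (i : F →+* F') (i' : F' →+* F''),
      CExt γ a a' i ∧ CExt γ' a' a'' i' ∧ ∀ x, i' (i x) = i'' x := by
  obtain ⟨F', _, a', i, e, h1, h2, h3⟩ := cext_in γ (b := a''.comp (Polynomial.mapRingHom γ'))
    (hc.inj.comp (Polynomial.map_injective γ' γ'.injective)) (j := i'')
    fun p => by rw [hc.cmp, ← Polynomial.map_map]; rfl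
  refine ⟨F', _, a', i, e, h1, ⟨h3, hc.inj, eq_top_iff.2 (hc.gen.ge.trans
    (Subfield.closure_mono (Set.union_subset_union_left _ ?_)))⟩, h2⟩
  rintro _ ⟨x, rfl⟩
  exact ⟨_, h2 x⟩

theorem CExt.comp (hc : CExt γ a a' i) (hc' : CExt γ' a' a'' i') :
    CExt (γ'.comp γ) a a'' (i'.comp i) := by
  refine ⟨fun p => by rw [RingHom.comp_apply, hc.cmp, hc'.cmp, Polynomial.map_map], hc'.inj,
    eq_top_iff.2 (hc'.gen.ge.trans (Subfield.closure_le.2 ?_))⟩
  rintro _ (⟨x, rfl⟩ | ⟨p, rfl⟩)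
  · refine gcs1_mem hc.gen _ i' ?_ x
    rintro _ (⟨y, rfl⟩ | ⟨p, rfl⟩)
    exacts [Subfield.subset_closure (Or.inl ⟨y, rfl⟩),
      Subfield.subset_closure (Or.inr ⟨_, (hc'.cmp p).symm⟩)]
  · exact Subfield.subset_closure (Or.inr ⟨p, rfl⟩)

theorem CExt.lift (hc : CExt γ a a' i) (h : Etl a θ χ D)
    (hi : Irreducible (χ.map (Polynomial.mapRingHom γ))) {b : K'[X] →+* L}
    (hb : Function.Injective b) {j : F →+* L} (hj : ∀ p, j (a p) = b (p.map γ)) :
    ∃ e : F' →+* L, (∀ x, e (i x) = j x) ∧ ∀ p, e (a' p) = b p := by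
  obtain ⟨e, h1, h2⟩ := (hc.etl h hi).lift hb (z := j θ) (by rw [← gcs1_ev hj, h.root, map_zero])
  exact ⟨e, RingHom.congr_fun (h.hom_ext (j := e.comp i)
    (fun p => by rw [RingHom.comp_apply, hc.cmp, h1, hj]) h2), h1⟩

theorem CExt.hom_ext (hc : CExt γ a a' i) {e e' : F' →+* L} (h1 : ∀ x, e (i x) = e' (i x))
    (h2 : ∀ p, e (a' p) = e' (a' p)) : e = e' := by
  refine hom_ext_closure hc.gen ?_
  rintro _ (⟨x, rfl⟩ | ⟨p, rfl⟩)
  exacts [h1 x, h2 p]

theorem CExt.surj (hc : CExt γ a a' i) (hγ : Function.Surjective γ) : Function.Surjective i := by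
  refine range_of_closure hc.gen i (RingHom.id _) ?_
  rintro _ (⟨x, rfl⟩ | ⟨p, rfl⟩)
  · exact ⟨x, rfl⟩
  · obtain ⟨q, rfl⟩ := Polynomial.map_surjective γ hγ p
    exact ⟨a q, hc.cmp q⟩

theorem TW.cext {m : ℕ} {u : F} (h : TW m a Θ u) (hi : ∀ p, i (a p) = a' (p.map γ)) :
    TW m a' (Θ.map γ) (i u) := by
  refine fun v hv hu => h.map i v hv ⟨fun r hr => ?_, ?_, ?_⟩ <;> rw [RingHom.comp_apply, hi]
  · rw [Polynomial.map_C]
    exact hu.1 _ ((map_ne_zero γ).2 hr)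
  · rw [Polynomial.map_X]
    exact hu.2.1
  · exact hu.2.2

theorem tw_dvd (m : ℕ) (hD : D ∣ Θ) : TW m a Θ (a D) := by
  obtain ⟨E, rfl⟩ := hD
  exact fun v _ hu => by simp [ord, hu.of_mul.2.2]

theorem TW.of_mul_pow {m : ℕ} {u z : F} (h : TW m a Θ (u * z ^ m)) (hz : z ≠ 0) : TW m a Θ u := by
  have := h.mul (tw_pow m z).inv
  rwa [mul_inv_cancel_right₀ (pow_ne_zero _ hz)] at this

/-- `S` is the set of coefficients of `G` and `d` with `u * a d = G(θ)`. -/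
theorem Etl.exists_def (h : Etl a θ χ D) (u : F) : ∃ S : Finset K,
    ∀ (K₁ F₁ : Type) [Field K₁] [Field F₁] (γ : K₁ →+* K) (a₁ : K₁[X] →+* F₁) (i : F₁ →+* F),
      (∀ s ∈ S, s ∈ γ.range) → (∀ p, i (a₁ p) = a (p.map γ)) → θ ∈ i.range → u ∈ i.range := by
  obtain ⟨G, d, hd, e⟩ := h.gen u
  refine ⟨d.coeffs ∪ G.coeffs.biUnion Polynomial.coeffs, fun K₁ F₁ _ _ γ a₁ i h1 h2 h3 => ?_⟩
  have h4 : ∀ p : K[X], (∀ s ∈ p.coeffs, s ∈ γ.range) → a p ∈ i.fieldRange := fun p hp => by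
    obtain ⟨q, rfl⟩ := (Polynomial.lifts_iff_coeffs_subset_range (f := γ) p).2 hp
    exact ⟨_, h2 q⟩
  rw [eq_div_of_mul_eq ((map_ne_zero_iff a h.inj).2 hd) e, Polynomial.eval₂_eq_sum]
  exact div_mem (H := i.fieldRange) (sum_mem fun n hn => mul_mem (h4 _ fun s hs => h1 s
    (Finset.mem_union_right _ (Finset.mem_biUnion.2
      ⟨_, Polynomial.coeff_mem_coeffs (Polynomial.mem_support_iff.1 hn), hs⟩))) (pow_mem h3 n))
    (h4 d fun s hs => h1 s (Finset.mem_union_left _ hs))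

theorem pow_of_cext [IsAlgClosed K] (hc : CExt γ a a' i) (h : Etl a θ χ D) {l : ℕ} {x : F}
    {z : F'} (e : i x = z ^ l) : ∃ y, x = y ^ l := by
  obtain ⟨G₀, d₀, h0, e0⟩ := h.gen x
  obtain ⟨G, d, h1, e1⟩ := (hc.etl' h).gen z
  obtain ⟨G₁, d₁, h2, h3⟩ := spec_pow γ (G₀ := G₀) (H₀ := Polynomial.C d₀) (G := G) h1 (l := l)
    (((hc.etl' h).ker _).1 (by
      simp only [Polynomial.eval₂_sub, Polynomial.eval₂_mul, Polynomial.eval₂_pow,
        Polynomial.eval₂_C, ← hc.eval₂, ← e0, ← e1, map_mul, e]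
      ring))
  have h4 := (h.ker _).2 h3
  simp only [Polynomial.eval₂_sub, Polynomial.eval₂_mul, Polynomial.eval₂_pow, Polynomial.eval₂_C,
    ← e0] at h4
  refine ⟨G₁.eval₂ a θ / a d₁, ?_⟩
  rw [div_pow, eq_div_iff (pow_ne_zero _ ((map_ne_zero_iff a h.inj).2 h2))]
  exact mul_left_cancel₀ ((map_ne_zero_iff a h.inj).2 h0) (by linear_combination h4)

end Pool.Agent.ZFy.GM
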