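import Pool.Agent.Lib.MP_751085_ag.ZF.G.Up
import Pool.Agent.Lib.MP_751085_ag.ZF.G.Et0

/-! Good models: coverings by discs. -/

namespace Pool.Agent.ZFy.GM

open Pool.Agent.ZCy
open scoped Classical WithZero Polynomial PowerSeries
open WithZero (exp)
open IsLocalRing

variable {R F : Type} [CommRing R] [IsDomain R] [CDVR R] [Field F] {π t : R} {a : R[X] →+* F}
  {Θ : R[X]} {J : F →+* Fr R⟦X⟧} {ψ : R⟦X⟧ →+* R⟦X⟧} {V : Vl (Fr R⟦X⟧)}

omit [CDVR R] in
/-- pass to the algebraic closure -/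
theorem cvs_of_closed {𝒟 : Set ((F →+* Fr R⟦X⟧) × (R⟦X⟧ →+* R⟦X⟧))}
    (hD : ∀ d ∈ 𝒟, Disc a Θ t d.1 d.2)
    (H : ∀ (L : Type) [Field L] [IsAlgClosed L] (b : R⟦X⟧ →+* L) (j : F →+* L),
      Function.Injective b → (∀ p, j (a p) = b (sh t p)) → ∃ d ∈ 𝒟, ∃ ι : Fr R⟦X⟧ →+* L,
        (∀ x, ι (d.1 x) = j x) ∧ ∀ f, ι (fr R (d.2 f)) = b f) : Cvs a t 𝒟 := by
  intro L _ b j hb hj
  let μ := algebraMap L (AlgebraicClosure L)
  obtain ⟨d, hd, ι, h1, h2⟩ := H (AlgebraicClosure L) (μ.comp b) (μ.comp j)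
    (μ.injective.comp hb) fun p => congrArg μ (hj p)
  obtain ⟨ι', h⟩ := exists_fac μ ι (range_of_closure (hD d hd).gen μ ι (by
    rintro _ (⟨x, rfl⟩ | ⟨f, rfl⟩)
    exacts [⟨j x, (h1 x).symm⟩, ⟨b f, (h2 f).symm⟩]))
  exact ⟨d, hd, ι', fun x => μ.injective ((h _).trans (h1 x)),
    fun f => μ.injective ((h _).trans (h2 f))⟩

omit [CDVR R] in
theorem smat_of_closed (H : ∀ (L : Type) [Field L] [IsAlgClosed L] (b : R⟦X⟧ →+* L) (j : F →+* L),
      Function.Injective b → (∀ p, j (a p) = b (sh t p)) → ∃ J ψ, Disc a Θ t J ψ ∧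
        ∃ ι : Fr R⟦X⟧ →+* L, (∀ x, ι (J x) = j x) ∧ ∀ f, ι (fr R (ψ f)) = b f) : SMat a Θ t :=
  cvs_of_closed (fun _ h => h) fun L _ _ b j hb hj => by
    obtain ⟨J, ψ, h, ι, h1, h2⟩ := H L b j hb hj
    exact ⟨(J, ψ), h, ι, h1, h2⟩

omit [CDVR R] in
theorem smat_of_galois {K : Type} [Field K] [Algebra K F] [Normal K F] {α : R[X] →+* K}
    (hα : IsFr α) (h : Disc (tE F α) Θ t J ψ) : SMat (tE F α) Θ t := by
  refine smat_of_closed fun L _ _ b j hb hj => ?_
  obtain ⟨β, hβ⟩ := (isFr_alg R⟦X⟧ (Fr R⟦X⟧)).exists_lift hb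
  obtain ⟨ι, hι⟩ := exists_ext_fr h.inj h.int β
  have h1 : ∀ f, ι (fr R (ψ f)) = b f := fun f => (hι f).trans (hβ f)
  have h2 : j.comp (algebraMap K F) = (ι.comp J).comp (algebraMap K F) := hα.hom_ext fun p =>
    (hj p).trans ((h1 _).symm.trans (congrArg ι (h.cmp p).symm))
  obtain ⟨g, hg⟩ := exists_twist (K := K) (ι.comp J) j (DFunLike.congr_fun h2)
  refine ⟨J.comp (g : F →+* F), ψ, ⟨h.cst, h.inj, h.int,
    fun p => (congrArg J (g.commutes (α p))).trans (h.cmp p), ?_, h.mark⟩, ι,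
    fun x => (hg x).symm, h1⟩
  rw [RingHom.coe_comp, Function.Surjective.range_comp (f := (g : F →+* F)) g.surjective]
  exact h.gen

omit [CDVR R] in
/-- `j θ` is one of the `b η`, so `j` has values in the image of `Fr R⟦X⟧` -/
theorem smat_split {θ : F} (hg : Subfield.closure (Set.range a ∪ {θ}) = ⊤) {χ : R[X][X]}
    (h0 : χ.eval₂ a θ = 0) {s : Multiset R⟦X⟧}
    (hs : χ.map (sh t) = (s.map fun η => Polynomial.X - Polynomial.C η).prod)
    (hm : ∃ e : ℕ, Associated (sh t Θ) (PowerSeries.X ^ e)) : SMat a Θ t := by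
  intro L _ b j hb hj
  obtain ⟨β, hβ⟩ := (isFr_alg R⟦X⟧ (Fr R⟦X⟧)).exists_lift hb
  have h1 : Polynomial.eval₂RingHom b (j θ) (χ.map (sh t)) = 0 := by
    rw [Polynomial.coe_eval₂RingHom, Polynomial.eval₂_map,
      ← show j.comp a = b.comp (sh t) from RingHom.ext hj, ← Polynomial.hom_eval₂, h0, map_zero]
  rw [hs, map_multiset_prod, Multiset.prod_eq_zero_iff, Multiset.map_map, Multiset.mem_map] at h1
  obtain ⟨η, -, h2⟩ := h1
  have h3 : j θ - b η = 0 := by simpa using h2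
  obtain ⟨J, hJ⟩ := exists_fac β j (range_of_closure hg β j (by
    rintro _ (⟨p, rfl⟩ | rfl)
    exacts [⟨_, (hβ _).trans (hj p).symm⟩, ⟨_, (hβ η).trans (sub_eq_zero.1 h3).symm⟩]))
  exact ⟨(J, RingHom.id _), disc_id (fun p => β.injective
    ((hJ _).trans ((hj p).trans (hβ _).symm))) hm, β, hJ, hβ⟩

/-- lift a root of the reduction and divide -/
theorem ps_split [IsAlgClosed (ResidueField R)] {χ : R⟦X⟧[X]} (hm : χ.Monic)
    (hs : (χ.map ((residue R).comp PowerSeries.constantCoeff)).Separable) :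
    ∃ s : Multiset R⟦X⟧, χ = (s.map fun η => Polynomial.X - Polynomial.C η).prod := by
  induction hn : χ.natDegree generalizing χ with
  | zero => exact ⟨0, hm.natDegree_eq_zero.1 hn⟩
  | succ n ih =>
    obtain ⟨z, hz⟩ := IsAlgClosed.exists_root
      (χ.map ((residue R).comp PowerSeries.constantCoeff)) (by
        rw [hm.degree_map, Polynomial.degree_eq_natDegree hm.ne_zero, hn]
        exact_mod_cast n.succ_ne_zero)
    have h1 := hs.eval₂_derivative_ne_zero (RingHom.id _) (x := z) hz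
    rw [Polynomial.derivative_map, Polynomial.eval₂_id, Polynomial.eval_map] at h1
    obtain ⟨η, hη, -⟩ := ps_hensel hm ((Polynomial.eval_map _ _).symm.trans hz) h1
    obtain ⟨χ', rfl⟩ := Polynomial.dvd_iff_isRoot.2 hη
    have h2 := (Polynomial.monic_X_sub_C η).of_mul_monic_left hm
    rw [(Polynomial.monic_X_sub_C η).natDegree_mul h2, Polynomial.natDegree_X_sub_C] at hn
    rw [Polynomial.map_mul] at hs
    obtain ⟨s, rfl⟩ := ih h2 hs.of_mul_right (by omega)
    exact ⟨η ::ₘ s, by rw [Multiset.map_cons, Multiset.prod_cons]⟩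

theorem smat_etale [IsAlgClosed (ResidueField R)] {θ : F} {χ : R[X][X]} {D : R[X]}
    (h : Etl a θ χ D) (hD : IsUnit (D.eval t))
    (hm : ∃ e : ℕ, Associated (sh t Θ) (PowerSeries.X ^ e)) : SMat a Θ t := by
  obtain ⟨p, q, e⟩ := h.bez
  obtain ⟨u, hu⟩ := hD.exists_left_inv
  obtain ⟨s, hs⟩ := ps_split (h.monic.map (sh t)) (by
    have e1 : ((residue R).comp PowerSeries.constantCoeff).comp (sh t) =
        (residue R).comp (Polynomial.evalRingHom t) :=
      RingHom.ext fun f => congrArg (residue R) (cc_sh t f)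
    rw [Polynomial.map_map, e1, ← Polynomial.map_map]
    refine Polynomial.Separable.map ((Polynomial.separable_def' _).2
      ⟨Polynomial.C u * p.map (Polynomial.evalRingHom t),
        Polynomial.C u * q.map (Polynomial.evalRingHom t), ?_⟩)
    rw [Polynomial.derivative_map, mul_assoc, mul_assoc, ← mul_add, ← Polynomial.map_mul,
      ← Polynomial.map_mul, ← Polynomial.map_add, ← e, Polynomial.map_C, ← map_mul]
    exact (congrArg Polynomial.C hu).trans (map_one _))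
  exact smat_split h.closure h.root hs hm

omit [CDVR R] in
theorem SMat.comp {F' : Type} [Field F'] (h : SMat a Θ t) {e : F →+* F'}
    (he : Function.Surjective e) : SMat (e.comp a) Θ t := by
  intro L _ b j hb hj
  obtain ⟨d, hd, ι, h1, h2⟩ := h L b (j.comp e) hb hj
  let ε := RingEquiv.ofBijective e ⟨e.injective, he⟩
  exact ⟨(d.1.comp (ε.symm : F' →+* F), d.2),
    Disc.ext hd fun x => congrArg d.1 (ε.symm_apply_apply x), ι,
    fun x => (h1 _).trans (congrArg j (ε.apply_symm_apply x)), h2⟩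

omit [CDVR R] in
theorem SMat.exists_disc {θ : F} {χ : R[X][X]} {D : R[X]} (h : SMat a Θ t) (he : Etl a θ χ D) :
    ∃ J ψ, Disc a Θ t J ψ := by
  let b := (algebraMap (Fr R⟦X⟧) (AlgebraicClosure (Fr R⟦X⟧))).comp (fr R)
  have hb : Function.Injective b :=
    (algebraMap (Fr R⟦X⟧) _).injective.comp (isFr_alg R⟦X⟧ (Fr R⟦X⟧)).1
  obtain ⟨z, hz⟩ := IsAlgClosed.exists_root (χ.map (b.comp (sh t))) (by
    rw [he.monic.degree_map, Polynomial.degree_eq_natDegree he.monic.ne_zero]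
    exact_mod_cast he.pos.ne')
  obtain ⟨j, hj, -⟩ := he.lift (b := b.comp (sh t)) (hb.comp (sh_inj t))
    ((Polynomial.eval_map _ _).symm.trans hz)
  obtain ⟨d, hd, -⟩ := h _ b j hb hj
  exact ⟨d.1, d.2, hd⟩

theorem SMo.comp {F' : Type} [Field F'] (h : SMo a Θ) {e : F →+* F'}
    (he : Function.Surjective e) : SMo (e.comp a) Θ :=
  ⟨h.monic, fun c => (h.fin c).imp fun _ h => ⟨h.1, h.2.comp he⟩,
    by rw [rvs_comp]; exact h.inf.comp he⟩

theorem Good.comp {F' : Type} [Field F'] (h : Good a Θ) {e : F →+* F'}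
    (he : Function.Surjective e) : Good (e.comp a) Θ := by
  obtain ⟨θ, χ, D, h1, h2⟩ := h.et
  exact ⟨h.sm.comp he, e θ, χ, D, h1.comp he, h2⟩

theorem Good.inj (h : Good a Θ) : Function.Injective a := by
  obtain ⟨_, _, _, h, _⟩ := h.et
  exact h.inj

end Pool.Agent.ZFy.GM
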