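import Pool.Agent.Lib.MP_751085_ag.ZF.G.Defs

/-! Good models: finite families of discs, local data. -/

namespace Pool.Agent.ZFy.GM

open Pool.Agent.ZCy
open scoped Classical WithZero Polynomial PowerSeries
open WithZero (exp)

variable {R F : Type} [CommRing R] [Field F]

/-- a parametrisation `t + X ^ e ε` of the disc over which `χ` splits and generates `X` -/
def LDp (χ : R[X][X]) (t : R) : Prop :=
  ∃ (e : ℕ) (ε y : R⟦X⟧) (s : Multiset R⟦X⟧) (P : R[X][X]) (Q : R[X]) (φ : R[X] →+* R⟦X⟧),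
    0 < e ∧ IsUnit ε ∧
    (∀ p, φ p = p.eval₂ PowerSeries.C (PowerSeries.C t + PowerSeries.X ^ e * ε)) ∧
    χ.map φ = (s.map fun η => Polynomial.X - Polynomial.C η).prod ∧ y ∈ s ∧ Q ≠ 0 ∧
    φ Q * PowerSeries.X = P.eval₂ φ y

variable [IsDomain R]

/-- a finite family of pairwise different discs that covers the disc around `t` -/
structure Fam (a : R[X] →+* F) (Θ : R[X]) (t : R) (θ : F) (δ : ℕ) : Type 1 where
  ι : Type
  [fin : Fintype ι]
  J : ι → F →+* Fr R⟦X⟧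
  ψ : ι → R⟦X⟧ →+* R⟦X⟧
  Ψ : ι → Fr R⟦X⟧ →+* Fr R⟦X⟧
  cmp : ∀ i f, Ψ i (fr R f) = fr R (ψ i f)
  disc : ∀ i, Disc a Θ t (J i) (ψ i)
  cvs : Cvs a t (Set.range fun i => (J i, ψ i))
  sol : ∀ z : ι → Fr R⟦X⟧, ∃ G : (Fr R⟦X⟧)[X], G.degree < δ ∧ ∀ i, G.eval₂ (Ψ i) (J i θ) = z i

attribute [instance] Fam.fin

variable [IsLocalRing R]

/-- the data of a good model -/
structure Atl (a : R[X] →+* F) (Θ : R[X]) : Type 1 where
  θ : F
  χ : R[X][X]
  χ' : R[X][X]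
  D : R[X]
  b : ℕ
  k : ℕ
  t : IsLocalRing.ResidueField R → R
  sm : SMo a Θ
  et : Etl a θ χ D
  red : D.map (IsLocalRing.residue R) ≠ 0
  et' : Etl (rvs a) (θ * rvs a Polynomial.X ^ b) χ' (Polynomial.X ^ k * D.reverse)
  deg : χ'.natDegree = χ.natDegree
  res : ∀ c, IsLocalRing.residue R (t c) = c
  fam : ∀ c, Fam a Θ (t c) θ χ.natDegree
  inf : Fam (rvs a) (Polynomial.X * Θ.reverse) 0 (θ * rvs a Polynomial.X ^ b) χ'.natDegree

theorem Atl.good {a : R[X] →+* F} {Θ : R[X]} (A : Atl a Θ) : Good a Θ :=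
  ⟨A.sm, _, _, _, A.et, A.red⟩

end Pool.Agent.ZFy.GM
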