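import Pool.Agent.Lib.MP_751085_ag.ZF.G.Def2
import Pool.Agent.Lib.MP_751085_ag.ZF.Z.GDefs

/-! Good models: spreading data, expansions at infinity, plane models. -/

namespace Pool.Agent.ZFy.GM

open Pool.Agent.ZCy
open scoped Classical WithZero Polynomial PowerSeries
open WithZero (exp)

variable {A B R T KK F κ : Type} [CommRing A] [CommRing B] [CommRing R] [Field T] [Field KK]
  [Field F] [Field κ]

/-- local data at the roots of `Θ D` and at infinity -/
def SpB (χ χ' : B[X][X]) (D Θ : B[X]) : Prop :=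
  χ.Monic ∧ χ'.Monic ∧ (∃ p q, Polynomial.C D = p * χ + q * χ.derivative) ∧ LDp χ' 0 ∧
    ∃ (u : B) (s : Multiset B), IsUnit u ∧
      Θ * D = Polynomial.C u * (s.map fun x => Polynomial.X - Polynomial.C x).prod ∧
      (∀ x ∈ s, ∀ y ∈ s, x ≠ y → IsUnit (x - y)) ∧ ∀ x ∈ s, LDp χ x

/-- the top form -/
noncomputable def topF (χ : B[X][X]) : B[X] := ∑ i ∈ Finset.range (χ.natDegree + 1),
  Polynomial.monomial i ((χ.coeff i).coeff (χ.natDegree - i))

/-- a plane curve that is transversal to the line at infinity -/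
structure Wt (χ : B[X][X]) : Prop where
  monic : χ.Monic
  wt : ∀ i, (χ.coeff i).natDegree ≤ χ.natDegree - i
  sep : (topF χ).Separable

variable [IsDomain R] [IsLocalRing R]

/-- a good model with primitive element `θ` -/
def GdE (a : R[X] →+* F) (Θ : R[X]) (θ : F) : Prop :=
  SMo a Θ ∧ ∃ χ D, Etl a θ χ D ∧ D.map (IsLocalRing.residue R) ≠ 0

theorem GdE.good {a : R[X] →+* F} {Θ : R[X]} {θ : F} (h : GdE a Θ θ) : Good a Θ := ⟨h.1, θ, h.2⟩

/-- the base change of `T` along `η` has a good model -/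
def GdH (φ : A[X] →+* T) (Th : A[X]) (η : A →+* R) (α : R →+* KK) (θ : T) : Prop :=
  ∀ (F F' : Type) [Field F] [Field F'] [Algebra KK[X] F] [IsFractionRing KK[X] F] [Algebra F F']
    (j : T →+* F'), (∀ p, j (φ p) = toF KK[X] F F' (p.map (α.comp η))) →
    IntermediateField.adjoin F (Set.range j) = ⊤ →
    FiniteDimensional F F' ∧ IsGalois F F' ∧ UnrOff F (toF KK[X] F F') (Th.map (α.comp η)) ∧
      GdE ((toF KK[X] F F').comp (Polynomial.mapRingHom α)) (Th.map η) (j θ)

/-- the Gauss valuation and its residue map in terms of the expansion `ι` at infinity -/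
structure Pk (l : ℕ) (a : R[X] →+* F) (Θ : R[X]) (π : R) (α : R →+* KK) (v : Vl KK) (r : R →+* κ)
    (ι : F →+* Ls KK) (W : Vl F) (ρ : W.integer →+* Ls κ) : Prop where
  good : Good a Θ
  cn : Cn1 a W (Polynomial.C π)
  red : IsRed W ρ
  pol : ∀ (p : R[X]) (y : W.integer), (y : F) = a p → ρ y = tL κ (p.map r)
  res : ∀ z f, ι z = lm α f → ∃ y : W.integer, (y : F) = z ∧ ρ y = lm r f
  sup : ∀ z f, ι z = lm α f →
    (∀ j, v ((ι z).coeff j) ≤ W z) ∧ ∃ j, v ((ι z).coeff j) = W z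
  int : ∀ z, a.IsIntegralElem z → ∃ f, ι z = lm α f
  root : ∀ y : W.integer, TW l a Θ (y : F) → (∃ s, s ≠ 0 ∧ ρ y = s ^ l) → ∃ s, ι y = s ^ l

end Pool.Agent.ZFy.GM
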