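import Pool.Agent.Lib.MP_751085_ag.ZC.V.D
import Pool.Agent.Lib.MP_751085_ag.ZC.Z.ZDefs

/-! Good models of curves over a complete discrete valuation ring: definitions. -/

namespace Pool.Agent.ZFy.GM

open Pool.Agent.ZCy
open scoped Classical WithZero Polynomial PowerSeries

variable {A R K K' F F' : Type} [CommRing A] [CommRing R] [Field K] [Field K'] [Field F] [Field F']

/-- `w` is the normalised valuation centred at `P` -/
def Cn1 (φ : A →+* F) (w : Vl F) (P : A) : Prop := Cen φ w P ∧ w (φ P) = WithZero.exp (-1)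

/-- `F` is generated over the fraction field of `A` by a simple root `θ` of `χ` -/
structure Etl (a : A →+* F) (θ : F) (χ : A[X]) (D : A) : Prop where
  inj : Function.Injective a
  monic : χ.Monic
  ker : ∀ G : A[X], G.eval₂ a θ = 0 ↔ χ ∣ G
  bez : ∃ p q : A[X], Polynomial.C D = p * χ + q * χ.derivative
  ne : D ≠ 0
  gen : ∀ x, ∃ (G : A[X]) (d : A), d ≠ 0 ∧ x * a d = G.eval₂ a θ

/-- the coordinate at infinity -/
noncomputable def rvs (a : A[X] →+* F) : A[X] →+* F :=
  Polynomial.eval₂RingHom (a.comp Polynomial.C) (a Polynomial.X)⁻¹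

/-- trivial on the constants -/
def Hor (a : A[X] →+* F) (v : Vl F) : Prop := ∀ r, r ≠ 0 → v (a (Polynomial.C r)) = 1

/-- trivial on the constants, at finite distance and off `Θ = 0` -/
def Unm (a : A[X] →+* F) (Θ : A[X]) (v : Vl F) : Prop :=
  Hor a v ∧ v (a Polynomial.X) ≤ 1 ∧ v (a Θ) = 1

/-- the orders of `u` at the finite places off `Θ = 0` are divisible by `m` -/
def TW (m : ℕ) (a : A[X] →+* F) (Θ : A[X]) (u : F) : Prop :=
  ∀ v : Vl F, Nrm v → Unm a Θ v → (m : ℤ) ∣ ord v u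

/-- the orders of `u` at the infinite places are divisible by `m` -/
def TI (m : ℕ) (a : A[X] →+* F) (u : F) : Prop :=
  ∀ v : Vl F, Nrm v → Hor a v → 1 < v (a Polynomial.X) → (m : ℤ) ∣ ord v u

/-- unramified over `E` at the finite places off `Θ = 0` -/
def UnU (E : Type) [Field E] [Algebra E F] (a : A[X] →+* F) (Θ : A[X]) : Prop :=
  ∀ w : Vl F, Unm a Θ w → Ine E w = ⊥

/-- power series in their fraction field -/
noncomputable abbrev fr (R : Type) [CommRing R] : R⟦X⟧ →+* Fr R⟦X⟧ := algebraMap _ _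

/-- the expansion at `t` -/
noncomputable abbrev sh (t : R) : R[X] →+* R⟦X⟧ := sbs (RingHom.id R) t 1

/-- `F'` is generated by `F` and the constants `K'` -/
structure CExt (γ : K →+* K') (a : K[X] →+* F) (a' : K'[X] →+* F') (i : F →+* F') : Prop where
  cmp : ∀ p, i (a p) = a' (p.map γ)
  inj : Function.Injective a'
  gen : Subfield.closure (Set.range i ∪ Set.range a') = ⊤

variable [IsDomain R]

/-- a disc of the curve `F` that lies over the disc around `t` -/
structure Disc (a : R[X] →+* F) (Θ : R[X]) (t : R) (J : F →+* Fr R⟦X⟧) (ψ : R⟦X⟧ →+* R⟦X⟧) :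
    Prop where
  cst : ∀ r, ψ (PowerSeries.C r) = PowerSeries.C r
  inj : Function.Injective ψ
  int : ψ.IsIntegral
  cmp : ∀ p, J (a p) = fr R (ψ (sh t p))
  gen : Subfield.closure (Set.range J ∪ Set.range fun f => fr R (ψ f)) = ⊤
  mark : ∃ e : ℕ, Associated (ψ (sh t Θ)) (PowerSeries.X ^ e)

/-- every embedding over the disc around `t` factors through a member of `𝒟` -/
def Cvs (a : R[X] →+* F) (t : R) (𝒟 : Set ((F →+* Fr R⟦X⟧) × (R⟦X⟧ →+* R⟦X⟧))) : Prop :=
  ∀ (L : Type) [Field L] (b : R⟦X⟧ →+* L) (j : F →+* L), Function.Injective b →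
    (∀ p, j (a p) = b (sh t p)) → ∃ d ∈ 𝒟, ∃ ι : Fr R⟦X⟧ →+* L,
      (∀ x, ι (d.1 x) = j x) ∧ ∀ f, ι (fr R (d.2 f)) = b f

/-- the curve is a union of discs over the disc around `t` -/
def SMat (a : R[X] →+* F) (Θ : R[X]) (t : R) : Prop := Cvs a t {d | Disc a Θ t d.1 d.2}

/-- the reduction of `f` has order `n` -/
def Ro (V : Vl (Fr R⟦X⟧)) (f : Fr R⟦X⟧) (n : ℤ) : Prop :=
  ∃ ε : R⟦X⟧, IsUnit ε ∧ V (f - fr R PowerSeries.X ^ n * fr R ε) < 1

variable [IsLocalRing R]

/-- the curve is a union of discs, and the zeros of `Θ` and the poles of `t` are sections -/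
structure SMo (a : R[X] →+* F) (Θ : R[X]) : Prop where
  monic : Θ.Monic
  fin : ∀ c : IsLocalRing.ResidueField R, ∃ t, IsLocalRing.residue R t = c ∧ SMat a Θ t
  inf : SMat (rvs a) (Polynomial.X * Θ.reverse) 0

/-- a good model -/
structure Good (a : R[X] →+* F) (Θ : R[X]) : Prop where
  sm : SMo a Θ
  et : ∃ θ χ D, Etl a θ χ D ∧ D.map (IsLocalRing.residue R) ≠ 0

end Pool.Agent.ZFy.GM
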