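import Pool.Agent.Lib.MP_751085_ag.ZF.G.Def2
import Pool.Agent.Lib.MP_751085_ag.ZF.G.Cvr
import Pool.Agent.Lib.MP_751085_ag.ZF.G.Lag

/-! Good models: coordinates on a finite family of discs. -/

namespace Pool.Agent.ZFy.GM

open Pool.Agent.ZCy
open scoped Classical WithZero Polynomial PowerSeries
open WithZero (exp)
open IsLocalRing

variable {R F : Type} [CommRing R] [IsDomain R] [CDVR R] [Field F] {π t : R} {a : R[X] →+* F}
  {Θ : R[X]} {V : Vl (Fr R⟦X⟧)}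
  {θ : F} {χ : R[X][X]} {D : R[X]}

omit [CDVR R] in
theorem gfam_inj (t : R) : Function.Injective ((fr R).comp (sh t)) :=
  (isFr_alg R⟦X⟧ (Fr R⟦X⟧)).1.comp (sh_inj t)

omit [CDVR R] in
theorem gfam_disc (hs : SMat a Θ t) (he : Etl a θ χ D) {μ : (Fr R⟦X⟧)[X]} (hμ : Irreducible μ)
    (hd : μ ∣ χ.map ((fr R).comp (sh t))) : ∃ (J : F →+* Fr R⟦X⟧) (ψ : R⟦X⟧ →+* R⟦X⟧)
      (Ψ : Fr R⟦X⟧ →+* Fr R⟦X⟧), (∀ f, Ψ (fr R f) = fr R (ψ f)) ∧ Disc a Θ t J ψ ∧
        (∀ G : (Fr R⟦X⟧)[X], G.eval₂ Ψ (J θ) = 0 ↔ μ ∣ G) ∧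
          Function.Surjective (Polynomial.eval₂RingHom Ψ (J θ)) := by
  have := Fact.mk hμ
  obtain ⟨j, h1, h2⟩ := he.lift (b := (AdjoinRoot.of μ).comp ((fr R).comp (sh t)))
    ((AdjoinRoot.of μ).injective.comp (gfam_inj t)) (z := AdjoinRoot.root μ) (by
      rw [← Polynomial.eval₂_map]
      exact (AdjoinRoot.aeval_eq _).trans (AdjoinRoot.mk_eq_zero.2 hd))
  obtain ⟨⟨J, ψ⟩, h3, ι, h4, h5⟩ := hs _ ((AdjoinRoot.of μ).comp (fr R)) j
    ((AdjoinRoot.of μ).injective.comp (isFr_alg R⟦X⟧ (Fr R⟦X⟧)).1) h1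
  obtain ⟨Ψ, hΨ⟩ := Disc.exists_fr h3
  have e : ι.comp Ψ = AdjoinRoot.of μ := (isFr_alg R⟦X⟧ (Fr R⟦X⟧)).hom_ext fun f =>
    (congrArg ι (hΨ f)).trans (h5 f)
  have key : ∀ G : (Fr R⟦X⟧)[X], ι (G.eval₂ Ψ (J θ)) = AdjoinRoot.mk μ G := fun G => by
    rw [Polynomial.hom_eval₂, e, h4, h2]
    exact AdjoinRoot.aeval_eq G
  refine ⟨J, ψ, Ψ, hΨ, h3, fun G => ?_, fun z => ?_⟩
  · rw [← AdjoinRoot.mk_eq_zero, ← key, map_eq_zero]
  · exact (AdjoinRoot.mk_surjective (ι z)).imp fun G hG => ι.injective ((key G).trans hG)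

omit [CDVR R] in
/-- the index set consists of the monic irreducible factors of `χ` -/
theorem exists_fam (hs : SMat a Θ t) (he : Etl a θ χ D) :
    Nonempty (Fam a Θ t θ χ.natDegree) := by
  have hm := he.monic.map ((fr R).comp (sh t))
  set χ' := χ.map ((fr R).comp (sh t)) with hχ
  have hI := fun μ => Multiset.mem_toFinset.trans
    (Polynomial.mem_normalizedFactors_iff (p := μ) hm.ne_zero)
  choose J ψ Ψ h1 h2 h3 h4 using
    fun μ : (UniqueFactorizationMonoid.normalizedFactors χ').toFinset =>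
      gfam_disc hs he ((hI μ).1 μ.2).1 ((hI μ).1 μ.2).2.2
  refine ⟨⟨_, J, ψ, Ψ, h1, h2, fun L _ b j hb hj => ?_, fun z => ?_⟩⟩
  · obtain ⟨β, hβ⟩ := (isFr_alg R⟦X⟧ (Fr R⟦X⟧)).exists_lift hb
    let _ := β.toAlgebra
    have h0 : Polynomial.aeval (j θ) χ' = 0 := by
      rw [Polynomial.aeval_def, hχ, Polynomial.eval₂_map, show (algebraMap _ L).comp _ = j.comp a from
        RingHom.ext fun p => (hβ _).trans (hj p).symm, ← Polynomial.hom_eval₂, he.root, map_zero]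
    have hi : IsIntegral (Fr R⟦X⟧) (j θ) := ⟨_, hm, h0⟩
    let μ : (UniqueFactorizationMonoid.normalizedFactors χ').toFinset :=
      ⟨_, (hI _).2 ⟨minpoly.irreducible hi, minpoly.monic hi, minpoly.dvd _ _ h0⟩⟩
    have hk : RingHom.ker (Polynomial.eval₂RingHom (Ψ μ) (J μ θ)) ≤
        RingHom.ker (Polynomial.eval₂RingHom β (j θ)) := fun G hG =>
      minpoly.dvd_iff.1 ((h3 μ G).1 hG)
    have e := RingHom.liftOfSurjective_comp_apply _ (h4 μ) ⟨_, hk⟩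
    set ι := RingHom.liftOfSurjective _ (h4 μ) ⟨_, hk⟩
    have e1 : ∀ f, ι (fr R (ψ μ f)) = b f := fun f => by
      simpa only [Polynomial.coe_eval₂RingHom, Polynomial.eval₂_C, h1, hβ] using
        e (Polynomial.C (fr R f))
    refine ⟨_, ⟨μ, rfl⟩, ι, RingHom.congr_fun (he.hom_ext (j := ι.comp (J μ)) (fun p => ?_) ?_), e1⟩
    · rw [RingHom.comp_apply, (h2 μ).cmp, e1, hj]
    · simpa only [Polynomial.coe_eval₂RingHom, Polynomial.eval₂_X, RingHom.comp_apply] using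
        e Polynomial.X
  · choose G hG using fun i => h4 i (z i)
    obtain ⟨r, hr⟩ := Ideal.pi_quotient_surjective (I := fun μ :
      (UniqueFactorizationMonoid.normalizedFactors χ').toFinset => Ideal.span {μ.1})
      (fun μ ν hn => (Ideal.isCoprime_span_singleton_iff _ _).2
        (((hI _).1 μ.2).1.coprime_iff_not_dvd.2 fun hd => hn (Subtype.ext
          (Polynomial.eq_of_monic_of_associated ((hI _).1 μ.2).2.1 ((hI _).1 ν.2).2.1
            (((hI _).1 μ.2).1.associated_of_dvd ((hI _).1 ν.2).1 hd)))))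
      fun i => Ideal.Quotient.mk _ (G i)
    refine ⟨r %ₘ χ', ?_, fun i => ?_⟩
    · rw [← he.monic.natDegree_map ((fr R).comp (sh t)), ← Polynomial.degree_eq_natDegree hm.ne_zero]
      exact Polynomial.degree_modByMonic_lt _ hm
    · have h5 := (h3 i _).2 (Ideal.mem_span_singleton.1 (Ideal.Quotient.eq.1 (hr i)))
      rw [Polynomial.eval₂_sub, sub_eq_zero] at h5
      rw [Polynomial.eval₂_modByMonic_eq_self_of_root ((h3 i _).2 ((hI _).1 i.2).2.2), h5]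
      exact hG i

theorem exists_atl (h : Good a Θ) : Nonempty (Atl a Θ) := by
  obtain ⟨θ, χ, D, he, hD⟩ := h.et
  obtain ⟨b, k, χ', h1, h2⟩ := he.rvs
  choose t h3 h4 using h.sm.fin
  exact ⟨⟨θ, χ, χ', D, b, k, t, h.sm, he, hD, h2, h1, h3, fun c => (exists_fam (h4 c) he).some,
    (exists_fam h.sm.inf h2).some⟩⟩

omit [CDVR R] in
/-- `crd`; a root `z` gives an embedding (`Etl.lift`) that factors through a member -/
theorem Fam.crd (f : Fam a Θ t θ χ.natDegree) (he : Etl a θ χ D) {P : R⟦X⟧}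
    (hV : Cen (fr R) V P) {G : (Fr R⟦X⟧)[X]} (hG : G.degree < χ.natDegree) {c : Fr R⟦X⟧}
    (H : ∀ (i : f.ι) (w : Vl (Fr R⟦X⟧)), Over (f.Ψ i) V w →
      w (G.eval₂ (f.Ψ i) (f.J i θ)) ≤ w (f.Ψ i c)) (k : ℕ) :
    V (fr R (sh t D) * G.coeff k) ≤ V c := by
  obtain ⟨p, q, hb⟩ := he.bez
  refine GM.crd V (χ := χ.map ((fr R).comp (sh t))) (p := p.map ((fr R).comp (sh t)))
    (q := q.map ((fr R).comp (sh t))) (D := (fr R).comp (sh t) D) (he.monic.map _)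
    (by rw [Polynomial.derivative_map, ← Polynomial.map_mul, ← Polynomial.map_mul,
      ← Polynomial.map_add, ← hb, Polynomial.map_C]) ((map_ne_zero_iff _ (gfam_inj t)).2 he.ne)
    (fun i => by rw [Polynomial.coeff_map]; exact hV.1 _)
    (fun i => by rw [Polynomial.coeff_map]; exact hV.1 _) (by rwa [he.monic.natDegree_map])
    (fun N _ _ _ w z hw hz => ?_) k
  obtain ⟨j, hj, rfl⟩ := he.lift (b := (algebraMap _ N).comp ((fr R).comp (sh t)))
    ((algebraMap (Fr R⟦X⟧) N).injective.comp (gfam_inj t)) (z := z)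
    (by rwa [Polynomial.aeval_def, Polynomial.eval₂_map] at hz)
  obtain ⟨_, ⟨i, rfl⟩, ι, h1, h2⟩ := f.cvs N ((algebraMap _ N).comp (fr R)) j
    ((algebraMap (Fr R⟦X⟧) N).injective.comp (isFr_alg R⟦X⟧ (Fr R⟦X⟧)).1) hj
  have e : ι.comp (f.Ψ i) = algebraMap _ N := (isFr_alg R⟦X⟧ (Fr R⟦X⟧)).hom_ext fun g =>
    (congrArg ι (f.cmp i g)).trans (h2 g)
  have e' : ∀ x, ι (f.Ψ i x) = algebraMap _ N x := RingHom.congr_fun e
  have h3 := H i (w.comap ι) fun x => by rw [Valuation.comap_apply, e']; exact hw x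
  rwa [Valuation.comap_apply, Valuation.comap_apply, e', Polynomial.hom_eval₂, e, h1,
    ← Polynomial.aeval_def] at h3

/-- `cen_up`, `Cen.iff` -/
theorem Fam.crd_pi (f : Fam a Θ t θ χ.natDegree) (he : Etl a θ χ D) (hπ : Irreducible π)
    (hV : Cn1 (fr R) V (PowerSeries.C π)) {G : (Fr R⟦X⟧)[X]} (hG : G.degree < χ.natDegree) {n : ℕ}
    (H : ∀ i, V (G.eval₂ (f.Ψ i) (f.J i θ)) ≤ exp (-(n : ℤ))) (k : ℕ) :
    V (fr R (sh t D) * G.coeff k) ≤ exp (-(n : ℤ)) := by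
  have hc : V (fr R (PowerSeries.C (π ^ n))) = exp (-(n : ℤ)) := by
    rw [map_pow, map_pow, ← zpow_natCast, vcv_pow hV.2]
  refine (f.crd he hV.1 hG (fun i w hw => ?_) k).trans hc.le
  have h1 : Cen ((fr R).comp (f.ψ i)) w (PowerSeries.C π) := by
    rw [← show (f.Ψ i).comp (fr R) = (fr R).comp (f.ψ i) from RingHom.ext (f.cmp i)]
    exact (cen_of_over hw).2 hV.1
  have h2 : Over (RingHom.id _) V w := Cen.iff (isFr_alg _ _) (prime_ps_C hπ.prime) hV.1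
    (cen_up hπ (f.disc i).cst (f.disc i).inj (f.disc i).int h1)
  rw [f.cmp, (f.disc i).cst]
  exact (h2.le_iff _ _).2 ((H i).trans hc.ge)

/-- `Fam.crd` at every prime (`le_one_of_int`), `hartogs` -/
theorem Fam.crd_int (f : Fam a Θ t θ χ.natDegree) (he : Etl a θ χ D) {G : (Fr R⟦X⟧)[X]}
    (hG : G.degree < χ.natDegree) (H : ∀ i, ∃ y, G.eval₂ (f.Ψ i) (f.J i θ) = fr R y) (k : ℕ) :
    ∃ g, fr R (sh t D) * G.coeff k = fr R g := by
  obtain ⟨m, g, hg⟩ := hartogs (isFr_alg R⟦X⟧ (Fr R⟦X⟧)) (Θ := 1)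
    (x := fr R (sh t D) * G.coeff k) fun P v _ _ hv => (f.crd he hv hG (c := 1) (fun i w hw => by
      obtain ⟨y, hy⟩ := H i
      rw [map_one, map_one, hy]
      exact le_one_of_int (f := (fr R).comp (f.ψ i))
        (fun g => f.cmp i g ▸ (hw _).2 (hv.1 g)) (((f.disc i).int y).map (fr R))) k).trans
          v.map_one.le
  exact ⟨g, by rw [← hg, map_one, one_pow, mul_one]⟩

omit [CDVR R] in
theorem Fam.J_aeval {δ : ℕ} (f : Fam a Θ t θ δ) {K : Type} [Field K] {α : R[X] →+* K} (hα : IsFr α)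
    {ι : K →+* F} (hι : ∀ p, ι (α p) = a p) {b : K →+* Fr R⟦X⟧}
    (hb : ∀ p, b (α p) = fr R (sh t p)) (i : f.ι) (x : K) : f.J i (ι x) = f.Ψ i (b x) := by
  refine RingHom.congr_fun (hα.hom_ext (φ := (f.J i).comp ι) (φ' := (f.Ψ i).comp b) fun p => ?_) x
  rw [RingHom.comp_apply, RingHom.comp_apply, hι, hb, (f.disc i).cmp, f.cmp]

/-- solve for the `y i` by `sol`; `crd_int` for the solution, `crd_pi` for the difference -/
theorem Fam.reg (f : Fam a Θ t θ χ.natDegree) (he : Etl a θ χ D) (hπ : Irreducible π)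
    (hV : Cn1 (fr R) V (PowerSeries.C π)) {K : Type} [Field K] {α : R[X] →+* K} (hα : IsFr α)
    {ι : K →+* F} (hι : ∀ p, ι (α p) = a p) {b : K →+* Fr R⟦X⟧}
    (hb : ∀ p, b (α p) = fr R (sh t p)) {G : K[X]} (hG : G.degree < χ.natDegree) {n : ℕ}
    (H : ∀ i, ∃ y, V (f.J i (G.eval₂ ι θ) - fr R y) ≤ exp (-(n : ℤ))) (k : ℕ) :
    ∃ g, V (b (α D * G.coeff k) - fr R g) ≤ exp (-(n : ℤ)) := by
  choose y hy using H
  obtain ⟨G₀, h1, h2⟩ := f.sol fun i => fr R (y i)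
  obtain ⟨g, hg⟩ := f.crd_int he h1 (fun i => ⟨_, h2 i⟩) k
  have h3 := f.crd_pi he hπ hV (G := G.map b - G₀) (n := n)
    ((Polynomial.degree_sub_le _ _).trans_lt (max_lt (Polynomial.degree_map_le.trans_lt hG) h1))
    (fun i => by
      rw [Polynomial.eval₂_sub, h2, Polynomial.eval₂_map, ← show (f.J i).comp ι = (f.Ψ i).comp b from
        RingHom.ext (f.J_aeval hα hι hb i), ← Polynomial.hom_eval₂]
      exact hy i) k
  exact ⟨g, by rwa [Polynomial.coeff_sub, mul_sub, hg, Polynomial.coeff_map, ← hb, ← map_mul] at h3⟩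

end Pool.Agent.ZFy.GM
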