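import Pool.Agent.Lib.MP_751085_ag.ZF.G.Cov
import Pool.Agent.Lib.MP_751085_ag.ZF.G.Cls

/-! Good models: covers of the special fibre lift. -/

namespace Pool.Agent.ZFy.GM

open Pool.Agent.ZCy
open scoped Classical WithZero Polynomial PowerSeries
open WithZero (exp)
open IsLocalRing

theorem ggds_fac {B K L : Type} [CommRing B] [Field K] [Field L] (ι : K →+* L) (j : B →+* L)
    (h : ∀ x, j x ∈ ι.fieldRange) : ∃ J : B →+* K, ∀ x, ι (J x) = j x :=
  ⟨(ι.rangeRestrictFieldEquiv.symm : ι.fieldRange →+* K).comp (j.codRestrict _ h), fun x =>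
    congrArg Subtype.val (ι.rangeRestrictFieldEquiv.apply_symm_apply ⟨j x, h x⟩)⟩

variable {A T R KK κ F E : Type} [CommRing A] [Field T] [CommRing R] [IsDomain R] [CDVR R]
  [Field KK] [Field κ] [IsAlgClosed κ] [Field F] [Field E] [Algebra KK[X] F]
  [IsFractionRing KK[X] F] {φ : A[X] →+* T} {Th : A[X]} {η : A →+* R} {α : R →+* KK} {v : Vl KK}
  {ρ : R →+* κ} {θ : T} {l : ℕ} {π : R}
  [Algebra F E] [FiniteDimensional F E] [IsGalois F E]

/-- adjoin the roots of all conjugates -/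
theorem cov_ext (hv : IsVR α v) (hρ : Function.Surjective ρ) (hp : l.Prime) (hl : (l : κ) ≠ 0)
    (c : Cov l φ Th F E (α.comp η)) {y : E}
    (h1 : TW l ((toF KK[X] F E).comp (Polynomial.mapRingHom α)) (Th.map η) y)
    (h2 : ∀ g : E ≃ₐ[F] E, ∃ s, c.ι (g y) = s ^ l) :
    ∃ (E' : Type) (_ : Field E') (_ : Algebra F E') (_ : Algebra E E') (_ : IsScalarTower F E E')
      (_ : FiniteDimensional F E') (_ : IsGalois F E') (c' : Cov l φ Th F E' (α.comp η))
      (r : (E ≃ₐ[F] E) → E'), (∀ x, c'.j x = algebraMap E E' (c.j x)) ∧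
      (∀ x, c'.ι (algebraMap E E' x) = c.ι x) ∧ (∀ g, r g ^ l = algebraMap E E' (g y)) ∧
      ∀ h : E' ≃ₐ[F] E', (∀ x, h (algebraMap E E' x) = algebraMap E E' x) →
        (∀ g, h (r g) = r g) → h = 1 := by
  have := (res_of_surj hρ).2.1 inferInstance
  have hlu : IsUnit (l : R) := isUnit_of_res hρ hl
  obtain ⟨ζ, hζ⟩ := exists_zeta hp hlu
  have hi : Function.Injective ((algebraMap KK[X] F).comp (Polynomial.C.comp α)) :=
    (IsFractionRing.injective KK[X] F).comp (Polynomial.C_injective.comp hv.2.1)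
  obtain ⟨E', _, _, _, _, _, _, ι', r, e1, e2, hG, hf⟩ :=
    kum_ext hp (hζ.map_of_injective hi) c.ι h2
  have e3 : ∀ p, toF KK[X] F E' p = algebraMap E E' (toF KK[X] F E p) := fun p =>
    IsScalarTower.algebraMap_apply F E E' _
  have e4 : toF KK[X] F E' = (algebraMap E E').comp (toF KK[X] F E) := RingHom.ext e3
  obtain ⟨s, hs⟩ := exists_rs (K := F) (E := E) (φ := RingHom.id F) (j := algebraMap E E')
    fun x => (IsScalarTower.algebraMap_apply F E E' x).symm
  refine ⟨E', inferInstance, inferInstance, inferInstance, inferInstance, inferInstance,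
    inferInstance, ⟨(algebraMap E E').comp c.j, ι', fun p => ?_, fun p => ?_, ?_, ?_⟩, r,
    fun _ => rfl, e1, e2, hf⟩
  · rw [RingHom.comp_apply, c.hj, e3]
  · rw [e3, e1, c.hι]
  · rw [RingHom.coe_comp, Set.range_comp]
    exact lxt_tower c.lext hG
  · refine unrOff_of_unU fun w hw => eq_bot_iff.2 fun g hg => ?_
    rw [e4] at hw
    have h3 : ∀ x, g (algebraMap E E' x) = algebraMap E E' x := fun x => by
      have := hs.ine (Over.comap _ w) hg
      rw [unU_of_unrOff (E := F) (isFr_alg KK[X] F) c.unr _ (Unm.comap.2 hw),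
        Subgroup.mem_bot] at this
      rw [← hs g x, this, AlgEquiv.one_apply]
    refine hf g h3 fun k => ?_
    have h4 : TW l ((toF KK[X] F E).comp (Polynomial.mapRingHom α)) (Th.map η) (k y) := by
      have := h1.map (k : E →+* E)
      rwa [show (k : E →+* E).comp ((toF KK[X] F E).comp (Polynomial.mapRingHom α)) =
        (toF KK[X] F E).comp (Polynomial.mapRingHom α) from
          RingHom.ext fun p => k.commutes _] at this
    obtain ⟨z, hz⟩ := root_val (w := w) hp.ne_zero (e2 k) fun u hu ho => h4 u hu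
      ((unm_fr hv.isFr).2 (by
        rw [Polynomial.map_map]
        exact (Unm.comap.2 hw).congr fun x => (ho x).symm))
    refine kum hg (M := l) ?_ (by rw [e2, h3]) (h3 z) hz
    simpa only [map_natCast] using hw.1 (α l) (by
      rw [map_ne_zero_iff _ hv.2.1]
      exact hlu.ne_zero)

variable {F₀ E₀ : Type} [Field F₀] [Field E₀] [Algebra κ[X] F₀] [IsFractionRing κ[X] F₀]
  [Algebra F₀ E₀] [FiniteDimensional F₀ E₀] [IsGalois F₀ E₀] {ι₀ : E₀ →+* Ls κ}

/-- a cover with too small a residue field can be enlarged -/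
theorem cov_step (h : GdH φ Th η α θ) (hv : IsVR α v) (hρ : Function.Surjective ρ) (hp : l.Prime)
    (hl : (l : κ) ≠ 0) (c : Cov l φ Th F E (α.comp η))
    (h0 : ∀ p, ι₀ (toF κ[X] F₀ E₀ p) = tL κ p)
    (hu : UnrOff F₀ (toF κ[X] F₀ E₀) (Th.map (ρ.comp η)))
    (hS : LXt l F₀ {y : E₀ | ∃ x f, c.ι (c.j x) = lm α f ∧ ι₀ y = lm ρ f})
    (hc : ∀ z f, c.ι z = lm α f → lm ρ f ∈ ι₀.range)
    (hlt : Module.finrank F E < Module.finrank F₀ E₀) :
    ∃ (E' : Type) (_ : Field E') (_ : Algebra F E') (_ : FiniteDimensional F E') (_ : IsGalois F E')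
      (c' : Cov l φ Th F E' (α.comp η)), (∀ x, c'.ι (c'.j x) = c.ι (c.j x)) ∧
      (∀ z f, c'.ι z = lm α f → lm ρ f ∈ ι₀.range) ∧
      Module.finrank F E < Module.finrank F E' := by
  have := (res_of_surj hρ).2.1 inferInstance
  have hlu : IsUnit (l : R) := isUnit_of_res hρ hl
  obtain ⟨π, hπ⟩ := IsDiscreteValuationRing.exists_irreducible R
  obtain ⟨W, ρ', hk⟩ := cov_pk h hv hρ hp hl hπ c
  have hm : ∀ x, ρ' x ∈ ι₀.fieldRange := hk.mem hπ _ (fun p => ⟨_, h0 p⟩) hc
  obtain ⟨ρE, hE⟩ := ggds_fac ι₀ ρ' hm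
  have hfr : IsFr ((algebraMap KK[X] F).comp (Polynomial.mapRingHom α)) :=
    hv.isFr.poly (isFr_alg KK[X] F)
  obtain ⟨y, y1, y2, y3⟩ := exists_class (E := E) (E₀ := E₀) (ρ := ρE) hπ hfr (isFr_alg κ[X] F₀)
    hk.good hk.cn.1 hρ (fun x => (map_eq_zero_iff ι₀ ι₀.injective).symm.trans (by rw [hE]; exact hk.red x))
    (fun p y hy => ι₀.injective (by rw [hE, hk.pol p y hy, ← h0])) hp hlu
    (by rwa [Polynomial.map_map]) hS (by
      rintro _ ⟨x, f, h1, h2⟩
      obtain ⟨z, -, h3⟩ := hk.res _ f h1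
      exact ⟨z, ι₀.injective (by rw [hE, h3, h2])⟩) hlt
  have ha : ∀ p, ((toF KK[X] F E).comp (Polynomial.mapRingHom α)) p ∈ (algebraMap F E).range :=
    fun p => ⟨_, rfl⟩
  have hd : ∀ (g : E ≃ₐ[F] E) x, W (g x) = W x := fun g => by
    have : g ∈ Dec F W := by
      rw [hk.good.dec_top hπ ha hk.cn.1]
      exact Subgroup.mem_top g
    exact this
  have y4 : ∀ g : E ≃ₐ[F] E, ∃ s, s ≠ 0 ∧ ρ' ⟨g y, (hd g y).trans_le y.2⟩ = ι₀ s ^ l := fun g => by
    obtain ⟨s, h1, h2⟩ := y2 g ⟨g y, (hd g y).trans_le y.2⟩ rfl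
    exact ⟨s, h1, by rw [← hE, h2, map_pow]⟩
  obtain ⟨E', _, _, _, _, _, _, c', r, e1, e2, e3, hf⟩ := cov_ext hv hρ hp hl c y1 fun g => by
    obtain ⟨s, h1, h2⟩ := y4 g
    refine hk.root ⟨g y, (hd g y).trans_le y.2⟩ ?_ ⟨_, (map_ne_zero ι₀).2 h1, h2⟩
    have := y1.map (g : E →+* E)
    rwa [show (g : E →+* E).comp (tE E ((algebraMap KK[X] F).comp (Polynomial.mapRingHom α))) =
      (toF KK[X] F E).comp (Polynomial.mapRingHom α) from
        RingHom.ext fun p => g.commutes _] at this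
  obtain ⟨W', ρ'', hk'⟩ := cov_pk h hv hρ hp hl hπ c'
  have e4 : (toF KK[X] F E').comp (Polynomial.mapRingHom α) =
      (algebraMap E E').comp ((toF KK[X] F E).comp (Polynomial.mapRingHom α)) :=
    RingHom.ext fun p => IsScalarTower.algebraMap_apply F E E' _
  obtain ⟨c1, c2⟩ := hk.compat hπ (i := algebraMap E E') (e4 ▸ hk') e2
  have ho : Over (algebraMap E E') W W' := fun x => by rw [c1]
  have ha' : ∀ p, ((toF KK[X] F E').comp (Polynomial.mapRingHom α)) p ∈ (algebraMap F E').range :=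
    fun p => ⟨_, rfl⟩
  have hd' := hk'.good.dec_top hπ ha' hk'.cn.1
  have hr : ∀ g, W' (r g) = 1 := fun g => by
    obtain ⟨s, h1, h2⟩ := y4 g
    have h3 : W' (r g) ^ l = 1 := by
      rw [← map_pow, e3, c1]
      exact (hk.red.ne_zero ⟨g y, (hd g y).trans_le y.2⟩).1
        (h2 ▸ pow_ne_zero _ ((map_ne_zero ι₀).2 h1))
    exact (pow_eq_one_iff.1 h3).resolve_right hp.ne_zero
  refine ⟨E', inferInstance, inferInstance, inferInstance, inferInstance, c',
    fun x => by rw [e1, e2], fun z f hz => ?_, ?_⟩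
  · obtain ⟨x, -, hx⟩ := hk'.res z f hz
    rw [← hx]
    refine res_gen hd' (hk'.good.ine_bot hπ ha' hk'.cn.1) hk'.red ι₀.fieldRange
      (fun b x hx => ?_) (fun g hg => ?_) x
    · rw [IsScalarTower.algebraMap_apply F E E'] at hx
      rw [c2 ⟨algebraMap F E b, (ho _).1 (hx ▸ x.2)⟩ x hx]
      exact hm _
    · have hg' : g ∈ Dec F W' := hd' ▸ Subgroup.mem_top g
      have h1 : ∀ x : W'.integer, ρ'' x ∈ ι₀.fieldRange → W' (g x - x) < 1 := fun x hx =>
        (hk'.red.eq_iff ⟨g x, (hg' x).trans_le x.2⟩ x).1 (hg x _ rfl hx)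
      obtain ⟨s, hs⟩ := exists_rs (K := F) (E := E) (φ := RingHom.id F) (j := algebraMap E E')
        fun x => (IsScalarTower.algebraMap_apply F E E' x).symm
      have h2 : s g ∈ Ine F W := ⟨hd _, fun x hx => by
        rw [← c1, map_sub, hs]
        exact h1 (ho.int ⟨x, hx⟩) (c2 ⟨x, hx⟩ (ho.int ⟨x, hx⟩) rfl ▸ hm _)⟩
      rw [hk.good.ine_bot hπ ha hk.cn.1, Subgroup.mem_bot] at h2
      have h3 : ∀ x, g (algebraMap E E' x) = algebraMap E E' x := fun x => by
        rw [← hs g x, h2, AlgEquiv.one_apply]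
      refine hf g h3 fun k => ?_
      have h4 : r k ≠ 0 := (map_ne_zero W').1 (by rw [hr]; exact one_ne_zero)
      refine (div_eq_one_iff_eq h4).1 (eq_one_of_pow (gta_l hk'.cn.1.1 hlu) ?_ ?_)
      · rw [div_pow, ← map_pow, e3, h3, ← e3, div_self (pow_ne_zero _ h4)]
      · rw [div_sub_one h4, map_div₀, hr, div_one]
        refine h1 ⟨r k, (hr k).le⟩ ?_
        obtain ⟨t, -, h5⟩ := y4 k
        have : NeZero (l : κ) := ⟨hl⟩
        have : NeZero l := ⟨hp.ne_zero⟩
        obtain ⟨ζ, hζ⟩ := HasEnoughRootsOfUnity.exists_primitiveRoot κ l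
        have hζ' := hζ.map_of_injective (f := (tL κ).comp Polynomial.C) (RingHom.injective _)
        obtain ⟨n, hn⟩ := root_eq_zeta hp hζ' (x := ρ'' ⟨r k, (hr k).le⟩) (y := ι₀ t) (by
          rw [← h5, ← map_pow]
          exact c2 _ _ (e3 k))
        rw [hn]
        exact mul_mem (pow_mem (RingHom.mem_fieldRange.2 ⟨_, h0 _⟩) _) (RingHom.mem_fieldRange.2 ⟨t, rfl⟩)
  · rw [← Module.finrank_mul_finrank F E E']
    have : FiniteDimensional E E' := FiniteDimensional.right F E E'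
    refine lt_mul_of_one_lt_right Module.finrank_pos (lt_of_le_of_ne Module.finrank_pos fun e => ?_)
    obtain ⟨x, hx⟩ := (Algebra.finrank_eq_one_iff_bijective_algebraMap.1 e.symm).2 (r 1)
    refine y3 ⟨x, (ho x).1 (hx ▸ (hr 1).le)⟩ ?_
    rw [← map_pow]
    refine congrArg ρE (Subtype.ext ((algebraMap E E').injective ?_))
    have := e3 1
    rw [← hx, ← map_pow] at this
    exact this.symm

end Pool.Agent.ZFy.GM
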