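import Pool.Agent.Lib.MP_751085_ag.ZF.G.Defs
import Pool.Agent.Lib.MP_751085_ag.ZC.V.Tam
import Pool.Agent.Lib.MP_751085_ag.ZC.V.Ext
import Pool.Agent.Lib.MP_751085_ag.ZC.Z.GalFr

/-! Good models: Kummer steps. -/

namespace Pool.Agent.ZFy.GM

open Pool.Agent.ZCy
open scoped Classical WithZero Polynomial PowerSeries
open WithZero (exp)
open scoped IntermediateField

variable {E E' : Type} [Field E] [Field E'] [Algebra E E'] [FiniteDimensional E E'] [IsGalois E E']
  {l : ℕ}

theorem gkind_root {F : Type} [Field F] (hp : l.Prime) {ζ : F} (hζ : IsPrimitiveRoot ζ l) {x y : F}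
    (h : x ^ l = y ^ l) : ∃ k : ℕ, x = ζ ^ k * y := by
  have : NeZero l := ⟨hp.ne_zero⟩
  by_cases hy : y = 0
  · rw [hy, zero_pow hp.ne_zero, pow_eq_zero_iff hp.ne_zero] at h
    exact ⟨0, by rw [h, hy, mul_zero]⟩
  · obtain ⟨k, -, hk⟩ := hζ.eq_pow_of_pow_eq_one (ξ := x / y)
      (by rw [div_pow, h, div_self (pow_ne_zero l hy)])
    exact ⟨k, by rw [hk, div_mul_cancel₀ _ hy]⟩

omit [FiniteDimensional E E'] [IsGalois E E'] in
theorem gkind_sub (hG : IsPGroup l (E' ≃ₐ[E] E')) (M : IntermediateField E E') :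
    IsPGroup l (E' ≃ₐ[M] E') := (hG.to_subgroup _).of_equiv M.fixingSubgroupEquiv

omit [FiniteDimensional E E'] [IsGalois E E'] in
theorem gkind_dvd {v : Vl E} {w : Vl E'} (ho : Over (algebraMap E E') v w) {r : E'} {u a : E}
    (ha : w r = w (algebraMap E E' a)) (hr : r ^ l = algebraMap E E' u) : (l : ℤ) ∣ ord v u := by
  have h : v u = v (a ^ l) := by
    rw [← ho.eq_iff, ← hr, map_pow, ha, map_pow, map_pow]
  exact ⟨ord v a, by rw [← ord_pow_v, ord, h, ord]⟩

/-- the fixed field of a subgroup of index `l` is generated by a root -/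
theorem exists_kum (hp : l.Prime) (hG : IsPGroup l (E' ≃ₐ[E] E')) {ζ : E}
    (hζ : IsPrimitiveRoot ζ l) (h : 1 < Module.finrank E E') :
    ∃ (r : E') (u : E), r ^ l = algebraMap E E' u ∧ r ∉ (algebraMap E E').range := by
  have := Fact.mk hp
  obtain ⟨n, hn⟩ := IsPGroup.iff_card.1 hG
  obtain ⟨n, rfl⟩ := Nat.exists_eq_succ_of_ne_zero (n := n) (by
    rintro rfl
    rw [IsGalois.card_aut_eq_finrank, pow_zero] at hn
    exact h.ne' hn)
  obtain ⟨H, hH⟩ := Sylow.exists_subgroup_card_pow_prime (G := E' ≃ₐ[E] E') l (n := n)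
    (hn ▸ pow_dvd_pow l n.le_succ)
  have h1 : H.index = l := by
    have h2 := H.card_mul_index
    rw [hH, hn, pow_succ] at h2
    exact Nat.eq_of_mul_eq_mul_left (pow_pos hp.pos n) h2
  have : H.Normal := H.normal_of_index_eq_minFac_card (by
    rw [h1, hn, hp.pow_minFac n.succ_ne_zero])
  have h2 : Module.finrank E (IntermediateField.fixedField H) = l := by
    rw [IntermediateField.finrank_eq_fixingSubgroup_index,
      IntermediateField.fixingSubgroup_fixedField, h1]
  have := isCyclic_of_prime_card ((IsGalois.card_aut_eq_finrank E _).trans h2)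
  obtain ⟨r, ⟨u, hu⟩, hr⟩ := exists_root_adjoin_eq_top_of_isCyclic E
    (IntermediateField.fixedField H) ⟨ζ, h2 ▸ (mem_primitiveRoots hp.pos).2 hζ⟩
  rw [h2] at hu
  refine ⟨r, u, (congrArg Subtype.val hu).symm, fun ⟨a, ha⟩ => hp.ne_one ?_⟩
  rw [← h2, ← IntermediateField.bot_eq_top_iff_finrank_eq_one, ← hr, eq_comm,
    IntermediateField.adjoin_simple_eq_bot_iff]
  exact ⟨a, Subtype.ext ha⟩

/-- the step `E⟮r⟯`: Galois over `E`, the rest is an `l`-extension of smaller degree -/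
theorem kum_step (hp : l.Prime) (hG : IsPGroup l (E' ≃ₐ[E] E')) {ζ : E} (hζ : IsPrimitiveRoot ζ l)
    {r : E'} {u : E} (hr : r ^ l = algebraMap E E' u) (h0 : r ∉ (algebraMap E E').range) :
    IsGalois E E⟮r⟯ ∧ IsPGroup l (E' ≃ₐ[E⟮r⟯] E') ∧
      Module.finrank E⟮r⟯ E' < Module.finrank E E' := by
  refine ⟨?_, gkind_sub hG _, ?_⟩
  · have : Normal E E⟮r⟯ := IntermediateField.normal_iff_forall_map_le'.2 fun σ => by
      rw [IntermediateField.adjoin_map, Set.image_singleton, IntermediateField.adjoin_simple_le_iff]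
      obtain ⟨k, hk⟩ := gkind_root hp (hζ.map_of_injective (algebraMap E E').injective)
        (x := σ r) (y := r) (by rw [← map_pow, hr, σ.commutes])
      exact hk.symm ▸ mul_mem (pow_mem (algebraMap_mem _ ζ) k)
        (IntermediateField.mem_adjoin_simple_self E r)
    exact ⟨⟩
  · rw [← IntermediateField.finrank_bot' (F := E) (E := E')]
    exact IntermediateField.finrank_lt_of_gt (bot_lt_iff_ne_bot.2 fun h =>
      h0 (IntermediateField.adjoin_simple_eq_bot_iff.1 h))

/-- Induction along Kummer steps. `Q` is a property of intermediate fields. -/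
theorem kum_ind (hp : l.Prime) (hG : IsPGroup l (E' ≃ₐ[E] E')) {ζ : E} (hζ : IsPrimitiveRoot ζ l)
    (Q : IntermediateField E E' → Prop) (h0 : Q ⊥)
    (hs : ∀ (M M' : IntermediateField E E') (r : E'), Q M → r ^ l ∈ M →
      M' = M ⊔ E⟮r⟯ → Q M') : Q ⊤ := by
  suffices h : ∀ (n : ℕ) (M : IntermediateField E E'), Module.finrank M E' = n → Q M → Q ⊤ from
    h _ ⊥ rfl h0
  intro n
  induction n using Nat.strong_induction_on with
  | _ n ih =>
    rintro M rfl hM
    rcases (Nat.succ_le_of_lt (Module.finrank_pos (R := M) (M := E'))).eq_or_lt with h | h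
    · rwa [← IntermediateField.finrank_eq_one_iff_eq_top.1 h.symm]
    obtain ⟨r, u, hr, h1⟩ := exists_kum hp (gkind_sub hG M)
      (hζ.map_of_injective (algebraMap E M).injective) h
    refine ih _ (IntermediateField.finrank_lt_of_gt (left_lt_sup.2 fun h2 => h1 ?_)) _ rfl
      (hs M _ r hM (hr ▸ u.2) rfl)
    exact ⟨⟨r, h2 (IntermediateField.mem_adjoin_simple_self E r)⟩, rfl⟩

/-- `e1_of_ine_bot` for `r` -/
theorem dvd_ord_of_ine {v : Vl E} {w : Vl E'} (ho : Over (algebraMap E E') v w) (hw : Ine E w = ⊥)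
    {r : E'} {u : E} (hr : r ^ l = algebraMap E E' u) : (l : ℤ) ∣ ord v u := by
  obtain ⟨a, ha⟩ := e1_of_ine_bot hw r
  exact gkind_dvd ho ha hr

/-- the same over an intermediate field -/
theorem dvd_ord_of_ine' {M : Type} [Field M] [Algebra E M] [Algebra M E'] [IsScalarTower E M E']
    {v : Vl M} (H : ∀ w : Vl E', Over (algebraMap M E') v w → Ine E w = ⊥) {r : E'} {u : M}
    (hr : r ^ l = algebraMap M E' u) : (l : ℤ) ∣ ord v u := by
  have := FiniteDimensional.right E M E'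
  obtain ⟨w, hw⟩ := exists_over (E := E') v
  obtain ⟨a, ha⟩ := e1_of_ine_bot (H w hw) r
  exact gkind_dvd hw (ha.trans (congrArg w (IsScalarTower.algebraMap_apply E M E' a))) hr

/-- adjoining an `l`-th root -/
theorem exists_root_ext' (hp : l.Prime) {ζ : E} (hζ : IsPrimitiveRoot ζ l) {u : E}
    (hu : ∀ y, y ^ l ≠ u) : ∃ (M : Type) (_ : Field M) (_ : Algebra E M)
      (_ : FiniteDimensional E M) (_ : IsGalois E M) (r : M) (g : M ≃ₐ[E] M),
      IsPGroup l (M ≃ₐ[E] M) ∧ r ^ l = algebraMap E M u ∧ g r = algebraMap E M ζ * r ∧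
      ∀ h : M ≃ₐ[E] M, h r = r → h = 1 := by
  have : NeZero l := ⟨hp.ne_zero⟩
  have H := X_pow_sub_C_irreducible_of_prime hp hu
  have h1 : (primitiveRoots l E).Nonempty := ⟨ζ, (mem_primitiveRoots hp.pos).2 hζ⟩
  let M := (Polynomial.X ^ l - Polynomial.C u).SplittingField
  have hr := rootOfSplitsXPowSubC_pow (n := l) u M
  have := isGalois_of_isSplittingField_X_pow_sub_C h1 H M
  refine ⟨M, _, _, inferInstance, this, _, (autEquivZmod H M hζ).symm
    (Multiplicative.ofAdd ((1 : ℕ) : ZMod l)), IsPGroup.of_card (n := 1) ?_, hr, ?_, fun h e =>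
      eq_one_of_adjoin (IntermediateField.adjoin_root_eq_top_of_isSplittingField h1 H hr) ?_⟩
  · rw [IsGalois.card_aut_eq_finrank, finrank_of_isSplittingField_X_pow_sub_C h1 H M, pow_one]
  · rw [autEquivZmod_symm_apply_natCast H M hr hζ, pow_one, Algebra.smul_def]
  · rintro _ rfl
    exact e

omit [FiniteDimensional E E'] [IsGalois E E'] in
theorem root_eq_zeta (hp : l.Prime) {ζ : E} (hζ : IsPrimitiveRoot ζ l) {x y : E} (h : x ^ l = y ^ l) :
    ∃ k : ℕ, x = ζ ^ k * y := by
  exact gkind_root hp hζ h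

omit [FiniteDimensional E E'] [IsGalois E E'] in
/-- `∏ (x - ζ ^ k) = x ^ l - 1` -/
theorem near_zeta (hp : l.Prime) {ζ : E} (hζ : IsPrimitiveRoot ζ l) {w : Vl E} {x : E}
    (h : w (x ^ l - 1) < 1) : ∃ k : ℕ, w (x - ζ ^ k) < 1 := by
  by_contra hn
  have h1 := congrArg (Polynomial.eval x) (X_pow_sub_C_eq_prod hζ hp.pos (one_pow l))
  simp only [Polynomial.eval_sub, Polynomial.eval_pow, Polynomial.eval_X, Polynomial.eval_C,
    Polynomial.eval_prod, mul_one] at h1
  rw [h1, map_prod] at h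
  exact h.not_ge (Finset.one_le_prod' fun k _ => not_lt.1 fun e => hn ⟨k, e⟩)

omit [FiniteDimensional E E'] [IsGalois E E'] in
/-- an `l`-th power in a purely inseparable extension is an `l`-th power -/
theorem pow_of_coprime {q : ℕ} (hq : q.Coprime l) {x y : E} (h : x ^ q = y ^ l) :
    ∃ z, x = z ^ l := by
  exact ((pow_eq_pow_iff_of_coprime hq).1 h).imp fun _ e => e.1

omit [IsGalois E E'] in
/-- an extension of `l`-groups -/
theorem isPGroup_tower {K : Type} [Field K] [Algebra K E] [Algebra K E'] [IsScalarTower K E E']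
    [Normal K E] (h1 : IsPGroup l (E ≃ₐ[K] E)) (h2 : IsPGroup l (E' ≃ₐ[E] E')) :
    IsPGroup l (E' ≃ₐ[K] E') := by
  intro g
  obtain ⟨k, hk⟩ := h1 (AlgEquiv.restrictNormalHom E g)
  obtain ⟨j, hj⟩ := h2 { (g ^ l ^ k).toRingEquiv with
    commutes' := fun x => by
      have h3 := (g ^ l ^ k).restrictNormal_commutes E x
      rw [show (g ^ l ^ k).restrictNormal E = 1 from
        (map_pow (AlgEquiv.restrictNormalHom E) g _).trans hk] at h3
      exact h3.symm }
  refine ⟨k + j, AlgEquiv.ext fun x => ?_⟩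
  have h3 := AlgEquiv.congr_fun hj x
  rw [AlgEquiv.coe_pow] at h3
  rw [pow_add, pow_mul, AlgEquiv.coe_pow]
  exact h3

omit [IsGalois E E'] in
/-- tame and index one gives unramified -/
theorem ine_bot_of_pgroup (hG : IsPGroup l (E' ≃ₐ[E] E')) (hp : l.Prime) {w : Vl E'}
    (hl : w (l : E') = 1) (he : E1 E w) : Ine E w = ⊥ := by
  have := Fact.mk hp
  obtain ⟨n, hn⟩ := IsPGroup.iff_card.1 hG
  exact ine_bot_of_e1 (tame_of_card (by rw [hn, Nat.cast_pow, map_pow, hl, one_pow])) he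

end Pool.Agent.ZFy.GM
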