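import Pool.Agent.Lib.MP_751085_ag.ZF.G.Lag
import Pool.Agent.Lib.MP_751085_ag.ZC.V.Jid

/-! Good models: primitive elements at an unramified prime. -/

namespace Pool.Agent.ZFy.GM

open Pool.Agent.ZCy
open scoped Classical WithZero Polynomial PowerSeries
open WithZero (exp)

variable {A K F N : Type} [CommRing A] [IsDomain A] [UniqueFactorizationMonoid A] [Field K]
  [Field F] [Field N] {a : A →+* F} {θ : F} {χ : A[X]} {D P : A} {α : A →+* K}

/-- `root_fix` for `i θ`, then `Etl.hom_ext`. -/
theorem Etl.ine_fix [Algebra K N] (h : Etl a θ χ D) {i : F →+* N} (hi : ∀ p, i (a p) = tE N α p)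
    (hD : ¬P ∣ D) {w : Vl N} (hw : Cen (tE N α) w P) {g : N ≃ₐ[K] N} (hg : g ∈ Ine K w) (x : F) :
    g (i x) = i x := by
  have e : i.comp a = tE N α := RingHom.ext hi
  have h1 : ∀ G : A[X], G.eval₂ (tE N α) (i θ) = i (G.eval₂ a θ) := fun G => by
    rw [Polynomial.hom_eval₂, e]
  have h2 : ∀ G : A[X], w (G.eval₂ (tE N α) (i θ)) ≤ 1 := fun G =>
    (h1 G).symm ▸ h.le_one (w := w.comap i) (fun p => (congrArg w (hi p)).trans_le (hw.1 p)) G
  obtain ⟨p, q, hb⟩ := h.bez
  have h3 := congrArg (fun G => w (Polynomial.eval₂ (tE N α) (i θ) G)) hb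
  simp only [Polynomial.eval₂_C, Polynomial.eval₂_add, Polynomial.eval₂_mul, h1 χ, h.root, map_zero,
    mul_zero, zero_add, map_mul, (hw.eq_one D).2 hD] at h3
  have h4 : g (i θ) = i θ := root_fix hg (f := χ.map (tE N α))
    (fun n => by rw [Polynomial.coeff_map]; exact g.commutes _)
    (fun n => by rw [Polynomial.coeff_map]; exact hw.1 _)
    (by simpa using h2 Polynomial.X) (by rw [Polynomial.eval_map, h1, h.root, map_zero])
    (by
      rw [Polynomial.derivative_map, Polynomial.eval_map]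
      exact (h2 _).antisymm (h3.le.trans (mul_le_of_le_one_left' (h2 q))))
  exact DFunLike.congr_fun (h.hom_ext (j := (g : N →+* N).comp i) (j' := i)
    (fun p => by rw [RingHom.comp_apply, hi]; exact g.commutes _) h4) x

/-- finitely many nonzero linear forms over an infinite domain have a common non-root -/
theorem exists_comb {B S ι κ : Type} [CommRing B] [CommRing S] [IsDomain S] [Fintype ι] [Finite κ]
    (f : B →+* S) (hf : (Set.range f).Infinite) (c : κ → ι → S) (hc : ∀ k, ∃ i, c k i ≠ 0) :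
    ∃ l : ι → B, ∀ k, ∑ i, f (l i) * c k i ≠ 0 := by
  have := Fintype.ofFinite κ
  let e := Fintype.equivFin ι
  let p : κ → S[X] := fun k => ∑ i, Polynomial.monomial (e i) (c k i)
  have hp : ∀ k, p k ≠ 0 := fun k h0 => by
    obtain ⟨i, hi⟩ := hc k
    have h1 := congrArg (Polynomial.coeff · (e i)) h0
    simp only [p, Polynomial.finsetSum_coeff, Polynomial.coeff_monomial, Fin.val_inj,
      e.apply_eq_iff_eq, Finset.sum_ite_eq', Finset.mem_univ, if_true, Polynomial.coeff_zero] at h1
    exact hi h1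
  obtain ⟨_, ⟨t, rfl⟩, ht⟩ := hf.exists_notMem_finite
    (Polynomial.finite_setOfPred_isRoot (Finset.prod_ne_zero_iff.2 fun k (_ : k ∈ Finset.univ) => hp k))
  refine ⟨fun i => t ^ (e i : ℕ), fun k h0 => ht ?_⟩
  change Polynomial.eval _ _ = 0
  rw [Polynomial.eval_prod]
  refine Finset.prod_eq_zero (Finset.mem_univ k) (Eq.trans ?_ h0)
  simp only [p, Polynomial.eval_finsetSum, Polynomial.eval_monomial, map_pow, mul_comm]

omit [IsDomain A] [UniqueFactorizationMonoid A] in
/-- the resultant of `χ` and `χ'` is a unit if the roots are distinct in the residue field -/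
theorem gprim_res {φ : A →+* N} {w : Vl N} (hm : χ.Monic) (h0 : χ.natDegree ≠ 0)
    (hs : (χ.map φ).Splits) (hn : (χ.map φ).roots.Nodup)
    (hr : ∀ r ∈ (χ.map φ).roots, ∀ r' ∈ (χ.map φ).roots, r' ≠ r → w (r - r') = 1) :
    ∃ (D : A) (p q : A[X]), Polynomial.C D = p * χ + q * χ.derivative ∧ w (φ D) = 1 := by
  have h1 : χ.derivative.natDegree ≤ χ.natDegree :=
    (Polynomial.natDegree_derivative_le χ).trans (Nat.sub_le _ _)
  obtain ⟨p, q, -, -, h2⟩ :=
    Polynomial.exists_mul_add_mul_eq_C_resultant χ χ.derivative le_rfl h1 (.inl h0)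
  have := φ.domain_nontrivial
  refine ⟨_, p, q, by rw [← h2, mul_comm χ, mul_comm _ q], ?_⟩
  have h3 := Polynomial.resultant_eq_prod_eval (χ.map φ) (χ.derivative.map φ) χ.natDegree
    (Polynomial.natDegree_map_le.trans h1) hs
  rw [hm.natDegree_map, Polynomial.resultant_map_map, (hm.map φ).leadingCoeff, one_pow,
    one_mul] at h3
  rw [h3, map_multiset_prod, Multiset.map_map]
  refine Multiset.prod_eq_one fun _ hx => ?_
  obtain ⟨r, h4, rfl⟩ := Multiset.mem_map.1 hx
  rw [Function.comp_apply, ← Polynomial.derivative_map, hs.eval_root_derivative (hm.map φ) h4,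
    map_multiset_prod, Multiset.map_map]
  refine Multiset.prod_eq_one fun _ hy => ?_
  obtain ⟨r', h5, rfl⟩ := Multiset.mem_map.1 hy
  exact hr r h4 r' (hn.mem_erase_iff.1 h5).2 (hn.mem_erase_iff.1 h5).1

/-- an integral element that separates the embeddings of `F` in the residue field -/
theorem gprim_sep [Algebra K F] [Algebra K N] [Algebra F N] [IsScalarTower K F N]
    [FiniteDimensional K N] [IsGalois K N] (hα : IsFr α) (hP : Prime P)
    (hinf : Infinite (A ⧸ Ideal.span {P})) {w : Vl N} (hw : Cen (tE N α) w P) (H : Ine K w = ⊥) :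
    ∃ θ : F, algebraMap F N θ ∈ IntOff (tE N α) 1 ∧ ∀ g g' : N ≃ₐ[K] N,
      (∀ x, g (algebraMap F N x) = g' (algebraMap F N x)) ∨
        w (g (algebraMap F N θ) - g' (algebraMap F N θ)) = 1 := by
  have := IsGalois.tower_top_of_isGalois K F N
  have := Module.Finite.right K F N
  obtain ⟨κ, _, ρ, hρ, -⟩ := exists_resf w
  have hS : IntOff (tE N α) 1 ≤ w.integer := fun x hx => hx P w hP hP.not_dvd_one hw
  let β := ρ.comp (Subring.inclusion hS)
  have hβ : ∀ x, β x = 0 ↔ w x < 1 := fun x => hρ _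
  have := RingHom.ker_isPrime β
  obtain ⟨s, m, x, y, h1, h2, h3⟩ := (stab_intOff (E := N) α 1).gal_coord (RingHom.ker β)
    fun g _ hg => by
      obtain ⟨b, hb, e⟩ := hw.sep hα hP H hg
      exact ⟨⟨b, hb⟩, fun h => ((hβ _).1 h).ne e⟩
  let t : Fin m → IntOff (tE N α) 1 := fun i =>
    ∑ h : N ≃ₐ[F] N, gI α 1 (h.restrictScalars K) (y i)
  have ht : ∀ i, algebraMap F N (Algebra.trace F N (y i)) = t i := fun i => by
    rw [trace_eq_sum_automorphisms]
    simp [t]
  have hf : (Set.range (β.comp (toInt _ 1))).Infinite := by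
    have e : RingHom.ker (β.comp (toInt _ 1)) = Ideal.span {P} := Ideal.ext fun p =>
      (hβ _).trans ((hw.2 p).trans Ideal.mem_span_singleton.symm)
    rw [← e] at hinf
    exact Set.infinite_coe_iff.1 (Infinite.of_injective _ (RingHom.quotientKerEquivRange _).injective)
  obtain ⟨l, hl⟩ := exists_comb _ hf (κ := {q : (N ≃ₐ[K] N) × (N ≃ₐ[K] N) //
      ¬∀ x, q.1 (algebraMap F N x) = q.2 (algebraMap F N x)})
    (fun q i => β (gI α 1 q.1.1 (t i) - gI α 1 q.1.2 (t i))) fun ⟨⟨g, g'⟩, hq⟩ => by
      by_contra! h0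
      have e1 : ∀ u : N ≃ₐ[K] N, ∑ i, g (x i) * u (t i) =
          ∑ h : N ≃ₐ[F] N, g (if g⁻¹ * u * h.restrictScalars K = 1 then (s : N) else 0) :=
        fun u => by
          simp only [← h3 _ (Subgroup.mem_top _), map_sum, map_mul, t,
            AddSubmonoidClass.coe_finsetSum, coe_gI, Finset.mul_sum]
          rw [Finset.sum_comm]
          simp
      have e2 : ∑ i, gI α 1 g (x i) * (gI α 1 g (t i) - gI α 1 g' (t i)) = s := Subtype.ext (by
        simp only [mul_sub, Finset.sum_sub_distrib, AddSubgroupClass.coe_sub,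
          AddSubmonoidClass.coe_finsetSum, Subring.coe_mul, coe_gI, e1]
        rw [Finset.sum_eq_single 1 (fun h _ hh => ?_) (by simp), Finset.sum_eq_zero fun h _ => ?_,
          if_pos (by ext; simp), sub_zero, h2 g (Subgroup.mem_top _)]
        · rw [if_neg fun e => hq fun z => ?_, map_zero]
          have e3 := congrArg (fun u => g (u (algebraMap F N z))) e
          simpa using e3.symm
        · rw [if_neg fun e => hh (AlgEquiv.ext fun z => ?_), map_zero]
          simpa using DFunLike.congr_fun e z)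
      refine h1 ?_
      rw [RingHom.mem_ker, ← e2, map_sum]
      exact Finset.sum_eq_zero fun i _ => by rw [map_mul, h0 i, mul_zero]
  have e4 : algebraMap F N (∑ i, tE F α (l i) * Algebra.trace F N (y i)) =
      (∑ i, toInt _ 1 (l i) * t i : IntOff (tE N α) 1) := by
    simp only [map_sum, map_mul, ht, AddSubmonoidClass.coe_finsetSum, Subring.coe_mul, coe_toInt,
      RingHom.comp_apply, ← IsScalarTower.algebraMap_apply]
  refine ⟨_, e4 ▸ Subtype.prop _, fun g g' => or_iff_not_imp_left.2 fun hq => ?_⟩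
  have e5 : g (algebraMap F N (∑ i, tE F α (l i) * Algebra.trace F N (y i))) -
      g' (algebraMap F N (∑ i, tE F α (l i) * Algebra.trace F N (y i))) =
      (∑ i, toInt _ 1 (l i) * (gI α 1 g (t i) - gI α 1 g' (t i)) : IntOff (tE N α) 1) := by
    rw [e4]
    simp only [map_sum, map_mul, AddSubmonoidClass.coe_finsetSum, Subring.coe_mul, coe_toInt,
      RingHom.comp_apply, AlgEquiv.commutes, AddSubgroupClass.coe_sub, coe_gI, mul_sub,
      Finset.sum_sub_distrib]
  rw [e5]
  refine le_antisymm (hS (Subtype.prop _)) (not_lt.1 fun h => hl ⟨(g, g'), hq⟩ ?_)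
  simpa only [map_sum, map_mul, RingHom.comp_apply] using (hβ _).2 h

/-- `gprim_sep` gives `θ`; `χ` is its minimal polynomial and `D` a resultant. -/
theorem exists_etl_of_ine [Algebra K F] [Algebra K N] [Algebra F N] [IsScalarTower K F N]
    [FiniteDimensional K N] [IsGalois K N] (hα : IsFr α) (hP : Prime P)
    (hinf : Infinite (A ⧸ Ideal.span {P})) (H : ∀ w : Vl N, Cen (tE N α) w P → Ine K w = ⊥) :
    ∃ θ χ D, Etl (tE F α) θ χ D ∧ ¬P ∣ D := by
  obtain ⟨w, -, hw⟩ := exists_cen_ext (E := N) hα hP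
  obtain ⟨θ, h1, h2⟩ := gprim_sep (F := F) hα hP hinf hw (H w hw)
  let := α.toAlgebra
  let := (tE N α).toAlgebra
  have : IsScalarTower A K N := .of_algebraMap_eq' rfl
  have := hα.frac
  have hi : IsIntegral A (algebraMap F N θ) := (mem_intOff_one hα).1 h1
  have e : (algebraMap F N).comp (tE F α) = tE N α := by
    rw [← RingHom.comp_assoc, ← IsScalarTower.algebraMap_eq]
  have e1 : (minpoly A (algebraMap F N θ)).map (tE N α) =
      (minpoly K (algebraMap F N θ)).map (algebraMap K N) := by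
    rw [minpoly.isIntegrallyClosed_eq_field_fractions' K hi, Polynomial.map_map]
    rfl
  have h3 : ∀ r ∈ ((minpoly K (algebraMap F N θ)).map (algebraMap K N)).roots,
      ∃ g : N ≃ₐ[K] N, g (algebraMap F N θ) = r := fun r hr =>
    minpoly.exists_algEquiv_of_root' (Algebra.IsAlgebraic.isAlgebraic _)
      (Polynomial.mem_aroots.1 hr).2
  obtain ⟨D, p, q, hb, hD⟩ := gprim_res (φ := tE N α) (w := w) (minpoly.monic hi)
    (minpoly.natDegree_pos hi).ne' (e1 ▸ Normal.splits inferInstance _)
    (e1 ▸ Polynomial.nodup_roots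
      (Polynomial.Separable.map (Algebra.IsSeparable.isSeparable K _))) (by
      rw [e1]
      intro r hr r' hr' hn
      obtain ⟨g, rfl⟩ := h3 r hr
      obtain ⟨g', rfl⟩ := h3 r' hr'
      exact (h2 g g').resolve_left fun h => hn (h θ).symm)
  have hD' := (hw.eq_one D).1 hD
  obtain ⟨χ, -, h4⟩ := etl_of_root (a := tE F α) (θ := θ) ((algebraMap K F).injective.comp hα.1)
    (minpoly.monic hi) ((algebraMap F N).injective (by
      rw [Polynomial.hom_eval₂, e, map_zero]
      exact minpoly.aeval A _)) hb (fun h => hD' (h ▸ dvd_zero P)) (top_unique fun x _ => by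
      let L := ((Subfield.closure (Set.range (tE F α) ∪ {θ})).map (algebraMap F N))
        |>.toIntermediateField (K := K) fun z => by
          obtain ⟨b, c, hc, h5⟩ := hα.2 z
          refine ⟨algebraMap K F z, ?_, (IsScalarTower.algebraMap_apply K F N z).symm⟩
          rw [eq_div_of_mul_eq (hα.vfrc_ne hc) h5, map_div₀]
          exact div_mem (Subfield.subset_closure (.inl ⟨b, rfl⟩))
            (Subfield.subset_closure (.inl ⟨c, rfl⟩))
      have h6 : algebraMap F N x ∈ L := by
        rw [← IsGalois.fixedField_fixingSubgroup L]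
        refine fun g => ((h2 g 1).resolve_right fun h => ?_) x
        rw [show g.1 (algebraMap F N θ) = _ from
          g.2 ⟨_, θ, Subfield.subset_closure (.inr rfl), rfl⟩] at h
        simp at h
      obtain ⟨z, hz, h7⟩ := h6
      exact (algebraMap F N).injective h7 ▸ hz)
  exact ⟨θ, χ, D, h4, hD'⟩

/-- inertia in the Galois closure fixes `F`, then `F'`, then all conjugates -/
theorem etl_tower {F' : Type} [Field F'] [Algebra F F'] [FiniteDimensional F F'] [IsGalois F F']
    (h : Etl a θ χ D) (hP : Prime P) (hD : ¬P ∣ D) (hinf : Infinite (A ⧸ Ideal.span {P}))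
    (H : ∀ w : Vl F', Cen (tE F' a) w P → Ine F w = ⊥) :
    ∃ θ' χ' D', Etl (tE F' a) θ' χ' D' ∧ ¬P ∣ D' := by
  obtain ⟨_, rfl⟩ := exists_frac h.inj
  have hα := isFr_alg A (Fr A)
  obtain ⟨_, _, -⟩ := h.alg hα
  let := ((algebraMap F F').comp (algebraMap (Fr A) F)).toAlgebra
  have : IsScalarTower (Fr A) F F' := .of_algebraMap_eq' rfl
  have := Module.Finite.trans (R := Fr A) F F'
  have := Algebra.IsSeparable.trans (Fr A) F F'
  obtain ⟨N, _, _, _, _, _, _, hN⟩ := exists_gc (Fr A) F'
  let := ((algebraMap F' N).comp (algebraMap F F')).toAlgebra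
  have e : ∀ p, algebraMap F N (tE F (algebraMap A (Fr A)) p) = tE N (algebraMap A (Fr A)) p :=
    fun p => (IsScalarTower.algebraMap_apply (Fr A) F' N _).symm
  obtain ⟨r, hr⟩ := exists_rs (K := F) (K' := F) (φ := RingHom.id F) (j := algebraMap F' N)
    fun _ => rfl
  have key : ∀ w : Vl N, Cen (tE N (algebraMap A (Fr A))) w P → ∀ g ∈ Ine (Fr A) w, ∀ x,
      g (algebraMap F' N x) = algebraMap F' N x := fun w hw g hg x => by
    let g₀ : N ≃ₐ[F] N := AlgEquiv.ofRingEquiv (f := g) (h.ine_fix e hD hw hg)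
    have h1 := hr.ine (Over.comap _ w) (g := g₀) hg
    have e' : (algebraMap F N).comp _ = _ := RingHom.ext e
    rw [H _ ((cen_of_over (Over.comap _ w)).1 (e'.symm ▸ hw :
      Cen ((algebraMap F N).comp _) w P)), Subgroup.mem_bot] at h1
    have h2 := hr g₀ x
    rw [h1] at h2
    exact h2.symm
  refine exists_etl_of_ine (K := Fr A) (N := N) hα hP hinf fun w hw =>
    (Subgroup.eq_bot_iff_forall _).2 fun g hg => hN g fun u x => ?_
  have h3 := key (w.comap (u : N →+* N)) (by simpa [Cen] using hw) (u⁻¹ * g * u)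
    (mem_ine_comap.2 (by simpa [mul_assoc] using hg)) x
  simpa using congrArg u h3

theorem infinite_quot_C {R : Type} [CommRing R] {π : R} (hπ : ¬IsUnit π) :
    Infinite (R[X] ⧸ Ideal.span {Polynomial.C π}) := by
  refine Infinite.of_injective (fun n : ℕ => Ideal.Quotient.mk _ (Polynomial.X ^ n))
    fun n m e => by_contra fun hn => hπ (isUnit_of_dvd_one ?_)
  have h1 := (Polynomial.C_dvd_iff_dvd_coeff _ _).1
    (Ideal.mem_span_singleton.1 (Ideal.Quotient.eq.1 e)) n
  simpa [Polynomial.coeff_X_pow, hn] using h1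

/-- a finite separable extension of an extension with a primitive element has one -/
theorem etl_ext {F' : Type} [Field F'] [Algebra F F'] [FiniteDimensional F F']
    [Algebra.IsSeparable F F'] (h : Etl a θ χ D) : ∃ θ' χ' D', Etl (tE F' a) θ' χ' D' := by
  obtain ⟨_, rfl⟩ := exists_frac h.inj
  have hα := isFr_alg A (Fr A)
  obtain ⟨_, _, -⟩ := h.alg hα
  let := ((algebraMap F F').comp (algebraMap (Fr A) F)).toAlgebra
  have : IsScalarTower (Fr A) F F' := .of_algebraMap_eq' rfl
  have := Module.Finite.trans (R := Fr A) F F'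
  have := Algebra.IsSeparable.trans (Fr A) F F'
  exact exists_etl (K := Fr A) hα

end Pool.Agent.ZFy.GM
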