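import Pool.Agent.Lib.MP_751085_ag.ZF.G.Cvr
import Pool.Agent.Lib.MP_751085_ag.ZF.G.Kind
import Pool.Agent.Lib.MP_751085_ag.ZF.G.Prim

/-! Good models: towers of Kummer extensions. -/

namespace Pool.Agent.ZFy.GM

open Pool.Agent.ZCy
open scoped Classical WithZero Polynomial PowerSeries
open WithZero (exp)
open IsLocalRing

variable {R F : Type} [CommRing R] [IsDomain R] [CDVR R] [Field F] {π t : R} {a : R[X] →+* F}
  {Θ : R[X]} {J : F →+* Fr R⟦X⟧} {ψ : R⟦X⟧ →+* R⟦X⟧} {V : Vl (Fr R⟦X⟧)}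

variable [IsAlgClosed (ResidueField R)] {l : ℕ}

/-- the power of `π` is an `l`-th power -/
theorem disc_pow (hπ : Irreducible π) (hl : IsUnit (l : R)) (h : Disc a Θ t J ψ) {u : F}
    (h0 : u ≠ 0) (hu : TW l a Θ u)
    (hW : ∀ w : Vl F, Cen a w (Polynomial.C π) → (l : ℤ) ∣ ord w u) :
    ∃ (m : ℤ) (z : Fr R⟦X⟧), J u = fr R PowerSeries.X ^ m * z ^ l := by
  have hJ : J u ≠ 0 := (map_ne_zero J).2 h0
  obtain ⟨k, m, z, e⟩ := fac_pow hπ hl hJ fun P V' hP h1 h2 hV => hu.dvd (h.unm hπ h1 h2 hP hV.1)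
  obtain ⟨V, hV⟩ := exists_pv hπ
  have hd : (l : ℤ) ∣ ord V (J u) := hW _ (h.cen hπ hV.1)
  have hC : fr R (PowerSeries.C π) ≠ 0 := V.ne_zero_iff.1 (hV.2 ▸ WithZero.exp_ne_zero)
  have hz : z ^ l ≠ 0 := fun h => hJ (by rw [e, h, mul_zero])
  have c1 := zpow_ne_zero k hC
  have c2 := zpow_ne_zero m (gps0_X (R := R))
  rw [e, ord_mul_v V (mul_ne_zero c1 c2) hz, ord_mul_v V c1 c2, ord_zpow_v, ord_zpow_v, ord_pow_v,
    ord_eq_of V hV.2, (ord_eq_zero_v V gps0_X).2 (pv_X hπ hV.1), mul_one, mul_zero, add_zero] at hd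
  obtain ⟨c, rfl⟩ := (dvd_add_left (dvd_mul_right _ _)).1 hd
  refine ⟨m, fr R (PowerSeries.C π) ^ c * z, ?_⟩
  rw [e, mul_pow, ← zpow_natCast (_ ^ c), ← zpow_mul, mul_comm c]
  ring

variable {F' : Type} [Field F'] [Algebra F F']

theorem gtow_fac {K L : Type} [Field K] [Field L] (hp : l.Prime) {ζ : K} (hζ : IsPrimitiveRoot ζ l)
    {u : F} {r : F'} (hr : r ^ l = algebraMap F F' u) (hg : IntermediateField.adjoin F {r} = ⊤)
    (ι : K →+* L) (j : F' →+* L) (J : F →+* K) (h : ∀ x, ι (J x) = j (algebraMap F F' x)) {y : K}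
    (hy : J u = y ^ l) : ∃ J' : F' →+* K, (∀ x, ι (J' x) = j x) ∧
      (∀ x, J' (algebraMap F F' x) = J x) ∧ ∃ k : ℕ, J' r = ζ ^ k * y := by
  obtain ⟨k, hk⟩ := root_eq_zeta hp (hζ.map_of_injective ι.injective) (x := j r) (y := ι y)
    (by rw [← map_pow, hr, ← h, hy, map_pow])
  rw [← map_pow, ← map_mul] at hk
  obtain ⟨J', hJ⟩ := exists_fac ι j (range_of_closure ((adjoin_top_iff {r}).1 hg) ι j (by
    rintro _ (⟨x, rfl⟩ | rfl)
    exacts [⟨_, h x⟩, ⟨_, hk.symm⟩]))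
  exact ⟨J', hJ, fun x => ι.injective ((hJ _).trans (h x).symm), k,
    ι.injective ((hJ _).trans hk)⟩

/-- one Kummer step -/
theorem smat_kum (hπ : Irreducible π) (hp : l.Prime) (hl : IsUnit (l : R)) (hs : SMat a Θ t) {u : F}
    (hu : TW l a Θ u) (hW : ∀ w : Vl F, Cen a w (Polynomial.C π) → (l : ℤ) ∣ ord w u) {r : F'}
    (hr : r ^ l = algebraMap F F' u) (hg : IntermediateField.adjoin F {r} = ⊤) :
    SMat (tE F' a) Θ t := by
  refine smat_of_closed fun L _ _ b j hb hj => ?_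
  obtain ⟨⟨J, ψ⟩, hD, ι, h1, h2⟩ := hs L b (j.comp (algebraMap F F')) hb hj
  replace hD : Disc a Θ t J ψ := hD
  obtain ⟨ζ, hζ⟩ := exists_zeta hp hl
  have hζ' : IsPrimitiveRoot (fr R (PowerSeries.C ζ)) l :=
    (hζ.map_of_injective PowerSeries.C_injective).map_of_injective (IsFractionRing.injective _ _)
  by_cases hy : ∃ y, J u = y ^ l
  · obtain ⟨y, hy⟩ := hy
    obtain ⟨J', e1, e2, -⟩ := gtow_fac hp hζ' hr hg ι j J h1 hy
    exact ⟨J', ψ, hD.ext e2, ι, e1, h2⟩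
  have h0 : u ≠ 0 := fun e => hy ⟨0, by rw [e, map_zero, zero_pow hp.ne_zero]⟩
  obtain ⟨m, z, e⟩ := disc_pow hπ hl hD h0 hu hW
  have hm : ¬(l : ℤ) ∣ m := fun ⟨c, hc⟩ => hy ⟨fr R PowerSeries.X ^ c * z, by
    rw [e, hc, mul_pow, ← zpow_natCast (_ ^ c), ← zpow_mul, mul_comm c]⟩
  have hz : z ≠ 0 := fun h => hy ⟨0, by rw [e, h, zero_pow hp.ne_zero, mul_zero]⟩
  obtain ⟨τ, hC, hX⟩ := exists_sub (PowerSeries.X ^ l : R⟦X⟧) (by simp [hp.ne_zero])
  have hX' := hX.trans (mul_one _).symm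
  have hi := sub_inj hC hp.pos isUnit_one hX'
  have hn := sub_int hC hp.pos isUnit_one hX'
  obtain ⟨ι', hι⟩ := exists_ext_fr hi hn ι
  obtain ⟨Ψ, hΨ⟩ := (isFr_alg R⟦X⟧ (Fr R⟦X⟧)).exists_lift (β := (fr R).comp τ)
    ((IsFractionRing.injective _ _).comp hi)
  replace hΨ : ∀ f, Ψ (fr R f) = fr R (τ f) := hΨ
  have hc : ι'.comp Ψ = ι := IsFractionRing.ringHom_ext (A := R⟦X⟧) fun f =>
    (congrArg ι' (hΨ f)).trans (hι f)
  obtain ⟨J', e1, e2, k, e3⟩ := gtow_fac hp hζ' hr hg ι' j (Ψ.comp J)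
    (fun x => (RingHom.congr_fun hc (J x)).trans (h1 x)) (y := fr R PowerSeries.X ^ m * Ψ z) (by
      rw [RingHom.comp_apply, e, map_mul, map_zpow₀, map_pow, hΨ, hX, map_pow, mul_pow,
        ← zpow_natCast (fr R _ ^ m), ← zpow_natCast (fr R _), ← zpow_mul, ← zpow_mul, mul_comm m])
  refine ⟨J', τ.comp ψ, ⟨fun c => (congrArg τ (hD.cst c)).trans (hC c), hi.comp hD.inj,
    hD.int.trans _ _ hn, fun p => (e2 _).trans ((congrArg Ψ (hD.cmp p)).trans (hΨ _)), ?_, ?_⟩,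
    ι', e1, fun f => (hι _).trans (h2 f)⟩
  · generalize hS : Subfield.closure (K := Fr R⟦X⟧) _ = S
    have s1 : ∀ x, J' x ∈ S := fun x => hS ▸ Subfield.subset_closure (.inl ⟨x, rfl⟩)
    have s2 : ∀ x, Ψ x ∈ S := fun x => by
      refine (?_ : ⊤ ≤ S.comap Ψ) (Subfield.mem_top x)
      rw [← hD.gen, Subfield.closure_le]
      rintro _ (⟨x, rfl⟩ | ⟨f, rfl⟩)
      · exact (e2 x ▸ s1 _ : (Ψ.comp J) x ∈ S)
      · change Ψ (fr R (ψ f)) ∈ S
        rw [hΨ, ← hS]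
        exact Subfield.subset_closure (.inr ⟨f, rfl⟩)
    refine sub_gen hC hp.pos isUnit_one hX' S (fun f => hΨ f ▸ s2 _) ?_
    have s3 : fr R PowerSeries.X ^ m ∈ S := by
      have := S.div_mem (s1 r) (S.mul_mem (S.pow_mem (s2 (fr R (PowerSeries.C ζ))) k) (s2 z))
      rwa [e3, hΨ, hC, mul_left_comm, mul_div_cancel_right₀ _ (mul_ne_zero
        (pow_ne_zero _ (hζ'.ne_zero hp.ne_zero)) ((map_ne_zero Ψ).2 hz))] at this
    have s4 := s2 (fr R PowerSeries.X)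
    rw [hΨ, hX, map_pow, ← zpow_natCast] at s4
    obtain ⟨α, β, hb⟩ := (Nat.prime_iff_prime_int.1 hp).irreducible.coprime_iff_not_dvd.2 hm
    have := S.mul_mem (S.zpow_mem s4 α) (S.zpow_mem s3 β)
    rwa [← zpow_mul, ← zpow_mul, ← zpow_add₀ gps0_X, mul_comm _ α, mul_comm _ β, hb, zpow_one]
      at this
  · obtain ⟨n, hn⟩ := hD.mark
    exact ⟨l * n, by simpa only [map_pow, hX, ← pow_mul, RingHom.comp_apply] using hn.map τ⟩

variable [FiniteDimensional F F'] [IsGalois F F']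

/-- induction over the tower -/
theorem smat_tower (hπ : Irreducible π) (hp : l.Prime) (hl : IsUnit (l : R))
    (ha : Function.Injective a) (hs : SMat a Θ t) (hG : IsPGroup l (F' ≃ₐ[F] F'))
    (h1 : UnU F (tE F' a) Θ)
    (h2 : ∀ w : Vl F', Cen (tE F' a) w (Polynomial.C π) → Ine F w = ⊥) : SMat (tE F' a) Θ t := by
  obtain ⟨ζ, hζ⟩ := exists_zeta hp hl
  refine (kum_ind hp hG ((hζ.map_of_injective Polynomial.C_injective).map_of_injective ha)
    (fun M => SMat (tE M a) Θ t) (hs.comp fun x => ?_) fun M M' r hM hr e => ?_).comp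
    (e := algebraMap _ F') fun x => ⟨⟨x, trivial⟩, rfl⟩
  · obtain ⟨y, hy⟩ := IntermediateField.mem_bot.1 x.2
    exact ⟨y, Subtype.ext hy⟩
  · rw [e, ← IntermediateField.restrictScalars_adjoin_eq_sup]
    change SMat (tE (IntermediateField.adjoin M {r}) (tE M a)) Θ t
    refine smat_kum hπ hp hl hM (u := ⟨_, hr⟩)
      (fun v _ hv => dvd_ord_of_ine' (E := F) (M := M) (v := v) (r := r)
        (fun w ho => h1 w (Unm.comap.1 (hv.congr (w' := w.comap (algebraMap M F')) ho))) rfl)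
      (fun v hv => dvd_ord_of_ine' (E := F) (M := M) (v := v) (r := r) (fun w ho => h2 w
        ⟨fun p => (ho _).2 (hv.1 p), fun p => (ho.lt_one _).trans (hv.2 p)⟩) rfl)
      (r := IntermediateField.AdjoinSimple.gen M r) rfl (IntermediateField.lift_injective _ ?_)
    rw [IntermediateField.lift_adjoin_simple, IntermediateField.lift_top]
    rfl

/-- good models pass to unramified `l`-extensions -/
theorem good_tower (hπ : Irreducible π) (hp : l.Prime) (hl : IsUnit (l : R)) (h : Good a Θ)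
    (hG : IsPGroup l (F' ≃ₐ[F] F')) (h1 : UnU F (tE F' a) Θ)
    (h2 : ∀ w : Vl F', Cen (tE F' a) w (Polynomial.C π) → Ine F w = ⊥) : Good (tE F' a) Θ := by
  obtain ⟨θ, χ, D, he, hD⟩ := h.et
  refine ⟨⟨h.sm.monic, fun c => ?_, ?_⟩, ?_⟩
  · obtain ⟨t, ht, hs⟩ := h.sm.fin c
    exact ⟨t, ht, smat_tower hπ hp hl h.inj hs hG h1 h2⟩
  · rw [rvs_comp]
    refine smat_tower hπ hp hl (rvs_inj h.inj) h.sm.inf hG ?_ fun w hw => h2 w ?_
    · rw [tE, ← rvs_comp]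
      exact h1.rvs
    · rw [tE, ← rvs_comp] at hw
      exact (cen_rvs ((algebraMap F F').injective.comp h.inj) hπ.prime).1 hw
  · obtain ⟨θ', χ', D', he', hD'⟩ := etl_tower he (Polynomial.prime_C_iff.2 hπ.prime)
      (mt (poly_red_eq_zero hπ D).2 hD) (infinite_quot_C hπ.not_isUnit) h2
    exact ⟨θ', χ', D', he', mt (poly_red_eq_zero hπ D').1 hD'⟩

end Pool.Agent.ZFy.GM
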