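import Pool.Agent.Lib.MP_751085_ag.ZF.G.Lft
import Pool.Agent.Lib.MP_751085_ag.ZF.G.Tow
import Pool.Agent.Lib.MP_751085_ag.ZC.V.Lau

/-! Good models: lifting Kummer classes from the residue field. -/

namespace Pool.Agent.ZFy.GM

open Pool.Agent.ZCy
open scoped Classical WithZero Polynomial PowerSeries
open WithZero (exp)
open IsLocalRing

variable {R F : Type} [CommRing R] [IsDomain R] [CDVR R] [Field F] {π t : R} {a : R[X] →+* F}
  {Θ : R[X]} {V : Vl (Fr R⟦X⟧)}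
  {J : F →+* Fr R⟦X⟧} {ψ : R⟦X⟧ →+* R⟦X⟧} {w : Vl F} {l : ℕ} {κ Fb : Type} [Field κ]
  [Field Fb] {r : R →+* κ} {ρ : w.integer →+* Fb} {ab : κ[X] →+* Fb}

theorem gred_lau (hπ : Irreducible π) (hr : ∀ x, r x = 0 ↔ ¬IsUnit x) (f : R⟦X⟧) :
    lau r f = 0 ↔ PowerSeries.C π ∣ f := by
  rw [ps_C_dvd]
  refine ⟨fun h n => ?_, fun h => ?_⟩
  · have := coeff_lau (ι := r) f n
    rwa [h, HahnSeries.coeff_zero, eq_comm, hr, gps0_unit hπ, not_not] at this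
  · have : PowerSeries.map r f = 0 := by
      ext n
      rw [PowerSeries.coeff_map, map_zero, hr, gps0_unit hπ, not_not]
      exact h n
    rw [lau, RingHom.comp_apply, this, map_zero]

omit [IsDomain R] [CDVR R] in
theorem gred_X (hw : Cen a w (Polynomial.C π)) (hπ : Irreducible π) : w (a Polynomial.X) = 1 :=
  (hw.eq_one _).2 fun h => hπ.not_isUnit (isUnit_of_dvd_one
    (Polynomial.coeff_X_one (R := R) ▸ (Polynomial.C_dvd_iff_dvd_coeff _ _).1 h 1))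

/-- the residue map of the valuation of `π` on `Fr R⟦X⟧` (`Cen.exists_red`) -/
theorem exists_red_ps (hπ : Irreducible π) (hV : Cen (fr R) V (PowerSeries.C π))
    (hr : ∀ x, r x = 0 ↔ ¬IsUnit x) : ∃ ρ₀ : V.integer →+* Ls κ, IsRed V ρ₀ ∧
      (∀ (f : R⟦X⟧) (y : V.integer), (y : Fr R⟦X⟧) = fr R f → ρ₀ y = lau r f) ∧
      ∀ (y : V.integer) (n : ℤ), Ro V y n → lval κ (ρ₀ y) = exp (-n) := by
  obtain ⟨ρ₀, h1, h2, -⟩ := Cen.exists_red (isFr_alg R⟦X⟧ (Fr R⟦X⟧)) (prime_ps_C hπ.prime) hV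
    (gred_lau hπ hr)
  have h3 : ∀ (f : R⟦X⟧) (y : V.integer), (y : Fr R⟦X⟧) = fr R f → ρ₀ y = lau r f :=
    fun f y e => (congrArg ρ₀ (Subtype.ext e)).trans (h2 f)
  refine ⟨ρ₀, h1, h3, fun y n ⟨ε, hε, e⟩ => ?_⟩
  have hz : ∀ n : ℤ, V (fr R PowerSeries.X ^ n) ≤ 1 := fun n => by
    rw [map_zpow₀, pv_X hπ hV, one_zpow]
  have h5 : ∀ k : ℕ, lval κ (ρ₀ ⟨_, hz k⟩) = exp (-(k : ℤ)) := fun k => by
    rw [h3 (PowerSeries.X ^ k) _ (by rw [map_pow]; exact zpow_natCast _ _), map_pow, lau_X,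
      map_pow, lval_single, ← WithZero.exp_nsmul]
    simp
  have h4 : lval κ (ρ₀ ⟨_, hz n⟩) = exp (-n) := by
    obtain ⟨k, rfl | rfl⟩ := n.eq_nat_or_neg
    · exact h5 k
    · have e1 : (⟨_, hz (-k)⟩ * ⟨_, hz k⟩ : V.integer) = 1 := Subtype.ext (by
        change _ ^ _ * _ ^ _ = (1 : Fr R⟦X⟧)
        rw [← zpow_add₀ gps0_X, neg_add_cancel, zpow_zero])
      have e2 := congrArg (fun y => lval κ (ρ₀ y)) e1
      simp only [map_mul, map_one, h5] at e2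
      rw [eq_inv_of_mul_eq_one_left e2, ← WithZero.exp_neg]
  rw [(h1.eq_iff y (⟨_, hz n⟩ * ⟨_, hV.1 ε⟩)).2 e, map_mul, map_mul, h4, h2]
  exact (congrArg _ (((isVR_lval κ).eq_one (PowerSeries.map r ε)).2 (hε.map _))).trans (mul_one _)

/-- `IsRed.factor` embeds `Fb` into Laurent series -/
theorem redv (hπ : Irreducible π) (hV : Cen (fr R) V (PowerSeries.C π)) (hJ : Over J w V)
    (hρ : IsRed w ρ) (hs : Function.Surjective ρ) :
    ∃ y : Vl Fb, ∀ (x : w.integer) (n : ℤ), Ro V (J x) n → y (ρ x) = exp (-n) := by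
  obtain ⟨ρ₀, h1, -, h2⟩ := exists_red_ps (r := residue R) hπ hV
    fun x => by rw [gps0_res hπ, gps0_unit hπ, not_not]
  obtain ⟨i, hi⟩ := hρ.factor hs (h1.comp_int hJ)
  exact ⟨(lval _).comap i, fun x n h => (congrArg _ (hi x)).trans (h2 (hJ.int x) n h)⟩

theorem Disc.red (hπ : Irreducible π) (hV : Cen (fr R) V (PowerSeries.C π)) (h : Disc a Θ t J ψ)
    (hJ : Over J w V) (hρ : IsRed w ρ) (hs : Function.Surjective ρ) (hr : Function.Surjective r)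
    (hab : ∀ (p : R[X]) (y : w.integer), (y : F) = a p → ρ y = ab (p.map r)) :
    ∃ y : Vl Fb, (∀ (x : w.integer) (n : ℤ), Ro V (J x) n → y (ρ x) = exp (-n)) ∧ Hor ab y ∧
      y (ab Polynomial.X) ≤ 1 ∧ (IsUnit (Θ.eval t) → y (ab (Θ.map r)) = 1) ∧
      (¬IsUnit t → y (ab Polynomial.X) < 1) := by
  obtain ⟨y, hy⟩ := redv hπ hV hJ hρ hs
  have hw : ∀ p, w (a p) ≤ 1 := fun p => (hJ _).1 (by rw [h.cmp]; exact hV.1 _)
  have h1 : ∀ p n, Ro V (fr R (ψ (sh t p))) n → y (ab (p.map r)) = exp (-n) := fun p n e => by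
    rw [← hab p ⟨a p, hw p⟩ rfl]
    exact hy _ n (h.cmp p ▸ e :)
  have hu : ∀ p, IsUnit (ψ (sh t p)) ↔ IsUnit (p.eval t) := fun p => by
    rw [h.isUnit_iff, PowerSeries.isUnit_iff_constantCoeff, cc_sh]
  have h2 : ∀ p : R[X], IsUnit (p.eval t) → y (ab (p.map r)) = 1 := fun p hp =>
    h1 p 0 (ro_unit ((hu p).2 hp))
  have h3 : ¬IsUnit t → y (ab Polynomial.X) < 1 := fun ht => by
    rw [← Polynomial.map_X r]
    by_cases hd : PowerSeries.C π ∣ ψ (sh t Polynomial.X)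
    · rw [← hab _ ⟨_, hw _⟩ rfl, (hρ _).2 ((hJ.lt_one _).1 (by
        rw [h.cmp]; exact (hV.2 _).2 hd)), map_zero]
      exact zero_lt_one
    · obtain ⟨k, hk⟩ := gps0_ps hπ hV hd
      have h4 : (k : ℤ) ≠ 0 := fun e => ht (by
        simpa using (hu _).1 ((hk.nonneg hπ hV).2.1 e))
      rw [h1 _ k hk, ← WithZero.exp_zero, WithZero.exp_lt_exp]
      omega
  refine ⟨y, hy, fun c hc => ?_, ?_, h2 Θ, h3⟩
  · obtain ⟨c, rfl⟩ := hr c
    rw [← Polynomial.map_C r]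
    exact h2 _ (by
      rw [Polynomial.eval_C]
      exact not_not.1 fun h => hc (((res_of_surj hr).1 c).2 h))
  · by_cases ht : IsUnit t
    · rw [← Polynomial.map_X r]
      exact (h2 _ (by rwa [Polynomial.eval_X])).le
    · exact (h3 ht).le

theorem rvs_red (hw : Cen a w (Polynomial.C π)) (hπ : Irreducible π) (hρ : IsRed w ρ)
    (hab : ∀ (p : R[X]) (y : w.integer), (y : F) = a p → ρ y = ab (p.map r)) (p : R[X])
    (y : w.integer) (hy : (y : F) = rvs a p) : ρ y = rvs ab (p.map r) := by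
  have hw' := grev_cen hπ.prime hw
  have e : ρ.comp ((rvs a).codRestrict w.integer hw'.1) =
      (rvs ab).comp (Polynomial.mapRingHom r) := by
    refine Polynomial.ringHom_ext (fun c => (hab (Polynomial.C c) _ (rvs_C c)).trans ?_) ?_
    · simp [rvs_C]
    · have e1 : (rvs a).codRestrict w.integer hw'.1 Polynomial.X * ⟨_, hw.1 Polynomial.X⟩ = 1 :=
        Subtype.ext ((congrArg (· * _) rvs_X).trans (inv_mul_cancel₀ fun h0 => by
          simpa [h0] using gred_X hw hπ))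
      have e2 := congrArg ρ e1
      rw [map_mul, map_one, hab Polynomial.X ⟨_, hw.1 _⟩ rfl, Polynomial.map_X] at e2
      refine (eq_inv_of_mul_eq_one_left e2).trans ?_
      simp [rvs_X]
  exact (congrArg ρ (Subtype.ext hy)).trans (DFunLike.congr_fun e p)

variable [IsAlgClosed (ResidueField R)]

/-- An infinite place is centred at `X` for `rvs a`; `plc` gives a disc, and `P'` divides
`ψ X = X ^ e ε`. `disc_pow` (`TW.rvs`, `Good.uni`), then `Ro.mul`, `Ro.pow`, `ro_X`. -/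
theorem spec_inf (hπ : Irreducible π) (hV : Cn1 (fr R) V (PowerSeries.C π)) (hl : IsUnit (l : R))
    (h : Good a Θ) (hw : Cen a w (Polynomial.C π)) {U : F} (h1 : w U = 1) (hU : TW l a Θ U)
    (H : ∀ J ψ n, Disc (rvs a) (Polynomial.X * Θ.reverse) 0 J ψ → Ro V (J U) n → (l : ℤ) ∣ n) :
    TI l a U := by
  intro v hv hh h2
  obtain ⟨θ, χ, D, he, -⟩ := h.et
  obtain ⟨b, k, χ', -, he'⟩ := he.rvs
  have h3 : v (rvs a Polynomial.X) < 1 := by
    rw [rvs_X, map_inv₀]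
    exact inv_lt_one_of_one_lt₀ h2
  obtain ⟨Q, hQ, hc⟩ := ghor_cen he' hv (hor_rvs.2 hh) h3.le
  have hQ0 : Q.eval 0 = 0 := by
    rw [← Polynomial.coeff_zero_eq_eval_zero, ← Polynomial.X_dvd_iff]
    exact hQ.irreducible.dvd_symm Polynomial.irreducible_X ((hc.2 _).1 h3)
  obtain ⟨⟨J, ψ⟩, hd, P', V', -, -, -, e⟩ := plc hπ he' h.sm.inf (fun d hd => hd) hQ
    (ghor_nd hπ (hor_rvs.2 hh) hQ hc) (hQ0.symm ▸ not_isUnit_zero) hv hc
  replace hd : Disc (rvs a) (Polynomial.X * Θ.reverse) 0 J ψ := hd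
  have h0 : U ≠ 0 := by
    rintro rfl
    simp at h1
  have hu : ∀ w' : Vl F, Cen (rvs a) w' (Polynomial.C π) → w' U = 1 := fun w' hw' =>
    (Over.eq_one (φ := RingHom.id F) (h.uni hπ w w' hw ((cen_rvs h.inj hπ.prime).1 hw')) U).2 h1
  obtain ⟨m, z, hz⟩ := disc_pow hπ hl hd h0 hU.rvs fun w' hw' => by
    rw [(ord_eq_zero_v w' h0).2 (hu w' hw')]
    exact dvd_zero _
  have h4 : V (J U) = 1 := hu (V.comap J) (hd.cen hπ hV.1)
  have hl0 : l ≠ 0 := by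
    rintro rfl
    simp at hl
  rw [hz, map_mul, map_zpow₀, pv_X hπ hV.1, one_zpow, one_mul, map_pow,
    pow_eq_one_iff_of_nonneg zero_le hl0] at h4
  obtain ⟨n, hn⟩ := exists_ro hπ hV.1 h4
  have h7 : (l : ℤ) ∣ m := (dvd_add_left (dvd_mul_right _ _)).1
    (H J ψ _ hd (hz ▸ (ro_X m).mul hπ hV.1 (hn.pow hπ hV.1 l)))
  have h8 : z ≠ 0 := by
    rintro rfl
    simp at h4
  rw [show ord v U = ord V' (J U) by rw [ord, ord, ← e], hz,
    ord_mul_v _ (zpow_ne_zero _ gps0_X) (pow_ne_zero _ h8), ord_zpow_v, ord_pow_v]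
  exact dvd_add (h7.mul_right _) (dvd_mul_right _ _)

/-- normalise `w` (`Good.exists_cn1`, `Good.uni`), `lift_core`, `Disc.red`, `TW.dvd`, `spec_inf` -/
theorem lift_tw (hπ : Irreducible π) (hl : IsUnit (l : R)) (h : Good a Θ)
    (hw : Cen a w (Polynomial.C π)) (hρ : IsRed w ρ) (hs : Function.Surjective ρ)
    (hr : Function.Surjective r)
    (hab : ∀ (p : R[X]) (y : w.integer), (y : F) = a p → ρ y = ab (p.map r)) {u : Fb} (h0 : u ≠ 0)
    (hu : TW l ab (Θ.map r) u) : ∃ (y : w.integer) (z : Fb), z ≠ 0 ∧ ρ y = u * z ^ l ∧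
      TW l a Θ (y : F) ∧ (TI l ab u → TI l a (y : F)) := by
  obtain ⟨V, hV⟩ := exists_pv hπ
  obtain ⟨W, hW⟩ := h.exists_cn1 hπ
  have ho : Over (RingHom.id F) w W := h.uni hπ w W hw hW.1
  obtain ⟨x, rfl⟩ := hs u
  have hx : w x = 1 := (hρ.ne_zero x).1 h0
  have hJ : ∀ {J ψ Θ' t}, Disc a Θ' t J ψ ∨ Disc (rvs a) Θ' t J ψ → Over J w V := fun hd x => by
    rw [h.disc_val hπ hW hV hd]
    exact ho x
  obtain ⟨U, y, hy, hU, hT⟩ := lift_core hπ hV hW hl h ((ho.eq_one _).2 hx)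
    fun t J ψ n hd ht hn => by
      obtain ⟨y', h1, h2, h3, h4, -⟩ := hd.red hπ hV.1 (hJ (.inl hd)) hρ hs hr hab
      rw [← ord_eq_of y' (h1 x n hn)]
      exact hu.dvd ⟨h2, h3, h4 ht⟩
  replace hy : w y = 1 := (ho.eq_one _).1 hy
  replace hU : w (U - x * y ^ l) < 1 := (ho.lt_one _).1 hU
  have hxy : w (x * y ^ l) = 1 := by rw [map_mul, map_pow, hx, hy, one_pow, one_mul]
  have hU1 : w U = 1 := (w.map_eq_of_sub_lt (hU.trans_eq hxy.symm)).trans hxy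
  have e : ρ ⟨U, hU1.le⟩ = ρ x * ρ ⟨y, hy.le⟩ ^ l := by
    rw [← map_pow, ← map_mul, hρ.eq_iff]
    exact hU
  have hz : ρ ⟨y, hy.le⟩ ≠ 0 := (hρ.ne_zero _).2 hy
  refine ⟨⟨U, hU1.le⟩, _, hz, e, hT,
    fun hI => spec_inf hπ hV hl h hw hU1 hT fun J ψ n hd hn => ?_⟩
  obtain ⟨y', h1, h2, -, -, h5⟩ := hd.red (ab := rvs ab) hπ hV.1 (hJ (.inr hd)) hρ hs hr
    (rvs_red hw hπ hρ hab)
  rw [← ord_eq_of y' (h1 ⟨U, hU1.le⟩ n hn), e, ord_mul_v _ h0 (pow_ne_zero _ hz), ord_pow_v]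
  refine dvd_add (hI.dvd (hor_rvs.1 h2) ?_) (dvd_mul_right _ _)
  have h6 := h5 not_isUnit_zero
  rw [rvs_X, map_inv₀, inv_lt_one₀ (zero_lt_iff.2 (y'.ne_zero_iff.2 ?_))] at h6
  · exact h6
  · rw [← Polynomial.map_X r, ← hab _ ⟨_, hw.1 _⟩ rfl, hρ.ne_zero]
    exact gred_X hw hπ

end Pool.Agent.ZFy.GM
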