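import Pool.Agent.Lib.MP_751085_ag.ZF.G.Ta
import Pool.Agent.Lib.MP_751085_ag.ZF.G.Red
import Pool.Agent.Lib.MP_751085_ag.ZF.K.GDefs

/-! Good models: the interface for curves without marked points. -/

namespace Pool.Agent.ZFy.GM

open Pool.Agent.ZCy
open scoped Classical WithZero Polynomial PowerSeries
open WithZero (exp)
open IsLocalRing

variable {R KK F : Type} [CommRing R] [Field KK] [Field F] {l : ℕ}

theorem tyw_iff {ψ : KK[X] →+* F} {u : F} :
    TyW l (ψ.comp Polynomial.C) u ↔ TW l ψ 1 u ∧ TI l ψ u := by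
  refine ⟨fun h => ⟨fun v h1 h2 => h v ⟨h1, h2.1⟩, fun v h1 h2 _ => h v ⟨h1, h2⟩⟩,
    fun h v hv => ?_⟩
  rcases le_or_gt (v (ψ Polynomial.X)) 1 with h1 | h1
  exacts [h.1 v hv.1 ⟨hv.2, h1, by simp⟩, h.2 v hv.1 hv.2 h1]

theorem tw_fr {α : R →+* KK} (hα : IsFr α) {ψ : KK[X] →+* F} {Θ : R[X]} {u : F} :
    TW l (ψ.comp (Polynomial.mapRingHom α)) Θ u ↔ TW l ψ (Θ.map α) u := by
  simp only [TW, unm_fr hα]

theorem ti_fr {α : R →+* KK} (hα : IsFr α) {ψ : KK[X] →+* F} {u : F} :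
    TI l (ψ.comp (Polynomial.mapRingHom α)) u ↔ TI l ψ u := by
  simp [TI, hor_fr hα]

theorem gmi_of_good [IsDomain R] [CDVR R] [IsAlgClosed (ResidueField R)] {α : R →+* KK}
    (hα : IsFr α) {ψ : KK[X] →+* F} (h : Good (ψ.comp (Polynomial.mapRingHom α)) 1) (hp : l.Prime)
    (hl : IsUnit (l : R)) : GMI l α ψ := by
  refine ⟨fun N _ _ _ _ ι hG hι hu => ?_, fun π w κ Fb _ _ r c ρ hπ hw hρ hs hr hc u h0 hu => ?_⟩
  · obtain ⟨lam, hlam⟩ := exists_lam hα
    obtain ⟨h1, J, hJ, -⟩ := ta_core (N := N) hα hlam hp hl h hG (ι := ι)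
      (tL_rvs (φ := (algebraMap F N).comp ψ) hι) fun w hw =>
        hu w ((hor_fr (ψ := (algebraMap F N).comp ψ) hα).1 hw.1)
    exact ⟨fun x => (mem_lam hlam _).1 ⟨J x, hJ x⟩, fun π w w' hπ => h1.uni hπ w w'⟩
  · let a := (ψ.comp (Polynomial.mapRingHom α)).codRestrict w.integer hw.1
    let ab := Polynomial.eval₂RingHom c (ρ (a Polynomial.X))
    have e : ρ.comp a = ab.comp (Polynomial.mapRingHom r) :=
      Polynomial.ringHom_ext (fun x => (hc x _ (by simp [a])).trans (by simp [ab])) (by simp [ab])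
    have hu' := (tyw_iff (ψ := ab) (l := l) (u := u)).1
      (by rwa [show ab.comp Polynomial.C = c from RingHom.ext fun x => by simp [ab]])
    obtain ⟨y, z, hz, h1, h2, h3⟩ := lift_tw (ab := ab) hπ hl h hw hρ hs hr
      (fun p y hy => (show y = a p from Subtype.ext hy) ▸ RingHom.congr_fun e p) h0
      (by rw [Polynomial.map_one]; exact hu'.1)
    exact ⟨y, z, hz, h1, tyw_iff.2 ⟨by simpa using (tw_fr hα).1 h2, (ti_fr hα).1 (h3 hu'.2)⟩⟩

end Pool.Agent.ZFy.GM
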