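import Pool.Agent.Lib.MP_751085_ag.ZF.G.Ps0
import Pool.Agent.Lib.MP_751085_ag.ZF.G.Sub

/-! Good models: Weierstrass preparation, finite local rings. -/

namespace Pool.Agent.ZFy.GM

open Pool.Agent.ZCy
open scoped Classical WithZero Polynomial PowerSeries
open WithZero (exp)
open IsLocalRing

variable {R : Type} [CommRing R] [IsDomain R] [CDVR R] {π : R}

theorem gwei_sh {A : Type} [CommRing A] (t : A) (p : A[X]) :
    sh t p = (Polynomial.taylorEquiv t p : A[X]) := by
  rw [sbs_eq, Polynomial.expand_one, Polynomial.map_id]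
  rfl

theorem gwei_dvd {f p : R[X]} (H : f.IsDistinguishedAt (maximalIdeal R))
    (h : (f : R⟦X⟧) ∣ (p : R⟦X⟧)) : f ∣ p := by
  rw [← Ideal.mem_span_singleton, ← Ideal.Quotient.eq_zero_iff_mem]
  refine H.algEquivQuotient.injective ?_
  rw [map_zero]
  exact Ideal.Quotient.eq_zero_iff_mem.2 (Ideal.mem_span_singleton.2 h)

/-- a prime polynomial with a zero in the disc stays prime -/
theorem wei_prime (hπ : Irreducible π) {Q : R[X]} (hQ : Prime Q) (h0 : ¬Polynomial.C π ∣ Q) {t : R}
    (ht : ¬IsUnit (Q.eval t)) : Prime (sh t Q) ∧ (∀ p, sh t Q ∣ sh t p → Q ∣ p) ∧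
      ∀ (n : ℕ) (f : R⟦X⟧), ∃ p, sh t Q ^ n ∣ f - sh t p := by
  have hr : PowerSeries.map (residue R) (sh t Q) ≠ 0 := fun h =>
    h0 ((C_dvd_sh t Q).1 ((red_eq_zero hπ _).1 h))
  obtain ⟨f, u, H⟩ := PowerSeries.exists_isWeierstrassFactorization hr
  have hP : Prime (Polynomial.taylorEquiv t Q) :=
    (MulEquiv.prime_iff (Polynomial.taylorEquiv t)).2 hQ
  have hd : (f : R⟦X⟧) ∣ sh t Q := ⟨u, H.eq_mul⟩
  have hf : ¬IsUnit f := fun h => ht (by
    rw [← cc_sh, ← PowerSeries.isUnit_iff_constantCoeff, H.eq_mul]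
    exact (h.map Polynomial.coeToPowerSeries.ringHom).mul H.isUnit)
  have ha : Associated f (Polynomial.taylorEquiv t Q) :=
    ((hP.irreducible.dvd_iff.1 (gwei_dvd H.isDistinguishedAt (gwei_sh t Q ▸ hd))).resolve_left
      hf).symm
  refine ⟨?_, fun p hp => ?_, fun n g => ?_⟩
  · have hp := ha.symm.prime hP
    have := (Ideal.span_singleton_prime hp.ne_zero).2 hp
    have := MulEquiv.isDomain _ H.algEquivQuotient.symm.toMulEquiv
    refine (Ideal.span_singleton_prime fun h => hr ?_).1
      ((Ideal.Quotient.isDomain_iff_prime _).1 this)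
    rw [h, map_zero]
  · exact (map_dvd_iff (Polynomial.taylorEquiv t)).1
      (ha.symm.dvd.trans (gwei_dvd H.isDistinguishedAt (gwei_sh t p ▸ hd.trans hp)))
  · obtain ⟨q, r, h⟩ := PowerSeries.exists_isWeierstrassDivision g (g := sh t Q ^ n)
      (by rw [map_pow]; exact pow_ne_zero n hr)
    refine ⟨(Polynomial.taylorEquiv t).symm r, q, ?_⟩
    rw [gwei_sh t (_ : R[X]), AlgEquiv.apply_symm_apply, h.eq_mul_add, add_sub_cancel_right]

/-- a map whose image contains a transcendental element is injective -/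
theorem evl_inj {B : Type} [CommRing B] [IsDomain B] (e : R⟦X⟧ →+* B) {y : R⟦X⟧}
    (hy : ∀ p : R[X], p.eval₂ (e.comp PowerSeries.C) (e y) = 0 → p = 0) :
    Function.Injective e := by
  obtain ⟨π, hπ⟩ := IsDiscreteValuationRing.exists_irreducible R
  refine (injective_iff_map_eq_zero e).2 fun g hg => by_contra fun h0 => ?_
  obtain ⟨k, g', hd, rfl⟩ := WfDvdMonoid.max_power_factor' (x := PowerSeries.C π) h0 fun h =>
    hπ.not_isUnit (by simpa using PowerSeries.isUnit_iff_constantCoeff.1 h)
  have h1 : e (PowerSeries.C π) ≠ 0 := fun h =>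
    hπ.ne_zero (Polynomial.C_eq_zero.1 (hy _ (by simpa using h)))
  rw [map_mul, map_pow] at hg
  have h2 := (mul_eq_zero.1 hg).resolve_left (pow_ne_zero k h1)
  obtain ⟨f, u, H⟩ := PowerSeries.exists_isWeierstrassFactorization fun h =>
    hd ((red_eq_zero hπ g').1 h)
  have := H.isDistinguishedAt.monic.finite_quotient
  have := Module.Finite.equiv H.algEquivQuotient.toLinearEquiv
  obtain ⟨p, hm, hp⟩ := IsIntegral.of_finite R (Ideal.Quotient.mk (Ideal.span {g'}) y)
  refine hm.ne_zero (hy p ?_)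
  have h3 : Ideal.Quotient.mk (Ideal.span {g'}) (p.eval₂ PowerSeries.C y) = 0 := by
    rw [Polynomial.hom_eval₂]
    exact hp
  obtain ⟨c, hc⟩ := Ideal.mem_span_singleton.1 (Ideal.Quotient.eq_zero_iff_mem.1 h3)
  rw [← Polynomial.hom_eval₂, hc, map_mul, h2, zero_mul]

theorem gwei_prec {A M : Type} [CommRing A] (I : Ideal A) [IsPrecomplete I A] [AddCommGroup M]
    [Module A M] [Module.Finite A M] : IsPrecomplete I M := by
  refine AdicCompletion.of_surjective_iff.1 fun x => ?_
  obtain ⟨z, rfl⟩ := AdicCompletion.ofTensorProduct_surjective_of_finite I M x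
  induction z with
  | zero => exact ⟨0, by simp⟩
  | tmul r m =>
    obtain ⟨a, rfl⟩ := AdicCompletion.of_surjective_iff.2 ‹IsPrecomplete I A› r
    refine ⟨a • m, ?_⟩
    rw [AdicCompletion.ofTensorProduct_tmul, map_smul, ← algebraMap_smul (AdicCompletion I A)]
    rfl
  | add x y hx hy =>
    obtain ⟨a, ha⟩ := hx
    obtain ⟨b, hb⟩ := hy
    exact ⟨a + b, by rw [map_add, map_add, ha, hb]⟩

theorem gwei_nil {B : Type} [CommRing B] [IsDomain B] (I : Ideal B) [HenselianRing B I]
    [IsArtinianRing (B ⧸ I)] (b : B) (hb : ¬IsUnit b) : b ∈ I.radical := by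
  obtain ⟨n, y, hy⟩ := IsArtinian.exists_pow_succ_smul_dvd (Ideal.Quotient.mk I b) (1 : B ⧸ I)
  obtain ⟨y, rfl⟩ := Ideal.Quotient.mk_surjective y
  rw [smul_eq_mul, smul_eq_mul, mul_one] at hy
  have h1 : ∀ k, (Ideal.Quotient.mk I b * Ideal.Quotient.mk I y) ^ k *
      Ideal.Quotient.mk I b ^ n.succ = Ideal.Quotient.mk I b ^ n.succ := fun k => by
    induction k with
    | zero => simp
    | succ k ih =>
      rw [pow_succ _ k, mul_assoc, mul_assoc, mul_comm (Ideal.Quotient.mk I y), hy, ← pow_succ',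
        ih]
  have h2 : Ideal.Quotient.mk I ((b * y) ^ n.succ) ^ 2 = Ideal.Quotient.mk I ((b * y) ^ n.succ) := by
    rw [map_pow, map_mul, sq]
    nth_rewrite 2 3 [mul_pow]
    rw [← mul_assoc, h1]
  obtain ⟨a, ha, hc⟩ := HenselianRing.is_henselian (I := I) (Polynomial.X ^ 2 - Polynomial.X)
    (by monicity!) ((b * y) ^ n.succ)
    (by
      rw [← Ideal.Quotient.eq_zero_iff_mem, Polynomial.eval_sub, Polynomial.eval_pow,
        Polynomial.eval_X, map_sub, map_pow, h2, sub_self])
    (by
      refine IsUnit.of_mul_eq_one (2 * Ideal.Quotient.mk I ((b * y) ^ n.succ) - 1) ?_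
      simp only [Polynomial.derivative_sub, Polynomial.derivative_X_sq, Polynomial.derivative_X,
        Polynomial.eval_sub, Polynomial.eval_mul, Polynomial.eval_C, Polynomial.eval_X,
        Polynomial.eval_one, map_sub, map_mul, map_one, map_ofNat, Polynomial.eval_ofNat]
      linear_combination 4 * h2)
  have h3 : a * (a - 1) = 0 := by
    have := ha.eq_zero
    simp only [Polynomial.eval_sub, Polynomial.eval_pow, Polynomial.eval_X] at this
    linear_combination this
  rcases mul_eq_zero.1 h3 with rfl | h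
  · refine ⟨n.succ, Ideal.Quotient.eq_zero_iff_mem.1 ?_⟩
    rw [zero_sub, neg_mem_iff, ← Ideal.Quotient.eq_zero_iff_mem, map_pow, map_mul] at hc
    rw [map_pow, ← h1 n.succ, hc, zero_mul]
  · rw [sub_eq_zero.1 h] at hc
    have h4 := Ideal.mem_jacobson_bot.1 (HenselianRing.jac hc) (-1)
    refine absurd (isUnit_of_dvd_unit ?_ h4) hb
    exact ⟨y * (b * y) ^ n, by rw [pow_succ']; ring⟩

/-- a finite domain over a complete local ring is a complete local ring -/
theorem fin_local {A B : Type} [CommRing A] [IsNoetherianRing A] [IsLocalRing A]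
    [IsAdicComplete (maximalIdeal A) A] [CommRing B] [IsDomain B] [Algebra A B]
    [Module.Finite A B] : ∃ _ : IsLocalRing B, IsAdicComplete (maximalIdeal B) B ∧
      IsLocalHom (algebraMap A B) := by
  have := IsNoetherianRing.of_finite A B
  have hp : IsPrecomplete ((maximalIdeal A).map (algebraMap A B)) B :=
    IsPrecomplete.map_algebraMap_iff.2 (gwei_prec _)
  have hh : IsHausdorff ((maximalIdeal A).map (algebraMap A B)) B :=
    IsHausdorff.map_algebraMap_iff.2 inferInstance
  have : IsAdicComplete ((maximalIdeal A).map (algebraMap A B)) B := ⟨⟩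
  let := Ideal.Quotient.field (maximalIdeal A)
  have := IsArtinianRing.of_finite (A ⧸ maximalIdeal A)
    (B ⧸ (maximalIdeal A).map (algebraMap A B))
  have hj := IsAdicComplete.le_jacobson_bot ((maximalIdeal A).map (algebraMap A B))
  have hn := gwei_nil ((maximalIdeal A).map (algebraMap A B))
  have hl : IsLocalRing B := .of_isUnit_or_isUnit_one_sub_self fun b => or_iff_not_imp_left.2 fun h =>
    by simpa [sub_eq_neg_add] using Ideal.mem_jacobson_bot.1
        ((Ideal.radical_mono hj).trans (Ideal.isRadical_jacobson _) (hn b h)) (-1)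
  have hle := hj.trans (jacobson_eq_maximalIdeal ⊥ bot_ne_top).le
  refine ⟨hl, ?_, ⟨fun a ha => by_contra fun h => hle (Ideal.mem_map_of_mem _ h) ha⟩⟩
  obtain ⟨N, hN⟩ := Ideal.exists_pow_le_of_le_radical_of_fg (I := maximalIdeal B) hn
    (IsNoetherian.noetherian _)
  have : IsPrecomplete (maximalIdeal B) B := ⟨fun f hf => by
    obtain ⟨L, hL⟩ := hp.prec (f := fun k => f ((N + 1) * k)) fun {m n} h =>
      (hf (Nat.mul_le_mul_left _ h)).mono (Submodule.smul_mono_left (by
        rw [pow_mul]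
        exact Ideal.pow_right_mono ((Ideal.pow_le_pow_right N.le_succ).trans hN) m))
    exact ⟨L, fun n => (hf (Nat.le_mul_of_pos_left n N.succ_pos)).trans
      ((hL n).mono (Submodule.smul_mono_left (Ideal.pow_right_mono hle n)))⟩⟩
  exact ⟨⟩

/-- the residue field does not grow -/
theorem fin_res {A B : Type} [CommRing A] [IsLocalRing A] [IsAlgClosed (ResidueField A)]
    [CommRing B] [IsLocalRing B] [Algebra A B] [Algebra.IsIntegral A B]
    [IsLocalHom (algebraMap A B)] (y : B) : ∃ x, y - algebraMap A B x ∈ maximalIdeal B := by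
  have : Algebra.IsIntegral (ResidueField A) (ResidueField B) := ⟨fun z => by
    obtain ⟨z, rfl⟩ := residue_surjective z
    exact ((Algebra.IsIntegral.isIntegral (R := A) z).map
      (IsScalarTower.toAlgHom A B (ResidueField B))).tower_top⟩
  obtain ⟨x, hx⟩ := (IsAlgClosed.algebraMap_bijective_of_isIntegral (k := ResidueField A)).2
    (residue B y)
  obtain ⟨x, rfl⟩ := residue_surjective x
  exact ⟨x, by rw [← residue_eq_zero_iff, map_sub, ← hx, ResidueField.algebraMap_residue, sub_self]⟩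

theorem isAlgClosed_res_ps' [IsAlgClosed (ResidueField R)] :
    IsAlgClosed (ResidueField R⟦X⟧) := by
  have : IsLocalHom (PowerSeries.C : R →+* R⟦X⟧) :=
    ⟨fun a h => by simpa using PowerSeries.isUnit_iff_constantCoeff.1 h⟩
  refine .of_ringEquiv _ _ (RingEquiv.ofBijective (ResidueField.map (PowerSeries.C : R →+* R⟦X⟧))
    ⟨RingHom.injective _, fun z => ?_⟩)
  obtain ⟨z, rfl⟩ := residue_surjective z
  refine ⟨residue R (PowerSeries.constantCoeff z), ?_⟩
  rw [ResidueField.map_residue, ← sub_eq_zero, ← map_sub, residue_eq_zero_iff, vwei_mem]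
  simp

end Pool.Agent.ZFy.GM
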