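import Pool.Agent.Lib.MP_751085_ag.ZF.G.Cvr
import Pool.Agent.Lib.MP_751085_ag.ZF.G.Wei

/-! Good models: horizontal valuations come from discs. -/

namespace Pool.Agent.ZFy.GM

open Pool.Agent.ZCy
open scoped Classical WithZero Polynomial PowerSeries
open WithZero (exp)
open IsLocalRing

variable {R F : Type} [CommRing R] [IsDomain R] [CDVR R] [Field F] {π t : R} {a : R[X] →+* F}
  {Θ : R[X]} {J : F →+* Fr R⟦X⟧} {ψ : R⟦X⟧ →+* R⟦X⟧} {V : Vl (Fr R⟦X⟧)}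

variable {θ : F} {χ : R[X][X]} {D : R[X]} {P : Vl F}

theorem ghor_cen (he : Etl a θ χ D) (hP : Nrm P) (hh : Hor a P) (h1 : P (a Polynomial.X) ≤ 1) :
    ∃ Q, Prime Q ∧ Cen a P Q := by
  refine (cen_poly (hh.le_one h1) hh).resolve_left fun h => ?_
  obtain ⟨_, rfl⟩ := exists_frac he.inj
  have hα := isFr_alg R[X] (Fr R[X])
  obtain ⟨_, -⟩ := he.alg hα
  obtain ⟨ϖ, hϖ⟩ := hP
  refine ((lt_one_iff_le_exp _).2 hϖ.le).ne (Triv.eq_one (K := Fr R[X]) (fun x hx => ?_)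
    (fun h0 => WithZero.exp_ne_zero (hϖ.symm.trans (h0 ▸ P.map_zero)))
    (Algebra.IsAlgebraic.isAlgebraic ϖ))
  obtain ⟨p, q, hq, e⟩ := hα.2 x
  have e1 := congrArg (fun y => P (algebraMap _ F y)) e
  have hp : p ≠ 0 := fun h0 => mul_ne_zero hx ((map_ne_zero_iff _ hα.1).2 hq) (by simp [e, h0])
  simp only [map_mul] at e1
  exact (mul_one _).symm.trans (((congrArg _ (h q hq).symm).trans e1).trans (h p hp))

theorem ghor_nd (hπ : Irreducible π) (hh : Hor a P) {Q : R[X]} (hQ : Prime Q) (h : Cen a P Q) :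
    ¬Polynomial.C π ∣ Q := fun hd => (h.eq_one _).1 (hh π hπ.ne_zero)
  ((Polynomial.prime_C_iff.2 hπ.prime).irreducible.dvd_symm hQ.irreducible hd)

/-- the centre of a horizontal valuation meets the special fibre -/
theorem hor_cases [IsAlgClosed (ResidueField R)] (hπ : Irreducible π) (he : Etl a θ χ D)
    (hP : Nrm P) (hh : Hor a P) {s : ResidueField R → R} (hs : ∀ c, residue R (s c) = c) :
    (∃ c Q, Prime Q ∧ ¬Polynomial.C π ∣ Q ∧ Cen a P Q ∧ ¬IsUnit (Q.eval (s c))) ∨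
      ∃ Q, Prime Q ∧ ¬Polynomial.C π ∣ Q ∧ Cen (rvs a) P Q ∧ ¬IsUnit (Q.eval 0) := by
  have hx : ∀ {Q : R[X]}, Prime Q → Q ∣ Polynomial.X → Q.eval 0 = 0 := fun hQ h => by
    rw [← Polynomial.coeff_zero_eq_eval_zero, ← Polynomial.X_dvd_iff]
    exact hQ.irreducible.dvd_symm Polynomial.irreducible_X h
  rcases le_or_gt (P (a Polynomial.X)) 1 with h1 | h1
  · obtain ⟨Q, hQ, h⟩ := ghor_cen he hP hh h1
    by_cases hr : ∃ c, (Q.map (residue R)).IsRoot c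
    · obtain ⟨c, hc⟩ := hr
      refine .inl ⟨c, Q, hQ, ghor_nd hπ hh hQ h, h, fun hu => (hu.map (residue R)).ne_zero ?_⟩
      rw [← Polynomial.eval_map_apply, hs]
      exact hc
    · obtain ⟨h2, h3, -⟩ := cen_inv (φ := rvs a) (fun r => (rvs_C r).symm)
        (by rw [rvs_X, mul_inv_cancel₀ (grev_ne he.inj)]) hQ (fun hd => hr ⟨residue R 0, by
          rw [Polynomial.IsRoot, Polynomial.eval_map_apply, hx hQ hd, map_zero]⟩) h
      refine .inr ⟨_, h2, ghor_nd hπ (hor_rvs.2 hh) h2 h3, h3, fun hu => hr ?_⟩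
      rw [← Polynomial.coeff_zero_eq_eval_zero, Polynomial.coeff_zero_reverse] at hu
      refine IsAlgClosed.exists_root _ fun hd => hQ.not_isUnit ?_
      rw [Polynomial.degree_map_eq_of_leadingCoeff_ne_zero _ (hu.map _).ne_zero] at hd
      rw [Polynomial.leadingCoeff, Polynomial.natDegree_eq_of_degree_eq_some (n := 0) hd] at hu
      rw [Polynomial.eq_C_of_degree_eq_zero hd]
      exact hu.map _
  · obtain ⟨b, k, χ', -, he'⟩ := he.rvs
    have h2 : P (rvs a Polynomial.X) < 1 := by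
      rw [rvs_X, map_inv₀]
      exact inv_lt_one_of_one_lt₀ h1
    obtain ⟨Q, hQ, h⟩ := ghor_cen he' hP (hor_rvs.2 hh) h2.le
    exact .inr ⟨Q, hQ, ghor_nd hπ (hor_rvs.2 hh) hQ h, h,
      (hx hQ ((h.2 _).1 h2)).symm ▸ not_isUnit_zero⟩

/-- horizontal valuations come from discs -/
theorem plc (hπ : Irreducible π) (he : Etl a θ χ D)
    {𝒟 : Set ((F →+* Fr R⟦X⟧) × (R⟦X⟧ →+* R⟦X⟧))} (hc : Cvs a t 𝒟)
    (hD : ∀ d ∈ 𝒟, Disc a Θ t d.1 d.2) {Q : R[X]} (hQ : Prime Q) (h0 : ¬Polynomial.C π ∣ Q)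
    (ht : ¬IsUnit (Q.eval t)) (hP : Nrm P) (h : Cen a P Q) :
    ∃ d ∈ 𝒟, ∃ (P' : R⟦X⟧) (V' : Vl (Fr R⟦X⟧)), Prime P' ∧ ¬Associated P' (PowerSeries.C π) ∧
      Cn1 (fr R) V' P' ∧ ∀ x, V' (d.1 x) = P x := by
  obtain ⟨_, rfl⟩ := exists_frac he.inj
  have hα := isFr_alg R[X] (Fr R[X])
  have hφ := isFr_alg R⟦X⟧ (Fr R⟦X⟧)
  obtain ⟨_, _, -⟩ := he.alg hα
  obtain ⟨h1, h2, h3⟩ := wei_prime hπ hQ h0 ht
  obtain ⟨v₁, hv, -⟩ := exists_cn1 hφ h1
  obtain ⟨β, hβ⟩ := hα.exists_lift (β := (fr R).comp (sh t)) (hφ.1.comp (sh_inj t))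
  have c1 : Cen (algebraMap R[X] (Fr R[X])) (v₁.comap β) Q :=
    ⟨fun p => by rw [Valuation.comap_apply, hβ]; exact hv.1 _, fun p => by
      rw [Valuation.comap_apply, hβ]
      exact (hv.2 _).trans ⟨h2 p, map_dvd _⟩⟩
  obtain ⟨L, _, _, _, j, w, hj, o1, o2⟩ := pld β (v₁ := v₁)
    (Cen.iff hα hQ ((cen_of_over (Over.comap _ P)).1 h) c1) (Over.comap _ P)
  obtain ⟨d, hd, ι, e1, e2⟩ := hc L ((algebraMap _ L).comp (fr R)) j
    ((algebraMap (Fr R⟦X⟧) L).injective.comp hφ.1) fun p => (hj _).trans (congrArg _ (hβ p))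
  have c2 : Cen ((fr R).comp d.2) (w.comap ι) (sh t Q) := by
    have c := (cen_of_over o1).2 hv
    exact ⟨fun f => (congrArg w (e2 f)).trans_le (c.1 f),
      fun f => (iff_of_eq (congrArg (fun x => w x < 1) (e2 f))).trans (c.2 f)⟩
  obtain ⟨P', hP', c3⟩ := cen_goup (hD d hd).inj (hD d hd).int h1 c2
  obtain ⟨V', hV⟩ := exists_cn1 hφ hP'
  have dv : ∀ f, P' ∣ d.2 f ↔ sh t Q ∣ f := fun f => (c3.2 _).symm.trans (c2.2 f)
  refine ⟨d, hd, P', V', hP', fun ha => h0 (hQ.irreducible.dvd_symm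
    (Polynomial.prime_C_iff.2 hπ.prime).irreducible (h2 _ ((dv _).1 ?_))), hV,
    idx_one_iff.1 (idx_one_of_dns hP hV.nrm (fun x => (Cen.iff hφ hP' c3 hV.1 _).trans ?_)
      fun x => dns_closure (S := Set.range d.1 ∪ Set.range fun f => fr R (d.2 f)) ?_
        ((hD d hd).gen ▸ Subfield.mem_top x))⟩
  · rw [show sh t (Polynomial.C π) = PowerSeries.C π by simp [sbs], (hD d hd).cst]
    exact ha.dvd
  · rw [Valuation.comap_apply, e1]
    exact o2 x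
  · rintro _ (⟨x, rfl⟩ | ⟨f, rfl⟩) n
    · exact ⟨x, by simp⟩
    · obtain ⟨p, hp⟩ := h3 n f
      refine ⟨tE F (algebraMap R[X] (Fr R[X])) p, ?_⟩
      rw [(hD d hd).cmp, ← map_sub, ← map_sub, hV.dvd_iff hP']
      exact (pow_dvd_pow_of_dvd ((dv _).2 dvd_rfl) n).trans (map_pow d.2 _ n ▸ map_dvd d.2 hp)

end Pool.Agent.ZFy.GM
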