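import Pool.Agent.Lib.MP_751085_ag.ZF.G.Lag

/-! Good models: a unique prolongation gives an irreducible reduction. -/

namespace Pool.Agent.ZFy.GM

open Pool.Agent.ZCy
open scoped Classical WithZero Polynomial PowerSeries
open WithZero (exp)

variable {A A' F Ω : Type} [CommRing A] [IsDomain A] [UniqueFactorizationMonoid A] [CommRing A']
  [IsDomain A'] [Field F] [Field Ω] {a : A →+* F} {θ : F} {χ : A[X]} {D P : A}

omit [IsDomain A] [UniqueFactorizationMonoid A] in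
theorem girru_clear {l : A →+* Ω} (hs : ∀ y, ∃ p q, l q ≠ 0 ∧ y * l q = l p) (f : Polynomial Ω) :
    ∃ (n : A) (G : A[X]), l n ≠ 0 ∧ G.map l = Polynomial.C (l n) * f := by
  induction f using Polynomial.induction_on' with
  | add f g hf hg =>
    obtain ⟨n, G, h1, h2⟩ := hf
    obtain ⟨m, H, h3, h4⟩ := hg
    refine ⟨n * m, Polynomial.C m * G + Polynomial.C n * H, by rw [map_mul]; exact mul_ne_zero h1 h3,
      ?_⟩
    simp only [Polynomial.map_add, Polynomial.map_mul, Polynomial.map_C, h2, h4, map_mul]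
    ring
  | monomial i y =>
    obtain ⟨p, q, h1, h2⟩ := hs y
    exact ⟨q, Polynomial.monomial i p, h1, by
      rw [Polynomial.map_monomial, Polynomial.C_mul_monomial, mul_comm, h2]⟩

/-- a unit of the valuation ring is invertible modulo `χ` up to a factor prime to `P` -/
theorem girru_unit (h : Etl a θ χ D) (hP : Prime P) (hD : ¬P ∣ D)
    (hu : ∀ w w' : Vl F, Cen a w P → Cen a w' P → ∀ x, w' x ≤ 1 ↔ w x ≤ 1) {w : Vl F}
    (hw : Cen a w P) {G : A[X]} (hG : w (G.eval₂ a θ) = 1) :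
    ∃ (n : A) (G' : A[X]), ¬P ∣ n ∧ χ ∣ G' * G - Polynomial.C n := by
  have h0 : G.eval₂ a θ ≠ 0 := fun e => zero_ne_one (by rw [← hG, e, map_zero])
  obtain ⟨n, G', h1, -, h2⟩ := h.den hP hD (x := (G.eval₂ a θ)⁻¹) fun w' hw' =>
    (hu w w' hw hw' _).2 (by rw [map_inv₀, hG, inv_one])
  refine ⟨n, G', h1, (h.ker _).1 ?_⟩
  rw [Polynomial.eval₂_sub, Polynomial.eval₂_mul, Polynomial.eval₂_C, ← h2,
    inv_mul_cancel_right₀ h0, sub_self]

/-- the valuation ring is local, and the factors of the reduction are coprime -/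
theorem Etl.irr_field (h : Etl a θ χ D) (hP : Prime P) (hD : ¬P ∣ D)
    (hu : ∀ w w' : Vl F, Cen a w P → Cen a w' P → ∀ x, w' x ≤ 1 ↔ w x ≤ 1) {l : A →+* Ω}
    (hl : ∀ p, l p = 0 ↔ P ∣ p) (hs : ∀ y, ∃ p q, l q ≠ 0 ∧ y * l q = l p) :
    Irreducible (χ.map l) := by
  obtain ⟨w, -, hw⟩ := h.exists_cen hP
  have key : ∀ (G : A[X]) (g : Polynomial Ω), w (G.eval₂ a θ) = 1 → g ∣ G.map l → g ∣ χ.map l →
      IsUnit g := by
    intro G g hG h1 h2
    obtain ⟨n, G', hn, hd⟩ := girru_unit h hP hD hu hw hG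
    have h3 := h2.trans (Polynomial.map_dvd l hd)
    rw [Polynomial.map_sub, Polynomial.map_mul, Polynomial.map_C] at h3
    exact isUnit_of_dvd_unit ((dvd_sub_right (h1.mul_left _)).1 h3)
      (Polynomial.isUnit_C.2 (Ne.isUnit (mt (hl n).1 hn)))
  refine ⟨Polynomial.not_isUnit_of_natDegree_pos _ (by rw [h.monic.natDegree_map]; exact h.pos),
    fun g g' e => ?_⟩
  obtain ⟨p, q, hb⟩ := h.bez
  have hb' := congrArg (Polynomial.map l) hb
  rw [Polynomial.map_C, Polynomial.map_add, Polynomial.map_mul, Polynomial.map_mul,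
    ← Polynomial.derivative_map, e, Polynomial.derivative_mul] at hb'
  obtain ⟨n, G, hn, hG⟩ := girru_clear hs (q.map l * g.derivative * g')
  have h1 : w (a (n * D)) = 1 :=
    (hw.eq_one _).2 fun hd => (hP.dvd_or_dvd hd).elim (fun h' => hn ((hl n).2 h')) hD
  by_cases h2 : w (G.eval₂ a θ) = 1
  · exact Or.inr (key G g' h2 ⟨Polynomial.C (l n) * (q.map l * g.derivative), by rw [hG]; ring⟩
      ⟨g, by rw [e, mul_comm]⟩)
  · refine Or.inl (key (Polynomial.C (n * D) - G) g ?_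
      ⟨Polynomial.C (l n) * (p.map l * g' + q.map l * g'.derivative), ?_⟩ ⟨g', e⟩)
    · rw [Polynomial.eval₂_sub, Polynomial.eval₂_C, ← h1]
      exact w.map_sub_eq_of_lt_left (h1 ▸ lt_of_le_of_ne (h.le_one hw.1 G) h2)
    · rw [Polynomial.map_sub, Polynomial.map_C, map_mul, map_mul, hb', hG]
      ring

theorem girru_frac (h : Etl a θ χ D) (hP : Prime P) (hD : ¬P ∣ D)
    (hu : ∀ w w' : Vl F, Cen a w P → Cen a w' P → ∀ x, w' x ≤ 1 ↔ w x ≤ 1) {l : A →+* A'}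
    (hl : ∀ p, l p = 0 ↔ P ∣ p) (hs : Function.Surjective l) :
    Irreducible ((χ.map l).map (algebraMap A' (Fr A'))) := by
  rw [Polynomial.map_map]
  refine h.irr_field hP hD hu (fun p => ?_) fun y => ?_
  · rw [RingHom.comp_apply, map_eq_zero_iff _ (IsFractionRing.injective A' (Fr A')), hl]
  · obtain ⟨r, s, hs0, rfl⟩ := IsFractionRing.div_surjective (A := A') y
    obtain ⟨p, rfl⟩ := hs r
    obtain ⟨q, rfl⟩ := hs s
    have h0 := IsFractionRing.to_map_ne_zero_of_mem_nonZeroDivisors (K := Fr A') hs0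
    exact ⟨p, q, h0, div_mul_cancel₀ _ h0⟩

theorem Etl.irr_red (h : Etl a θ χ D) (hP : Prime P) (hD : ¬P ∣ D)
    (hu : ∀ w w' : Vl F, Cen a w P → Cen a w' P → ∀ x, w' x ≤ 1 ↔ w x ≤ 1) {l : A →+* A'}
    (hl : ∀ p, l p = 0 ↔ P ∣ p) (hs : Function.Surjective l) : Irreducible (χ.map l) :=
  (h.monic.map l).irreducible_of_irreducible_map _ _ (girru_frac h hP hD hu hl hs)

omit [IsDomain A] [UniqueFactorizationMonoid A] in
theorem girru_ev {w : Vl F} (hw : Cen a w P) (ρ : w.integer →+* Ω) {θ' : w.integer}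
    (hθ : (θ' : F) = θ) (G : A[X]) {y : w.integer} (hy : (y : F) = G.eval₂ a θ) :
    ρ y = G.eval₂ (ρ.comp (a.codRestrict w.integer hw.1)) (ρ θ') := by
  rw [← Polynomial.hom_eval₂]
  refine congrArg ρ (Subtype.ext ?_)
  rw [hy, ← hθ]
  exact (Polynomial.hom_eval₂ G (a.codRestrict w.integer hw.1) w.integer.subtype θ').symm

theorem girru_gen (h : Etl a θ χ D) (hP : Prime P) (hD : ¬P ∣ D)
    (hu : ∀ w w' : Vl F, Cen a w P → Cen a w' P → ∀ x, w' x ≤ 1 ↔ w x ≤ 1) {w : Vl F}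
    (hw : Cen a w P) (ρ : w.integer →+* Ω) {θ' : w.integer} (hθ : (θ' : F) = θ) (y : w.integer) :
    ∃ (n : A) (G : A[X]), ¬P ∣ n ∧ ρ y * ρ (a.codRestrict w.integer hw.1 n) =
      G.eval₂ (ρ.comp (a.codRestrict w.integer hw.1)) (ρ θ') := by
  obtain ⟨n, G, h1, -, h2⟩ := h.den hP hD (x := y) fun w' hw' => (hu w w' hw hw' _).2 y.2
  refine ⟨n, G, h1, ?_⟩
  rw [← map_mul]
  exact girru_ev hw ρ hθ G ((mul_comm _ _).trans h2)

/-- the residue field is generated by the residue of `θ` -/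
theorem Etl.res (h : Etl a θ χ D) (hP : Prime P) (hD : ¬P ∣ D)
    (hu : ∀ w w' : Vl F, Cen a w P → Cen a w' P → ∀ x, w' x ≤ 1 ↔ w x ≤ 1) {l : A →+* A'}
    (hl : ∀ p, l p = 0 ↔ P ∣ p) (hs : Function.Surjective l) {w : Vl F} (hw : Cen a w P)
    {ρ : w.integer →+* Ω} (hρ : IsRed w ρ) (hr : Function.Surjective ρ) :
    ∃ (b : A' →+* Ω) (θ' : w.integer), (θ' : F) = θ ∧
      (∀ (p : A) (y : w.integer), (y : F) = a p → ρ y = b (l p)) ∧
      Etl b (ρ θ') (χ.map l) (l D) := by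
  have h0 : ∀ p, ρ.comp (a.codRestrict w.integer hw.1) p = 0 ↔ l p = 0 := fun p =>
    (hρ _).trans ((hw.2 p).trans (hl p).symm)
  obtain ⟨b, hb⟩ : ∃ b : A' →+* Ω, ∀ p, b (l p) = ρ.comp (a.codRestrict w.integer hw.1) p :=
    ⟨l.liftOfSurjective hs ⟨_, fun p hp => (h0 p).2 hp⟩, fun p =>
      l.liftOfRightInverse_comp_apply _ _ _ p⟩
  have hb' : b.comp l = ρ.comp (a.codRestrict w.integer hw.1) := RingHom.ext hb
  obtain ⟨θ', hθ⟩ : ∃ θ' : w.integer, (θ' : F) = θ :=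
    ⟨⟨θ, show w θ ≤ 1 by simpa using h.le_one hw.1 Polynomial.X⟩, rfl⟩
  have hi : Function.Injective b := (injective_iff_map_eq_zero b).2 fun x hx => by
    obtain ⟨p, rfl⟩ := hs x
    exact (h0 p).1 (hb p ▸ hx)
  have hχ : (χ.map l).eval₂ b (ρ θ') = 0 := by
    rw [Polynomial.eval₂_map, hb', ← girru_ev hw ρ hθ χ (y := 0) h.root.symm, map_zero]
  refine ⟨b, θ', hθ, fun p y hy => ?_, hi, h.monic.map l, fun G => ⟨fun hG => ?_, ?_⟩, ?_,
    mt (hl D).1 hD, fun x => ?_⟩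
  · rw [hb]
    exact congrArg ρ (Subtype.ext hy)
  · rw [← Polynomial.map_dvd_map _ (IsFractionRing.injective A' (Fr A')) (h.monic.map l)]
    by_contra hn
    obtain ⟨u, v, e⟩ := (girru_frac h hP hD hu hl hs).coprime_iff_not_dvd.2 hn
    have e1 : (frMap b hi).comp (algebraMap A' (Fr A')) = b :=
      RingHom.ext fun x => IsFractionRing.lift_algebraMap hi x
    have e2 := congrArg (Polynomial.eval₂ (frMap b hi) (ρ θ')) e
    rw [Polynomial.eval₂_add, Polynomial.eval₂_mul, Polynomial.eval₂_mul, Polynomial.eval₂_map,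
      Polynomial.eval₂_map (p := G), e1, hχ, hG, Polynomial.eval₂_one, mul_zero, mul_zero, add_zero] at e2
    exact zero_ne_one e2
  · rintro ⟨G', rfl⟩
    rw [Polynomial.eval₂_mul, hχ, zero_mul]
  · obtain ⟨p, q, e⟩ := h.bez
    refine ⟨p.map l, q.map l, ?_⟩
    rw [Polynomial.derivative_map, ← Polynomial.map_mul, ← Polynomial.map_mul,
      ← Polynomial.map_add, ← e, Polynomial.map_C]
  · obtain ⟨y, rfl⟩ := hr x
    obtain ⟨n, G, h1, h2⟩ := girru_gen h hP hD hu hw ρ hθ y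
    exact ⟨G.map l, l n, mt (hl n).1 h1, by rw [Polynomial.eval₂_map, hb', hb, ← h2]; rfl⟩

/-- every residue is a rational expression in the residues of `a p` and `θ` -/
theorem Etl.res_mem (h : Etl a θ χ D) (hP : Prime P) (hD : ¬P ∣ D)
    (hu : ∀ w w' : Vl F, Cen a w P → Cen a w' P → ∀ x, w' x ≤ 1 ↔ w x ≤ 1) {w : Vl F}
    (hw : Cen a w P) {ρ : w.integer →+* Ω} (hρ : IsRed w ρ) (S : Subfield Ω)
    (h1 : ∀ (p : A) (y : w.integer), (y : F) = a p → ρ y ∈ S)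
    (h2 : ∀ y : w.integer, (y : F) = θ → ρ y ∈ S) (y : w.integer) : ρ y ∈ S := by
  obtain ⟨θ', hθ⟩ : ∃ θ' : w.integer, (θ' : F) = θ :=
    ⟨⟨θ, show w θ ≤ 1 by simpa using h.le_one hw.1 Polynomial.X⟩, rfl⟩
  obtain ⟨n, G, h3, h4⟩ := girru_gen h hP hD hu hw ρ hθ y
  have h5 : ρ (a.codRestrict w.integer hw.1 n) ≠ 0 := (hρ.ne_zero _).2 ((hw.eq_one n).2 h3)
  rw [eq_div_of_mul_eq h5 h4, Polynomial.eval₂_eq_sum_range]
  exact div_mem (sum_mem fun i _ => mul_mem (h1 (G.coeff i) _ rfl) (pow_mem (h2 θ' hθ) i))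
    (h1 n _ rfl)

end Pool.Agent.ZFy.GM
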