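import Pool.Agent.Lib.MP_751085_ag.ZF.G.Et0
import Pool.Agent.Lib.MP_751085_ag.ZC.CIrr
import Pool.Agent.Lib.MP_751085_ag.ZC.UDiv1

/-! Good models: geometric irreducibility depends on the kernel only. -/

namespace Pool.Agent.ZFy.GM

open Pool.Agent.ZCy
open scoped Classical WithZero Polynomial PowerSeries
open WithZero (exp)

variable {B K K' : Type} [CommRing B] [Field K] [Field K'] {χ : B[X][X]}

theorem irr_ext1 [IsAlgClosed K] (φ : K →+* K') {χ : K[X][X]} (hm : χ.Monic) (h : Irreducible χ) :
    Irreducible (χ.map (Polynomial.mapRingHom φ)) := by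
  let e := fun (L : Type) [Field L] => (MvPolynomial.uniqueAlgEquiv L Unit).symm.toRingEquiv
  have h1 := irr_ext φ (hm.map (e K : K[X] →+* MP Unit K))
    ((MulEquiv.irreducible_iff (Polynomial.mapEquiv (e K))).2 h)
  have h2 : (MvPolynomial.map φ).comp (e K : K[X] →+* MP Unit K) =
      (e K' : K'[X] →+* MP Unit K').comp (Polynomial.mapRingHom φ) :=
    Polynomial.ringHom_ext (fun a => by simp [e]) (by simp [e])
  rw [mq, Polynomial.coe_mapRingHom, Polynomial.map_map, h2, ← Polynomial.map_map] at h1
  exact (hm.map _).irreducible_of_irreducible_map _ _ h1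

theorem irr_down {S : Type} [CommRing S] [IsDomain B] [IsDomain S] (φ : B →+* S) (hm : χ.Monic)
    (h : Irreducible (χ.map (Polynomial.mapRingHom φ))) : Irreducible χ := by
  exact hm.irreducible_of_irreducible_map _ _ h

theorem irr_ker [IsAlgClosed K] (hm : χ.Monic) {η : B →+* K} {η' : B →+* K'}
    (e : ∀ x, η x = 0 ↔ η' x = 0) (h : Irreducible (χ.map (Polynomial.mapRingHom η))) :
    Irreducible (χ.map (Polynomial.mapRingHom η')) := by
  obtain ⟨Ω, _, -, a, b, hab⟩ := U.exists_amalg η η' (Ideal.ext e)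
  have h1 := irr_ext1 a (hm.map _) h
  rw [Polynomial.map_map, Polynomial.mapRingHom_comp, hab, ← Polynomial.mapRingHom_comp,
    ← Polynomial.map_map] at h1
  exact irr_down b (hm.map _) h1

theorem exists_etl_of_irr {A : Type} [CommRing A] [IsDomain A] [UniqueFactorizationMonoid A]
    {χ p q : A[X]} {D : A} (hm : χ.Monic) (hi : Irreducible χ)
    (hb : Polynomial.C D = p * χ + q * χ.derivative) (hD : D ≠ 0) :
    ∃ (F : Type) (_ : Field F) (a : A →+* F) (θ : F), Etl a θ χ D := by
  have := Fact.mk ((hm.irreducible_iff_irreducible_map_fraction_map (K := Fr A)).1 hi)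
  refine ⟨AdjoinRoot (χ.map (algebraMap A (Fr A))), inferInstance,
    (AdjoinRoot.of _).comp (algebraMap A (Fr A)), AdjoinRoot.root _, etl_of_irr
      ((AdjoinRoot.of (χ.map (algebraMap A (Fr A)))).injective.comp
        (IsFractionRing.injective A (Fr A))) hm hi
      (by rw [← Polynomial.eval₂_map, AdjoinRoot.eval₂_root]) hb hD (eq_top_iff.2 fun x _ => ?_)⟩
  obtain ⟨f, rfl⟩ := AdjoinRoot.mk_surjective x
  induction f using Polynomial.induction_on' with
  | add f g hf hg => rw [map_add]; exact add_mem (hf trivial) (hg trivial)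
  | monomial n c =>
    obtain ⟨a, b, -, rfl⟩ := IsFractionRing.div_surjective A c
    rw [← Polynomial.C_mul_X_pow_eq_monomial, map_mul, map_pow, AdjoinRoot.mk_C, AdjoinRoot.mk_X,
      map_div₀]
    refine mul_mem (div_mem (Subfield.subset_closure (Or.inl ⟨a, rfl⟩))
      (Subfield.subset_closure (Or.inl ⟨b, rfl⟩))) (pow_mem (Subfield.subset_closure ?_) n)
    exact Or.inr rfl

/-- Gauss: `B[X]` and `K[X]` have the same fraction field -/
theorem irr_frac [IsDomain B] [UniqueFactorizationMonoid B] {α : B →+* K} (hα : IsFr α)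
    (hm : χ.Monic) (h : Irreducible χ) : Irreducible (χ.map (Polynomial.mapRingHom α)) := by
  have hf := hα.poly (isFr_alg K[X] (Fr K[X]))
  let := ((algebraMap K[X] (Fr K[X])).comp (Polynomial.mapRingHom α)).toAlgebra
  have := hf.frac
  have h1 : Irreducible (χ.map ((algebraMap K[X] (Fr K[X])).comp (Polynomial.mapRingHom α))) :=
    (hm.irreducible_iff_irreducible_map_fraction_map (K := Fr K[X])).1 h
  rw [← Polynomial.map_map] at h1
  exact (hm.map _).irreducible_of_irreducible_map _ _ h1

end Pool.Agent.ZFy.GM
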