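import Pool.Agent.Lib.MP_751085_ag.ZF.G.Ps0

/-! Good models: successive approximation of an `l`-th power. -/

namespace Pool.Agent.ZFy.GM

open Pool.Agent.ZCy
open scoped Classical WithZero Polynomial PowerSeries
open WithZero (exp)

variable {R F : Type} [CommRing R] [IsDomain R] [CDVR R] [Field F] {π : R} {V : Vl (Fr R⟦X⟧)}

theorem giter_exp {A : Type} [CommRing A] {l : ℕ} {u P g g₀ : A} (hu : (l : A) * u = 1)
    (h : P ∣ g - g₀) (n : ℕ) (k : A) : ∃ w, (g + P ^ (n + 1) * (u * k)) ^ l =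
      g ^ l + P ^ (n + 1) * (g₀ ^ (l - 1) * k + P * w) := by
  obtain ⟨κ, h1⟩ := Polynomial.powAddExpansion g (P ^ (n + 1) * (u * k)) l
  obtain ⟨e, h2⟩ := h.trans (sub_dvd_pow_sub_pow g g₀ (l - 1))
  refine ⟨e * k + P ^ n * κ * (u * k) ^ 2, ?_⟩
  rw [h1, eq_add_of_sub_eq h2]
  linear_combination (P * e + g₀ ^ (l - 1)) * P ^ (n + 1) * k * hu

theorem giter_le {A K : Type} [CommRing A] [Field K] {α : A →+* K} {v : Vl K} {P : A}
    (h : Cn1 α v P) (n : ℕ) {x : K} : v (α P ^ n * x) ≤ exp (-(n : ℤ)) ↔ v x ≤ 1 := by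
  have e : v (α P ^ n) = exp (-(n : ℤ)) := by rw [← zpow_natCast, vcv_pow h.2]
  rw [map_mul, e, mul_le_iff_le_one_right WithZero.exp_pos]

theorem giter_step {A K : Type} [CommRing A] [Field K] {α : A →+* K} {v : Vl K} {P : A}
    (h : Cn1 α v P) {l : ℕ} (hl : l ≠ 0) {c lam y x r : K} (hc : v c ≤ 1) (hlam : v lam ≤ 1)
    {g g' g₀ k w : A} {n : ℕ} (e : g' ^ l = g ^ l + P ^ (n + 1) * (g₀ ^ (l - 1) * k + P * w))
    (hr : α P ^ (n + 1) * r = y - c * (lam * α g) ^ l)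
    (H : v (x - -r - c * (lam * α g₀) ^ (l - 1) * (lam * α k)) < 1) :
    v (y + α P ^ (n + 1) * x - c * (lam * α g') ^ l) ≤ exp (-((n + 1 + 1 : ℕ) : ℤ)) := by
  have h0 : α P ≠ 0 := fun e => by simpa [e] using h.2.symm
  obtain ⟨s, hs⟩ : ∃ s, x - -r - c * (lam * α g₀) ^ (l - 1) * (lam * α k) = α P ^ 1 * s :=
    ⟨_, (mul_div_cancel₀ _ (pow_ne_zero 1 h0)).symm⟩
  rw [hs, lt_one_iff_le_exp] at H
  have h1 : y + α P ^ (n + 1) * x - c * (lam * α g') ^ l =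
      α P ^ (n + 1 + 1) * (s - c * lam ^ l * α w) := by
    have h2 := congrArg α e
    obtain ⟨m, rfl⟩ := Nat.exists_eq_succ_of_ne_zero hl
    simp only [map_add, map_mul, map_pow, Nat.succ_eq_add_one, Nat.add_sub_cancel, mul_pow]
      at h2 hr hs ⊢
    linear_combination α P ^ (n + 1) * hs - hr - c * lam ^ (m + 1) * h2
  rw [h1, giter_le h]
  refine v.map_sub_le ((giter_le h 1).1 H) ?_
  rw [map_mul, map_mul, map_pow]
  exact mul_le_one' (mul_le_one' hc (pow_le_one' hlam l)) (h.1.1 w)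

/-- successive approximation, then `ps_lim` -/
theorem iter (hπ : Irreducible π) (hV : Cn1 (fr R) V (PowerSeries.C π)) {l : ℕ}
    (hl : IsUnit (l : R)) {I : Type} (J : I → F →+* Fr R⟦X⟧) {ϖ : F}
    (hϖ : ∀ i, J i ϖ = fr R (PowerSeries.C π)) (B : Subring F) (hB : ϖ ∈ B) (c lam : I → Fr R⟦X⟧)
    (hc : ∀ i, V (c i) ≤ 1) (hlam : ∀ i, V (lam i) ≤ 1) (g₀ : I → R⟦X⟧) {v₀ : F} (h0 : v₀ ∈ B)
    (h1 : ∀ i, V (J i v₀ - c i * (lam i * fr R (g₀ i)) ^ l) < 1)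
    (hs : ∀ z : I → Fr R⟦X⟧, (∀ i, V (z i) ≤ 1) → ∃ x ∈ B, ∀ i, ∃ k : R⟦X⟧,
      V (J i x - z i - c i * (lam i * fr R (g₀ i)) ^ (l - 1) * (lam i * fr R k)) < 1) :
    ∃ (v : ℕ → F) (g : I → R⟦X⟧), v 0 = v₀ ∧ (∀ n, v n ∈ B) ∧
      (∀ n, ∃ x ∈ B, v (n + 1) = v n + ϖ ^ (n + 1) * x) ∧
      ∀ n i, V (J i (v n) - c i * (lam i * fr R (g i)) ^ l) ≤ exp (-((n + 1 : ℕ) : ℤ)) := by
  set P : R⟦X⟧ := PowerSeries.C π
  obtain ⟨u, hu⟩ : ∃ u : R⟦X⟧, (l : R⟦X⟧) * u = 1 := by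
    obtain ⟨u, hu⟩ := hl.exists_right_inv
    exact ⟨PowerSeries.C u, by rw [← map_natCast PowerSeries.C, ← map_mul, hu, map_one]⟩
  have l0 : l ≠ 0 := by
    rintro rfl
    simp at hu
  have p0 : fr R P ≠ 0 := fun e => by simpa [e] using hV.2.symm
  let Q : ℕ → F × (I → R⟦X⟧) → Prop := fun n s => s.1 ∈ B ∧ ∀ i, P ∣ s.2 i - g₀ i ∧
    V (J i s.1 - c i * (lam i * fr R (s.2 i)) ^ l) ≤ exp (-((n + 1 : ℕ) : ℤ))
  have step : ∀ n (s : {s // Q n s}), ∃ s' : {s // Q (n + 1) s},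
      (∃ x ∈ B, s'.1.1 = s.1.1 + ϖ ^ (n + 1) * x) ∧ ∀ i, P ^ (n + 1) ∣ s'.1.2 i - s.1.2 i := by
    rintro n ⟨⟨y, g⟩, h2, h3⟩
    have h4 : ∀ i, ∃ r, fr R P ^ (n + 1) * r = J i y - c i * (lam i * fr R (g i)) ^ l := fun i =>
      ⟨_, mul_div_cancel₀ _ (pow_ne_zero _ p0)⟩
    choose r hr using h4
    obtain ⟨x, hx, h5⟩ := hs (fun i => -r i) fun i => by
      rw [Valuation.map_neg, ← giter_le hV (n + 1), hr]
      exact (h3 i).2
    choose k hk using h5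
    refine ⟨⟨⟨y + ϖ ^ (n + 1) * x, fun i => g i + P ^ (n + 1) * (u * k i)⟩,
      add_mem h2 (mul_mem (pow_mem hB _) hx), fun i => ⟨?_, ?_⟩⟩, ⟨x, hx, rfl⟩, fun i => ?_⟩
    · rw [add_sub_right_comm]
      exact dvd_add (h3 i).1 ((dvd_pow_self P n.succ_ne_zero).mul_right _)
    · obtain ⟨w, hw⟩ := giter_exp hu (h3 i).1 n (k i)
      rw [map_add, map_mul, map_pow, hϖ]
      exact giter_step hV l0 (hc i) (hlam i) hw (hr i) (hk i)
    · exact ⟨u * k i, add_sub_cancel_left _ _⟩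
  choose f hf using step
  let s : ∀ n, {s // Q n s} := fun n => Nat.rec
    ⟨⟨v₀, g₀⟩, h0, fun i => ⟨by simp, (lt_one_iff_le_exp _).1 (h1 i)⟩⟩ f n
  choose g hg using fun i => ps_lim hπ (fun n => (s n).1.2 i) fun n =>
    (pow_dvd_pow P n.le_succ).trans ((hf n (s n)).2 i)
  refine ⟨fun n => (s n).1.1, g, rfl, fun n => (s n).2.1, fun n => (hf n (s n)).1, fun n i => ?_⟩
  have h2 : P ^ (n + 1) ∣ g i - (s n).1.2 i :=
    sub_add_sub_cancel (g i) _ ((s n).1.2 i) ▸ dvd_add (hg i (n + 1)) ((hf n (s n)).2 i)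
  obtain ⟨e, h3⟩ := h2.trans (sub_dvd_pow_sub_pow _ _ l)
  have h4 := congrArg (fr R) h3
  have h5 : J i (s n).1.1 - c i * (lam i * fr R (g i)) ^ l = J i (s n).1.1 - c i *
      (lam i * fr R ((s n).1.2 i)) ^ l - fr R P ^ (n + 1) * (c i * lam i ^ l * fr R e) := by
    simp only [map_sub, map_mul, map_pow, mul_pow] at h4 ⊢
    linear_combination (-c i * lam i ^ l) * h4
  rw [h5]
  refine V.map_sub_le ((s n).2.2 i).2 ((giter_le hV _).2 ?_)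
  rw [map_mul, map_mul, map_pow]
  exact mul_le_one' (mul_le_one' (hc i) (pow_le_one' (hlam i) l)) (hV.1.1 e)

end Pool.Agent.ZFy.GM
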