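import Pool.Agent.Lib.MP_751085_ag.ZF.G.Def2
import Pool.Agent.Lib.MP_751085_ag.ZF.G.Cvr

/-! Good models: discs from local data. -/

namespace Pool.Agent.ZFy.GM

open Pool.Agent.ZCy
open scoped Classical WithZero Polynomial PowerSeries
open WithZero (exp)
open IsLocalRing

variable {R B K F : Type} [CommRing R] [CommRing B] [Field K] [Field F]

theorem LDp.map {χ : B[X][X]} {t : B} (h : LDp χ t) {β : B →+* R} (hβ : Function.Injective β) :
    LDp (χ.map (Polynomial.mapRingHom β)) (β t) := by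
  obtain ⟨e, ε, y, s, P, Q, φ, he, hε, h1, h2, h3, h4, h5⟩ := h
  have A : (Polynomial.eval₂RingHom PowerSeries.C (PowerSeries.C (β t) +
      PowerSeries.X ^ e * PowerSeries.map β ε)).comp (Polynomial.mapRingHom β) =
      (PowerSeries.map β).comp φ :=
    Polynomial.ringHom_ext (fun a => by simp [h1]) (by simp [h1])
  refine ⟨e, PowerSeries.map β ε, PowerSeries.map β y, s.map (PowerSeries.map β),
    P.map (Polynomial.mapRingHom β), Q.map β, Polynomial.eval₂RingHom _ _, he, hε.map _,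
    fun _ => rfl, ?_, Multiset.mem_map_of_mem _ h3, (Polynomial.map_ne_zero_iff hβ).2 h4, ?_⟩
  · rw [Polynomial.map_map, A, ← Polynomial.map_map, h2, Polynomial.map_multiset_prod,
      Multiset.map_map, Multiset.map_map]
    exact congrArg _ (Multiset.map_congr rfl fun η _ => by simp)
  · rw [Polynomial.eval₂_map, A, ← Polynomial.hom_eval₂, ← h5, map_mul, PowerSeries.map_X]
    exact congrArg (· * _) (RingHom.congr_fun A Q)

theorem exists_coeffs1 {M : Type} [CommRing M] (G : M[X]) : ∃ S : Finset M, ∀ B : Subring M,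
    (∀ x ∈ S, x ∈ B) → ∃ G' : B[X], G'.map B.subtype = G :=
  ⟨G.coeffs, fun B h => ⟨_, G.map_toSubring B h⟩⟩

/-- the coefficients of a polynomial in two variables -/
theorem exists_coeffs {M : Type} [CommRing M] (G : M[X][X]) : ∃ S : Finset M, ∀ B : Subring M,
    (∀ x ∈ S, x ∈ B) → ∃ G' : B[X][X], G'.map (Polynomial.mapRingHom B.subtype) = G := by
  refine ⟨G.support.biUnion fun n => (G.coeff n).coeffs, fun B h =>
    (Polynomial.mem_lifts _).1 ((Polynomial.lifts_iff_coeff_lifts _).2 fun n => ?_)⟩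
  by_cases hn : n ∈ G.support
  · exact ⟨_, (G.coeff n).map_toSubring B fun x hx => h x (Finset.mem_biUnion.2 ⟨n, hn, hx⟩)⟩
  · exact ⟨0, by rw [map_zero, Polynomial.notMem_support_iff.1 hn]⟩

theorem ld_smat [IsDomain R] [Algebra K F] {α : R[X] →+* K} (hα : IsFr α) {χ : R[X][X]}
    [Polynomial.IsSplittingField K F (χ.map α)] {t : R} (h : LDp χ t) {Θ : R[X]}
    (hm : ∃ e : ℕ, Associated (sh t Θ) (PowerSeries.X ^ e)) : SMat (tE F α) Θ t := by
  obtain ⟨e, ε, y, s, P, Q, φ, he, hε, h1, h2, h3, h4, h5⟩ := h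
  obtain ⟨ψ, c1, c2⟩ := exists_sub (PowerSeries.X ^ e * ε) (by simp [he.ne'])
  have hφ : Function.Injective ((fr R).comp φ) := by
    rw [show φ = ψ.comp (sh t) from RingHom.ext fun p => by
      rw [h1, RingHom.comp_apply, sub_sh, c1, c2, RingHom.ext (f := ψ.comp PowerSeries.C) c1]]
    exact (IsFractionRing.injective _ _).comp ((sub_inj c1 he hε c2).comp (sh_inj t))
  obtain ⟨γ, hγ⟩ := hα.exists_lift hφ
  let := γ.toAlgebra
  have A : (χ.map α).map γ = ((s.map (fr R)).map fun η => Polynomial.X - Polynomial.C η).prod := by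
    rw [Polynomial.map_map, show γ.comp α = _ from RingHom.ext hγ, ← Polynomial.map_map, h2,
      Polynomial.map_multiset_prod, Multiset.map_map, Multiset.map_map]
    exact congrArg _ (Multiset.map_congr rfl fun η _ => by simp)
  have hM : ((χ.map α).map γ).Monic := A ▸ Polynomial.monic_multisetProd_X_sub_C _
  have hS : ((χ.map α).map γ).Splits := Polynomial.splits_iff_exists_multiset.2 ⟨_, by
    rw [hM.leadingCoeff, map_one, one_mul]
    exact A⟩
  have J := Polynomial.IsSplittingField.lift F (F := Fr R⟦X⟧) (χ.map α) hS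
  have hJ : (J : F →+* Fr R⟦X⟧).comp (algebraMap K F) = γ := RingHom.ext J.commutes
  have hJ' : (J : F →+* Fr R⟦X⟧).comp (tE F α) = (fr R).comp φ := RingHom.ext fun p =>
    (J.commutes _).trans (hγ p)
  obtain ⟨z, hz⟩ : fr R y ∈ (J : F →+* Fr R⟦X⟧).range :=
    (Polynomial.IsSplittingField.splits F (χ.map α)).mem_range_of_isRoot
      (fun h0 => hM.ne_zero (by rw [← hJ, ← Polynomial.map_map, h0, Polynomial.map_zero])) (by
        rw [Polynomial.map_map, hJ, A, ← Polynomial.mem_roots (A ▸ hM.ne_zero),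
          Polynomial.roots_multiset_prod_X_sub_C]
        exact Multiset.mem_map_of_mem _ h3)
  have := Normal.of_isSplittingField (E := F) (χ.map α)
  obtain ⟨ψ', hd⟩ := disc_mk (a := tE F α) (J := (J : F →+* Fr R⟦X⟧)) he hε
    (fun p => (RingHom.congr_fun hJ' p).trans (congrArg (fr R) (h1 p)))
    ⟨P.eval₂ (tE F α) z / tE F α Q, by
      rw [map_div₀, Polynomial.hom_eval₂, hJ', hz, ← Polynomial.hom_eval₂, ← h5, map_mul,
        show (J : F →+* Fr R⟦X⟧) (tE F α Q) = fr R (φ Q) from RingHom.congr_fun hJ' Q]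
      exact mul_div_cancel_left₀ _ ((map_ne_zero_iff _ hφ).2 h4)⟩ hm
  exact smat_of_galois hα hd

theorem gld_ass (x : R) (s : Multiset R) : (∀ y ∈ s, x ≠ y → IsUnit (x - y)) → ∃ k : ℕ,
    Associated (sh x (s.map fun y => Polynomial.X - Polynomial.C y).prod) (PowerSeries.X ^ k) := by
  induction s using Multiset.induction_on with
  | empty => exact fun _ => ⟨0, by simp⟩
  | cons y s ih =>
    intro h
    obtain ⟨k, hk⟩ := ih fun z hz => h z (Multiset.mem_cons_of_mem hz)
    rw [Multiset.map_cons, Multiset.prod_cons, map_mul]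
    by_cases e : x = y
    · exact ⟨k + 1, by rw [← e, sh_X_sub, pow_succ']; exact hk.mul_left _⟩
    · refine ⟨k, (associated_unit_mul_left _ _ ?_).trans hk⟩
      rw [PowerSeries.isUnit_iff_constantCoeff, cc_sh]
      simpa using h y (Multiset.mem_cons_self _ _) e

theorem smo_fin [IsDomain R] [CDVR R] [IsAlgClosed (ResidueField R)] {a : R[X] →+* F} {θ : F}
    {χ : R[X][X]} {D Θ : R[X]} (he : Etl a θ χ D) {u : R} (hu : IsUnit u) {s : Multiset R}
    (hs : Θ * D = Polynomial.C u * (s.map fun x => Polynomial.X - Polynomial.C x).prod)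
    (hd : ∀ x ∈ s, ∀ y ∈ s, x ≠ y → IsUnit (x - y))
    (H : ∀ x ∈ s, (∃ e : ℕ, Associated (sh x Θ) (PowerSeries.X ^ e)) → SMat a Θ x)
    (c : ResidueField R) : ∃ t, residue R t = c ∧ SMat a Θ t := by
  by_cases hc : ∃ x ∈ s, residue R x = c
  · obtain ⟨x, hx, e⟩ := hc
    obtain ⟨k, hk⟩ := gld_ass x s (hd x hx)
    have h1 : sh x Θ ∣ PowerSeries.X ^ k := by
      refine (map_dvd _ (Dvd.intro _ hs)).trans ?_
      rw [map_mul]
      exact ((associated_unit_mul_left _ _ ((hu.map _).map _)).trans hk).dvd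
    obtain ⟨i, -, hi⟩ := (dvd_prime_pow PowerSeries.X_prime k).1 h1
    exact ⟨x, e, H x hx ⟨i, hi⟩⟩
  · obtain ⟨t, rfl⟩ := residue_surjective c
    have h1 : IsUnit (Θ.eval t * D.eval t) := by
      rw [← Polynomial.eval_mul, hs, Polynomial.eval_mul, Polynomial.eval_C,
        Polynomial.eval_multiset_prod, Multiset.map_map]
      refine hu.mul (Multiset.prod_induction _ _ (fun _ _ => IsUnit.mul) isUnit_one fun z hz => ?_)
      obtain ⟨y, hy, rfl⟩ := Multiset.mem_map.1 hz
      rw [← residue_ne_zero_iff_isUnit]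
      simpa [sub_eq_zero] using fun e => hc ⟨y, hy, Eq.symm e⟩
    exact ⟨t, rfl, smat_etale he (isUnit_of_mul_isUnit_right h1)
      (mark_unit (isUnit_of_mul_isUnit_left h1))⟩

end Pool.Agent.ZFy.GM
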