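import Pool.Agent.Lib.MP_751085_ag.ZF.G.Ld
import Pool.Agent.Lib.MP_751085_ag.ZF.G.Plc
import Pool.Agent.Lib.MP_751085_ag.ZF.G.Eis

/-! Good models: existence of local data. -/

namespace Pool.Agent.ZFy.GM

open Pool.Agent.ZCy
open scoped Classical WithZero Polynomial PowerSeries
open WithZero (exp)
open IsLocalRing

variable {M K F : Type} [Field M] [IsAlgClosed M] [Field K] [Field F] [Algebra K F]
  [FiniteDimensional K F] {α : M[X] →+* K}

/-- the coefficients of an expansion lie in a finitely generated ring: `dep2` and `eis` -/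
theorem exp_fg (hα : IsFr α) {J : F →+* Fr M⟦X⟧}
    (hC : ∀ c, J (tE F α (Polynomial.C c)) = fr M (PowerSeries.C c)) {ϖ : F}
    (hϖ : J ϖ = fr M PowerSeries.X) {x : F} {y : M⟦X⟧} (h : J x = fr M y) :
    ∃ S : Finset M, ∀ B : Subring M, (∀ c ∈ S, c ∈ B) → ∀ n, PowerSeries.coeff n y ∈ B := by
  obtain ⟨H, h0, h1⟩ := dep2 hα ϖ x
  refine eis h0 (IsFractionRing.injective M⟦X⟧ (Fr M⟦X⟧) ?_)
  have h2 : J.comp (Polynomial.eval₂RingHom ((tE F α).comp Polynomial.C) ϖ) =
      (fr M).comp Polynomial.coeToPowerSeries.ringHom :=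
    Polynomial.ringHom_ext (fun c => by simpa using hC c) (by simpa using hϖ)
  rw [Polynomial.hom_eval₂, ← h2, ← h, ← Polynomial.hom_eval₂, h1, map_zero, map_zero]

/-- expand at a place over `X - C t` and collect the coefficients -/
theorem ld_exists (hα : IsFr α) {χ : M[X][X]} (hm : χ.Monic) (hs : (χ.map (tE F α)).Splits) {θ : F}
    (h0 : χ.eval₂ (tE F α) θ = 0) (hg : IntermediateField.adjoin K {θ} = ⊤) (t : M) :
    ∃ S : Finset M, ∀ B : Subring M, (∀ c ∈ S, c ∈ B) → ∀ (χ' : B[X][X]) (t' : B),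
      χ'.map (Polynomial.mapRingHom B.subtype) = χ → (t' : M) = t → LDp χ' t' := by
  obtain ⟨P, ⟨ϖ, hϖ⟩, hP⟩ := exists_cen_ext (E := F) hα (Polynomial.prime_X_sub_C t)
  have hh : Hor (tE F α) P := fun r hr => (hP.eq_one _).2 fun e =>
    hr (by simpa using Polynomial.dvd_iff_isRoot.1 e)
  obtain ⟨V, hV, hV'⟩ := exists_vx M
  obtain ⟨J, hC, hX, hJ⟩ := place_ps (κ₀ := (tE F α).comp Polynomial.C) hh
    (fun x hx => res_const hα ⟨ϖ, hϖ⟩ hh hx) hϖ hV
  have h1 : ∀ x, P x ≤ 1 → ∃ y, J x = fr M y := fun x hx => by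
    obtain ⟨y, hy⟩ := (hV'.2.2 (J x)).1 ((hJ x).trans_le hx)
    exact ⟨y, hy.symm⟩
  choose! Y hY using h1
  have h2 := fun x (hx : P x ≤ 1) => exp_fg hα hC hX (hY x hx)
  choose! S hS using h2
  have hu := hY _ (hP.1 (Polynomial.X - Polynomial.C t))
  set u := Y (tE F α (Polynomial.X - Polynomial.C t))
  have hu0 : u ≠ 0 := fun e => by
    rw [e, map_zero, map_eq_zero, RingHom.comp_apply, map_eq_zero,
      map_eq_zero_iff _ hα.1] at hu
    exact Polynomial.X_sub_C_ne_zero t hu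
  have hu1 : PowerSeries.X ∣ u := (hV.1.2 u).1 (by rw [← hu, hJ]; exact (hP.2 _).2 dvd_rfl)
  have hε := PowerSeries.isUnit_divided_by_X_pow_order hu0
  have hf : PowerSeries.X ^ u.order.toNat * u.divXPowOrder = u :=
    PowerSeries.X_pow_order_mul_divXPowOrder
  generalize u.divXPowOrder = ε at hε hf
  generalize u.order.toNat = e at hf
  have he : 0 < e := Nat.pos_of_ne_zero fun e0 => by
    rw [← hf, e0, pow_zero, one_mul] at hu1
    exact PowerSeries.X_prime.not_isUnit (isUnit_of_dvd_unit hu1 hε)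
  have hX0 : fr M PowerSeries.X ≠ 0 := (map_ne_zero_iff _ hV'.2.1).2 PowerSeries.X_ne_zero
  obtain ⟨S₁, hS₁⟩ := exp_fg hα hC hX (x := tE F α (Polynomial.X - Polynomial.C t) / ϖ ^ e)
    (y := ε) (by rw [map_div₀, hu, ← hf, map_pow, hX, map_mul, map_pow,
      mul_div_cancel_left₀ _ (pow_ne_zero _ hX0)])
  obtain ⟨G, hG⟩ : ϖ ∈ (Polynomial.aeval (R := K) θ).range := by
    rw [← Algebra.adjoin_singleton_eq_range_aeval,
      ← IntermediateField.adjoin_simple_toSubalgebra_of_isAlgebraic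
        (Algebra.IsAlgebraic.isAlgebraic θ), hg]
    trivial
  obtain ⟨Q, G', hQ, hG'⟩ := get0_den (get0_fr hα) G
  have h3 : tE F α Q * ϖ = G'.eval₂ (tE F α) θ := by
    rw [← Polynomial.eval₂_map, hG', Polynomial.eval₂_mul, Polynomial.eval₂_C, ← hG]
    rfl
  obtain ⟨S₂, hS₂⟩ := exists_coeffs G'
  obtain ⟨S₃, hS₃⟩ := exists_coeffs1 Q
  have hr : ∀ z, z ∈ (χ.map (tE F α)).roots ↔ χ.eval₂ (tE F α) z = 0 := fun z => by
    rw [Polynomial.mem_roots (hm.map _).ne_zero, Polynomial.IsRoot, Polynomial.eval_map]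
  have hr1 : ∀ z ∈ (χ.map (tE F α)).roots, P z ≤ 1 := fun z hz =>
    (Valuation.integer.integers P).isIntegral_iff_v_le_one.1
      ⟨χ.map ((tE F α).codRestrict P.integer hP.1), hm.map _, by
        rw [Polynomial.eval₂_map]
        exact (hr z).1 hz⟩
  refine ⟨insert (PowerSeries.constantCoeff ε)⁻¹
    (S₁ ∪ (S₂ ∪ (S₃ ∪ (χ.map (tE F α)).roots.toFinset.biUnion S))), fun B hB χ' t' hχ ht => ?_⟩
  simp only [Finset.mem_insert, Finset.mem_union, or_imp, forall_and, forall_eq] at hB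
  obtain ⟨b0, b1, b2, b3, b4⟩ := hB
  obtain ⟨ε', rfl⟩ := (geis_mem B ε).2 (hS₁ B b1)
  obtain ⟨G₁, rfl⟩ := hS₂ B b2
  obtain ⟨Q₁, rfl⟩ := hS₃ B b3
  have h4 : ∀ z ∈ (χ.map (tE F α)).roots, ∃ y, (fr M).comp (PowerSeries.map B.subtype) y = J z :=
    fun z hz => by
      obtain ⟨y, hy⟩ := (geis_mem B (Y z)).2 (hS z (hr1 z hz) B fun c hc =>
        b4 c (Finset.mem_biUnion.2 ⟨z, Multiset.mem_toFinset.2 hz, hc⟩))
      exact ⟨y, by rw [RingHom.comp_apply, hy, hY z (hr1 z hz)]⟩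
  choose! Y' hY' using h4
  have hΨ : Function.Injective ((fr M).comp (PowerSeries.map B.subtype)) :=
    hV'.2.1.comp (PowerSeries.map_injective _ B.subtype_injective)
  have h5 : ((fr M).comp (PowerSeries.map B.subtype)).comp
      (Polynomial.eval₂RingHom PowerSeries.C (PowerSeries.C t' + PowerSeries.X ^ e * ε')) =
      (J.comp (tE F α)).comp (Polynomial.mapRingHom B.subtype) := by
    refine Polynomial.ringHom_ext (fun c => by simpa using (hC c).symm) ?_
    have h6 := hC t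
    rw [← hf, map_sub, map_sub, sub_eq_iff_eq_add', RingHom.comp_apply] at hu
    rw [RingHom.comp_apply] at h6
    simpa [ht, ← h6] using hu.symm
  refine ⟨e, ε', Y' θ, (χ.map (tE F α)).roots.map Y', G₁, Q₁, Polynomial.eval₂RingHom _ _, he,
    PowerSeries.isUnit_iff_constantCoeff.2 (IsUnit.of_mul_eq_one ⟨_, b0⟩ (Subtype.ext
      (mul_inv_cancel₀ (PowerSeries.isUnit_iff_constantCoeff.1 hε).ne_zero))), fun _ => rfl,
    Polynomial.map_injective _ hΨ ?_, Multiset.mem_map_of_mem _ ((hr θ).2 h0),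
    fun e0 => hQ (by rw [e0, Polynomial.map_zero]), hΨ ?_⟩
  · rw [Polynomial.map_map, h5, ← Polynomial.map_map, hχ, ← Polynomial.map_map]
    conv_lhs => rw [hs.eq_prod_roots_of_monic (hm.map _)]
    simp only [Polynomial.map_multiset_prod, Multiset.map_map, Function.comp_def,
      Polynomial.map_sub, Polynomial.map_X, Polynomial.map_C]
    exact congrArg _ (Multiset.map_congr rfl fun z hz => by rw [hY' z hz])
  · rw [map_mul, Polynomial.hom_eval₂, ← RingHom.comp_apply, h5, hY' θ ((hr θ).2 h0),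
      ← Polynomial.eval₂_map, ← Polynomial.hom_eval₂, ← h3, map_mul, hX,
      RingHom.comp_apply _ _ PowerSeries.X,
      PowerSeries.map_X]
    rfl

end Pool.Agent.ZFy.GM
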