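import Pool.Agent.Lib.MP_751085_ag.ZF.G.Slv
import Pool.Agent.Lib.MP_751085_ag.ZF.G.Hor

/-! Good models: lifting Kummer classes, in terms of discs. -/

namespace Pool.Agent.ZFy.GM

open Pool.Agent.ZCy
open scoped Classical WithZero Polynomial PowerSeries
open WithZero (exp)
open IsLocalRing

variable {R F : Type} [CommRing R] [IsDomain R] [CDVR R] [Field F] {π t : R} {a : R[X] →+* F}
  {Θ : R[X]} {V : Vl (Fr R⟦X⟧)}
  [IsAlgClosed (ResidueField R)] {W : Vl F} {l : ℕ}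

omit [IsAlgClosed (ResidueField R)] in
theorem glft_ord {P : R⟦X⟧} (hV : Cen (fr R) V P) {J : F →+* Fr R⟦X⟧} (e : ∀ x, V (J x) = W x)
    {U : F} {k : ℤ} {z : Fr R⟦X⟧} (hU : J U = fr R PowerSeries.X ^ k * z ^ l)
    (h : P ∣ PowerSeries.X → (l : ℤ) ∣ k) : (l : ℤ) ∣ ord W U := by
  have hX : fr R PowerSeries.X ≠ 0 := (isFr_alg _ _).vfrc_ne PowerSeries.X_ne_zero
  rw [ord, ← e, ← ord, hU]
  rcases eq_or_ne (z ^ l) 0 with h0 | h0
  · rw [h0, mul_zero, ord_zero]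
    exact dvd_zero _
  rw [ord_mul_v _ (zpow_ne_zero _ hX) h0, ord_zpow_v, ord_pow_v]
  refine dvd_add ?_ (dvd_mul_right _ _)
  by_cases hd : P ∣ PowerSeries.X
  · exact (h hd).mul_right _
  · rw [(ord_eq_zero_v _ hX).2 ((hV.eq_one _).2 hd), mul_zero]
    exact dvd_zero _

/-- every unmarked place lies on a disc -/
theorem Atl.tw (A : Atl a Θ) (hπ : Irreducible π) {U : F}
    (h1 : ∀ c i, ∃ (k : ℤ) (z : Fr R⟦X⟧), (A.fam c).J i U = fr R PowerSeries.X ^ k * z ^ l ∧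
      (IsUnit (Θ.eval (A.t c)) → (l : ℤ) ∣ k))
    (h2 : ∀ i, ∃ (k : ℤ) (z : Fr R⟦X⟧), A.inf.J i U = fr R PowerSeries.X ^ k * z ^ l) :
    TW l a Θ U := by
  intro P hP hu
  rcases hor_cases hπ A.et hP hu.1 A.res with ⟨c, Q, hQ, h0, h, ht⟩ | ⟨Q, hQ, h0, h, ht⟩
  · obtain ⟨_, ⟨i, rfl⟩, P', V', hP', -, hV, e⟩ := plc (Θ := Θ) hπ A.et (A.fam c).cvs
      (Set.forall_mem_range.2 (A.fam c).disc) hQ h0 ht hP h
    obtain ⟨k, z, hU, hk⟩ := h1 c i
    refine glft_ord hV.1 e hU fun hd => hk ?_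
    have hD := (A.fam c).disc i
    obtain ⟨n, hn⟩ := hD.mark
    have h3 := (hV.1.eq_one _).1 (((congrArg V' (hD.cmp Θ)).symm.trans (e _)).trans hu.2.2)
    rcases n with _ | n
    · rw [← cc_sh]
      exact ((hD.isUnit_iff _).1 (associated_one_iff_isUnit.1 (by simpa using hn))).map _
    · exact (h3 ((dvd_pow hd n.succ_ne_zero).trans hn.dvd')).elim
  · obtain ⟨_, ⟨i, rfl⟩, P', V', hP', -, hV, e⟩ := plc hπ A.et' A.inf.cvs
      (Set.forall_mem_range.2 A.inf.disc) hQ h0 ht hP h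
    obtain ⟨k, z, hU⟩ := h2 i
    refine glft_ord hV.1 e hU fun hd => ?_
    obtain ⟨n, ε, hn, -, -, h3⟩ := (A.inf.disc i).root (s := 0) (by simp) (by simp)
    have h4 : P (rvs a Polynomial.X) < 1 := by
      rw [← e, h3, Polynomial.eval₂_X, map_zero, zero_add, hV.1.2]
      exact (dvd_pow hd hn.ne').mul_right _
    rw [rvs_X, map_inv₀, inv_lt_one₀ (P.pos_iff.2 (grev_ne A.et.inj))] at h4
    exact (h4.not_ge hu.2.1).elim

/-- a representative that is integral and divides a polynomial -/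
theorem Atl.rep (A : Atl a Θ) (hπ : Irreducible π) (hW : Cn1 a W (Polynomial.C π)) (hl : 0 < l)
    {x : F} (hx : W x = 1) : ∃ (n N : R[X]) (G G' : R[X][X]), ¬Polynomial.C π ∣ n ∧
      ¬Polynomial.C π ∣ N ∧ x * a n ^ l = G.eval₂ a A.θ ∧
      G.eval₂ a A.θ * G'.eval₂ a A.θ = a N := by
  have hp := Polynomial.prime_C_iff.2 hπ.prime
  have hD : ¬Polynomial.C π ∣ A.D := fun h => A.red ((poly_red_eq_zero hπ _).2 h)
  have h0 : x ≠ 0 := W.ne_zero_iff.1 (hx ▸ one_ne_zero)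
  obtain ⟨n, G, h1, -, e⟩ := A.et.den hp hD (x := x) fun w hw =>
    (A.good.uni hπ W w hW.1 hw x).2 hx.le
  obtain ⟨n', G', h2, -, e'⟩ := A.et.den hp hD (x := x⁻¹) fun w hw =>
    (A.good.uni hπ W w hW.1 hw _).2 (by rw [map_inv₀, hx, inv_one])
  have e1 : x * a n ^ l = (G * Polynomial.C (n ^ (l - 1))).eval₂ a A.θ := by
    rw [Polynomial.eval₂_mul, Polynomial.eval₂_C, ← e, map_pow, ← mul_pow_sub_one hl.ne']
    ring
  refine ⟨n, n' * n ^ l, _, G', h1, fun h => (hp.dvd_or_dvd h).elim h2 fun h => h1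
    (hp.dvd_of_dvd_pow h), e1, ?_⟩
  rw [← e1, ← e', map_mul, map_pow]
  field_simp

omit [IsAlgClosed (ResidueField R)] in
theorem glft_int {J : F →+* Fr R⟦X⟧} {ψ : R⟦X⟧ →+* R⟦X⟧} (h : Disc a Θ t J ψ) {θ : F}
    {χ : R[X][X]} {D : R[X]} (he : Etl a θ χ D) (G : R[X][X]) :
    ∃ y, J (G.eval₂ a θ) = fr R y := by
  obtain ⟨η, hη⟩ := h.mem_of_int (x := θ) ⟨χ, he.monic, he.root⟩
  refine ⟨G.eval₂ (ψ.comp (sh t)) η, ?_⟩
  rw [Polynomial.hom_eval₂, Polynomial.hom_eval₂, hη]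
  exact congrArg (G.eval₂ · _) (RingHom.ext h.cmp)

/-- a class with divisible orders on the discs lifts -/
theorem lift_core (hπ : Irreducible π) (hV : Cn1 (fr R) V (PowerSeries.C π))
    (hW : Cn1 a W (Polynomial.C π)) (hl : IsUnit (l : R)) (h : Good a Θ) {x : F} (hx : W x = 1)
    (H : ∀ t J ψ n, Disc a Θ t J ψ → IsUnit (Θ.eval t) → Ro V (J x) n → (l : ℤ) ∣ n) :
    ∃ U y, W y = 1 ∧ W (U - x * y ^ l) < 1 ∧ TW l a Θ U := by
  obtain ⟨A⟩ := exists_atl h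
  have hp := Polynomial.prime_C_iff.2 hπ.prime
  obtain ⟨n, N, G, G', hn, hN, e, e'⟩ := A.rep hπ hW
    (Nat.pos_of_ne_zero fun h0 : l = 0 => hl.ne_zero (by rw [h0, Nat.cast_zero])) hx
  have hτ : ¬Polynomial.C π ∣ Polynomial.X - Polynomial.C (A.t 0) := fun hd =>
    ((Polynomial.monic_X_sub_C _).map (residue R)).ne_zero ((poly_red_eq_zero hπ _).2 hd)
  have w1 := (hW.1.eq_one _).2 hn
  have h0 : (A.D * (N * (Polynomial.X - Polynomial.C (A.t 0)))).map (residue R) ≠ 0 := fun h0 =>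
    (hp.dvd_or_dvd ((poly_red_eq_zero hπ _).1 h0)).elim
      (fun hd => A.red ((poly_red_eq_zero hπ _).2 hd)) fun hd => (hp.dvd_or_dvd hd).elim hN hτ
  obtain ⟨m, U, G₁, e1, h1, h2, h3⟩ := A.solve hπ hV hW hl e
    (by rw [map_mul, map_pow, hx, w1, one_pow, one_mul])
    ((A.D * (N * (Polynomial.X - Polynomial.C (A.t 0)))).map (residue R)).roots.toFinset 0
  refine ⟨U, a n * a (Polynomial.X - Polynomial.C (A.t 0)) ^ m,
    by rw [map_mul, map_pow, w1, (hW.1.eq_one _).2 hτ, one_pow, one_mul],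
    by rwa [mul_pow, ← mul_assoc], A.tw hπ (fun c i => ?_) h3⟩
  have hD := (A.fam c).disc i
  have hv := h.disc_val hπ hW hV (.inl hD)
  by_cases hc : c ∈ ((A.D * (N * (Polynomial.X - Polynomial.C (A.t 0)))).map
      (residue R)).roots.toFinset
  · obtain ⟨k, z, r, hU⟩ := h2 c hc i
    refine ⟨k, z, by rw [zpow_natCast, hU], fun hu => ?_⟩
    obtain ⟨n₁, r₁⟩ := exists_ro hπ hV.1 ((hv x).trans hx)
    obtain ⟨n₂, r₂⟩ := exists_ro hπ hV.1 ((hv _).trans w1)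
    rw [map_mul, map_pow] at r
    rw [r.unique hπ hV.1 (r₁.mul hπ hV.1 (r₂.pow hπ hV.1 l))]
    exact dvd_add (H _ _ _ _ hD hu r₁) (dvd_mul_right _ _)
  · have u0 : IsUnit ((A.fam c).ψ i (sh (A.t c)
        (A.D * (N * (Polynomial.X - Polynomial.C (A.t 0)))))) := by
      refine IsUnit.map _ (PowerSeries.isUnit_iff_constantCoeff.2 ?_)
      rw [cc_sh, ← residue_ne_zero_iff_isUnit, ← Polynomial.eval_map_apply, A.res]
      exact fun h4 => hc (Multiset.mem_toFinset.2 ((Polynomial.mem_roots h0).2 h4))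
    simp only [map_mul, IsUnit.mul_iff] at u0
    obtain ⟨⟨u, hu⟩, u2, u3⟩ := u0
    obtain ⟨g, hg⟩ := glft_int hD A.et G
    obtain ⟨g', hg'⟩ := glft_int hD A.et G'
    obtain ⟨g₁, hg₁⟩ := glft_int hD A.et G₁
    have u4 : IsUnit g := by
      have e2 : g * g' = _ := (isFr_alg _ (Fr R⟦X⟧)).1
        (((map_mul _ _ _).trans (by rw [← hg, ← hg', ← map_mul, e'])).trans (hD.cmp N))
      exact isUnit_of_mul_isUnit_left (e2 ▸ u2)
    have hU : (A.fam c).J i U = fr R (↑u⁻¹ * g₁) := by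
      rw [map_mul, ← hg₁, ← e1, map_mul, hD.cmp, ← hu, ← mul_assoc, ← map_mul, Units.inv_mul,
        map_one, one_mul]
    have r := (ro_unit (V := V) (u4.mul ((u3.pow m).pow l))).congr (f' := fr R (↑u⁻¹ * g₁)) (by
      rw [← hv, map_sub, map_mul, map_pow, map_pow, e, hg, hU, hD.cmp] at h1
      rwa [map_mul (fr R) g, map_pow, map_pow])
    obtain ⟨η, hη⟩ := unit_root hl ((r.nonneg hπ hV.1).2.1 rfl)
    exact ⟨0, fr R η, by rw [hU, ← hη, zpow_zero, one_mul, map_pow], fun _ => dvd_zero _⟩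

end Pool.Agent.ZFy.GM
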