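import Pool.Agent.Lib.MP_751085_ag.ZF.G.Fam
import Pool.Agent.Lib.MP_751085_ag.ZF.G.Uni

/-! Good models: limits of functions with bounded poles. -/

namespace Pool.Agent.ZFy.GM

open Pool.Agent.ZCy
open scoped Classical WithZero Polynomial PowerSeries
open WithZero (exp)
open IsLocalRing

variable {R F : Type} [CommRing R] [IsDomain R] [CDVR R] [Field F] {π t : R} {a : R[X] →+* F}
  {Θ : R[X]} {V : Vl (Fr R⟦X⟧)}
  [IsAlgClosed (ResidueField R)] {W : Vl F}

/-- limits are taken coordinate by coordinate in the basis of powers of `θ` -/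
theorem Atl.lim (A : Atl a Θ) (hπ : Irreducible π) (hV : Cn1 (fr R) V (PowerSeries.C π))
    (hW : Cn1 a W (Polynomial.C π)) (v : ℕ → F) (m : ℕ)
    (h0 : ∀ n, W (v (n + 1) - v n) ≤ exp (-(n : ℤ)))
    (h1 : ∀ n c i, ∃ y, V ((A.fam c).J i (v n) - fr R y) ≤ exp (-(n : ℤ)))
    (h2 : ∀ n i, ∃ y, V (A.inf.J i (v n * rvs a Polynomial.X ^ m) - fr R y) ≤ exp (-(n : ℤ))) :
    ∃ (U : F) (G : R[X][X]), a A.D * U = G.eval₂ a A.θ ∧
      ∀ n : ℕ, W (U - v n) ≤ exp (-(n : ℤ)) := by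
  obtain ⟨_, rfl⟩ := exists_frac A.et.inj
  have hα := isFr_alg R[X] (Fr R[X])
  generalize algebraMap R[X] (Fr R[X]) = α at *
  have hP := Polynomial.prime_C_iff.2 hπ.prime
  obtain ⟨w, hw⟩ := exists_cn1 hα hP
  have hi := (isFr_alg R⟦X⟧ (Fr R⟦X⟧)).1
  choose b hb using fun c => hα.exists_lift (β := (fr R).comp (sh (A.t c))) (hi.comp (sh_inj _))
  obtain ⟨bi, hbi⟩ := (isFr_rvs hα).exists_lift (β := (fr R).comp (sh 0)) (hi.comp (sh_inj _))
  choose G hG hv using fun n => A.et.coord hα (v n)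
  have e0 := idx_one_iff.1 (((hw.1.over hα hP).1 hW.1).idx_one hw.2 hW.2)
  have c0 : ∀ k n, w (α A.D * (G (n + 1)).coeff k - α A.D * (G n).coeff k) ≤ exp (-(n : ℤ)) :=
    fun k n => by
      have e1 : w (α (Polynomial.C π) ^ n) = exp (-(n : ℤ)) := by rw [← zpow_natCast, vcv_pow hw.2]
      rw [← mul_sub, ← Polynomial.coeff_sub, ← e1]
      refine A.et.crd hα hw.1.1 ((Polynomial.degree_sub_le _ _).trans_lt (max_lt (hG _) (hG _)))
        (fun w' hw' => (Over.le_iff (φ := RingHom.id F) (A.good.uni hπ W w' hW.1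
          ((hw.1.over hα hP).2 hw')) _ _).2 ?_) k
      change W (Polynomial.aeval _ _) ≤ W (algebraMap _ F _)
      rw [e0, e1, map_sub, ← hv, ← hv]
      exact h0 n
  have c2 : ∀ k n, ∃ g, V (bi (α A.D * (G n).coeff k) *
      fr R PowerSeries.X ^ (A.k + A.D.natDegree + m) - fr R g) ≤ exp (-(n : ℤ)) := fun k n => by
    have x0 : α Polynomial.X ≠ 0 := hα.vfrc_ne Polynomial.X_ne_zero
    have x1 : bi (α Polynomial.X)⁻¹ = fr R PowerSeries.X := by
      rw [← rvs_X, hbi, RingHom.comp_apply, sh_zero, Polynomial.coe_X]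
    obtain ⟨G', g1, g2⟩ : ∃ G' : (Fr R[X])[X], (∀ i, G'.coeff i = (α Polynomial.X)⁻¹ ^ m *
        ((G n).coeff i * (α Polynomial.X ^ A.b) ^ i)) ∧ G'.eval₂ (algebraMap _ F)
          (A.θ * rvs (tE F α) Polynomial.X ^ A.b) = v n * rvs (tE F α) Polynomial.X ^ m := by
      refine ⟨Polynomial.C ((α Polynomial.X)⁻¹ ^ m) *
        (G n).comp (Polynomial.C (α Polynomial.X ^ A.b) * Polynomial.X), fun i => by
          rw [Polynomial.coeff_C_mul, Polynomial.comp_C_mul_X_coeff], ?_⟩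
      rw [Polynomial.eval₂_mul, Polynomial.eval₂_C, Polynomial.eval₂_comp, Polynomial.eval₂_mul,
        Polynomial.eval₂_C, Polynomial.eval₂_X, rvs_X, RingHom.comp_apply, map_pow, map_pow,
        map_inv₀, mul_left_comm, ← mul_pow, mul_inv_cancel₀ ((map_ne_zero _).2 x0), one_pow,
        mul_one, hv, mul_comm, Polynomial.aeval_def]
    obtain ⟨g, hg⟩ := A.inf.reg A.et' hπ hV (isFr_rvs hα) (ι := algebraMap _ F)
      (fun p => (RingHom.congr_fun (rvs_comp _) p).symm) hbi (G := G')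
      ((Polynomial.degree_lt_iff_coeff_zero _ _).2 fun i hi => by
        rw [g1, (Polynomial.degree_lt_iff_coeff_zero _ _).1 (hG n) i (A.deg ▸ hi), zero_mul,
          mul_zero]) (fun i => g2 ▸ h2 n i) k
    refine ⟨g * PowerSeries.X ^ (A.b * k), ?_⟩
    have e : α A.D * (G n).coeff k * (α Polynomial.X)⁻¹ ^ (A.k + A.D.natDegree + m) =
        rvs α (Polynomial.X ^ A.k * A.D.reverse) * G'.coeff k *
          (α Polynomial.X)⁻¹ ^ (A.b * k) := by
      rw [rvs_reverse x0 A.D, g1, map_mul, map_pow, rvs_X, ← pow_mul]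
      simp only [pow_add, inv_pow]
      field_simp
    rw [← x1, ← map_pow, ← map_mul, e, map_mul bi, map_pow, x1, map_mul (fr R), map_pow, ← sub_mul,
      map_mul, map_pow, pv_X hπ hV.1, one_pow, mul_one]
    exact hg
  choose p hp using fun k => poly_lim hα hπ hV hw A.res hb hbi (fun n => α A.D * (G n).coeff k)
    (c0 k) (fun n c => (A.fam c).reg A.et hπ hV hα (ι := algebraMap _ F) (fun _ => rfl) (hb c)
      (hG n) (fun i => by rw [← Polynomial.aeval_def, ← hv]; exact h1 n c i) k) (c2 k)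
  obtain ⟨Q, hQ⟩ : ∃ Q : R[X][X], ∀ k, Q.coeff k = if k < A.χ.natDegree then p k else 0 :=
    ⟨∑ k ∈ Finset.range A.χ.natDegree, Polynomial.monomial k (p k), fun k => by
      simp [Polynomial.coeff_monomial]⟩
  have d1 : W (tE F α A.D) = 1 := (hW.1.eq_one _).2 (mt (poly_red_eq_zero hπ _).2 A.red)
  have d0 := W.ne_zero_iff.1 (d1 ▸ one_ne_zero)
  refine ⟨(tE F α A.D)⁻¹ * Q.eval₂ (tE F α) A.θ, Q, mul_inv_cancel_left₀ d0 _, fun n => ?_⟩
  have e : tE F α A.D * ((tE F α A.D)⁻¹ * Q.eval₂ (tE F α) A.θ - v n) =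
      (Q.map α - Polynomial.C (α A.D) * G n).eval₂ (algebraMap _ F) A.θ := by
    rw [mul_sub, mul_inv_cancel_left₀ d0, hv, Polynomial.eval₂_sub, Polynomial.eval₂_map,
      Polynomial.eval₂_mul, Polynomial.eval₂_C]
    rfl
  rw [← one_mul (W _), ← d1, ← map_mul, e, Polynomial.eval₂_eq_sum_range]
  refine W.map_sum_le fun i _ => ?_
  rw [map_mul, map_pow, e0, Polynomial.coeff_sub, Polynomial.coeff_map, Polynomial.coeff_C_mul, hQ]
  refine (mul_le_of_le_one_right' (pow_le_one'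
    (le_one_of_int hW.1.1 ⟨_, A.et.monic, A.et.root⟩) i)).trans ?_
  split_ifs with h
  · rw [Valuation.map_sub_swap]
    exact hp i n
  · simp [(Polynomial.degree_lt_iff_coeff_zero _ _).1 (hG n) i (not_lt.1 h)]

end Pool.Agent.ZFy.GM
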