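import Pool.Agent.Lib.MP_751085_ag.ZC.CDefs
import Pool.Agent.Lib.MP_751085_ag.Newton

/-! Simple solutions of square systems of polynomial equations. -/

namespace Pool.Agent.ZFy.GM

open Pool.Agent.ZCy
open scoped Classical Matrix
open MvPolynomial (eval₂ pderiv)

variable {A B : Type} [CommRing A] [CommRing B] {n : ℕ} (φ : A →+* B) (G : Fin n → MP (Fin n) A)

/-- the Jacobian determinant -/
noncomputable def jdt (x : Fin n → B) : B :=
  (Matrix.of fun i j => eval₂ φ x (pderiv j (G i))).det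

theorem map_jdt {B' : Type} [CommRing B'] (ψ : B →+* B') (x : Fin n → B) :
    ψ (jdt φ G x) = jdt (ψ.comp φ) G fun i => ψ (x i) :=
  (ψ.map_det _).trans (congrArg Matrix.det (Matrix.ext fun _ _ =>
    MvPolynomial.eval₂_comp_left ψ φ x _))

/-- the Jacobian matrix -/
noncomputable def gnew_J (x : Fin n → B) : Matrix (Fin n) (Fin n) B :=
  Matrix.of fun i j => eval₂ φ x (pderiv j (G i))

theorem gnew_lin {I K : Ideal B} {x₀ x x' : Fin n → B} (hx : ∀ j, x j - x₀ j ∈ I)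
    (hI : ∀ j, x' j - x j ∈ I) (hK : ∀ j, x' j - x j ∈ K) (i : Fin n) :
    eval₂ φ x' (G i) - eval₂ φ x (G i) - (gnew_J φ G x₀ *ᵥ (x' - x)) i ∈ I * K := by
  have h1 := HZ.taylor₂ φ (G i) x (x' - x)
  simp only [Pi.sub_apply, add_sub_cancel, sq] at h1
  have h2 := add_mem (Ideal.mul_mono (Ideal.span_le.2 (Set.range_subset_iff.2 hI))
    (Ideal.span_le.2 (Set.range_subset_iff.2 hK)) h1) (Ideal.sum_mem _ (t := Finset.univ)
      fun a _ => Ideal.mul_mem_mul (HZ.eval₂_sub_mem φ (pderiv a (G i)) hx) (hK a))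
  refine HZ.newton_eq ?_ h2
  simp only [gnew_J, Matrix.mulVec, dotProduct, Matrix.of_apply, Pi.sub_apply, sub_mul,
    Finset.sum_sub_distrib]
  ring

theorem gnew_vec {I : Ideal B} (Q : Matrix (Fin n) (Fin n) B) {y : Fin n → B} (h : ∀ j, y j ∈ I)
    (i : Fin n) : (Q *ᵥ y) i ∈ I :=
  I.sum_mem (t := Finset.univ) fun j _ => I.mul_mem_left (Q i j) (h j)

theorem gnew_sub {I K : Ideal B} {x x' : Fin n → B} (h : ∀ i, eval₂ φ x (G i) = 0)
    (h' : ∀ i, eval₂ φ x' (G i) = 0) (hJ : IsUnit (jdt φ G x)) (hI : ∀ j, x' j - x j ∈ I)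
    (hK : ∀ j, x' j - x j ∈ K) (i : Fin n) : x' i - x i ∈ I * K := by
  have := gnew_vec (gnew_J φ G x)⁻¹ (fun j => by
    simpa only [h, h', sub_self, zero_sub, neg_mem_iff] using
      gnew_lin φ G (x₀ := x) (fun j => (sub_self (x j)).symm ▸ zero_mem I) hI hK j) i
  rwa [Matrix.mulVec_mulVec, (gnew_J φ G x).nonsing_inv_mul hJ, Matrix.one_mulVec] at this

/-- Newton's method -/
theorem newton_ex (I : Ideal B) [IsAdicComplete I B] {x₀ : Fin n → B}
    (h0 : ∀ i, MvPolynomial.eval₂ φ x₀ (G i) ∈ I) (hJ : IsUnit (jdt φ G x₀)) :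
    ∃ x : Fin n → B, (∀ i, x i - x₀ i ∈ I) ∧ ∀ i, MvPolynomial.eval₂ φ x (G i) = 0 := by
  let u : ℕ → Fin n → B := fun N =>
    Nat.rec x₀ (fun _ v => v - (gnew_J φ G x₀)⁻¹ *ᵥ fun i => eval₂ φ v (G i)) N
  have hu : ∀ N, u (N + 1) - u N = -((gnew_J φ G x₀)⁻¹ *ᵥ fun i => eval₂ φ (u N) (G i)) :=
    fun _ => sub_sub_cancel_left _ _
  have h1 : ∀ N, (∀ i, eval₂ φ (u N) (G i) ∈ I ^ (N + 1)) → ∀ j, u (N + 1) j - u N j ∈ I ^ (N + 1) :=
    fun N h j => HZ.newton_eq (congrFun (hu N) j).symm (neg_mem (gnew_vec _ h j))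
  have h2 : ∀ N, (∀ j, u N j - x₀ j ∈ I) ∧ ∀ i, eval₂ φ (u N) (G i) ∈ I ^ (N + 1) := fun N => by
    induction N with
    | zero => exact ⟨fun j => HZ.newton_eq (sub_self (x₀ j)).symm (zero_mem I),
        by rw [zero_add, pow_one]; exact h0⟩
    | succ N ih =>
      have h3 := fun j => Ideal.pow_le_self N.succ_ne_zero (h1 N ih.2 j)
      refine ⟨fun j => sub_add_sub_cancel _ (u N j) _ ▸ add_mem (h3 j) (ih.1 j), fun i => ?_⟩
      have h4 := gnew_lin φ G ih.1 h3 (h1 N ih.2) i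
      rwa [hu, Matrix.mulVec_neg, Matrix.mulVec_mulVec, (gnew_J φ G x₀).mul_nonsing_inv hJ,
        Matrix.one_mulVec, Pi.neg_apply, sub_neg_eq_add, sub_add_cancel, ← pow_succ'] at h4
  have h3 : ∀ j, ∃ L, ∀ N, u N j - L ∈ I ^ N := fun j => by
    obtain ⟨L, hL⟩ := IsPrecomplete.prec (I := I) (M := B) inferInstance (f := fun N => u N j)
      (fun {M N} hMN => by
        rw [SModEq.sub_mem, smul_eq_mul, Ideal.mul_top]
        induction N, hMN using Nat.le_induction with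
        | base => simp
        | succ N hMN ih =>
          rw [← sub_sub_sub_cancel_right _ _ (u N j)]
          exact sub_mem ih (Ideal.pow_le_pow_right (by omega) (h1 N (h2 N).2 j)))
    exact ⟨L, fun N => by simpa only [SModEq.sub_mem, smul_eq_mul, Ideal.mul_top] using hL N⟩
  choose w hw using h3
  refine ⟨w, fun j => sub_sub_sub_cancel_left _ _ (u 1 j) ▸ sub_mem ((h2 1).1 j) (pow_one I ▸ hw j 1),
    fun i => IsHausdorff.haus (I := I) (M := B) inferInstance _ fun N => ?_⟩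
  rw [SModEq.zero, smul_eq_mul, Ideal.mul_top, ← sub_sub_cancel (eval₂ φ (u N) (G i)) (eval₂ φ w _)]
  exact sub_mem (Ideal.pow_le_pow_right N.le_succ ((h2 N).2 i))
    (HZ.eval₂_sub_mem φ _ fun j => hw j N)

/-- Nakayama for the ideal generated by the differences -/
theorem newton_uniq [IsLocalRing B] {x x' : Fin n → B}
    (h : ∀ i, MvPolynomial.eval₂ φ x (G i) = 0) (h' : ∀ i, MvPolynomial.eval₂ φ x' (G i) = 0)
    (hJ : IsUnit (jdt φ G x)) (e : ∀ i, ¬IsUnit (x i - x' i)) : x = x' := by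
  have hK := fun j => Ideal.subset_span (Set.mem_range_self (f := fun j => x' j - x j) j)
  have := Submodule.eq_bot_of_le_smul_of_le_jacobson_bot _ _
    (Submodule.fg_span (Set.finite_range _)) (Ideal.span_le.2 (Set.range_subset_iff.2
      (gnew_sub φ G h h' hJ (fun j => neg_sub (x j) _ ▸ neg_mem (e j)) hK)))
    (IsLocalRing.maximalIdeal_le_jacobson _)
  exact funext fun j => (sub_eq_zero.1 (this.le (hK j))).symm

end Pool.Agent.ZFy.GM
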