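import Pool.Agent.Lib.MP_751085_ag.ZF.G.Up
import Pool.Agent.Lib.MP_751085_ag.ZF.G.Kind
import Pool.Agent.Lib.MP_751085_ag.ZC.K.Lau

/-! Good models: rigidity on the disc at infinity. -/

namespace Pool.Agent.ZFy.GM

open Pool.Agent.ZCy
open scoped Classical WithZero Polynomial PowerSeries
open WithZero (exp)
open IsLocalRing

variable {R F : Type} [CommRing R] [IsDomain R] [CDVR R] [Field F] {π t : R} {a : R[X] →+* F}
  {Θ : R[X]} {J : F →+* Fr R⟦X⟧} {ψ : R⟦X⟧ →+* R⟦X⟧} {V : Vl (Fr R⟦X⟧)}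

variable {KK : Type} [Field KK] {α : R →+* KK} {lam : Fr R⟦X⟧ →+* Ls KK} {l : ℕ}

omit [CDVR R] in
theorem exists_lam (hα : IsFr α) :
    ∃ lam : Fr R⟦X⟧ →+* Ls KK, ∀ f, lam (fr R f) = lau α f :=
  (isFr_alg R⟦X⟧ (Fr R⟦X⟧)).exists_lift (lau_inj hα.1)

omit [CDVR R] in
theorem mem_lam (hlam : ∀ f, lam (fr R f) = lau α f) (y : Ls KK) :
    y ∈ lam.range ↔ ∃ A B : R⟦X⟧, B ≠ 0 ∧ y * lau α B = lau α A := by
  have hf := isFr_alg R⟦X⟧ (Fr R⟦X⟧)
  constructor
  · rintro ⟨z, rfl⟩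
    obtain ⟨A, B, hB, e⟩ := hf.2 z
    exact ⟨A, B, hB, by rw [← hlam, ← hlam, ← map_mul, e]⟩
  · rintro ⟨A, B, hB, e⟩
    refine ⟨fr R A / fr R B, ?_⟩
    rw [map_div₀, div_eq_iff ((map_ne_zero lam).2 (hf.vfrc_ne hB)), hlam, hlam, e]

omit [IsDomain R] [CDVR R] in
/-- the expansion in the coordinate at infinity -/
theorem tL_rvs {φ : KK[X] →+* F} {ι : F →+* Ls KK} (hι : ∀ p, ι (φ p) = tL KK p) (p : R[X]) :
    ι (rvs (φ.comp (Polynomial.mapRingHom α)) p) = lau α (sh 0 p) := by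
  refine RingHom.congr_fun (f := ι.comp (rvs (φ.comp (Polynomial.mapRingHom α))))
    (g := (lau α).comp (sh 0)) (Polynomial.ringHom_ext (fun r => ?_) ?_) p
  · simp [rvs_C, hι, kl_tM_C, hc, sh_zero, lau]
  · simp [rvs_X, hι, tM, sh_zero, lau, HahnSeries.inv_single]

omit [CDVR R] in
theorem grig_single (hα : IsFr α) (hlam : ∀ f, lam (fr R f) = lau α f) (n : ℤ) (d : KK) :
    HahnSeries.single n d ∈ lam.range := by
  have h1 : HahnSeries.C d ∈ lam.range := by
    obtain ⟨A, B, hB, e⟩ := hα.2 d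
    exact (mem_lam hlam _).2 ⟨PowerSeries.C A, PowerSeries.C B,
      fun h => hB (PowerSeries.C_injective (h.trans (map_zero _).symm)),
      by rw [lau_C, lau_C, ← map_mul, e]⟩
  have h2 : HahnSeries.single n (1 : KK) ∈ lam.range :=
    ⟨fr R PowerSeries.X ^ n, by rw [map_zpow₀, hlam, lau_X, ← RatFunc.single_zpow]⟩
  simpa [HahnSeries.C_apply, HahnSeries.single_mul_single] using mul_mem h1 h2

omit [CDVR R] in
theorem tL_mem (hα : IsFr α) (hlam : ∀ f, lam (fr R f) = lau α f) (p : KK[X]) :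
    tL KK p ∈ lam.range := by
  induction p using Polynomial.induction_on' with
  | add p q hp hq => rw [map_add]; exact add_mem hp hq
  | monomial n c =>
    simpa [tM, HahnSeries.C_apply, HahnSeries.single_pow, HahnSeries.single_mul_single] using
      grig_single hα hlam (-n) c

/-- factor `ι` through a disc, which has degree one -/
theorem rig0 (hα : IsFr α) (hlam : ∀ f, lam (fr R f) = lau α f) (hs : SMat a Θ 0)
    (h0 : Θ.eval 0 = 0) {ι : F →+* Ls KK} (hι : ∀ p, ι (a p) = lau α (sh 0 p)) (x : F) :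
    ι x ∈ lam.range := by
  obtain ⟨⟨J, ψ⟩, hd, ι', h1, h2⟩ := hs (Ls KK) (lau α) ι (lau_inj hα.1) hι
  obtain ⟨e, ε, -, hε, hX, -⟩ := Disc.root hd h0 (by rw [sub_self]; exact not_isUnit_zero)
  rw [add_right_inj] at hX
  have hle : ∀ f, lval KK (ι' (fr R f)) ≤ 1 := fun f => by
    refine le_one_of_int (f := lau α) (fun g => ((isVR_lval KK).2.2 _).2
      ⟨PowerSeries.map α g, by simp [lau]⟩) ?_
    obtain ⟨p, hp, hp0⟩ := Disc.int hd f
    refine ⟨p, hp, ?_⟩
    have h3 := Polynomial.hom_eval₂ p ψ (ι'.comp (fr R)) f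
    rw [hp0, map_zero, show (ι'.comp (fr R)).comp ψ = lau α from RingHom.ext h2] at h3
    exact h3.symm
  have hu : lval KK (ι' (fr R ε)) = 1 := by
    obtain ⟨η, hη⟩ := hε.exists_right_inv
    refine eq_one_of_one_le_mul_left (hle ε) (hle η) (Eq.ge ?_)
    rw [← map_mul, ← map_mul, ← map_mul, hη, map_one, map_one, map_one]
  have h3 : ord (lval KK) (ι' (fr R PowerSeries.X) ^ e) = 1 := by
    refine ord_eq_of _ ?_
    rw [← lval_single KK, ← lau_X (ι := α), ← h2, hX, map_mul, map_mul, map_mul, hu, mul_one,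
      map_pow (fr R), map_pow ι']
  rw [ord_pow_v] at h3
  obtain rfl : e = 1 := by exact_mod_cast Int.eq_one_of_mul_eq_one_right (by omega) h3
  rw [pow_one] at hX
  rw [← h1]
  refine mem_of_isFr (isFr_alg R⟦X⟧ (Fr R⟦X⟧)) ι' lam.fieldRange (fun g => ?_) _
  obtain ⟨f, rfl⟩ := (sub_bij hd.cst hε hX).2 g
  exact ⟨_, (hlam f).trans (h2 f).symm⟩

variable [IsAlgClosed (ResidueField R)]

omit [IsAlgClosed (ResidueField R)] in
theorem grig_lead (y : Ls KK) (n : ℕ) : (y ^ n).leadingCoeff = y.leadingCoeff ^ n := by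
  induction n with
  | zero => simp
  | succ n ih => rw [pow_succ, HahnSeries.leadingCoeff_mul, ih, pow_succ]

/-- `y` is a root of unity times its leading term -/
theorem root_mem_lam (hα : IsFr α) (hlam : ∀ f, lam (fr R f) = lau α f) (hp : l.Prime)
    (hl : IsUnit (l : R)) {y : Ls KK} {c : R} {k m : ℤ}
    (h : y ^ l = lam (fr R (PowerSeries.C c) ^ k * fr R PowerSeries.X ^ m)) : y ∈ lam.range := by
  obtain ⟨ζ, hζ⟩ := exists_zeta hp hl
  have e : y ^ l = HahnSeries.single m (α c ^ k) := by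
    rw [h, map_mul, map_zpow₀, map_zpow₀, hlam, hlam, lau_C, lau_X, ← RatFunc.single_zpow,
      ← map_zpow₀, HahnSeries.C_apply, HahnSeries.single_mul_single, zero_add, mul_one]
  by_cases h0 : α c ^ k = 0
  · rw [h0, map_zero, pow_eq_zero_iff hp.ne_zero] at e
    exact e ▸ zero_mem _
  have e1 := congrArg HahnSeries.order e
  have e2 := congrArg HahnSeries.leadingCoeff e
  rw [HahnSeries.order_pow, HahnSeries.order_single h0] at e1
  rw [grig_lead, HahnSeries.leadingCoeff_of_single] at e2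
  rw [← e1, ← e2, ← HahnSeries.single_pow] at e
  obtain ⟨j, hj⟩ := root_eq_zeta hp ((hζ.map_of_injective hα.1).map_of_injective
    (f := (HahnSeries.C : KK →+* Ls KK)) (RingHom.injective _)) e
  rw [hj]
  exact mul_mem (pow_mem (grig_single hα hlam 0 _) j) (grig_single hα hlam _ _)

/-- induction along Kummer steps -/
theorem rigc (hα : IsFr α) (hlam : ∀ f, lam (fr R f) = lau α f) (hp : l.Prime)
    (hl : IsUnit (l : R)) {E : Type} [Field E] [Algebra E F] [FiniteDimensional E F] [IsGalois E F]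
    (hG : IsPGroup l (F ≃ₐ[E] F)) (ha : ∀ p, a p ∈ (algebraMap E F).range) {ι : F →+* Ls KK}
    (hι : ∀ p, ι (a p) = lau α (sh 0 p)) (h0 : IsUnit (Θ.coeff 0))
    (hu : UnU E a (Polynomial.X * Θ)) (hE : ∀ y, ι (algebraMap E F y) ∈ lam.range) (x : F) :
    ι x ∈ lam.range := by
  obtain ⟨π, hπ⟩ := IsDiscreteValuationRing.exists_irreducible R
  obtain ⟨ζ₀, hζ₀⟩ := exists_zeta hp hl
  obtain ⟨ζ, e⟩ := ha (Polynomial.C ζ₀)
  have hζ : IsPrimitiveRoot ζ l := by
    refine IsPrimitiveRoot.of_map_of_injective (f := ι.comp (algebraMap E F)) ?_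
      (RingHom.injective _)
    rw [RingHom.comp_apply, e, hι]
    exact ((hζ₀.map_of_injective Polynomial.C_injective).map_of_injective
      (sh_inj 0)).map_of_injective (lau_inj hα.1)
  refine kum_ind hp hG hζ (fun M => M ≤ (lam.fieldRange.comap ι).toIntermediateField hE) bot_le
    ?_ (IntermediateField.mem_top (x := x))
  rintro M _ r hM hr rfl
  refine sup_le hM (IntermediateField.adjoin_simple_le_iff.2 (show ι r ∈ lam.range from ?_))
  by_cases hr0 : r = 0
  · rw [hr0, map_zero]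
    exact zero_mem _
  obtain ⟨J, hJ⟩ := exists_fac lam (ι.comp (algebraMap M F)) fun y => hM y.2
  obtain ⟨a', ha'⟩ : ∃ a' : R[X] →+* M, (algebraMap M F).comp a' = a :=
    ⟨a.codRestrict M fun p => by
      obtain ⟨y, hy⟩ := ha p
      exact hy ▸ M.algebraMap_mem y, rfl⟩
  have hd : Disc a' (Polynomial.X * Θ) 0 J (RingHom.id _) := by
    refine disc_id (fun p => lam.injective ?_) ⟨1, ?_⟩
    · rw [hJ, hlam, ← hι, ← ha']
      rfl
    · rw [map_mul, pow_one, sh_zero, Polynomial.coe_X]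
      refine associated_mul_unit_left _ _ (PowerSeries.isUnit_iff_constantCoeff.2 ?_)
      rwa [cc_sh, ← Polynomial.coeff_zero_eq_eval_zero]
  have hJu : lam (J ⟨r ^ l, hr⟩) = ι r ^ l := (hJ _).trans (map_pow ι r l)
  obtain ⟨k, m, z, hz⟩ := fac_pow (f := J ⟨r ^ l, hr⟩) hπ hl
    (fun h => pow_ne_zero l ((map_ne_zero ι).2 hr0) (by rw [← hJu, h, map_zero]))
    fun P V' hP h1 h2 hV => dvd_ord_of_ine' (E := E) (v := V'.comap J) (r := r) (u := ⟨r ^ l, hr⟩)
      (fun w hw => hu w (ha' ▸ Unm.comap.1 ((hd.unm hπ h1 h2 hP hV.1).congr hw))) rfl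
  have hz0 : lam z ≠ 0 := fun h => pow_ne_zero l ((map_ne_zero ι).2 hr0) (by
    rw [← hJu, hz, map_mul, map_pow, h, zero_pow hp.ne_zero, mul_zero])
  rw [← div_mul_cancel₀ (ι r) hz0]
  refine mul_mem (root_mem_lam hα hlam hp hl (c := π) (k := k) (m := m) ?_) ⟨z, rfl⟩
  rw [div_pow, ← hJu, hz, map_mul, map_pow, mul_div_cancel_right₀ _ (pow_ne_zero l hz0)]

end Pool.Agent.ZFy.GM
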