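import Pool.Agent.Lib.MP_751085_ag.ZF.G.Tow
import Pool.Agent.Lib.MP_751085_ag.ZF.G.Rig
import Pool.Agent.Lib.MP_751085_ag.ZF.G.Uni

/-! Good models: tame covers that split at infinity have good models. -/

namespace Pool.Agent.ZFy.GM

open Pool.Agent.ZCy
open scoped Classical WithZero Polynomial PowerSeries
open WithZero (exp)
open IsLocalRing

variable {R F : Type} [CommRing R] [IsDomain R] [CDVR R] [Field F] {π t : R} {a : R[X] →+* F}
  {Θ : R[X]} {J : F →+* Fr R⟦X⟧} {ψ : R⟦X⟧ →+* R⟦X⟧} {V : Vl (Fr R⟦X⟧)}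

variable {KK : Type} [Field KK] {α : R →+* KK} {lam : Fr R⟦X⟧ →+* Ls KK} {l : ℕ}
  [IsAlgClosed (ResidueField R)] {N : Type} [Field N] [Algebra F N] [FiniteDimensional F N]
  [IsGalois F N]

omit [IsDomain R] [CDVR R] [IsAlgClosed (ResidueField R)] in
theorem gta_unit {w : Vl F} (hw : ∀ p, w (a p) ≤ 1) {r : R} (hr : IsUnit r) :
    w (a (Polynomial.C r)) = 1 := by
  obtain ⟨s, hs⟩ := hr.exists_right_inv
  refine le_antisymm (hw _) ?_
  have e : w (a (Polynomial.C r)) * w (a (Polynomial.C s)) = 1 := by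
    rw [← map_mul, ← map_mul, ← map_mul, hs, map_one, map_one, map_one]
  exact e.ge.trans (mul_le_of_le_one_right' (hw _))

omit [IsDomain R] [CDVR R] [IsAlgClosed (ResidueField R)] in
theorem gta_l {w : Vl F} (hw : ∀ p, w (a p) ≤ 1) (hl : IsUnit (l : R)) : w (l : F) = 1 := by
  simpa only [map_natCast] using gta_unit hw hl

omit [FiniteDimensional F N] [IsGalois F N] in
theorem gta_unr {w : Vl N} (hl : w (l : N) = 1) {u : F} {r : N} (hr : r ^ l = algebraMap F N u)
    (hf : ∀ h : N ≃ₐ[F] N, h r = r → h = 1) (h0 : u ≠ 0)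
    (H : ∀ v : Vl F, Nrm v → Over (algebraMap F N) v w → (l : ℤ) ∣ ord v u) : Ine F w = ⊥ := by
  refine eq_bot_iff.2 fun g hg => hf g ?_
  rcases vcnj_red (w.comap (algebraMap F N)) with t | ⟨v, hv, e, -⟩
  · refine kum hg hl (by rw [hr, g.commutes]) (map_one g) ?_
    have hl0 : l ≠ 0 := by
      rintro rfl
      simp at hl
    have e : w r ^ l = 1 := by
      rw [← map_pow, hr]
      exact t u h0
    rw [map_one]
    exact (pow_eq_one_iff.1 e).resolve_right hl0
  · have ho : Over (algebraMap F N) v w := e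
    exact kum' hv ho hg ((ho.eq_one _).1 (by rwa [map_natCast])) hr (H v hv ho)

/-- `V.comap J` has index one, every other Gauss valuation is conjugate to it -/
theorem gauss_unr (hπ : Irreducible π) (hp : l.Prime) (hl : IsUnit (l : R)) (h : Good a Θ)
    (hG : IsPGroup l (N ≃ₐ[F] N)) {J : N →+* Fr R⟦X⟧}
    (hJ : ∀ p, J (rvs (tE N a) p) = fr R (sh 0 p)) (w : Vl N)
    (hw : Cen (tE N a) w (Polynomial.C π)) : Ine F w = ⊥ := by
  obtain ⟨V, hV⟩ := exists_pv hπ
  obtain ⟨h1, h2⟩ := (disc_id hJ (mark_inf h.sm.monic)).cn1 hπ hV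
  rw [cen_rvs ((algebraMap F N).injective.comp h.inj) hπ.prime] at h1
  rw [rvs_C] at h2
  have h3 : Ine F (V.comap J) = ⊥ := by
    refine ine_bot_of_pgroup hG hp (gta_l h1.1 hl) fun x => ?_
    rcases eq_or_ne x 0 with rfl | hx
    · exact ⟨0, by rw [map_zero (algebraMap F N)]⟩
    · refine ⟨a (Polynomial.C π) ^ ord (V.comap J) x, ?_⟩
      have h4 : (V.comap J) (algebraMap F N (a (Polynomial.C π))) = exp (-1) := h2
      rw [map_zpow₀, map_zpow₀, h4, ← WithZero.exp_zsmul, smul_neg, smul_eq_mul, mul_one]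
      exact exp_neg_ord _ hx
  obtain ⟨g, hg⟩ := conj (Over.comap (algebraMap F N) (V.comap J)) (w' := w)
    (h.uni hπ ((V.comap J).comap (algebraMap F N)) (w.comap (algebraMap F N)) h1 hw)
  exact ine_bot_of_conj hg h3

/-- a tame cover that splits at infinity has a good model -/
theorem ta_core (hα : IsFr α) (hlam : ∀ f, lam (fr R f) = lau α f) (hp : l.Prime)
    (hl : IsUnit (l : R)) (h : Good a Θ) (hG : IsPGroup l (N ≃ₐ[F] N)) {ι : N →+* Ls KK}
    (hι : ∀ p, ι (rvs (tE N a) p) = lau α (sh 0 p)) (hu : UnU F (tE N a) Θ) :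
    Good (tE N a) Θ ∧ ∃ J : N →+* Fr R⟦X⟧, (∀ x, lam (J x) = ι x) ∧
      Disc (rvs (tE N a)) (Polynomial.X * Θ.reverse) 0 J (RingHom.id _) := by
  obtain ⟨π, hπ⟩ := IsDiscreteValuationRing.exists_irreducible R
  have e : ∀ p, rvs (tE N a) p = algebraMap F N (rvs a p) := fun p => by
    rw [rvs_comp, RingHom.comp_apply]
  have h1 := rigc hα hlam hp hl hG (fun p => ⟨_, (e p).symm⟩) hι
    (by rw [Polynomial.coeff_zero_reverse, h.sm.monic]; exact isUnit_one) hu.rvs
    (rig0 hα hlam h.sm.inf (by simp) (ι := ι.comp (algebraMap F N)) fun p => by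
      rw [RingHom.comp_apply, ← e, hι])
  obtain ⟨J, hJ⟩ := exists_fac lam ι h1
  have h2 : ∀ p, J (rvs (tE N a) p) = fr R (sh 0 p) := fun p =>
    lam.injective (by rw [hJ, hι, hlam])
  exact ⟨good_tower hπ hp hl h hG hu (gauss_unr hπ hp hl h hG h2), J, hJ,
    disc_id h2 (mark_inf h.sm.monic)⟩

/-- descent of a root: normalise it, every automorphism lies in the decomposition group -/
theorem gta_desc (hπ : Irreducible π) (hp : l.Prime) (hl : IsUnit (l : R)) (h : Good (tE N a) Θ)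
    {W : Vl F} (hW : Cen a W (Polynomial.C π)) {u : F} (h1 : W (u - 1) < 1) {z : N}
    (hz : z ^ l = algebraMap F N u) : ∃ y, u = y ^ l := by
  obtain ⟨W', ho⟩ := exists_over (E := N) W
  have hW' : Cen (tE N a) W' (Polynomial.C π) :=
    ⟨fun p => (ho _).2 (hW.1 p), fun p => (ho.lt_one _).trans (hW.2 p)⟩
  obtain ⟨ζ, hζ⟩ := exists_zeta hp hl
  have hζ' := hζ.map_of_injective (f := (tE N a).comp Polynomial.C)
    (h.inj.comp Polynomial.C_injective)
  have h2 : W' (((tE N a).comp Polynomial.C) ζ) = 1 := gta_unit hW'.1 (hζ.isUnit hp.ne_zero)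
  generalize ((tE N a).comp Polynomial.C) ζ = ξ at hζ' h2
  obtain ⟨k, hk⟩ := near_zeta hp hζ' (w := W') (x := z) (by
    rw [hz, ← map_one (algebraMap F N), ← map_sub]
    exact (ho.lt_one _).2 h1)
  have h0 : ξ ^ k ≠ 0 := pow_ne_zero _ (hζ'.ne_zero hp.ne_zero)
  have h3 : W' (z / ξ ^ k - 1) < 1 := by
    rwa [div_sub_one h0, map_div₀, map_pow, h2, one_pow, div_one]
  have h4 : (z / ξ ^ k) ^ l = algebraMap F N u := by
    rw [div_pow, pow_right_comm, hζ'.pow_eq_one, one_pow, div_one, hz]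
  generalize z / ξ ^ k = y at h3 h4
  have h5 : W' y = 1 := vcnj_one h3
  have h6 : y ≠ 0 := (map_ne_zero W').1 (by rw [h5]; exact one_ne_zero)
  have h7 : ∀ g : N ≃ₐ[F] N, g y = y := fun g => by
    have hg : g ∈ Dec F W' := by
      rw [h.dec_top hπ (fun p => ⟨a p, rfl⟩) hW']
      exact Subgroup.mem_top g
    refine (div_eq_one_iff_eq h6).1 (eq_one_of_pow (gta_l hW'.1 hl) ?_ ?_)
    · rw [div_pow, ← map_pow, h4, g.commutes, ← h4, div_self (pow_ne_zero _ h6)]
    · rw [div_sub_one h6, map_div₀, h5, div_one, show g y - y = g (y - 1) - (y - 1) by simp]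
      exact W'.map_sub_lt ((hg _).trans_lt h3) h3
  obtain ⟨x, rfl⟩ := (IsGalois.mem_range_algebraMap_iff_fixed y).2 h7
  exact ⟨x, (algebraMap F N).injective (by rw [map_pow, h4])⟩

/-- the extension by a root is unramified, so has a good model -/
theorem inj_good (hπ : Irreducible π) (hp : l.Prime) (hl : IsUnit (l : R)) (h : Good a Θ)
    {W : Vl F} (hW : Cen a W (Polynomial.C π)) {u : F} (hu : TW l a Θ u) (h1 : W (u - 1) < 1) :
    ∃ z, u = z ^ l := by
  by_contra hn
  obtain ⟨ζ, hζ⟩ := exists_zeta hp hl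
  obtain ⟨M, _, _, _, _, r, -, hG, hr, -, hf⟩ := exists_root_ext' hp
    (hζ.map_of_injective (f := a.comp Polynomial.C) (h.inj.comp Polynomial.C_injective))
    (u := u) fun y e => hn ⟨y, e.symm⟩
  have h0 : u ≠ 0 := fun e => hn ⟨0, by rw [e, zero_pow hp.ne_zero]⟩
  refine hn (gta_desc hπ hp hl (good_tower hπ hp hl h hG (fun w hw => ?_) fun w hw => ?_) hW h1 hr)
  · refine gta_unr ?_ hr hf h0 fun v hv ho =>
      hu v hv ((Unm.comap.2 hw).congr fun x => (ho x).symm)
    simpa only [map_natCast] using hw.1 l hl.ne_zero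
  · refine gta_unr (gta_l hw.1 hl) hr hf h0 fun v hv ho => ?_
    have h2 : Over (algebraMap F M) W w := h.uni hπ W (w.comap (algebraMap F M)) hW hw
    rw [(ord_eq_zero_v v h0).2 ((ho.eq_one u).1 ((h2.eq_one u).2 (vcnj_one h1)))]
    exact dvd_zero _

/-- descent from a Galois extension with a good model -/
theorem inj_sub (hπ : Irreducible π) (hp : l.Prime) (hl : IsUnit (l : R)) (h : Good (tE N a) Θ)
    {W : Vl F} (hW : Cen a W (Polynomial.C π)) {u : F} (hu : TW l a Θ u) (h1 : W (u - 1) < 1) :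
    ∃ z, u = z ^ l := by
  obtain ⟨W', ho⟩ := exists_over (E := N) W
  obtain ⟨z, hz⟩ := inj_good hπ hp hl h (W := W')
    ⟨fun p => (ho _).2 (hW.1 p), fun p => (ho.lt_one _).trans (hW.2 p)⟩
    (hu.map (algebraMap F N)) (by
      rw [← map_one (algebraMap F N), ← map_sub]
      exact (ho.lt_one _).2 h1)
  exact gta_desc hπ hp hl h hW h1 hz.symm

end Pool.Agent.ZFy.GM
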