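import Pool.Agent.Lib.MP_751085_ag.ZF.G.Def3
import Pool.Agent.Lib.MP_751085_ag.ZF.G.Red
import Pool.Agent.Lib.MP_751085_ag.ZF.G.Ta
import Pool.Agent.Lib.MP_751085_ag.ZF.G.Irru
import Pool.Agent.Lib.MP_751085_ag.ZC.Z.Pole

/-! Good models: the Gauss valuation and expansions at infinity. -/

namespace Pool.Agent.ZFy.GM

open Pool.Agent.ZCy
open scoped Classical WithZero Polynomial PowerSeries
open WithZero (exp)
open IsLocalRing

variable {R KK F κ : Type} [CommRing R] [IsDomain R] [CDVR R] [Field KK] [Field F] [Field κ]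
  {π : R} {a : R[X] →+* F} {Θ : R[X]} {α : R →+* KK} {v : Vl KK} {r : R →+* κ} {ι : F →+* Ls KK}
  {W : Vl F} {ρ : W.integer →+* Ls κ} {l : ℕ} {V : Vl (Fr R⟦X⟧)}

omit [IsDomain R] [CDVR R] in
theorem gpk_neg (g : R⟦X⟧) (n : ℕ) : (HahnSeries.ofPowerSeries ℤ R g).coeff (Int.negSucc n) = 0 := by
  rw [PowerSeries.coeff_coe, if_pos (Int.negSucc_lt_zero n)]

omit [IsDomain R] [CDVR R] in
theorem gpk_nat (β : R →+* KK) (g : R⟦X⟧) (n : ℕ) :
    (lau β g).coeff (n : ℤ) = β (PowerSeries.coeff n g) := by simp [lau]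

omit [IsDomain R] [CDVR R] in
theorem gpk_lm (β : R →+* KK) (g : R⟦X⟧) : lm β (HahnSeries.ofPowerSeries ℤ R g) = lau β g := by
  ext j
  rcases j with n | n
  · exact (congrArg β (HahnSeries.ofPowerSeries_apply_coeff g n)).trans (gpk_nat β g n).symm
  · rw [lm_coeff, gpk_neg, map_zero]
    exact (gpk_neg _ n).symm

omit [IsDomain R] [CDVR R] in
theorem gpk_X (β : R →+* KK) (m : ℕ) : lau β PowerSeries.X ^ m ≠ 0 :=
  pow_ne_zero _ (by simp [lau])

omit [IsDomain R] [CDVR R] in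
/-- a Laurent series over a ring is a power series divided by a power of `X` -/
theorem exists_lm_lau (f : Ls R) : ∃ (m : ℕ) (g : R⟦X⟧), ∀ (L : Type) [Field L] (β : R →+* L),
    lm β f * lau β PowerSeries.X ^ m = lau β g := by
  obtain ⟨⟨g, _, m, rfl⟩, e⟩ := IsLocalization.surj (Submonoid.powers (PowerSeries.X : R⟦X⟧)) f
  refine ⟨m, g, fun L _ β => ?_⟩
  rw [← map_pow, ← gpk_lm, ← gpk_lm, ← map_mul]
  exact congrArg (lm β) e

omit [IsDomain R] [CDVR R] in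
theorem exists_lau_lm (m : ℕ) (g : R⟦X⟧) : ∃ f : Ls R, ∀ (L : Type) [Field L] (β : R →+* L),
    lm β f * lau β PowerSeries.X ^ m = lau β g := by
  refine ⟨IsLocalization.mk' (M := Submonoid.powers (PowerSeries.X : R⟦X⟧)) (Ls R) g ⟨_, m, rfl⟩,
    fun L _ β => ?_⟩
  rw [← map_pow, ← gpk_lm, ← gpk_lm, ← map_mul]
  exact congrArg (lm β) (IsLocalization.mk'_spec (Ls R) g _)

/-- write `g = π ^ k g'` -/
theorem pv_sup (hv : IsVR α v) (hπ : Irreducible π) (hV : Cn1 (fr R) V (PowerSeries.C π))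
    (g : R⟦X⟧) : (∀ n, v (α (PowerSeries.coeff n g)) ≤ V (fr R g)) ∧
      ∃ n, v (α (PowerSeries.coeff n g)) = V (fr R g) := by
  rcases eq_or_ne g 0 with rfl | h0
  · simp
  obtain ⟨k, b, hb, rfl⟩ := WfDvdMonoid.max_power_factor' h0 (prime_ps_C hπ.prime).not_isUnit
  have e : ∀ n, v (α (PowerSeries.coeff n (PowerSeries.C π ^ k * b))) =
      V (fr R (PowerSeries.C π ^ k * b)) * v (α (PowerSeries.coeff n b)) := fun n => by
    rw [map_mul (fr R), map_mul V, (hV.1.eq_one b).2 hb, mul_one, map_pow, map_pow, hV.2,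
      ← map_pow PowerSeries.C, PowerSeries.coeff_C_mul, map_mul, map_mul, map_pow, map_pow,
      hv.irreducible_iff.1 hπ]
  obtain ⟨n, hn⟩ := not_forall.1 (mt ps_C_dvd.2 hb)
  exact ⟨fun n => (e n).trans_le (mul_le_of_le_one_right' (hv.le_one _)),
    n, by rw [e, ((hv.cen hπ).eq_one _).2 hn, mul_one]⟩

omit [CDVR R] in
theorem gpk_coeff {f : Ls KK} {m : ℕ} {g : R⟦X⟧} (e : f * lau α PowerSeries.X ^ m = lau α g)
    (j : ℤ) : f.coeff j = (lau α g).coeff (j + m) := by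
  rw [← e, lau_X, HahnSeries.single_pow, one_pow, nsmul_eq_mul, mul_one,
    HahnSeries.coeff_mul_single_add, mul_one]

variable [IsAlgClosed (ResidueField R)]

/-- `W = V.comap J`, `ρ` from `exists_red_ps`. `int`: all `J (a p)` lie in `R⟦X⟧[1 / X]`, which is
normal (`hartogs` with `Θ = X`, `le_one_of_int`). `root`: `disc_pow`, the exponent is divisible
by `l` by comparing `lval`. -/
theorem exists_pk (hv : IsVR α v) (hπ : Irreducible π) (hr : Function.Surjective r)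
    (hl : IsUnit (l : R)) (h : Good a Θ) {lam : Fr R⟦X⟧ →+* Ls KK}
    (hlam : ∀ f, lam (fr R f) = lau α f) {J : F →+* Fr R⟦X⟧} (hJ : ∀ x, lam (J x) = ι x)
    (hd : Disc (rvs a) (Polynomial.X * Θ.reverse) 0 J (RingHom.id _)) :
    ∃ (W : Vl F) (ρ : W.integer →+* Ls κ), Pk l a Θ π α v r ι W ρ := by
  obtain ⟨V, hV⟩ := exists_pv hπ
  obtain ⟨ρ₀, h1, h2, h3⟩ := exists_red_ps hπ hV.1 (res_of_surj hr).1
  have hX := pv_X hπ hV.1
  have hc : Cn1 a (V.comap J) (Polynomial.C π) :=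
    ⟨(cen_rvs h.inj hπ.prime).1 (hd.cn1 hπ hV).1, rvs_C (a := a) π ▸ (hd.cn1 hπ hV).2⟩
  have hJX : J (a Polynomial.X) = (fr R PowerSeries.X)⁻¹ := by
    have e := hd.cmp Polynomial.X
    rw [rvs_X, map_inv₀, RingHom.id_apply, sh_zero, Polynomial.coe_X] at e
    rw [← e, inv_inv]
  have key : ∀ z f, ι z = lm α f → ∃ (m : ℕ) (g : R⟦X⟧), J z * fr R PowerSeries.X ^ m = fr R g ∧
      V (J z) = V (fr R g) ∧ ∀ (L : Type) [Field L] (β : R →+* L),
        lm β f * lau β PowerSeries.X ^ m = lau β g := fun z f e => by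
    obtain ⟨m, g, hg⟩ := exists_lm_lau f
    have e1 : J z * fr R PowerSeries.X ^ m = fr R g :=
      lam.injective (by rw [map_mul, map_pow, hJ, hlam, hlam, e, hg])
    exact ⟨m, g, e1, by rw [← e1, map_mul, map_pow, hX, one_pow, mul_one], hg⟩
  have hres : ∀ z f, ι z = lm α f → ∃ y : (V.comap J).integer, (y : F) = z ∧
      ρ₀.comp (Over.comap J V).int y = lm r f := fun z f e => by
    obtain ⟨m, g, e1, e2, e3⟩ := key z f e
    refine ⟨⟨z, e2.trans_le (hV.1.1 g)⟩, rfl, mul_right_cancel₀ (gpk_X r m) ?_⟩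
    rw [e3, ← h2 _ ⟨_, hX.le⟩ rfl, ← map_pow, RingHom.comp_apply, ← map_mul]
    exact h2 g _ e1
  refine ⟨V.comap J, ρ₀.comp (Over.comap J V).int, h, hc, h1.comp_int _, fun p y hy => ?_, hres,
    fun z f e => ?_, fun z hz => ?_, fun y hy ⟨s, hs, e⟩ => ?_⟩
  · refine (hres (a p) (tL R p) (RingHom.congr_fun (f := ι.comp a) (g := (lm α).comp (tL R))
      (Polynomial.ringHom_ext (fun c => ?_) ?_) p)).elim fun y' e => by
        rw [Subtype.ext (hy.trans e.1.symm), e.2, lm_tM]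
    · rw [RingHom.comp_apply, RingHom.comp_apply, lm_tM, Polynomial.map_C, ← hJ, ← rvs_C,
        hd.const, hlam, lau_C]
      exact (Polynomial.eval₂_C _ _).symm
    · rw [RingHom.comp_apply, RingHom.comp_apply, lm_tM, Polynomial.map_X, ← hJ, hJX, map_inv₀,
        hlam, lau_X]
      refine (inv_eq_of_mul_eq_one_right ?_).trans (Polynomial.eval₂_X _ _).symm
      rw [HahnSeries.single_mul_single, mul_one]
      rfl
  · obtain ⟨m, g, -, e2, e3⟩ := key z f e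
    obtain ⟨h4, n, h5⟩ := pv_sup hv hπ hV g
    simp only [e, gpk_coeff (e3 _ α), Valuation.comap_apply, e2]
    refine ⟨fun j => ?_, n - m, by rw [sub_add_cancel, coeff_lau, h5]⟩
    rcases j + m with n | n
    · exact (congrArg v (coeff_lau g n)).trans_le (h4 n)
    · exact ((congrArg v (gpk_neg _ n)).trans v.map_zero).trans_le zero_le
  · obtain ⟨m, g, hg⟩ := hartogs (isFr_alg R⟦X⟧ (Fr R⟦X⟧)) (Θ := PowerSeries.X) (x := J z)
      fun P w _ hn hw => le_one_of_int (f := J.comp a) (fun p => by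
        rw [RingHom.comp_apply, rvs_reverse (grev_ne h.inj) p, map_mul, map_mul, map_pow, map_pow,
          hJX, map_inv₀, (hw.eq_one _).2 hn, inv_one, one_pow, mul_one, hd.cmp]
        exact hw.1 _) (hz.map J)
    obtain ⟨f, hf⟩ := exists_lau_lm m g
    exact ⟨f, mul_right_cancel₀ (gpk_X α m) (by
      rw [hf, ← hJ, ← hlam, ← hlam, ← hg, map_mul, map_pow])⟩
  · have hl0 : l ≠ 0 := fun e => hl.ne_zero (by rw [e, Nat.cast_zero])
    have h4 : V (J y) = 1 := ((h1.comp_int (Over.comap J V)).ne_zero y).1 (e ▸ pow_ne_zero _ hs)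
    have h0 : (y : F) ≠ 0 := fun e => zero_ne_one (by rw [← h4, e, map_zero, map_zero])
    obtain ⟨m, z, e1⟩ := disc_pow hπ hl hd h0 hy.rvs fun w hw => by
      have ho : Over (RingHom.id F) (V.comap J) w :=
        h.uni hπ _ w hc.1 ((cen_rvs h.inj hπ.prime).1 hw)
      rw [(ord_eq_zero_v w h0).2 ((ho.eq_one _).2 h4)]
      exact dvd_zero _
    have h5 : V z = 1 := by
      rw [e1, map_mul, map_zpow₀, hX, one_zpow, one_mul, map_pow] at h4
      exact (pow_eq_one_iff.1 h4).resolve_right hl0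
    obtain ⟨n, hn⟩ := exists_ro hπ hV.1 h5
    have h6 := h3 ((Over.comap J V).int y) _
      (e1.symm ▸ (ro_X m).mul hπ hV.1 (hn.pow hπ hV.1 l) : Ro V (J y) _)
    rw [← RingHom.comp_apply, e] at h6
    have h7 := ord_eq_of _ h6
    rw [ord_pow_v] at h7
    refine ⟨lam (fr R PowerSeries.X ^ (ord (lval κ) s - n) * z), ?_⟩
    rw [← hJ, e1, ← map_pow, mul_pow, ← zpow_natCast (_ ^ _), ← zpow_mul, sub_mul, mul_comm _ (l : ℤ),
      h7, mul_comm n, add_sub_cancel_right]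

/-- `Etl.den` with `Good.uni` -/
theorem Pk.frac (h : Pk l a Θ π α v r ι W ρ) (hπ : Irreducible π) (x : W.integer) :
    ∃ (n : R[X]) (z : F) (f : Ls R), ¬Polynomial.C π ∣ n ∧ a n * x = z ∧ ι z = lm α f := by
  obtain ⟨θ, χ, D, he, hD⟩ := h.good.et
  obtain ⟨n, G, h1, -, h2⟩ := he.den (Polynomial.prime_C_iff.2 hπ.prime)
    (mt (poly_red_eq_zero hπ D).2 hD) (x := x) fun w hw => (h.good.uni hπ W w h.cn.1 hw _).2 x.2
  let := a.toAlgebra
  obtain ⟨f, hf⟩ := h.int (G.eval₂ a θ) (adjoin_le_integralClosure (R := R[X]) (x := θ)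
    ⟨χ, he.monic, he.root⟩ (Polynomial.aeval_mem_adjoin_singleton _ _))
  exact ⟨n, _, f, h1, h2, hf⟩

omit [IsAlgClosed (ResidueField R)] in
theorem gpk_eq (h : Pk l a Θ π α v r ι W ρ) {n : R[X]} (hn : ¬Polynomial.C π ∣ n) {x : W.integer}
    {f : Ls R} (e : ι (a n * x) = lm α f) : ρ x = lm r f / tL κ (n.map r) := by
  obtain ⟨y, h1, h2⟩ := h.res _ f e
  have h3 := h.pol n ⟨_, h.cn.1.1 n⟩ rfl
  rw [← h2, ← h3, show y = ⟨_, h.cn.1.1 n⟩ * x from Subtype.ext h1, map_mul,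
    mul_div_cancel_left₀ _ ((h.red.ne_zero _).2 ((h.cn.1.eq_one n).2 hn))]

theorem Pk.mem (h : Pk l a Θ π α v r ι W ρ) (hπ : Irreducible π) (S : Subfield (Ls κ))
    (h1 : ∀ p, tL κ p ∈ S) (h2 : ∀ z f, ι z = lm α f → lm r f ∈ S) (x : W.integer) : ρ x ∈ S := by
  obtain ⟨n, _, f, h3, rfl, h4⟩ := h.frac hπ x
  exact gpk_eq h h3 h4 ▸ div_mem (h2 _ f h4) (h1 _)

theorem Pk.compat (h : Pk l a Θ π α v r ι W ρ) (hπ : Irreducible π) {F' : Type} [Field F']
    {i : F →+* F'} {ι' : F' →+* Ls KK} {W' : Vl F'} {ρ' : W'.integer →+* Ls κ} {Θ' : R[X]}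
    (h' : Pk l (i.comp a) Θ' π α v r ι' W' ρ') (e : ∀ x, ι' (i x) = ι x) :
    (∀ x, W' (i x) = W x) ∧ ∀ (x : W.integer) (y : W'.integer), (y : F') = i x → ρ' y = ρ x := by
  have hc : Cn1 a (W'.comap i) (Polynomial.C π) := h'.cn
  refine ⟨fun x => DFunLike.congr_fun
    (h.cn.nrm.eq_of_iff hc.nrm (h.good.uni hπ W _ h.cn.1 hc.1)) x, fun x y hy => ?_⟩
  obtain ⟨n, _, f, h3, rfl, h4⟩ := h.frac hπ x
  rw [gpk_eq h h3 h4, gpk_eq h' h3 (f := f) (by rw [hy, RingHom.comp_apply, ← map_mul, e, h4])]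

end Pool.Agent.ZFy.GM
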