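import Pool.Agent.Lib.MP_751085_ag.ZF.G.Plc
import Pool.Agent.Lib.MP_751085_ag.ZF.G.Pld
import Pool.Agent.Lib.MP_751085_ag.ZC.V.Cmp

/-! Rigidity: fields of constants. -/

namespace Pool.Agent.ZFy.GM

open Pool.Agent.ZCy
open scoped Classical WithZero Polynomial PowerSeries
open WithZero (exp)
open IsLocalRing

variable {M₀ M : Type} [Field M₀] [Field M]

/-- the completion at a place above `X = 0` -/
theorem exists_dvr [IsAlgClosed M] {K K₁ : Type} [Field K] [Field K₁] [Algebra K K₁]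
    [FiniteDimensional K K₁] {α : M[X] →+* K} (hα : IsFr α) :
    ∃ (R : Type) (_ : CommRing R) (_ : IsDomain R) (_ : CDVR R) (σ : M →+* R) (ψ : K₁ →+* Fr R)
      (π : R) (ϖ : K₁), (∀ y : R, ∃ c, residue R (σ c) = residue R y) ∧
      (∀ c, ψ (tE K₁ α (Polynomial.C c)) = algebraMap R (Fr R) (σ c)) ∧ Irreducible π ∧
      ψ ϖ = algebraMap R (Fr R) π := by
  obtain ⟨P, hP, hc⟩ := exists_cen_ext (E := K₁) hα Polynomial.prime_X
  have hH : Hor (tE K₁ α) P := fun r hr => (hc.eq_one _).2 fun h =>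
    hr (by simpa using Polynomial.X_dvd_iff.1 h)
  obtain ⟨R, _, _, _, w, ψ, hw, hi, hd⟩ := exists_cmp hP
  have e := idx_one_iff.1 hi
  obtain ⟨ε, hε⟩ := hw.exists_equiv
  obtain ⟨σ, hσ⟩ : ∃ σ : M →+* R,
      ∀ c, ψ (tE K₁ α (Polynomial.C c)) = algebraMap R (Fr R) (σ c) :=
    ⟨(ε.symm : w.integer →+* R).comp (((ψ.comp (tE K₁ α)).comp Polynomial.C).codRestrict _
      fun c => (e _).trans_le (hc.1 _)), fun c => by
        rw [← hε, RingHom.comp_apply (ε.symm : w.integer →+* R), RingHom.coe_coe,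
          RingEquiv.apply_symm_apply]
        rfl⟩
  obtain ⟨ϖ, hϖ⟩ := id hP
  obtain ⟨π, hπ⟩ := (hw.2.2 (ψ ϖ)).1 (((lt_one_iff_le_exp _).2 ((e ϖ).trans hϖ).le).le)
  refine ⟨R, inferInstance, inferInstance, inferInstance, σ, ψ, π, ϖ, fun y => ?_, hσ,
    hw.irreducible_iff.2 (by rw [hπ, e, hϖ]), hπ.symm⟩
  obtain ⟨a, ha⟩ := (hd (algebraMap R (Fr R) y)).exists_lt one_ne_zero
  have h1 : P a ≤ 1 := by
    rw [← e, ← sub_sub_cancel (algebraMap R (Fr R) y) (ψ a)]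
    exact w.map_sub_le (hw.le_one y) ha.le
  obtain ⟨c, h2⟩ := res_const hα hP hH h1
  rw [← e, map_sub, hσ] at h2
  refine ⟨c, (sub_eq_zero.1 ?_).symm⟩
  rw [← map_sub, ← hw.lt_one, map_sub, ← sub_add_sub_cancel _ (ψ a)]
  exact w.map_add_lt ha h2

theorem grg1_alg (φ : M₀ →+* M) {S : Subfield M} (h : S ≤ φ.fieldRange) {x : M}
    (hx : IsAlgebraic S x) : letI := φ.toAlgebra; IsAlgebraic M₀ x := by
  let := φ.toAlgebra
  obtain ⟨J, hJ⟩ := exists_fac φ S.subtype fun y => h y.2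
  exact hx.ringHom_of_comp_eq J (RingHom.id M) J.injective (RingHom.ext hJ)

theorem surj_or_inj [IsAlgClosed M₀] (γ : M₀ →+* M) {s : M}
    (hs : ∀ x : M, IsAlgebraic (Subfield.closure (Set.range γ ∪ {s})) x) :
    Function.Surjective γ ∨ Function.Injective (Polynomial.eval₂RingHom γ s) := by
  let := γ.toAlgebra
  have h : ∀ x : M, IsAlgebraic M₀ x → x ∈ γ.range := fun x hx =>
    minpoly.mem_range_of_degree_eq_one M₀ x
      (IsAlgClosed.degree_eq_one_of_irreducible M₀ (minpoly.irreducible hx.isIntegral))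
  refine or_iff_not_imp_right.2 fun hi x => h x (grg1_alg γ ?_ (hs x))
  rw [injective_iff_map_eq_zero] at hi
  push Not at hi
  obtain ⟨p, h1, h2⟩ := hi
  exact Subfield.closure_le.2 (Set.union_subset (fun _ hy => hy)
    (Set.singleton_subset_iff.2 (h s ⟨p, h2, h1⟩)))

theorem exists_fin_sub (γ : M₀ →+* M) {s : M}
    (hs : ∀ x : M, IsAlgebraic (Subfield.closure (Set.range γ ∪ {s})) x)
    (hi : Function.Injective (Polynomial.eval₂RingHom γ s)) (S : Finset M) :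
    ∃ (K₁ : Type) (_ : Field K₁) (_ : Algebra (Fr M₀[X]) K₁) (_ : FiniteDimensional (Fr M₀[X]) K₁)
      (γ₂ : K₁ →+* M), γ₂.comp ((tE K₁ (algebraMap M₀[X] (Fr M₀[X]))).comp Polynomial.C) = γ ∧
      ∀ x ∈ S, x ∈ γ₂.range := by
  obtain ⟨φ, hφ⟩ := (isFr_alg M₀[X] (Fr M₀[X])).exists_lift hi
  have h0 : ∀ c, φ (algebraMap M₀[X] _ (Polynomial.C c)) = γ c := fun c => by simp only [hφ,
    Polynomial.coe_eval₂RingHom, Polynomial.eval₂_C]
  have h1 : Subfield.closure (Set.range γ ∪ {s}) ≤ φ.fieldRange :=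
    Subfield.closure_le.2 (Set.union_subset (Set.range_subset_iff.2 fun c => ⟨_, h0 c⟩)
      (Set.singleton_subset_iff.2 ⟨_, (hφ Polynomial.X).trans (Polynomial.eval₂_X _ _)⟩))
  let := φ.toAlgebra
  exact ⟨IntermediateField.adjoin (Fr M₀[X]) (S : Set M), inferInstance, inferInstance,
    IntermediateField.finiteDimensional_adjoin fun x _ => (grg1_alg φ h1 (hs x)).isIntegral,
    algebraMap _ M, RingHom.ext h0,
    fun x hx => ⟨⟨x, IntermediateField.subset_adjoin _ _ hx⟩, rfl⟩⟩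

theorem exists_acl [IsAlgClosed M] (S : Subfield M) : ∃ (M₁ : Type) (_ : Field M₁)
    (_ : IsAlgClosed M₁) (γ₂ : M₁ →+* M), ∀ x, x ∈ γ₂.range ↔ IsAlgebraic S x := by
  exact ⟨algebraicClosure S M, inferInstance, (algebraicClosure.isAlgClosure S M).isAlgClosed,
    algebraMap _ M, fun x => ⟨fun ⟨y, e⟩ => e ▸ mem_algebraicClosure_iff.1 y.2,
      fun h => ⟨⟨x, mem_algebraicClosure_iff.2 h⟩, rfl⟩⟩⟩

theorem alg_mono {S S' : Subfield M} (h : S ≤ S') {x : M} (hx : IsAlgebraic S x) :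
    IsAlgebraic S' x := by
  exact hx.ringHom_of_comp_eq (Subfield.inclusion h) (RingHom.id M)
    (Subfield.inclusion h).injective rfl

theorem alg_comap (γ : M₀ →+* M) {S : Subfield M₀} {x : M₀} (hx : IsAlgebraic (S.map γ) (γ x)) :
    IsAlgebraic S x := by
  exact hx.of_ringHom_of_comp_eq
    ((γ.comp S.subtype).codRestrict (S.map γ) fun y => ⟨y, y.2, rfl⟩) γ
    (fun ⟨_, y, hy, e⟩ => ⟨⟨y, hy⟩, Subtype.ext e⟩) γ.injective rfl

theorem exists_mid_cl [IsAlgClosed M] (γ : M₀ →+* M) (S : Finset M) :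
    ∃ (M₁ : Type) (_ : Field M₁) (_ : IsAlgClosed M₁) (γ₁ : M₀ →+* M₁) (γ₂ : M₁ →+* M)
      (S₁ : Finset M₁), γ₂.comp γ₁ = γ ∧ S₁.card = S.card ∧ (∀ s ∈ S, s ∈ γ₂.range) ∧
      ∀ x : M₁, IsAlgebraic (Subfield.closure (Set.range γ₁ ∪ S₁)) x := by
  obtain ⟨M₁, _, _, γ₂, h⟩ := exists_acl (Subfield.closure (Set.range γ ∪ S))
  have h1 : ∀ x ∈ Set.range γ ∪ S, x ∈ γ₂.range := fun x hx => (h x).2
    (isAlgebraic_algebraMap (⟨x, Subfield.subset_closure hx⟩ : Subfield.closure (Set.range γ ∪ S)))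
  obtain ⟨γ₁, e⟩ := exists_fac γ₂ γ fun x => h1 _ (Or.inl ⟨x, rfl⟩)
  refine ⟨M₁, inferInstance, inferInstance, γ₁, γ₂, S.preimage γ₂ γ₂.injective.injOn,
    RingHom.ext e, ?_, fun s hs => h1 s (Or.inr hs),
    fun x => alg_comap γ₂ (alg_mono ?_ ((h _).1 ⟨x, rfl⟩))⟩
  · rw [Finset.card_preimage, Finset.filter_true_of_mem]
    exact fun s hs => h1 s (Or.inr hs)
  · rw [RingHom.map_field_closure]
    refine Subfield.closure_mono ?_
    rintro y (⟨a, rfl⟩ | hy)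
    · exact ⟨γ₁ a, Or.inl ⟨a, rfl⟩, e a⟩
    · obtain ⟨a, rfl⟩ := h1 y (Or.inr hy)
      exact ⟨a, Or.inr (Finset.mem_preimage.2 hy), rfl⟩

end Pool.Agent.ZFy.GM
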