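import Pool.Agent.Lib.MP_751085_ag.ZF.G.RgD1
import Pool.Agent.Lib.MP_751085_ag.ZF.G.Rg1
import Pool.Agent.Lib.MP_751085_ag.ZF.G.Pt1

/-! Rigidity of Kummer classes. -/

namespace Pool.Agent.ZFy.GM

open Pool.Agent.ZCy
open scoped Classical WithZero Polynomial PowerSeries
open WithZero (exp)

variable {M₀ M F₀ F : Type} [Field M₀] [Field M] [Field F₀] [Field F] {γ : M₀ →+* M}
  {a₀ : M₀[X] →+* F₀} {a : M[X] →+* F} {i : F₀ →+* F} {θ : F₀} {χ : M₀[X][X]} {D Θ : M₀[X]} {l : ℕ}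

theorem pow_amalg [IsAlgClosed M₀] [IsAlgClosed M] {K₁ KK F₁ F' : Type} [Field K₁] [Field KK]
    [Field F₁] [Field F'] {γ₁ : M₀ →+* K₁} {γ₂ : K₁ →+* M} {ψ : K₁ →+* KK} {a₁ : K₁[X] →+* F₁}
    {a' : KK[X] →+* F'} {i₁ : F₀ →+* F₁} {i₂ : F₁ →+* F} {j : F₁ →+* F'} (h : Etl a₀ θ χ D)
    (h₁ : CExt γ₁ a₀ a₁ i₁) (h₂ : CExt γ₂ a₁ a i₂) (hc' : CExt ψ a₁ a' j) {x : F₁} {z : F'}
    (e : j x = z ^ l) : ∃ y, i₂ x = y ^ l := by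
  obtain ⟨Ω, _, _, μ, ν, hμ⟩ := U.exists_amalg γ₂ ψ
    (by rw [(RingHom.injective_iff_ker_eq_bot _).1 γ₂.injective,
      (RingHom.injective_iff_ker_eq_bot _).1 ψ.injective])
  have hF := (h₁.comp h₂).etl' h
  obtain ⟨FΩ, _, aΩ, iΩ, hΩ⟩ := exists_cext μ hF
  have hi : Irreducible ((χ.map (Polynomial.mapRingHom γ₁)).map (Polynomial.mapRingHom ψ)) := by
    rw [Polynomial.map_map, Polynomial.mapRingHom_comp]; exact h.irr_cl _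
  obtain ⟨e', he, -⟩ := hc'.lift (h₁.etl' h) hi (b := aΩ.comp (Polynomial.mapRingHom ν))
    (hΩ.inj.comp (Polynomial.map_injective ν ν.injective)) (j := iΩ.comp i₂) fun p => by
      simp only [RingHom.comp_apply, h₂.cmp, hΩ.cmp, Polynomial.coe_mapRingHom, Polynomial.map_map,
        hμ]
  exact pow_of_cext hΩ hF (z := e' z) (by rw [← map_pow, ← e, he, RingHom.comp_apply])

/-- One step: the constants grow by one transcendental element. -/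
theorem rigid_one [IsAlgClosed M₀] [IsAlgClosed M] (h : Etl a₀ θ χ D) (hc : CExt γ a₀ a i)
    (hl : l.Prime) (h0 : (l : M₀) ≠ 0) (hΘ : Θ ≠ 0) (hD : D ∣ Θ) {s : M}
    (hs : ∀ x : M, IsAlgebraic (Subfield.closure (Set.range γ ∪ {s})) x) {u : F}
    (hu : TW l a (Θ.map γ) u) : ∃ (u₀ : F₀) (z : F), u = i u₀ * z ^ l := by
  rcases surj_or_inj γ hs with hγ | hγ
  · obtain ⟨u₀, rfl⟩ := hc.surj hγ u
    exact ⟨u₀, 1, by simp⟩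
  obtain ⟨S, hS⟩ := (hc.etl' h).exists_def u
  obtain ⟨K₁, _, _, _, γ₂, e, hm⟩ := exists_fin_sub γ hs hγ S
  set γ₁ := (tE K₁ (algebraMap M₀[X] (Fr M₀[X]))).comp Polynomial.C with hγ₁
  subst e
  obtain ⟨F₁, _, a₁, i₁, i₂, h₁, h₂, hi⟩ := exists_mid hc
  obtain ⟨u₁, rfl⟩ := hS K₁ F₁ γ₂ a₁ i₂ hm h₂.cmp ⟨_, hi θ⟩
  have t₁ : TW l a₁ (Θ.map γ₁) u₁ := TW.desc h₂ (h₁.etl' h)
    (by rw [Polynomial.map_map, Polynomial.mapRingHom_comp]; exact h.irr_cl _)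
    (Polynomial.map_dvd γ₁ hD) hl (by rwa [← map_natCast γ₁, map_ne_zero])
    (by rwa [Polynomial.map_map])
  obtain ⟨R, _, _, _, σ, ψ, π, ϖ, hσ, hψ, hπ, hϖ⟩ :=
    exists_dvr (K₁ := K₁) (isFr_alg M₀[X] (Fr M₀[X]))
  obtain ⟨F', _, a', j, hc'⟩ := exists_cext ψ (h₁.etl' h)
  have e : ψ.comp γ₁ = (algebraMap R (Fr R)).comp σ := RingHom.ext hψ
  obtain ⟨k, u₀, z, hz⟩ := rigid_dvr σ hσ (isFr_alg R (Fr R)) h (e ▸ h₁.comp hc') hl h0 hπ hΘ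
    (u := j u₁) (by rw [← e, ← Polynomial.map_map]; exact t₁.cext hc'.cmp)
  have hϖ0 : ϖ ≠ 0 := fun h => hπ.ne_zero <| (isFr_alg R (Fr R)).1 <| by rw [← hϖ, h]; simp
  have hw : a₁ (Polynomial.C ϖ) ≠ 0 := by rwa [map_ne_zero_iff _ h₁.inj, Polynomial.C_ne_zero]
  rw [← hϖ, ← Polynomial.map_C, ← hc'.cmp, RingHom.comp_apply] at hz
  by_cases hu₀ : u₀ = 0
  · exact ⟨0, 1, by simpa [hu₀] using hz⟩
  have hv : i₁ u₀ ≠ 0 := by rwa [map_ne_zero]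
  obtain ⟨y, hy⟩ := pow_amalg (l := l) h h₁ h₂ hc' (x := u₁ / (a₁ (Polynomial.C ϖ) ^ k * i₁ u₀))
    (z := z) (by
      rw [map_div₀, map_mul, map_zpow₀, hz, mul_div_cancel_left₀]
      exact mul_ne_zero (zpow_ne_zero _ (by rwa [map_ne_zero])) (by rwa [map_ne_zero]))
  obtain ⟨ρ, hρ⟩ := IsAlgClosed.exists_pow_nat_eq (γ₂ ϖ) hl.pos
  rw [map_div₀, map_mul, map_zpow₀, hi, div_eq_iff (mul_ne_zero (zpow_ne_zero _
    (by rwa [map_ne_zero])) (by rwa [map_ne_zero])), h₂.cmp, Polynomial.map_C, ← hρ, map_pow,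
    map_pow] at hy
  refine ⟨u₀, y * a (Polynomial.C ρ) ^ k, ?_⟩
  rw [hy, mul_pow, ← zpow_natCast (a _ ^ k), ← zpow_natCast (a _) l, ← zpow_mul, ← zpow_mul,
    mul_comm k]
  ring

theorem rigid_fin [IsAlgClosed M₀] (h : Etl a₀ θ χ D) (hl : l.Prime) (h0 : (l : M₀) ≠ 0)
    (hΘ : Θ ≠ 0) (hD : D ∣ Θ) (n : ℕ) : ∀ (M F : Type) [Field M] [IsAlgClosed M] [Field F]
      (γ : M₀ →+* M) (a : M[X] →+* F) (i : F₀ →+* F) (S : Finset M), S.card = n → CExt γ a₀ a i →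
      (∀ x : M, IsAlgebraic (Subfield.closure (Set.range γ ∪ S)) x) → ∀ u : F,
      TW l a (Θ.map γ) u → ∃ (u₀ : F₀) (z : F), u = i u₀ * z ^ l := by
  induction n with
  | zero =>
    intro M F _ _ _ γ a i S hS hc ha u hu
    exact rigid_one h hc hl h0 hΘ hD (s := 0) (fun x => alg_mono (Subfield.closure_mono <| by
      rw [Finset.card_eq_zero.1 hS]; simp) (ha x)) hu
  | succ n ih =>
    intro M F _ _ _ γ a i S hS hc ha u hu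
    obtain ⟨s, S', -, rfl, hS'⟩ := Finset.card_eq_succ.1 hS
    obtain ⟨M₁, _, _, γ₁, γ₂, S₁, rfl, h1, h2, h3⟩ := exists_mid_cl γ S'
    obtain ⟨F₁, _, a₁, i₁, i₂, h₁, h₂, hi⟩ := exists_mid hc
    have l₁ : (l : M₁) ≠ 0 := by rwa [← map_natCast γ₁, map_ne_zero]
    rw [← Polynomial.map_map] at hu
    obtain ⟨u₁, z, rfl⟩ := rigid_one (h₁.etl' h) h₂ hl l₁ (Polynomial.map_ne_zero hΘ)
      (Polynomial.map_dvd γ₁ hD) (s := s) (fun x => alg_mono (Subfield.closure_mono <| by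
        rintro y (⟨c, rfl⟩ | hy)
        · exact Or.inl ⟨_, rfl⟩
        · rcases Finset.mem_insert.1 hy with rfl | hy
          exacts [Or.inr rfl, Or.inl (h2 y hy)]) (ha x)) hu
    by_cases hz : z = 0
    · exact ⟨0, 1, by simp [hz, hl.ne_zero]⟩
    obtain ⟨u₀, y, rfl⟩ := ih M₁ F₁ γ₁ a₁ i₁ S₁ (h1.trans hS') h₁ h3 u₁ <| TW.desc h₂ (h₁.etl' h)
      ((h₁.etl' h).irr_cl _) (Polynomial.map_dvd γ₁ hD) hl l₁ (hu.of_mul_pow hz)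
    exact ⟨u₀, i₂ y * z, by rw [map_mul, map_pow, hi, mul_pow, mul_assoc]⟩

/-- Kummer classes come from the closed field of constants. -/
theorem rigid [IsAlgClosed M₀] [IsAlgClosed M] (h : Etl a₀ θ χ D) (hc : CExt γ a₀ a i)
    (hl : l.Prime) (h0 : (l : M₀) ≠ 0) (hΘ : Θ ≠ 0) {u : F} (hu : TW l a (Θ.map γ) u) :
    ∃ (u₀ : F₀) (z : F), u = i u₀ * z ^ l := by
  obtain ⟨S, hS⟩ := (hc.etl' h).exists_def u
  obtain ⟨M₁, _, _, γ₁, γ₂, S₁, rfl, -, h2, h3⟩ := exists_mid_cl γ S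
  obtain ⟨F₁, _, a₁, i₁, i₂, h₁, h₂, hi⟩ := exists_mid hc
  obtain ⟨u₁, rfl⟩ := hS M₁ F₁ γ₂ a₁ i₂ h2 h₂.cmp ⟨_, hi θ⟩
  have hD : D ∣ Θ * D := dvd_mul_left _ _
  obtain ⟨u₀, y, rfl⟩ := rigid_fin h hl h0 (mul_ne_zero hΘ h.ne) hD _ M₁ F₁ γ₁ a₁ i₁ S₁ rfl h₁ h3
    u₁ <| TW.desc h₂ (h₁.etl' h) ((h₁.etl' h).irr_cl _) (Polynomial.map_dvd γ₁ hD) hl
      (by rwa [← map_natCast γ₁, map_ne_zero])
      (by rw [Polynomial.map_map, Polynomial.map_mul]; exact hu.mono _)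
  exact ⟨u₀, i₂ y, by rw [map_mul, map_pow, hi]⟩

end Pool.Agent.ZFy.GM
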