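import Pool.Agent.Lib.MP_751085_ag.ZF.G.Spc
import Pool.Agent.Lib.MP_751085_ag.ZF.G.Ta
import Pool.Agent.Lib.MP_751085_ag.ZF.G.Irru

/-! Good models: rigidity of Kummer classes over a complete ring with constants. -/

namespace Pool.Agent.ZFy.GM

open Pool.Agent.ZCy
open scoped Classical WithZero Polynomial PowerSeries
open WithZero (exp)
open IsLocalRing

variable {M R KK F₀ F : Type} [Field M] [CommRing R] [IsDomain R] [CDVR R] [Field KK] [Field F₀]
  [Field F] {a₀ : M[X] →+* F₀} {a : KK[X] →+* F} {i : F₀ →+* F} {θ : F₀} {χ : M[X][X]} {D : M[X]}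
  {σ : M →+* R} {α : R →+* KK} {π : R}

theorem grgd1_le (h : Etl a₀ θ χ D) {v : Vl F₀} (hv : ∀ p, v (a₀ p) ≤ 1) {x : F₀} {d : M[X]}
    {G : M[X][X]} (hd : v (a₀ d) = 1) (e : x * a₀ d = G.eval₂ a₀ θ) : v x ≤ 1 := by
  have h1 := h.le_one hv G
  rwa [← e, map_mul, hd, mul_one] at h1

omit [IsDomain R] [CDVR R] in
theorem grgd1_surj [IsLocalRing R] (hσ : ∀ y : R, ∃ c, residue R (σ c) = residue R y) :
    Function.Surjective ((residue R).comp σ) := fun y => by
  obtain ⟨y, rfl⟩ := residue_surjective y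
  exact hσ y

omit [IsDomain R] [CDVR R] in
theorem grgd1_cmp (hc : CExt (α.comp σ) a₀ a i) (p : M[X]) : i (a₀ p) =
    ((a.comp (Polynomial.mapRingHom α)).comp (Polynomial.mapRingHom σ)) p :=
  (hc.cmp p).trans (congrArg a (Polynomial.map_map σ α p).symm)

omit [IsDomain R] [CDVR R] in
theorem grgd1_mem (hα : IsFr α) (S : Subfield F) (h : ∀ p : R[X], a (p.map α) ∈ S) (p : KK[X]) :
    a p ∈ S := by
  have h1 : ∀ c, a (Polynomial.C c) ∈ S := mem_of_isFr hα (a.comp Polynomial.C) S fun r => by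
    simpa using h (Polynomial.C r)
  induction p using Polynomial.induction_on with
  | C c => exact h1 c
  | add p q hp hq => exact map_add a p q ▸ add_mem hp hq
  | monomial n c hp =>
    rw [pow_succ, ← mul_assoc, map_mul]
    exact mul_mem hp (by simpa using h Polynomial.X)

omit [CDVR R] in
theorem grgd1_unm (σ : M →+* R) {b : R[X] →+* F} {Θ : M[X]} {v : Vl F} (h : Unm b (Θ.map σ) v) :
    Unm (b.comp (Polynomial.mapRingHom σ)) Θ v :=
  ⟨fun r hr => by simpa using h.1 (σ r) ((map_ne_zero σ).2 hr), by simpa using h.2.1, h.2.2⟩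

/-- a function is a unit off finitely many points -/
theorem tw_unit (h : Etl a₀ θ χ D) {x : F₀} (hx : x ≠ 0) :
    ∃ d : M[X], d.Monic ∧ ∀ m, TW m a₀ d x := by
  obtain ⟨G, d, h1, h2⟩ := h.gen x
  obtain ⟨G', d', h3, h4⟩ := h.gen x⁻¹
  refine ⟨_, Polynomial.monic_mul_leadingCoeff_inv (mul_ne_zero h1 h3), fun m v _ hv => ?_⟩
  have h5 := hv.of_mul
  have h6 := grgd1_le h (hv.1.le_one hv.2.1) h5.of_mul.2.2 h2
  have h7 := grgd1_le h (hv.1.le_one hv.2.1) (Unm.of_mul (mul_comm d d' ▸ h5)).2.2 h4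
  rw [map_inv₀, inv_le_one₀ ((Valuation.pos_iff v).2 hx)] at h7
  rw [(ord_eq_zero_v v hx).2 (h6.antisymm h7)]
  exact dvd_zero _

theorem res_closed [IsAlgClosed M] (hσ : ∀ y : R, ∃ c, residue R (σ c) = residue R y) :
    IsAlgClosed (ResidueField R) := by
  exact IsAlgClosed.of_ringEquiv M _ (RingEquiv.ofBijective ((residue R).comp σ)
    ⟨RingHom.injective _, grgd1_surj hσ⟩)

/-- a Galois cover with good models -/
theorem const_cover [IsAlgClosed M] [IsAlgClosed (ResidueField R)] (hα : IsFr α)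
    (h : Etl a₀ θ χ D) (hc : CExt (α.comp σ) a₀ a i) : ∃ (N : Type) (_ : Field N) (_ : Algebra F N)
      (_ : FiniteDimensional F N) (_ : IsGalois F N), ∀ Th : M[X], Th.Monic →
      Good (tE N (a.comp (Polynomial.mapRingHom α))) (Th.map σ) := by
  obtain ⟨_, rfl⟩ := exists_frac h.inj
  have h₁ := isFr_alg M[X] (Fr M[X])
  obtain ⟨_, _, -⟩ := h.alg h₁
  obtain ⟨N₀, _, _, _, _, _, _, -⟩ := exists_gc (Fr M[X]) F₀
  have := IsGalois.tower_top_of_isGalois (Fr M[X]) F₀ N₀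
  have := Module.Finite.right (Fr M[X]) F₀ N₀
  obtain ⟨N, _, _, _, _, j, -, h1, -, -, h2⟩ := exists_bc N₀ i
  refine ⟨N, inferInstance, inferInstance, inferInstance, inferInstance, fun Th hm =>
    good_const h₁ hm σ hα (a' := tE N a) (j := j) ⟨fun p => ?_,
      (algebraMap F N).injective.comp hc.inj, ?_⟩⟩
  · rw [RingHom.comp_apply, IsScalarTower.algebraMap_apply _ F₀ N₀, h1]
    exact congrArg _ (hc.cmp p)
  · refine top_unique (((adjoin_top_iff _).1 h2).ge.trans (Subfield.closure_le.2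
      (Set.union_subset ?_ fun x hx => Subfield.subset_closure (Or.inl hx))))
    rintro _ ⟨x, rfl⟩
    refine Subfield.mem_comap.1 (Subfield.closure_le.2 ?_ (hc.gen.ge (Subfield.mem_top x)))
    rintro _ (⟨y, rfl⟩ | ⟨y, rfl⟩)
    · exact Subfield.subset_closure (Or.inl ⟨_, h1 y⟩)
    · exact Subfield.subset_closure (Or.inr ⟨y, rfl⟩)

/-- the constant curve maps onto the residue field -/
theorem res_sec (hσ : ∀ y : R, ∃ c, residue R (σ c) = residue R y) (hα : IsFr α)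
    (h : Etl a₀ θ χ D) (hc : CExt (α.comp σ) a₀ a i) (hπ : Irreducible π)
    (hu : ∀ w w' : Vl F, Cen (a.comp (Polynomial.mapRingHom α)) w (Polynomial.C π) →
      Cen (a.comp (Polynomial.mapRingHom α)) w' (Polynomial.C π) → ∀ x, w' x ≤ 1 ↔ w x ≤ 1)
    {W : Vl F} (hW : Cen (a.comp (Polynomial.mapRingHom α)) W (Polynomial.C π)) {u : F}
    (h1 : W u = 1) : ∃ u₀ : F₀, u₀ ≠ 0 ∧ W (u / i u₀ - 1) < 1 := by
  have e := grgd1_cmp hc
  have h2 : ∀ p : M[X], p ≠ 0 → ¬Polynomial.C π ∣ p.map σ := fun p hp hd =>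
    Polynomial.map_ne_zero (f := (residue R).comp σ) hp
      ((Polynomial.map_map _ _ _).symm.trans ((poly_red_eq_zero hπ _).2 hd))
  have h3 : ∀ x, i x ∈ W.integer := fun x => by
    obtain ⟨G, d, h3, h4⟩ := h.gen x
    exact grgd1_le h (v := W.comap i) (fun p => (congrArg W (e p)).trans_le (hW.1 _))
      ((congrArg W (e d)).trans ((hW.eq_one _).2 (h2 d h3))) h4
  obtain ⟨p, q, hb⟩ := h.bez
  obtain ⟨χ', -, h'⟩ := etl_of_root (a := a.comp (Polynomial.mapRingHom α)) (θ := i θ)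
    (D := D.map σ) (hc.inj.comp (Polynomial.map_injective α hα.1))
    (p := p.map (Polynomial.mapRingHom σ)) (q := q.map (Polynomial.mapRingHom σ))
    (h.monic.map (Polynomial.mapRingHom σ))
    (by rw [Polynomial.eval₂_map, ← show i.comp a₀ = _ from RingHom.ext e, ← Polynomial.hom_eval₂,
      h.root, map_zero])
    (by simpa using congrArg (Polynomial.map (Polynomial.mapRingHom σ)) hb)
    (Polynomial.map_ne_zero h.ne)
    (top_unique ((hc.closure h).ge.trans (Subfield.closure_le.2 (Set.union_subset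
      (Set.range_subset_iff.2 (grgd1_mem hα (Subfield.closure _) fun r => Subfield.subset_closure
        (Or.inl ⟨r, rfl⟩))) fun x hx => Subfield.subset_closure (Or.inr hx)))))
  obtain ⟨κ, _, ρ, hρ, -⟩ := exists_resf W
  obtain ⟨u₀, h4⟩ := h'.res_mem (Polynomial.prime_C_iff.2 hπ.prime) (h2 D h.ne) hu hW hρ
    (ρ.comp (i.codRestrict W.integer h3)).fieldRange (fun p y hy => by
      obtain ⟨p₀, h4⟩ := Polynomial.map_surjective _ (grgd1_surj hσ) (p.map (residue R))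
      refine ⟨a₀ p₀, (hρ.eq_iff _ _).2 ?_⟩
      change W (i (a₀ p₀) - y) < 1
      rw [e, hy, RingHom.comp_apply, ← map_sub, hW.2, ← poly_red_eq_zero hπ, Polynomial.map_sub,
        Polynomial.coe_mapRingHom, Polynomial.map_map, h4, sub_self]) (fun y hy => ⟨θ, congrArg ρ (Subtype.ext hy.symm)⟩) ⟨u, h1.le⟩
  have h5 : W (i u₀) = 1 := (hρ.ne_zero ⟨_, h3 u₀⟩).1 (h4.trans_ne ((hρ.ne_zero _).2 h1))
  have h6 : i u₀ ≠ 0 := W.ne_zero_iff.1 (h5.trans_ne one_ne_zero)
  refine ⟨u₀, (map_ne_zero i).1 h6, ?_⟩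
  rw [div_sub_one h6, map_div₀, h5, div_one]
  exact (hρ.eq_iff _ _).1 h4.symm

/-- rigidity of Kummer classes -/
theorem rigid_dvr [IsAlgClosed M] (σ : M →+* R)
    (hσ : ∀ y : R, ∃ c, residue R (σ c) = residue R y) (hα : IsFr α) (h : Etl a₀ θ χ D)
    (hc : CExt (α.comp σ) a₀ a i) {l : ℕ} (hp : l.Prime) (hl : (l : M) ≠ 0) (hπ : Irreducible π)
    {Θ : M[X]} (h0 : Θ ≠ 0) {u : F} (hu : TW l a (Θ.map (α.comp σ)) u) :
    ∃ (k : ℤ) (u₀ : F₀) (z : F), u = a (Polynomial.C (α π)) ^ k * i u₀ * z ^ l := by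
  rcases eq_or_ne u 0 with rfl | h1
  · exact ⟨0, 0, 0, by simp⟩
  have := res_closed hσ
  obtain ⟨N, _, _, _, _, H⟩ := const_cover hα h hc
  obtain ⟨W, hW, h2⟩ := (H 1 Polynomial.monic_one).exists_cn1 hπ
  have h3 : (W.comap (algebraMap F N)) (a (Polynomial.C (α π))) = exp (-1) := by
    rw [← Polynomial.map_C]
    exact h2
  have h4 : a (Polynomial.C (α π)) ≠ 0 :=
    (Valuation.ne_zero_iff _).1 (h3.trans_ne WithZero.exp_ne_zero)
  generalize hk : ord (W.comap (algebraMap F N)) u = k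
  have h5 := zpow_ne_zero k h4
  obtain ⟨u₀, h6, h7⟩ := res_sec hσ hα h hc hπ (fun w w' hw hw' x => by
      obtain ⟨v, hv⟩ := exists_over (E := N) w
      obtain ⟨v', hv'⟩ := exists_over (E := N) w'
      exact (hv' x).symm.trans (((H 1 Polynomial.monic_one).uni hπ v v' ((cen_of_over hv).2 hw)
        ((cen_of_over hv').2 hw') _).trans (hv x)))
    (W := W.comap (algebraMap F N)) hW (u := u / a (Polynomial.C (α π)) ^ k)
    ((ord_eq_zero_v _ (div_ne_zero h1 h5)).1 (by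
      rw [ord_div_v _ h1 h5, ord_zpow_v, ord_eq_of _ h3, hk, mul_one, sub_self]))
  obtain ⟨d, hd, h8⟩ := tw_unit h h6
  have h9 := (map_ne_zero i).2 h6
  obtain ⟨z, hz⟩ := inj_sub hπ hp (map_natCast σ l ▸ (IsUnit.mk0 _ hl).map σ)
    (H _ (Polynomial.monic_mul_leadingCoeff_inv (mul_ne_zero h0 hd.ne_zero)))
    (W := W.comap (algebraMap F N)) hW (fun v hv hm => by
      rw [Polynomial.map_mul, Polynomial.map_mul] at hm
      have e1 := hu v hv (Polynomial.map_map σ α Θ ▸ (unm_fr hα).1 hm.of_mul.of_mul)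
      have e2 := tw_C l π v hv hm
      have e3 := (h8 l).map i v hv (by
        rw [show i.comp a₀ = _ from RingHom.ext (grgd1_cmp hc)]
        exact grgd1_unm σ (Unm.of_mul (mul_comm (Θ.map σ) _ ▸ hm.of_mul)))
      rw [RingHom.comp_apply, Polynomial.coe_mapRingHom, Polynomial.map_C] at e2
      rw [ord_div_v _ (div_ne_zero h1 h5) h9, ord_div_v _ h1 h5, ord_zpow_v]
      exact (e1.sub (e2.mul_left k)).sub e3) h7
  refine ⟨k, u₀, z, ?_⟩
  rw [← hz, div_div, mul_div_cancel₀ _ (mul_ne_zero h5 h9)]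

end Pool.Agent.ZFy.GM
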