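import Pool.Agent.Lib.MP_751085_ag.ZF.G.Fam
import Pool.Agent.Lib.MP_751085_ag.ZF.G.Poly

/-! Good models: strong approximation modulo the uniformiser. -/

namespace Pool.Agent.ZFy.GM

open Pool.Agent.ZCy
open scoped Classical WithZero Polynomial PowerSeries
open WithZero (exp)
open IsLocalRing

variable {R F : Type} [CommRing R] [IsDomain R] [CDVR R] [Field F] {π t : R} {a : R[X] →+* F}
  {Θ : R[X]} {V : Vl (Fr R⟦X⟧)}

omit [CDVR R] in
theorem gsa_sum (hV : Cen (fr R) V (PowerSeries.C π)) {ψ : R⟦X⟧ →+* R⟦X⟧}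
    {Ψ : Fr R⟦X⟧ →+* Fr R⟦X⟧} (hΨ : ∀ f, Ψ (fr R f) = fr R (ψ f)) (hv : ∀ x, V (Ψ x) = V x) (δ : ℕ)
    {x : ℕ → Fr R⟦X⟧} (w : ℕ → R⟦X⟧) (h : ∀ k, ∃ g, V (x k - fr R g) < 1) :
    ∃ y, V (∑ k ∈ Finset.range δ, Ψ (x k) * fr R (w k) - fr R y) < 1 := by
  choose g hg using h
  refine ⟨∑ k ∈ Finset.range δ, ψ (g k) * w k, ?_⟩
  rw [map_sum, ← Finset.sum_sub_distrib]
  refine V.map_sum_lt one_ne_zero fun k _ => ?_
  rw [map_mul, ← hΨ, ← sub_mul, ← map_sub, map_mul, hv]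
  exact (mul_le_of_le_one_right' (hV.1 _)).trans_lt (hg k)

theorem gsa_sol {θ : F} {χ : R[X][X]} {D : R[X]} (f : Fam a Θ t θ χ.natDegree) (he : Etl a θ χ D)
    (hπ : Irreducible π) (hV : Cn1 (fr R) V (PowerSeries.C π)) (hD : ¬Polynomial.C π ∣ D)
    {z : f.ι → Fr R⟦X⟧} (hz : ∀ i, V (z i) ≤ 1) : ∃ γ : ℕ → Fr R⟦X⟧, (∀ k, V (γ k) ≤ 1) ∧
      ∀ i, z i = ∑ k ∈ Finset.range χ.natDegree, f.Ψ i (γ k) * f.J i θ ^ k := by
  obtain ⟨G, hG, e⟩ := f.sol z
  refine ⟨G.coeff, fun k => ?_, fun i => ?_⟩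
  · have h1 := f.crd_pi he hπ hV hG (n := 0) (fun i => by rw [e]; exact hz i) k
    rwa [map_mul, (hV.1.eq_one _).2 (mt (C_dvd_sh t D).1 hD), one_mul] at h1
  · rw [← e]
    refine Polynomial.eval₂_eq_sum_range' _ ?_ _
    by_cases h0 : G = 0
    · rw [h0, Polynomial.natDegree_zero]
      exact he.pos
    · exact (Polynomial.natDegree_lt_iff_degree_lt h0).2 hG

omit [IsDomain R] [CDVR R] in
theorem gsa_rev (hπ : Prime π) {D : R[X]} (hD : ¬Polynomial.C π ∣ D) (k : ℕ) :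
    ¬Polynomial.C π ∣ Polynomial.X ^ k * D.reverse := fun h => by
  rcases (Polynomial.prime_C_iff.2 hπ).dvd_or_dvd h with h | h
  · exact hπ.not_isUnit (isUnit_of_dvd_one (by
      simpa using (Polynomial.C_dvd_iff_dvd_coeff _ _).1 h k))
  · refine hD ((Polynomial.C_dvd_iff_dvd_coeff _ _).2 fun i => ?_)
    have h1 := (Polynomial.C_dvd_iff_dvd_coeff _ _).1 h (Polynomial.revAt D.natDegree i)
    rwa [Polynomial.coeff_reverse, Polynomial.revAt_invol] at h1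

/-- strong approximation: principal parts for each coordinate -/
theorem Atl.sa (A : Atl a Θ) (hπ : Irreducible π) (hV : Cn1 (fr R) V (PowerSeries.C π)) :
    ∃ m : ℕ, ∀ (S : Finset (ResidueField R)) (z : ∀ c, (A.fam c).ι → Fr R⟦X⟧)
      (zi : A.inf.ι → Fr R⟦X⟧), (∀ c i, V (z c i) ≤ 1) → (∀ i, V (zi i) ≤ 1) →
      ∃ (η : F) (N : ℕ) (G : R[X][X]),
        η * a (∏ c ∈ S, (Polynomial.X - Polynomial.C (A.t c))) ^ N = G.eval₂ a A.θ ∧
        (∀ c ∈ S, ∀ i, ∃ k, V ((A.fam c).J i η - z c i - fr R k) < 1) ∧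
        ∀ i, ∃ k, V ((A.inf.J i η - zi i) * A.inf.J i (rvs a Polynomial.X) ^ m - fr R k) < 1 := by
  have hα := isFr_alg R[X] (Fr R[X])
  generalize algebraMap R[X] (Fr R[X]) = α at hα
  obtain ⟨ι, hι⟩ := hα.exists_lift A.et.inj
  have hι' : ∀ p, ι (rvs α p) = rvs a p := fun p => by
    rw [← show ι.comp α = a from RingHom.ext hι, rvs_comp, RingHom.comp_apply]
  have hb : ∀ {β : R[X] →+* Fr R[X]}, IsFr β → ∀ s : R, ∃ b : Fr R[X] →+* Fr R⟦X⟧,
      ∀ p, b (β p) = fr R (sh s p) := fun h s =>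
    h.exists_lift (β := (fr R).comp (sh s)) ((isFr_alg _ _).1.comp (sh_inj s))
  obtain ⟨bi, hi⟩ := hb (isFr_rvs hα) 0
  choose b hb using hb hα
  have hD : ¬Polynomial.C π ∣ A.D := mt (poly_red_eq_zero hπ _).2 A.red
  refine ⟨A.b * A.χ.natDegree, fun S z zi hz hzi => ?_⟩
  choose γ hγ eγ using fun c => gsa_sol (A.fam c) A.et hπ hV hD (hz c)
  obtain ⟨γi, hγi, eγi⟩ := gsa_sol A.inf A.et' hπ hV (gsa_rev hπ.prime hD _) hzi
  rw [show Finset.range A.χ'.natDegree = Finset.range A.χ.natDegree by rw [A.deg]] at eγi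
  choose η N p h1 h2 h3 using fun k => exists_pf hα hπ hV (s := fun c : S => A.t c)
    (fun c c' h => (residue_ne_zero_iff_isUnit _).1 (by
      rw [map_sub, A.res, A.res]
      exact sub_ne_zero.2 fun e => h (Subtype.ext e))) (fun c => hb (A.t c)) hi
    (fun c => γ c k) (fun c => hγ c k) (δ := γi k * fr R PowerSeries.X ^ (A.b * k))
    (by rw [map_mul, map_pow, pv_X hπ hV.1, one_pow, mul_one]; exact hγi k)
  have h4 : (∑ k ∈ Finset.range A.χ.natDegree, ι (η k) * A.θ ^ k) *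
      a (∏ c ∈ S, (Polynomial.X - Polynomial.C (A.t c))) ^
        (∑ k ∈ Finset.range A.χ.natDegree, N k) ∈ (Polynomial.eval₂RingHom a A.θ).range := by
    have ha : ∀ q, a q ∈ (Polynomial.eval₂RingHom a A.θ).range := fun q =>
      ⟨Polynomial.C q, Polynomial.eval₂_C _ _⟩
    rw [Finset.sum_mul]
    refine sum_mem fun k hk => ?_
    obtain ⟨d, hd⟩ := Nat.exists_eq_add_of_le
      (Finset.single_le_sum (f := N) (fun _ _ => Nat.zero_le _) hk)
    have h5 := congrArg ι (h1 k)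
    rw [map_mul, map_pow, hι, hι,
      Finset.prod_coe_sort S fun c => Polynomial.X - Polynomial.C (A.t c)] at h5
    rw [hd, pow_add, mul_right_comm, ← mul_assoc, h5]
    exact mul_mem (mul_mem (ha _) (pow_mem (ha _) _))
      (pow_mem (RingHom.mem_range.2 ⟨Polynomial.X, Polynomial.eval₂_X _ _⟩) _)
  obtain ⟨G, hG⟩ := h4
  refine ⟨_, _, G, hG.symm, fun c hc i => ?_, fun i => ?_⟩
  · have hd := (A.fam c).disc i
    obtain ⟨y, hy⟩ := hd.mem_of_int (x := A.θ) ⟨_, A.et.monic, A.et.root⟩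
    refine (gsa_sum hV.1 ((A.fam c).cmp i) (pv_sub hπ hd.cst hd.int ((A.fam c).cmp i) hV)
      A.χ.natDegree (fun k => y ^ k) fun k => h2 k ⟨c, hc⟩).imp fun g hg => hg.trans_eq' ?_
    rw [eγ, map_sum, ← Finset.sum_sub_distrib]
    congr 2
    refine Finset.sum_congr rfl fun k _ => ?_
    simp only [map_mul, map_pow, map_sub, (A.fam c).J_aeval hα hι (hb _), hy, sub_mul]
  · have hd := A.inf.disc i
    obtain ⟨y, hy⟩ := hd.mem_of_int ⟨_, A.et'.monic, A.et'.root⟩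
    have hu : A.inf.J i (rvs a Polynomial.X) = fr R (A.inf.ψ i PowerSeries.X) := by
      rw [hd.cmp, sh_zero, Polynomial.coe_X]
    refine (gsa_sum hV.1 (A.inf.cmp i) (pv_sub hπ hd.cst hd.int (A.inf.cmp i) hV) A.χ.natDegree
      (fun k => y ^ k * A.inf.ψ i PowerSeries.X ^ (A.b * (A.χ.natDegree - k))) h3).imp
      fun g hg => hg.trans_eq' ?_
    rw [eγi, map_sum, ← Finset.sum_sub_distrib, Finset.sum_mul]
    congr 2
    refine Finset.sum_congr rfl fun k hk => ?_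
    have e : A.b * A.χ.natDegree = A.b * k + A.b * (A.χ.natDegree - k) := by
      rw [← mul_add, Nat.add_sub_cancel' (Finset.mem_range.1 hk).le]
    simp only [map_mul, map_pow, map_sub, A.inf.J_aeval (isFr_rvs hα) hι' hi, A.inf.cmp, ← hy, hu]
    rw [e]
    ring

end Pool.Agent.ZFy.GM
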