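import Pool.Agent.Lib.MP_751085_ag.ZF.G.Sa
import Pool.Agent.Lib.MP_751085_ag.ZF.G.Lim
import Pool.Agent.Lib.MP_751085_ag.ZF.G.Iter

/-! Good models: a function that is a power on all discs. -/

namespace Pool.Agent.ZFy.GM

open Pool.Agent.ZCy
open scoped Classical WithZero Polynomial PowerSeries
open WithZero (exp)
open IsLocalRing

variable {R F : Type} [CommRing R] [IsDomain R] [CDVR R] [Field F] {π t : R} {a : R[X] →+* F}
  {Θ : R[X]} {V : Vl (Fr R⟦X⟧)}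
  [IsAlgClosed (ResidueField R)] {W : Vl F} {l : ℕ}

theorem gslv_a {K : Type} [Field K] {V : Vl K} {y c e T : K} (h : V (y - c * e ^ l) < 1)
    (hT : V T ≤ 1) : V (y * T ^ l - c * (T * e) ^ l) < 1 := by
  rw [show y * T ^ l - c * (T * e) ^ l = (y - c * e ^ l) * T ^ l by ring, map_mul, map_pow]
  exact (mul_le_of_le_one_right' (pow_le_one' hT l)).trans_lt h

theorem gslv_b {K : Type} [Field K] {V : Vl K} {y c e T s η z k κ : K} (hl : l ≠ 0)
    (h : V (y - c * e ^ l) < 1) (hy : V y = 1) (hT : V T = 1) (hs : V s = 1) (hk : V k ≤ 1)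
    (h1 : V ((η - z / (y * T ^ (l - 1))) * s - k) < 1) (h2 : κ * s = e * k) :
    V (y * T ^ (l - 1) * η - z - c * (T * e) ^ (l - 1) * κ) < 1 := by
  obtain ⟨n, rfl⟩ := Nat.exists_eq_succ_of_ne_zero hl
  have n0 : ∀ {x : K}, V x = 1 → x ≠ 0 := fun h => V.ne_zero_iff.1 (h ▸ one_ne_zero)
  have y0 := n0 hy
  have T0 := n0 hT
  have s0 := n0 hs
  simp only [Nat.succ_eq_add_one, Nat.add_sub_cancel] at *
  have e1 : y * T ^ n * η - z - c * (T * e) ^ n * κ = y * T ^ n / s *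
      ((η - z / (y * T ^ n)) * s - k) + (y - c * e ^ (n + 1)) * (T ^ n / s * k) := by
    rw [eq_div_of_mul_eq s0 h2]
    field_simp
    ring
  rw [e1]
  refine V.map_add_lt ?_ ?_
  · rwa [map_mul, map_div₀, map_mul, map_pow, hy, hT, hs, one_pow, one_mul, div_one, one_mul]
  · rw [map_mul, map_mul, map_div₀, map_pow, hT, hs, one_pow, div_one, one_mul]
    exact (mul_le_of_le_one_right' hk).trans_lt h

omit [IsAlgClosed (ResidueField R)] in
theorem gslv_ps {θ : F} {χ : R[X][X]} {D : R[X]} {J : F →+* Fr R⟦X⟧} {ψ : R⟦X⟧ →+* R⟦X⟧}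
    (he : Etl a θ χ D) (h : Disc a Θ t J ψ) (G : R[X][X]) : ∃ y, J (G.eval₂ a θ) = fr R y := by
  obtain ⟨y, hy⟩ := h.mem_of_int ⟨χ, he.monic, he.root⟩
  refine ⟨G.eval₂ (ψ.comp (sh t)) y, ?_⟩
  rw [Polynomial.hom_eval₂, Polynomial.hom_eval₂, hy]
  exact congrArg (fun f => G.eval₂ f (fr R y)) (RingHom.ext h.cmp)

omit [IsDomain R] [CDVR R] [IsAlgClosed (ResidueField R)] in
theorem gslv_monic (hπ : Irreducible π) (hW : Cen a W (Polynomial.C π)) {p : R[X]}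
    (hp : p.Monic) : W (a p) = 1 :=
  (hW.1 p).eq_of_not_lt fun h => hπ.not_isUnit (isUnit_of_dvd_one
    (hp.coeff_natDegree ▸ (Polynomial.C_dvd_iff_dvd_coeff π p).1 ((hW.2 p).1 h) _))

omit [CDVR R] [IsAlgClosed (ResidueField R)] in
theorem gslv_inf {J : F →+* Fr R⟦X⟧} {ψ : R⟦X⟧ →+* R⟦X⟧} (ha : Function.Injective a)
    (h : Disc (rvs a) Θ 0 J ψ) (s : R) : ∃ ω : R⟦X⟧ˣ,
      J (a (Polynomial.X - Polynomial.C s)) * J (rvs a Polynomial.X) = fr R ω := by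
  have h1 : IsUnit (sh 0 (1 - Polynomial.C s * Polynomial.X)) := by
    rw [PowerSeries.isUnit_iff_constantCoeff, cc_sh]
    simp
  refine ⟨(h1.map ψ).unit, ?_⟩
  rw [IsUnit.unit_spec, ← h.cmp, ← map_mul, map_sub, map_sub, map_mul (rvs a), map_one, rvs_C,
    rvs_X, sub_mul, mul_inv_cancel₀ (grev_ne ha)]

/-- the functions with poles along `q` only -/
def gslv_B (a : R[X] →+* F) (θ : F) (q : R[X]) : Subring F where
  carrier := {x | ∃ (N : ℕ) (G : R[X][X]), x * a q ^ N = G.eval₂ a θ}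
  one_mem' := ⟨0, 1, by simp⟩
  zero_mem' := ⟨0, 0, by simp⟩
  mul_mem' := fun ⟨N, G, h⟩ ⟨N', G', h'⟩ => ⟨N + N', G * G', by
    rw [Polynomial.eval₂_mul, ← h, ← h']
    ring⟩
  add_mem' := fun ⟨N, G, h⟩ ⟨N', G', h'⟩ =>
    ⟨N + N', G * Polynomial.C q ^ N' + G' * Polynomial.C q ^ N, by
      simp only [Polynomial.eval₂_add, Polynomial.eval₂_mul, Polynomial.eval₂_pow,
        Polynomial.eval₂_C, ← h, ← h']
      ring⟩
  neg_mem' := fun ⟨N, G, h⟩ => ⟨N, -G, by rw [Polynomial.eval₂_neg, ← h, neg_mul]⟩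

theorem gslv_exp (n : ℕ) : (exp (-((n + 1 : ℕ) : ℤ)) : ℤᵐ⁰) ≤ exp (-(n : ℤ)) :=
  WithZero.exp_le_exp.2 (by omega)

/-- the iteration on all discs over `S` and at infinity -/
theorem Atl.seq (A : Atl a Θ) (hπ : Irreducible π) (hV : Cn1 (fr R) V (PowerSeries.C π))
    (hW : Cn1 a W (Polynomial.C π)) (hl : IsUnit (l : R)) {v : F} {G₀ : R[X][X]}
    (hv : v = G₀.eval₂ a A.θ) (h1 : W v = 1) {S : Finset (ResidueField R)} (c₀ : ResidueField R) :
    ∃ (m : ℕ) (x : ℕ → F), x 0 = v * (a (Polynomial.X - Polynomial.C (A.t c₀)) ^ m) ^ l ∧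
      (∀ n, W (x (n + 1) - x n) ≤ exp (-((n + 1 : ℕ) : ℤ))) ∧
      (∀ n, ∃ (N : ℕ) (G : R[X][X]),
        x n * a (∏ c ∈ S, (Polynomial.X - Polynomial.C (A.t c))) ^ N = G.eval₂ a A.θ) ∧
      (∀ c ∈ S, ∀ i, ∃ (k : ℕ) (g : R⟦X⟧), Ro V ((A.fam c).J i v) k ∧ ∀ n : ℕ,
        V ((A.fam c).J i (x n) - fr R (PowerSeries.X ^ k * g ^ l)) ≤ exp (-(n : ℤ))) ∧
      ∀ i, ∃ (k : ℤ) (g : R⟦X⟧), ∀ n : ℕ, V (A.inf.J i (x n) - fr R PowerSeries.X ^ k *
        (A.inf.J i (a (Polynomial.X - Polynomial.C (A.t c₀))) ^ m * fr R g) ^ l) ≤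
          exp (-(n : ℤ)) := by
  obtain ⟨m, hm⟩ := A.sa hπ hV
  have l0 : l ≠ 0 := by
    rintro rfl
    simp at hl
  have v1 : ∀ c i x, V ((A.fam c).J i x) = W x := fun c i =>
    A.good.disc_val hπ hW hV (Or.inl ((A.fam c).disc i))
  have v2 : ∀ i x, V (A.inf.J i x) = W x := fun i =>
    A.good.disc_val hπ hW hV (Or.inr (A.inf.disc i))
  have r1 : ∀ c i, ∃ (k : ℕ) (e : R⟦X⟧), Ro V ((A.fam c).J i v) k ∧
      V ((A.fam c).J i v - fr R PowerSeries.X ^ k * fr R e ^ l) < 1 := fun c i => by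
    obtain ⟨n, hn⟩ := exists_ro hπ hV.1 ((v1 c i v).trans h1)
    obtain ⟨y, hy⟩ := gslv_ps A.et ((A.fam c).disc i) G₀
    rw [← hv] at hy
    obtain ⟨k, rfl⟩ := Int.eq_ofNat_of_zero_le ((hy ▸ hn).nonneg hπ hV.1).1
    obtain ⟨ε, h2, h3⟩ := id hn
    obtain ⟨e, rfl⟩ := unit_root hl h2
    exact ⟨k, e, hn, by rwa [map_pow, zpow_natCast] at h3⟩
  have r2 : ∀ i, ∃ (k : ℤ) (e : R⟦X⟧),
      V (A.inf.J i v - fr R PowerSeries.X ^ k * fr R e ^ l) < 1 := fun i => by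
    obtain ⟨n, ε, h2, h3⟩ := exists_ro hπ hV.1 ((v2 i v).trans h1)
    obtain ⟨e, rfl⟩ := unit_root hl h2
    exact ⟨n, e, by rwa [map_pow] at h3⟩
  choose k e r0 r1 using r1
  choose k' e' r2 using r2
  choose ω hω using fun i => gslv_inf A.et.inj (A.inf.disc i) (A.t c₀)
  have hτ := gslv_monic hπ hW.1 (Polynomial.monic_X_sub_C (A.t c₀))
  have hq : W (a (∏ c ∈ S, (Polynomial.X - Polynomial.C (A.t c)))) = 1 := gslv_monic hπ hW.1
    (Polynomial.monic_prod_of_monic _ _ fun c _ => Polynomial.monic_X_sub_C _)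
  have hC : ∀ p, a p ∈ gslv_B a A.θ (∏ c ∈ S, (Polynomial.X - Polynomial.C (A.t c))) := fun p =>
    ⟨0, Polynomial.C p, by simp⟩
  have hv' : v ∈ gslv_B a A.θ (∏ c ∈ S, (Polynomial.X - Polynomial.C (A.t c))) :=
    ⟨0, G₀, by simp [hv]⟩
  have hT : ∀ c i, (1 : Fr R⟦X⟧) * fr R (e c i * (A.fam c).ψ i (sh (A.t c)
      (Polynomial.X - Polynomial.C (A.t c₀))) ^ m) =
      (A.fam c).J i (a (Polynomial.X - Polynomial.C (A.t c₀))) ^ m * fr R (e c i) := fun c i => by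
    rw [((A.fam c).disc i).cmp, map_mul, map_pow, one_mul, mul_comm]
  have hX := pv_X hπ hV.1
  have hu : W (rvs a Polynomial.X) = 1 := by
    rw [rvs_X, map_inv₀, gslv_monic hπ hW.1 Polynomial.monic_X, inv_one]
  have hB := hC (Polynomial.X - Polynomial.C (A.t c₀))
  generalize a (Polynomial.X - Polynomial.C (A.t c₀)) = τ at *
  obtain ⟨x, g, x0, x1, x2, x3⟩ := iter hπ hV hl (I := (Σ c : S, (A.fam c).ι) ⊕ A.inf.ι)
    (Sum.elim (fun p => (A.fam p.1).J p.2) A.inf.J) (ϖ := a (Polynomial.C π))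
    (by
      rintro (p | i)
      · exact ((A.fam p.1).disc p.2).const π
      · exact (congrArg _ (rvs_C π).symm).trans ((A.inf.disc i).const π))
    (gslv_B a A.θ (∏ c ∈ S, (Polynomial.X - Polynomial.C (A.t c)))) (hC _)
    (Sum.elim (fun p => fr R PowerSeries.X ^ k p.1 p.2) fun i => fr R PowerSeries.X ^ k' i)
    (Sum.elim (fun _ => 1) fun i => A.inf.J i τ ^ m)
    (by rintro (p | i) <;> simp [hX]) (by rintro (p | i) <;> simp [v2, hτ])
    (Sum.elim (fun p => e p.1 p.2 * (A.fam p.1).ψ p.2 (sh (A.t p.1)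
      (Polynomial.X - Polynomial.C (A.t c₀))) ^ m) e') (v₀ := v * (τ ^ m) ^ l)
    (mul_mem hv' (pow_mem (pow_mem hB m) l))
    (by
      rintro (p | i)
      · simp only [Sum.elim_inl, hT, map_mul ((A.fam _).J _), map_pow ((A.fam _).J _)]
        exact gslv_a (r1 _ _) (by rw [map_pow, v1, hτ, one_pow])
      · simp only [Sum.elim_inr, map_mul, map_pow]
        exact gslv_a (r2 _) (by rw [map_pow, v2, hτ, one_pow]))
    (fun z hz => by
      obtain ⟨η, N, G, h2, h3, h4⟩ := hm S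
        (fun c i => if h : c ∈ S then z (.inl ⟨⟨c, h⟩, i⟩) /
          ((A.fam c).J i v * ((A.fam c).J i τ ^ m) ^ (l - 1)) else 0)
        (fun i => z (.inr i) / (A.inf.J i v * (A.inf.J i τ ^ m) ^ (l - 1)))
        (fun c i => by
          split_ifs
          · simpa [v1, h1, hτ] using hz _
          · simp) fun i => by simpa [v2, h1, hτ] using hz _
      refine ⟨v * (τ ^ m) ^ (l - 1) * η,
        mul_mem (mul_mem hv' (pow_mem (pow_mem hB m) _)) ⟨N, G, h2⟩, ?_⟩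
      rintro (p | i)
      · obtain ⟨y, hy⟩ := h3 p.1 p.1.2 p.2
        rw [dif_pos p.1.2] at hy
        refine ⟨e p.1 p.2 * y, ?_⟩
        simp only [Sum.elim_inl, hT, map_mul ((A.fam _).J _), map_pow ((A.fam _).J _)]
        exact gslv_b l0 (r1 _ _) ((v1 _ _ _).trans h1) (by rw [map_pow, v1, hτ, one_pow])
          (map_one V) (hV.1.1 y) (by rwa [mul_one]) (by rw [map_mul, one_mul, mul_one])
      · obtain ⟨y, hy⟩ := h4 i
        refine ⟨e' i * y * ↑(ω i)⁻¹ ^ m, ?_⟩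
        simp only [Sum.elim_inr, map_mul (A.inf.J _), map_pow (A.inf.J _)]
        refine gslv_b l0 (r2 _) ((v2 _ _).trans h1) (by rw [map_pow, v2, hτ, one_pow])
          (by rw [map_pow, v2, hu, one_pow]) (hV.1.1 y) hy ?_
        rw [mul_right_comm, ← mul_pow, hω, ← map_pow, ← map_mul, ← map_mul, mul_left_comm,
          ← mul_pow, Units.mul_inv, one_pow, mul_one])
  refine ⟨m, x, x0, fun n => ?_, x1, fun c hc i => ⟨k c i, g (.inl ⟨⟨c, hc⟩, i⟩), r0 c i,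
    fun n => ?_⟩, fun i => ⟨k' i, g (.inr i), fun n => (x3 n (.inr i)).trans (gslv_exp n)⟩⟩
  · obtain ⟨y, ⟨N, G, h2⟩, h3⟩ := x2 n
    rw [h3, add_sub_cancel_left, giter_le hW]
    have h4 := A.et.le_one hW.1.1 G
    rwa [← h2, map_mul, map_pow, hq, one_pow, mul_one] at h4
  · simpa only [Sum.elim_inl, one_mul, map_mul, map_pow] using
      (x3 n (.inl ⟨⟨c, hc⟩, i⟩)).trans (gslv_exp n)

/-- the limit of `Atl.seq` -/
theorem Atl.solve (A : Atl a Θ) (hπ : Irreducible π) (hV : Cn1 (fr R) V (PowerSeries.C π))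
    (hW : Cn1 a W (Polynomial.C π)) (hl : IsUnit (l : R)) {v : F} {G₀ : R[X][X]}
    (hv : v = G₀.eval₂ a A.θ) (h1 : W v = 1) (S : Finset (ResidueField R)) (c₀ : ResidueField R) :
    ∃ (m : ℕ) (U : F) (G : R[X][X]), a A.D * U = G.eval₂ a A.θ ∧
      W (U - v * (a (Polynomial.X - Polynomial.C (A.t c₀)) ^ m) ^ l) < 1 ∧
      (∀ c ∈ S, ∀ i, ∃ (k : ℕ) (z : Fr R⟦X⟧), Ro V ((A.fam c).J i v) k ∧
        (A.fam c).J i U = fr R PowerSeries.X ^ k * z ^ l) ∧
      ∀ i, ∃ (k : ℤ) (z : Fr R⟦X⟧), A.inf.J i U = fr R PowerSeries.X ^ k * z ^ l := by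
  obtain ⟨m, x, x0, x1, x2, x3, x4⟩ := A.seq hπ hV hW hl hv h1 (S := S) c₀
  choose k g x4 using x4
  obtain ⟨M, hM⟩ := Finite.exists_le fun i => (k i).natAbs
  obtain ⟨U, G, h2, h3⟩ := A.lim hπ hV hW x (m * l + M) (fun n => (x1 n).trans (gslv_exp n))
    (fun n c i => by
      by_cases hc : c ∈ S
      · obtain ⟨_, _, -, h⟩ := x3 c hc i
        exact ⟨_, h n⟩
      obtain ⟨N, G, h⟩ := x2 n
      obtain ⟨y, hy⟩ := gslv_ps A.et ((A.fam c).disc i) G
      have hq : IsUnit (sh (A.t c) (∏ c ∈ S, (Polynomial.X - Polynomial.C (A.t c)))) := by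
        rw [PowerSeries.isUnit_iff_constantCoeff, cc_sh, Polynomial.eval_prod]
        refine IsUnit.prod_iff.2 fun c' hc' => by_contra fun hn => hc ?_
        have h4 := (residue_eq_zero_iff _).2 hn
        rw [Polynomial.eval_sub, Polynomial.eval_X, Polynomial.eval_C, map_sub, A.res, A.res,
          sub_eq_zero] at h4
        rwa [h4]
      obtain ⟨u, hu⟩ := ((hq.map ((A.fam c).ψ i)).pow N).exists_right_inv
      refine ⟨y * u, ?_⟩
      rw [map_mul, ← hy, ← h, map_mul, map_pow, ((A.fam c).disc i).cmp, mul_assoc, ← map_pow,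
        ← map_mul, hu, map_one, mul_one, sub_self, map_zero]
      exact zero_le)
    (fun n i => by
      obtain ⟨ω, hω⟩ := gslv_inf A.et.inj (A.inf.disc i) (A.t c₀)
      obtain ⟨e, ε, he, -, -, h⟩ := (A.inf.disc i).root (s := 0) (by simp) (by simp)
      have h4 := h Polynomial.X
      rw [Polynomial.eval₂_X, map_zero, zero_add] at h4
      obtain ⟨r, hr⟩ := Int.eq_ofNat_of_zero_le (a := k i + (e * M : ℕ)) (by
        have := (hM i).trans (Nat.le_mul_of_pos_left M he)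
        omega)
      have h5 : fr R PowerSeries.X ^ k i * fr R PowerSeries.X ^ (e * M) =
          fr R PowerSeries.X ^ r := by
        rw [← zpow_natCast, ← zpow_add₀ gps0_X, hr, zpow_natCast]
      refine ⟨PowerSeries.X ^ r * ε ^ M * (ω.1 ^ m * g i) ^ l, ?_⟩
      have h6 : A.inf.J i (x n * rvs a Polynomial.X ^ (m * l + M)) -
          fr R (PowerSeries.X ^ r * ε ^ M * (ω.1 ^ m * g i) ^ l) =
          (A.inf.J i (x n) - fr R PowerSeries.X ^ k i *
            (A.inf.J i (a (Polynomial.X - Polynomial.C (A.t c₀))) ^ m * fr R (g i)) ^ l) *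
            A.inf.J i (rvs a Polynomial.X) ^ (m * l + M) := by
        have h7 : A.inf.J i (rvs a Polynomial.X) ^ M =
            fr R PowerSeries.X ^ (e * M) * fr R ε ^ M := by
          rw [h4, map_mul, map_pow, mul_pow, pow_mul]
        simp only [map_mul, map_pow, ← hω, ← h5, pow_add, h7]
        ring
      rw [h6, map_mul, map_pow, h4]
      exact (mul_le_of_le_one_right' (pow_le_one' (hV.1.1 _) _)).trans (x4 i n))
  have key : ∀ (J : F →+* Fr R⟦X⟧) (y : Fr R⟦X⟧), (∀ x, V (J x) = W x) →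
      (∀ n : ℕ, V (J (x n) - y) ≤ exp (-(n : ℤ))) → J U = y := fun J y hJ h =>
    sub_eq_zero.1 (eq_zero_of_le_exp V fun n => by
      rw [← sub_add_sub_cancel _ (J (x n)), ← map_sub]
      exact V.map_add_le ((hJ _).trans_le (h3 n)) (h n))
  refine ⟨m, U, G, h2, ?_, fun c hc i => ?_, fun i => ⟨k i, _,
    key _ _ (A.good.disc_val hπ hW hV (Or.inr (A.inf.disc i))) (x4 i)⟩⟩
  · rw [← x0, ← sub_add_sub_cancel _ (x 1), lt_one_iff_le_exp]
    exact W.map_add_le (h3 1) (x1 0)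
  · obtain ⟨k, g, h4, h5⟩ := x3 c hc i
    refine ⟨k, fr R g, h4, ?_⟩
    rw [key _ _ (A.good.disc_val hπ hW hV (Or.inl ((A.fam c).disc i))) h5, map_mul, map_pow,
      map_pow]

end Pool.Agent.ZFy.GM
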