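import Pool.Agent.Lib.MP_751085_ag.ZF.G.New
import Pool.Agent.Lib.MP_751085_ag.ZF.G.Sub
import Pool.Agent.Lib.MP_751085_ag.ZC.V.Wei
import Pool.Agent.Lib.MP_751085_ag.ZC.CNu

/-! Good models: a smooth point of a relative curve has a parameter. -/

namespace Pool.Agent.ZFy.GM

open Pool.Agent.ZCy
open scoped Classical WithZero Polynomial PowerSeries
open WithZero (exp)
open IsLocalRing

/-- add a linear equation over `R⟦X⟧`, select a square system, apply the Newton method -/
theorem param {R B : Type} [CommRing R] [IsLocalRing R] [IsAdicComplete (maximalIdeal R) R]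
    [CommRing B] [IsLocalRing B] [IsAdicComplete (maximalIdeal B) B] (σ : R →+* B) [IsLocalHom σ]
    (hσ : ∀ y, ∃ x, y - σ x ∈ maximalIdeal B) {n : ℕ} (y : Fin n → B) (𝓔 : Set (MP (Fin n) R))
    (h0 : ∀ G ∈ 𝓔, MvPolynomial.eval₂ σ y G = 0) (w : Fin n → ResidueField B)
    (h1 : ∀ v : Fin n → ResidueField B, (∀ G ∈ 𝓔,
      ∑ j, residue B (MvPolynomial.eval₂ σ y (MvPolynomial.pderiv j G)) * v j = 0) →
        ∃ β : ResidueField B, v = β • w) :
    ∃ e : R⟦X⟧ →+* B, (∀ r, e (PowerSeries.C r) = σ r) ∧ (∀ f, IsUnit (e f) → IsUnit f) ∧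
      ∀ j, y j ∈ e.range := by
  choose r hr using fun j => hσ (y j)
  obtain ⟨c, hc⟩ : ∃ c : Fin n → R, ∀ β : ResidueField B,
      (fun j => residue B (σ (c j))) ⬝ᵥ β • w = 0 → β • w = 0 := by
    by_cases hw : w = 0
    · exact ⟨0, fun β _ => by rw [hw, smul_zero]⟩
    · obtain ⟨m, hm⟩ := Function.ne_iff.1 hw
      refine ⟨Pi.single m 1, fun β h => ?_⟩
      rw [dotProduct, Finset.sum_eq_single m (fun j _ hj => by simp [hj]) (by simp)] at h
      rw [show β = 0 by simpa [show w m ≠ 0 from hm] using h, zero_smul]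
  have hx : ∑ j, σ (c j) * (y j - σ (r j)) ∈ maximalIdeal B :=
    sum_mem fun j _ => Ideal.mul_mem_left _ _ (hr j)
  obtain ⟨e, e1, e2⟩ := exists_evl _ σ hx
  have e3 : e.comp PowerSeries.C = σ := RingHom.ext e1
  have e4 : ∀ f ∈ maximalIdeal R⟦X⟧, e f ∈ maximalIdeal B := fun f hf => by
    rw [f.eq_X_mul_shift_add_const, map_add, map_mul, e1, e2]
    exact add_mem (Ideal.mul_mem_right _ _ hx) (map_nonunit σ _ (vwei_mem.1 hf))
  have e5 : ∀ f, IsUnit (e f) → IsUnit f := fun f h => by_contra fun hf => e4 f hf h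
  let P : Option 𝓔 → MP (Fin n) R⟦X⟧ := fun o => o.elim
    (∑ j, MvPolynomial.C (PowerSeries.C (c j)) * (MvPolynomial.X j -
      MvPolynomial.C (PowerSeries.C (r j))) - MvPolynomial.C PowerSeries.X)
    fun G => MvPolynomial.map PowerSeries.C G.1
  have p1 : ∀ o, MvPolynomial.eval₂ e y (P o) = 0 := by
    rintro (_ | G)
    · simp [P, MvPolynomial.eval₂_sub, MvPolynomial.eval₂_sum, e1, e2]
    · exact (MvPolynomial.eval₂_map _ _ _ _).trans (e3 ▸ h0 _ G.2)
  obtain ⟨a, ha⟩ := cnu_minor (fun o j => residue B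
    (MvPolynomial.eval₂ e y (MvPolynomial.pderiv j (P o)))) fun v hv => by
      obtain ⟨β, rfl⟩ := h1 v fun G hG => by
        simpa only [P, Option.elim, MvPolynomial.pderiv_map, MvPolynomial.eval₂_map, e3,
          dotProduct] using hv (some ⟨G, hG⟩)
      refine hc β (.trans (congrArg (· ⬝ᵥ _) (funext fun j => ?_)) (hv none))
      simp [P, Pi.single_apply, e1]
  have j1 : residue B (jdt e (fun i => P (a i)) y) ≠ 0 := fun h =>
    ha (((residue B).map_det _).symm.trans h)
  have r1 : (fun j => (residue B).comp e (PowerSeries.C (r j))) = fun j => residue B (y j) :=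
    funext fun j => by
      rw [RingHom.comp_apply, e1, eq_comm, ← sub_eq_zero, ← map_sub]
      exact (residue_eq_zero_iff _).2 (hr j)
  have := isAdicComplete_ps R
  obtain ⟨x, x1, x2⟩ := newton_ex (RingHom.id R⟦X⟧) (fun i => P (a i)) (maximalIdeal _)
    (x₀ := fun j => PowerSeries.C (r j)) (fun i hi => (hi.map ((residue B).comp e)).ne_zero (by
      rw [MvPolynomial.eval₂_comp_left, RingHom.comp_id, Function.comp_def, r1,
        ← Function.comp_def, ← MvPolynomial.eval₂_comp_left, p1, map_zero]))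
    (e5 _ ((residue_ne_zero_iff_isUnit _).1 (by
      rw [← RingHom.comp_apply, map_jdt, RingHom.comp_id, r1, ← map_jdt]
      exact j1)))
  refine ⟨e, e1, e5, fun j => ⟨x j, (congrFun (newton_uniq e (fun i => P (a i))
    (x' := fun j => e (x j)) (fun i => p1 _) (fun i => ?_) ((residue_ne_zero_iff_isUnit _).1 j1)
    fun i => ?_) j).symm⟩⟩
  · have := congrArg e (x2 i)
    rwa [MvPolynomial.eval₂_comp_left, RingHom.comp_id, map_zero] at this
  · have := sub_mem (hr i) (e4 _ (x1 i))
    rwa [map_sub, e1, sub_sub_sub_cancel_right] at this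

end Pool.Agent.ZFy.GM
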