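import Pool.Agent.Lib.MP_751085_ag.ZF.G.SmA
import Pool.Agent.Lib.MP_751085_ag.ZC.L.Nrm
import Pool.Agent.Lib.MP_751085_ag.ZF.C.Defs

/-! Good models: points of a chart over a normal local ring. -/

namespace Pool.Agent.ZFy.GM

open Pool.Agent.ZCy
open scoped Classical WithZero Polynomial PowerSeries
open WithZero (exp)
open IsLocalRing

theorem gsmb_norm {K σ : Type} [CommRing K] {N : ℕ} {GG : Set (Fm N K)} (c : Chart K σ N GG)
    {T 𝕂 : Type} [CommRing T] [IsDomain T] [IsLocalRing T] [IsIntegrallyClosed T] [Field 𝕂]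
    [Algebra T 𝕂] [IsFractionRing T 𝕂] (φ : K →+* T) {x : Fin (N + 1) → 𝕂}
    (hx : Zer GG ((algebraMap T 𝕂).comp φ) x) {i₀ : Option (Option σ)}
    (h0 : MvPolynomial.eval₂ ((algebraMap T 𝕂).comp φ) x (c.f i₀) ≠ 0)
    (hi : ∀ i, ∃ s : T, MvPolynomial.eval₂ ((algebraMap T 𝕂).comp φ) x (c.f i) =
      algebraMap T 𝕂 s * MvPolynomial.eval₂ ((algebraMap T 𝕂).comp φ) x (c.f i₀)) :
    ∃ (u : 𝕂) (y : Fin (N + 1) → T) (j : Fin (N + 1)), u ≠ 0 ∧ (∀ i, algebraMap T 𝕂 (y i) = u * x i) ∧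
      y j = 1 ∧ IsUnit (MvPolynomial.eval₂ φ y (c.f i₀)) := by
  set ψ := (algebraMap T 𝕂).comp φ with hψ
  set F := MvPolynomial.eval₂ ψ x (c.f i₀) with hF
  have hinj := IsFractionRing.injective T 𝕂
  choose s hs using hi
  have hint : ∀ j, ∃ t : T, algebraMap T 𝕂 t = F⁻¹ * x j ^ c.d := fun j => by
    obtain ⟨m, H, hHm, hHd, hHh, hH⟩ := c.int j
    refine IsIntegrallyClosed.isIntegral_iff.1 ⟨H.map (MvPolynomial.eval₂Hom φ s), hHm.map _, ?_⟩
    have h1 := nrm_scale_ev ψ F⁻¹ (x j ^ c.d) (fun i => MvPolynomial.eval₂ ψ x (c.f i)) hHd hHh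
    rw [hH 𝕂 ψ x hx, mul_zero] at h1
    have h2 : (fun i => F⁻¹ * MvPolynomial.eval₂ ψ x (c.f i)) = fun i => algebraMap T 𝕂 (s i) := by
      funext i
      rw [hs i, mul_comm (algebraMap T 𝕂 _), ← mul_assoc, inv_mul_cancel₀ h0, one_mul]
    rw [h2, ev_def] at h1
    rw [Polynomial.eval₂_map, MvPolynomial.comp_eval₂Hom]
    exact h1
  choose t ht using hint
  have hex : ∃ j, IsUnit (t j) := by
    by_contra hne
    have hmem : ∀ j, t j ∈ IsLocalRing.maximalIdeal T := fun j hj => hne ⟨j, hj⟩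
    have hmon : ∀ μ ∈ (c.f i₀).support, ∃ b ∈ IsLocalRing.maximalIdeal T,
        algebraMap T 𝕂 b = F⁻¹ * ∏ i ∈ μ.support, x i ^ μ i := fun μ hμ => by
      have hdeg := (c.hf i₀).degree_eq_sum_deg_support hμ
      have hpow : (F⁻¹ * ∏ i ∈ μ.support, x i ^ μ i) ^ c.d =
          algebraMap T 𝕂 (∏ i ∈ μ.support, t i ^ μ i) := by
        rw [map_prod]
        simp only [map_pow, ht, mul_pow]
        rw [Finset.prod_mul_distrib, Finset.prod_pow_eq_pow_sum, ← hdeg, ← Finset.prod_pow]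
        congr 1
        exact Finset.prod_congr rfl fun i _ => by rw [← pow_mul, ← pow_mul, mul_comm]
      obtain ⟨b, hb⟩ : ∃ b : T, algebraMap T 𝕂 b = F⁻¹ * ∏ i ∈ μ.support, x i ^ μ i :=
        IsIntegrallyClosed.isIntegral_iff.1
          (IsIntegral.of_pow c.dpos (hpow ▸ isIntegral_algebraMap))
      refine ⟨b, (IsLocalRing.maximalIdeal.isMaximal T).isPrime.mem_of_pow_mem c.d ?_, hb⟩
      have hb' : b ^ c.d = ∏ i ∈ μ.support, t i ^ μ i := hinj (by rw [map_pow, hb, hpow])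
      have hsup : μ.support.Nonempty := by
        rw [Finset.nonempty_iff_ne_empty]
        intro he
        rw [he, Finset.sum_empty] at hdeg
        exact c.dpos.ne' hdeg
      obtain ⟨i, hi⟩ := hsup
      rw [hb', ← Finset.mul_prod_erase _ _ hi]
      exact Ideal.mul_mem_right _ _ (Ideal.pow_mem_of_mem _ (hmem i) _
        (Nat.pos_of_ne_zero (Finsupp.mem_support_iff.1 hi)))
    choose! b hbm hb using hmon
    have h1 : (1 : T) = ∑ μ ∈ (c.f i₀).support, φ ((c.f i₀).coeff μ) * b μ := by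
      apply hinj
      rw [map_one, map_sum, ← inv_mul_cancel₀ h0]
      have : F = ∑ μ ∈ (c.f i₀).support, ψ ((c.f i₀).coeff μ) * ∏ i ∈ μ.support, x i ^ μ i :=
        MvPolynomial.eval₂_eq _ _ _
      calc F⁻¹ * F = F⁻¹ * ∑ μ ∈ (c.f i₀).support,
            ψ ((c.f i₀).coeff μ) * ∏ i ∈ μ.support, x i ^ μ i := by rw [← this]
        _ = _ := by
          rw [Finset.mul_sum]
          refine Finset.sum_congr rfl fun μ hμ => ?_
          rw [map_mul, hb μ hμ, hψ, RingHom.comp_apply]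
          ring
    refine (IsLocalRing.maximalIdeal.isMaximal T).ne_top ((Ideal.eq_top_iff_one _).2 ?_)
    rw [h1]
    exact Ideal.sum_mem _ fun μ hμ => Ideal.mul_mem_left _ _ (hbm μ hμ)
  obtain ⟨j, v, hv⟩ := hex
  have htj : algebraMap T 𝕂 (t j) ≠ 0 := (map_ne_zero_iff _ hinj).2 (hv ▸ v.ne_zero)
  have hxj : x j ≠ 0 := fun h => htj (by rw [ht, h, zero_pow c.dpos.ne', mul_zero])
  have hvinv : algebraMap T 𝕂 ((v⁻¹ : Tˣ) : T) = (algebraMap T 𝕂 (t j))⁻¹ :=
    eq_inv_of_mul_eq_one_left (by rw [← map_mul, ← hv, Units.inv_mul, map_one])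
  have hy : ∀ i, ∃ y : T, algebraMap T 𝕂 y = (x j)⁻¹ * x i := fun i => by
    have : ((x j)⁻¹ * x i) ^ c.d = algebraMap T 𝕂 (t i * ((v⁻¹ : Tˣ) : T)) := by
      rw [map_mul, hvinv, ht, ht, mul_pow, inv_pow]
      have := pow_ne_zero c.d hxj
      field_simp
    exact IsIntegrallyClosed.isIntegral_iff.1
      (IsIntegral.of_pow c.dpos (this ▸ isIntegral_algebraMap))
  choose y hy using hy
  refine ⟨(x j)⁻¹, y, j, inv_ne_zero hxj, hy, hinj (by rw [hy, inv_mul_cancel₀ hxj, map_one]), ?_⟩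
  refine IsUnit.of_mul_eq_one (t j) (hinj ?_)
  rw [map_mul, map_one, MvPolynomial.eval₂_comp_left, ← hψ,
    show (algebraMap T 𝕂) ∘ y = fun i => (x j)⁻¹ * x i from funext hy,
    nrm_scale ψ _ x (c.hf i₀), ← hF, ht, inv_pow]
  have := pow_ne_zero c.d hxj
  field_simp

variable {O σ B : Type} [CommRing O] [CommRing B] [IsDomain B] [IsLocalRing B] {N : ℕ}
  {GG : Set (Fm N O)} (c : Chart O σ N GG)

/-- normalise the point `c.pv φ ξ θ` -/
theorem chart_pt [IsIntegrallyClosed B] (hG : ∀ G ∈ GG, ∃ m, G.IsHomogeneous m) (φ : O →+* B)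
    (ξ : Option σ → B) (θ : B) (h0 : ev φ ξ θ c.χ = 0) (hD : MvPolynomial.eval₂ φ ξ c.D ≠ 0) :
    ∃ (y : Fin (N + 1) → B) (k : Fin (N + 1)), y k = 1 ∧ Zer GG φ y ∧
      IsUnit (MvPolynomial.eval₂ φ y (c.f none)) ∧
      (∀ i, MvPolynomial.eval₂ φ y (c.f (some i)) = ξ i * MvPolynomial.eval₂ φ y (c.f none)) ∧
      MvPolynomial.eval₂ φ y c.th = θ * MvPolynomial.eval₂ φ y (c.f none) := by
  have hinj := IsFractionRing.injective B (Fr B)
  set a := algebraMap B (Fr B) with ha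
  have h1 : ev (a.comp φ) (fun i => a (ξ i)) (a θ) c.χ = 0 := by rw [← map_ev, h0, map_zero]
  have h2 : MvPolynomial.eval₂ (a.comp φ) (fun i => a (ξ i)) c.D ≠ 0 := fun e =>
    hD (hinj ((MvPolynomial.eval₂_comp_left a φ ξ _).trans (e.trans (map_zero a).symm)))
  set x := c.pv (a.comp φ) (fun i => a (ξ i)) (a θ) with hx
  have ex : ∀ G, ev (a.comp φ) (fun i => a (ξ i)) (a θ) (sb c.pp G) =
      MvPolynomial.eval₂ (a.comp φ) x G := fun G => ev_sb _ _ _ _ G
  have hd : ∀ p, c.χ ∣ p → ev (a.comp φ) (fun i => a (ξ i)) (a θ) p = 0 := by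
    rintro _ ⟨q, rfl⟩
    rw [map_mul, h1, zero_mul]
  have hZ : Zer GG (a.comp φ) x := fun G hG => ex G ▸ hd _ (c.dv_on G hG)
  have hf : ∀ i, MvPolynomial.eval₂ (a.comp φ) x (c.f (some i)) =
      a (ξ i) * MvPolynomial.eval₂ (a.comp φ) x (c.f none) := fun i => by
    have := hd _ (c.dv_f i)
    rwa [map_sub, map_mul, ev_C, MvPolynomial.eval₂_X, ex, ex, sub_eq_zero] at this
  have ht : MvPolynomial.eval₂ (a.comp φ) x c.th =
      a θ * MvPolynomial.eval₂ (a.comp φ) x (c.f none) := by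
    have := hd _ c.dv_th
    rwa [map_sub, map_mul, ev_X, ex, ex, sub_eq_zero] at this
  obtain ⟨u, y, k, -, hy, hk, hu⟩ := gsmb_norm c φ hZ (i₀ := none)
    (ex _ ▸ (c.ne _ _ _ _ h1 h2).1) fun i => by
      cases i with
      | none => exact ⟨1, by rw [map_one, one_mul]⟩
      | some i => exact ⟨_, hf i⟩
  have hs : ∀ {G : Fm N O} {m : ℕ}, G.IsHomogeneous m →
      a (MvPolynomial.eval₂ φ y G) = u ^ m * MvPolynomial.eval₂ (a.comp φ) x G := fun h => by
    rw [MvPolynomial.eval₂_comp_left, ← nrm_scale _ _ _ h]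
    exact congrArg (MvPolynomial.eval₂ _ · _) (funext hy)
  refine ⟨y, k, hk, fun G h => hinj ?_, hu, fun i => hinj ?_, hinj ?_⟩
  · obtain ⟨m, hm⟩ := hG G h
    rw [hs hm, hZ G h, mul_zero, map_zero]
  · rw [map_mul, hs (c.hf _), hs (c.hf _), hf, mul_left_comm]
  · rw [map_mul, hs c.hth, hs (c.hf _), ht, mul_left_comm]

omit [IsDomain B] in
theorem gsmb_dr {R : Type} [CommRing R] (ψ : O →+* R) (s : R →+* B) (y : Fin (N + 1) → B)
    (v : Fin (N + 1) → ResidueField B) (G : Fm N O) :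
    ∑ j, residue B (MvPolynomial.eval₂ s y (MvPolynomial.pderiv j (MvPolynomial.map ψ G))) * v j =
      dr ((residue B).comp (s.comp ψ)) (fun j => residue B (y j)) v G :=
  Finset.sum_congr rfl fun j _ => by
    rw [MvPolynomial.pderiv_map, MvPolynomial.eval₂_map, MvPolynomial.eval₂_comp_left]
    rfl

/-- `param` for the equations `GG`, `f i - η (X i) f₀`, `X k - 1` -/
theorem chart_param {R : Type} [CommRing R] [IsLocalRing R] [IsAdicComplete (maximalIdeal R) R]
    [IsIntegrallyClosed B] [IsAdicComplete (maximalIdeal B) B]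
    (hG : ∀ G ∈ GG, ∃ m, G.IsHomogeneous m) {Φ : MP σ O} (hs : c.SM Φ) (η : MP σ O →+* R)
    (hη : IsUnit (η Φ)) (s : R →+* B) [IsLocalHom s] (hσ : ∀ y, ∃ x, y - s x ∈ maximalIdeal B)
    (τ θ : B) (h0 : ev (s.comp (η.comp MvPolynomial.C))
      (fun i => i.elim τ fun j => s (η (MvPolynomial.X j))) θ c.χ = 0)
    (hD : MvPolynomial.eval₂ (s.comp (η.comp MvPolynomial.C))
      (fun i => i.elim τ fun j => s (η (MvPolynomial.X j))) c.D ≠ 0) :
    ∃ e : R⟦X⟧ →+* B, (∀ r, e (PowerSeries.C r) = s r) ∧ τ ∈ e.range ∧ θ ∈ e.range := by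
  obtain ⟨y, k, hk, hZ, hu, hf, ht⟩ := chart_pt c hG _ _ θ h0 hD
  set ψ := η.comp MvPolynomial.C with hψ
  have hr : ∀ G, MvPolynomial.eval₂ ((residue B).comp (s.comp ψ)) (fun j => residue B (y j)) G =
      residue B (MvPolynomial.eval₂ (s.comp ψ) y G) := fun G =>
    (MvPolynomial.eval₂_comp_left _ _ _ _).symm
  have hΦ : MvPolynomial.eval₂ ((residue B).comp (s.comp ψ))
      (fun i => residue B (s (η (MvPolynomial.X i)))) Φ ≠ 0 := by
    have : MvPolynomial.eval₂Hom ((residue B).comp (s.comp ψ))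
        (fun i => residue B (s (η (MvPolynomial.X i)))) = ((residue B).comp s).comp η :=
      MvPolynomial.ringHom_ext (fun r => by simp [hψ]) fun i => by simp
    rw [← MvPolynomial.coe_eval₂Hom, this]
    exact (hη.map ((residue B).comp s)).ne_zero
  obtain ⟨w, hw⟩ := hs _ _ _ hΦ (fun j => residue B (y j))
    (fun e => one_ne_zero (by simpa only [hk, map_one, Pi.zero_apply] using congrFun e k))
    (fun G h => by rw [hr, hZ G h, map_zero]) fun i => by rw [hr, hr, hf, map_mul]; rfl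
  obtain ⟨e, he, hl, hy⟩ := param s hσ y {E | (∃ G ∈ GG, E = MvPolynomial.map ψ G) ∨
      (∃ i, E = MvPolynomial.map ψ (c.f (some (some i))) - MvPolynomial.C (η (MvPolynomial.X i)) *
        MvPolynomial.map ψ (c.f none)) ∨ E = MvPolynomial.X k - 1} (by
      rintro _ (⟨G, h, rfl⟩ | ⟨i, rfl⟩ | rfl)
      · rw [MvPolynomial.eval₂_map, hZ G h]
      · rw [MvPolynomial.eval₂_sub, MvPolynomial.eval₂_mul, MvPolynomial.eval₂_C,
          MvPolynomial.eval₂_map, MvPolynomial.eval₂_map, hf, sub_eq_zero]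
        rfl
      · rw [MvPolynomial.eval₂_sub, MvPolynomial.eval₂_X, MvPolynomial.eval₂_one, hk, sub_self])
    (w - w k • fun j => residue B (y j)) fun v hv => by
      obtain ⟨α, β, e⟩ := hw v (fun G h => gsmb_dr ψ s y v G ▸ hv _ (Or.inl ⟨G, h, rfl⟩)) fun i => by
        have := hv _ (Or.inr (Or.inl ⟨i, rfl⟩))
        rw [← gsmb_dr, ← gsmb_dr, Finset.mul_sum, ← sub_eq_zero, ← Finset.sum_sub_distrib, ← this]
        refine Finset.sum_congr rfl fun j _ => ?_
        rw [map_sub, MvPolynomial.pderiv_C_mul, MvPolynomial.eval₂_sub, MvPolynomial.eval₂_mul,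
          MvPolynomial.eval₂_C, map_sub, map_mul]
        ring
      have h1 : v k = 0 := by
        have := hv _ (Or.inr (Or.inr rfl))
        rw [Finset.sum_eq_single k (fun j _ hj => by simp [MvPolynomial.pderiv_X_of_ne hj.symm])
          (by simp)] at this
        simpa using this
      have h2 : α = -(β * w k) := by
        have := congrFun e k
        simp only [Pi.add_apply, Pi.smul_apply, smul_eq_mul, hk, map_one, mul_one, h1] at this
        exact eq_neg_of_add_eq_zero_left this.symm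
      refine ⟨β, e.trans ?_⟩
      rw [h2, smul_sub, smul_smul, neg_smul, neg_add_eq_sub]
  choose z hz using hy
  have h3 : ∀ G, MvPolynomial.eval₂ (s.comp ψ) y G =
      e (MvPolynomial.eval₂ (PowerSeries.C.comp ψ) z G) := fun G => by
    rw [MvPolynomial.eval₂_comp_left]
    congr 1
    · exact RingHom.ext fun r => (he _).symm
    · exact funext fun j => (hz j).symm
  obtain ⟨u, hu'⟩ := (hl _ (h3 _ ▸ hu)).exists_right_inv
  have h4 : ∀ (G : Fm N O) (x : B), MvPolynomial.eval₂ (s.comp ψ) y G =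
      x * MvPolynomial.eval₂ (s.comp ψ) y (c.f none) → x ∈ e.range := fun G x h =>
    ⟨MvPolynomial.eval₂ (PowerSeries.C.comp ψ) z G * u, by
      rw [map_mul, ← h3, h, h3, mul_assoc, ← map_mul, hu', map_one, mul_one]⟩
  exact ⟨e, he, h4 _ _ (hf none), h4 _ _ ht⟩

end Pool.Agent.ZFy.GM
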