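import Pool.Agent.Lib.MP_751085_ag.ZF.G.Cvr
import Pool.Agent.Lib.MP_751085_ag.ZF.G.Wei

/-! Good models: discs from parameters. -/

namespace Pool.Agent.ZFy.GM

open Pool.Agent.ZCy
open scoped Classical WithZero Polynomial PowerSeries
open WithZero (exp)
open IsLocalRing

variable {R F : Type} [CommRing R] [IsDomain R] [CDVR R] [IsAlgClosed (ResidueField R)] [Field F]
  {t : R} {a : R[X] →+* F} {θ : F} {χ : R[X][X]} {D : R[X]}

theorem gsmc_B {L : Type} [Field L] {b : R⟦X⟧ →+* L} (hb : Function.Injective b) {z : L}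
    {G p q : R⟦X⟧[X]} {d : R⟦X⟧} (hm : G.Monic) (hz : G.eval₂ b z = 0)
    (hd : Polynomial.C d = p * G + q * G.derivative) (h0 : d ≠ 0) :
    ∃ (B : Type) (_ : CommRing B) (_ : IsDomain B) (_ : IsLocalRing B) (_ : IsIntegrallyClosed B)
      (_ : IsAdicComplete (maximalIdeal B) B) (b' : R⟦X⟧ →+* B) (_ : IsLocalHom b') (z' : B)
      (μ : B →+* L), Function.Injective μ ∧ (∀ f, μ (b' f) = b f) ∧ μ z' = z ∧ b'.IsIntegral ∧
        (∀ y, ∃ x : R, y - b' (PowerSeries.C x) ∈ maximalIdeal B) ∧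
        ∀ S : Subfield L, (∀ f, b f ∈ S) → z ∈ S → ∀ y, μ y ∈ S := by
  have hk := isFr_alg R⟦X⟧ (Fr R⟦X⟧)
  obtain ⟨β, hβ⟩ := hk.exists_lift hb
  let := β.toAlgebra
  let := b.toAlgebra
  have : IsScalarTower R⟦X⟧ (Fr R⟦X⟧) L := .of_algebraMap_eq fun f => (hβ f).symm
  have hi : IsIntegral R⟦X⟧ z := ⟨G, hm, hz⟩
  let L₀ := IntermediateField.adjoin (Fr R⟦X⟧) {z}
  have : FiniteDimensional (Fr R⟦X⟧) L₀ := IntermediateField.adjoin.finiteDimensional hi.tower_top
  have hs : (G.map (fr R)).Separable := by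
    have h1 := congrArg (Polynomial.map (fr R)) hd
    refine ⟨Polynomial.C (fr R d)⁻¹ * p.map (fr R), Polynomial.C (fr R d)⁻¹ * q.map (fr R), ?_⟩
    rw [Polynomial.map_add, Polynomial.map_mul, Polynomial.map_mul, Polynomial.map_C,
      ← Polynomial.derivative_map] at h1
    rw [mul_assoc, mul_assoc, ← mul_add, ← h1, ← map_mul, inv_mul_cancel₀ (hk.vfrc_ne h0), map_one]
  have : Algebra.IsSeparable (Fr R⟦X⟧) L₀ :=
    (IntermediateField.isSeparable_adjoin_simple_iff_isSeparable _ _).2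
      (hs.of_dvd (minpoly.dvd _ _ (by rw [Polynomial.aeval_map_algebraMap]; exact hz)))
  have := isAdicComplete_ps R
  have := isAlgClosed_res_ps' (R := R)
  have := IsIntegralClosure.finite R⟦X⟧ (Fr R⟦X⟧) L₀ (integralClosure R⟦X⟧ L₀)
  obtain ⟨_, h1, h2⟩ := fin_local (A := R⟦X⟧) (B := integralClosure R⟦X⟧ L₀)
  refine ⟨integralClosure R⟦X⟧ L₀, inferInstance, inferInstance, inferInstance,
    integralClosure.isIntegrallyClosedOfFiniteExtension (Fr R⟦X⟧), h1, algebraMap _ _, h2,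
    ⟨⟨z, IntermediateField.mem_adjoin_simple_self _ z⟩, (isIntegral_algHom_iff
      (L₀.val.restrictScalars R⟦X⟧) Subtype.val_injective).1 hi⟩,
    (algebraMap L₀ L).comp (algebraMap _ L₀), Subtype.val_injective.comp Subtype.val_injective,
    fun _ => rfl, rfl, fun y => Algebra.IsIntegral.isIntegral y, fun y => ?_, fun S h3 h4 y => ?_⟩
  · obtain ⟨x, hx⟩ := fin_res (A := R⟦X⟧) y
    refine ⟨PowerSeries.constantCoeff x, ?_⟩
    rw [← sub_add_sub_cancel _ (algebraMap _ _ x), ← map_sub]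
    exact add_mem hx (map_nonunit _ _ fun h => by
      simpa using PowerSeries.isUnit_iff_constantCoeff.1 h)
  · refine (?_ : L₀.toSubfield ≤ S) y.1.2
    rw [IntermediateField.adjoin_toSubfield, Subfield.closure_le]
    rintro _ (⟨x, rfl⟩ | rfl)
    exacts [mem_of_isFr hk β S (fun f => hβ f ▸ h3 f) x, h4]

/-- `smat_of_closed`. Let `L₀` be generated by `j θ` over `Fr R⟦X⟧` (finite separable), `B` the
integral closure of `R⟦X⟧` in `L₀`: finite (`IsIntegralClosure.finite`), `fin_local`, `fin_res`.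
`e` is injective (`evl_inj`), `ψ` is the evaluation at the preimage of `b X` (`exists_evl`,
`evl_ext`), integral since `B` is; `ι` extends `e`, `range_of_closure`, `exists_fac`. -/
theorem smat_of_param (he : Etl a θ χ D)
    (H : ∀ (B : Type) [CommRing B] [IsDomain B] [IsLocalRing B] [IsIntegrallyClosed B]
      [IsAdicComplete (maximalIdeal B) B] (b : R⟦X⟧ →+* B) [IsLocalHom b] (z : B),
      Function.Injective b → (∀ y, ∃ x : R, y - b (PowerSeries.C x) ∈ maximalIdeal B) →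
      χ.eval₂ (b.comp (sh t)) z = 0 → ∃ e : R⟦X⟧ →+* B,
        (∀ r, e (PowerSeries.C r) = b (PowerSeries.C r)) ∧ b PowerSeries.X ∈ e.range ∧
          z ∈ e.range) : SMat a 1 t := by
  intro L _ b j hb hj
  obtain ⟨p, q, hd⟩ := he.bez
  have hjb : j.comp a = b.comp (sh t) := RingHom.ext hj
  have hz : (χ.map (sh t)).eval₂ b (j θ) = 0 := by
    rw [Polynomial.eval₂_map, ← hjb, ← Polynomial.hom_eval₂, he.root, map_zero]
  obtain ⟨B, _, _, _, _, _, b', _, z, μ, m1, m2, m3, m4, m5, m6⟩ :=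
    gsmc_B hb (he.monic.map _) hz (p := p.map (sh t)) (q := q.map (sh t)) (d := sh t D)
      (by simpa [Polynomial.derivative_map] using congrArg (Polynomial.map (sh t)) hd)
      ((map_ne_zero_iff _ (sh_inj t)).2 he.ne)
  have hb' : Function.Injective b' := fun x y h => hb (by rw [← m2, h, m2])
  obtain ⟨e, e1, ⟨y, e2⟩, y', e3⟩ := H B b' z hb' m5 (m1 (by
    rw [Polynomial.hom_eval₂, m3, map_zero, ← hz, Polynomial.eval₂_map]
    exact congrArg (fun g => χ.eval₂ g (j θ)) (RingHom.ext fun f => m2 _)))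
  have hX : b' PowerSeries.X ∈ maximalIdeal B := map_nonunit _ _ PowerSeries.X_prime.not_isUnit
  have hi : Function.Injective e := evl_inj e (y := y) fun p hp => by
    rw [e2, show e.comp PowerSeries.C = b'.comp PowerSeries.C from RingHom.ext e1, ← sub_coe,
      map_eq_zero_iff _ hb'] at hp
    exact Polynomial.coe_eq_zero_iff.1 hp
  have := isAdicComplete_ps R
  obtain ⟨ψ, p1, p2⟩ := exists_evl (maximalIdeal R⟦X⟧) PowerSeries.C (x := y)
    fun h => hX (e2 ▸ h.map e)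
  have hX' : e.comp ψ PowerSeries.X = b' PowerSeries.X := (congrArg e p2).trans e2
  have hψ : e.comp ψ = b' := evl_ext (maximalIdeal B) _ _
    (fun r => (congrArg e (p1 r)).trans (e1 r)) hX' (hX' ▸ hX)
  have hk := isFr_alg R⟦X⟧ (Fr R⟦X⟧)
  obtain ⟨ι, hι⟩ := hk.exists_lift (β := μ.comp e) (m1.comp hi)
  have h1 : ∀ f, ι (fr R (ψ f)) = b f := fun f =>
    (hι _).trans ((congrArg μ (DFunLike.congr_fun hψ f)).trans (m2 f))
  obtain ⟨J, hJ⟩ := exists_fac ι j (range_of_closure he.closure ι j (by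
    rintro _ (⟨p, rfl⟩ | rfl)
    exacts [⟨_, (h1 _).trans (hj p).symm⟩, ⟨_, (hι y').trans ((congrArg μ e3).trans m3)⟩]))
  refine ⟨(J, ψ), ⟨p1, Function.Injective.of_comp (f := e) (hψ ▸ hb' : Function.Injective (e.comp ψ)),
    RingHom.IsIntegral.tower_bot ψ e hi (hψ ▸ m4), fun p => ι.injective ?_, eq_top_iff.2 fun x _ => ?_,
    0, by simp⟩, ι, hJ, h1⟩
  · rw [hJ, h1, hj]
  · refine mem_of_isFr hk (RingHom.id _) _ (fun f => ?_) x
    obtain ⟨u, hu, h2⟩ := m6 (Subfield.map ι (Subfield.closure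
      (Set.range J ∪ Set.range fun f => fr R (ψ f))))
      (fun f => ⟨_, Subfield.subset_closure (.inr ⟨f, rfl⟩), h1 f⟩)
      ⟨_, Subfield.subset_closure (.inl ⟨θ, rfl⟩), hJ θ⟩ (e f)
    exact (ι.injective (h2.trans (hι f).symm) : u = _) ▸ hu

end Pool.Agent.ZFy.GM
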