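import Pool.Agent.Lib.MP_751085_ag.ZF.G.Def3
import Pool.Agent.Lib.MP_751085_ag.ZF.G.Cvr
import Pool.Agent.Lib.MP_751085_ag.ZF.G.Desc
import Pool.Agent.Lib.MP_751085_ag.ZF.G.Irx
import Pool.Agent.Lib.MP_751085_ag.ZF.K.GDefs
import Pool.Agent.Lib.MP_751085_ag.ZC.K.Hen

/-! Good models: plane curves at infinity. -/

namespace Pool.Agent.ZFy.GM

open Pool.Agent.ZCy
open scoped Classical WithZero Polynomial PowerSeries
open WithZero (exp)
open IsLocalRing

variable {B S F : Type} [CommRing B] [CommRing S] [Field F] {χ : B[X][X]}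

theorem topF_map [Nontrivial S] (hm : χ.Monic) (η : B →+* S) :
    topF (χ.map (Polynomial.mapRingHom η)) = (topF χ).map η := by
  simp only [topF, hm.natDegree_map, Polynomial.map_sum, Polynomial.map_monomial,
    Polynomial.coeff_map, Polynomial.coe_mapRingHom]

theorem Wt.map [Nontrivial S] (h : Wt χ) (η : B →+* S) :
    Wt (χ.map (Polynomial.mapRingHom η)) := by
  refine ⟨h.monic.map _, fun i => ?_, topF_map h.monic η ▸ h.sep.map⟩
  rw [h.monic.natDegree_map, Polynomial.coeff_map]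
  exact Polynomial.natDegree_map_le.trans (h.wt i)

/-- the coefficient `i` of `χ'` is `reflect (δ - i) (χ.coeff i)`; `rvs_reflect` -/
theorem Wt.tilde (h : Wt χ) : ∃ χ' : B[X][X], χ'.Monic ∧
    χ'.map (Polynomial.evalRingHom 0) = topF χ ∧
    ∀ (F : Type) [Field F] (a : B[X] →+* F) (θ : F), a Polynomial.X ≠ 0 →
      (χ.eval₂ a θ = 0 ↔ χ'.eval₂ (rvs a) (θ * rvs a Polynomial.X) = 0) := by
  obtain ⟨f, hf⟩ : ∃ f : B[X][X], f = ∑ i ∈ Finset.range (χ.natDegree + 1),
    Polynomial.monomial i ((χ.coeff i).reflect (χ.natDegree - i)) := ⟨_, rfl⟩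
  have hc : ∀ i, f.coeff i = (χ.coeff i).reflect (χ.natDegree - i) := fun i => by
    simp only [hf, Polynomial.finsetSum_coeff, Polynomial.coeff_monomial, Finset.sum_ite_eq',
      Finset.mem_range]
    split_ifs with h
    · rfl
    · rw [Polynomial.coeff_eq_zero_of_natDegree_lt (p := χ) (by omega), Polynomial.reflect_zero]
  refine ⟨f, Polynomial.monic_of_natDegree_le_of_coeff_eq_one χ.natDegree
    (Polynomial.natDegree_le_iff_coeff_eq_zero.2 fun i hi => ?_) ?_, ?_, fun F _ a θ ha => ?_⟩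
  · rw [hc, Polynomial.coeff_eq_zero_of_natDegree_lt hi, Polynomial.reflect_zero]
  · rw [hc, h.monic.coeff_natDegree, tsub_self, Polynomial.reflect_one, pow_zero]
  · simp only [hf, topF, Polynomial.map_sum, Polynomial.map_monomial, Polynomial.coe_evalRingHom,
      ← Polynomial.coeff_zero_eq_eval_zero, Polynomial.coeff_reflect, Polynomial.revAt_zero]
  · have : χ.eval₂ a θ =
        f.eval₂ (rvs a) (θ * rvs a Polynomial.X) * a Polynomial.X ^ χ.natDegree := by
      rw [hf, Polynomial.eval₂_finsetSum, Polynomial.eval₂_eq_sum_range, Finset.sum_mul]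
      refine Finset.sum_congr rfl fun i hi => ?_
      obtain ⟨j, hj⟩ := Nat.exists_eq_add_of_le (Nat.lt_succ_iff.1 (Finset.mem_range.1 hi))
      rw [Polynomial.eval₂_monomial, rvs_reflect ha (h.wt i), rvs_X, hj, Nat.add_sub_cancel_left,
        mul_pow, inv_pow, pow_add]
      field_simp
    rw [this, mul_eq_zero, or_iff_left (pow_ne_zero _ ha)]

/-- `ZeroCyc.exists_hensel_series` for `χ'` -/
theorem Wt.root_ls {K : Type} [Field K] {χ : K[X][X]} (h : Wt χ) {z : K}
    (hz : (topF χ).eval z = 0) : ∃ η : K⟦X⟧, PowerSeries.constantCoeff η = z ∧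
      χ.eval₂ (tL K) ((η : Ls K) * HahnSeries.single (-1) 1) = 0 := by
  obtain ⟨f, h1, h2, h3⟩ := h.tilde
  have e1 : (PowerSeries.constantCoeff : K⟦X⟧ →+* K).comp (sh 0) = Polynomial.evalRingHom 0 :=
    RingHom.ext (cc_sh 0)
  have e2 : tL K Polynomial.X = HahnSeries.single (-1) 1 := by simp [tM]
  have e3 : (HahnSeries.single (-1) 1 : Ls K) * HahnSeries.single 1 1 = 1 := by
    simp [HahnSeries.single_mul_single]
  have e4 : rvs (tL K) Polynomial.X = HahnSeries.single 1 1 := by
    rw [rvs_X, e2, inv_eq_of_mul_eq_one_right e3]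
  have e5 : rvs (tL K) = (HahnSeries.ofPowerSeries ℤ K).comp (sh 0) :=
    Polynomial.ringHom_ext (fun r => by simp [rvs_C, tM, sbs]) (by simp [e4, sbs])
  obtain ⟨η, h4, h5⟩ := ZeroCyc.exists_hensel_series (h1.map (sh 0)) (y := z)
    (by rwa [Polynomial.eval₂_map, e1, ← Polynomial.eval_map, h2]) (by
      rw [Polynomial.derivative_map, Polynomial.eval₂_map, e1, ← Polynomial.eval_map,
        ← Polynomial.derivative_map, h2]
      exact (h.sep.eval₂_derivative_ne_zero (RingHom.id K) hz).isUnit)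
  refine ⟨η, h5, (h3 _ _ _ (e2 ▸ left_ne_zero_of_mul_eq_one e3)).2 ?_⟩
  rw [e4, mul_assoc, e3, mul_one, e5, ← Polynomial.eval₂_map, Polynomial.eval₂_at_apply, h4,
    map_zero]

/-- `exists_etl_of_irr`, `Wt.root_ls`, `Etl.lift`, `Etl.desc` -/
theorem Wt.geom {K K' : Type} [Field K] [Field K'] {χ p q : K[X][X]} {D : K[X]} (h : Wt χ)
    (hi : Irreducible χ) (hb : Polynomial.C D = p * χ + q * χ.derivative) (hD : D ≠ 0) {z : K}
    (hz : (topF χ).eval z = 0) (γ : K →+* K') :
    Irreducible (χ.map (Polynomial.mapRingHom γ)) := by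
  obtain ⟨F, _, a, θ, he⟩ := exists_etl_of_irr h.monic hi hb hD
  obtain ⟨η, -, h1⟩ := h.root_ls hz
  obtain ⟨j, h2, -⟩ := he.lift (kl_tM_inj one_pos) h1
  exact he.desc γ h2

/-- `Wt.tilde`, `ps_split`, `smat_split`, `mark_inf` -/
theorem Wt.smat {R : Type} [CommRing R] [IsDomain R] [CDVR R] [IsAlgClosed (ResidueField R)]
    {a : R[X] →+* F} {θ : F} {χ : R[X][X]} {D Θ : R[X]} (h : Wt χ) (he : Etl a θ χ D)
    (hΘ : Θ.Monic) : SMat (rvs a) (Polynomial.X * Θ.reverse) 0 := by
  obtain ⟨f, h1, h2, h3⟩ := h.tilde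
  have h0 := grev_ne he.inj
  obtain ⟨s, hs⟩ := ps_split (h1.map (sh 0)) (by
    rw [Polynomial.map_map, RingHom.comp_assoc, show PowerSeries.constantCoeff.comp (sh (0 : R)) =
      Polynomial.evalRingHom 0 from RingHom.ext (cc_sh 0), ← Polynomial.map_map, h2]
    exact h.sep.map)
  refine smat_split ?_ ((h3 F a θ h0).1 he.root) hs (mark_inf hΘ)
  rw [eq_top_iff, ← he.closure, Subfield.closure_le]
  have h4 : ∀ p, rvs a p ∈ Subfield.closure (Set.range (rvs a) ∪ {θ * rvs a Polynomial.X}) :=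
    fun p => Subfield.subset_closure (Or.inl ⟨p, rfl⟩)
  have h5 : a Polynomial.X ∈ Subfield.closure (Set.range (rvs a) ∪ {θ * rvs a Polynomial.X}) := by
    simpa only [rvs_X, inv_inv] using inv_mem (h4 Polynomial.X)
  rintro _ (⟨p, rfl⟩ | rfl)
  · rw [rvs_reverse h0 p]
    exact mul_mem (h4 _) (pow_mem h5 _)
  · have := mul_mem (Subfield.subset_closure (Set.mem_union_right _ (Set.mem_singleton _))) h5
    rwa [mul_assoc, (congrArg (· * _) rvs_X).trans (inv_mul_cancel₀ h0), mul_one] at this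

variable {O σ : Type} [CommRing O] (c : PChart O σ)

/-- a polynomial of total degree at most `n` has a constant coefficient of `τ ^ n` -/
theorem wt_chart [Nontrivial O] : Wt (cχ c) ∧ topF (cχ c) = c.top.map MvPolynomial.C ∧
    (cχ c).natDegree = c.δ := by
  have hd : ∀ p : MP (Option σ) O, (tp p).natDegree ≤ p.totalDegree := fun p =>
    (MvPolynomial.natDegree_optionEquivLeft O p).trans_le (MvPolynomial.degreeOf_le_totalDegree _ _)
  have h1 : (cχ c).natDegree = c.δ := c.monic.natDegree_map _ |>.trans c.deg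
  have h2 : topF (cχ c) = c.top.map MvPolynomial.C := by
    rw [topF, h1, PChart.top, Polynomial.map_sum]
    refine Finset.sum_congr rfl fun i _ => ?_
    have : ((tp (c.χ.coeff i)).coeff (c.δ - i)).totalDegree = 0 := by
      rcases (c.wt i).eq_or_lt with e | e
      · exact Nat.add_eq_right.1 (le_antisymm
          ((MvPolynomial.totalDegree_coeff_optionEquivLeft_add_le O σ _ _ e.ge).trans e.le)
          (Nat.le_add_left _ _))
      · rw [Polynomial.coeff_eq_zero_of_natDegree_lt ((hd _).trans_lt e),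
          MvPolynomial.totalDegree_zero]
    rw [Polynomial.map_monomial, cχ, Polynomial.coeff_map, coeff_single_none]
    exact congrArg _ (MvPolynomial.totalDegree_eq_zero_iff_eq_C.1 this)
  refine ⟨⟨c.monic.map _, fun i => ?_, h2 ▸ c.sep.map⟩, h2, h1⟩
  rw [h1, cχ, Polynomial.coeff_map]
  exact (hd _).trans (c.wt i)

theorem chart_bez : ∃ p q, Polynomial.C (tp c.D) = p * cχ c + q * (cχ c).derivative := by
  obtain ⟨p, q, e⟩ := c.bez
  have := congrArg (Polynomial.map
    (MvPolynomial.optionEquivLeft O σ : MP (Option σ) O →+* (MP σ O)[X])) e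
  rw [Polynomial.map_C, Polynomial.map_add, Polynomial.map_mul, Polynomial.map_mul,
    ← Polynomial.derivative_map] at this
  exact ⟨_, _, this⟩

theorem chart_D_ne [Nontrivial S] (η : MP σ O →+* S) : (tp c.D).map η ≠ 0 := by
  obtain ⟨r, h⟩ := c.dvd
  have h1 := Polynomial.map_dvd η (map_dvd (MvPolynomial.optionEquivLeft O σ) h)
  rw [map_pow] at h1
  exact ne_zero_of_dvd_ne_zero ((c.tm.1.pow r).map η).ne_zero h1

theorem ev_tp {T : Type} [CommRing T] (η : MP σ O →+* S) (b : S[X] →+* T) (p : MP (Option σ) O) :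
    b ((tp p).map η) = MvPolynomial.eval₂ (b.comp (Polynomial.C.comp (η.comp MvPolynomial.C)))
      (fun i => i.elim (b Polynomial.X) fun j => b (Polynomial.C (η (MvPolynomial.X j)))) p := by
  refine DFunLike.congr_fun (MvPolynomial.ringHom_ext (f := b.comp ((Polynomial.mapRingHom η).comp
    (MvPolynomial.optionEquivLeft O σ : MP (Option σ) O →+* (MP σ O)[X])))
    (g := MvPolynomial.eval₂Hom _ _) (fun r => by simp) ?_) p
  rintro (_ | j) <;> simp

theorem ev_cχ {T : Type} [CommRing T] (η : MP σ O →+* S) (b : S[X] →+* T) (z : T) :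
    ((cχ c).map (Polynomial.mapRingHom η)).eval₂ b z =
      ev (b.comp (Polynomial.C.comp (η.comp MvPolynomial.C)))
        (fun i => i.elim (b Polynomial.X) fun j => b (Polynomial.C (η (MvPolynomial.X j)))) z
        c.χ := by
  rw [cχ, Polynomial.eval₂_map, Polynomial.eval₂_map, ev, Polynomial.coe_eval₂RingHom]
  refine congrArg (Polynomial.eval₂ · z c.χ) (RingHom.ext fun p => ?_)
  rw [MvPolynomial.coe_eval₂Hom, ← ev_tp η b]
  rfl

theorem gwt_line (ρ : O →+* S) (b : σ → S) (p : MP (Option σ) O) :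
    line ρ (fun i => i.elim 0 b) (Pi.single none 1) p = (tp p).map (MvPolynomial.eval₂Hom ρ b) := by
  have := ev_tp (MvPolynomial.eval₂Hom ρ b) (RingHom.id _) p
  rw [RingHom.id_apply] at this
  rw [this, line, MvPolynomial.coe_eval₂Hom]
  congr 1
  · exact RingHom.ext fun r => by simp
  · funext i
    rcases i with _ | j <;> simp

theorem line_eq (ρ : O →+* S) (b : σ → S) :
    c.χ.map (line ρ (fun i => i.elim 0 b) (Pi.single none 1)) =
      (cχ c).map (Polynomial.mapRingHom (MvPolynomial.eval₂Hom ρ b)) := by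
  rw [cχ, Polynomial.map_map]
  exact congrArg (Polynomial.map · c.χ) (RingHom.ext (gwt_line ρ b))

theorem line_tp (ρ : O →+* S) (b : σ → S) (p : MP (Option σ) O) :
    line ρ (fun i => i.elim 0 b) (Pi.single none 1) p = (tp p).map (MvPolynomial.eval₂Hom ρ b) := by
  exact gwt_line ρ b p

theorem cχ_map {c' : PChart S σ} {φ : O →+* S} (h : c.IsMap φ c') :
    cχ c' = (cχ c).map (Polynomial.mapRingHom (MvPolynomial.map φ)) := by
  rw [cχ, cχ, h.χ, Polynomial.coe_mapRingHom, Polynomial.map_map, Polynomial.map_map]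
  exact congrArg (Polynomial.map · c.χ) (RingHom.ext (tp_map φ))

end Pool.Agent.ZFy.GM
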