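import Pool.Agent.Lib.MP_751085_ag.ZF.G.SmB
import Pool.Agent.Lib.MP_751085_ag.ZF.G.SmC
import Pool.Agent.Lib.MP_751085_ag.ZF.G.Wt
import Pool.Agent.Lib.MP_751085_ag.ZF.G.Uni
import Pool.Agent.Lib.MP_751085_ag.ZF.G.Irru

/-! Good models: smooth fibres of a chart have good models. -/

namespace Pool.Agent.ZFy.GM

open Pool.Agent.ZCy
open scoped Classical WithZero Polynomial PowerSeries
open WithZero (exp)
open IsLocalRing

variable {O σ R F : Type} [CommRing O] [CommRing R] [IsDomain R] [CDVR R]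
  [IsAlgClosed (ResidueField R)] [Field F] {N : ℕ} {GG : Set (Fm N O)} (c : Chart O σ N GG)
  {Φ : MP σ O} {η : MP σ O →+* R}

omit [IsDomain R] [CDVR R] [IsAlgClosed (ResidueField R)] in
theorem gsmo_bez (η : MP σ O →+* R) : ∃ p q, Polynomial.C ((tp c.D).map η) =
    p * (cχ c.toPChart).map (Polynomial.mapRingHom η) +
      q * ((cχ c.toPChart).map (Polynomial.mapRingHom η)).derivative := by
  obtain ⟨p, q, e⟩ := chart_bez c.toPChart
  refine ⟨p.map (Polynomial.mapRingHom η), q.map (Polynomial.mapRingHom η), ?_⟩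
  rw [Polynomial.derivative_map, ← Polynomial.map_mul, ← Polynomial.map_mul,
    ← Polynomial.map_add, ← e, Polynomial.map_C, Polynomial.coe_mapRingHom]

omit [CDVR R] [IsAlgClosed (ResidueField R)] in
theorem gsmo_wt (η : MP σ O →+* R) : Wt ((cχ c.toPChart).map (Polynomial.mapRingHom η)) :=
  have := (η.comp MvPolynomial.C).domain_nontrivial
  (wt_chart c.toPChart).1.map η

omit [IsAlgClosed (ResidueField R)] in
theorem gsmo_D (η : MP σ O →+* R) : ((tp c.D).map η).map (residue R) ≠ 0 := by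
  rw [Polynomial.map_map]
  exact chart_D_ne c.toPChart _

theorem good_chart (hG : ∀ G ∈ GG, ∃ m, G.IsHomogeneous m) (hs : c.SM Φ) (hη : IsUnit (η Φ))
    {a : R[X] →+* F} {θ : F}
    (he : Etl a θ ((cχ c.toPChart).map (Polynomial.mapRingHom η)) ((tp c.D).map η)) :
    Good a 1 := by
  refine ⟨⟨Polynomial.monic_one, fun z => ?_, (gsmo_wt c η).smat he Polynomial.monic_one⟩,
    θ, _, _, he, gsmo_D c η⟩
  obtain ⟨t, rfl⟩ := residue_surjective z
  refine ⟨t, rfl, smat_of_param he fun B _ _ _ _ _ b _ z hb hr h0 => ?_⟩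
  have : IsLocalHom (b.comp PowerSeries.C) := ⟨fun r h => by
    simpa using PowerSeries.isUnit_iff_constantCoeff.1 (IsUnit.of_map b _ h)⟩
  have e1 : ∀ r, b.comp (sh t) (Polynomial.C r) = b.comp PowerSeries.C r := fun r => by simp [sbs]
  have e2 : (b.comp (sh t)).comp (Polynomial.C.comp (η.comp MvPolynomial.C)) =
      (b.comp PowerSeries.C).comp (η.comp MvPolynomial.C) := RingHom.ext fun r => e1 _
  have hD : b.comp (sh t) ((tp c.D).map η) ≠ 0 :=
    (map_ne_zero_iff (b.comp (sh t)) (hb.comp (sh_inj t))).2 (chart_D_ne c.toPChart η)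
  rw [ev_cχ, e2] at h0
  rw [ev_tp, e2] at hD
  simp only [e1] at h0 hD
  obtain ⟨e, h1, h2, h3⟩ := chart_param c hG hs η hη (b.comp PowerSeries.C) hr _ z h0 hD
  refine ⟨e, h1, ?_, h3⟩
  rw [← sh_X_sub t, map_sub, map_sub]
  exact sub_mem h2 ⟨_, (h1 t).trans (e1 t).symm⟩

theorem irr_core (hG : ∀ G ∈ GG, ∃ m, G.IsHomogeneous m) (hs : c.SM Φ) (hη : IsUnit (η Φ))
    (hi : Irreducible ((cχ c.toPChart).map (Polynomial.mapRingHom η))) :
    Irreducible ((cχ c.toPChart).map (Polynomial.mapRingHom ((residue R).comp η))) := by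
  obtain ⟨p, q, hb⟩ := gsmo_bez c η
  obtain ⟨F, _, a, θ, he⟩ := exists_etl_of_irr (gsmo_wt c η).monic hi hb (chart_D_ne c.toPChart η)
  obtain ⟨π, hπ⟩ := IsDiscreteValuationRing.exists_irreducible R
  have e := he.irr_red (Polynomial.prime_C_iff.2 hπ.prime)
    (fun h => gsmo_D c η ((poly_red_eq_zero hπ _).2 h)) ((good_chart c hG hs hη he).uni hπ)
    (l := Polynomial.mapRingHom (residue R)) (poly_red_eq_zero hπ)
    (Polynomial.map_surjective _ residue_surjective)
  rwa [Polynomial.map_map, Polynomial.mapRingHom_comp] at e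

/-- the curve over the fraction field -/
theorem good_chart_fr (hG : ∀ G ∈ GG, ∃ m, G.IsHomogeneous m) (hs : c.SM Φ) (hη : IsUnit (η Φ))
    {KK : Type} [Field KK] {α : R →+* KK} (hα : IsFr α) {ψ : KK[X] →+* F} {θ : F} {D : KK[X]}
    (he : Etl ψ θ ((cχ c.toPChart).map (Polynomial.mapRingHom (α.comp η))) D) :
    Good (ψ.comp (Polynomial.mapRingHom α)) 1 := by
  obtain ⟨p, q, hb⟩ := gsmo_bez c η
  rw [← Polynomial.mapRingHom_comp, ← Polynomial.map_map] at he
  refine good_chart c hG hs hη (he.of_loc (Polynomial.map_injective α hα.1) (fun y => ?_)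
    (gsmo_wt c η).monic hb (chart_D_ne c.toPChart η))
  obtain ⟨d, q, h0, e⟩ := hα.vfrc_poly y
  exact ⟨d, q, fun h => h0 (h ▸ map_zero _), (mul_comm _ _).trans e.symm⟩

end Pool.Agent.ZFy.GM
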