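import Pool.Agent.Lib.MP_751085_ag.ZF.G.Def3
import Pool.Agent.Lib.MP_751085_ag.ZF.G.LdE

/-! Good models: spreading data. -/

namespace Pool.Agent.ZFy.GM

open Pool.Agent.ZCy
open scoped Classical WithZero Polynomial PowerSeries
open WithZero (exp)
open IsLocalRing

variable {R B M K F : Type} [CommRing R] [CommRing B] [Field M] [Field K] [Field F]

theorem gspb_prod (β : B →+* R) (u : B) (s : Multiset B) :
    (Polynomial.C u * (s.map fun x => Polynomial.X - Polynomial.C x).prod).map β =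
      Polynomial.C (β u) * ((s.map β).map fun x => Polynomial.X - Polynomial.C x).prod := by
  rw [Polynomial.map_mul, Polynomial.map_C, Polynomial.map_multiset_prod, Multiset.map_map,
    Multiset.map_map]
  simp

theorem gspb_bez (β : B →+* R) (χ p q : B[X]) :
    (p * χ + q * χ.derivative).map β = p.map β * χ.map β + q.map β * (χ.map β).derivative := by
  rw [Polynomial.map_add, Polynomial.map_mul, Polynomial.map_mul, Polynomial.derivative_map]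

theorem SpB.map {χ χ' : B[X][X]} {D Θ : B[X]} (h : SpB χ χ' D Θ) {β : B →+* R}
    (hβ : Function.Injective β) : SpB (χ.map (Polynomial.mapRingHom β))
      (χ'.map (Polynomial.mapRingHom β)) (D.map β) (Θ.map β) := by
  obtain ⟨hm, hm', ⟨p, q, hb⟩, h0, u, s, hu, hs, hd, hl⟩ := h
  refine ⟨hm.map _, hm'.map _, ⟨p.map (Polynomial.mapRingHom β), q.map (Polynomial.mapRingHom β),
    ?_⟩, map_zero β ▸ h0.map hβ, β u, s.map β, hu.map β, ?_, ?_, ?_⟩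
  · rw [← gspb_bez, ← hb, Polynomial.map_C]
    rfl
  · rw [← Polynomial.map_mul, hs, gspb_prod]
  · intro x hx' y hy' e
    obtain ⟨x, hx, rfl⟩ := Multiset.mem_map.1 hx'
    obtain ⟨y, hy, rfl⟩ := Multiset.mem_map.1 hy'
    exact map_sub β x y ▸ (hd x hx y hy fun e' => e (e' ▸ rfl)).map β
  · intro x hx'
    obtain ⟨x, hx, rfl⟩ := Multiset.mem_map.1 hx'
    exact (hl x hx).map hβ

theorem gspb_unit {B : Subring M} {x : B} (h0 : (x : M) ≠ 0) (h : (x : M)⁻¹ ∈ B) : IsUnit x :=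
  IsUnit.of_mul_eq_one ⟨_, h⟩ (Subtype.ext (mul_inv_cancel₀ h0))

/-- `S` contains the coefficients, the roots of `Θ D` and the sets of `ld_exists` -/
theorem spb_exists [IsAlgClosed M] [Algebra K F] [FiniteDimensional K F] {α : M[X] →+* K}
    (hα : IsFr α) {χ χ' p q : M[X][X]} {D Θ : M[X]} (hm : χ.Monic) (hm' : χ'.Monic)
    (hb : Polynomial.C D = p * χ + q * χ.derivative) (hD : D ≠ 0) (hΘ : Θ.Monic)
    (hs : (χ.map (tE F α)).Splits) (hs' : (χ'.map (tE F (rvs α))).Splits) {θ θ' : F}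
    (h0 : χ.eval₂ (tE F α) θ = 0) (h0' : χ'.eval₂ (tE F (rvs α)) θ' = 0)
    (hg : IntermediateField.adjoin K {θ} = ⊤) (hg' : IntermediateField.adjoin K {θ'} = ⊤) :
    ∃ S : Finset M, (∀ x, Θ.IsRoot x → x ∈ S) ∧ ∀ B : Subring M, (∀ c ∈ S, c ∈ B) →
      ∃ (χ₀ χ₀' : B[X][X]) (D₀ Θ₀ : B[X]), χ₀.map (Polynomial.mapRingHom B.subtype) = χ ∧
        χ₀'.map (Polynomial.mapRingHom B.subtype) = χ' ∧ D₀.map B.subtype = D ∧
        Θ₀.map B.subtype = Θ ∧ SpB χ₀ χ₀' D₀ Θ₀ := by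
  obtain ⟨S1, h1⟩ := exists_coeffs χ
  obtain ⟨S2, h2⟩ := exists_coeffs χ'
  obtain ⟨S3, h3⟩ := exists_coeffs p
  obtain ⟨S4, h4⟩ := exists_coeffs q
  obtain ⟨S5, h5⟩ := exists_coeffs1 D
  obtain ⟨S6, h6⟩ := exists_coeffs1 Θ
  obtain ⟨S7, h7⟩ := ld_exists (isFr_rvs hα) hm' hs' h0' hg' 0
  choose S8 h8 using ld_exists hα hm hs h0 hg
  have hn : Θ * D ≠ 0 := mul_ne_zero hΘ.ne_zero hD
  have hl := Polynomial.leadingCoeff_ne_zero.2 hn
  have hp := (IsAlgClosed.splits (Θ * D)).eq_prod_roots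
  set T := (Θ * D).roots.toFinset with hT
  refine ⟨S1 ∪ S2 ∪ S3 ∪ S4 ∪ S5 ∪ S6 ∪ S7 ∪ T.biUnion S8 ∪ T ∪
    {(Θ * D).leadingCoeff, (Θ * D).leadingCoeff⁻¹} ∪ (T ×ˢ T).image fun z => (z.1 - z.2)⁻¹,
    fun x hx => ?_, fun B hB => ?_⟩
  · have : x ∈ T := Multiset.mem_toFinset.2
      ((Polynomial.mem_roots hn).2 (hx.dvd (dvd_mul_right _ _)))
    simp [this]
  simp only [Finset.mem_union, or_imp, forall_and] at hB
  obtain ⟨⟨⟨⟨⟨⟨⟨⟨⟨⟨b1, b2⟩, b3⟩, b4⟩, b5⟩, b6⟩, b7⟩, b8⟩, b9⟩, b10⟩, b11⟩ := hB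
  obtain ⟨χ, rfl⟩ := h1 B b1
  obtain ⟨χ', rfl⟩ := h2 B b2
  obtain ⟨p, rfl⟩ := h3 B b3
  obtain ⟨q, rfl⟩ := h4 B b4
  obtain ⟨D₀, e5⟩ := h5 B b5
  obtain ⟨Θ₀, e6⟩ := h6 B b6
  have i1 : Function.Injective (Polynomial.mapRingHom B.subtype) :=
    Polynomial.map_injective _ Subtype.val_injective
  obtain ⟨s, hs⟩ : ∃ s : Multiset B, s.map B.subtype = (Θ * D).roots :=
    ⟨(Θ * D).roots.attach.map fun x => ⟨x.1, b9 _ (Multiset.mem_toFinset.2 x.2)⟩, by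
      rw [Multiset.map_map]
      exact Multiset.attach_map_val _⟩
  have hsT : ∀ x ∈ s, (x : M) ∈ T := fun x hx =>
    Multiset.mem_toFinset.2 (hs ▸ Multiset.mem_map_of_mem _ hx)
  refine ⟨χ, χ', D₀, Θ₀, rfl, rfl, e5, e6, Polynomial.monic_of_injective i1 hm,
    Polynomial.monic_of_injective i1 hm', ⟨p, q, Polynomial.map_injective _ i1 ?_⟩,
    h7 B b7 _ _ rfl rfl, ⟨_, b10 (Θ * D).leadingCoeff (by simp)⟩, s,
    gspb_unit hl (b10 _ (by simp)), i1 ?_, fun x hx y hy e => gspb_unit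
      (fun e' => e (sub_eq_zero.1 (Subtype.ext e'))) (b11 _ ?_),
    fun x hx => h8 x B (fun c hc => b8 c (Finset.mem_biUnion.2 ⟨x, hsT x hx, hc⟩)) _ _ rfl rfl⟩
  · rw [gspb_bez, ← hb, Polynomial.map_C, ← e5]
    rfl
  · rw [Polynomial.coe_mapRingHom, gspb_prod, hs, Polynomial.map_mul, e5, e6]
    exact hp
  · exact Finset.mem_image.2 ⟨(x, y), Finset.mem_product.2 ⟨hsT x hx, hsT y hy⟩, rfl⟩

theorem gde_of_spb [IsDomain R] [CDVR R] [IsAlgClosed (ResidueField R)] [Algebra K F]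
    {α : R[X] →+* K} (hα : IsFr α) {χ χ' : R[X][X]} {D Θ : R[X]} (h : SpB χ χ' D Θ) (hΘ : Θ.Monic)
    [Polynomial.IsSplittingField K F (χ.map α)] [Polynomial.IsSplittingField K F (χ'.map (rvs α))]
    {θ : F} (h0 : χ.eval₂ (tE F α) θ = 0) (hg : IntermediateField.adjoin K {θ} = ⊤) :
    GdE (tE F α) Θ θ := by
  obtain ⟨hm, -, ⟨p, q, hb⟩, hl0, u, s, hu, hs, hd, hl⟩ := h
  have hr : D.map (residue R) ≠ 0 := by
    intro e
    have := congrArg (Polynomial.map (residue R)) hs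
    rw [Polynomial.map_mul, e, mul_zero, gspb_prod] at this
    exact mul_ne_zero (Polynomial.C_ne_zero.2 (hu.map _).ne_zero)
      (Polynomial.monic_multisetProd_X_sub_C _).ne_zero this.symm
  obtain ⟨χ₁, -, he⟩ := etl_of_root (a := tE F α) ((algebraMap K F).injective.comp hα.1) hm h0 hb
    (fun e => hr (by rw [e, Polynomial.map_zero])) ((get0_clo hα).2 hg)
  refine ⟨⟨hΘ, smo_fin he hu hs hd fun x hx => ld_smat hα (hl x hx), ?_⟩, χ₁, D, he, hr⟩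
  rw [rvs_comp]
  exact ld_smat (isFr_rvs hα) hl0 (mark_inf hΘ)

end Pool.Agent.ZFy.GM
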