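import Pool.Agent.Lib.MP_751085_ag.ZF.G.Ps0
import Pool.Agent.Lib.MP_751085_ag.ZF.G.Sub
import Pool.Agent.Lib.MP_751085_ag.ZF.G.Rev
import Pool.Agent.Lib.MP_751085_ag.ZF.G.Pld

/-! Good models: basic properties of discs. -/

namespace Pool.Agent.ZFy.GM

open Pool.Agent.ZCy
open scoped Classical WithZero Polynomial PowerSeries
open WithZero (exp)
open IsLocalRing

variable {R F : Type} [CommRing R] [IsDomain R] [CDVR R] [Field F] {π t : R} {a : R[X] →+* F}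
  {Θ : R[X]} {J : F →+* Fr R⟦X⟧} {ψ : R⟦X⟧ →+* R⟦X⟧} {V : Vl (Fr R⟦X⟧)}

variable {L : Type} [Field L] {b : R⟦X⟧ →+* L} {w : Vl L}

/-- `cen_goup` gives a prime `P'`, which divides `C π` -/
theorem cen_up (hπ : Irreducible π) (hC : ∀ r, ψ (PowerSeries.C r) = PowerSeries.C r)
    (hi : Function.Injective ψ) (hψ : ψ.IsIntegral) (h : Cen (b.comp ψ) w (PowerSeries.C π)) :
    Cen b w (PowerSeries.C π) := by
  obtain ⟨P, hP, h1⟩ := cen_goup hi hψ (prime_ps_C hπ.prime) h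
  refine h1.assoc (hP.associated_of_dvd (prime_ps_C hπ.prime) ((h1.2 _).1 ?_))
  rw [← hC]
  exact (h.2 _).2 dvd_rfl

/-- otherwise `π ∣ ψ X`, and `X` is not integral modulo `π` -/
theorem C_dvd_sub (hπ : Irreducible π) (hC : ∀ r, ψ (PowerSeries.C r) = PowerSeries.C r)
    (hψ : ψ.IsIntegral) (f : R⟦X⟧) : PowerSeries.C π ∣ ψ f ↔ PowerSeries.C π ∣ f := by
  have hp := prime_ps_C hπ.prime
  have h0 : ∀ f, PowerSeries.C π ∣ f → PowerSeries.C π ∣ ψ f := fun f h => hC π ▸ map_dvd ψ h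
  refine ⟨fun h => by_contra fun hn => ?_, h0 f⟩
  obtain ⟨k, ε, hε, h1⟩ := exists_ro_ps hπ hn
  have h2 := h0 _ h1
  rw [map_sub, map_mul, map_pow] at h2
  have h3 : PowerSeries.C π ∣ ψ PowerSeries.X := hp.dvd_of_dvd_pow
    ((hε.map ψ).dvd_mul_right.1 ((dvd_iff_dvd_of_dvd_sub h2).1 h))
  have h4 : (PowerSeries.map (residue R)).comp ψ =
      PowerSeries.C.comp ((residue R).comp PowerSeries.constantCoeff) := RingHom.ext fun g => by
    rw [RingHom.comp_apply, g.eq_X_mul_shift_add_const, map_add, map_mul, map_add, map_mul,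
      (red_eq_zero hπ _).2 h3, hC]
    simp
  obtain ⟨p, hm, e⟩ := hψ PowerSeries.X
  have h5 := congrArg (PowerSeries.map (residue R)) e
  rw [Polynomial.hom_eval₂, h4, ← Polynomial.eval₂_map, PowerSeries.map_X,
    Polynomial.eval₂_C_X_eq_coe, map_zero, Polynomial.coe_eq_zero_iff] at h5
  exact (hm.map _).ne_zero h5

theorem cen_down (hπ : Irreducible π) (hC : ∀ r, ψ (PowerSeries.C r) = PowerSeries.C r)
    (hψ : ψ.IsIntegral) (h : Cen b w (PowerSeries.C π)) :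
    Cen (b.comp ψ) w (PowerSeries.C π) := by
  exact ⟨fun _ => h.1 _, fun f => (h.2 _).trans (C_dvd_sub hπ hC hψ f)⟩

/-- the map of fraction fields preserves the valuation of `π` -/
theorem pv_sub (hπ : Irreducible π) (hC : ∀ r, ψ (PowerSeries.C r) = PowerSeries.C r)
    (hψ : ψ.IsIntegral) {Ψ : Fr R⟦X⟧ →+* Fr R⟦X⟧} (hΨ : ∀ f, Ψ (fr R f) = fr R (ψ f))
    (hV : Cn1 (fr R) V (PowerSeries.C π)) (x : Fr R⟦X⟧) : V (Ψ x) = V x := by
  have e : (fr R).comp ψ = Ψ.comp (fr R) := RingHom.ext fun f => (hΨ f).symm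
  have h1 : Cen (fr R) (V.comap Ψ) (PowerSeries.C π) := by
    have := cen_down hπ hC hψ hV.1
    rwa [e] at this
  have h2 : Nrm (V.comap Ψ) :=
    ⟨fr R (PowerSeries.C π), by rw [Valuation.comap_apply, hΨ, hC, hV.2]⟩
  exact DFunLike.congr_fun (hV.nrm.eq_of_iff h2
    (hV.1.iff (isFr_alg _ _) (prime_ps_C hπ.prime) h1)) x

omit [CDVR R] in
theorem Disc.exists_fr (h : Disc a Θ t J ψ) :
    ∃ Ψ : Fr R⟦X⟧ →+* Fr R⟦X⟧, ∀ f, Ψ (fr R f) = fr R (ψ f) := by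
  exact (isFr_alg R⟦X⟧ (Fr R⟦X⟧)).exists_lift (β := (fr R).comp ψ)
    ((isFr_alg R⟦X⟧ (Fr R⟦X⟧)).1.comp h.inj)

omit [CDVR R] in
theorem Disc.const (h : Disc a Θ t J ψ) (r : R) :
    J (a (Polynomial.C r)) = fr R (PowerSeries.C r) := by
  rw [h.cmp, sbs_C, RingHom.id_apply, h.cst]

omit [CDVR R] in
theorem Disc.isUnit_iff (h : Disc a Θ t J ψ) (f : R⟦X⟧) : IsUnit (ψ f) ↔ IsUnit f := by
  have := h.int.isLocalHom h.inj
  exact isUnit_map_iff ψ f

theorem Disc.cen (hπ : Irreducible π) (h : Disc a Θ t J ψ)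
    (hV : Cen (fr R) V (PowerSeries.C π)) : Cen a (V.comap J) (Polynomial.C π) := by
  refine ⟨fun p => ?_, fun p => ?_⟩ <;> rw [Valuation.comap_apply, h.cmp]
  · exact hV.1 _
  · rw [hV.2, C_dvd_sub hπ h.cst h.int, C_dvd_sh]

theorem Disc.cn1 (hπ : Irreducible π) (h : Disc a Θ t J ψ)
    (hV : Cn1 (fr R) V (PowerSeries.C π)) : Cn1 a (V.comap J) (Polynomial.C π) := by
  exact ⟨h.cen hπ hV.1, by rw [Valuation.comap_apply, h.const, hV.2]⟩

theorem Disc.hor (hπ : Irreducible π) (h : Disc a Θ t J ψ) {P : R⟦X⟧}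
    (h1 : ¬Associated P (PowerSeries.C π)) (hP : Prime P) (hV : Cen (fr R) V P) :
    Hor a (V.comap J) ∧ ∀ p, V (J (a p)) ≤ 1 := by
  refine ⟨fun r hr => ?_, fun p => by rw [h.cmp]; exact hV.1 _⟩
  obtain ⟨n, u, rfl⟩ := IsDiscreteValuationRing.eq_unit_mul_pow_irreducible hr hπ
  rw [Valuation.comap_apply, h.const, hV.eq_one, map_mul, map_pow,
    (u.isUnit.map PowerSeries.C).dvd_mul_left]
  exact fun hd => h1 (hP.associated_of_dvd (prime_ps_C hπ.prime) (hP.dvd_of_dvd_pow hd))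

theorem Disc.unm (hπ : Irreducible π) (h : Disc a Θ t J ψ) {P : R⟦X⟧}
    (h1 : ¬Associated P (PowerSeries.C π)) (h2 : ¬Associated P PowerSeries.X) (hP : Prime P)
    (hV : Cen (fr R) V P) : Unm a Θ (V.comap J) := by
  obtain ⟨h3, h4⟩ := h.hor hπ h1 hP hV
  obtain ⟨e, he⟩ := h.mark
  refine ⟨h3, h4 _, ?_⟩
  rw [Valuation.comap_apply, h.cmp, hV.eq_one, he.dvd_iff_dvd_right]
  exact fun hd => h2 (hP.associated_of_dvd PowerSeries.X_prime (hP.dvd_of_dvd_pow hd))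

/-- `R⟦X⟧` is factorial, so normal -/
theorem Disc.mem_of_int (h : Disc a Θ t J ψ) {x : F} (hx : a.IsIntegralElem x) :
    ∃ y, J x = fr R y := by
  obtain ⟨p, hm, e⟩ := hx
  have h1 : J.comp a = (fr R).comp (ψ.comp (sh t)) := RingHom.ext h.cmp
  have h2 : IsIntegral R⟦X⟧ (J x) := ⟨p.map (ψ.comp (sh t)), hm.map _, by
    rw [Polynomial.eval₂_map, ← h1, ← Polynomial.hom_eval₂, e, map_zero]⟩
  exact (IsIntegrallyClosed.isIntegral_iff.1 h2).imp fun _ => Eq.symm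

/-- `ψ (sh t (X - C s))` divides `X ^ e` and is not a unit; `sub_sh` -/
theorem Disc.root (h : Disc a Θ t J ψ) {s : R} (hs : Θ.eval s = 0) (ht : ¬IsUnit (t - s)) :
    ∃ (e : ℕ) (ε : R⟦X⟧), 0 < e ∧ IsUnit ε ∧
      PowerSeries.C t + ψ PowerSeries.X = PowerSeries.C s + PowerSeries.X ^ e * ε ∧ ∀ p, J (a p) =
        fr R (p.eval₂ PowerSeries.C (PowerSeries.C s + PowerSeries.X ^ e * ε)) := by
  obtain ⟨k, hk⟩ := h.mark
  obtain ⟨e, -, he⟩ := (dvd_prime_pow PowerSeries.X_prime k).1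
    ((map_dvd ψ (map_dvd (sh t) (Polynomial.dvd_iff_isRoot.2 hs))).trans hk.dvd)
  have h0 : 0 < e := Nat.pos_of_ne_zero fun h0 => ht (by
    rw [h0, pow_zero, associated_one_iff_isUnit, h.isUnit_iff,
      PowerSeries.isUnit_iff_constantCoeff, cc_sh] at he
    simpa using he)
  obtain ⟨u, hu⟩ := he.symm
  have h1 : PowerSeries.C t + ψ PowerSeries.X =
      PowerSeries.C s + PowerSeries.X ^ e * (u : R⟦X⟧) := by
    rw [hu, map_sub, sbs_X, sbs_C, map_sub, map_add, pow_one, RingHom.id_apply, h.cst, h.cst,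
      add_sub_cancel]
  refine ⟨e, u, h0, u.isUnit, h1, fun p => ?_⟩
  rw [h.cmp, sub_sh, h.cst, h1, RingHom.ext (f := ψ.comp PowerSeries.C) h.cst]

omit [CDVR R] in
/-- a disc of a larger field -/
theorem Disc.ext {F' : Type} [Field F'] (h : Disc a Θ t J ψ) {i : F →+* F'} {J' : F' →+* Fr R⟦X⟧}
    (e : ∀ x, J' (i x) = J x) : Disc (i.comp a) Θ t J' ψ := by
  refine ⟨h.cst, h.inj, h.int, fun p => (e _).trans (h.cmp p), top_unique ?_, h.mark⟩
  rw [← h.gen]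
  refine Subfield.closure_mono (Set.union_subset_union_left _ ?_)
  rintro _ ⟨x, rfl⟩
  exact ⟨i x, e x⟩

omit [CDVR R] in
theorem disc_id (hJ : ∀ p, J (a p) = fr R (sh t p))
    (hm : ∃ e : ℕ, Associated (sh t Θ) (PowerSeries.X ^ e)) : Disc a Θ t J (RingHom.id _) := by
  exact ⟨fun _ => rfl, fun _ _ h => h, RingHom.isIntegral_of_surjective _ fun x => ⟨x, rfl⟩, hJ,
    top_unique fun x _ => mem_of_isFr (isFr_alg R⟦X⟧ (Fr R⟦X⟧)) (RingHom.id _) _
      (fun f => Subfield.subset_closure (Or.inr ⟨f, rfl⟩)) x, hm⟩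

omit [CDVR R] in
/-- `exists_sub`, `sub_inj`, `sub_int`, `sub_gen` -/
theorem disc_mk {e : ℕ} {ε : R⟦X⟧} (he : 0 < e) (hε : IsUnit ε) (hJ : ∀ p, J (a p) =
      fr R (p.eval₂ PowerSeries.C (PowerSeries.C t + PowerSeries.X ^ e * ε)))
    (hX : fr R PowerSeries.X ∈ J.range)
    (hm : ∃ k : ℕ, Associated (sh t Θ) (PowerSeries.X ^ k)) : ∃ ψ, Disc a Θ t J ψ := by
  obtain ⟨ψ, h1, h2⟩ := exists_sub (PowerSeries.X ^ e * ε) (by simp [he.ne'])
  obtain ⟨k, hk⟩ := hm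
  refine ⟨ψ, h1, sub_inj h1 he hε h2, sub_int h1 he hε h2, fun p => ?_,
    sub_gen h1 he hε h2 _ (fun f => Subfield.subset_closure (Or.inr ⟨f, rfl⟩))
      (Subfield.subset_closure (Or.inl hX)), e * k, (hk.map ψ).trans ?_⟩
  · rw [hJ, sub_sh, h1, h2, RingHom.ext (f := ψ.comp PowerSeries.C) h1]
  · rw [map_pow, h2, pow_mul]
    exact (associated_mul_unit_left _ _ hε).pow_pow

omit [IsDomain R] [CDVR R] in
theorem Unm.of_rvs {v : Vl F} (h : Unm (rvs a) (Polynomial.X * Θ.reverse) v) : Unm a Θ v := by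
  have h1 := h.of_mul.2.2
  have h2 := h.2.2
  rw [map_mul, map_mul, h1, one_mul] at h2
  rw [rvs_X, map_inv₀, inv_eq_one] at h1
  refine ⟨hor_rvs.1 h.1, h1.le, ?_⟩
  rw [rvs_reverse (v.ne_zero_iff.1 (h1 ▸ one_ne_zero)) Θ, map_mul, map_pow, h1, h2, one_pow,
    one_mul]

omit [IsDomain R] [CDVR R] in
theorem TW.rvs {m : ℕ} {u : F} (h : TW m a Θ u) : TW m (rvs a) (Polynomial.X * Θ.reverse) u := by
  exact fun v hv hu => h v hv hu.of_rvs

omit [IsDomain R] [CDVR R] in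
theorem UnU.rvs {E : Type} [Field E] [Algebra E F] (h : UnU E a Θ) :
    UnU E (rvs a) (Polynomial.X * Θ.reverse) := by
  exact fun w hw => h w hw.of_rvs

theorem mark_inf (hm : Θ.Monic) :
    ∃ e : ℕ, Associated (sh 0 (Polynomial.X * Θ.reverse)) (PowerSeries.X ^ e) := by
  refine ⟨1, ?_⟩
  rw [map_mul, sbs_X, map_zero, zero_add]
  refine associated_mul_unit_left _ _ ?_
  rw [PowerSeries.isUnit_iff_constantCoeff, cc_sh, ← Polynomial.coeff_zero_eq_eval_zero,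
    Polynomial.coeff_zero_reverse, hm.leadingCoeff]
  exact isUnit_one

theorem mark_unit (h : IsUnit (Θ.eval t)) :
    ∃ e : ℕ, Associated (sh t Θ) (PowerSeries.X ^ e) := by
  refine ⟨0, ?_⟩
  rwa [pow_zero, associated_one_iff_isUnit, PowerSeries.isUnit_iff_constantCoeff, cc_sh]

/-- the residue field presented by a surjection -/
theorem res_of_surj {κ : Type} [Field κ] {r : R →+* κ} (hr : Function.Surjective r) :
    (∀ x, r x = 0 ↔ ¬IsUnit x) ∧ (IsAlgClosed κ → IsAlgClosed (ResidueField R)) ∧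
      ∃ e : ResidueField R ≃+* κ, ∀ x, e (residue R x) = r x := by
  have h := eq_maximalIdeal (RingHom.ker_isMaximal_of_surjective r hr)
  let e : ResidueField R ≃+* κ :=
    (Ideal.quotEquivOfEq h.symm).trans (RingHom.quotientKerEquivOfSurjective hr)
  refine ⟨fun x => ?_, fun _ => IsAlgClosed.of_ringEquiv κ _ e.symm, e, fun _ => rfl⟩
  rw [← RingHom.mem_ker, h, mem_maximalIdeal, mem_nonunits_iff]

end Pool.Agent.ZFy.GM
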